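import Pool.Agent.Helper13.LT.W1
import Pool.Agent.SC.H1
import Pool.Agent.SC.Cov
import Pool.Agent.SC.Weights
import Pool.Agent.Helper17.FF.PicDiv

/-!
# Block W2: the weights theorem for `RCover`

`dvd_ord`: let `P` be a place of `N`, `m = ord_P f`, and suppose `n ∤ m`.  `N(w)/N` is cyclic (Kummer)
and ramified at `P`: the places of `N(w)` above `P` have `n · ord(w) = e m`, so `e > 1`.  As the
residue fields are `E`, the stabilizer in `Gal(N(w)/N)` of a place above `P` is nontrivial, and by
transitivity of `Gal(R/N(w))` on the places of `R` above a place of `N(w)` (`SC.exists_conj_val`) a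
nontrivial element lifts to an automorphism of `R` over `N ⊇ M'` which fixes a place of `R`.
This contradicts `free`.
(Elementary alternative: let `Q` be a place of `R` above `P`; every `g ∈ Gal(R/N)` fixing `Q` is trivial, so
`Gal(R/N)` acts freely on the places above `P`...)

`weights`: the proof of `SC.weights` (SC/Weights.lean) with `weights_ring_class` (W1) in place of
`weights_ring`; `dvd_ord` replaces `IsCover.dvd_ord`, and the field `div` gives `hdiv`: if `w` is a root
for the ideal `I` (`w^{ℓ^a} ∈ N`), then `w' ^ (ℓ^n) = w g`, `g ∈ N`, and `w'` is a root for an ideal `J`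
with `J^{ℓ^n}` in the class of `I` (`dvd_ord` for `w'`).
-/

universe u

set_option linter.unusedSectionVars false

namespace Pool.Agent.LT

open VC Pool.Agent.SC

/-- The values of an extension in which no automorphism (except the identity) fixes the place
are the values of the base field. -/
theorem h27_unram {C M Ω : Type u} [Field C] [Field M] [Field Ω] [Algebra C M] [Algebra C Ω]
    [Algebra M Ω] [IsScalarTower C M Ω] [IsAlgClosed C] (hM : IsFunctionField C M) [IsGalois M Ω]
    {W : ValuationSubring Ω} (hW : ∀ c : C, algebraMap C Ω c ∈ W) (hW1 : W ≠ ⊤)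
    (hu : ∀ σ : Ω ≃ₐ[M] Ω, (∀ z, σ z ∈ W ↔ z ∈ W) → ∀ z, σ z = z) (u : Ω) :
    ∃ m : M, W.valuation u = W.valuation (algebraMap M Ω m) := by
  classical
  by_cases hu0 : u = 0
  · exact ⟨0, by rw [hu0, map_zero (algebraMap M Ω)]⟩
  let L0 := FiniteGaloisIntermediateField.adjoin M ({u} : Set Ω)
  let L : IntermediateField M Ω := L0.toIntermediateField
  have huL : u ∈ L := FiniteGaloisIntermediateField.subset_adjoin M {u} rfl
  have hfin : FiniteDimensional M L := L0.finiteDimensional
  have hgal : IsGalois M L := L0.isGalois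
  have hN : IsFunctionField C L := isFunctionField_of_finite_cov hM
  have htow : IsScalarTower C L Ω := IsScalarTower.of_algebraMap_eq (fun c => by
    rw [IsScalarTower.algebraMap_apply C M L, ← IsScalarTower.algebraMap_apply M L Ω,
      ← IsScalarTower.algebraMap_apply])
  let j : (L ≃ₐ[M] L) → (L →+* Ω) := fun σ => (algebraMap L Ω).comp (σ : L →+* L)
  have hne : ∀ σ : L ≃ₐ[M] L, W.comap (j σ) ≠ ⊤ := fun σ h => by
    apply hW1
    refine eq_top_of_forall_mem (M := M) (fun m => ?_)
    have h1 : algebraMap M L m ∈ W.comap (j σ) := by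
      rw [h]; trivial
    have h2 : algebraMap L Ω (σ (algebraMap M L m)) ∈ W := h1
    rwa [σ.commutes, ← IsScalarTower.algebraMap_apply] at h2
  have hco : ∀ (σ : L ≃ₐ[M] L) (c : C), j σ (algebraMap C L c) ∈ W := by
    intro σ c
    have h1 : j σ (algebraMap C L c) = algebraMap C Ω c := by
      rw [IsScalarTower.algebraMap_apply C M L]
      change algebraMap L Ω (σ (algebraMap M L (algebraMap C M c))) = _
      rw [σ.commutes, ← IsScalarTower.algebraMap_apply, ← IsScalarTower.algebraMap_apply]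
    rw [h1]
    exact hW c
  let pl : (L ≃ₐ[M] L) → Place C L := fun σ => plc W (j σ) (hco σ) (hne σ)
  let g : L := ⟨u, huL⟩
  -- the places are different
  have hdiff : ∀ σ : L ≃ₐ[M] L, pl σ = pl 1 → σ = 1 := by
    intro σ hσ
    let σ2 : Ω ≃ₐ[M] Ω := σ.liftNormal Ω
    have hσ2 : ∀ x : L, σ2 (algebraMap L Ω x) = algebraMap L Ω (σ x) :=
      fun x => σ.liftNormal_commutes Ω x
    obtain ⟨h, hh⟩ := exists_conj_val (L := L) W (W.comap (σ2 : Ω →+* Ω)) (fun c => by
      change algebraMap L Ω c ∈ W ↔ σ2 (algebraMap L Ω c) ∈ W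
      rw [hσ2]
      have h1 : c ∈ (pl σ).ring ↔ c ∈ (pl 1).ring := by rw [hσ]
      exact h1.symm)
    let ρ : Ω ≃ₐ[M] Ω := (h.restrictScalars M).trans σ2
    have hρ := hu ρ (fun z => hh z)
    ext x
    have h1 : ρ (algebraMap L Ω x) = algebraMap L Ω x := hρ _
    have h2 : ρ (algebraMap L Ω x) = σ2 (h (algebraMap L Ω x)) := rfl
    rw [h2, h.commutes, hσ2] at h1
    exact h1
  -- approximation
  let S : Finset (Place C L) := Finset.univ.image pl
  have hg0 : g ≠ 0 := fun h => hu0 (congrArg Subtype.val h)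
  have hvg : FF.val hN (pl 1) g ≠ 0 := (Valuation.ne_zero_iff _).mpr hg0
  obtain ⟨z, hz⟩ := FF.approx hN S (fun Q => if Q = pl 1 then g else 1)
    (min 0 (WithZero.log (FF.val hN (pl 1) g)))
  -- at `1`
  have hz0 : W.valuation (z : Ω) = W.valuation u := by
    have h1 := hz (pl 1) (Finset.mem_image_of_mem _ (Finset.mem_univ _))
    rw [if_pos rfl] at h1
    have h2 : FF.val hN (pl 1) ((z - g) / g) < 1 := by
      rw [map_div₀, div_lt_one₀ (zero_lt_iff.mpr hvg)]
      refine lt_of_lt_of_le h1 ?_
      conv_rhs => rw [← WithZero.exp_log hvg]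
      rw [WithZero.exp_le_exp]
      exact min_le_right _ _
    rw [FF.val_lt_one_iff hN] at h2
    have h3 := mem_nonunits_plc h2
    have h4 : W.valuation ((z : Ω) - u) < W.valuation u := by
      have h5 : W.valuation (((z : Ω) - u) / u) < 1 := h3
      rw [map_div₀] at h5
      exact (div_lt_one₀ (zero_lt_iff.mpr ((Valuation.ne_zero_iff _).mpr hu0))).1 h5
    exact Valuation.map_eq_of_sub_lt _ h4
  have hz1 : ∀ σ : L ≃ₐ[M] L, σ ≠ 1 → W.valuation (j σ z) = 1 := by
    intro σ hσ
    have h1 := hz (pl σ) (Finset.mem_image_of_mem _ (Finset.mem_univ _))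
    rw [if_neg (fun h => hσ (hdiff σ h))] at h1
    have h2 : FF.val hN (pl σ) (z - 1) < 1 := by
      refine lt_of_lt_of_le h1 ?_
      rw [← WithZero.exp_zero, WithZero.exp_le_exp]
      exact min_le_left _ _
    rw [FF.val_lt_one_iff hN] at h2
    have h3 := mem_nonunits_plc h2
    have h4 : W.valuation (j σ z - 1) < W.valuation 1 := by
      rw [map_one W.valuation]
      have h5 : W.valuation (j σ (z - 1)) < 1 := h3
      rwa [map_sub, map_one] at h5
    rw [Valuation.map_eq_of_sub_lt _ h4, map_one]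
  refine ⟨Algebra.norm M z, ?_⟩
  have hnorm : algebraMap M Ω (Algebra.norm M z) = ∏ σ : L ≃ₐ[M] L, j σ z := by
    rw [IsScalarTower.algebraMap_apply M L Ω, Algebra.norm_eq_prod_automorphisms, map_prod]
    rfl
  rw [hnorm, map_prod,
    ← Finset.mul_prod_erase Finset.univ _ (Finset.mem_univ (1 : L ≃ₐ[M] L)),
    Finset.prod_eq_one (fun σ hσ => hz1 σ (Finset.ne_of_mem_erase hσ)), mul_one]
  exact hz0.symm

/-- If `w ^ n` is in the level `N` then all its orders are divisible by `n`. -/
theorem RCover.dvd_ord {E R : Type u} [Field E] [IsAlgClosed E] [CharZero E] [Field R]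
    [Algebra E R] {M' : IntermediateField E R} (hc : RCover M') {N : IntermediateField E R}
    (hMN : M' ≤ N) (hN : IsFunctionField E N) {w : R} {n : ℕ} (hn : 0 < n) {f : N} (hf : f ≠ 0)
    (hw : w ^ n = f) (P : Place E N) : (n : ℤ) ∣ ord P.ring f := by
  obtain ⟨B, hB⟩ := exists_comap_eq (algebraMap N R) P.ring
  have hE : ∀ c : E, algebraMap E R c ∈ B := by
    intro c
    rw [IsScalarTower.algebraMap_apply E N R]
    exact (hB _).2 (P.algebraMap_mem c)
  have hBne : B ≠ ⊤ := by
    intro h
    apply P.ne_top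
    rw [eq_top_iff]
    intro x _
    rw [← hB, h]
    trivial
  let i1 : Algebra M' N := (IntermediateField.inclusion hMN).toRingHom.toAlgebra
  have i2 : IsScalarTower M' N R := IsScalarTower.of_algebraMap_eq fun x => rfl
  have i3 := hc.gal
  have i4 : IsGalois N R := IsGalois.tower_top_of_isGalois M' N R
  obtain ⟨m', hval⟩ := h27_unram (C := E) (M := N) hN hE hBne (fun σ hσ z => by
    let ρ : R ≃ₐ[M'] R := AlgEquiv.ofRingEquiv (f := (σ : R ≃+* R))
      (fun m => σ.commutes (⟨m, hMN m.2⟩ : N))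
    have h1 := hc.free ρ B hE hBne hσ
    exact congrArg (fun τ : R ≃ₐ[M'] R => τ z) h1) w
  have hw0 : w ≠ 0 := by
    rintro rfl
    rw [zero_pow hn.ne'] at hw
    exact hf (Subtype.ext hw.symm)
  have hm'0 : m' ≠ 0 := by
    rintro rfl
    rw [map_zero, map_zero] at hval
    exact hw0 (by simpa using hval)
  have hm0 : (m' : R) ≠ 0 := fun h => hm'0 (Subtype.ext h)
  have h1 : B.valuation ((f / m' ^ n : N) : R) = 1 := by
    have : ((f / m' ^ n : N) : R) = w ^ n / (m' : R) ^ n := by
      rw [hw]; rfl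
    have hval' : B.valuation w = B.valuation (m' : R) := hval
    rw [this, map_div₀, map_pow, map_pow, hval']
    apply div_self
    apply pow_ne_zero
    simpa using hm0
  have h2 := ord_zero_of_val_unit hN P hB (div_ne_zero hf (pow_ne_zero n hm'0)) h1
  rw [FF.ord_div hN P hf (pow_ne_zero n hm'0), FF.ord_pow hN P hm'0] at h2
  exact ⟨ord P.ring m', by linarith⟩

/-- Roots of ideals are unique. -/
theorem h27_pow_inj {B : Type*} [CommRing B] [IsDedekindDomain B] {I J : Ideal B} {n : ℕ}
    (hn : n ≠ 0) (hI : I ≠ ⊥) (hJ : J ≠ ⊥) (h : I ^ n = J ^ n) : I = J := by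
  classical
  have h1 := congrArg UniqueFactorizationMonoid.normalizedFactors h
  rw [UniqueFactorizationMonoid.normalizedFactors_pow,
    UniqueFactorizationMonoid.normalizedFactors_pow] at h1
  have h2 : UniqueFactorizationMonoid.normalizedFactors I =
      UniqueFactorizationMonoid.normalizedFactors J := by
    ext p
    have h3 := congrArg (Multiset.count p) h1
    rw [Multiset.count_nsmul, Multiset.count_nsmul] at h3
    exact Nat.eq_of_mul_eq_mul_left (Nat.pos_of_ne_zero hn) h3
  rw [← Ideal.prod_normalizedFactors_eq_self hI, h2, Ideal.prod_normalizedFactors_eq_self hJ]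

/-- **The weights theorem** for the covers `RCover`. -/
theorem RCover.weights {E R : Type u} [Field E] [IsAlgClosed E] [CharZero E] [Field R]
    [Algebra E R] {M' : IntermediateField E R} (hc : RCover M') {α : R ≃+* R}
    (hα : ∀ m ∈ M', α m = m) {H : Subgroup (R ≃+* R)} (hrel : CyclRel H α)
    (hfrob : HasFrob E H) (z : R) : α z = z := by
  by_contra hz
  have := hc.gal
  have hαE : ∀ c : E, α (algebraMap E R c) = algebraMap E R c :=
    fun c => hα _ (M'.algebraMap_mem c)
  let a : R ≃ₐ[M'] R := AlgEquiv.ofRingEquiv (f := α) (fun m => hα m m.2)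
  have hapow : ∀ (i : ℕ) (y : R), (a ^ i) y = (α ^ i) y := by
    intro i
    induction i with
    | zero => intro y; rfl
    | succ i ih =>
      intro y
      rw [pow_succ', pow_succ', AlgEquiv.mul_apply, ih]
      rfl
  obtain ⟨m, hm, hmz⟩ := exists_autpow_fix a (Algebra.IsAlgebraic.isAlgebraic (R := M') z)
  obtain ⟨w, l, hl, hw, hwl⟩ := exists_kummer8 hαE hz ⟨m, hm, by rw [← hapow]; exact hmz⟩
  -- the level
  let N' : IntermediateField M' R := IntermediateField.adjoin M' {w ^ l}
  have hfin : FiniteDimensional M' N' := IntermediateField.adjoin.finiteDimensional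
    (Algebra.IsIntegral.isIntegral _)
  let N : IntermediateField E R := N'.restrictScalars E
  have hMN : M' ≤ N := fun x hx => N'.algebraMap_mem ⟨x, hx⟩
  have hN : IsFunctionField E N := by
    have h1 : IsFunctionField E N' := isFunctionField_of_finite8 (M := M') hc.ff
    exact h1
  have hNfix : ∀ x ∈ N, α x = x := by
    let Fx : IntermediateField M' R :=
      { carrier := {x | α x = x}
        mul_mem' := fun {x y} hx hy => by
          change α (x * y) = x * y
          rw [map_mul, show α x = x from hx, show α y = y from hy]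
        add_mem' := fun {x y} hx hy => by
          change α (x + y) = x + y
          rw [map_add, show α x = x from hx, show α y = y from hy]
        algebraMap_mem' := fun m => hα m m.2
        inv_mem' := fun x hx => by
          change α x⁻¹ = x⁻¹
          rw [map_inv₀, show α x = x from hx] }
    have h1 : N' ≤ Fx := by
      rw [IntermediateField.adjoin_le_iff, Set.singleton_subset_iff]
      exact hwl
    exact fun x hx => h1 hx
  have hRN : Riemann E N := FF.riemann hN
  obtain ⟨P0⟩ : Nonempty (Place E N) := by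
    have hN2 := hN
    obtain ⟨t, ht, -⟩ := hN2
    obtain ⟨P, -⟩ := exists_place hN ht
    exact ⟨P⟩
  obtain ⟨hDed, hFrac⟩ := isDedekind_ringAway hN hRN P0
  have hB := onePt_ringAway hN hRN P0
  have hTB : IsScalarTower E (ringAway P0) R := IsScalarTower.of_algebraMap_eq fun x => rfl
  have hinj : Function.Injective (algebraMap (ringAway P0) R) := by
    intro x y hxy
    have h1 : ((x : N) : R) = ((y : N) : R) := hxy
    exact Subtype.ext (Subtype.ext h1)
  have hℓ0 : (l : E) ≠ 0 := by exact_mod_cast hl.ne_zero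
  have hdiv : ∀ (I : Ideal (ringAway P0)) (v : R), RootOf l I v → ∀ n : ℕ,
      ∃ (J : Ideal (ringAway P0)) (w' : R), RootOf l J w' ∧ SameClass I (J ^ l ^ n) := by
    intro I v hIv n
    have hv0 : v ≠ 0 := hIv.ne_zero hinj hl.ne_zero
    obtain ⟨hI0, k, b, hb, hvb⟩ := hIv
    have hb0 : b ≠ 0 := by
      rintro rfl
      rw [map_zero] at hvb
      exact pow_ne_zero _ hv0 hvb
    have hvN : v ^ l ^ k ∈ N := by
      rw [hvb]
      exact (b : N).2
    obtain ⟨w1, hw10, hw1⟩ := hc.div N hMN hN v (l ^ k) (l ^ n) (pow_pos hl.pos _)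
      (pow_pos hl.pos _) hv0 hvN
    let g : N := ⟨w1 ^ l ^ n / v, hw1⟩
    obtain ⟨x, y, hy, hxy⟩ := IsFractionRing.div_surjective (A := ringAway P0) g
    have hy0 : y ≠ 0 := nonZeroDivisors.ne_zero hy
    have hyN : (y : N) ≠ 0 := fun h => hy0 (Subtype.ext h)
    have hyR : ((y : N) : R) ≠ 0 := fun h => hyN (Subtype.ext h)
    have hxy' : (x : N) = g * y := by
      have h1 : (x : N) / (y : N) = g := hxy
      rw [← h1]; field_simp
    have hxR : ((x : N) : R) = w1 ^ l ^ n / v * ((y : N) : R) := congrArg Subtype.val hxy'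
    have hx0 : x ≠ 0 := by
      rintro rfl
      have h1 : (0 : R) = w1 ^ l ^ n / v * ((y : N) : R) := hxR
      exact (mul_ne_zero (div_ne_zero (pow_ne_zero _ hw10) hv0) hyR) h1.symm
    let h : ringAway P0 := y ^ (l ^ n - 1) * x
    have hh0 : h ≠ 0 := mul_ne_zero (pow_ne_zero _ hy0) hx0
    have hhR : ((h : N) : R) * v = (((y : N) : R) * w1) ^ l ^ n := by
      have h1 : ((h : N) : R) = ((y : N) : R) ^ (l ^ n - 1) * ((x : N) : R) := rfl
      have h2 : ((y : N) : R) ^ l ^ n = ((y : N) : R) ^ (l ^ n - 1) * ((y : N) : R) := by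
        rw [← pow_succ, Nat.sub_add_cancel (Nat.one_le_iff_ne_zero.2 (pow_pos hl.pos n).ne')]
      rw [h1, hxR, mul_pow, h2]
      field_simp
    let c : ringAway P0 := h ^ l ^ k * b
    have hc0 : c ≠ 0 := mul_ne_zero (pow_ne_zero _ hh0) hb0
    have hcN : (c : N) ≠ 0 := fun h => hc0 (Subtype.ext h)
    have hcR : (((y : N) : R) * w1) ^ l ^ (n + k) = ((c : N) : R) := by
      have h1 : ((c : N) : R) = ((h : N) : R) ^ l ^ k * algebraMap (ringAway P0) R b := rfl
      rw [h1, ← hvb, ← mul_pow, hhR, ← pow_mul, ← pow_add]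
    obtain ⟨J, hJ⟩ := exists_root_ideal hN hRN P0 c hc0 (n := l ^ (n + k)) (pow_pos hl.pos _)
      (fun P _ => hc.dvd_ord hMN hN (pow_pos hl.pos _) hcN hcR P)
    have hJ0 : J ≠ ⊥ := by
      rintro rfl
      have h1 : (⊥ : Ideal (ringAway P0)) ^ l ^ (n + k) = ⊥ := zero_pow (pow_pos hl.pos _).ne'
      rw [h1, Ideal.span_singleton_eq_bot] at hJ
      exact hc0 hJ
    refine ⟨J, ((y : N) : R) * w1, ⟨hJ0, n + k, c, hJ.symm, hcR⟩, h, 1, hh0, one_ne_zero, ?_⟩
    rw [Ideal.span_singleton_one, Ideal.top_mul]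
    refine h27_pow_inj (n := l ^ k) (pow_pos hl.pos _).ne' ?_ (pow_ne_zero _ hJ0) ?_
    · exact mul_ne_zero (by rwa [Ne, Ideal.zero_eq_bot, Ideal.span_singleton_eq_bot]) hI0
    · rw [mul_pow, hb, Ideal.span_singleton_pow, Ideal.span_singleton_mul_span_singleton,
        ← pow_mul, ← pow_add, ← hJ]
  have hαB : ∀ b : ringAway P0, α (algebraMap (ringAway P0) R b) = algebraMap (ringAway P0) R b :=
    fun b => hNfix _ (b : N).2
  -- the function `w ^ l`
  have hw0 : w ≠ 0 := by
    rintro rfl
    exact hw (map_zero α)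
  let g : N := ⟨w ^ l, IntermediateField.mem_adjoin_simple_self M' (w ^ l)⟩
  have hg0 : g ≠ 0 := fun h => pow_ne_zero l hw0 (congrArg Subtype.val h)
  obtain ⟨x, y, hy, hxy⟩ := IsFractionRing.div_surjective (A := ringAway P0) g
  have hy0 : y ≠ 0 := nonZeroDivisors.ne_zero hy
  have hyN : (y : N) ≠ 0 := fun h => hy0 (Subtype.ext h)
  have hxy' : (x : N) = g * y := by
    have h1 : (x : N) / (y : N) = g := hxy
    rw [← h1]; field_simp
  let b : ringAway P0 := y ^ (l - 1) * x
  have hbg : (b : N) = (y : N) ^ l * g := by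
    have h1 : (b : N) = (y : N) ^ (l - 1) * x := rfl
    rw [h1, hxy']
    conv_rhs => rw [← Nat.sub_add_cancel hl.one_le, pow_succ]
    ring
  have hb0 : b ≠ 0 := by
    intro h
    have h1 : (b : N) = 0 := congrArg Subtype.val h
    rw [hbg] at h1
    rcases mul_eq_zero.1 h1 with h2 | h2
    · exact pow_ne_zero l hyN h2
    · exact hg0 h2
  obtain ⟨I, hI⟩ := exists_root_ideal hN hRN P0 b hb0 hl.pos (fun P _ => by
    rw [hbg, FF.ord_mul hN P (pow_ne_zero l hyN) hg0, FF.ord_pow hN P hyN]
    exact dvd_add (dvd_mul_right _ _) (hc.dvd_ord hMN hN hl.pos hg0 rfl P))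
  have hIbot : I ≠ ⊥ := by
    rintro rfl
    have h1 : (⊥ : Ideal (ringAway P0)) ^ l = ⊥ := zero_pow hl.ne_zero
    rw [h1, Ideal.span_singleton_eq_bot] at hI
    exact hb0 hI
  have hRI : RootOf l I ((y : N) * w : R) := by
    refine ⟨hIbot, 1, b, by rw [pow_one, hI], ?_⟩
    rw [pow_one, mul_pow]
    have h1 : algebraMap (ringAway P0) R b = ((b : N) : R) := rfl
    rw [h1, hbg]
    rfl
  have hfix := weights_ring_class hB hinj hl hℓ0 hdiv hαB hrel hfrob hRI
  rw [map_mul, hNfix _ (y : N).2] at hfix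
  exact hw (mul_left_cancel₀ (fun h => hyN (Subtype.ext h)) hfix)

end Pool.Agent.LT
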