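import Mathlib

/-!
# Basic facts on `k = F(t, u)`
-/

universe u

namespace Pool.Agent.LT

open Polynomial

section Rational

variable {F k : Type u} [Field F] [Field k] [Algebra F k] {t u : k}

theorem algInd_symm (htu : AlgebraicIndependent F ![t, u]) : AlgebraicIndependent F ![u, t] := by
  have h1 := htu.comp ![1, 0] (by
    intro i j h
    fin_cases i <;> fin_cases j <;> simp_all)
  have h2 : (![t, u] ∘ ![1, 0] : Fin 2 → k) = ![u, t] := by
    ext i
    fin_cases i <;> rfl
  rwa [h2] at h1

theorem transc_t (htu : AlgebraicIndependent F ![t, u]) :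
    Transcendental (IntermediateField.adjoin F {u}) t := by
  intro h
  rw [IntermediateField.isAlgebraic_adjoin_iff] at h
  have h1 := htu.transcendental_adjoin (s := {1}) (i := 0) (by simp)
  rw [Set.image_singleton] at h1
  exact h1 h

theorem transc_u (htu : AlgebraicIndependent F ![t, u]) :
    Transcendental (IntermediateField.adjoin F {t}) u :=
  transc_t (algInd_symm htu)

theorem transc_F_t (htu : AlgebraicIndependent F ![t, u]) : Transcendental F t := by
  intro h
  exact transc_t htu (h.extendScalars (algebraMap F (IntermediateField.adjoin F {u})).injective)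

theorem transc_F_u (htu : AlgebraicIndependent F ![t, u]) : Transcendental F u :=
  transc_F_t (algInd_symm htu)

theorem adjoin_t_top (htop : IntermediateField.adjoin F {t, u} = ⊤) :
    IntermediateField.adjoin (IntermediateField.adjoin F {u}) {t} = ⊤ := by
  have hu : u ∈ IntermediateField.adjoin (IntermediateField.adjoin F {u}) {t} := by
    have h1 := (IntermediateField.adjoin (IntermediateField.adjoin F {u}) {t}).algebraMap_mem
      ⟨u, IntermediateField.mem_adjoin_simple_self _ _⟩
    exact h1
  have ht : t ∈ IntermediateField.adjoin (IntermediateField.adjoin F {u}) {t} :=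
    IntermediateField.mem_adjoin_simple_self _ _
  have h1 : (IntermediateField.adjoin F {t, u} : IntermediateField F k) ≤
      (IntermediateField.adjoin (IntermediateField.adjoin F {u}) {t}).restrictScalars F := by
    rw [IntermediateField.adjoin_le_iff]
    intro z hz
    rcases hz with hz | hz
    · rw [hz]; exact ht
    · rw [Set.mem_singleton_iff.1 hz]; exact hu
  rw [htop] at h1
  rw [eq_top_iff]
  intro z _
  exact h1 (IntermediateField.mem_top (x := z))

theorem adjoin_u_top (htop : IntermediateField.adjoin F {t, u} = ⊤) :
    IntermediateField.adjoin (IntermediateField.adjoin F {t}) {u} = ⊤ := by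
  refine adjoin_t_top ?_
  rw [Set.pair_comm]
  exact htop

theorem fg_adjoin (hF : ∃ S : Finset F, Subfield.closure (S : Set F) = ⊤) (u : k) :
    ∃ S : Finset (IntermediateField.adjoin F {u}),
      Subfield.closure (S : Set (IntermediateField.adjoin F {u})) = ⊤ := by
  classical
  obtain ⟨S, hS⟩ := hF
  refine ⟨insert ⟨u, IntermediateField.mem_adjoin_simple_self _ _⟩
    (S.image (algebraMap F (IntermediateField.adjoin F {u}))), ?_⟩
  set T := Subfield.closure ((insert ⟨u, IntermediateField.mem_adjoin_simple_self _ _⟩
    (S.image (algebraMap F (IntermediateField.adjoin F {u}))) : Finset _) :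
      Set (IntermediateField.adjoin F {u})) with hT
  have hFT : ∀ c : F, algebraMap F (IntermediateField.adjoin F {u}) c ∈ T := by
    have h1 : (⊤ : Subfield F) ≤ T.comap (algebraMap F (IntermediateField.adjoin F {u})) := by
      rw [← hS, Subfield.closure_le]
      intro c hc
      refine Subfield.subset_closure ?_
      rw [Finset.coe_insert, Finset.coe_image]
      exact Or.inr ⟨c, hc, rfl⟩
    exact fun c => h1 (Subfield.mem_top c)
  have huT : (⟨u, IntermediateField.mem_adjoin_simple_self _ _⟩ :
      IntermediateField.adjoin F {u}) ∈ T := by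
    refine Subfield.subset_closure ?_
    rw [Finset.coe_insert]
    exact Or.inl rfl
  let T' : IntermediateField F k :=
    { T.map (algebraMap (IntermediateField.adjoin F {u}) k) with
      algebraMap_mem' := fun c => ⟨_, hFT c, rfl⟩ }
  have h2 : IntermediateField.adjoin F {u} ≤ T' := by
    rw [IntermediateField.adjoin_simple_le_iff]
    exact ⟨_, huT, rfl⟩
  rw [eq_top_iff]
  intro z _
  obtain ⟨w, hw, hwz⟩ := h2 z.2
  have h3 : w = z := Subtype.ext hwz
  rwa [← h3]

end Rational

end Pool.Agent.LT
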