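import Mathlib
import Pool.Agent.SC.H1

/-!
# Local form of `SC.H1.ord_eq_one`

If no nontrivial automorphism of `N / k(t)` fixes the place `P` above `t = 0` then `ord_P t = 1`.
-/

universe u

namespace Pool.Agent.LT

open VC Polynomial Module Pool.Agent.SC Pool.Agent.SC.H1 Pool.Agent.Helper91.Sect

variable {k M N : Type u} [Field k] [IsAlgClosed k] [CharZero k] [Field M] [Field N] [Algebra k M]
  [Algebra k N] [Algebra M N] [IsScalarTower k M N] [FiniteDimensional M N] [IsGalois M N]

omit [CharZero k] in
/-- If no nontrivial automorphism fixes a place then uniformizers of the rational function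
field remain uniformizers. -/
theorem ord_eq_one_local (hN : IsFunctionField k N)
    {t : M} (ht : IntermediateField.adjoin k {t} = ⊤) (htt : Transcendental k t)
    (P : Place k N) (hfree : ∀ (σ : N ≃ₐ[M] N), (∀ x, σ x ∈ P.ring ↔ x ∈ P.ring) → σ = 1)
    (hP : algebraMap M N t ∈ P.ring.nonunits) :
    ord P.ring (algebraMap M N t) = 1 := by
  classical
  have htt' : Transcendental k (algebraMap M N t) := transc_of htt
  have ht0 : algebraMap M N t ≠ 0 := by
    intro h0
    rw [h0] at htt'
    exact htt' isAlgebraic_zero
  let pl : (N ≃ₐ[M] N) → Place k N := fun σ =>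
    { ring := P.ring.comap ((σ : N ≃+* N) : N →+* N)
      algebraMap_mem := fun a => by
        have h1 : ((σ : N ≃+* N) : N →+* N) (algebraMap k N a) = algebraMap k N a := by
          rw [IsScalarTower.algebraMap_apply k M N]
          exact σ.commutes _
        rw [ValuationSubring.mem_comap, h1]
        exact P.algebraMap_mem a
      ne_top := by
        intro h
        apply P.ne_top
        rw [eq_top_iff]
        intro x _
        have h1 : σ.symm x ∈ P.ring.comap ((σ : N ≃+* N) : N →+* N) := by rw [h]; trivial
        rw [ValuationSubring.mem_comap] at h1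
        have h2 : ((σ : N ≃+* N) : N →+* N) (σ.symm x) = x := σ.apply_symm_apply x
        rwa [h2] at h1 }
  have hpl : ∀ σ x, x ∈ (pl σ).ring ↔ σ x ∈ P.ring := fun σ x => Iff.rfl
  have hinj : Function.Injective pl := by
    intro σ τ h
    have h1 : ∀ x, σ x ∈ P.ring ↔ τ x ∈ P.ring := fun x => by rw [← hpl, ← hpl, h]
    have h2 : τ * σ⁻¹ = 1 := by
      apply hfree
      intro x
      have h3 := h1 (σ⁻¹ x)
      have h4 : σ (σ⁻¹ x) = x := σ.apply_symm_apply x
      rw [h4] at h3
      exact h3.symm
    have h5 : τ = σ := by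
      rw [mul_inv_eq_one] at h2
      exact h2
    exact h5.symm
  have hord : ∀ σ, ord (pl σ).ring (algebraMap M N t) = ord P.ring (algebraMap M N t) := by
    intro σ
    have h1 := ord_comap_equiv (σ : N ≃+* N) P.ring (algebraMap M N t)
    have h2 : (σ : N ≃+* N) (algebraMap M N t) = algebraMap M N t := σ.commutes t
    rw [h2] at h1
    exact h1
  have hnon : ∀ σ, algebraMap M N t ∈ (pl σ).ring.nonunits := by
    intro σ
    have h1 := mem_nonunits_comap ((σ : N ≃+* N) : N →+* N) P.ring (algebraMap M N t)
    have h2 : ((σ : N ≃+* N) : N →+* N) (algebraMap M N t) = algebraMap M N t := σ.commutes t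
    rw [h2] at h1
    exact h1.2 hP
  have h1 := FF.sum_ord_le hN htt' (Finset.univ.image pl) (by
    intro R hR
    obtain ⟨σ, -, rfl⟩ := Finset.mem_image.1 hR
    exact hnon σ)
  rw [Finset.sum_image (fun σ _ τ _ h => hinj h), Finset.sum_congr rfl (fun σ _ => hord σ),
    Finset.sum_const, Finset.card_univ, finrank_adjoin ht, nsmul_eq_mul] at h1
  have h2 : Fintype.card (N ≃ₐ[M] N) = finrank M N := by
    rw [← Nat.card_eq_fintype_card]
    exact IsGalois.card_aut_eq_finrank M N
  rw [h2] at h1
  have h3 : 0 < finrank M N := finrank_pos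
  have h4 : 0 < ord P.ring (algebraMap M N t) := (FF.ord_pos_iff hN P ht0).2 hP
  have h5 : ord P.ring (algebraMap M N t) ≤ 1 := by
    by_contra hcon
    push Not at hcon
    have h6 : (finrank M N : ℤ) * 2 ≤ (finrank M N : ℤ) * ord P.ring (algebraMap M N t) := by
      apply mul_le_mul_of_nonneg_left _ (by positivity)
      omega
    have h7 : (0 : ℤ) < finrank M N := by exact_mod_cast h3
    omega
  omega

end Pool.Agent.LT
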