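import Pool.Agent.Helper13.LT.A12
import Pool.Agent.Helper13.LT.Ord1
import Pool.Agent.Helper13.LT.L0
import Pool.Agent.SC.H1
import Pool.Agent.SC.Cov
import Pool.Agent.SC.DefsP
import Pool.Agent.SC.Pub

/-!
# Block L1: the Lefschetz theorem, horizontal part

`k = F(t, u)` is the rational function field in two variables and `C` its algebraic closure.

Proof.  `Ω` = `algebraicClosure F(t) C`, `E` = `algebraicClosure F C` (both algebraically closed),
`O = W ∩ Ω`.  `Base E O t`: `W ⊇ F(u) ⊇ F`.  `Δ(t, U) ∈ Ω[U]` has a constant leading coefficient, so its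
set `B` of roots in `Ω` is contained in `O`, and the roots have different residues because
`Δ(0, U)` is separable of the same degree.  Let `N` be the Galois closure in `C` of `Ω(u)(z)` over
`Ω(u)`.  `Setup E O t B u` for `N`: let `P` be a place of `N / Ω` with `u - a ∈ 𝔪_P`, `a ∉ B`, `a ∈ Ω`;
extend `P` to a valuation ring `W'` of `C`; `W'` is `Horizontal` (`Δ(t, a) ≠ 0`), and so are its
conjugates; an automorphism `σ` of `N` over `Ω(u)` which fixes `P` lifts to an element `τ` of the inertia group of
`W'` (it is in the decomposition group after correction by `Gal(C/N)`, and the residue field of `W'` is `Ω`, on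
which `τ` is trivial: see `SC.H1.exists_inertia`, `SC.H1.fixes_of_place`).  `τ ∈ H` by `hhor`,
and its conjugates under `Gal(C/Ω(u))` are too, so `τ` fixes `z` and its conjugates, so `σ = 1`.
Now use `ord_eq_one_local` (Ord1.lean): no nontrivial automorphism fixes `P`, so `ord_P(u - a) = 1`.
`V = W ∩ N` is `Gauss E O u`.  `Fix u V z`: an automorphism `g` of `N` over `Ω(u)` which preserves `V` lifts to an
automorphism of `C` over `Ω(u)` preserving `W` (`exists_conj`), which is in `H` by `hdec`, so `g z = z`.  By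
`mem_adjoin_of_fix` (A12) `z ∈ Ω(u)`.
-/

universe u

namespace Pool.Agent.LT

open VC Polynomial Pool.Agent.SC

section Roots0

/-- two roots with the same residue are equal, if the reduction is separable -/
theorem l1_root_unique {F R : Type u} [Field F] [CommRing R] [IsDomain R] [IsLocalRing R]
    (φ : F →+* R) (τ : R) (hτ : τ ∈ IsLocalRing.maximalIdeal R) (Δ : F[X][X])
    (hsep : (Δ.map (evalRingHom 0)).Separable) {b b' : R}
    (hb : (Δ.map (eval₂RingHom φ τ)).eval b = 0) (hb' : (Δ.map (eval₂RingHom φ τ)).eval b' = 0)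
    (hbb : b' - b ∈ IsLocalRing.maximalIdeal R) : b = b' := by
  by_contra hne
  set f := Δ.map (eval₂RingHom φ τ) with hf
  set κ := IsLocalRing.residue R with hκ
  have hres : κ.comp (eval₂RingHom φ τ) = (κ.comp φ).comp (evalRingHom 0) := by
    have hτ0 : κ τ = 0 := (IsLocalRing.residue_eq_zero_iff _).2 hτ
    refine Polynomial.ringHom_ext (fun a => ?_) ?_
    · simp
    · simp [hτ0]
  have key : ∀ (Δ' : F[X][X]), κ ((Δ'.map (eval₂RingHom φ τ)).eval b) =
      (Δ'.map (evalRingHom 0)).eval₂ (κ.comp φ) (κ b) := by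
    intro Δ'
    rw [eval_map, Polynomial.hom_eval₂, hres, ← Polynomial.eval₂_map]
  have h1 : (Δ.map (evalRingHom 0)).eval₂ (κ.comp φ) (κ b) = 0 := by
    rw [← key, hb, map_zero]
  have h2 := hsep.eval₂_derivative_ne_zero (κ.comp φ) h1
  apply h2
  rw [Polynomial.derivative_map, ← key, ← Polynomial.derivative_map, ← hf,
    IsLocalRing.residue_eq_zero_iff]
  obtain ⟨c, hc⟩ := f.binomExpansion b (b' - b)
  rw [add_sub_cancel, hb', hb, zero_add] at hc
  have h3 : (b' - b) * (f.derivative.eval b + c * (b' - b)) = 0 := by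
    rw [hc]; ring
  rcases mul_eq_zero.1 h3 with h4 | h4
  · exact absurd (sub_eq_zero.1 h4).symm hne
  · rw [eq_neg_of_add_eq_zero_left h4]
    exact neg_mem (Ideal.mul_mem_left _ _ hbb)

end Roots0

section Roots

variable {F Ω : Type u} [Field F] [Field Ω] [Algebra F Ω] {O : ValuationSubring Ω}
  (hF : ∀ a : F, algebraMap F Ω a ∈ O) {t : Ω}

/-- the constants in `O` -/
noncomputable def l1_cO (hF : ∀ a : F, algebraMap F Ω a ∈ O) : F →+* O :=
  (algebraMap F Ω).codRestrict O.toSubring hF

include hF in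
theorem l1_eval_coe (ht : t ∈ O) (Δ : F[X][X]) (b : O) :
    (((Δ.map (eval₂RingHom (l1_cO hF) ⟨t, ht⟩)).eval b : O) : Ω) =
      (Δ.map (aeval t : F[X] →ₐ[F] Ω).toRingHom).eval (b : Ω) := by
  have h1 : (O.subtype).comp (eval₂RingHom (l1_cO hF) ⟨t, ht⟩) = (aeval t : F[X] →ₐ[F] Ω).toRingHom := by
    refine Polynomial.ringHom_ext (fun a => ?_) ?_
    · simp [l1_cO]
    · simp
  rw [← h1, ← Polynomial.map_map]
  exact (Polynomial.eval_map_apply O.subtype b).symm

include hF in
theorem l1_root_mem (ht : t ∈ O) {Δ : F[X][X]}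
    (hlead : ∃ c : F, c ≠ 0 ∧ Δ.leadingCoeff = C c) {b : Ω}
    (hb : (Δ.map (aeval t : F[X] →ₐ[F] Ω).toRingHom).eval b = 0) : b ∈ O := by
  obtain ⟨c, hc, hl⟩ := hlead
  set ψ := eval₂RingHom (l1_cO hF) ⟨t, ht⟩ with hψ
  have h1 : (O.subtype).comp ψ = (aeval t : F[X] →ₐ[F] Ω).toRingHom := by
    refine Polynomial.ringHom_ext (fun a => ?_) ?_
    · simp [l1_cO, hψ]
    · simp [hψ]
  have h2 : ψ Δ.leadingCoeff = l1_cO hF c := by rw [hl, hψ]; simp
  have h3 : ψ Δ.leadingCoeff ≠ 0 := by
    rw [h2, map_ne_zero_iff _ (l1_cO hF).injective]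
    exact hc
  have h4 : (Δ.map ψ).leadingCoeff = l1_cO hF c := by
    rw [Polynomial.leadingCoeff_map_of_leadingCoeff_ne_zero _ h3, h2]
  have h5 : (C (l1_cO hF c⁻¹) * Δ.map ψ).Monic := by
    refine Polynomial.monic_C_mul_of_mul_leadingCoeff_eq_one ?_
    rw [h4, ← map_mul, inv_mul_cancel₀ hc, map_one]
  have h6 : IsIntegral O b := by
    refine ⟨_, h5, ?_⟩
    rw [Polynomial.eval₂_mul]
    have h7 : Polynomial.eval₂ (algebraMap O Ω) b (Δ.map ψ) = 0 := by
      rw [← hb, ← h1, ← Polynomial.map_map, Polynomial.eval_map]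
      rfl
    rw [h7, mul_zero]
  obtain ⟨w, hw⟩ := IsIntegrallyClosed.algebraMap_eq_of_integral h6
  rw [← hw]
  exact w.2

include hF in
theorem l1_root_diff (ht : t ∈ O.nonunits) {Δ : F[X][X]}
    (hlead : ∃ c : F, c ≠ 0 ∧ Δ.leadingCoeff = C c) (hsep : (Δ.map (evalRingHom 0)).Separable)
    {b b' : Ω} (hb : (Δ.map (aeval t : F[X] →ₐ[F] Ω).toRingHom).eval b = 0)
    (hb' : (Δ.map (aeval t : F[X] →ₐ[F] Ω).toRingHom).eval b' = 0) (hne : b ≠ b') :
    b - b' ∉ O.nonunits := by
  intro hbb
  have htO : t ∈ O := O.nonunits_subset ht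
  have m1 := l1_root_mem hF htO hlead hb
  have m2 := l1_root_mem hF htO hlead hb'
  have key := l1_root_unique (l1_cO hF) (⟨t, htO⟩ : O) (by
    rw [← ValuationSubring.coe_mem_nonunits_iff]; exact ht) Δ hsep (b := ⟨b', m2⟩) (b' := ⟨b, m1⟩) (by
    apply Subtype.ext
    rw [l1_eval_coe hF htO]
    exact hb') (by
    apply Subtype.ext
    rw [l1_eval_coe hF htO]
    exact hb) (by
    rw [← ValuationSubring.coe_mem_nonunits_iff]
    exact hbb)
  exact hne (congrArg Subtype.val key).symm

include hF in
/-- the finite set of roots -/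
theorem l1_exists_roots [IsAlgClosed Ω] (ht : t ∈ O.nonunits) {Δ : F[X][X]}
    (hlead : ∃ c : F, c ≠ 0 ∧ Δ.leadingCoeff = C c) (hsep : (Δ.map (evalRingHom 0)).Separable) :
    ∃ B : Finset Ω, (∀ b ∈ B, b ∈ O) ∧ (∀ b ∈ B, ∀ b' ∈ B, b ≠ b' → b - b' ∉ O.nonunits) ∧
      ∀ a, a ∉ B → (Δ.map (aeval t : F[X] →ₐ[F] Ω).toRingHom).eval a ≠ 0 := by
  classical
  have htO : t ∈ O := O.nonunits_subset ht
  have h0 : (Δ.map (aeval t : F[X] →ₐ[F] Ω).toRingHom) ≠ 0 := by
    obtain ⟨c, hc, hl⟩ := hlead
    intro h
    have h1 := congrArg (fun p => p.coeff Δ.natDegree) h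
    simp only [Polynomial.coeff_map, Polynomial.coeff_zero] at h1
    have h2 : Δ.coeff Δ.natDegree = C c := hl
    rw [h2] at h1
    have h3 : (aeval t : F[X] →ₐ[F] Ω).toRingHom (C c) = algebraMap F Ω c := by simp
    rw [h3, map_eq_zero] at h1
    exact hc h1
  refine ⟨(Δ.map (aeval t : F[X] →ₐ[F] Ω).toRingHom).roots.toFinset, ?_, ?_, ?_⟩
  · intro b hb
    rw [Multiset.mem_toFinset, Polynomial.mem_roots h0] at hb
    exact l1_root_mem hF htO hlead hb
  · intro b hb b' hb'
    rw [Multiset.mem_toFinset, Polynomial.mem_roots h0] at hb hb'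
    exact l1_root_diff hF ht hlead hsep hb hb'
  · intro a ha h
    apply ha
    rw [Multiset.mem_toFinset, Polynomial.mem_roots h0]
    exact h

end Roots

section LiftCore

open Module Pool.Agent.Helper91.Sect Pool.Agent.SC.H1

section Lift

/-- from `InI` to `InInert` -/
theorem l1_inInert {k C : Type u} [Field k] [Field C] [Algebra k C] [IsGalois k C]
    (W : ValuationSubring C) {τ : C ≃ₐ[k] C} (h : InI (cen k W) τ) : InInert W τ := by
  have hV : ∀ c ∈ W.comap (algebraMap k C), algebraMap k C c ∈ W := fun c hc => hc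
  have hQ : cenV W hV = cen k W := by
    ext b
    rw [mem_cenV, mem_cen, ValuationSubring.mem_nonunits_iff]
  have hW : locW (cenV W hV) = W := by
    ext z
    exact mem_iff_locW hV z
  have h1 : ∀ b, τ • b ∈ cenV W hV ↔ b ∈ cenV W hV := fun b => by
    rw [hQ]
    exact h.1 b
  have h2 : ∀ b, τ • b - b ∈ cenV W hV := fun b => by
    rw [hQ]
    exact h.2 b
  constructor
  · intro z
    have h3 := stab_locW (cenV W hV) h1 z
    rwa [hW] at h3
  · intro z hz
    have hz' : z ∈ locW (cenV W hV) := by rwa [hW]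
    have h3 := inertia_locW (cenV W hV) h1 h2 hz'
    have h4 : τ z - z ∈ (locW (cenV W hV)).nonunits := (ValuationSubring.mem_nonunits_iff _).2 h3
    rwa [hW] at h4

variable {F k Ω M C : Type u} [Field F] [Field k] [Field Ω] [Field M] [Field C]
  [Algebra F k] [Algebra k C] [Algebra F C] [IsScalarTower F k C] [IsGalois k C] [IsAlgClosed C]
  [Algebra Ω M] [Algebra M C] [Algebra Ω C] [IsScalarTower Ω M C]
  [Algebra k M] [IsScalarTower k M C]

/-- An automorphism of a Galois extension of `M` which fixes a place lifts to an inertia element. -/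
theorem l1_lift_inertia (hEF : ∀ z : C, IsAlgebraic F z ↔ ∃ e : Ω, algebraMap Ω C e = z) (t : k)
    (hk : IntermediateField.adjoin F {t} = ⊤) (N : IntermediateField M C) [Normal M N]
    (P : Place Ω N) (σ : N ≃ₐ[M] N) (hσ : ∀ x, σ x ∈ P.ring ↔ x ∈ P.ring) :
    ∃ W : Place Ω C, (∀ x : N, (x : C) ∈ W.ring ↔ x ∈ P.ring) ∧
      ∃ τ : C ≃ₐ[k] C, InInert W.ring τ ∧ ∀ x : N, τ x = σ x := by
  have sEN : IsScalarTower Ω N C := IsScalarTower.of_algebraMap_eq fun x => by
    rw [IsScalarTower.algebraMap_apply Ω M C, IsScalarTower.algebraMap_apply Ω M N]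
    rfl
  obtain ⟨W, hW⟩ := SC.exists_place_over (K := Ω) (M := N) (N := C) P
  have hFW : ∀ z : C, IsAlgebraic F z → z ∈ W.ring := by
    intro z hz
    obtain ⟨e, rfl⟩ := (hEF z).1 hz
    exact W.algebraMap_mem e
  have hFM : ∀ z : C, IsAlgebraic F z → ∃ m : M, algebraMap M C m = z := by
    intro z hz
    obtain ⟨e, rfl⟩ := (hEF z).1 hz
    exact ⟨algebraMap Ω M e, (IsScalarTower.algebraMap_apply Ω M C e).symm⟩
  have hgal : IsGalois M C := IsGalois.tower_top_of_isGalois k M C
  let ρ0 : C ≃ₐ[M] C := σ.liftNormal C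
  have hρ0 : ∀ x : N, ρ0 (x : C) = σ x := fun x => σ.liftNormal_commutes C x
  let ρ : C ≃ₐ[k] C := ρ0.restrictScalars k
  have hnon : ∀ x : N, (x : C) ∈ W.ring.nonunits ↔ x ∈ P.ring.nonunits := by
    intro x
    have h1 := hW x⁻¹
    have h2 : algebraMap N C x⁻¹ = (x : C)⁻¹ := map_inv₀ (algebraMap N C) x
    rw [h2] at h1
    rw [ValuationSubring.mem_nonunits_iff_or, ValuationSubring.mem_nonunits_iff_or, h1,
      ZeroMemClass.coe_eq_zero]
  have key : ∀ x : N, (x : C) ∈ W.ring.nonunits ↔ ρ x ∈ W.ring.nonunits := by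
    intro x
    have h3 : ρ x = (σ x : N) := hρ0 x
    rw [h3, hnon, hnon, ValuationSubring.mem_nonunits_iff_or,
      ValuationSubring.mem_nonunits_iff_or, ← map_inv₀, hσ, EmbeddingLike.map_eq_zero_iff]
  obtain ⟨σ', hσ', hI⟩ := exists_inertia (F := F) t hk W.ring W.ne_top hFW
    (N.restrictScalars k) (by
      intro z hz
      obtain ⟨m, rfl⟩ := hFM z hz
      exact N.algebraMap_mem m) ρ (by
      intro z hz
      obtain ⟨m, rfl⟩ := hFM z hz
      exact ρ0.commutes m) (by
      intro z hz
      exact key ⟨z, hz⟩)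
  refine ⟨W, hW, ρ * σ', l1_inInert _ hI, fun x => ?_⟩
  rw [IntermediateField.mem_fixingSubgroup_iff] at hσ'
  have h1 : σ' x = x := hσ' x x.2
  change ρ (σ' x) = _
  rw [h1]
  exact hρ0 x

/-- An automorphism of a Galois extension of `M` which preserves the trace of `W` lifts to the decomposition
group. -/
theorem l1_lift_decomp (N : IntermediateField M C) [Normal M N] (W : ValuationSubring C)
    (σ : N ≃ₐ[M] N) (hσ : ∀ x : N, (σ x : C) ∈ W ↔ (x : C) ∈ W) :
    ∃ τ : C ≃ₐ[k] C, InDecomp W τ ∧ ∀ x : N, τ x = σ x := by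
  have hgal : IsGalois M C := IsGalois.tower_top_of_isGalois k M C
  have hgalN : IsGalois N C := IsGalois.tower_top_of_isGalois M N C
  let ρ0 : C ≃ₐ[M] C := σ.liftNormal C
  have hρ0 : ∀ x : N, ρ0 (x : C) = σ x := fun x => σ.liftNormal_commutes C x
  let W' : ValuationSubring C := W.comap ((ρ0 : C ≃+* C) : C →+* C)
  have hW' : ∀ z, z ∈ W' ↔ ρ0 z ∈ W := fun z => Iff.rfl
  obtain ⟨s, hs⟩ := exists_conj_val (L := N) W W' (by
    intro c
    rw [hW']
    change (c : C) ∈ W ↔ ρ0 (c : C) ∈ W
    rw [hρ0, hσ])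
  have hsM : ∀ m : M, s (algebraMap M C m) = algebraMap M C m := fun m =>
    s.commutes (algebraMap M N m)
  let τ : C ≃ₐ[k] C := AlgEquiv.ofRingEquiv (f := (s : C ≃+* C).trans (ρ0 : C ≃+* C)) (fun c => by
    change ρ0 (s (algebraMap k C c)) = algebraMap k C c
    rw [IsScalarTower.algebraMap_apply k M C, hsM, ρ0.commutes])
  have hτ : ∀ z, τ z = ρ0 (s z) := fun z => rfl
  refine ⟨τ, fun z => ?_, fun x => ?_⟩
  · rw [hτ, ← hW', hs]
  · rw [hτ]
    have h1 : s (x : C) = x := s.commutes x
    rw [h1, hρ0]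

end Lift

section Core

variable {F k E Ω M C : Type u} [Field F] [Field k] [Field E] [Field Ω] [Field M] [Field C]
  [Algebra F k] [Algebra k C] [Algebra F C] [IsScalarTower F k C] [IsGalois k C] [IsAlgClosed C]
  [IsAlgClosed E] [CharZero E] [IsAlgClosed Ω] [CharZero Ω]
  [Algebra Ω M] [Algebra M C] [Algebra Ω C] [IsScalarTower Ω M C]
  [Algebra k M] [IsScalarTower k M C]
  [Algebra E Ω] [Algebra E M] [Algebra E C] [IsScalarTower E Ω M] [IsScalarTower E Ω C]
  [IsScalarTower E M C]

theorem l1_core (hEF : ∀ z : C, IsAlgebraic F z ↔ ∃ e : Ω, algebraMap Ω C e = z) (u : k)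
    (hk : IntermediateField.adjoin F {u} = ⊤) (uM : M) (huM : algebraMap M C uM = algebraMap k C u)
    (hM : IntermediateField.adjoin Ω {uM} = ⊤) (hMt : Transcendental Ω uM)
    (W : ValuationSubring C) (t' : Ω) (B : Finset Ω)
    (hbase : Base E (W.comap (algebraMap Ω C)) t')
    (hB1 : ∀ b ∈ B, b ∈ W.comap (algebraMap Ω C))
    (hB2 : ∀ b ∈ B, ∀ b' ∈ B, b ≠ b' → b - b' ∉ (W.comap (algebraMap Ω C)).nonunits)
    (huW : algebraMap k C u ∈ W)
    (hutr : ∀ p : E[X], p ≠ 0 → aeval (algebraMap k C u) p ∉ W.nonunits)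
    (H : Subgroup (C ≃ₐ[k] C)) (hdec : ∀ τ : C ≃ₐ[k] C, InDecomp W τ → τ ∈ H)
    (hhor : ∀ (W' : Place Ω C) (a : Ω), a ∉ B →
      algebraMap M C uM - algebraMap Ω C a ∈ W'.ring.nonunits →
      ∀ τ : C ≃ₐ[k] C, InInert W'.ring τ → τ ∈ H)
    {z : C} (hz : ∀ τ ∈ H, τ z = z) :
    z ∈ IntermediateField.adjoin Ω {algebraMap k C u} := by
  classical
  have hgal : IsGalois M C := IsGalois.tower_top_of_isGalois k M C
  have hzint : IsIntegral M z := Algebra.IsIntegral.isIntegral (R := M) z
  set p := minpoly M z with hp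
  set N := IntermediateField.adjoin M (p.rootSet C) with hN
  have hsplit : (p.map (algebraMap M C)).Splits := IsAlgClosed.splits _
  have hfinN : FiniteDimensional M N := by
    refine IntermediateField.finiteDimensional_adjoin fun x _ => ?_
    exact Algebra.IsIntegral.isIntegral (R := M) x
  have hMsplit : IsSplittingField M N p := IntermediateField.adjoin_rootSet_isSplittingField hsplit
  have hnorm : Normal M N := Normal.of_isSplittingField p
  have hM0 : CharZero M := charZero_of_injective_algebraMap (algebraMap Ω M).injective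
  have hgalN : IsGalois M N := ⟨⟩
  have hroot : ∀ w ∈ p.rootSet C, ∃ θ : C ≃ₐ[M] C, θ z = w := by
    intro w hw
    have h1 := (mem_rootSet.1 hw).2
    exact minpoly.exists_algEquiv_of_root' hzint.isAlgebraic h1
  have hzN : z ∈ N := by
    refine IntermediateField.subset_adjoin _ _ ?_
    rw [mem_rootSet]
    exact ⟨minpoly.ne_zero hzint, minpoly.aeval M z⟩
  have sΩMN : IsScalarTower Ω M N := inferInstance
  have sΩN : IsScalarTower Ω N C := IsScalarTower.of_algebraMap_eq fun x => by
    rw [IsScalarTower.algebraMap_apply Ω M C, IsScalarTower.algebraMap_apply Ω M N]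
    rfl
  have sEN : IsScalarTower E N C := IsScalarTower.of_algebraMap_eq fun x => rfl
  have sEΩN : IsScalarTower E Ω N := IsScalarTower.of_algebraMap_eq fun x => by
    apply (algebraMap N C).injective
    rw [← IsScalarTower.algebraMap_apply E N C, ← IsScalarTower.algebraMap_apply Ω N C,
      ← IsScalarTower.algebraMap_apply E Ω C]
  have hff : IsFunctionField Ω N := by
    refine ⟨algebraMap M N uM, transc_of hMt, ?_⟩
    apply FiniteDimensional.of_finrank_pos
    rw [finrank_adjoin hM]
    exact finrank_pos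
  set x : N := algebraMap M N uM with hx
  have hxC : (x : C) = algebraMap k C u := huM
  -- places
  have hfree : ∀ (P : Place Ω N) (a : Ω), a ∉ B → x - algebraMap Ω N a ∈ P.ring.nonunits →
      ∀ σ : N ≃ₐ[M] N, (∀ y, σ y ∈ P.ring ↔ y ∈ P.ring) → σ = 1 := by
    intro P a ha hPa σ hσ
    obtain ⟨W', hW', τ, hτ, hτσ⟩ := l1_lift_inertia hEF u hk N P σ hσ
    have hPa' : algebraMap M C uM - algebraMap Ω C a ∈ W'.ring.nonunits := by
      have h1 : algebraMap M C uM - algebraMap Ω C a = ((x - algebraMap Ω N a : N) : C) := by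
        rw [IsScalarTower.algebraMap_apply Ω N C]
        rfl
      rw [h1, ValuationSubring.mem_nonunits_iff_or]
      rw [ValuationSubring.mem_nonunits_iff_or] at hPa
      rcases hPa with h2 | h2
      · left
        rw [h2]
        rfl
      · right
        intro h3
        apply h2
        rw [← hW']
        exact h3
    have hτM : ∀ y : M, τ (algebraMap M C y) = algebraMap M C y := by
      intro y
      have h1 := hτσ (algebraMap M N y)
      rw [σ.commutes] at h1
      exact h1
    have hτroot : ∀ w ∈ p.rootSet C, τ w = w := by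
      intro w hw
      obtain ⟨θ, rfl⟩ := hroot w hw
      let θk : C ≃ₐ[k] C := θ.restrictScalars k
      have hθΩ : ∀ c : Ω, θ (algebraMap Ω C c) = algebraMap Ω C c := fun c => by
        rw [IsScalarTower.algebraMap_apply Ω M C, θ.commutes]
      let W2 : Place Ω C :=
        { ring := W'.ring.comap ((θ : C ≃+* C) : C →+* C)
          algebraMap_mem := fun c => by
            rw [ValuationSubring.mem_comap]
            change θ (algebraMap Ω C c) ∈ W'.ring
            rw [hθΩ]
            exact W'.algebraMap_mem c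
          ne_top := by
            intro h
            apply W'.ne_top
            rw [eq_top_iff]
            intro y _
            have h1 : θ.symm y ∈ W'.ring.comap ((θ : C ≃+* C) : C →+* C) := by rw [h]; trivial
            rw [ValuationSubring.mem_comap] at h1
            have h2 : ((θ : C ≃+* C) : C →+* C) (θ.symm y) = y := θ.apply_symm_apply y
            rwa [h2] at h1 }
      have hW2 : ∀ y, y ∈ W2.ring ↔ θ y ∈ W'.ring := fun y => Iff.rfl
      have hW2n : ∀ y, y ∈ W2.ring.nonunits ↔ θ y ∈ W'.ring.nonunits := fun y =>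
        mem_nonunits_comap ((θ : C ≃+* C) : C →+* C) W'.ring y
      have hinv : ∀ y, θk⁻¹ y = θ.symm y := fun y => rfl
      have hmul : ∀ y, (θk⁻¹ * τ * θk) y = θ.symm (τ (θ y)) := fun y => rfl
      have h1 : θk⁻¹ * τ * θk ∈ H := by
        refine hhor W2 a ha ?_ _ ⟨fun y => ?_, fun y hy => ?_⟩
        · rw [hW2n, map_sub, θ.commutes, hθΩ]
          exact hPa'
        · rw [hmul, hW2, hW2, θ.apply_symm_apply]
          exact hτ.1 _
        · rw [hmul, hW2n, map_sub, θ.apply_symm_apply]
          exact hτ.2 _ ((hW2 y).1 hy)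
      have h2 := hz _ h1
      rw [hmul] at h2
      have h3 := congrArg θ h2
      rwa [θ.apply_symm_apply] at h3
    let T : IntermediateField M C :=
      { carrier := {x | τ x = x}
        mul_mem' := fun {a b} ha hb => by
          change τ (a * b) = a * b
          rw [map_mul, ha, hb]
        add_mem' := fun {a b} ha hb => by
          change τ (a + b) = a + b
          rw [map_add, ha, hb]
        algebraMap_mem' := hτM
        inv_mem' := fun a ha => by
          change τ a⁻¹ = a⁻¹
          rw [map_inv₀, ha] }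
    have hNT : N ≤ T := IntermediateField.adjoin_le_iff.2 hτroot
    ext y
    have h1 : τ (y : C) = y := hNT y.2
    rw [← hτσ, h1]
    rfl
  have hgal2 : IsGalois (IntermediateField.adjoin Ω {x}) N := by
    have h1 : IntermediateField.adjoin Ω {x} =
        (⊤ : IntermediateField Ω M).map (IsScalarTower.toAlgHom Ω M N) := by
      rw [← hM, IntermediateField.adjoin_map, Set.image_singleton]
      rfl
    let e : M ≃ₐ[Ω] (⊤ : IntermediateField Ω M).map (IsScalarTower.toAlgHom Ω M N) :=
      IntermediateField.topEquiv.symm.trans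
        (IntermediateField.equivMap ⊤ (IsScalarTower.toAlgHom Ω M N))
    rw [h1]
    exact IsGalois.of_equiv_equiv (f := (e : M ≃+* _)) (g := RingEquiv.refl N) (by
      ext y
      rfl)
  have hs : Setup E (W.comap (algebraMap Ω C)) t' B x := by
    refine ⟨hbase, hff, transc_of hMt, hgal2, hB1, hB2, fun P a ha hPa => ?_⟩
    have h1 : x - algebraMap Ω N a = algebraMap M N (uM - algebraMap Ω M a) := by
      rw [map_sub, ← IsScalarTower.algebraMap_apply]
    rw [h1]
    rw [h1] at hPa
    refine ord_eq_one_local hff ?_ ?_ P (fun σ hσ => ?_) hPa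
    · rw [eq_top_iff, ← hM, IntermediateField.adjoin_simple_le_iff]
      have h2 := IntermediateField.mem_adjoin_simple_self Ω (uM - algebraMap Ω M a)
      have h3 := add_mem h2 (IntermediateField.algebraMap_mem
        (IntermediateField.adjoin Ω {uM - algebraMap Ω M a}) a)
      rwa [sub_add_cancel] at h3
    · intro h
      apply hMt
      have h2 := h.add (isAlgebraic_algebraMap a)
      rwa [sub_add_cancel] at h2
    · rw [← h1] at hPa
      exact hfree P a ha hPa σ hσ
  have hV : Gauss E (W.comap (algebraMap Ω C)) x (W.comap (algebraMap N C)) := by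
    refine ⟨fun c => ?_, ?_, fun q hq => ?_⟩
    · rw [ValuationSubring.mem_comap, ValuationSubring.mem_comap, ← IsScalarTower.algebraMap_apply]
    · rw [ValuationSubring.mem_comap]
      change (x : C) ∈ W
      rw [hxC]
      exact huW
    · rw [mem_nonunits_comap (algebraMap N C) W, ← aeval_algebraMap_apply]
      have h1 : algebraMap N C x = algebraMap k C u := hxC
      rw [h1]
      exact hutr q hq
  have hfix : Fix (K := Ω) x (W.comap (algebraMap N C)) (⟨z, hzN⟩ : N) := by
    intro g hgx hgV
    have hgM : ∀ m : M, g (algebraMap M N m) = algebraMap M N m := by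
      let T : IntermediateField Ω M :=
        { carrier := {m | g (algebraMap M N m) = algebraMap M N m}
          mul_mem' := fun {a b} ha hb => by
            change g (algebraMap M N (a * b)) = algebraMap M N (a * b)
            rw [map_mul, map_mul, ha, hb]
          add_mem' := fun {a b} ha hb => by
            change g (algebraMap M N (a + b)) = algebraMap M N (a + b)
            rw [map_add, map_add, ha, hb]
          algebraMap_mem' := fun c => by
            change g (algebraMap M N (algebraMap Ω M c)) = algebraMap M N (algebraMap Ω M c)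
            rw [← IsScalarTower.algebraMap_apply, g.commutes]
          inv_mem' := fun a ha => by
            change g (algebraMap M N a⁻¹) = algebraMap M N a⁻¹
            rw [map_inv₀, map_inv₀, ha] }
      have h1 : (⊤ : IntermediateField Ω M) ≤ T := by
        rw [← hM, IntermediateField.adjoin_simple_le_iff]
        exact hgx
      intro m
      exact h1 (IntermediateField.mem_top (x := m))
    let g' : N ≃ₐ[M] N := AlgEquiv.ofRingEquiv (f := (g : N ≃+* N)) hgM
    obtain ⟨τ, hτ1, hτ2⟩ := l1_lift_decomp (k := k) N W g' (fun y => hgV y)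
    have h1 := hz τ (hdec τ hτ1)
    have h2 : τ ((⟨z, hzN⟩ : N) : C) = (g' (⟨z, hzN⟩ : N) : C) := hτ2 _
    apply Subtype.ext
    change (g' (⟨z, hzN⟩ : N) : C) = z
    rw [← h2]
    exact h1
  have h1 := mem_adjoin_of_fix hs hV hfix
  have h2 : z ∈ (IntermediateField.adjoin Ω {x}).map (IsScalarTower.toAlgHom Ω N C) := ⟨_, h1, rfl⟩
  rw [IntermediateField.adjoin_map, Set.image_singleton] at h2
  have h3 : (IsScalarTower.toAlgHom Ω N C) x = algebraMap k C u := hxC
  rwa [h3] at h2

end Core

end LiftCore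

variable {F k C : Type u} [Field F] [CharZero F] [Field k] [Field C] [Algebra F k] [Algebra k C]
  [Algebra F C] [IsScalarTower F k C]

/-- A horizontal good place: a valuation ring of `C` containing `F(t)` at which `u` is integral and
`d` is a unit. -/
structure Horizontal (F : Type u) {k C : Type u} [Field F] [Field k] [Field C] [Algebra F k]
    [Algebra k C] (t u d : k) (W : ValuationSubring C) : Prop where
  ne_top : W ≠ ⊤
  const : ∀ c ∈ IntermediateField.adjoin F {t}, algebraMap k C c ∈ W
  u_mem : algebraMap k C u ∈ W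
  unit : algebraMap k C d ∉ W.nonunits

/-- A vertical good place: a valuation ring of `C` containing `F(u)` at which `t` and `d` are
units. -/
structure Vertical (F : Type u) {k C : Type u} [Field F] [Field k] [Field C] [Algebra F k]
    [Algebra k C] (t u d : k) (W : ValuationSubring C) : Prop where
  ne_top : W ≠ ⊤
  const : ∀ c ∈ IntermediateField.adjoin F {u}, algebraMap k C c ∈ W
  t_mem : algebraMap k C t ∈ W
  t_unit : algebraMap k C t ∉ W.nonunits
  unit : algebraMap k C d ∉ W.nonunits

/-- The place `t = 0`: a valuation ring of `C` containing `F(u)` with `t` in the maximal ideal. -/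
structure AtZero (F : Type u) {k C : Type u} [Field F] [Field k] [Field C] [Algebra F k]
    [Algebra k C] (t u : k) (W : ValuationSubring C) : Prop where
  const : ∀ c ∈ IntermediateField.adjoin F {u}, algebraMap k C c ∈ W
  t_mem : algebraMap k C t ∈ W.nonunits

/-- evaluation of polynomials in two variables: `ev t u (∑ p_i(T) U^i) = ∑ p_i(t) u^i` -/
noncomputable def ev (F : Type u) {k : Type u} [Field F] [Field k] [Algebra F k] (t u : k) :
    F[X][X] →+* k :=
  eval₂RingHom (aeval t : F[X] →ₐ[F] k).toRingHom u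

/-- The condition on the polynomial `Δ`: its leading coefficient in `u` is a nonzero constant and
`Δ(0, u)` is separable. -/
structure GoodDisc {F : Type u} [Field F] (Δ : F[X][X]) : Prop where
  lead : ∃ c : F, c ≠ 0 ∧ Δ.leadingCoeff = Polynomial.C c
  sep : (Δ.map (evalRingHom 0)).Separable

section MidPart

open Module Pool.Agent.Helper91.Sect Pool.Agent.SC.H1

section Mid

theorem l1_alg_range {A A' B : Type*} [Field A] [Field A'] [Field B] [Algebra A B]
    [Algebra A' B] (h : ∀ a : A, ∃ a' : A', algebraMap A' B a' = algebraMap A B a) {x : B}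
    (hx : IsAlgebraic A x) : IsAlgebraic A' x := by
  obtain ⟨p, hp0, hp⟩ := hx
  have h1 : p.map (algebraMap A B) ∈ Polynomial.lifts (algebraMap A' B) := by
    rw [Polynomial.lifts_iff_coeff_lifts]
    intro n
    rw [Polynomial.coeff_map]
    obtain ⟨a, ha⟩ := h (p.coeff n)
    exact ⟨a, ha⟩
  obtain ⟨q, hq⟩ := (Polynomial.mem_lifts _).1 h1
  refine ⟨q, ?_, ?_⟩
  · rintro rfl
    rw [Polynomial.map_zero] at hq
    exact hp0 ((Polynomial.map_eq_zero _).1 hq.symm)
  · rw [Polynomial.aeval_def, ← Polynomial.eval_map, hq, Polynomial.eval_map,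
      ← Polynomial.aeval_def]
    exact hp

/-- elements algebraic over `A` are in `W` -/
theorem l1_alg_mem {A C : Type*} [Field A] [Field C] [Algebra A C] {W : ValuationSubring C}
    (hW : ∀ c : A, algebraMap A C c ∈ W) {z : C} (hz : IsAlgebraic A z) : z ∈ W := by
  obtain ⟨p, hp, hp0⟩ := hz.isIntegral
  let f : A →+* W := (algebraMap A C).codRestrict W.toSubring hW
  have h2 : IsIntegral W z := by
    refine ⟨p.map f, hp.map f, ?_⟩
    rw [Polynomial.eval₂_map]
    exact hp0
  obtain ⟨w, hw⟩ := IsIntegrallyClosed.algebraMap_eq_of_integral h2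
  rw [← hw]; exact w.2

theorem l1_alg_not_nonunits {A C : Type*} [Field A] [Field C] [Algebra A C] {W : ValuationSubring C}
    (hW : ∀ c : A, algebraMap A C c ∈ W) {z : C} (hz : IsAlgebraic A z) (hz0 : z ≠ 0) :
    z ∉ W.nonunits := by
  intro h
  rw [ValuationSubring.mem_nonunits_iff_or] at h
  rcases h with h | h
  · exact hz0 h
  · exact h (l1_alg_mem hW hz.inv)

theorem l1_aeval_alg {A E C : Type*} [Field A] [Field E] [Field C] [Algebra A C] [Algebra E C]
    (hE : ∀ e : E, IsAlgebraic A (algebraMap E C e)) {u : C} (hu : IsAlgebraic A u) (p : E[X]) :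
    IsAlgebraic A (aeval u p) := by
  rw [← mem_algebraicClosure_iff, Polynomial.aeval_eq_sum_range]
  refine sum_mem fun i _ => ?_
  rw [Algebra.smul_def]
  exact mul_mem (mem_algebraicClosure_iff.2 (hE _)) (pow_mem (mem_algebraicClosure_iff.2 hu) _)

variable {F k C K₁ Ω E : Type u} [Field F] [CharZero F] [Field k] [Field C] [Field K₁] [Field Ω]
  [Field E] [Algebra F k] [Algebra k C] [Algebra F C] [IsScalarTower F k C]
  [Algebra F K₁] [Algebra K₁ k] [IsScalarTower F K₁ k] [Algebra K₁ C] [IsScalarTower K₁ k C]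
  [Algebra F Ω] [Algebra Ω C] [IsScalarTower F Ω C]
  [Algebra E Ω] [Algebra E C] [IsScalarTower E Ω C] [Algebra F E] [IsScalarTower F E Ω]
  [IsAlgClosed C] [IsGalois k C] [IsAlgClosed Ω] [IsAlgClosed E]

omit [CharZero F] [IsAlgClosed C] [IsGalois k C] [IsAlgClosed Ω] [IsAlgClosed E] [Field K₁] in
/-- the specialization of the polynomial `Δ` -/
theorem l1_unit {t : k} {u : k} {t' : Ω} (ht' : algebraMap Ω C t' = algebraMap k C t)
    (Δ : F[X][X]) (W : Place Ω C) {a : Ω} (hu : algebraMap k C u ∈ W.ring)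
    (hua : algebraMap k C u - algebraMap Ω C a ∈ W.ring.nonunits)
    (ha : (Δ.map (aeval t' : F[X] →ₐ[F] Ω).toRingHom).eval a ≠ 0) :
    algebraMap k C (ev F t u Δ) ∉ W.ring.nonunits := by
  intro hn
  let j : Ω →+* W.ring := (algebraMap Ω C).codRestrict W.ring.toSubring W.algebraMap_mem
  let uR : W.ring := ⟨algebraMap k C u, hu⟩
  set f := (Δ.map (aeval t' : F[X] →ₐ[F] Ω).toRingHom).map j with hf
  have h1 : ((f.eval uR : W.ring) : C) = algebraMap k C (ev F t u Δ) := by
    have h2 : (W.ring.subtype.comp (evalRingHom uR)).comp (mapRingHom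
        (j.comp (aeval t' : F[X] →ₐ[F] Ω).toRingHom)) = (algebraMap k C).comp (ev F t u) := by
      refine Polynomial.ringHom_ext (fun q => ?_) ?_
      · have h3 : ((W.ring.subtype.comp (evalRingHom uR)).comp (mapRingHom
            (j.comp (aeval t' : F[X] →ₐ[F] Ω).toRingHom))).comp Polynomial.C =
              ((algebraMap k C).comp (ev F t u)).comp Polynomial.C := by
          refine Polynomial.ringHom_ext (fun c => ?_) ?_
          · simp [ev, j]
            rw [← IsScalarTower.algebraMap_apply, ← IsScalarTower.algebraMap_apply]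
          · simp [ev, j, ht']
        exact congrArg (fun g => g q) h3
      · simp [ev, uR]
    have h4 := congrArg (fun g => g Δ) h2
    rw [hf, Polynomial.map_map]
    exact h4
  have h5 : uR - j a ∣ f.eval uR - f.eval (j a) := Polynomial.sub_dvd_eval_sub _ _ _
  have h6 : f.eval (j a) = j ((Δ.map (aeval t' : F[X] →ₐ[F] Ω).toRingHom).eval a) := by
    rw [hf]
    exact Polynomial.eval_map_apply j a
  have m1 : uR - j a ∈ IsLocalRing.maximalIdeal W.ring := by
    rw [← ValuationSubring.coe_mem_nonunits_iff]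
    exact hua
  have m2 : f.eval uR ∈ IsLocalRing.maximalIdeal W.ring := by
    rw [← ValuationSubring.coe_mem_nonunits_iff, h1]
    exact hn
  have m3 : f.eval (j a) ∈ IsLocalRing.maximalIdeal W.ring := by
    have h7 := Ideal.mem_of_dvd _ h5 m1
    have h8 := Ideal.sub_mem _ m2 h7
    rwa [sub_sub_cancel] at h8
  rw [h6] at m3
  have h9 : IsUnit (j ((Δ.map (aeval t' : F[X] →ₐ[F] Ω).toRingHom).eval a)) :=
    (isUnit_iff_ne_zero.2 ha).map j
  exact ((IsLocalRing.mem_maximalIdeal _).1 m3) h9

theorem l1_mid (t1 : K₁) (u : k) (hk1 : IntermediateField.adjoin F {t1} = ⊤)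
    (hk : IntermediateField.adjoin K₁ {u} = ⊤) (hut : Transcendental K₁ u)
    (hΩ : ∀ z : C, IsAlgebraic K₁ z ↔ ∃ e : Ω, algebraMap Ω C e = z)
    (hE : ∀ z : Ω, IsAlgebraic F z ↔ ∃ e : E, algebraMap E Ω e = z)
    {Δ : F[X][X]} (hΔ : GoodDisc Δ) (H : Subgroup (C ≃ₐ[k] C))
    (hhor : ∀ W : ValuationSubring C, Horizontal F (algebraMap K₁ k t1) u
      (ev F (algebraMap K₁ k t1) u Δ) W → ∀ τ : C ≃ₐ[k] C, InInert W τ → τ ∈ H)
    (hcon : ∀ c ∈ IntermediateField.adjoin F {algebraMap K₁ k t1}, ∃ c' : K₁, algebraMap K₁ k c' = c)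
    {W : ValuationSubring C} (hW : AtZero F (algebraMap K₁ k t1) u W) (ht10 : t1 ≠ 0)
    (hdec : ∀ τ : C ≃ₐ[k] C, InDecomp W τ → τ ∈ H)
    {z : C} (hz : ∀ τ ∈ H, τ z = z) :
    z ∈ IntermediateField.adjoin Ω {algebraMap k C u} := by
  have hΩ0 : CharZero Ω := charZero_of_injective_algebraMap (algebraMap F Ω).injective
  have hE0 : CharZero E := charZero_of_injective_algebraMap (algebraMap F E).injective
  -- `t` in `Ω`
  obtain ⟨t', ht'⟩ := (hΩ (algebraMap K₁ C t1)).1 (isAlgebraic_algebraMap t1)
  have ht'k : algebraMap Ω C t' = algebraMap k C (algebraMap K₁ k t1) := by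
    rw [ht', ← IsScalarTower.algebraMap_apply]
  -- transcendence
  have huC : Transcendental K₁ (algebraMap k C u) := by
    rwa [transcendental_algebraMap_iff (algebraMap k C).injective]
  have huΩ : Transcendental Ω (algebraMap k C u) := by
    intro h
    apply huC
    have h1 : ∃ P : IntermediateField K₁ C, ∀ z : C, z ∈ P ↔ ∃ e : Ω, algebraMap Ω C e = z :=
      ⟨algebraicClosure K₁ C, fun z => by rw [mem_algebraicClosure_iff, hΩ]⟩
    have h2 : IsAlgebraic (algebraicClosure K₁ C) (algebraMap k C u) :=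
      l1_alg_range (fun e => ⟨⟨algebraMap Ω C e, mem_algebraicClosure_iff.2 ((hΩ _).2 ⟨e, rfl⟩)⟩,
        rfl⟩) h
    exact h2.restrictScalars K₁
  -- `M`
  let M : IntermediateField Ω C := IntermediateField.adjoin Ω {algebraMap k C u}
  have hkM : ∀ c : k, algebraMap k C c ∈ M := by
    let T : IntermediateField K₁ k :=
      { (M.toSubfield).comap (algebraMap k C) with
        algebraMap_mem' := fun c => by
          change algebraMap k C (algebraMap K₁ k c) ∈ M
          obtain ⟨e, he⟩ := (hΩ (algebraMap K₁ C c)).1 (isAlgebraic_algebraMap c)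
          rw [← IsScalarTower.algebraMap_apply, ← he]
          exact M.algebraMap_mem e }
    have h1 : (⊤ : IntermediateField K₁ k) ≤ T := by
      rw [← hk, IntermediateField.adjoin_simple_le_iff]
      exact IntermediateField.mem_adjoin_simple_self Ω (algebraMap k C u)
    intro c
    exact h1 (IntermediateField.mem_top (x := c))
  let ikM : Algebra k M := ((algebraMap k C).codRestrict M.toSubring hkM).toAlgebra
  have skM : IsScalarTower k M C := IsScalarTower.of_algebraMap_eq fun c => rfl
  let uM : M := IntermediateField.AdjoinSimple.gen Ω (algebraMap k C u)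
  have huMt : Transcendental Ω uM := fun h => huΩ (h.algebraMap (A := C))
  have htop : IntermediateField.adjoin Ω {uM} = ⊤ := by
    apply IntermediateField.lift_injective M
    rw [IntermediateField.lift_adjoin_simple, IntermediateField.lift_top]
    rfl
  have sEM : IsScalarTower E M C := IsScalarTower.of_algebraMap_eq fun c => rfl
  have sEΩM : IsScalarTower E Ω M := IsScalarTower.of_algebraMap_eq fun c => by
    apply (algebraMap M C).injective
    rw [← IsScalarTower.algebraMap_apply E M C, ← IsScalarTower.algebraMap_apply Ω M C,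
      ← IsScalarTower.algebraMap_apply E Ω C]
  -- algebraic elements over `F(u)`
  have hWc : ∀ c : IntermediateField.adjoin F {u}, algebraMap (IntermediateField.adjoin F {u}) C c ∈ W :=
    fun c => hW.const c c.2
  have hFu : ∀ z : C, IsAlgebraic F z → IsAlgebraic (IntermediateField.adjoin F {u}) z := fun z hz =>
    l1_alg_range (A' := IntermediateField.adjoin F {u}) (fun a => ⟨algebraMap F _ a, by
      rw [← IsScalarTower.algebraMap_apply]⟩) hz
  have hEalg : ∀ e : E, IsAlgebraic F (algebraMap E C e) := fun e => by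
    have h1 : IsAlgebraic F (algebraMap E Ω e) := (hE _).2 ⟨e, rfl⟩
    have h2 := h1.algebraMap (A := C)
    rwa [← IsScalarTower.algebraMap_apply] at h2
  have hbase : Base E (W.comap (algebraMap Ω C)) t' := by
    refine ⟨fun c => ?_, ?_, ?_, fun z => ?_⟩
    · rw [ValuationSubring.mem_comap, ← IsScalarTower.algebraMap_apply]
      exact l1_alg_mem hWc (hFu _ (hEalg c))
    · intro h
      apply ht10
      rw [h, map_zero] at ht'
      exact (map_eq_zero _).1 ht'.symm
    · rw [mem_nonunits_comap (algebraMap Ω C) W, ht'k]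
      exact hW.t_mem
    · have h1 : IsAlgebraic K₁ (algebraMap Ω C z) := (hΩ _).2 ⟨z, rfl⟩
      have h2 : IsAlgebraic (IntermediateField.adjoin E {t'}) (algebraMap Ω C z) := by
        refine l1_alg_range (fun a => ?_) h1
        let T : IntermediateField F K₁ :=
          { carrier := {a | ∃ a' : IntermediateField.adjoin E {t'},
              algebraMap (IntermediateField.adjoin E {t'}) C a' = algebraMap K₁ C a}
            mul_mem' := by
              rintro a b ⟨a', ha⟩ ⟨b', hb⟩
              exact ⟨a' * b', by rw [map_mul, map_mul, ha, hb]⟩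
            add_mem' := by
              rintro a b ⟨a', ha⟩ ⟨b', hb⟩
              exact ⟨a' + b', by rw [map_add, map_add, ha, hb]⟩
            algebraMap_mem' := fun c => by
              refine ⟨algebraMap E _ (algebraMap F E c), ?_⟩
              have h3 : algebraMap (IntermediateField.adjoin E {t'}) C
                  (algebraMap E _ (algebraMap F E c)) = algebraMap Ω C (algebraMap E Ω (algebraMap F E c)) := rfl
              rw [h3, ← IsScalarTower.algebraMap_apply F E Ω, ← IsScalarTower.algebraMap_apply F Ω C,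
                IsScalarTower.algebraMap_apply K₁ k C, ← IsScalarTower.algebraMap_apply F K₁ k,
                ← IsScalarTower.algebraMap_apply F k C]
            inv_mem' := by
              rintro a ⟨a', ha⟩
              exact ⟨a'⁻¹, by rw [map_inv₀, map_inv₀, ha]⟩ }
        have h4 : (⊤ : IntermediateField F K₁) ≤ T := by
          rw [← hk1, IntermediateField.adjoin_simple_le_iff]
          exact ⟨⟨t', IntermediateField.mem_adjoin_simple_self E t'⟩, ht'⟩
        exact h4 (IntermediateField.mem_top (x := a))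
      exact (isAlgebraic_algebraMap_iff (algebraMap Ω C).injective).1 h2
  have hFO : ∀ a : F, algebraMap F Ω a ∈ W.comap (algebraMap Ω C) := fun a => by
    rw [ValuationSubring.mem_comap, ← IsScalarTower.algebraMap_apply]
    exact l1_alg_mem hWc (hFu _ (isAlgebraic_algebraMap a))
  obtain ⟨B, hB1, hB2, hB3⟩ := l1_exists_roots hFO hbase.t_mem hΔ.lead hΔ.sep
  have huF : u ∈ IntermediateField.adjoin F {u} := IntermediateField.mem_adjoin_simple_self F u
  refine l1_core (E := E) (M := M) hΩ u hk uM rfl htop huMt W t' B hbase hB1 hB2 (hW.const u huF) ?_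
    H hdec ?_ hz
  · intro p hp
    refine l1_alg_not_nonunits hWc (l1_aeval_alg (fun e => hFu _ (hEalg e)) ?_ p) ?_
    · exact isAlgebraic_algebraMap (⟨u, huF⟩ : IntermediateField.adjoin F {u})
    · intro h0
      apply huΩ
      refine ⟨p.map (algebraMap E Ω), ?_, ?_⟩
      · rwa [Ne, Polynomial.map_eq_zero]
      · rwa [Polynomial.aeval_map_algebraMap]
  · intro W' a ha hua τ hτ
    have hu : algebraMap k C u ∈ W'.ring := by
      have h1 := W'.ring.add_mem _ _ (W'.ring.nonunits_subset hua) (W'.algebraMap_mem a)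
      have h2 : algebraMap M C uM - algebraMap Ω C a + algebraMap Ω C a = algebraMap k C u :=
        sub_add_cancel _ _
      rwa [h2] at h1
    refine hhor W'.ring ⟨W'.ne_top, fun c hc => ?_, hu, l1_unit ht'k Δ W' hu hua (hB3 a ha)⟩ τ hτ
    obtain ⟨c', rfl⟩ := hcon c hc
    rw [← IsScalarTower.algebraMap_apply]
    obtain ⟨e, he⟩ := (hΩ (algebraMap K₁ C c')).1 (isAlgebraic_algebraMap c')
    rw [← he]
    exact W'.algebraMap_mem e

end Mid

end MidPart

theorem horizontal_part [IsAlgClosed C] [IsGalois k C] (t u : k)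
    (htu : AlgebraicIndependent F ![t, u]) (htop : IntermediateField.adjoin F {t, u} = ⊤)
    {Δ : F[X][X]} (hΔ : GoodDisc Δ) (H : Subgroup (C ≃ₐ[k] C))
    (hhor : ∀ W : ValuationSubring C, Horizontal F t u (ev F t u Δ) W → ∀ τ : C ≃ₐ[k] C,
      InInert W τ → τ ∈ H)
    {W : ValuationSubring C} (hW : AtZero F t u W) (hdec : ∀ τ : C ≃ₐ[k] C, InDecomp W τ → τ ∈ H)
    {z : C} (hz : ∀ τ ∈ H, τ z = z) :
    z ∈ IntermediateField.adjoin (algebraicClosure (IntermediateField.adjoin F {t}) C)
      {algebraMap k C u} := by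
  let kt := IntermediateField.adjoin F {t}
  let t1 : kt := ⟨t, IntermediateField.mem_adjoin_simple_self F t⟩
  let Ω := algebraicClosure kt C
  let j1 : Algebra F Ω := inferInstance
  have i3 : IsScalarTower F Ω C := IsScalarTower.of_algebraMap_eq fun x => rfl
  have iΩ : IsAlgClosed Ω := (inferInstance : IsAlgClosure kt Ω).isAlgClosed
  let E := algebraicClosure F Ω
  have iE : IsAlgClosed E := (inferInstance : IsAlgClosure F E).isAlgClosed
  have hk1 : IntermediateField.adjoin F {t1} = ⊤ := by
    apply IntermediateField.lift_injective kt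
    rw [IntermediateField.lift_adjoin_simple, IntermediateField.lift_top]
  have ht10 : t1 ≠ 0 := by
    intro h
    apply transc_F_t htu
    have h1 : t = 0 := congrArg Subtype.val h
    rw [h1]
    exact isAlgebraic_zero
  exact l1_mid (E := E) (Ω := Ω) (K₁ := kt) t1 u hk1 (adjoin_u_top htop) (transc_u htu)
    (fun z => ⟨fun h => ⟨⟨z, mem_algebraicClosure_iff.2 h⟩, rfl⟩, by
      rintro ⟨e, rfl⟩
      exact mem_algebraicClosure_iff.1 e.2⟩)
    (fun z => ⟨fun h => ⟨⟨z, mem_algebraicClosure_iff.2 h⟩, rfl⟩, by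
      rintro ⟨e, rfl⟩
      exact mem_algebraicClosure_iff.1 e.2⟩)
    hΔ H hhor (fun c hc => ⟨⟨c, hc⟩, rfl⟩) hW ht10 hdec hz

end Pool.Agent.LT
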