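import Pool.Agent.Helper13.LT.L0
import Pool.Agent.Helper13.LT.L1
import Pool.Agent.SC.Cov

/-!
# Block L3: the Lefschetz theorem, the place `t = 0`

Proof.  `E'` = `algebraicClosure F(u) C`; `E'(θ) / k` is Galois (`E'` contains the roots of unity).  `W ∩ E'(θ)` is
the local ring at `θ = 0`: the set of the `p(θ)/q(θ)` with `q(0) ≠ 0` (`E' ⊆ W`, `θ ∈ 𝔪_W`).  It is preserved by every
`ρ ∈ Gal(E'(θ)/k)` (`ρ θ = ζ θ`, `ρ E' = E'`).  So a lift of `ρ` to `C`, corrected by an element
of `Gal(C/E'(θ))` (`Helper91.Sect.exists_conj`, `SC.exists_conj_val`), is in the decomposition group of `W`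
and fixes `z`.  So `z ∈ E'(θ)` is fixed by `Gal(E'(θ)/k)`.
-/

universe u

namespace Pool.Agent.LT

open VC Polynomial Pool.Agent.SC

variable {F k C : Type u} [Field F] [CharZero F] [Field k] [Field C] [Algebra F k] [Algebra k C]
  [Algebra F C] [IsScalarTower F k C]

theorem mem_of_isAlgebraic {L Ω : Type u} [Field L] [Field Ω] [Algebra L Ω]
    {V : ValuationSubring Ω} (hV : ∀ c : L, algebraMap L Ω c ∈ V) {b : Ω}
    (hb : IsAlgebraic L b) : b ∈ V := by
  obtain ⟨p, hp, hb0⟩ := hb.isIntegral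
  let f : L →+* V := (algebraMap L Ω).codRestrict V.toSubring hV
  have h1 : IsIntegral V b := by
    refine ⟨p.map f, hp.map f, ?_⟩
    rw [Polynomial.eval₂_map]
    exact hb0
  obtain ⟨w, hw⟩ := IsIntegrallyClosed.algebraMap_eq_of_integral h1
  rw [← hw]
  exact w.2

section Gen

variable {L Ω : Type u} [Field L] [Field Ω] [Algebra L Ω]

theorem aeval_mem_val {V : ValuationSubring Ω} (hV : ∀ c : L, algebraMap L Ω c ∈ V) {θ : Ω}
    (hθ : θ ∈ V) (p : L[X]) : aeval θ p ∈ V := by
  rw [aeval_eq_sum_range]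
  refine V.toSubring.sum_mem fun i _ => ?_
  rw [Algebra.smul_def]
  exact V.mul_mem _ _ (hV _) (pow_mem hθ i)

theorem val_algebraMap_eq_one {V : ValuationSubring Ω} (hV : ∀ c : L, algebraMap L Ω c ∈ V)
    {c : L} (hc : c ≠ 0) : V.valuation (algebraMap L Ω c) = 1 := by
  refine le_antisymm ((V.valuation_le_one_iff _).2 (hV c)) ?_
  have h1 := (V.valuation_le_one_iff _).2 (hV c⁻¹)
  rw [map_inv₀, map_inv₀] at h1
  have h2 : V.valuation (algebraMap L Ω c) ≠ 0 := by
    rw [Valuation.ne_zero_iff]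
    exact (_root_.map_ne_zero _).2 hc
  exact (inv_le_one₀ (zero_lt_iff.2 h2)).1 h1

theorem val_aeval_eq_one {V : ValuationSubring Ω} (hV : ∀ c : L, algebraMap L Ω c ∈ V) {θ : Ω}
    (hθ : V.valuation θ < 1) {p : L[X]} (hp : p.coeff 0 ≠ 0) : V.valuation (aeval θ p) = 1 := by
  have h1 : aeval θ p = θ * aeval θ p.divX + algebraMap L Ω (p.coeff 0) := by
    conv_lhs => rw [← Polynomial.X_mul_divX_add p]
    rw [map_add, map_mul, aeval_X, aeval_C]
  have hθV : θ ∈ V := (V.valuation_le_one_iff _).1 hθ.le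
  have h2 : V.valuation (θ * aeval θ p.divX) < 1 := by
    rw [map_mul]
    exact mul_lt_one_of_lt_of_le hθ ((V.valuation_le_one_iff _).2 (aeval_mem_val hV hθV _))
  have h3 := val_algebraMap_eq_one hV hp
  rw [h1, Valuation.map_add_eq_of_lt_right _ (by rwa [h3]), h3]

/-- the order at `θ = 0` of a polynomial in `θ` does not depend on the valuation ring -/
theorem exists_val_aeval (θ : Ω) {p : L[X]} (hp : p ≠ 0) : ∃ n : ℕ, ∀ V : ValuationSubring Ω,
    (∀ c : L, algebraMap L Ω c ∈ V) → V.valuation θ < 1 →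
      V.valuation (aeval θ p) = V.valuation θ ^ n := by
  obtain ⟨q, hq, hq2⟩ := exists_eq_pow_rootMultiplicity_mul_and_not_dvd p hp 0
  refine ⟨p.rootMultiplicity 0, fun V hV hθ => ?_⟩
  have h1 : q.coeff 0 ≠ 0 := by
    rw [dvd_iff_isRoot, IsRoot.def, ← coeff_zero_eq_eval_zero] at hq2
    exact hq2
  conv_lhs => rw [hq]
  rw [map_mul, map_mul, val_aeval_eq_one hV hθ h1, mul_one, map_pow, map_pow, C_0, sub_zero,
    aeval_X]

theorem mem_iff_mem {θ w : Ω} (hθ : θ ≠ 0) (hw : w ∈ IntermediateField.adjoin L {θ})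
    {V V' : ValuationSubring Ω} (hV : ∀ c : L, algebraMap L Ω c ∈ V) (hV2 : V.valuation θ < 1)
    (hV' : ∀ c : L, algebraMap L Ω c ∈ V') (hV2' : V'.valuation θ < 1) : w ∈ V ↔ w ∈ V' := by
  obtain ⟨r, s, rfl⟩ := (IntermediateField.mem_adjoin_simple_iff L w).1 hw
  by_cases hr : r = 0
  · simp [hr, V.zero_mem, V'.zero_mem]
  by_cases hs : s = 0
  · simp [hs, V.zero_mem, V'.zero_mem]
  obtain ⟨a, ha⟩ := exists_val_aeval θ hr
  obtain ⟨b, hb⟩ := exists_val_aeval θ hs
  have key : ∀ V : ValuationSubring Ω, (∀ c : L, algebraMap L Ω c ∈ V) → V.valuation θ < 1 →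
      (aeval θ r / aeval θ s ∈ V ↔ b ≤ a) := by
    intro V hV hV2
    have h0 : V.valuation θ ≠ 0 := (Valuation.ne_zero_iff _).2 hθ
    rw [← V.valuation_le_one_iff, map_div₀, ha V hV hV2, hb V hV hV2,
      div_le_one₀ (zero_lt_iff.2 (pow_ne_zero _ h0))]
    exact pow_le_pow_iff_right_of_lt_one₀ (zero_lt_iff.2 h0) hV2
  rw [key V hV hV2, key V' hV' hV2']

end Gen

theorem zero_part [IsAlgClosed C] [IsGalois k C] (t u : k)
    (htu : AlgebraicIndependent F ![t, u]) (htop : IntermediateField.adjoin F {t, u} = ⊤)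
    {W : ValuationSubring C} (hW : AtZero F t u W)
    {z : C} (hz : ∀ τ : C ≃ₐ[k] C, InDecomp W τ → τ z = z) {m : ℕ} {θ : C} (hm : 0 < m)
    (hθ : θ ^ m = algebraMap k C t)
    (hz1 : z ∈ IntermediateField.adjoin (algebraicClosure (IntermediateField.adjoin F {u}) C)
      {θ}) :
    ∃ c : k, algebraMap k C c = z := by
  classical
  let L := IntermediateField.adjoin F {u}
  let E' := algebraicClosure L C
  let M : IntermediateField E' C := IntermediateField.adjoin E' {θ}
  have ht0 : algebraMap k C t ≠ 0 := by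
    intro h
    have h1 : t = 0 := (map_eq_zero _).1 h
    apply transc_F_t htu
    rw [h1]
    exact isAlgebraic_zero
  have hθ0 : θ ≠ 0 := by
    rintro rfl
    rw [zero_pow hm.ne'] at hθ
    exact ht0 hθ.symm
  have hE : ∀ W : ValuationSubring C, AtZero F t u W → ∀ c : E', algebraMap E' C c ∈ W := by
    intro W hW c
    refine mem_of_isAlgebraic (L := L) (fun x => hW.const x x.2) ?_
    exact mem_algebraicClosure_iff.1 c.2
  have hv : ∀ W : ValuationSubring C, AtZero F t u W → W.valuation θ < 1 := by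
    intro W hW
    have h1 : W.valuation (algebraMap k C t) < 1 := W.mem_nonunits_iff.1 hW.t_mem
    rw [← hθ, map_pow] at h1
    exact (pow_lt_one_iff_of_nonneg zero_le hm.ne').1 h1
  have huM : ∀ x : L, algebraMap L C x ∈ M := by
    intro x
    exact M.algebraMap_mem (algebraMap L E' x)
  have htM : algebraMap k C t ∈ M := by
    rw [← hθ]
    exact pow_mem (IntermediateField.mem_adjoin_simple_self _ _) m
  have hkM : ∀ c : k, algebraMap k C c ∈ M := by
    let T : IntermediateField L k :=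
      { M.toSubfield.comap (algebraMap k C) with
        algebraMap_mem' := fun x => huM x }
    have h1 : IntermediateField.adjoin L {t} ≤ T := by
      rw [IntermediateField.adjoin_simple_le_iff]
      exact htM
    rw [adjoin_t_top htop] at h1
    exact fun c => h1 (IntermediateField.mem_top (x := c))
  let M' : IntermediateField k C := { M.toSubfield with algebraMap_mem' := hkM }
  rw [← Set.mem_range, InfiniteGalois.mem_range_algebraMap_iff_fixed]
  intro ρ
  let W' : ValuationSubring C := W.comap (ρ : C →+* C)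
  have hW' : AtZero F t u W' := by
    constructor
    · intro c hc
      change ρ (algebraMap k C c) ∈ W
      rw [ρ.commutes]
      exact hW.const c hc
    · rw [ValuationSubring.mem_nonunits_iff_or]
      right
      have h1 := (W.mem_nonunits_iff_or).1 hW.t_mem
      rcases h1 with h1 | h1
      · exact absurd h1 ht0
      · intro h2
        apply h1
        have h3 : ρ (algebraMap k C t)⁻¹ ∈ W := h2
        rwa [map_inv₀, ρ.commutes] at h3
  obtain ⟨σ, hσ⟩ := exists_conj_val (L := M') W W' (fun c =>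
    mem_iff_mem (L := E') hθ0 c.2 (hE W hW) (hv W hW) (hE W' hW') (hv W' hW'))
  have h1 : InDecomp W (ρ * σ.restrictScalars k) := by
    intro x
    exact hσ x
  have h2 := hz _ h1
  have h3 : σ z = z := σ.commutes ⟨z, hz1⟩
  have h4 : ρ (σ z) = z := h2
  rwa [h3] at h4

end Pool.Agent.LT
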