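import Pool.Agent.Helper13.LT.Defs

/-!
# Block A1: values of the Gauss extension

Proofs.
* `exists_residue`: if `c = 0` take `e = 0`.  Otherwise `c` is a root of a nonzero
  `P ∈ E[T][X]` at `T = t` (clear denominators); divide by a power of `T` so that some coefficient
  `P_i` has `P_i(0) ≠ 0`.  As `P_i(t) - P_i(0) ∈ tO`, the polynomial `P̄ = ∑ P_i(0) X^i ∈ E[X]` is
  nonzero and `P̄(c) ∈ 𝔪`.  It splits over `E`: `P̄ = a ∏ (X - e_i)`, `a` a unit, so some
  `c - e_i ∈ 𝔪`.
* `unit`: `e, e⁻¹ ∈ O`.
* `exists_pow`: in `∑ P_i(t) c^i = 0` two nonzero terms have the same value (otherwise the maximal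
  value is attained once); `O(P_i(t)) = O(t)^{a_i}`, `a_i` the order of `P_i` at `T = 0`.
* `val_eq_iff`: `mem_iff` for `c / d`.
* `val_poly`, `val_poly_lt`: for `p ≠ 0` let `p_i` be a coefficient of maximal value; by
  `exists_residue` `p / p_i` is congruent modulo `𝔪_V` (note `x ∈ V`) to `q ∈ E[X]`, `q ≠ 0`, and
  `q(x)` is a unit of `V` by `x_tr`.  So `V(p(x)) = max_i V(p_i)`.
* `Gauss.exists_pow`: two terms of an equation `∑ p_i(x) z^i = 0`, `p_i ∈ K[X]`, have the same
  value, the value of `p_i(x)` is that of an element of `K`; use `Base.exists_pow`.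
* `arch`: `V(z)^k = V(t)^j`; take `n` with `n k > j`.
* `Gauss.comap`: check the three fields, `g (p(x)) = p(x)`.
-/

universe u

namespace Pool.Agent.LT

open VC Polynomial

theorem A1.mul_lt {Γ : Type*} [LinearOrderedCommGroupWithZero Γ] {a b : Γ} (ha : a ≤ 1)
    (hb : b < 1) : a * b < 1 :=
  (mul_le_of_le_one_left' ha).trans_lt hb

/-- If a polynomial equation with nonzero coefficients holds, two nonzero terms have the same
value. -/
theorem A1.two_terms {F : Type*} [Field F] {Γ : Type*} [LinearOrderedCommGroupWithZero Γ]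
    (v : Valuation F Γ) (n : ℕ) (a : ℕ → F) (z : F) (hz : z ≠ 0) (hn : a n ≠ 0)
    (h : ∑ i ∈ Finset.range (n + 1), a i * z ^ i = 0) :
    ∃ i j, i < j ∧ a i ≠ 0 ∧ a j ≠ 0 ∧ v (a i) * v z ^ i = v (a j) * v z ^ j := by
  classical
  obtain ⟨i, hi, hmax⟩ := Finset.exists_max_image (Finset.range (n + 1))
    (fun i => v (a i * z ^ i)) ⟨n, Finset.mem_range.mpr (Nat.lt_succ_self n)⟩
  have hpos : v (a i * z ^ i) ≠ 0 := by
    have h1 : v (a n * z ^ n) ≤ v (a i * z ^ i) :=
      hmax n (Finset.mem_range.mpr (Nat.lt_succ_self n))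
    intro h0
    rw [h0] at h1
    have h2 : v (a n * z ^ n) = 0 := le_antisymm h1 zero_le
    rw [Valuation.zero_iff] at h2
    exact (mul_ne_zero hn (pow_ne_zero _ hz)) h2
  have hai : a i ≠ 0 := by
    intro h0
    apply hpos
    rw [h0, zero_mul, map_zero]
  have key : ∃ j ∈ Finset.range (n + 1), j ≠ i ∧ v (a j * z ^ j) = v (a i * z ^ i) := by
    by_contra hcon
    push Not at hcon
    have h1 : v (∑ j ∈ (Finset.range (n + 1)).erase i, a j * z ^ j) < v (a i * z ^ i) := by
      apply Valuation.map_sum_lt _ hpos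
      intro j hj
      have hj' := Finset.mem_erase.mp hj
      exact lt_of_le_of_ne (hmax j hj'.2) (hcon j hj'.2 hj'.1)
    have h2 := Finset.add_sum_erase (Finset.range (n + 1)) (fun i => a i * z ^ i) hi
    rw [h] at h2
    have h3 : (∑ j ∈ (Finset.range (n + 1)).erase i, a j * z ^ j) = -(a i * z ^ i) := by
      linear_combination h2
    rw [h3, Valuation.map_neg] at h1
    exact lt_irrefl _ h1
  obtain ⟨j, -, hji, hj⟩ := key
  have haj : a j ≠ 0 := by
    intro h0
    apply hpos
    rw [← hj, h0, zero_mul, map_zero]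
  rw [map_mul, map_mul, map_pow, map_pow] at hj
  rcases lt_or_gt_of_ne hji with h1 | h1
  · exact ⟨j, i, h1, haj, hai, hj⟩
  · exact ⟨i, j, h1, hai, haj, hj.symm⟩

open IntermediateField.algebraAdjoinAdjoin in
/-- An equation with polynomial coefficients. -/
theorem A1.exists_rel {F L : Type*} [Field F] [Field L] [Algebra F L] (t z : L)
    (hz : IsAlgebraic (IntermediateField.adjoin F {t}) z) :
    ∃ (n : ℕ) (q : ℕ → F[X]), aeval t (q n) ≠ 0 ∧
      ∑ i ∈ Finset.range (n + 1), aeval t (q i) * z ^ i = 0 := by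
  have h1 : IsAlgebraic (Algebra.adjoin F {t}) z :=
    (IsFractionRing.isAlgebraic_iff (Algebra.adjoin F {t})
      (IntermediateField.adjoin F {t}) L).mpr hz
  obtain ⟨p, hp, hpz⟩ := h1
  have h2 : ∀ i, ∃ q : F[X], aeval t q = (p.coeff i : L) := by
    intro i
    have h3 := (p.coeff i).2
    have h4 : ∀ w : L, w ∈ Algebra.adjoin F {t} → ∃ q : F[X], aeval t q = w := by
      intro w hw
      rw [Algebra.adjoin_singleton_eq_range_aeval] at hw
      obtain ⟨q, hq⟩ := hw
      exact ⟨q, hq⟩
    exact h4 _ h3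
  choose q hq using h2
  refine ⟨p.natDegree, q, ?_, ?_⟩
  · rw [hq]
    intro h0
    apply hp
    rw [← leadingCoeff_eq_zero]
    exact Subtype.ext h0
  · rw [aeval_eq_sum_range] at hpz
    rw [← hpz]
    apply Finset.sum_congr rfl
    intro i _
    rw [hq, Algebra.smul_def]
    rfl

variable {E K N : Type u} [Field E] [IsAlgClosed E] [CharZero E] [Field K] [IsAlgClosed K]
  [Algebra E K] [Field N] [Algebra K N] [Algebra E N] [IsScalarTower E K N]
  {O : ValuationSubring K} {t : K} {x : N} {V : ValuationSubring N}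

omit [IsAlgClosed E] [CharZero E] [IsAlgClosed K] in
theorem A1.val_const (h : Base E O t) {e : E} (he : e ≠ 0) :
    O.valuation (algebraMap E K e) = 1 := by
  have h1 : O.valuation (algebraMap E K e) ≤ 1 := (O.valuation_le_one_iff _).mpr (h.const e)
  have h2 : O.valuation (algebraMap E K e⁻¹) ≤ 1 := (O.valuation_le_one_iff _).mpr (h.const e⁻¹)
  have h3 : O.valuation (algebraMap E K e) * O.valuation (algebraMap E K e⁻¹) = 1 := by
    rw [← map_mul, ← map_mul, mul_inv_cancel₀ he, map_one, map_one]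
  apply le_antisymm h1
  by_contra h4
  push Not at h4
  have h5 : O.valuation (algebraMap E K e) * O.valuation (algebraMap E K e⁻¹) < 1 :=
    by rw [mul_comm]; exact A1.mul_lt h2 h4
  rw [h3] at h5
  exact lt_irrefl _ h5

omit [IsAlgClosed E] [CharZero E] [IsAlgClosed K] in
theorem A1.aeval_mem (h : Base E O t) {c : K} (hc : c ∈ O) (p : E[X]) : aeval c p ∈ O := by
  rw [aeval_eq_sum_range]
  apply sum_mem
  intro i _
  rw [Algebra.smul_def]
  exact mul_mem (h.const _) (pow_mem hc i)

omit [IsAlgClosed E] [CharZero E] [IsAlgClosed K] in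
theorem A1.t_mem' (h : Base E O t) : t ∈ O := by
  have h1 := h.t_mem
  rw [ValuationSubring.mem_nonunits_iff] at h1
  exact (O.valuation_le_one_iff _).mp h1.le

omit [IsAlgClosed E] [CharZero E] [IsAlgClosed K] in
theorem A1.val_aeval (h : Base E O t) {q : E[X]} (hq : q ≠ 0) :
    ∃ m : ℕ, O.valuation (aeval t q) = O.valuation t ^ m := by
  obtain ⟨q', hq', hnd⟩ := exists_eq_pow_rootMultiplicity_mul_and_not_dvd q hq 0
  refine ⟨q.rootMultiplicity 0, ?_⟩
  rw [C_0, sub_zero] at hq' hnd
  rw [X_dvd_iff] at hnd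
  have h1 : O.valuation (aeval t q') = 1 := by
    have h2 : aeval t q' = aeval t (divX q') * t + algebraMap E K (q'.coeff 0) := by
      conv_lhs => rw [← divX_mul_X_add q']
      rw [map_add, map_mul, aeval_X, aeval_C]
    have h3 : O.valuation (aeval t (divX q') * t) < 1 := by
      rw [map_mul]
      have h4 : O.valuation (aeval t (divX q')) ≤ 1 :=
        (O.valuation_le_one_iff _).mpr (A1.aeval_mem h (A1.t_mem' h) _)
      have h5 := h.t_mem
      rw [ValuationSubring.mem_nonunits_iff] at h5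
      exact A1.mul_lt h4 h5
    rw [h2, Valuation.map_add_eq_of_lt_right, A1.val_const h hnd]
    rw [A1.val_const h hnd]
    exact h3
  conv_lhs => rw [hq']
  rw [map_mul, map_pow, aeval_X, map_mul, map_pow, h1, mul_one]

omit [IsAlgClosed K] in
/-- The residue field of `O` is `E`. -/
theorem Base.exists_residue (h : Base E O t) {c : K} (hc : c ∈ O) :
    ∃ e : E, c - algebraMap E K e ∈ O.nonunits := by
  classical
  obtain ⟨n, q, hqn, hsum⟩ := A1.exists_rel t c (h.alg c)
  have hqn' : q n ≠ 0 := by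
    rintro h0
    rw [h0, map_zero] at hqn
    exact hqn rfl
  -- the same equation as a polynomial in `T`
  set P : E[X][X] := ∑ i ∈ Finset.range (n + 1), (q i).map C * C (X ^ i) with hP
  have hcoeff : ∀ j, P.coeff j = ∑ i ∈ Finset.range (n + 1), C ((q i).coeff j) * X ^ i := by
    intro j
    rw [hP, finsetSum_coeff]
    apply Finset.sum_congr rfl
    intro i _
    rw [coeff_mul_C, coeff_map]
  have hP0 : P ≠ 0 := by
    intro h0
    apply hqn'
    ext j
    have h1 := hcoeff j
    rw [h0, coeff_zero] at h1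
    have h2 := congrArg (fun p : E[X] => p.coeff n) h1
    simp only [coeff_zero, finsetSum_coeff, coeff_C_mul, coeff_X_pow] at h2
    rw [Finset.sum_eq_single n] at h2
    · simpa using h2.symm
    · intro b _ hb
      rw [if_neg (Ne.symm hb), mul_zero]
    · intro hn
      exact absurd (Finset.mem_range.mpr (Nat.lt_succ_self n)) hn
  have hev : eval₂ (aeval c : E[X] →ₐ[E] K).toRingHom t P = 0 := by
    rw [hP, eval₂_finsetSum, ← hsum]
    apply Finset.sum_congr rfl
    intro i _
    rw [eval₂_mul, eval₂_C, eval₂_map]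
    congr 1
    · rw [aeval_def]
      congr 1
      ext a
      simp
    · simp
  obtain ⟨P', hP', hnd⟩ := exists_eq_pow_rootMultiplicity_mul_and_not_dvd P hP0 0
  rw [C_0, sub_zero] at hP' hnd
  rw [X_dvd_iff] at hnd
  have hev' : eval₂ (aeval c : E[X] →ₐ[E] K).toRingHom t P' = 0 := by
    rw [hP', eval₂_mul, eval₂_pow, eval₂_X] at hev
    exact (mul_eq_zero.mp hev).resolve_left (pow_ne_zero _ h.t_ne)
  have hmem : ∀ Q : E[X][X], eval₂ (aeval c : E[X] →ₐ[E] K).toRingHom t Q ∈ O := by
    intro Q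
    rw [eval₂_eq_sum_range]
    apply sum_mem
    intro i _
    exact mul_mem (A1.aeval_mem h hc _) (pow_mem (A1.t_mem' h) i)
  have h1 : O.valuation (aeval c (P'.coeff 0)) < 1 := by
    have h2 : eval₂ (aeval c : E[X] →ₐ[E] K).toRingHom t P' =
        eval₂ (aeval c : E[X] →ₐ[E] K).toRingHom t (divX P') * t + aeval c (P'.coeff 0) := by
      conv_lhs => rw [← divX_mul_X_add P']
      rw [eval₂_add, eval₂_mul, eval₂_X, eval₂_C]
      rfl
    rw [hev'] at h2
    have h3 : aeval c (P'.coeff 0) =
        -(eval₂ (aeval c : E[X] →ₐ[E] K).toRingHom t (divX P') * t) := by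
      linear_combination -h2
    rw [h3, Valuation.map_neg, map_mul]
    have h4 := (O.valuation_le_one_iff _).mpr (hmem (divX P'))
    have h5 := h.t_mem
    rw [ValuationSubring.mem_nonunits_iff] at h5
    exact A1.mul_lt h4 h5
  by_contra hcon
  push Not at hcon
  set p := P'.coeff 0 with hp
  have hs : p.Splits := IsAlgClosed.splits p
  have h6 : aeval c p = algebraMap E K p.leadingCoeff *
      (p.roots.map fun a => c - algebraMap E K a).prod := by
    conv_lhs => rw [hs.eq_prod_roots]
    rw [map_mul, aeval_C, map_multiset_prod, Multiset.map_map]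
    congr 2
    apply Multiset.map_congr rfl
    intro a _
    simp
  have h7 : O.valuation (aeval c p) = 1 := by
    rw [h6, map_mul, A1.val_const h (leadingCoeff_ne_zero.mpr hnd), one_mul,
      map_multiset_prod, Multiset.map_map]
    apply Multiset.prod_eq_one
    intro y hy
    obtain ⟨a, _, rfl⟩ := Multiset.mem_map.mp hy
    have h8 := hcon a
    rw [ValuationSubring.mem_nonunits_iff] at h8
    push Not at h8
    exact le_antisymm ((O.valuation_le_one_iff _).mpr (sub_mem hc (h.const a))) h8
  rw [h7] at h1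
  exact lt_irrefl _ h1

omit [IsAlgClosed K] in
theorem Base.unit (h : Base E O t) {e : E} (he : e ≠ 0) : O.valuation (algebraMap E K e) = 1 :=
  A1.val_const h he

omit [IsAlgClosed K] in
/-- Every nonzero element of `K` has a rational order. -/
theorem Base.exists_pow (h : Base E O t) {c : K} (hc : c ≠ 0) :
    ∃ k : ℕ, 0 < k ∧ ∃ j : ℤ, O.valuation c ^ k = O.valuation t ^ j := by
  obtain ⟨n, q, hqn, hsum⟩ := A1.exists_rel t c (h.alg c)
  obtain ⟨i, j, hij, hi, hj, hv⟩ := A1.two_terms O.valuation n (fun i => aeval t (q i)) c hc hqn hsum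
  have hqi : q i ≠ 0 := by
    rintro h0
    simp [h0] at hi
  have hqj : q j ≠ 0 := by
    rintro h0
    simp [h0] at hj
  obtain ⟨a, ha⟩ := A1.val_aeval h hqi
  obtain ⟨b, hb⟩ := A1.val_aeval h hqj
  have ht0 : O.valuation t ≠ 0 := (Valuation.ne_zero_iff _).mpr h.t_ne
  have hc0 : O.valuation c ≠ 0 := (Valuation.ne_zero_iff _).mpr hc
  refine ⟨j - i, by omega, (a : ℤ) - b, ?_⟩
  change _ * _ = _ * _ at hv
  rw [ha, hb] at hv
  have h1 : O.valuation c ^ j = O.valuation c ^ (j - i) * O.valuation c ^ i := by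
    rw [← pow_add]
    congr 1
    omega
  rw [h1, ← mul_assoc] at hv
  have h2 := mul_right_cancel₀ (pow_ne_zero i hc0) hv
  rw [zpow_sub₀ ht0, zpow_natCast, zpow_natCast, eq_div_iff (pow_ne_zero _ ht0), mul_comm]
  exact h2.symm

omit [IsAlgClosed E] [CharZero E] [IsAlgClosed K] in
theorem Gauss.val_eq_iff (hV : Gauss E O x V) (c d : K) :
    V.valuation (algebraMap K N c) ≤ V.valuation (algebraMap K N d) ↔
      O.valuation c ≤ O.valuation d := by
  rcases eq_or_ne d 0 with rfl | hd
  · rw [map_zero, map_zero, map_zero, le_zero_iff, le_zero_iff, Valuation.zero_iff,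
      Valuation.zero_iff]
    exact map_eq_zero _
  · have h1 : V.valuation (algebraMap K N d) ≠ 0 :=
      (Valuation.ne_zero_iff _).mpr ((_root_.map_ne_zero _).mpr hd)
    have h2 : O.valuation d ≠ 0 := (Valuation.ne_zero_iff _).mpr hd
    have h3 : V.valuation (algebraMap K N c) ≤ V.valuation (algebraMap K N d) ↔
        V.valuation (algebraMap K N (c / d)) ≤ 1 := by
      rw [map_div₀, map_div₀, div_le_one₀ (zero_lt_iff.mpr h1)]
    have h4 : O.valuation c ≤ O.valuation d ↔ O.valuation (c / d) ≤ 1 := by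
      rw [map_div₀, div_le_one₀ (zero_lt_iff.mpr h2)]
    rw [h3, h4, ValuationSubring.valuation_le_one_iff, ValuationSubring.valuation_le_one_iff]
    exact hV.mem_iff _

omit [IsAlgClosed E] [CharZero E] [IsAlgClosed K] in
theorem A1.val_lt_iff (hV : Gauss E O x V) (c d : K) :
    V.valuation (algebraMap K N c) < V.valuation (algebraMap K N d) ↔
      O.valuation c < O.valuation d := by
  rw [← not_le, ← not_le, hV.val_eq_iff]

omit [IsAlgClosed E] [CharZero E] [IsAlgClosed K] in
theorem A1.val_lt_one_iff (hV : Gauss E O x V) (c : K) :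
    V.valuation (algebraMap K N c) < 1 ↔ O.valuation c < 1 := by
  have h1 := A1.val_lt_iff hV c 1
  rwa [map_one, map_one, map_one] at h1

omit [IsAlgClosed E] [CharZero E] [IsAlgClosed K] in
theorem A1.val_congr (hV : Gauss E O x V) {c d : K} (h : O.valuation c = O.valuation d) :
    V.valuation (algebraMap K N c) = V.valuation (algebraMap K N d) :=
  le_antisymm ((hV.val_eq_iff c d).mpr h.le) ((hV.val_eq_iff d c).mpr h.ge)

omit [IsAlgClosed K] in
/-- The value of a polynomial is the value of its largest coefficient. -/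
theorem A1.val_key (h : Base E O t) (hV : Gauss E O x V) (p : K[X]) (hp : p ≠ 0) :
    ∃ i0, p.coeff i0 ≠ 0 ∧ (∀ i, O.valuation (p.coeff i) ≤ O.valuation (p.coeff i0)) ∧
      V.valuation (aeval x p) = V.valuation (algebraMap K N (p.coeff i0)) := by
  classical
  obtain ⟨i0, hi0, hmax⟩ := Finset.exists_max_image (Finset.range (p.natDegree + 1))
    (fun i => O.valuation (p.coeff i)) ⟨p.natDegree, Finset.mem_range.mpr (Nat.lt_succ_self _)⟩
  have hne : p.coeff i0 ≠ 0 := by
    intro h0
    have h1 := hmax p.natDegree (Finset.mem_range.mpr (Nat.lt_succ_self _))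
    change O.valuation (p.coeff p.natDegree) ≤ O.valuation (p.coeff i0) at h1
    rw [h0, map_zero, le_zero_iff, Valuation.zero_iff] at h1
    exact hp (leadingCoeff_eq_zero.mp h1)
  have hle : ∀ i, O.valuation (p.coeff i) ≤ O.valuation (p.coeff i0) := by
    intro i
    by_cases hi : i ∈ Finset.range (p.natDegree + 1)
    · exact hmax i hi
    · rw [Finset.mem_range] at hi
      rw [coeff_eq_zero_of_natDegree_lt (by omega), map_zero]
      exact zero_le
  refine ⟨i0, hne, hle, ?_⟩
  have hO0 : O.valuation (p.coeff i0) ≠ 0 := (Valuation.ne_zero_iff _).mpr hne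
  have hr : ∀ i, p.coeff i / p.coeff i0 ∈ O := by
    intro i
    rw [← ValuationSubring.valuation_le_one_iff, map_div₀, div_le_one₀ (zero_lt_iff.mpr hO0)]
    exact hle i
  choose e he using fun i => h.exists_residue (hr i)
  set q : E[X] := ∑ i ∈ Finset.range (p.natDegree + 1), C (e i) * X ^ i with hq
  have hqc : q.coeff i0 = e i0 := by
    rw [hq, finsetSum_coeff, Finset.sum_eq_single i0]
    · rw [coeff_C_mul, coeff_X_pow, if_pos rfl, mul_one]
    · intro b _ hb
      rw [coeff_C_mul, coeff_X_pow, if_neg (Ne.symm hb), mul_zero]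
    · intro hn
      exact absurd hi0 hn
  have hq0 : q ≠ 0 := by
    intro h0
    rw [h0, coeff_zero] at hqc
    have h1 := he i0
    rw [← hqc, map_zero, sub_zero, div_self hne, ValuationSubring.mem_nonunits_iff,
      map_one] at h1
    exact lt_irrefl _ h1
  have hx1 : V.valuation x ≤ 1 := (V.valuation_le_one_iff _).mpr hV.x_mem
  have hconst : ∀ a : E, algebraMap E N a ∈ V := by
    intro a
    rw [IsScalarTower.algebraMap_apply E K N]
    exact (hV.mem_iff _).mpr (h.const a)
  have h2 : V.valuation (aeval x q) = 1 := by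
    apply le_antisymm
    · rw [ValuationSubring.valuation_le_one_iff, aeval_eq_sum_range]
      apply sum_mem
      intro i _
      rw [Algebra.smul_def]
      exact mul_mem (hconst _) (pow_mem hV.x_mem i)
    · have h3 := hV.x_tr q hq0
      rw [ValuationSubring.mem_nonunits_iff] at h3
      push Not at h3
      exact h3
  have h4 : aeval x p / algebraMap K N (p.coeff i0) = aeval x q +
      ∑ i ∈ Finset.range (p.natDegree + 1),
        algebraMap K N (p.coeff i / p.coeff i0 - algebraMap E K (e i)) * x ^ i := by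
    rw [hq, map_sum, ← Finset.sum_add_distrib, aeval_eq_sum_range, Finset.sum_div]
    apply Finset.sum_congr rfl
    intro i _
    rw [map_mul, aeval_C, map_pow, aeval_X, map_sub, map_div₀, Algebra.smul_def,
      ← IsScalarTower.algebraMap_apply E K N]
    ring
  have h5 : V.valuation (∑ i ∈ Finset.range (p.natDegree + 1),
        algebraMap K N (p.coeff i / p.coeff i0 - algebraMap E K (e i)) * x ^ i) < 1 := by
    apply Valuation.map_sum_lt _ one_ne_zero
    intro i _
    rw [map_mul, map_pow]
    rw [mul_comm]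
    apply A1.mul_lt
    · exact pow_le_one₀ zero_le hx1
    · rw [A1.val_lt_one_iff hV]
      have h6 := he i
      rwa [ValuationSubring.mem_nonunits_iff] at h6
  have h6 : V.valuation (aeval x p / algebraMap K N (p.coeff i0)) = 1 := by
    rw [h4, Valuation.map_add_eq_of_lt_left, h2]
    rw [h2]
    exact h5
  rw [map_div₀] at h6
  have h7 : V.valuation (algebraMap K N (p.coeff i0)) ≠ 0 :=
    (Valuation.ne_zero_iff _).mpr ((_root_.map_ne_zero _).mpr hne)
  rw [div_eq_one_iff_eq h7] at h6
  exact h6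

omit [IsAlgClosed K] in
/-- The Gauss valuation of a polynomial. -/
theorem Gauss.val_poly (h : Base E O t) (hV : Gauss E O x V) (p : K[X]) (c : K) :
    V.valuation (aeval x p) ≤ V.valuation (algebraMap K N c) ↔
      ∀ i, O.valuation (p.coeff i) ≤ O.valuation c := by
  rcases eq_or_ne p 0 with rfl | hp
  · simp
  · obtain ⟨i0, _, hle, hv⟩ := A1.val_key h hV p hp
    rw [hv, hV.val_eq_iff]
    exact ⟨fun h1 i => (hle i).trans h1, fun h1 => h1 i0⟩

omit [IsAlgClosed K] in
theorem Gauss.val_poly_lt (h : Base E O t) (hV : Gauss E O x V) (p : K[X]) (c : K) (hc : c ≠ 0) :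
    V.valuation (aeval x p) < V.valuation (algebraMap K N c) ↔
      ∀ i, O.valuation (p.coeff i) < O.valuation c := by
  rcases eq_or_ne p 0 with rfl | hp
  · have h1 : V.valuation (algebraMap K N c) ≠ 0 :=
      (Valuation.ne_zero_iff _).mpr ((_root_.map_ne_zero _).mpr hc)
    have h2 : O.valuation c ≠ 0 := (Valuation.ne_zero_iff _).mpr hc
    simp only [map_zero, coeff_zero]
    exact ⟨fun _ _ => zero_lt_iff.mpr h2, fun _ => zero_lt_iff.mpr h1⟩
  · obtain ⟨i0, _, hle, hv⟩ := A1.val_key h hV p hp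
    rw [hv, A1.val_lt_iff hV]
    exact ⟨fun h1 i => (hle i).trans_lt h1, fun h1 => h1 i0⟩

omit [IsAlgClosed K] in
/-- Every nonzero element algebraic over `K(x)` has a rational order. -/
theorem Gauss.exists_pow (h : Base E O t) (hV : Gauss E O x V) {z : N} (hz : z ≠ 0)
    (halg : IsAlgebraic (IntermediateField.adjoin K {x}) z) :
    ∃ k : ℕ, 0 < k ∧ ∃ j : ℤ, V.valuation z ^ k = V.valuation (algebraMap K N t) ^ j := by
  obtain ⟨n, q, hqn, hsum⟩ := A1.exists_rel x z halg
  obtain ⟨i, j, hij, hi, hj, hv⟩ := A1.two_terms V.valuation n (fun i => aeval x (q i)) z hz hqn hsum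
  have hqi : q i ≠ 0 := by
    rintro h0
    simp [h0] at hi
  have hqj : q j ≠ 0 := by
    rintro h0
    simp [h0] at hj
  obtain ⟨i0, hi0, _, hvi⟩ := A1.val_key h hV (q i) hqi
  obtain ⟨j0, hj0, _, hvj⟩ := A1.val_key h hV (q j) hqj
  change _ * _ = _ * _ at hv
  rw [hvi, hvj] at hv
  have hz0 : V.valuation z ≠ 0 := (Valuation.ne_zero_iff _).mpr hz
  have h1 : V.valuation z ^ j = V.valuation z ^ (j - i) * V.valuation z ^ i := by
    rw [← pow_add]
    congr 1
    omega
  rw [h1, ← mul_assoc] at hv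
  have h2 := mul_right_cancel₀ (pow_ne_zero i hz0) hv
  set a := (q i).coeff i0
  set b := (q j).coeff j0
  have hb0 : V.valuation (algebraMap K N b) ≠ 0 :=
    (Valuation.ne_zero_iff _).mpr ((_root_.map_ne_zero _).mpr hj0)
  have h3 : V.valuation z ^ (j - i) = V.valuation (algebraMap K N (a / b)) := by
    rw [map_div₀, map_div₀, eq_div_iff hb0, mul_comm]
    exact h2.symm
  obtain ⟨k, hk, m, hm⟩ := h.exists_pow (div_ne_zero hi0 hj0)
  refine ⟨(j - i) * k, Nat.mul_pos (by omega) hk, m, ?_⟩
  rw [pow_mul, h3, ← map_pow, ← map_pow, ← map_zpow₀, ← map_zpow₀]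
  apply A1.val_congr hV
  rw [map_pow, map_zpow₀]
  exact hm

omit [IsAlgClosed K] in
/-- The valuation has rank one. -/
theorem Gauss.arch (h : Base E O t) (hV : Gauss E O x V) {z : N} (hz : z ≠ 0)
    (halg : IsAlgebraic (IntermediateField.adjoin K {x}) z) :
    ∃ n : ℕ, V.valuation (algebraMap K N (t ^ n)) < V.valuation z := by
  obtain ⟨k, hk, j, hj⟩ := hV.exists_pow h hz halg
  have ht1 : V.valuation (algebraMap K N t) < 1 := by
    rw [A1.val_lt_one_iff hV]
    have h1 := h.t_mem
    rwa [ValuationSubring.mem_nonunits_iff] at h1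
  have ht0 : V.valuation (algebraMap K N t) ≠ 0 :=
    (Valuation.ne_zero_iff _).mpr ((_root_.map_ne_zero _).mpr h.t_ne)
  refine ⟨j.toNat + 1, ?_⟩
  apply lt_of_pow_lt_pow_left₀ k zero_le
  rw [hj, map_pow, map_pow, ← pow_mul, ← zpow_natCast]
  apply zpow_lt_zpow_right_of_lt_one₀ (zero_lt_iff.mpr ht0) ht1
  have h2 : j ≤ (j.toNat : ℤ) := Int.self_le_toNat j
  have h3 : (1 : ℤ) ≤ (k : ℤ) := by exact_mod_cast hk
  push_cast
  nlinarith [Int.natCast_nonneg j.toNat]

omit [IsAlgClosed E] [CharZero E] [IsAlgClosed K] in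
/-- The conjugate of a Gauss extension. -/
theorem Gauss.comap (hV : Gauss E O x V) (g : N ≃ₐ[K] N) (hg : g x = x) :
    Gauss E O x (V.comap ((g : N ≃+* N) : N →+* N)) := by
  have hmem : ∀ w : N, w ∈ V.comap ((g : N ≃+* N) : N →+* N) ↔ g w ∈ V := by
    intro w
    rw [ValuationSubring.mem_comap]
    rfl
  refine ⟨?_, ?_, ?_⟩
  · intro c
    rw [hmem, AlgEquiv.commutes]
    exact hV.mem_iff c
  · rw [hmem, hg]
    exact hV.x_mem
  · intro p hp hmem'
    apply hV.x_tr p hp
    have h1 : g (aeval x p) = aeval x p := by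
      have h2 := Polynomial.aeval_algHom_apply ((g : N →ₐ[K] N).restrictScalars E) x p
      have h3 : ((g : N →ₐ[K] N).restrictScalars E) x = x := hg
      rw [h3] at h2
      exact h2.symm
    rw [ValuationSubring.mem_nonunits_iff_or] at hmem' ⊢
    rcases hmem' with h2 | h2
    · exact Or.inl h2
    · right
      rw [hmem, map_inv₀, h1] at h2
      exact h2

end Pool.Agent.LT
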