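import Pool.Agent.Helper13.LT.A3

/-!
# Block A4: `D` acts on the elements of order `q` as the multiplication by `q`

Proofs.  `der_root`: `e ϖ^{e-1} δ ϖ = t = ϖ^e`.
`lt_of_le`: `z = ϖ^m w`, `w ∈ V`: `D z = (m/e) z + ϖ^m D w` and `D w ∈ 𝔪_V` (A3).
`eq_of_lt`: `z = 0` trivial.  `V(z)^k = V(t)^j`, `k > 0` (A1), so `z^k = t^j u`, `u` a unit of `V`;
`k z^{k-1} D z = j z^k + t^j D u`, so `D z = z (j/k + η)`, `η = D u / (k u) ∈ 𝔪_V`, and
`D z - (m/e) z = z ((j/k - m/e) + η)`.  `V(z) < V(ϖ^m)` gives `j e > m k`, so `j/k - m/e` is a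
nonzero rational number, a unit.
The statements about `δ` are proved in the same way (`const_nonunits`, `Base.exists_pow`).
-/

universe u

namespace Pool.Agent.LT

open VC Polynomial

section gen

variable {F : Type u} [Field F] [CharZero F] {R : ValuationSubring F} {t : F}
  {d : Derivation ℤ F F}

omit [CharZero F] in
private lemma root62 (hdt : d t = t) (h0 : t ≠ 0) {ϖ : F} {e : ℕ} (he : 0 < e) (hϖ : ϖ ^ e = t) :
    d ϖ = ϖ / e := by
  have hϖ0 : ϖ ≠ 0 := by
    rintro rfl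
    rw [zero_pow he.ne'] at hϖ
    exact h0 hϖ.symm
  obtain ⟨m, rfl⟩ : ∃ m, e = m + 1 := ⟨e - 1, by omega⟩
  have h1 : d (ϖ ^ (m + 1)) = ϖ ^ (m + 1) := by rw [hϖ, hdt]
  rw [Derivation.leibniz_pow, smul_eq_mul, nsmul_eq_mul, Nat.add_sub_cancel] at h1
  have he0 : ((m + 1 : ℕ) : F) ≠ 0 := by
    intro h
    rw [h, zero_mul] at h1
    exact pow_ne_zero _ hϖ0 h1.symm
  rw [pow_succ] at h1
  have h2 : ϖ ^ m ≠ 0 := pow_ne_zero _ hϖ0
  have h3 : ϖ ^ m * (((m + 1 : ℕ) : F) * d ϖ) = ϖ ^ m * ϖ := by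
    rw [← h1]
    ring
  have h4 := mul_left_cancel₀ h2 h3
  rw [eq_div_iff he0, mul_comm]
  exact h4

private lemma lt_gen62 (hd : ∀ z ∈ R, d z ∈ R.nonunits) (hdt : d t = t) (h0 : t ≠ 0) {ϖ : F} {e : ℕ}
    (he : 0 < e) (hϖ : ϖ ^ e = t) {m : ℕ} {z : F} (hz : R.valuation z ≤ R.valuation (ϖ ^ m)) :
    R.valuation (d z - (m : F) / e * z) < R.valuation (ϖ ^ m) := by
  have hϖ0 : ϖ ≠ 0 := by
    rintro rfl
    rw [zero_pow he.ne'] at hϖ
    exact h0 hϖ.symm
  have hp : ϖ ^ m ≠ 0 := pow_ne_zero _ hϖ0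
  have hv : 0 < R.valuation (ϖ ^ m) := by
    rw [zero_lt_iff]
    exact (Valuation.ne_zero_iff _).2 hp
  set w := z / ϖ ^ m with hw
  have hwR : w ∈ R := by
    rw [← ValuationSubring.valuation_le_one_iff, hw, map_div₀]
    exact (div_le_one₀ hv).2 hz
  have hzw : z = ϖ ^ m * w := by
    rw [hw]
    field_simp
  have hdw := hd w hwR
  rw [ValuationSubring.mem_nonunits_iff] at hdw
  have hdp : d (ϖ ^ m) = (m : F) / e * ϖ ^ m := by
    rcases Nat.eq_zero_or_pos m with rfl | hm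
    · simp
    obtain ⟨k, rfl⟩ : ∃ k, m = k + 1 := ⟨m - 1, by omega⟩
    rw [Derivation.leibniz_pow, smul_eq_mul, nsmul_eq_mul, Nat.add_sub_cancel,
      root62 hdt h0 he hϖ, pow_succ]
    ring
  have h1 : d z - (m : F) / e * z = ϖ ^ m * d w := by
    rw [hzw, Derivation.leibniz, hdp, smul_eq_mul, smul_eq_mul]
    ring
  rw [h1, map_mul]
  exact mul_lt_of_lt_one_right hv hdw

private lemma eq_gen62 (hd : ∀ z ∈ R, d z ∈ R.nonunits) (hdt : d t = t) (h0 : t ≠ 0)
    (htn : R.valuation t < 1) (hq : ∀ q : ℚ, q ≠ 0 → R.valuation (q : F) = 1) {ϖ : F} {e : ℕ}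
    (he : 0 < e) (hϖ : ϖ ^ e = t) {m : ℕ} {z : F}
    (hpow : z ≠ 0 → ∃ k : ℕ, 0 < k ∧ ∃ j : ℤ, R.valuation z ^ k = R.valuation t ^ j)
    (hz : R.valuation z < R.valuation (ϖ ^ m)) :
    R.valuation (d z - (m : F) / e * z) = R.valuation z := by
  rcases eq_or_ne z 0 with rfl | hz0
  · simp
  obtain ⟨k, hk, j, hkj⟩ := hpow hz0
  have hvt : R.valuation t ≠ 0 := (Valuation.ne_zero_iff _).2 h0
  have hvz : R.valuation z ≠ 0 := (Valuation.ne_zero_iff _).2 hz0
  have htj : t ^ j ≠ 0 := zpow_ne_zero _ h0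
  have hk0 : (k : F) ≠ 0 := by exact_mod_cast hk.ne'
  have he0 : (e : F) ≠ 0 := by exact_mod_cast he.ne'
  set u := z ^ k / t ^ j with hu
  have hu0 : u ≠ 0 := div_ne_zero (pow_ne_zero _ hz0) htj
  have hvu : R.valuation u = 1 := by
    rw [hu, map_div₀, map_pow, map_zpow₀, hkj, div_self (zpow_ne_zero _ hvt)]
  have huR : u ∈ R := by
    rw [← ValuationSubring.valuation_le_one_iff, hvu]
  have hdu := hd u huR
  rw [ValuationSubring.mem_nonunits_iff] at hdu
  have hzu : z ^ k = t ^ j * u := by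
    rw [hu]
    field_simp
  -- the derivative
  have hdz : d z = z * ((j : F) / k + d u / (k * u)) := by
    have h1 : d (z ^ k) = d (t ^ j * u) := by rw [hzu]
    rw [Derivation.leibniz_pow, Derivation.leibniz, Derivation.leibniz_zpow, hdt] at h1
    simp only [smul_eq_mul, nsmul_eq_mul, zsmul_eq_mul] at h1
    have h2 : t ^ (j - 1) * t = t ^ j := by
      rw [zpow_sub_one₀ h0]
      field_simp
    rw [h2] at h1
    have h3 : z ^ (k - 1) * z = z ^ k := by
      rw [← pow_succ, Nat.sub_add_cancel hk]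
    have h4 : (k : F) * z ^ k * d z = z * (t ^ j * d u + u * (j * t ^ j)) := by
      rw [← h1, ← h3]
      ring
    have h5 : z ^ k ≠ 0 := pow_ne_zero _ hz0
    have h6 : (k : F) * z ^ k ≠ 0 := mul_ne_zero hk0 h5
    apply mul_left_cancel₀ h6
    rw [h4, hzu]
    field_simp
    ring
  -- the rational number
  set q : ℚ := (j : ℚ) / k - (m : ℚ) / e with hqdef
  have hq0 : q ≠ 0 := by
    intro hq0
    have h1 : (j : ℚ) / k = (m : ℚ) / e := by
      rw [hqdef] at hq0
      linarith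
    have hkQ : (k : ℚ) ≠ 0 := by exact_mod_cast hk.ne'
    have heQ : (e : ℚ) ≠ 0 := by exact_mod_cast he.ne'
    rw [div_eq_div_iff hkQ heQ] at h1
    have h2 : j * e = m * k := by exact_mod_cast h1
    have h3 : R.valuation z ^ (k * e) < R.valuation (ϖ ^ m) ^ (k * e) :=
      pow_lt_pow_left₀ hz zero_le (Nat.mul_pos hk he).ne'
    have h4 : R.valuation z ^ (k * e) = R.valuation t ^ (j * e) := by
      rw [pow_mul, hkj, zpow_mul, zpow_natCast]
    have h5 : R.valuation (ϖ ^ m) ^ (k * e) = R.valuation t ^ ((m : ℤ) * k) := by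
      rw [← map_pow, ← pow_mul, show m * (k * e) = e * (m * k) by ring, pow_mul, hϖ, map_pow]
      rw [← zpow_natCast]
      congr 1
    rw [h4, h5, h2] at h3
    exact lt_irrefl _ h3
  have hvq := hq q hq0
  have hvk : R.valuation (k : F) = 1 := by
    have := hq (k : ℚ) (by exact_mod_cast hk.ne')
    simpa using this
  have hη : R.valuation (d u / (k * u)) < 1 := by
    rw [map_div₀, map_mul, hvk, hvu, one_mul, div_one]
    exact hdu
  have hsum : R.valuation ((q : F) + d u / (k * u)) = 1 := by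
    rw [Valuation.map_add_eq_of_lt_left _ (by rw [hvq]; exact hη), hvq]
  have h1 : d z - (m : F) / e * z = z * ((q : F) + d u / (k * u)) := by
    rw [hdz, hqdef]
    push_cast
    ring
  rw [h1, map_mul, hsum, mul_one]

end gen

variable {E K N : Type u} [Field E] [IsAlgClosed E] [CharZero E] [Field K] [IsAlgClosed K]
  [Algebra E K] [Field N] [Algebra K N] [Algebra E N] [IsScalarTower E K N]
  {O : ValuationSubring K} {t : K} {x : N}
  {δ : Derivation ℤ K K} {D : Derivation ℤ N N} {A : K[X]}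

private lemma charK62 (E K : Type u) [Field E] [CharZero E] [Field K] [Algebra E K] : CharZero K :=
  charZero_of_injective_algebraMap (algebraMap E K).injective

omit [IsAlgClosed E] [IsAlgClosed K] in
private lemma rat62 [IsAlgClosed E] (h : Base E O t) (q : ℚ) (hq : q ≠ 0) [CharZero K] :
    O.valuation (q : K) = 1 := by
  have h1 : (q : K) = algebraMap E K (q : E) := by rw [map_ratCast]
  rw [h1]
  exact h.unit (by exact_mod_cast hq)

/-- `D ϖ = ϖ / e` if `ϖ ^ e = t`. -/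
theorem der_root (hδt : δ t = t) (h0 : t ≠ 0) {ϖ : K} {e : ℕ} (he : 0 < e) (hϖ : ϖ ^ e = t) :
    δ ϖ = ϖ / e :=
  root62 hδt h0 he hϖ

theorem Der.lt_of_le (h : Base E O t) (hD : Der E O t x δ D A) (htr : Transcendental K x)
    (halg : ∀ z : N, IsAlgebraic (IntermediateField.adjoin K {x}) z)
    {V : ValuationSubring N} (hV : Gauss E O x V) {ϖ : K} {e : ℕ} (he : 0 < e) (hϖ : ϖ ^ e = t)
    {m : ℕ} {z : N} (hz : V.valuation z ≤ V.valuation (algebraMap K N (ϖ ^ m))) :
    V.valuation (D z - (m : N) / e * z) < V.valuation (algebraMap K N (ϖ ^ m)) := by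
  have hK : CharZero K := charK62 E K
  have hN : CharZero N := charK62 E N
  rw [map_pow] at hz ⊢
  refine lt_gen62 (t := algebraMap K N t) (fun z hz => hD.nonunits h htr halg hV hz) ?_ ?_ he ?_ hz
  · rw [hD.ext, hD.t_eq]
  · exact (_root_.map_ne_zero _).2 h.t_ne
  · rw [← map_pow, hϖ]

theorem Der.eq_of_lt (h : Base E O t) (hD : Der E O t x δ D A) (htr : Transcendental K x)
    (halg : ∀ z : N, IsAlgebraic (IntermediateField.adjoin K {x}) z)
    {V : ValuationSubring N} (hV : Gauss E O x V) {ϖ : K} {e : ℕ} (he : 0 < e) (hϖ : ϖ ^ e = t)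
    {m : ℕ} {z : N} (hz : V.valuation z < V.valuation (algebraMap K N (ϖ ^ m))) :
    V.valuation (D z - (m : N) / e * z) = V.valuation z := by
  have hK : CharZero K := charK62 E K
  have hN : CharZero N := charK62 E N
  have htO := h.t_mem
  rw [ValuationSubring.mem_nonunits_iff] at htO
  rw [map_pow] at hz
  refine eq_gen62 (t := algebraMap K N t) (fun z hz => hD.nonunits h htr halg hV hz) ?_ ?_ ?_ ?_
    he ?_ ?_ hz
  · rw [hD.ext, hD.t_eq]
  · exact (_root_.map_ne_zero _).2 h.t_ne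
  · have h1 := (hV.val_eq_iff 1 t).not.2 (by rw [map_one]; exact not_le.2 htO)
    rw [map_one, map_one, not_le] at h1
    exact h1
  · intro q hq
    have h1 : (q : N) = algebraMap K N (q : K) := by rw [map_ratCast]
    have h2 := rat62 h q hq
    rw [h1]
    refine le_antisymm ?_ ?_
    · have h3 := (hV.val_eq_iff (q : K) 1).2 (by rw [map_one, h2])
      rwa [map_one, map_one] at h3
    · have h3 := (hV.val_eq_iff 1 (q : K)).2 (by rw [map_one, h2])
      rwa [map_one, map_one] at h3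
  · rw [← map_pow, hϖ]
  · intro hz0
    exact hV.exists_pow h hz0 (halg z)

/-- The same for `δ` on `K`. -/
theorem const_lt_of_le (h : Base E O t) (hδ : ∀ e : E, δ (algebraMap E K e) = 0) (ht : δ t = t)
    {ϖ : K} {e : ℕ} (he : 0 < e) (hϖ : ϖ ^ e = t)
    {m : ℕ} {c : K} (hc : O.valuation c ≤ O.valuation (ϖ ^ m)) :
    O.valuation (δ c - (m : K) / e * c) < O.valuation (ϖ ^ m) := by
  have hK : CharZero K := charK62 E K
  exact lt_gen62 (fun z hz => const_nonunits h hδ ht hz) ht h.t_ne he hϖ hc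

theorem const_eq_of_lt (h : Base E O t) (hδ : ∀ e : E, δ (algebraMap E K e) = 0) (ht : δ t = t)
    {ϖ : K} {e : ℕ} (he : 0 < e) (hϖ : ϖ ^ e = t)
    {m : ℕ} {c : K} (hc : O.valuation c < O.valuation (ϖ ^ m)) :
    O.valuation (δ c - (m : K) / e * c) = O.valuation c := by
  have hK : CharZero K := charK62 E K
  have htO := h.t_mem
  rw [ValuationSubring.mem_nonunits_iff] at htO
  exact eq_gen62 (fun z hz => const_nonunits h hδ ht hz) ht h.t_ne htO (fun q hq => rat62 h q hq)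
    he hϖ (fun hc0 => h.exists_pow hc0) hc

end Pool.Agent.LT
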