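import Pool.Agent.Helper13.LT.A3
import Pool.Agent.Helper26.VC.Main3

/-!
# Block A5: construction of the derivations

Proofs.  `δ`: `t` is transcendental over `E`; the derivation `T d/dT` of `E[T]` extends to `E(t)`
and to `K` (`SC.exists_deriv_ext`: localizations and algebraic separable extensions are formally
etale).  `A`: the Lagrange interpolation polynomial `∑_b δ(b) ∏_{b' ≠ b} (X - b') / (b - b')`; the
`b - b'` are units of `O` and `δ(b) ∈ 𝔪_O` by `const_nonunits` (A3).  `D`: on `K[X]` take
`p ↦ p^δ + A p'` (`Differential.mapCoeff`/`Derivation.mapCoeff` and `Polynomial.derivative`),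
extend it to `K(x)` and to `N` by `SC.exists_deriv_ext`.
`comm`: `g⁻¹ D g - D` is a derivation which vanishes on `K` and at `x`, so on `K(x)`
(`SC.kerDer` is a subfield) and on `N` (`SC.deriv_eq_zero_of_isAlgebraic`).
-/

universe u

namespace Pool.Agent.LT

open VC Polynomial

theorem exists_poly_der {k : Type u} [CommRing k] (d : Derivation ℤ k k) (A : k[X]) :
    ∃ d' : Derivation ℤ k[X] k[X], (∀ c, d' (C c) = C (d c)) ∧ d' X = A := by
  let _ : Differential k := ⟨d⟩
  let e : Derivation ℤ k[X] k[X] := (Polynomial.derivative' (R := k)).restrictScalars ℤ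
  have h1 : ∀ p, e p = derivative p := fun p => rfl
  refine ⟨Differential.mapCoeffs + A • e, fun c => ?_, ?_⟩
  · rw [Derivation.add_apply, Differential.mapCoeffs_C, Derivation.smul_apply, h1, derivative_C,
      smul_zero, add_zero]
    rfl
  · rw [Derivation.add_apply, Differential.mapCoeffs_X, Derivation.smul_apply, h1, derivative_X,
      smul_eq_mul, mul_one, zero_add]

theorem exists_der_poly {k F : Type u} [Field k] [CharZero k] [Field F] [Algebra k F] {x : F}
    (htr : Transcendental k x) (halg : ∀ z : F, IsAlgebraic (IntermediateField.adjoin k {x}) z)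
    (d : Derivation ℤ k k) (A : k[X]) :
    ∃ D : Derivation ℤ F F, (∀ c, D (algebraMap k F c) = algebraMap k F (d c)) ∧
      D x = aeval x A := by
  obtain ⟨d', hd1, hd2⟩ := exists_poly_der d A
  let i1 : Algebra k[X] F := polyAlg x
  let i3 : Algebra (RatFunc k) F := ratAlg x htr
  have s1 : IsScalarTower k k[X] F := IsScalarTower.of_algebraMap_eq (fun x =>
    (aeval _ : k[X] →ₐ[k] F).commutes x |>.symm)
  have s3 : IsScalarTower k[X] (RatFunc k) F := IsScalarTower.of_algebraMap_eq (fun y =>
    (ratAlg_poly x htr y).symm)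
  have hc0 : CharZero (RatFunc k) :=
    charZero_of_injective_algebraMap (algebraMap k (RatFunc k)).injective
  have hal : Algebra.IsAlgebraic (RatFunc k) F := by
    refine ⟨fun z => ?_⟩
    have hz := halg z
    obtain ⟨p, hp0, hp⟩ := hz
    let f : (IntermediateField.adjoin k {x}) →+* RatFunc k :=
      (RatFunc.algEquivOfTranscendental x htr).symm.toRingEquiv.toRingHom
    refine ⟨p.map f, ?_, ?_⟩
    · rw [Ne, Polynomial.map_eq_zero_iff]
      · exact hp0
      · exact (RatFunc.algEquivOfTranscendental x htr).symm.injective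
    · rw [aeval_def, eval₂_map]
      rw [aeval_def] at hp
      have hfe : (algebraMap (RatFunc k) F).comp f =
          algebraMap (IntermediateField.adjoin k {x}) F := by
        ext y
        change algebraMap (IntermediateField.adjoin k {x}) F (RatFunc.algEquivOfTranscendental x htr
          ((RatFunc.algEquivOfTranscendental x htr).symm y)) = _
        rw [AlgEquiv.apply_symm_apply]
      rw [hfe]
      exact hp
  have e1 : Algebra.FormallyEtale k[X] (RatFunc k) :=
    Algebra.FormallyEtale.of_isLocalization (nonZeroDivisors k[X])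
  have e2 : Algebra.FormallyEtale (RatFunc k) F := Algebra.FormallyEtale.of_isSeparable _ _
  have e3 : Algebra.FormallyEtale k[X] F := Algebra.FormallyEtale.comp k[X] (RatFunc k) F
  obtain ⟨D, hD⟩ := SC.exists_deriv_ext (A := k[X]) (B := F) d'
  refine ⟨D, fun c => ?_, ?_⟩
  · have h1 : D (algebraMap k[X] F (C c)) = algebraMap k[X] F (C (d c)) := by
      rw [← hd1]
      exact hD (C c)
    have e4 : ∀ c, algebraMap k[X] F (C c) = algebraMap k F c := by
      intro c
      change aeval x (C c) = _
      rw [aeval_C]
    rw [e4, e4] at h1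
    exact h1
  · have h1 : D (algebraMap k[X] F X) = algebraMap k[X] F A := by
      rw [← hd2]
      exact hD X
    have e4 : algebraMap k[X] F X = x := by
      change aeval x X = _
      rw [aeval_X]
    rw [e4] at h1
    exact h1

variable {E K N : Type u} [Field E] [IsAlgClosed E] [CharZero E] [Field K] [IsAlgClosed K]
  [Algebra E K] [Field N] [Algebra K N] [Algebra E N] [IsScalarTower E K N]
  {O : ValuationSubring K} {t : K} {x : N}
  {δ : Derivation ℤ K K} {D : Derivation ℤ N N} {A : K[X]}

omit [IsAlgClosed E] [IsAlgClosed K] [CharZero E] in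
theorem Base.transcendental (h : Base E O t) : Transcendental E t := by
  intro hal
  obtain ⟨p, hp0, hp⟩ := hal
  -- `t` is invertible over `E`: `1 = t * g (t)`, impossible
  -- strong induction on the degree
  induction hn : p.natDegree using Nat.strong_induction_on generalizing p with
  | _ n ih =>
    have hpt : p.divX * X + C (p.coeff 0) = p := divX_mul_X_add p
    have hc : ∀ q : E[X], aeval t q ∈ O := by
      intro q
      rw [aeval_eq_sum_range]
      refine O.sum_mem fun i _ => ?_
      rw [Algebra.smul_def]
      exact O.mul_mem _ _ (h.const _) (pow_mem (ValuationSubring.nonunits_subset h.t_mem) i)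
    have h0 : p.coeff 0 = 0 := by
      by_contra hne
      have h1 : t * (aeval t p.divX * (algebraMap E K (-(p.coeff 0)⁻¹))) = 1 := by
        rw [← hpt] at hp
        rw [map_add, map_mul, aeval_X, aeval_C] at hp
        have h2 : aeval t p.divX * t = - algebraMap E K (p.coeff 0) := by
          rw [eq_neg_iff_add_eq_zero]; exact hp
        have h3 : algebraMap E K (p.coeff 0) ≠ 0 := by
          rw [Ne, map_eq_zero]; exact hne
        rw [← mul_assoc, mul_comm t, h2, map_neg, map_inv₀]
        field_simp
      have h4 : t⁻¹ ∈ O := by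
        have : t⁻¹ = aeval t p.divX * (algebraMap E K (-(p.coeff 0)⁻¹)) := by
          rw [inv_eq_iff_eq_inv, eq_comm, inv_eq_iff_eq_inv]
          exact (eq_inv_of_mul_eq_one_right h1)
        rw [this]
        exact O.mul_mem _ _ (hc _) (h.const _)
      have h5 := h.t_mem
      rw [ValuationSubring.mem_nonunits_iff_or] at h5
      rcases h5 with h5 | h5
      · exact h.t_ne h5
      · exact h5 h4
    have hp1 : p.divX ≠ 0 := by
      intro h1
      rw [h1, h0] at hpt
      simp at hpt
      exact hp0 hpt.symm
    have hdeg : p.divX.natDegree < n := by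
      rw [← hn, natDegree_divX_eq_natDegree_tsub_one]
      have : p.natDegree ≠ 0 := by
        intro h1
        rw [natDegree_eq_zero] at h1
        obtain ⟨c, hc⟩ := h1
        rw [← hc, coeff_C_zero] at h0
        rw [← hc, h0, C_0] at hp0
        exact hp0 rfl
      omega
    refine ih _ hdeg _ hp1 ?_ rfl
    rw [← hpt, h0, C_0, add_zero, map_mul, aeval_X] at hp
    exact (mul_eq_zero.mp hp).resolve_right h.t_ne

theorem exists_der (h : Base E O t) (htr : Transcendental K x)
    (halg : ∀ z : N, IsAlgebraic (IntermediateField.adjoin K {x}) z)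
    (B : Finset K) (hB : ∀ b ∈ B, b ∈ O)
    (hdiff : ∀ b ∈ B, ∀ b' ∈ B, b ≠ b' → b - b' ∉ O.nonunits) :
    ∃ (δ : Derivation ℤ K K) (D : Derivation ℤ N N) (A : K[X]), Der E O t x δ D A ∧
      ∀ b ∈ B, A.eval b = δ b := by
  classical
  have hcK : CharZero K := charZero_of_injective_algebraMap (algebraMap E K).injective
  obtain ⟨δ, hδ1, hδ2⟩ := exists_der_poly (F := K) h.transcendental h.alg (0 : Derivation ℤ E E) X
  have hδc : ∀ e : E, δ (algebraMap E K e) = 0 := by
    intro e
    rw [hδ1, Derivation.zero_apply, map_zero]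
  have hδt : δ t = t := by rw [hδ2, aeval_X]
  -- the interpolation polynomial
  obtain ⟨A, hA1, hA2⟩ : ∃ A : K[X], (∀ i, A.coeff i ∈ O.nonunits) ∧ ∀ b ∈ B, A.eval b = δ b := by
    have hunit : ∀ b ∈ B, ∀ b' ∈ B, b ≠ b' → (b - b')⁻¹ ∈ O := by
      intro b hb b' hb' hne
      by_contra hcon
      exact hdiff b hb b' hb' hne ((ValuationSubring.mem_nonunits_iff_or _).mpr (Or.inr hcon))
    refine ⟨∑ b ∈ B, C (δ b) * ∏ b' ∈ B.erase b, (C (b - b')⁻¹ * (X - C b')), ?_, ?_⟩
    · intro i
      rw [finsetSum_coeff]
      refine O.nonunits.sum_mem fun b hb => ?_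
      rw [coeff_C_mul]
      have h1 : (∏ b' ∈ B.erase b, (C (b - b')⁻¹ * (X - C b'))) ∈ Polynomial.lifts O.subtype := by
        refine Subsemiring.prod_mem _ fun b' hb' => ?_
        rw [Finset.mem_erase] at hb'
        refine mul_mem (C_mem_lifts O.subtype ⟨(b - b')⁻¹, hunit b hb b' hb'.2 (Ne.symm hb'.1)⟩)
          ?_
        rw [sub_eq_add_neg, ← C_neg]
        exact add_mem (X_mem_lifts _) (C_mem_lifts O.subtype ⟨-b', O.neg_mem _ (hB b' hb'.2)⟩)
      rw [lifts_iff_coeff_lifts] at h1
      obtain ⟨y, hy⟩ := h1 i
      rw [← hy, ValuationSubring.mem_nonunits_iff, map_mul]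
      have h2 := const_nonunits h hδc hδt (hB b hb)
      rw [ValuationSubring.mem_nonunits_iff] at h2
      have h3 : O.valuation (O.subtype y) ≤ 1 := (O.valuation_le_one_iff _).mpr y.2
      exact mul_lt_one_of_lt_of_le h2 h3
    · intro b hb
      rw [eval_finsetSum, Finset.sum_eq_single b]
      · rw [eval_mul, eval_C, eval_prod, Finset.prod_eq_one, mul_one]
        intro b' hb'
        rw [Finset.mem_erase] at hb'
        rw [eval_mul, eval_C, eval_sub, eval_X, eval_C, inv_mul_cancel₀]
        exact sub_ne_zero.mpr (Ne.symm hb'.1)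
      · intro b' hb' hne
        rw [eval_mul, eval_prod, Finset.prod_eq_zero (i := b), mul_zero]
        · exact Finset.mem_erase.mpr ⟨Ne.symm hne, hb⟩
        · rw [eval_mul, eval_sub, eval_X, eval_C, eval_C, sub_self, mul_zero]
      · intro hb'
        exact absurd hb hb'
  obtain ⟨D, hD1, hD2⟩ := exists_der_poly (F := N) htr halg δ A
  exact ⟨δ, D, A, ⟨hD1, hδc, hδt, hD2, hA1⟩, hA2⟩

omit [IsAlgClosed E] [CharZero E] [IsAlgClosed K] [Algebra E N] [IsScalarTower E K N] in
/-- `D` commutes with the automorphisms over `K(x)`. -/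
theorem Der.comm [CharZero K] (hD : Der E O t x δ D A)
    (halg : ∀ z : N, IsAlgebraic (IntermediateField.adjoin K {x}) z)
    (g : N ≃ₐ[K] N) (hg : g x = x) (z : N) : D (g z) = g (D z) := by
  have hcN : CharZero N := charZero_of_injective_algebraMap (algebraMap K N).injective
  -- `g⁻¹ D g - D`
  let D' : Derivation ℤ N N := Derivation.mk' (((g.symm : N ≃ₐ[K] N).toLinearMap.restrictScalars ℤ).comp
    (D.toLinearMap.comp ((g : N ≃ₐ[K] N).toLinearMap.restrictScalars ℤ)) - D.toLinearMap) (by
      intro a b
      change g.symm (D (g (a * b))) - D (a * b) = a • (g.symm (D (g b)) - D b) +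
        b • (g.symm (D (g a)) - D a)
      rw [map_mul, Derivation.leibniz, Derivation.leibniz, map_add]
      simp only [smul_eq_mul, map_mul, AlgEquiv.symm_apply_apply]
      ring)
  have hD' : ∀ a, D' a = g.symm (D (g a)) - D a := fun a => rfl
  have hker : ∀ y ∈ IntermediateField.adjoin K {x}, D' y = 0 := by
    intro y hy
    let M : IntermediateField K N :=
      { SC.kerDer D' with
        algebraMap_mem' := by
          intro c
          change D' (algebraMap K N c) = 0
          rw [hD', AlgEquiv.commutes, hD.ext, AlgEquiv.commutes, sub_self] }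
    have hM : ∀ w, w ∈ M ↔ D' w = 0 := fun w => Iff.rfl
    have h1 : IntermediateField.adjoin K {x} ≤ M := by
      rw [IntermediateField.adjoin_le_iff, Set.singleton_subset_iff]
      change x ∈ M
      rw [hM, hD', hg, hD.x_eq]
      have h2 : g.symm (aeval x A) = aeval x A := by
        rw [← AlgEquiv.coe_toAlgHom, ← aeval_algHom_apply, AlgEquiv.coe_toAlgHom]
        congr 1
        congr 1
        rw [AlgEquiv.symm_apply_eq, hg]
      rw [h2, sub_self]
    exact (hM y).mp (h1 hy)
  have h0 : D' z = 0 := SC.deriv_eq_zero_of_isAlgebraic D' (C := IntermediateField.adjoin K {x})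
    (fun c => hker _ c.2) (halg z)
  rw [hD', sub_eq_zero] at h0
  rw [← h0, AlgEquiv.apply_symm_apply]

end Pool.Agent.LT
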