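import Pool.Agent.Helper13.LT.A0
import Pool.Agent.Helper13.LT.A1
import Pool.Agent.SC.Deriv
import Pool.Agent.SC.DerivExt
import Pool.Agent.SC.FFExt
import Pool.Agent.SC.CoverLevels

/-!
# Block A3: the derivations map the valuation rings to their maximal ideals

Proof of `der_nonunits_gen`.  Let `z ∈ V`.  `F₁ = F₀(z)` is a function field over `κ` (finite over
`F₀`, as `z` is algebraic over `κ(t)` and `t ∈ F₀`; `SC.CoverLevels` has
`isFunctionField_of_finite8`) and stable under `D` (minimal polynomial `P` of `z` over `F₀`: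
`D z = - P^D(z) / P'(z)`).  `V ∩ F₁` is a place `P₁` of `F₁ / κ` (it contains `κ`, and `t⁻¹ ∉ V`).
By A0 for `D` restricted to `F₁`, `T = t` (`D t / t = 1`): `D` maps `𝔪 ∩ F₁` to itself.  Finally
`z = c + z'` with `c ∈ κ` and `z' ∈ 𝔪` (`κ` is algebraically closed, residue field of a place) and
`D c ∈ 𝔪` by `hDκ`.

`const_nonunits`: `κ = E`, `C = K`, `V = O`, `F₀ = E(t)` (`t` is transcendental over `E`, a nonzero
element of the maximal ideal, `E` being trivially valued).

`Der.nonunits`: let `C = AlgebraicClosure N`, `V'` a valuation ring of `C` with `V' ∩ N = V`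
(`SC.exists_place_over` or `SC.CoverLevels.exists_comap_eq`), `κ` the algebraic closure of `E(x)` in `C`.  `E(x) ⊆ V` is
trivially valued (`x_tr`), so `κ` is (integral elements over a field).  `C` is algebraic over
`κ(t)`.  `D` extends to `C` (`SC.exists_deriv_ext`; `C / N` is algebraic of characteristic zero).
`D κ ⊆ κ · A(x) ⊆ 𝔪`: for `p ∈ E[X]`, `D (p(x)) = p'(x) A(x)`; quotients; for `c ∈ κ` with minimal
polynomial `P` over `E(x)`, `D c = - P^D(c) / P'(c)` with `P'(c)` a unit.  `F₀ = κ(t, A_i)` is
stable under `D` (`δ A_i ∈ E(t, A_i)` by the same formula, as `A_i ∈ K` is algebraic over `E(t)`)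
and a function field over `κ`.
-/

universe u

namespace Pool.Agent.LT

open VC Polynomial

private lemma h31_D_aeval {L C : Type*} [Field L] [Field C] [Algebra L C] (D : Derivation ℤ C C)
    (z : C) (P : L[X]) : D (aeval z P) =
      P.sum (fun i a => D (algebraMap L C a) * z ^ i) + aeval z (derivative P) * D z := by
  induction P using Polynomial.induction_on' with
  | add p q hp hq =>
    rw [map_add, map_add, hp, hq, derivative_add, map_add, Polynomial.sum_add_index]
    · ring
    · intro i; rw [map_zero, map_zero, zero_mul]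
    · intro i a b; rw [map_add, map_add]; ring
  | monomial n a =>
    rw [aeval_monomial, Derivation.leibniz, Derivation.leibniz_pow, derivative_monomial,
      aeval_monomial, Polynomial.sum_monomial_index, smul_eq_mul, smul_eq_mul, smul_eq_mul,
      nsmul_eq_mul, map_mul, map_natCast]
    · ring
    · rw [map_zero, map_zero, zero_mul]

private lemma h31_formula {L C : Type*} [Field L] [Field C] [CharZero C] [Algebra L C]
    (D : Derivation ℤ C C) {z : C} (hz : IsAlgebraic L z) :
    ∃ P : L[X], aeval z (derivative P) ≠ 0 ∧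
      D z = -(P.sum (fun i a => D (algebraMap L C a) * z ^ i)) / aeval z (derivative P) := by
  have hcz : CharZero L := by
    refine ⟨fun m n h => ?_⟩
    have h1 := congrArg (algebraMap L C) h
    rw [map_natCast, map_natCast] at h1
    exact Nat.cast_injective h1
  have hint : IsIntegral L z := hz.isIntegral
  have h2 : aeval z (derivative (minpoly L z)) ≠ 0 := by
    apply Polynomial.Separable.aeval_derivative_ne_zero (minpoly.irreducible hint).separable
    exact minpoly.aeval L z
  refine ⟨minpoly L z, h2, ?_⟩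
  have h1 := h31_D_aeval D z (minpoly L z)
  rw [minpoly.aeval, map_zero] at h1
  rw [eq_div_iff h2]
  linear_combination -h1

private lemma h31_der_mem {L C : Type*} [Field L] [Field C] [CharZero C] [Algebra L C]
    (D : Derivation ℤ C C) {z : C} (hz : IsAlgebraic L z) (S : Subfield C) (hS : z ∈ S)
    (hL : ∀ a : L, algebraMap L C a ∈ S) (hD : ∀ a : L, D (algebraMap L C a) ∈ S) : D z ∈ S := by
  obtain ⟨P, -, h⟩ := h31_formula D hz
  rw [h]
  refine S.div_mem (S.neg_mem ?_) ?_
  · rw [Polynomial.sum_def]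
    exact S.sum_mem fun i _ => S.mul_mem (hD _) (S.pow_mem hS _)
  · rw [Polynomial.aeval_eq_sum_range]
    refine S.sum_mem fun i _ => ?_
    rw [Algebra.smul_def]
    exact S.mul_mem (hL _) (S.pow_mem hS _)

private lemma h31_nonunits_mul {C : Type*} [Field C] (V : ValuationSubring C) {a b : C}
    (ha : a ∈ V) (hb : b ∈ V.nonunits) : a * b ∈ V.nonunits := by
  rw [ValuationSubring.mem_nonunits_iff] at hb ⊢
  rw [map_mul]
  have h1 : V.valuation a ≤ 1 := (V.valuation_le_one_iff _).2 ha
  calc V.valuation a * V.valuation b ≤ 1 * V.valuation b := mul_le_mul_left h1 _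
    _ < 1 := by rwa [one_mul]

private lemma h31_nonunits_add {C : Type*} [Field C] (V : ValuationSubring C) {a b : C}
    (ha : a ∈ V.nonunits) (hb : b ∈ V.nonunits) : a + b ∈ V.nonunits := by
  rw [ValuationSubring.mem_nonunits_iff] at ha hb ⊢
  exact (V.valuation.map_add a b).trans_lt (max_lt ha hb)

private lemma h31_zero {C : Type*} [Field C] (V : ValuationSubring C) : (0 : C) ∈ V.nonunits := by
  rw [ValuationSubring.mem_nonunits_iff, map_zero]
  exact zero_lt_one

private lemma h31_der_nonunit {L C : Type*} [Field L] [Field C] [CharZero C] [Algebra L C]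
    (D : Derivation ℤ C C) {z : C} (hz : IsAlgebraic L z) (V : ValuationSubring C) (S : Subfield C)
    (hSV : ∀ s ∈ S, s ∈ V) (hS : z ∈ S) (hL : ∀ a : L, algebraMap L C a ∈ S)
    (hD : ∀ a : L, D (algebraMap L C a) ∈ V.nonunits) : D z ∈ V.nonunits := by
  obtain ⟨P, h0, h⟩ := h31_formula D hz
  have h1 : aeval z (derivative P) ∈ S := by
    rw [Polynomial.aeval_eq_sum_range]
    refine S.sum_mem fun i _ => ?_
    rw [Algebra.smul_def]
    exact S.mul_mem (hL _) (S.pow_mem hS _)
  have h2 : P.sum (fun i a => D (algebraMap L C a) * z ^ i) ∈ V.nonunits := by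
    rw [Polynomial.sum_def]
    refine Finset.sum_induction _ (fun y => y ∈ V.nonunits)
      (fun a b ha hb => h31_nonunits_add V ha hb) (h31_zero V) fun i _ => ?_
    rw [mul_comm]
    exact h31_nonunits_mul V (hSV _ (S.pow_mem hS i)) (hD _)
  have h3 : D z = (-(aeval z (derivative P))⁻¹) * P.sum (fun i a => D (algebraMap L C a) * z ^ i) := by
    rw [h]
    field_simp
  rw [h3]
  exact h31_nonunits_mul V (hSV _ (S.neg_mem (S.inv_mem h1))) h2

private lemma h31_adjoin {κ C : Type*} [Field κ] [Field C] [Algebra κ C] (D : Derivation ℤ C C)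
    (S : Set C) (hκ : ∀ c : κ, D (algebraMap κ C c) ∈ IntermediateField.adjoin κ S)
    (hS : ∀ s ∈ S, D s ∈ IntermediateField.adjoin κ S) :
    ∀ z ∈ IntermediateField.adjoin κ S, D z ∈ IntermediateField.adjoin κ S := by
  intro z hz
  induction hz using IntermediateField.adjoin_induction with
  | mem x hx => exact hS x hx
  | algebraMap c => exact hκ c
  | add x y _ _ hx hy => rw [map_add]; exact add_mem hx hy
  | mul x y hx' hy' hx hy =>
    rw [Derivation.leibniz, smul_eq_mul, smul_eq_mul]
    exact add_mem (mul_mem hx' hy) (mul_mem hy' hx)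
  | inv x hx' hx =>
    rw [Derivation.leibniz_inv, smul_eq_mul]
    exact mul_mem (neg_mem (pow_mem (inv_mem hx') _)) hx

/-- General form: `κ` is a trivially valued algebraically closed field, `C` is algebraic over
`κ(t)`, the derivation `D` maps `κ` to the maximal ideal and `D t = t`; `F₀` is a function field
over `κ` stable under `D`. -/
theorem der_nonunits_gen {κ C : Type u} [Field κ] [IsAlgClosed κ] [CharZero κ] [Field C]
    [Algebra κ C] (V : ValuationSubring C) (hκ : ∀ c : κ, algebraMap κ C c ∈ V) {t : C}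
    (ht0 : t ≠ 0) (ht : t ∈ V.nonunits)
    (halg : ∀ z : C, IsAlgebraic (IntermediateField.adjoin κ {t}) z)
    (D : Derivation ℤ C C) (hDκ : ∀ c : κ, D (algebraMap κ C c) ∈ V.nonunits) (hDt : D t = t)
    (F₀ : IntermediateField κ C) (hF₀ : IsFunctionField κ F₀) (htF : t ∈ F₀)
    (hDF : ∀ z ∈ F₀, D z ∈ F₀) {z : C} (hz : z ∈ V) : D z ∈ V.nonunits := by
  classical
  have hcz : CharZero C := charZero_of_injective_algebraMap (algebraMap κ C).injective
  have hzF : IsAlgebraic F₀ z := by
    have hle : IntermediateField.adjoin κ {t} ≤ F₀ := by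
      rw [IntermediateField.adjoin_simple_le_iff]; exact htF
    exact IsAlgebraic.tower_top_of_subalgebra_le (A := (IntermediateField.adjoin κ {t}).toSubalgebra)
      (B := F₀.toSubalgebra) hle (halg z)
  set F₁ : IntermediateField F₀ C := IntermediateField.adjoin F₀ {z} with hF₁
  have hfin : FiniteDimensional F₀ F₁ := IntermediateField.adjoin.finiteDimensional hzF.isIntegral
  have hFF : IsFunctionField κ F₁ := SC.isFunctionField_of_finite (M := F₀) hF₀
  have hzF₁ : z ∈ F₁ := IntermediateField.mem_adjoin_simple_self F₀ z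
  have hDz : D z ∈ F₁ := h31_der_mem D hzF F₁.toSubfield hzF₁ (fun a => F₁.algebraMap_mem a)
    (fun a => F₁.algebraMap_mem ⟨D a, hDF a a.2⟩)
  have hDF₁ : ∀ y ∈ F₁, D y ∈ F₁ := by
    refine h31_adjoin D {z} (fun c => F₁.algebraMap_mem ⟨D c, hDF c c.2⟩) ?_
    intro s hs
    rw [Set.mem_singleton_iff.1 hs]
    exact hDz
  let d : Derivation ℤ F₁ F₁ := Derivation.mk'
    (AddMonoidHom.toIntLinearMap ⟨⟨fun y => ⟨D y, hDF₁ y y.2⟩, by
      apply Subtype.ext
      change D ((0 : F₁) : C) = ((0 : F₁) : C)
      rw [ZeroMemClass.coe_zero, map_zero]⟩, fun y y' => by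
      apply Subtype.ext
      change D ((y + y' : F₁) : C) = _
      rw [AddMemClass.coe_add, map_add]
      rfl⟩) (fun y y' => by
      apply Subtype.ext
      change D ((y * y' : F₁) : C) = (y : C) * D y' + (y' : C) * D y
      rw [MulMemClass.coe_mul, Derivation.leibniz]
      rfl)
  have hd : ∀ y : F₁, ((d y : F₁) : C) = D y := fun y => rfl
  let P₁ : Place κ F₁ :=
    { ring := V.comap (algebraMap F₁ C)
      algebraMap_mem := fun a => hκ a
      ne_top := by
        intro htop
        have h1 : (⟨t, F₁.algebraMap_mem ⟨t, htF⟩⟩ : F₁)⁻¹ ∈ V.comap (algebraMap F₁ C) := by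
          rw [htop]; trivial
        rcases (ValuationSubring.mem_nonunits_iff_or _).1 ht with h2 | h2
        · exact ht0 h2
        · exact h2 h1 }
  have hmem : ∀ y : F₁, y ∈ P₁.ring ↔ (y : C) ∈ V := fun y => Iff.rfl
  have hnon : ∀ y : F₁, y ∈ P₁.ring.nonunits ↔ (y : C) ∈ V.nonunits := by
    intro y
    rw [ValuationSubring.mem_nonunits_iff_or, ValuationSubring.mem_nonunits_iff_or, hmem]
    have h1 : ((y⁻¹ : F₁) : C) = (y : C)⁻¹ := rfl
    rw [h1]
    refine or_congr ?_ Iff.rfl
    rw [← ZeroMemClass.coe_zero F₁, Subtype.ext_iff]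
  have key := deriv_nonunits hFF P₁ d (fun a => by
      rw [hmem, hd]
      exact ValuationSubring.nonunits_subset (hDκ a))
    (T := ⟨t, F₁.algebraMap_mem ⟨t, htF⟩⟩) (fun h => ht0 (congrArg Subtype.val h))
    ((hnon _).2 ht) (by
      rw [hmem]
      have h1 : ((d ⟨t, F₁.algebraMap_mem ⟨t, htF⟩⟩ / ⟨t, F₁.algebraMap_mem ⟨t, htF⟩⟩ : F₁) : C) = D t / t :=
        rfl
      rw [h1, hDt, div_self ht0]
      exact V.one_mem)
  obtain ⟨c, hc⟩ := SCVP.exists_residue hFF P₁ (x := ⟨z, hzF₁⟩) hz
  have h1 := (hnon _).1 (key _ hc)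
  rw [hd] at h1
  have h2 : ((⟨z, hzF₁⟩ - algebraMap κ F₁ c : F₁) : C) = z - algebraMap κ C c := rfl
  rw [h2, map_sub] at h1
  have h3 := h31_nonunits_add V h1 (hDκ c)
  rwa [sub_add_cancel] at h3

private lemma h31_adj2 {κ C : Type*} [Field κ] [Field C] [Algebra κ C] (D : Derivation ℤ C C)
    (S : Set C) (T : Subfield C) (hκT : ∀ c : κ, algebraMap κ C c ∈ T) (hST : ∀ s ∈ S, s ∈ T)
    (hκ : ∀ c : κ, D (algebraMap κ C c) ∈ T) (hS : ∀ s ∈ S, D s ∈ T) :
    ∀ z ∈ IntermediateField.adjoin κ S, z ∈ T ∧ D z ∈ T := by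
  intro z hz
  induction hz using IntermediateField.adjoin_induction with
  | mem x hx => exact ⟨hST x hx, hS x hx⟩
  | algebraMap c => exact ⟨hκT c, hκ c⟩
  | add x y _ _ hx hy => rw [map_add]; exact ⟨T.add_mem hx.1 hy.1, T.add_mem hx.2 hy.2⟩
  | mul x y _ _ hx hy =>
    rw [Derivation.leibniz, smul_eq_mul, smul_eq_mul]
    exact ⟨T.mul_mem hx.1 hy.1, T.add_mem (T.mul_mem hx.1 hy.2) (T.mul_mem hy.1 hx.2)⟩
  | inv x _ hx =>
    rw [Derivation.leibniz_inv, smul_eq_mul]
    exact ⟨T.inv_mem hx.1, T.mul_mem (T.neg_mem (T.pow_mem (T.inv_mem hx.1) _)) hx.2⟩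

private lemma h31_tr {κ C : Type*} [Field κ] [IsAlgClosed κ] [Field C] [Algebra κ C]
    (V : ValuationSubring C) (hκ : ∀ c : κ, algebraMap κ C c ∈ V) {t : C} (ht0 : t ≠ 0)
    (ht : t ∈ V.nonunits) : Transcendental κ t := by
  by_contra hcon
  obtain ⟨b, hb⟩ : ∃ b : κ, algebraMap κ C b = t := by
    have hint : IsIntegral κ t := (not_not.mp hcon : IsAlgebraic κ t).isIntegral
    have hdeg := IsAlgClosed.degree_eq_one_of_irreducible κ (minpoly.irreducible hint)
    exact minpoly.mem_range_of_degree_eq_one κ t hdeg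
  rcases (ValuationSubring.mem_nonunits_iff_or _).1 ht with h2 | h2
  · exact ht0 h2
  · apply h2
    rw [← hb, ← map_inv₀]
    exact hκ _

private lemma h31_ff {κ C : Type*} [Field κ] [Field C] [Algebra κ C] {t : C}
    (htr : Transcendental κ t) : IsFunctionField κ (IntermediateField.adjoin κ {t}) := by
  set M := IntermediateField.adjoin κ {t} with hM
  have htM : t ∈ M := IntermediateField.mem_adjoin_simple_self κ t
  refine ⟨⟨t, htM⟩, ?_, ?_⟩
  · have h1 : algebraMap M C ⟨t, htM⟩ = t := rfl
    rw [← transcendental_algebraMap_iff (A := C) (algebraMap M C).injective, h1]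
    exact htr
  · have hsurj : Function.Surjective
        (Algebra.linearMap (IntermediateField.adjoin κ {(⟨t, htM⟩ : M)}) M) := by
      have h2 : ∀ y (hy : y ∈ M), (⟨y, hy⟩ : M) ∈ IntermediateField.adjoin κ {(⟨t, htM⟩ : M)} := by
        intro y hy
        induction hy using IntermediateField.adjoin_induction with
        | mem x hx =>
          have hx' := Set.mem_singleton_iff.1 hx
          subst hx'
          exact IntermediateField.mem_adjoin_simple_self κ _
        | algebraMap c => exact (IntermediateField.adjoin κ {(⟨t, htM⟩ : M)}).algebraMap_mem c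
        | add x y hx' hy' hx hy => exact add_mem hx hy
        | mul x y hx' hy' hx hy => exact mul_mem hx hy
        | inv x hx' hx => exact inv_mem hx
      intro y
      exact ⟨⟨y, h2 y y.2⟩, rfl⟩
    exact Module.Finite.of_surjective _ hsurj

private lemma h31_alg_map {L L' K C : Type*} [Field L] [Field L'] [Field K] [Field C]
    [Algebra L K] [Algebra L' C] (g : K →+* C)
    (hc : ∀ a : L, ∃ b : L', algebraMap L' C b = g (algebraMap L K a)) {c : K}
    (h : IsAlgebraic L c) : IsAlgebraic L' (g c) := by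
  let f : L →+* L' :=
    { toFun := fun a => (hc a).choose
      map_one' := by
        apply (algebraMap L' C).injective
        rw [(hc 1).choose_spec, map_one, map_one, map_one]
      map_mul' := fun a b => by
        apply (algebraMap L' C).injective
        rw [(hc _).choose_spec, map_mul, map_mul, map_mul, (hc a).choose_spec, (hc b).choose_spec]
      map_zero' := by
        apply (algebraMap L' C).injective
        rw [(hc 0).choose_spec, map_zero, map_zero, map_zero]
      map_add' := fun a b => by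
        apply (algebraMap L' C).injective
        rw [(hc _).choose_spec, map_add, map_add, map_add, (hc a).choose_spec, (hc b).choose_spec] }
  have hf : (algebraMap L' C).comp f = g.comp (algebraMap L K) := by
    ext a
    exact (hc a).choose_spec
  obtain ⟨p, hp, hpc⟩ := h
  refine ⟨p.map f, (Polynomial.map_ne_zero_iff f.injective).2 hp, ?_⟩
  rw [Polynomial.aeval_def, Polynomial.eval₂_map, hf, ← Polynomial.hom_eval₂,
    ← Polynomial.aeval_def, hpc, map_zero]

private lemma h31_int_mem {L C : Type*} [Field L] [Field C] [Algebra L C] (V : ValuationSubring C)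
    (hL : ∀ a : L, algebraMap L C a ∈ V) {c : C} (hc : IsAlgebraic L c) : c ∈ V := by
  have h1 : IsIntegral L c := hc.isIntegral
  let ρ : L →+* V := (algebraMap L C).codRestrict V hL
  have h2 : IsIntegral V c := by
    obtain ⟨P, hP, hPa⟩ := h1
    refine ⟨P.map ρ, hP.map ρ, ?_⟩
    have h3 : (algebraMap V C).comp ρ = algebraMap L C := rfl
    rw [Polynomial.eval₂_map, h3, hPa]
  obtain ⟨y, hy⟩ := IsIntegrallyClosed.isIntegral_iff.1 h2
  rw [← hy]
  exact y.2

variable {E K N : Type u} [Field E] [IsAlgClosed E] [CharZero E] [Field K] [IsAlgClosed K]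
  [Algebra E K] [Field N] [Algebra K N] [Algebra E N] [IsScalarTower E K N]
  {O : ValuationSubring K} {t : K} {x : N}
  {δ : Derivation ℤ K K} {D : Derivation ℤ N N} {A : K[X]}

theorem const_nonunits (h : Base E O t) (hδ : ∀ e : E, δ (algebraMap E K e) = 0) (ht : δ t = t)
    {c : K} (hc : c ∈ O) : δ c ∈ O.nonunits := by
  refine der_nonunits_gen O h.const h.t_ne h.t_mem h.alg δ (fun c => ?_) ht
    (IntermediateField.adjoin E {t}) (h31_ff (h31_tr O h.const h.t_ne h.t_mem))
    (IntermediateField.mem_adjoin_simple_self E t) (h31_adjoin δ {t} (fun c => ?_) ?_) hc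
  · rw [hδ]
    exact h31_zero O
  · rw [hδ]
    exact zero_mem _
  · intro s hs
    rw [Set.mem_singleton_iff.1 hs, ht]
    exact IntermediateField.mem_adjoin_simple_self E t

private theorem h31_core {C : Type u} [Field C] [CharZero C] [Algebra N C] [IsAlgClosed C]
    [Algebra.IsAlgebraic N C] [Algebra E C] [IsScalarTower E N C]
    (h : Base E O t) (hD : Der E O t x δ D A)
    (halg : ∀ z : N, IsAlgebraic (IntermediateField.adjoin K {x}) z)
    {V : ValuationSubring N} (hV : Gauss E O x V) {z : N} (hz : z ∈ V) (V' : ValuationSubring C)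
    (hV' : ∀ y : N, algebraMap N C y ∈ V' ↔ y ∈ V) (D' : Derivation ℤ C C)
    (hD' : ∀ y : N, D' (algebraMap N C y) = algebraMap N C (D y)) : D z ∈ V.nonunits := by
  classical
  have hVn : ∀ y : N, y ∈ V.nonunits → algebraMap N C y ∈ V'.nonunits := by
    intro y hy
    rw [ValuationSubring.mem_nonunits_iff_or] at hy ⊢
    rw [← map_inv₀, hV']
    exact hy.imp (fun h => by rw [h, map_zero]) id
  have hOn : ∀ y : K, y ∈ O.nonunits → algebraMap K N y ∈ V.nonunits := by
    intro y hy
    rw [ValuationSubring.mem_nonunits_iff_or] at hy ⊢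
    rw [← map_inv₀, hV.mem_iff]
    exact hy.imp (fun h => by rw [h, map_zero]) id
  -- the field `E(x)`
  have hEV : ∀ p : E[X], aeval x p ∈ V := by
    intro p
    rw [Polynomial.aeval_eq_sum_range]
    refine sum_mem fun i _ => ?_
    rw [Algebra.smul_def, IsScalarTower.algebraMap_apply E K N]
    exact mul_mem ((hV.mem_iff _).2 (h.const _)) (pow_mem hV.x_mem _)
  have hEVinv : ∀ p : E[X], p ≠ 0 → (aeval x p)⁻¹ ∈ V ∧ aeval x p ≠ 0 := by
    intro p hp
    have h1 := hV.x_tr p hp
    rw [ValuationSubring.mem_nonunits_iff_or, not_or, not_not] at h1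
    exact ⟨h1.2, h1.1⟩
  have hAx : aeval x A ∈ V.nonunits := by
    rw [Polynomial.aeval_eq_sum_range]
    refine Finset.sum_induction _ (fun y => y ∈ V.nonunits)
      (fun a b ha hb => h31_nonunits_add V ha hb) (h31_zero V) fun i _ => ?_
    rw [Algebra.smul_def, mul_comm]
    exact h31_nonunits_mul V (pow_mem hV.x_mem _) (hOn _ (hD.A_mem i))
  have hDE : ∀ e : E, D (algebraMap E N e) = 0 := by
    intro e
    rw [IsScalarTower.algebraMap_apply E K N, hD.ext, hD.const, map_zero]
  have hDp : ∀ p : E[X], D (aeval x p) = aeval x (derivative p) * aeval x A := by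
    intro p
    rw [h31_D_aeval, hD.x_eq, Polynomial.sum_def]
    simp only [hDE, zero_mul, Finset.sum_const_zero, zero_add]
  set x' : C := algebraMap N C x with hx'
  set k0 : IntermediateField E C := IntermediateField.adjoin E {x'} with hk0
  have hk0mem : ∀ y ∈ k0, ∃ w : N, algebraMap N C w = y ∧ w ∈ V ∧
      ∃ u : N, u ∈ V ∧ D w = u * aeval x A ∧ algebraMap N C u ∈ k0 := by
    intro y hy
    obtain ⟨p, q, hpq⟩ := (IntermediateField.mem_adjoin_simple_iff E y).1 hy
    have hpk : ∀ r : E[X], algebraMap N C (aeval x r) ∈ k0 := by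
      intro r
      rw [← aeval_algebraMap_apply]
      exact (IntermediateField.mem_adjoin_simple_iff E _).2 ⟨r, 1, by rw [map_one, div_one]⟩
    by_cases hq : q = 0
    · refine ⟨0, ?_, zero_mem _, 0, zero_mem _, ?_, ?_⟩
      · rw [hpq, hq, map_zero, map_zero, div_zero]
      · rw [map_zero, zero_mul]
      · rw [map_zero]; exact zero_mem _
    · obtain ⟨h1, h2⟩ := hEVinv q hq
      refine ⟨aeval x p / aeval x q, ?_, ?_, (aeval x q)⁻¹ ^ 2 * (aeval x q * aeval x (derivative p) -
        aeval x p * aeval x (derivative q)), ?_, ?_, ?_⟩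
      · rw [hpq, map_div₀, aeval_algebraMap_apply, aeval_algebraMap_apply]
      · rw [div_eq_mul_inv]
        exact mul_mem (hEV p) h1
      · exact mul_mem (pow_mem h1 2) (sub_mem (mul_mem (hEV _) (hEV _)) (mul_mem (hEV _) (hEV _)))
      · rw [Derivation.leibniz_div, hDp, hDp]
        simp only [smul_eq_mul]
        field_simp
      · rw [map_mul, map_pow, map_inv₀, map_sub, map_mul, map_mul]
        exact mul_mem (pow_mem (inv_mem (hpk q)) 2) (sub_mem (mul_mem (hpk _) (hpk _))
          (mul_mem (hpk _) (hpk _)))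
  have hk0V : ∀ y : k0, algebraMap k0 C y ∈ V' := by
    intro y
    obtain ⟨w, hw, hwV, -⟩ := hk0mem y y.2
    change (y : C) ∈ V'
    rw [← hw]
    exact (hV' w).2 hwV
  have hk0D : ∀ y : k0, D' (algebraMap k0 C y) ∈ V'.nonunits := by
    intro y
    obtain ⟨w, hw, hwV, u, hu, hDw, -⟩ := hk0mem y y.2
    change D' (y : C) ∈ V'.nonunits
    rw [← hw, hD', hDw]
    exact hVn _ (h31_nonunits_mul V hu hAx)
  -- the field `κ`
  set κ : IntermediateField k0 C := algebraicClosure k0 C with hκ
  have hκc : IsAlgClosed κ := (algebraicClosure.isAlgClosure k0 C).isAlgClosed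
  have hκ0 : CharZero κ := by
    refine ⟨fun m n hmn => ?_⟩
    have h1 := congrArg (algebraMap κ C) hmn
    rw [map_natCast, map_natCast] at h1
    exact Nat.cast_injective h1
  have hκalg : ∀ c : κ, IsAlgebraic k0 (c : C) := fun c => mem_algebraicClosure_iff.1 c.2
  have hκV : ∀ c : κ, algebraMap κ C c ∈ V' := fun c => h31_int_mem V' hk0V (hκalg c)
  have hκD : ∀ c : κ, D' (algebraMap κ C c) ∈ V'.nonunits := fun c =>
    h31_der_nonunit D' (hκalg c) V' κ.toSubfield (fun s hs => hκV ⟨s, hs⟩) c.2
      (fun a => κ.algebraMap_mem a) hk0D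
  set t' : C := algebraMap N C (algebraMap K N t) with ht'
  have ht'0 : t' ≠ 0 := by
    rw [ht', Ne, map_eq_zero, map_eq_zero]
    exact h.t_ne
  have ht'n : t' ∈ V'.nonunits := hVn _ (hOn _ h.t_mem)
  have hDt' : D' t' = t' := by rw [ht', hD', hD.ext, hD.t_eq]
  set M : IntermediateField κ C := IntermediateField.adjoin κ {t'} with hM
  have ht'M : t' ∈ M := IntermediateField.mem_adjoin_simple_self κ t'
  have hEM : ∀ e : E, algebraMap N C (algebraMap E N e) ∈ M := by
    intro e
    have h1 : algebraMap N C (algebraMap E N e) = ((algebraMap E k0 e : k0) : C) := by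
      rw [← IsScalarTower.algebraMap_apply]
      rfl
    rw [h1]
    exact M.algebraMap_mem ⟨_, κ.algebraMap_mem (algebraMap E k0 e)⟩
  -- `C` is algebraic over `κ(t)`
  have hst1 : ∀ a ∈ IntermediateField.adjoin E {t}, algebraMap N C (algebraMap K N a) ∈ M := by
    intro a ha
    induction ha using IntermediateField.adjoin_induction with
    | mem y hy => rw [Set.mem_singleton_iff.1 hy]; exact ht'M
    | algebraMap e => rw [← IsScalarTower.algebraMap_apply E K N]; exact hEM e
    | add y y' _ _ hy hy' => rw [map_add, map_add]; exact add_mem hy hy'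
    | mul y y' _ _ hy hy' => rw [map_mul, map_mul]; exact mul_mem hy hy'
    | inv y _ hy => rw [map_inv₀, map_inv₀]; exact inv_mem hy
  have hst2 : ∀ c : K, IsAlgebraic M (algebraMap N C (algebraMap K N c)) := by
    intro c
    exact h31_alg_map ((algebraMap N C).comp (algebraMap K N))
      (fun a : IntermediateField.adjoin E {t} => ⟨⟨_, hst1 a a.2⟩, rfl⟩) (h.alg c)
  set Lc : IntermediateField M C := algebraicClosure M C with hLc
  have hst3 : ∀ a ∈ IntermediateField.adjoin K {x}, algebraMap N C a ∈ Lc := by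
    intro a ha
    induction ha using IntermediateField.adjoin_induction with
    | mem y hy =>
      rw [Set.mem_singleton_iff.1 hy]
      have h1 : x' ∈ k0 := IntermediateField.mem_adjoin_simple_self E x'
      exact Lc.algebraMap_mem ⟨_, M.algebraMap_mem ⟨_, κ.algebraMap_mem ⟨x', h1⟩⟩⟩
    | algebraMap c => exact mem_algebraicClosure_iff.2 (hst2 c)
    | add y y' _ _ hy hy' => rw [map_add]; exact add_mem hy hy'
    | mul y y' _ _ hy hy' => rw [map_mul]; exact mul_mem hy hy'
    | inv y _ hy => rw [map_inv₀]; exact inv_mem hy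
  have hLalg : Algebra.IsAlgebraic M Lc := algebraicClosure.isAlgebraic M C
  have hLint : Algebra.IsIntegral M Lc := Algebra.isAlgebraic_iff_isIntegral.1 hLalg
  have htrans : ∀ y : C, IsAlgebraic Lc y → y ∈ Lc := by
    intro y hy
    have h1 : IsIntegral M y := isIntegral_trans (A := Lc) y hy.isIntegral
    exact mem_algebraicClosure_iff.2 h1.isAlgebraic
  have hst4 : ∀ y : N, algebraMap N C y ∈ Lc := by
    intro y
    exact htrans _ (h31_alg_map (algebraMap N C)
      (fun a : IntermediateField.adjoin K {x} => ⟨⟨_, hst3 a a.2⟩, rfl⟩) (halg y))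
  have hCalg : ∀ y : C, IsAlgebraic M y := by
    intro y
    have h1 : IsAlgebraic N y := Algebra.IsAlgebraic.isAlgebraic y
    have h2 := h31_alg_map (L := N) (L' := Lc) (RingHom.id C) (fun a => ⟨⟨_, hst4 a⟩, rfl⟩) h1
    exact mem_algebraicClosure_iff.1 (htrans _ h2)
  -- the field `F₀`
  set SA : Set C := Set.range fun i : Fin (A.natDegree + 1) => algebraMap N C (algebraMap K N (A.coeff i))
    with hSA
  set F' : IntermediateField M C := IntermediateField.adjoin M SA with hF'
  have hfin : FiniteDimensional M F' :=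
    IntermediateField.finiteDimensional_adjoin fun y _ => (hCalg y).isIntegral
  have hFF : IsFunctionField κ (F'.restrictScalars κ) := by
    have h1 : IsFunctionField κ F' := SC.isFunctionField_of_finite (M := M)
      (h31_ff (h31_tr V' hκV ht'0 ht'n))
    exact h1
  have hMF : ∀ y ∈ M, y ∈ F'.toSubfield := fun y hy => F'.algebraMap_mem ⟨y, hy⟩
  have hκF : ∀ y ∈ κ, y ∈ F'.toSubfield := fun y hy => hMF y (M.algebraMap_mem ⟨y, hy⟩)
  have hk0F : ∀ y ∈ k0, y ∈ F'.toSubfield := fun y hy => hκF y (κ.algebraMap_mem ⟨y, hy⟩)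
  have hAF : algebraMap N C (aeval x A) ∈ F'.toSubfield := by
    rw [Polynomial.aeval_eq_sum_range, map_sum]
    refine sum_mem fun i hi => ?_
    rw [Algebra.smul_def, map_mul, map_pow]
    refine mul_mem ?_ (pow_mem (hk0F _ (IntermediateField.mem_adjoin_simple_self E x')) _)
    exact IntermediateField.subset_adjoin M SA ⟨⟨i, Finset.mem_range.1 hi⟩, rfl⟩
  have hDk0F : ∀ a : k0, D' (algebraMap k0 C a) ∈ F'.toSubfield := by
    intro a
    obtain ⟨w, hw, hwV, u, hu, hDw, huk⟩ := hk0mem a a.2
    change D' (a : C) ∈ F'.toSubfield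
    rw [← hw, hD', hDw, map_mul]
    exact mul_mem (hk0F _ huk) hAF
  have hDκF : ∀ c : κ, D' (algebraMap κ C c) ∈ F'.toSubfield := fun c =>
    h31_der_mem D' (hκalg c) F'.toSubfield (hκF c c.2) (fun a => hk0F a a.2) hDk0F
  have hMD : ∀ y ∈ M, y ∈ F'.toSubfield ∧ D' y ∈ F'.toSubfield := by
    refine h31_adj2 D' {t'} F'.toSubfield (fun c => hκF c c.2) ?_ hDκF ?_
    · intro s hs
      rw [Set.mem_singleton_iff.1 hs]
      exact hMF _ ht'M
    · intro s hs
      rw [Set.mem_singleton_iff.1 hs, hDt']
      exact hMF _ ht'M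
  have hδ1 : ∀ a ∈ IntermediateField.adjoin E {t}, δ a ∈ IntermediateField.adjoin E {t} := by
    refine h31_adjoin δ {t} (fun c => ?_) ?_
    · rw [hD.const]
      exact zero_mem _
    · intro s hs
      rw [Set.mem_singleton_iff.1 hs, hD.t_eq]
      exact IntermediateField.mem_adjoin_simple_self E t
  have hDA : ∀ s ∈ SA, D' s ∈ F'.toSubfield := by
    rintro s ⟨i, rfl⟩
    have hsF : algebraMap N C (algebraMap K N (A.coeff i)) ∈ F'.toSubfield :=
      IntermediateField.subset_adjoin M SA ⟨i, rfl⟩
    -- regard `E(t)` as a subfield of `C`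
    let gK : K →+* C := (algebraMap N C).comp (algebraMap K N)
    let iL : Algebra (IntermediateField.adjoin E {t}) C :=
      (gK.comp (algebraMap (IntermediateField.adjoin E {t}) K)).toAlgebra
    have hL : ∀ a : IntermediateField.adjoin E {t},
        algebraMap (IntermediateField.adjoin E {t}) C a = gK a := fun a => rfl
    refine h31_der_mem (L := IntermediateField.adjoin E {t}) D' ?_ F'.toSubfield hsF
      (fun a => hMF _ (hst1 a a.2)) (fun a => ?_)
    · exact h31_alg_map (L := IntermediateField.adjoin E {t}) (L' := IntermediateField.adjoin E {t}) gK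
        (fun a => ⟨a, rfl⟩) (h.alg (A.coeff i))
    · rw [hL]
      change D' (algebraMap N C (algebraMap K N (a : K))) ∈ F'.toSubfield
      rw [hD', hD.ext]
      exact hMF _ (hst1 _ (hδ1 a a.2))
  have hDF : ∀ y ∈ F'.restrictScalars κ, D' y ∈ F'.restrictScalars κ := by
    intro y hy
    exact h31_adjoin (κ := M) D' SA (fun c : M => (hMD c c.2).2) hDA y hy
  have key := der_nonunits_gen V' hκV ht'0 ht'n hCalg D' hκD hDt' (F'.restrictScalars κ) hFF
    (hMF _ ht'M) hDF (z := algebraMap N C z) ((hV' z).2 hz)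
  rw [hD', ValuationSubring.mem_nonunits_iff_or, map_eq_zero, ← map_inv₀, hV',
    ← ValuationSubring.mem_nonunits_iff_or] at key
  exact key

theorem Der.nonunits (h : Base E O t) (hD : Der E O t x δ D A) (htr : Transcendental K x)
    (halg : ∀ z : N, IsAlgebraic (IntermediateField.adjoin K {x}) z)
    {V : ValuationSubring N} (hV : Gauss E O x V) {z : N} (hz : z ∈ V) : D z ∈ V.nonunits := by
  have hczK : CharZero K := charZero_of_injective_algebraMap (algebraMap E K).injective
  have hczN : CharZero N := charZero_of_injective_algebraMap (algebraMap K N).injective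
  have hczC : CharZero (AlgebraicClosure N) :=
    charZero_of_injective_algebraMap (algebraMap N (AlgebraicClosure N)).injective
  obtain ⟨V', hV'⟩ := Pool.Agent.SC.exists_comap_eq (algebraMap N (AlgebraicClosure N)) V
  have e1 : Algebra.FormallyEtale N (AlgebraicClosure N) := Algebra.FormallyEtale.of_isSeparable _ _
  obtain ⟨D', hD'⟩ := SC.exists_deriv_ext (B := AlgebraicClosure N) D
  exact h31_core (C := AlgebraicClosure N) h hD halg hV hz V' hV' D' hD'

end Pool.Agent.LT
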