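import Pool.Agent.Helper13.LT.A0
import Pool.Agent.Helper13.LT.A3
import Pool.Agent.SC.Deriv

/-!
# Block A6: the derivation at the places of `N`

Proof.  The constants: `D c = δ c ∈ K ⊆ P.ring`.  Let `a ∈ K` be the residue of `x` at `P`
(`VC`/`FF.exists_residue`).  If `a ∉ B` then `ord_P (x - a) = 1` and `D (x - a) = A(x) - δ a ∈ P.ring`,
use `SC.deriv_mem`.  If `a = b ∈ B` then `D (x - b) = A(x) - A(b) = (x - b) A₁(x)`, so A0 with
`T = x - b` gives `D 𝔪_P ⊆ 𝔪_P`; as every element of `P.ring` is `c + z'` with `c ∈ K`,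
`z' ∈ 𝔪_P`, and `D c = δ c`, both statements follow (in the second `b ∈ B` is the residue of `x`).
`Der.reg` is immediate.
-/

universe u

namespace Pool.Agent.LT

open VC Polynomial

variable {E K N : Type u} [Field E] [IsAlgClosed E] [CharZero E] [Field K] [IsAlgClosed K]
  [Algebra E K] [Field N] [Algebra K N] [Algebra E N] [IsScalarTower E K N]
  {O : ValuationSubring K} {t : K} {x : N} {B : Finset K}
  {δ : Derivation ℤ K K} {D : Derivation ℤ N N} {A : K[X]}

omit [IsAlgClosed E] [CharZero E] [IsAlgClosed K] [IsScalarTower E K N] in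
private lemma h21_aeval_mem (P : Place K N) (hx : x ∈ P.ring) (p : K[X]) : aeval x p ∈ P.ring := by
  induction p using Polynomial.induction_on with
  | C a => rw [aeval_C]; exact P.algebraMap_mem a
  | add p q hp hq => rw [map_add]; exact P.ring.add_mem _ _ hp hq
  | monomial n a ih =>
    rw [pow_succ, ← mul_assoc, map_mul, aeval_X]
    exact P.ring.mul_mem _ _ ih hx

omit [IsAlgClosed E] [CharZero E] [IsAlgClosed K] [IsScalarTower E K N] in
private lemma h21_sub_ne (hs : Setup E O t B x) (a : K) : x - algebraMap K N a ≠ 0 := by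
  intro h
  rw [sub_eq_zero] at h
  exact hs.tr (h ▸ isAlgebraic_algebraMap a)

private lemma h21_at_B (hs : Setup E O t B x) (hD : Der E O t x δ D A)
    (hA : ∀ b ∈ B, A.eval b = δ b) (P : Place K N) (hx : x ∈ P.ring) {b : K} (hb : b ∈ B)
    (hxb : x - algebraMap K N b ∈ P.ring.nonunits) : ∀ f ∈ P.ring.nonunits, D f ∈ P.ring.nonunits := by
  have : CharZero K := charZero_of_injective_algebraMap (algebraMap E K).injective
  have h0 := h21_sub_ne hs b
  refine deriv_nonunits hs.ff P D (fun a => by rw [hD.ext]; exact P.algebraMap_mem _) h0 hxb ?_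
  obtain ⟨A₁, hA₁⟩ : X - C b ∣ A - C (A.eval b) := X_sub_C_dvd_sub_C_eval
  have h1 : D (x - algebraMap K N b) = (x - algebraMap K N b) * aeval x A₁ := by
    have h2 := congrArg (aeval x) hA₁
    rw [map_sub, map_mul, map_sub, aeval_C, aeval_X, aeval_C, hA b hb] at h2
    rw [map_sub, hD.x_eq, hD.ext, h2]
  rw [h1, mul_div_cancel_left₀ _ h0]
  exact h21_aeval_mem P hx A₁

/-- `D` preserves the local rings of the finite places, and it is compatible with the residues at
the places above the elements of `B`. -/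
theorem Der.place (hs : Setup E O t B x) (hD : Der E O t x δ D A)
    (hA : ∀ b ∈ B, A.eval b = δ b) (P : Place K N) (hx : x ∈ P.ring) :
    (∀ z ∈ P.ring, D z ∈ P.ring) ∧
      ∀ b ∈ B, x - algebraMap K N b ∈ P.ring.nonunits → ∀ (z : N) (c : K),
        z - algebraMap K N c ∈ P.ring.nonunits → D z - algebraMap K N (δ c) ∈ P.ring.nonunits := by
  have : CharZero K := charZero_of_injective_algebraMap (algebraMap E K).injective
  constructor
  · intro z hz
    obtain ⟨a, ha⟩ := SCVP.exists_residue hs.ff P hx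
    by_cases haB : a ∈ B
    · obtain ⟨c, hc⟩ := SCVP.exists_residue hs.ff P hz
      have h1 := h21_at_B hs hD hA P hx haB ha _ hc
      rw [map_sub, hD.ext] at h1
      have h2 := P.ring.add_mem _ _ (ValuationSubring.nonunits_subset h1) (P.algebraMap_mem (δ c))
      rwa [sub_add_cancel] at h2
    · refine SC.deriv_mem hs.ff P D (fun a => by rw [hD.ext]; exact P.algebraMap_mem _)
        (h21_sub_ne hs a) (hs.unr P a haB ha) ?_ z hz
      rw [map_sub, hD.x_eq, hD.ext]
      exact P.ring.sub_mem (h21_aeval_mem P hx A) (P.algebraMap_mem _)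
  · intro b hb hxb z c hc
    have h1 := h21_at_B hs hD hA P hx hb hxb _ hc
    rwa [map_sub, hD.ext] at h1

theorem Der.reg (hs : Setup E O t B x) (hD : Der E O t x δ D A)
    (hA : ∀ b ∈ B, A.eval b = δ b) {z : N} (hz : Reg (K := K) x z) : Reg (K := K) x (D z) :=
  fun P hP => (Der.place hs hD hA P hP).1 z (hz P hP)

end Pool.Agent.LT
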