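import Pool.Agent.Helper13.LT.A1
import Pool.Agent.Helper26.VC.Main3
import Pool.Agent.Helper91.Section.Val

/-!
# Block A7: the residues of the elements of the decomposition field

`exists_rational_residue`.  `N / K(x)` is finite Galois, `G` its group, `D_V` the stabilizer of `V`.
Elementary proof: there is `u₀ ∈ N`, `u₀ ≡ 1` mod `𝔪_V`, `u₀ ∈ 𝔪_{gV}` for all `g V ≠ V`
(weak approximation for finitely many conjugate valuation rings, or lifting an idempotent of the
integral closure modulo its Jacobson radical); `u` = the product of the conjugates of `u₀` under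
`D_V`.  Then `w = ∑_{g ∈ G/D_V} g (z u) ∈ K(x)` and `w ≡ z` mod `𝔪_V`, because for `g ∉ D_V`
`g (z u) ∈ 𝔪_V` (`z ∈ g⁻¹V` by `hint`, `u ∈ 𝔪_{g⁻¹V}`).
Alternatively: the residue `z̄` is fixed by all automorphisms of the residue field of `V` over that
of `V ∩ K(x)`, since these are induced by elements of `D_V` (Mathlib:
`Ideal.Quotient.stabilizerHom_surjective`, or `Helper91.Sect.lift_abstract`, `exists_lift`), and the residue extension
is normal and separable.

`exists_monic`.  The characteristic polynomial of `z` over `K(x)` has coefficients which are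
symmetric functions of the `g z`; these are regular at the finite places and in all Gauss
extensions (`Gauss.comap`).  An element `p/q` of `K(x)` (`p`, `q` coprime) regular at all places
with `x ∈ P` is in `K[x]` (there is a place of `N` over each zero of `q`: `SC.exists_place_over`), and `K[x] ∩ V = O[x]` by
`Gauss.val_poly`.

`exists_poly_residue`.  By the first part the residue of `z` is in the residue field of
`V ∩ K(x)`, which is `E(x̄)` (write `w = c p/q`, `p, q ∈ O[x]` of value `1`, `c ∈ O`), and by
`exists_monic` (reduce the coefficients to `E` by `Base.exists_residue`) it is integral over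
`E[x̄]`, which is integrally closed as `x̄` is transcendental.
-/

universe u

namespace Pool.Agent.LT

open VC Polynomial

section Abs

open Pool.Agent.Helper91.Sect

variable {k C : Type u} [Field k] [Field C] [Algebra k C]

theorem A7.mem_W (W : ValuationSubring C) (b : integralClosure (W.comap (algebraMap k C)) C) :
    (b : C) ∈ W := by
  obtain ⟨p, hp, hp0⟩ := b.2
  let f : W.comap (algebraMap k C) →+* W :=
    ((algebraMap k C).comp (W.comap (algebraMap k C)).subtype).codRestrict W.toSubring
      (fun c => c.2)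
  have h1 : IsIntegral W (b : C) := by
    refine ⟨p.map f, hp.map f, ?_⟩
    rw [Polynomial.eval₂_map]
    exact hp0
  obtain ⟨w, hw⟩ := IsIntegrallyClosed.algebraMap_eq_of_integral h1
  rw [← hw]; exact w.2

/-- The action on the integral closure. -/
def A7.act (W : ValuationSubring C) (g : C ≃ₐ[k] C)
    (b : integralClosure (W.comap (algebraMap k C)) C) :
    integralClosure (W.comap (algebraMap k C)) C :=
  ⟨g b, by
    have h1 := b.2
    exact h1.map (g.toAlgHom.restrictScalars (W.comap (algebraMap k C)))⟩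

/-- The centre of the conjugate valuation ring. -/
def A7.cen (W : ValuationSubring C) (g : C ≃ₐ[k] C) :
    Ideal (integralClosure (W.comap (algebraMap k C)) C) where
  carrier := {b | W.valuation (g (b : C)) < 1}
  add_mem' := by
    intro a b ha hb
    change W.valuation (g ((a : C) + (b : C))) < 1
    rw [map_add]
    exact Valuation.map_add_lt _ ha hb
  zero_mem' := by
    change W.valuation (g (0 : C)) < 1
    rw [map_zero, map_zero]
    exact zero_lt_one
  smul_mem' := by
    intro a b hb
    change W.valuation (g ((a : C) * (b : C))) < 1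
    rw [map_mul, map_mul]
    exact A1.mul_lt ((W.valuation_le_one_iff _).mpr (A7.mem_W W (A7.act W g a))) hb

theorem A7.mem_cen (W : ValuationSubring C) (g : C ≃ₐ[k] C)
    (b : integralClosure (W.comap (algebraMap k C)) C) :
    b ∈ A7.cen W g ↔ W.valuation (g (b : C)) < 1 := Iff.rfl

theorem A7.cen_isPrime (W : ValuationSubring C) (g : C ≃ₐ[k] C) : (A7.cen W g).IsPrime := by
  constructor
  · rw [Ne, Ideal.eq_top_iff_one, A7.mem_cen]
    change ¬ W.valuation (g (1 : C)) < 1
    rw [map_one, map_one]
    exact lt_irrefl _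
  · intro a b hab
    rw [A7.mem_cen] at hab ⊢
    rw [A7.mem_cen]
    by_contra hcon
    push Not at hcon
    change W.valuation (g ((a : C) * (b : C))) < 1 at hab
    rw [map_mul, map_mul] at hab
    have h1 := mul_le_mul' hcon.1 hcon.2
    rw [one_mul] at h1
    exact absurd hab (not_lt.mpr h1)

theorem A7.cen_isMaximal [Algebra.IsAlgebraic k C] (W : ValuationSubring C) (g : C ≃ₐ[k] C) :
    (A7.cen W g).IsMaximal := by
  have h0 := A7.cen_isPrime W g
  apply Ideal.isMaximal_of_isIntegral_of_isMaximal_comap (R := W.comap (algebraMap k C))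
  have h1 : (A7.cen W g).comap (algebraMap (W.comap (algebraMap k C)) _) =
      IsLocalRing.maximalIdeal (W.comap (algebraMap k C)) := by
    ext c
    rw [Ideal.mem_comap, A7.mem_cen, IsLocalRing.mem_maximalIdeal, mem_nonunits_iff]
    have h2 : ((algebraMap (W.comap (algebraMap k C))
      (integralClosure (W.comap (algebraMap k C)) C) c : integralClosure _ C) : C) =
      algebraMap k C c := rfl
    rw [h2, AlgEquiv.commutes]
    constructor
    · rintro h3 ⟨u, rfl⟩
      have h4 : algebraMap k C ((u : W.comap (algebraMap k C)) : k) *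
          algebraMap k C (((u⁻¹ : (W.comap (algebraMap k C))ˣ) : W.comap (algebraMap k C)) : k) = 1 := by
        rw [← map_mul]
        have h5 := congrArg (fun v : W.comap (algebraMap k C) => (v : k)) u.mul_inv
        change ((u : W.comap (algebraMap k C)) : k) *
          (((u⁻¹ : (W.comap (algebraMap k C))ˣ) : W.comap (algebraMap k C)) : k) = 1 at h5
        rw [h5, map_one]
      have h6 : algebraMap k C (((u⁻¹ : (W.comap (algebraMap k C))ˣ) : W.comap (algebraMap k C)) : k)
          ∈ W := ((u⁻¹ : (W.comap (algebraMap k C))ˣ) : W.comap (algebraMap k C)).2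
      have h7 := congrArg W.valuation h4
      rw [map_mul, map_one, mul_comm] at h7
      have h8 := A1.mul_lt ((W.valuation_le_one_iff _).mpr h6) h3
      rw [h7] at h8
      exact lt_irrefl _ h8
    · intro h3
      by_contra h4
      push Not at h4
      apply h3
      have hc0 : (c : k) ≠ 0 := by
        intro h0
        rw [h0, map_zero, map_zero] at h4
        exact absurd h4 (not_le.mpr zero_lt_one)
      have h5 : (c : k)⁻¹ ∈ W.comap (algebraMap k C) := by
        rw [ValuationSubring.mem_comap, map_inv₀, ← ValuationSubring.valuation_le_one_iff, map_inv₀]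
        exact inv_le_one_of_one_le₀ h4
      refine ⟨⟨c, ⟨_, h5⟩, ?_, ?_⟩, rfl⟩
      · apply Subtype.ext
        exact mul_inv_cancel₀ hc0
      · apply Subtype.ext
        exact inv_mul_cancel₀ hc0
  rw [h1]
  exact IsLocalRing.maximalIdeal.isMaximal _

/-- An element is in `W` iff it is in the localization at the centre. -/
theorem A7.exists_mul [Algebra.IsAlgebraic k C] (W : ValuationSubring C) {w : C} (hw : w ∈ W) :
    ∃ s : integralClosure (W.comap (algebraMap k C)) C, s ∉ A7.cen W (AlgEquiv.refl) ∧
      IsIntegral (W.comap (algebraMap k C)) ((s : C) * w) := by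
  have h0 := A7.cen_isPrime (k := k) W AlgEquiv.refl
  rcases inLoc_or_inv (A7.cen (k := k) W AlgEquiv.refl) w with h | ⟨s, hs, hint⟩
  · exact h
  · rcases eq_or_ne w 0 with rfl | hw0
    · refine ⟨1, (Ideal.ne_top_iff_one _).mp h0.ne_top, ?_⟩
      rw [mul_zero]
      exact isIntegral_zero
    · refine ⟨⟨_, hint⟩, ?_, ?_⟩
      · intro h1
        apply hs
        rw [A7.mem_cen] at h1 ⊢
        change W.valuation ((s : C) * w⁻¹) < 1 at h1
        change W.valuation (s : C) < 1
        have h2 : (s : C) = w * ((s : C) * w⁻¹) := by field_simp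
        rw [h2, map_mul]
        exact A1.mul_lt ((W.valuation_le_one_iff _).mpr hw) h1
      · change IsIntegral (W.comap (algebraMap k C)) ((s : C) * w⁻¹ * w)
        rw [mul_assoc, inv_mul_cancel₀ hw0, mul_one]
        exact s.2

theorem A7.stab_aux [Algebra.IsAlgebraic k C] (W : ValuationSubring C) (g : C ≃ₐ[k] C)
    (h : A7.cen W g = A7.cen W AlgEquiv.refl) {w : C} (hw : w ∈ W) : g w ∈ W := by
  obtain ⟨s, hs, hint⟩ := A7.exists_mul (k := k) W hw
  rw [← h, A7.mem_cen] at hs
  push Not at hs
  have h1 := A7.mem_W W (A7.act W g ⟨_, hint⟩)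
  change g ((s : C) * w) ∈ W at h1
  rw [← ValuationSubring.valuation_le_one_iff] at h1 ⊢
  rw [map_mul, map_mul] at h1
  by_contra hcon
  push Not at hcon
  have h2 : 1 < W.valuation (g (s : C)) * W.valuation (g w) :=
    lt_of_lt_of_le hcon (le_mul_of_one_le_left' hs)
  exact absurd h1 (not_le.mpr h2)

theorem A7.stab [Algebra.IsAlgebraic k C] (W : ValuationSubring C) (g : C ≃ₐ[k] C)
    (h : A7.cen W g = A7.cen W AlgEquiv.refl) (w : C) : g w ∈ W ↔ w ∈ W := by
  constructor
  · intro hw
    have h1 : A7.cen W g.symm = A7.cen W AlgEquiv.refl := by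
      ext b
      have h2 : A7.act W g.symm b ∈ A7.cen W g ↔ A7.act W g.symm b ∈ A7.cen W AlgEquiv.refl := by
        rw [h]
      rw [A7.mem_cen, A7.mem_cen] at h2
      change W.valuation (g (g.symm (b : C))) < 1 ↔ W.valuation (g.symm (b : C)) < 1 at h2
      rw [AlgEquiv.apply_symm_apply] at h2
      rw [A7.mem_cen, A7.mem_cen]
      exact h2.symm
    have h3 := A7.stab_aux W g.symm h1 hw
    rwa [AlgEquiv.symm_apply_apply] at h3
  · exact A7.stab_aux W g h

/-- Approximation: an element congruent to `1` for `W` and to `0` for the other conjugates. -/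
theorem A7.exists_idem [FiniteDimensional k C] (W : ValuationSubring C) :
    ∃ e : C, W.valuation (e - 1) < 1 ∧ ∀ g : C ≃ₐ[k] C,
      (¬ ∀ w, g w ∈ W ↔ w ∈ W) → W.valuation (g e) < 1 := by
  classical
  let ι : Type u := Set.range (A7.cen (k := k) W)
  have hfin : Finite ι := Set.finite_range _
  let I : ι → Ideal (integralClosure (W.comap (algebraMap k C)) C) := fun i => i.1
  have hmax : ∀ i : ι, (I i).IsMaximal := by
    rintro ⟨_, g, rfl⟩
    exact A7.cen_isMaximal W g
  have hI : Pairwise (Function.onFun IsCoprime I) := by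
    intro i j hij
    have := hmax i
    have := hmax j
    exact Ideal.isCoprime_of_isMaximal (fun h => hij (Subtype.ext h))
  obtain ⟨e, he⟩ := Ideal.exists_forall_sub_mem_ideal hI
    (fun i => if i.1 = A7.cen W AlgEquiv.refl then 1 else 0)
  refine ⟨e, ?_, ?_⟩
  · have h1 := he ⟨A7.cen W AlgEquiv.refl, AlgEquiv.refl, rfl⟩
    rw [if_pos rfl] at h1
    exact (A7.mem_cen W AlgEquiv.refl _).mp h1
  · intro g hg
    have h1 := he ⟨A7.cen W g, g, rfl⟩
    rw [if_neg (fun h => hg (A7.stab W g h)), sub_zero] at h1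
    exact (A7.mem_cen W g _).mp h1

/-- An element `z` integral at all conjugates of `W` and fixed by the stabilizer of `W` is
congruent to an element of the ground field. -/
theorem A7.exists_base [FiniteDimensional k C] [IsGalois k C] (W : ValuationSubring C)
    (hn : ∀ n : ℕ, n ≠ 0 → W.valuation (n : C) = 1) {z : C}
    (hz : ∀ g : C ≃ₐ[k] C, g z ∈ W)
    (hfix : ∀ g : C ≃ₐ[k] C, (∀ w, g w ∈ W ↔ w ∈ W) → g z = z) :
    ∃ w : k, W.valuation (z - algebraMap k C w) < 1 := by
  classical
  obtain ⟨e, he1, he2⟩ := A7.exists_idem (k := k) W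
  let D : Finset (C ≃ₐ[k] C) := Finset.univ.filter fun g => ∀ w, g w ∈ W ↔ w ∈ W
  have hD : D.card ≠ 0 := by
    apply Finset.card_ne_zero_of_mem (a := AlgEquiv.refl)
    rw [Finset.mem_filter]
    exact ⟨Finset.mem_univ _, fun w => Iff.rfl⟩
  have hD0 : ((D.card : ℕ) : C) ≠ 0 := by
    intro h0
    have h1 := hn _ hD
    rw [h0, map_zero] at h1
    exact zero_ne_one h1
  obtain ⟨w, hw⟩ : ∃ w : k, algebraMap k C w = ((D.card : ℕ) : C)⁻¹ * ∑ g : C ≃ₐ[k] C, g (z * e) := by
    have h1 : ∀ g : C ≃ₐ[k] C, g (((D.card : ℕ) : C)⁻¹ * ∑ g : C ≃ₐ[k] C, g (z * e)) =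
        ((D.card : ℕ) : C)⁻¹ * ∑ g : C ≃ₐ[k] C, g (z * e) := by
      intro g
      rw [map_mul, map_inv₀, map_natCast, map_sum]
      congr 1
      exact Fintype.sum_equiv (Equiv.mulLeft g) _ _ (fun h => rfl)
    exact (IsGalois.mem_bot_iff_fixed _).mpr h1
  refine ⟨w, ?_⟩
  have h1 : (((D.card : ℕ) : C)) * (z - algebraMap k C w) =
      ∑ g : C ≃ₐ[k] C, ((if g ∈ D then z else 0) - g (z * e)) := by
    rw [hw, Finset.sum_sub_distrib, mul_sub, ← mul_assoc, mul_inv_cancel₀ hD0, one_mul,
      Finset.sum_ite_mem, Finset.univ_inter, Finset.sum_const, nsmul_eq_mul]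
  have h2 : W.valuation (∑ g : C ≃ₐ[k] C, ((if g ∈ D then z else 0) - g (z * e))) < 1 := by
    apply Valuation.map_sum_lt _ one_ne_zero
    intro g _
    by_cases hg : g ∈ D
    · rw [if_pos hg]
      have h3 := (Finset.mem_filter.mp hg).2
      have h4 : z - g (z * e) = z * (-g (e - 1)) := by
        rw [map_mul, hfix g h3, map_sub, map_one]
        ring
      rw [h4, map_mul, Valuation.map_neg]
      apply A1.mul_lt ((W.valuation_le_one_iff _).mpr (hz 1))
      by_contra hcon
      push Not at hcon
      have h5 : (e - 1)⁻¹ ∉ W := by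
        intro h6
        rw [← ValuationSubring.valuation_le_one_iff, map_inv₀] at h6
        rcases eq_or_ne (e - 1) 0 with h0 | h0
        · rw [h0, map_zero, map_zero] at hcon
          exact absurd hcon (not_le.mpr zero_lt_one)
        · have h7 : W.valuation (e - 1) ≠ 0 := (Valuation.ne_zero_iff _).mpr h0
          rw [inv_le_one₀ (zero_lt_iff.mpr h7)] at h6
          exact absurd he1 (not_lt.mpr h6)
      apply h5
      rw [← h3, map_inv₀, ← ValuationSubring.valuation_le_one_iff, map_inv₀]
      exact inv_le_one_of_one_le₀ hcon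
    · rw [if_neg hg, zero_sub, Valuation.map_neg, map_mul, map_mul]
      apply A1.mul_lt ((W.valuation_le_one_iff _).mpr (hz g))
      apply he2
      intro h3
      exact hg (Finset.mem_filter.mpr ⟨Finset.mem_univ _, h3⟩)
  rw [← h1, map_mul, hn _ hD, one_mul] at h2
  exact h2

end Abs


section Root

/-- An element of the fraction field which is a root of a monic polynomial. -/
theorem A7.exists_of_root {A κ : Type*} [CommRing A] [IsDomain A] [IsIntegrallyClosed A]
    [Field κ] (φ : A →+* κ) (hφ : Function.Injective φ) (y : κ) (r s : A) (hs : s ≠ 0)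
    (h : φ s * y = φ r) (Q : A[X]) (hQ : Q.Monic) (h0 : eval₂ φ y Q = 0) : ∃ p, φ p = y := by
  let ψ : FractionRing A →+* κ := IsFractionRing.lift (A := A) (K := FractionRing A) hφ
  have hψ : ∀ a, ψ (algebraMap A (FractionRing A) a) = φ a := fun a =>
    IsFractionRing.lift_algebraMap hφ a
  let y0 : FractionRing A := algebraMap A (FractionRing A) r / algebraMap A (FractionRing A) s
  have hs' : φ s ≠ 0 := fun h1 => hs (hφ (by rw [h1, map_zero]))
  have hy0 : ψ y0 = y := by
    rw [map_div₀, hψ, hψ, ← h, mul_comm, mul_div_assoc, div_self hs', mul_one]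
  have h1 : IsIntegral A y0 := by
    refine ⟨Q, hQ, ?_⟩
    apply ψ.injective
    rw [hom_eval₂, map_zero, hy0]
    have h2 : ψ.comp (algebraMap A (FractionRing A)) = φ := RingHom.ext hψ
    rw [h2]
    exact h0
  obtain ⟨p, hp⟩ := IsIntegrallyClosed.isIntegral_iff.mp h1
  exact ⟨p, by rw [← hψ, hp, hy0]⟩

end Root

variable {E K N : Type u} [Field E] [IsAlgClosed E] [CharZero E] [Field K] [IsAlgClosed K]
  [Algebra E K] [Field N] [Algebra K N] [Algebra E N] [IsScalarTower E K N]
  {O : ValuationSubring K} {t : K} {x : N} {B : Finset K} {V : ValuationSubring N}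

omit [IsAlgClosed E] [IsAlgClosed K] in
theorem A7.val_nat (hs : Base E O t) (hV : Gauss E O x V) (n : ℕ) (hn : n ≠ 0) :
    V.valuation (n : N) = 1 := by
  have h1 : V.valuation (algebraMap K N (algebraMap E K (n : E))) = V.valuation (algebraMap K N 1) := by
    apply A1.val_congr hV
    rw [A1.val_const hs (Nat.cast_ne_zero.mpr hn), map_one]
  rw [map_natCast, map_natCast, map_one, map_one] at h1
  exact h1

/-- The residue of an element of the decomposition field is a rational function. -/
theorem exists_rational_residue (hs : Setup E O t B x) (hV : Gauss E O x V) {z : N}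
    (hfix : Fix (K := K) x V z) (hint : Int E O x z) :
    ∃ w ∈ IntermediateField.adjoin K {x}, z - w ∈ V.nonunits := by
  have hc : CharZero K := charZero_of_injective_algebraMap (algebraMap E K).injective
  have hfin : FiniteDimensional (IntermediateField.adjoin K {x}) N := hs.ff.finiteDimensional hs.tr
  have hgal := hs.gal
  have hgx : ∀ g : N ≃ₐ[IntermediateField.adjoin K {x}] N, g.restrictScalars K x = x := fun g =>
    g.commutes ⟨x, IntermediateField.mem_adjoin_simple_self K x⟩
  obtain ⟨w, hw⟩ := A7.exists_base (k := IntermediateField.adjoin K {x}) V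
    (A7.val_nat hs.base hV) (z := z)
    (fun g => by
      have h1 := hint _ (hV.comap (g.restrictScalars K) (hgx g))
      exact h1)
    (fun g hg => hfix (g.restrictScalars K) (hgx g) hg)
  refine ⟨w, w.2, ?_⟩
  rw [ValuationSubring.mem_nonunits_iff]
  exact hw

omit [IsAlgClosed E] [CharZero E] [IsScalarTower E K N] [Algebra E N] [Algebra E K] [Field E] in
/-- A rational function regular at all finite places is a polynomial. -/
theorem A7.exists_poly [CharZero K] (hff : IsFunctionField K N) (htr : Transcendental K x) {c : N}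
    (hc : c ∈ IntermediateField.adjoin K {x}) (hreg : Reg (K := K) x c) :
    ∃ p : K[X], aeval x p = c := by
  classical
  rw [IntermediateField.mem_adjoin_simple_iff] at hc
  obtain ⟨r, s, rfl⟩ := hc
  rcases eq_or_ne s 0 with rfl | hs0
  · exact ⟨0, by simp⟩
  have hg0 : GCDMonoid.gcd r s ≠ 0 := by
    intro h0
    exact hs0 ((gcd_eq_zero_iff _ _).mp h0).2
  have hcop : IsCoprime (r / GCDMonoid.gcd r s) (s / GCDMonoid.gcd r s) :=
    isCoprime_div_gcd_div_gcd hs0
  have hr' : GCDMonoid.gcd r s * (r / GCDMonoid.gcd r s) = r :=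
    EuclideanDomain.mul_div_cancel' hg0 (GCDMonoid.gcd_dvd_left r s)
  have hs' : GCDMonoid.gcd r s * (s / GCDMonoid.gcd r s) = s :=
    EuclideanDomain.mul_div_cancel' hg0 (GCDMonoid.gcd_dvd_right r s)
  have hne : ∀ p : K[X], p ≠ 0 → aeval x p ≠ 0 := fun p hp h0 =>
    hp ((transcendental_iff.mp htr) p h0)
  have hgx : aeval x (GCDMonoid.gcd r s) ≠ 0 := hne _ hg0
  generalize r / GCDMonoid.gcd r s = r' at hcop hr'
  generalize s / GCDMonoid.gcd r s = s' at hcop hs'
  generalize GCDMonoid.gcd r s = q at hg0 hr' hs' hgx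
  have hs0' : s' ≠ 0 := by
    rintro rfl
    rw [mul_zero] at hs'
    exact hs0 hs'.symm
  have hquot : aeval x r / aeval x s = aeval x r' / aeval x s' := by
    conv_lhs => rw [← hr', ← hs']
    rw [map_mul, map_mul, mul_div_mul_left _ _ hgx]
  rw [hquot] at hreg ⊢
  have hdeg : s'.degree = 0 := by
    by_contra hdeg
    obtain ⟨b, hb⟩ := IsAlgClosed.exists_root s' hdeg
    obtain ⟨s1, hs1⟩ := dvd_iff_isRoot.mpr hb
    have htr' : Transcendental K (x - algebraMap K N b) := by
      intro h1
      apply htr
      have h2 := h1.add (isAlgebraic_algebraMap (R := K) (A := N) b)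
      rwa [sub_add_cancel] at h2
    obtain ⟨P, hP⟩ := exists_place hff htr'
    have hxP : x ∈ P.ring := by
      have h1 := add_mem (ValuationSubring.nonunits_subset hP) (P.algebraMap_mem b)
      rwa [sub_add_cancel] at h1
    have hmem : ∀ p : K[X], aeval x p ∈ P.ring := by
      intro p
      rw [aeval_eq_sum_range]
      apply sum_mem
      intro i _
      rw [Algebra.smul_def]
      exact mul_mem (P.algebraMap_mem _) (pow_mem hxP i)
    have h1 := hreg P hxP
    have hsP : P.ring.valuation (aeval x s') < 1 := by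
      rw [hs1, map_mul, map_mul, map_sub, aeval_X, aeval_C, mul_comm]
      exact A1.mul_lt ((P.ring.valuation_le_one_iff _).mpr (hmem s1))
        ((ValuationSubring.mem_nonunits_iff _).mp hP)
    have hrP : P.ring.valuation (aeval x r') < 1 := by
      have h2 : aeval x r' = (aeval x r' / aeval x s') * aeval x s' := by
        rw [div_mul_cancel₀ _ (hne _ hs0')]
      rw [h2, map_mul]
      exact A1.mul_lt ((P.ring.valuation_le_one_iff _).mpr h1) hsP
    obtain ⟨u, v, huv⟩ := hcop
    have h3 := congrArg (fun p => P.ring.valuation (aeval x p)) huv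
    simp only [map_add, map_mul, map_one] at h3
    have h4 : P.ring.valuation (aeval x u * aeval x r' + aeval x v * aeval x s') < 1 := by
      apply Valuation.map_add_lt
      · rw [map_mul]
        exact A1.mul_lt ((P.ring.valuation_le_one_iff _).mpr (hmem u)) hrP
      · rw [map_mul]
        exact A1.mul_lt ((P.ring.valuation_le_one_iff _).mpr (hmem v)) hsP
    rw [h3] at h4
    exact lt_irrefl _ h4
  rw [eq_C_of_degree_eq_zero hdeg] at hs0' ⊢
  generalize s'.coeff 0 = d at hs0' ⊢
  have hd : d ≠ 0 := fun h0 => hs0' (by rw [h0, C_0])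
  refine ⟨C d⁻¹ * r', ?_⟩
  rw [map_mul, aeval_C, aeval_C, map_inv₀, div_eq_mul_inv, mul_comm]

/-- The conjugate of a place. -/
theorem A7.reg_conj {z : N} (hreg : Reg (K := K) x z) (g : N ≃ₐ[K] N) (hg : g x = x) :
    Reg (K := K) x (g z) := by
  intro P hP
  have htop : P.ring.comap ((g : N ≃+* N) : N →+* N) ≠ ⊤ := by
    intro h0
    apply P.ne_top
    rw [eq_top_iff]
    intro y _
    have h1 : g.symm y ∈ P.ring.comap ((g : N ≃+* N) : N →+* N) := by
      rw [h0]; trivial
    rw [ValuationSubring.mem_comap] at h1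
    change g (g.symm y) ∈ P.ring at h1
    rwa [AlgEquiv.apply_symm_apply] at h1
  let Q : Place K N := ⟨P.ring.comap ((g : N ≃+* N) : N →+* N), fun a => by
    rw [ValuationSubring.mem_comap]
    change g (algebraMap K N a) ∈ P.ring
    rw [AlgEquiv.commutes]
    exact P.algebraMap_mem a, htop⟩
  have h1 : z ∈ Q.ring := by
    apply hreg
    change g x ∈ P.ring
    rw [hg]
    exact hP
  exact h1

/-- The coefficients of a product of linear factors. -/
theorem A7.coeff_mem {ι : Type*} [Fintype ι] (S : ValuationSubring N) (a : ι → N)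
    (ha : ∀ i, a i ∈ S) (n : ℕ) : (∏ i, (X - C (a i))).coeff n ∈ S := by
  have h1 : (∏ i, (X - C (a i))) ∈ lifts S.subtype := by
    apply prod_mem
    intro i _
    refine (lifts_iff_coeff_lifts _).mpr fun n => ?_
    have h2 : (X - C (a i)).coeff n ∈ S := by
      rw [coeff_sub, coeff_X, coeff_C]
      apply sub_mem
      · split_ifs
        · exact S.one_mem
        · exact S.zero_mem
      · split_ifs
        · exact ha i
        · exact S.zero_mem
    exact ⟨⟨_, h2⟩, rfl⟩
  obtain ⟨b, hb⟩ := (lifts_iff_coeff_lifts _).mp h1 n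
  rw [← hb]
  exact b.2

/-- Integrality over `O[x]`. -/
theorem exists_monic (hs : Setup E O t B x) (hV : Gauss E O x V) {z : N}
    (hreg : Reg (K := K) x z) (hint : Int E O x z) :
    ∃ P : K[X][X], P.Monic ∧ (∀ i j, (P.coeff i).coeff j ∈ O) ∧
      eval₂ (aeval x : K[X] →ₐ[K] N).toRingHom z P = 0 := by
  classical
  have hc : CharZero K := charZero_of_injective_algebraMap (algebraMap E K).injective
  have hfin : FiniteDimensional (IntermediateField.adjoin K {x}) N := hs.ff.finiteDimensional hs.tr
  have hgal := hs.gal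
  have hgx : ∀ g : N ≃ₐ[IntermediateField.adjoin K {x}] N, g.restrictScalars K x = x := fun g =>
    g.commutes ⟨x, IntermediateField.mem_adjoin_simple_self K x⟩
  let Q : N[X] := ∏ g : N ≃ₐ[IntermediateField.adjoin K {x}] N, (X - C (g z))
  have hQm : Q.Monic := monic_prod_of_monic _ _ fun g _ => monic_X_sub_C _
  have hQz : eval z Q = 0 := by
    rw [eval_prod]
    apply Finset.prod_eq_zero (Finset.mem_univ (1 : N ≃ₐ[IntermediateField.adjoin K {x}] N))
    simp
  have hQg : ∀ g : N ≃ₐ[IntermediateField.adjoin K {x}] N,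
      Q.map ((g : N ≃+* N) : N →+* N) = Q := by
    intro g
    rw [Polynomial.map_prod]
    refine Fintype.prod_equiv (Equiv.mulLeft g) _ _ fun h => ?_
    rw [Polynomial.map_sub, map_X, map_C]
    rfl
  have hQc : ∀ n, ∃ p : K[X], aeval x p = Q.coeff n := by
    intro n
    apply A7.exists_poly hs.ff hs.tr
    · have h1 : ∀ g : N ≃ₐ[IntermediateField.adjoin K {x}] N, g (Q.coeff n) = Q.coeff n := by
        intro g
        conv_rhs => rw [← hQg g]
        rw [coeff_map]
        rfl
      obtain ⟨w, hw⟩ := (IsGalois.mem_bot_iff_fixed _).mpr h1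
      have h2 : ((w : IntermediateField.adjoin K {x}) : N) = Q.coeff n := hw
      rw [← h2]
      exact w.2
    · intro P hP
      have h2 : ∀ g : N ≃ₐ[IntermediateField.adjoin K {x}] N, g z ∈ P.ring := fun g =>
        A7.reg_conj hreg (g.restrictScalars K) (hgx g) P hP
      exact A7.coeff_mem P.ring
        (fun g : N ≃ₐ[IntermediateField.adjoin K {x}] N => g z) h2 n
  have hQV : ∀ n, Q.coeff n ∈ V := by
    intro n
    have h2 : ∀ g : N ≃ₐ[IntermediateField.adjoin K {x}] N, g z ∈ V := fun g =>
      hint _ (hV.comap (g.restrictScalars K) (hgx g))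
    exact A7.coeff_mem V (fun g : N ≃ₐ[IntermediateField.adjoin K {x}] N => g z) h2 n
  have hlift : Q ∈ lifts (aeval x : K[X] →ₐ[K] N).toRingHom := by
    rw [lifts_iff_coeff_lifts]
    exact hQc
  obtain ⟨P, hP, -, hPm⟩ := lifts_and_natDegree_eq_and_monic hlift hQm
  refine ⟨P, hPm, ?_, ?_⟩
  · intro i j
    have h1 : aeval x (P.coeff i) = Q.coeff i := by
      rw [← hP, coeff_map]
      rfl
    have h2 : V.valuation (aeval x (P.coeff i)) ≤ V.valuation (algebraMap K N 1) := by
      rw [map_one, map_one, h1]
      exact (V.valuation_le_one_iff _).mpr (hQV i)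
    have h3 := (hV.val_poly hs.base (P.coeff i) 1).mp h2 j
    rw [map_one] at h3
    exact (O.valuation_le_one_iff _).mp h3
  · rw [eval₂_eq_eval_map, hP]
    exact hQz


omit [IsAlgClosed K] in
/-- The residue map of `O`, with values in `E`. -/
theorem A7.exists_rho (h : Base E O t) :
    ∃ ρ : O →+* E, ∀ c : O, (c : K) - algebraMap E K (ρ c) ∈ O.nonunits := by
  let cE : E →+* O := (algebraMap E K).codRestrict O.toSubring h.const
  let ι : E →+* IsLocalRing.ResidueField O := (IsLocalRing.residue O).comp cE
  have hmem : ∀ c : O, IsLocalRing.residue O c = 0 ↔ (c : K) ∈ O.nonunits := fun c => by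
    rw [IsLocalRing.residue_eq_zero_iff, ← ValuationSubring.coe_mem_nonunits_iff]
  have hsurj : Function.Surjective ι := by
    intro y
    obtain ⟨c, rfl⟩ := IsLocalRing.residue_surjective y
    obtain ⟨e, he⟩ := h.exists_residue c.2
    refine ⟨e, ?_⟩
    have h1 : IsLocalRing.residue O (c - cE e) = 0 := (hmem _).mpr he
    rw [map_sub, sub_eq_zero] at h1
    exact h1.symm
  let ε := RingEquiv.ofBijective ι ⟨ι.injective, hsurj⟩
  refine ⟨(ε.symm : IsLocalRing.ResidueField O →+* E).comp (IsLocalRing.residue O), fun c => ?_⟩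
  have h1 : ι (ε.symm (IsLocalRing.residue O c)) = IsLocalRing.residue O c :=
    ε.apply_symm_apply _
  have h2 : IsLocalRing.residue O (c - cE (ε.symm (IsLocalRing.residue O c))) = 0 := by
    rw [map_sub, sub_eq_zero]
    exact h1.symm
  exact (hmem _).mp h2

/-- The residue is a polynomial. -/
theorem exists_poly_residue (hs : Setup E O t B x) (hV : Gauss E O x V) {z : N}
    (hfix : Fix (K := K) x V z) (hreg : Reg (K := K) x z) (hint : Int E O x z) :
    ∃ p : E[X], z - aeval x p ∈ V.nonunits := by
  classical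
  obtain ⟨ρ, hρ⟩ := A7.exists_rho hs.base
  obtain ⟨P, hPm, hPO, hPz⟩ := exists_monic hs hV hreg hint
  obtain ⟨w, hw, hzw⟩ := exists_rational_residue hs hV hfix hint
  rw [ValuationSubring.mem_nonunits_iff] at hzw
  have hzV : z ∈ V := hint V hV
  have hwV : V.valuation w ≤ 1 := by
    have h1 : w = z - (z - w) := by ring
    rw [h1]
    exact (Valuation.map_sub _ _ _).trans (max_le ((V.valuation_le_one_iff _).mpr hzV) hzw.le)
  -- the quotient, normalised
  obtain ⟨r, s, hsO, i0, hi0, hrO, hws⟩ : ∃ r s : K[X], (∀ i, s.coeff i ∈ O) ∧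
      ∃ i0, s.coeff i0 = 1 ∧ (∀ i, r.coeff i ∈ O) ∧ aeval x r = w * aeval x s := by
    rw [IntermediateField.mem_adjoin_simple_iff] at hw
    obtain ⟨r, s, rfl⟩ := hw
    rcases eq_or_ne s 0 with rfl | hs0
    · refine ⟨0, 1, ?_, 0, coeff_one_zero, ?_, ?_⟩
      · intro i
        rw [coeff_one]
        split_ifs
        · exact O.one_mem
        · exact O.zero_mem
      · intro i
        rw [coeff_zero]
        exact O.zero_mem
      · simp
    obtain ⟨i0, hi0, hle, hval⟩ := A1.val_key hs.base hV s hs0
    have hO0 : O.valuation (s.coeff i0) ≠ 0 := (Valuation.ne_zero_iff _).mpr hi0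
    have hsx : aeval x s ≠ 0 := fun h0 => hs0 ((transcendental_iff.mp hs.tr) s h0)
    refine ⟨C (s.coeff i0)⁻¹ * r, C (s.coeff i0)⁻¹ * s, ?_, i0, ?_, ?_, ?_⟩
    · intro i
      rw [coeff_C_mul, ← ValuationSubring.valuation_le_one_iff, map_mul, map_inv₀, mul_comm,
        ← div_eq_mul_inv, div_le_one₀ (zero_lt_iff.mpr hO0)]
      exact hle i
    · rw [coeff_C_mul, inv_mul_cancel₀ hi0]
    · intro i
      have h1 : V.valuation (aeval x (C (s.coeff i0)⁻¹ * r)) ≤
          V.valuation (algebraMap K N 1) := by
        have h2 : aeval x (C (s.coeff i0)⁻¹ * r) =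
            (aeval x r / aeval x s) * (aeval x s * (algebraMap K N (s.coeff i0))⁻¹) := by
          rw [map_mul, aeval_C, map_inv₀]
          field_simp
        have h3 : V.valuation (algebraMap K N (s.coeff i0)) ≠ 0 :=
          (Valuation.ne_zero_iff _).mpr ((_root_.map_ne_zero _).mpr hi0)
        rw [h2, map_mul, map_mul V.valuation (aeval x s), hval, map_inv₀, mul_inv_cancel₀ h3,
          mul_one, map_one, map_one]
        exact hwV
      have h4 := (hV.val_poly hs.base _ 1).mp h1 i
      rw [map_one] at h4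
      exact (O.valuation_le_one_iff _).mp h4
    · rw [map_mul, map_mul, aeval_C]
      field_simp
  -- the ring homomorphisms
  let θ0 : O →+* V := ((algebraMap K N).comp O.subtype).codRestrict V.toSubring
    (fun c => (hV.mem_iff c).mpr c.2)
  let cE : E →+* O := (algebraMap E K).codRestrict O.toSubring hs.base.const
  let x' : V := ⟨x, hV.x_mem⟩
  let z' : V := ⟨z, hzV⟩
  let res : V →+* IsLocalRing.ResidueField V := IsLocalRing.residue V
  have hres : ∀ c : V, res c = 0 ↔ (c : N) ∈ V.nonunits := fun c => by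
    rw [IsLocalRing.residue_eq_zero_iff, ← ValuationSubring.coe_mem_nonunits_iff]
  let θ : O[X] →+* V := eval₂RingHom θ0 x'
  have hθ : ∀ p : O[X], (θ p : N) = aeval x (p.map O.subtype) := by
    intro p
    have h1 := hom_eval₂ p θ0 V.subtype x'
    rw [aeval_def, eval₂_map]
    exact h1
  let θE : E[X] →+* V := eval₂RingHom (θ0.comp cE) x'
  have hθE : ∀ p : E[X], (θE p : N) = aeval x p := by
    intro p
    have h1 := hom_eval₂ p (θ0.comp cE) V.subtype x'
    rw [aeval_def]
    have h2 : V.subtype.comp (θ0.comp cE) = algebraMap E N := by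
      ext e
      exact (IsScalarTower.algebraMap_apply E K N e).symm
    rw [h2] at h1
    exact h1
  let φ : E[X] →+* IsLocalRing.ResidueField V := res.comp θE
  have hφ : Function.Injective φ := by
    rw [injective_iff_map_eq_zero]
    intro p hp
    by_contra h0
    have h1 : res (θE p) = 0 := hp
    rw [hres, hθE] at h1
    exact hV.x_tr p h0 h1
  have hαφ : res.comp θ = φ.comp (mapRingHom ρ) := by
    apply Polynomial.ringHom_ext
    · intro c
      have h1 : θ (C c) = θ0 c := eval₂_C _ _
      have h2 : θE (C (ρ c)) = θ0 (cE (ρ c)) := eval₂_C _ _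
      change res (θ (C c)) = res (θE (mapRingHom ρ (C c)))
      rw [coe_mapRingHom, map_C, h1, h2, ← sub_eq_zero, ← map_sub, hres]
      change algebraMap K N (c : K) - algebraMap K N (algebraMap E K (ρ c)) ∈ V.nonunits
      rw [← map_sub, ValuationSubring.mem_nonunits_iff, A1.val_lt_one_iff hV,
        ← ValuationSubring.mem_nonunits_iff]
      exact hρ c
    · have h1 : θ X = x' := eval₂_X _ _
      have h2 : θE X = x' := eval₂_X _ _
      change res (θ X) = res (θE (mapRingHom ρ X))
      rw [coe_mapRingHom, map_X, h1, h2]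
  have hlift : ∀ p : K[X], (∀ i, p.coeff i ∈ O) → ∃ p' : O[X], p'.map O.subtype = p := by
    intro p hp
    have h1 : p ∈ lifts O.subtype := (lifts_iff_coeff_lifts _).mpr fun n => ⟨⟨_, hp n⟩, rfl⟩
    exact (mem_lifts _).mp h1
  obtain ⟨r', hr'⟩ := hlift r hrO
  obtain ⟨s', hs'⟩ := hlift s hsO
  have hs1 : s'.coeff i0 = 1 := by
    apply Subtype.ext
    have h1 : (s'.map O.subtype).coeff i0 = 1 := by rw [hs', hi0]
    rw [coeff_map] at h1
    exact h1
  have hPl : P ∈ lifts (mapRingHom O.subtype) := by
    rw [lifts_iff_coeff_lifts]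
    intro n
    obtain ⟨p, hp⟩ := hlift (P.coeff n) (hPO n)
    exact ⟨p, hp⟩
  obtain ⟨P', hP', -, hP'm⟩ := lifts_and_natDegree_eq_and_monic hPl hPm
  obtain ⟨p, hp⟩ := A7.exists_of_root φ hφ (res z') (r'.map ρ) (s'.map ρ) (by
      intro h0
      have h1 := congrArg (fun q : E[X] => q.coeff i0) h0
      simp only [coeff_map, coeff_zero, hs1, map_one] at h1
      exact one_ne_zero h1) (by
      have h1 : φ (s'.map ρ) = res (θ s') := (RingHom.congr_fun hαφ s').symm
      have h2 : φ (r'.map ρ) = res (θ r') := (RingHom.congr_fun hαφ r').symm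
      rw [h1, h2, ← map_mul, ← sub_eq_zero, ← map_sub, hres]
      change (θ s' : N) * z - (θ r' : N) ∈ V.nonunits
      rw [hθ, hθ, hs', hr', hws]
      have h3 : aeval x s * z - w * aeval x s = aeval x s * (z - w) := by ring
      rw [h3, ValuationSubring.mem_nonunits_iff, map_mul]
      refine A1.mul_lt ?_ hzw
      rw [← hs', ← hθ]
      exact (V.valuation_le_one_iff _).mpr (θ s').2) (P'.map (mapRingHom ρ)) (hP'm.map _) (by
      rw [eval₂_map, ← hαφ, ← hom_eval₂]
      have h1 : ((eval₂ θ z' P' : V) : N) = 0 := by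
        have h2 := hom_eval₂ P' θ V.subtype z'
        have h3 : V.subtype.comp θ =
            ((aeval x : K[X] →ₐ[K] N).toRingHom).comp (mapRingHom O.subtype) := by
          ext q
          · exact hθ (C q)
          · exact hθ X
        rw [h3, ← eval₂_map, hP'] at h2
        exact h2.trans hPz
      have h4 : eval₂ θ z' P' = 0 := Subtype.ext h1
      rw [h4, map_zero])
  refine ⟨p, ?_⟩
  have h1 : res (z' - θE p) = 0 := by
    rw [map_sub, sub_eq_zero]
    exact hp.symm
  rw [hres] at h1
  have h2 : ((z' - θE p : V) : N) = z - aeval x p := by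
    rw [← hθE]
    rfl
  rwa [h2] at h1

end Pool.Agent.LT
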