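import Pool.Agent.Helper13.LT.A2
import Pool.Agent.Helper13.LT.A4
import Pool.Agent.Helper13.LT.A5
import Pool.Agent.Helper13.LT.A6
import Pool.Agent.Helper13.LT.A7
import Pool.Agent.Helper17.FF.Genus

/-!
# Block A13: the places above `B` are separated by the reductions of the integral functions

Proof.  There is `z₀` regular at the finite places with different values at `P` and `P'`
(e.g. take `w ∈ P.ring`, `w ∉ P'.ring` or conversely... simplest: the integral closure of `K[x]` in
`N` separates its maximal ideals; or Riemann's theorem `FF.riemann`); scale it by a constant so that it is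
integral over `O[x]`, i.e. also `Int`.  `exists_der` (A5) for `B`; level `L ∋ z₀` (A2), `ϖ^e = t`.
For `z` with `Reg x z` let `λ(z) = z(P) - z(P') ∈ K`.  By `Der.place` (A6) `λ(D z) = δ(λ(z))`.
Define `z_{m+1} = D z_m - (m/e) z_m`.  By induction `z_m ∈ L`, `Reg x z_m` and
`V'(z_m) ≤ V'(ϖ^m)` for all Gauss `V'` (A4 `lt_of_le` and `Level.vals`).  So `z_m/ϖ^m` is `Reg` and
`Int`, hence its values at `P`, `P'` are in `O` (A7 `exists_monic`, `b ∈ O`; this is where the existence of a Gauss
extension is used).  If it is never a solution then `O(λ(z_m)) < O(ϖ^m)` for all `m`, and then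
`O(λ(z_{m+1})) = O(λ(z_m))` by `const_eq_of_lt` (A4); so `O(λ(z₀)) < O(ϖ^m)` for all `m`,
which contradicts `λ(z₀) ≠ 0` (`Base.exists_pow`).
-/

universe u

namespace Pool.Agent.LT

open VC Polynomial

/-- There is a function regular at the finite places, zero at `P` and not at `P'`. -/
private theorem exists_sep85 {K N : Type u} [Field K] [IsAlgClosed K] [Field N] [Algebra K N]
    (hF : IsFunctionField K N) {x : N} (htr : Transcendental K x) {P P' : Place K N}
    (hx : x ∈ P.ring) (hx' : x ∈ P'.ring) (hne : P ≠ P') :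
    ∃ z : N, Reg (K := K) x z ∧ z ∈ P.ring.nonunits ∧ z ∈ P'.ring ∧ z ∉ P'.ring.nonunits := by
  classical
  obtain ⟨g, hg⟩ := FF.exists_genus hF
  obtain ⟨c, hc⟩ := FF.ell_eq_of_large hF hg
  obtain ⟨Q, hQ⟩ := FF.exists_place (FF.transcendental_inv' htr)
  have hQx : x ∉ Q.ring := by
    rcases (ValuationSubring.mem_nonunits_iff_or _).1 hQ with h | h
    · exfalso
      rw [inv_eq_zero] at h
      rw [h] at htr
      exact htr isAlgebraic_zero
    · rwa [inv_inv] at h
  have hPQ : P ≠ Q := fun h => hQx (h ▸ hx)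
  have hPQ' : P' ≠ Q := fun h => hQx (h ▸ hx')
  set n : ℕ := (c + 2).toNat with hn
  set D : Place K N →₀ ℤ := Finsupp.single Q (n : ℤ) - Finsupp.single P 1 with hD
  set D' : Place K N →₀ ℤ := D - Finsupp.single P' 1 with hD'
  have hdeg : FF.deg D = n - 1 := by
    rw [hD, map_sub, FF.deg_single, FF.deg_single]
  have hdeg' : FF.deg D' = n - 1 - 1 := by
    rw [hD', map_sub, FF.deg_single, hdeg]
  have hlt : FF.ell D' < FF.ell D := by
    have h1 := hc D (by rw [hdeg]; omega)
    have h2 := hc D' (by rw [hdeg']; omega)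
    rw [hdeg] at h1
    rw [hdeg'] at h2
    omega
  obtain ⟨f, hf, hf'⟩ : ∃ f, f ∈ riemannRochSpace K N D ∧ f ∉ riemannRochSpace K N D' := by
    by_contra hcon
    push Not at hcon
    have hfd := FF.finite_rr hF D'
    have h3 : FF.ell D ≤ FF.ell D' := Submodule.finrank_mono hcon
    omega
  have hf0 : f ≠ 0 := by
    rintro rfl
    exact hf' (Submodule.zero_mem _)
  rw [FF.mem_rr hF _ hf0] at hf hf'
  push Not at hf'
  obtain ⟨R, hR⟩ := hf'
  have hR1 := hf R
  have hDR : D' R = D R - (if P' = R then 1 else 0) := by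
    rw [hD', Finsupp.sub_apply, Finsupp.single_apply]
  have hPR : P' = R := by
    by_contra hcon
    rw [if_neg hcon] at hDR
    omega
  subst hPR
  rw [if_pos rfl] at hDR
  have hDP' : D P' = 0 := by
    rw [hD, Finsupp.sub_apply, Finsupp.single_apply, Finsupp.single_apply, if_neg hPQ'.symm,
      if_neg hne]
    norm_num
  have hDP : D P = -1 := by
    rw [hD, Finsupp.sub_apply, Finsupp.single_apply, Finsupp.single_apply, if_neg hPQ.symm,
      if_pos rfl]
    norm_num
  have hfP := hf P
  have hfP' := hf P'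
  refine ⟨f, ?_, ?_, ?_, ?_⟩
  · intro R hR
    have hRQ : R ≠ Q := fun h => hQx (h ▸ hR)
    have h1 := hf R
    have h2 : D R ≤ 0 := by
      rw [hD, Finsupp.sub_apply, Finsupp.single_apply, Finsupp.single_apply, if_neg hRQ.symm]
      split_ifs <;> norm_num
    exact (FF.ord_nonneg_iff hF R hf0).1 (by omega)
  · exact (FF.ord_pos_iff hF P hf0).1 (by omega)
  · exact (FF.ord_nonneg_iff hF P' hf0).1 (by omega)
  · intro h
    have := (FF.ord_pos_iff hF P' hf0).2 h
    omega

/-- Roots of monic polynomials over a valuation ring. -/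
private theorem mem_of_monic85 {F : Type u} [Field F] (V : ValuationSubring F) (Q : F[X])
    (hQ : Q.Monic) (hc : ∀ i, Q.coeff i ∈ V) {w : F} (hw : Q.eval w = 0) : w ∈ V := by
  by_contra hcon
  rw [← V.valuation_le_one_iff, not_le] at hcon
  have h1 : w ^ Q.natDegree = - ∑ i ∈ Finset.range Q.natDegree, Q.coeff i * w ^ i := by
    rw [Polynomial.eval_eq_sum_range, Finset.sum_range_succ, hQ.coeff_natDegree, one_mul] at hw
    exact eq_neg_of_add_eq_zero_right hw
  have hw0 : V.valuation w ≠ 0 := (zero_lt_one.trans hcon).ne'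
  have h2 : V.valuation (∑ i ∈ Finset.range Q.natDegree, Q.coeff i * w ^ i) <
      V.valuation w ^ Q.natDegree := by
    apply V.valuation.map_sum_lt (pow_ne_zero _ hw0)
    intro i hi
    rw [Finset.mem_range] at hi
    rw [map_mul, map_pow]
    calc V.valuation (Q.coeff i) * V.valuation w ^ i ≤ 1 * V.valuation w ^ i :=
          mul_le_mul_left ((V.valuation_le_one_iff _).2 (hc i)) _
      _ = V.valuation w ^ i := one_mul _
      _ < V.valuation w ^ Q.natDegree := pow_lt_pow_right₀ hcon hi
  rw [← V.valuation.map_neg, ← h1, map_pow] at h2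
  exact lt_irrefl _ h2

private theorem exists_scale_const85 {K : Type u} [Field K] (O : ValuationSubring K)
    (S : Finset K) : ∃ l : K, l ≠ 0 ∧ l ∈ O ∧ ∀ c ∈ S, l * c ∈ O := by
  classical
  induction S using Finset.induction_on with
  | empty => exact ⟨1, one_ne_zero, O.one_mem, by simp⟩
  | insert c S hc ih =>
    obtain ⟨l, h1, h2, h3⟩ := ih
    by_cases h : l * c ∈ O
    · refine ⟨l, h1, h2, fun s hs => ?_⟩
      rw [Finset.mem_insert] at hs
      rcases hs with rfl | hs
      · exact h
      · exact h3 s hs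
    · have h4 : (l * c)⁻¹ ∈ O := (O.mem_or_inv_mem _).resolve_left h
      have h5 : l * c ≠ 0 := by
        intro h5
        rw [h5] at h
        exact h O.zero_mem
      refine ⟨l * (l * c)⁻¹, mul_ne_zero h1 (inv_ne_zero h5), O.mul_mem _ _ h2 h4, fun s hs => ?_⟩
      rw [Finset.mem_insert] at hs
      rcases hs with rfl | hs
      · rw [mul_right_comm, mul_inv_cancel₀ h5]
        exact O.one_mem
      · rw [mul_right_comm]
        exact O.mul_mem _ _ (h3 s hs) h4

variable {E K N : Type u} [Field E] [IsAlgClosed E] [CharZero E] [Field K] [IsAlgClosed K]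
  [Algebra E K] [Field N] [Algebra K N] [Algebra E N] [IsScalarTower E K N]
  {O : ValuationSubring K} {t : K} {x : N} {B : Finset K} {V : ValuationSubring N}

omit [IsAlgClosed K] in
private theorem val_poly_const85 (h : Base E O t) {p : K[X]} (hp : p ≠ 0) :
    ∃ c : K, c ≠ 0 ∧ ∀ V : ValuationSubring N, Gauss E O x V →
      V.valuation (aeval x p) = V.valuation (algebraMap K N c) := by
  obtain ⟨i, hi, hmax⟩ := Finset.exists_max_image p.support (fun i => O.valuation (p.coeff i))
    (Polynomial.support_nonempty.2 hp)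
  have hc : p.coeff i ≠ 0 := Polynomial.mem_support_iff.1 hi
  refine ⟨p.coeff i, hc, fun V hV => le_antisymm ?_ ?_⟩
  · rw [Gauss.val_poly h hV]
    intro j
    by_cases hj : j ∈ p.support
    · exact hmax j hj
    · rw [Polynomial.notMem_support_iff.1 hj, map_zero]
      exact zero_le
  · by_contra hcon
    rw [not_le, Gauss.val_poly_lt h hV p _ hc] at hcon
    exact lt_irrefl _ (hcon i)

omit [IsAlgClosed K] in
private theorem val_const85 (h : Base E O t) {a : N} (ha : a ∈ IntermediateField.adjoin K {x}) :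
    ∃ c : K, ∀ V : ValuationSubring N, Gauss E O x V →
      V.valuation a = V.valuation (algebraMap K N c) := by
  rw [IntermediateField.mem_adjoin_simple_iff] at ha
  obtain ⟨r, s, rfl⟩ := ha
  by_cases hr : r = 0
  · refine ⟨0, fun V _ => ?_⟩
    rw [hr, map_zero, zero_div, map_zero, map_zero, map_zero]
  by_cases hs : s = 0
  · refine ⟨0, fun V _ => ?_⟩
    rw [hs, map_zero, div_zero, map_zero, map_zero, map_zero]
  obtain ⟨c, _, hc⟩ := val_poly_const85 (N := N) (x := x) h hr
  obtain ⟨d, _, hd⟩ := val_poly_const85 (N := N) (x := x) h hs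
  refine ⟨c / d, fun V hV => ?_⟩
  rw [map_div₀, hc V hV, hd V hV, ← map_div₀, ← map_div₀]

omit [IsAlgClosed K] in
/-- Scaling by a constant. -/
private theorem exists_scale85 (h : Base E O t) {z : N}
    (halg : IsAlgebraic (IntermediateField.adjoin K {x}) z) :
    ∃ l : K, l ≠ 0 ∧ Int E O x (algebraMap K N l * z) := by
  classical
  set M := IntermediateField.adjoin K {x}
  have hint : IsIntegral M z := halg.isIntegral
  set p : N[X] := (minpoly M z).map (algebraMap M N) with hp
  have hpm : p.Monic := (minpoly.monic hint).map _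
  have hpz : p.eval z = 0 := by
    rw [hp, Polynomial.eval_map_algebraMap]
    exact minpoly.aeval M z
  have hcoe : ∀ i, ∃ c : K, ∀ V : ValuationSubring N, Gauss E O x V →
      V.valuation (p.coeff i) = V.valuation (algebraMap K N c) := by
    intro i
    rw [hp, Polynomial.coeff_map]
    exact val_const85 h ((minpoly M z).coeff i).2
  choose c hc using hcoe
  obtain ⟨l, hl0, hl1, hl2⟩ := exists_scale_const85 O ((Finset.range p.natDegree).image c)
  refine ⟨l, hl0, fun V hV => ?_⟩
  apply mem_of_monic85 V (p.scaleRoots (algebraMap K N l))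
    ((Polynomial.monic_scaleRoots_iff _).2 hpm)
  · intro i
    rw [Polynomial.coeff_scaleRoots]
    rcases lt_trichotomy i p.natDegree with hi | hi | hi
    · obtain ⟨k, hk⟩ : ∃ k, p.natDegree - i = k + 1 := ⟨p.natDegree - i - 1, by omega⟩
      rw [hk, pow_succ', ← mul_assoc]
      apply V.mul_mem
      · rw [← V.valuation_le_one_iff, map_mul, hc i V hV, ← map_mul, ← map_mul,
          V.valuation_le_one_iff, hV.mem_iff, mul_comm]
        exact hl2 _ (Finset.mem_image_of_mem _ (Finset.mem_range.2 hi))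
      · exact pow_mem ((hV.mem_iff l).2 hl1) k
    · rw [hi, Nat.sub_self, pow_zero, mul_one, hpm.coeff_natDegree]
      exact V.one_mem
    · rw [Polynomial.coeff_eq_zero_of_natDegree_lt hi, zero_mul]
      exact V.zero_mem
  · have h1 := Polynomial.scaleRoots_eval₂_eq_zero (RingHom.id N) (p := p) (r := z)
      (s := algebraMap K N l) (by rw [Polynomial.eval₂_id]; exact hpz)
    rw [Polynomial.eval₂_id] at h1
    exact h1

/-- The values of integral functions above `B` are integral. -/
private theorem value_mem85 (hs : Setup E O t B x) (hV : Gauss E O x V) {b : K} (hb : b ∈ O)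
    {P : Place K N} (hP : x - algebraMap K N b ∈ P.ring.nonunits) {w : N}
    (hreg : Reg (K := K) x w) (hint : Int E O x w) {d : K}
    (hd : w - algebraMap K N d ∈ P.ring.nonunits) : d ∈ O := by
  have hF := hs.ff
  obtain ⟨Q, hQm, hQc, hQw⟩ := exists_monic hs hV hreg hint
  have hxP : x ∈ P.ring := by
    have h1 := P.ring.add_mem _ _ (P.ring.nonunits_subset hP) (P.algebraMap_mem b)
    rwa [sub_add_cancel] at h1
  have hwP : w ∈ P.ring := hreg P hxP
  let cst : K →+* P.ring := (algebraMap K N).codRestrict P.ring.toSubring P.algebraMap_mem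
  let φ : K[X] →+* P.ring := Polynomial.eval₂RingHom cst ⟨x, hxP⟩
  have hφ : P.ring.subtype.comp φ = (aeval x : K[X] →ₐ[K] N).toRingHom := by
    apply Polynomial.ringHom_ext
    · intro a
      simp only [φ, RingHom.comp_apply, Polynomial.coe_eval₂RingHom, Polynomial.eval₂_C]
      simp only [AlgHom.toRingHom_eq_coe, RingHom.coe_coe, Polynomial.aeval_C]
      rfl
    · simp only [φ, RingHom.comp_apply, Polynomial.coe_eval₂RingHom, Polynomial.eval₂_X]
      simp only [AlgHom.toRingHom_eq_coe, RingHom.coe_coe, Polynomial.aeval_X]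
      rfl
  have hev : (FF.ev hF P).comp φ = Polynomial.evalRingHom b := by
    apply Polynomial.ringHom_ext
    · intro a
      simp only [φ, RingHom.comp_apply, Polynomial.coe_eval₂RingHom, Polynomial.eval₂_C,
        Polynomial.coe_evalRingHom, Polynomial.eval_C]
      exact FF.ev_algebraMap hF P a
    · simp only [φ, RingHom.comp_apply, Polynomial.coe_eval₂RingHom, Polynomial.eval₂_X,
        Polynomial.coe_evalRingHom, Polynomial.eval_X]
      exact (FF.ev_eq_iff hF P _ _).2 hP
  have hevw : FF.ev hF P ⟨w, hwP⟩ = d := (FF.ev_eq_iff hF P _ _).2 hd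
  have h1 : Q.eval₂ φ ⟨w, hwP⟩ = 0 := by
    apply Subtype.val_injective
    have h2 := Polynomial.hom_eval₂ Q φ P.ring.subtype ⟨w, hwP⟩
    rw [hφ] at h2
    exact h2.trans hQw
  have h3 := Polynomial.hom_eval₂ Q φ (FF.ev hF P) ⟨w, hwP⟩
  rw [h1, map_zero, hev, hevw] at h3
  apply mem_of_monic85 O (Q.map (Polynomial.evalRingHom b)) (hQm.map _)
  · intro i
    rw [Polynomial.coeff_map, Polynomial.coe_evalRingHom, Polynomial.eval_eq_sum_range]
    exact sum_mem fun j _ => O.mul_mem _ _ (hQc i j) (pow_mem hb j)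
  · rw [Polynomial.eval_map]
    exact h3.symm

theorem exists_separating (hs : Setup E O t B x) (hV : ∃ V : ValuationSubring N, Gauss E O x V)
    {b : K} (hb : b ∈ B) {P P' : Place K N}
    (hP : x - algebraMap K N b ∈ P.ring.nonunits) (hP' : x - algebraMap K N b ∈ P'.ring.nonunits)
    (hne : P ≠ P') :
    ∃ z : N, Reg (K := K) x z ∧ Int E O x z ∧ ∃ c c' : K, c ∈ O ∧ c' ∈ O ∧
      z - algebraMap K N c ∈ P.ring.nonunits ∧ z - algebraMap K N c' ∈ P'.ring.nonunits ∧
      c - c' ∉ O.nonunits := by
  classical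
  obtain ⟨V, hV⟩ := hV
  have hF := hs.ff
  have h := hs.base
  have halg : ∀ z : N, IsAlgebraic (IntermediateField.adjoin K {x}) z := by
    have := hs.gal
    intro z
    exact Algebra.IsAlgebraic.isAlgebraic z
  have hxP : ∀ {P : Place K N}, x - algebraMap K N b ∈ P.ring.nonunits → x ∈ P.ring := by
    intro P hP
    have h1 := P.ring.add_mem _ _ (P.ring.nonunits_subset hP) (P.algebraMap_mem b)
    rwa [sub_add_cancel] at h1
  obtain ⟨y, hy1, hy2, hy3, hy4⟩ := exists_sep85 hF hs.tr (hxP hP) (hxP hP') hne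
  obtain ⟨l, hl0, hl⟩ := exists_scale85 h (halg y)
  obtain ⟨δ, D, A, hD, hA⟩ := exists_der h hs.tr halg B hs.B_mem hs.B_diff
  set z₀ : N := algebraMap K N l * y with hz₀
  obtain ⟨L, e, hL, hzL, _⟩ := exists_level h hD hs.tr halg {z₀}
  obtain ⟨ϖ, hϖ⟩ := IsAlgClosed.exists_pow_nat_eq t hL.pos
  have hchar : CharZero K := charZero_of_injective_algebraMap (algebraMap E K).injective
  have hϖ0 : ϖ ≠ 0 := by
    rintro rfl
    rw [zero_pow hL.pos.ne'] at hϖ
    exact h.t_ne hϖ.symm
  -- the sequence
  let z : ℕ → N := fun m => Nat.rec z₀ (fun m w => D w - (m : N) / e * w) m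
  have hz0 : z 0 = z₀ := rfl
  have hzs : ∀ m, z (m + 1) = D (z m) - (m : N) / e * z m := fun m => rfl
  have hcst : ∀ m : ℕ, ((m : N) / e) = algebraMap K N ((m : K) / e) := by
    intro m
    rw [map_div₀, map_natCast, map_natCast]
  have hzL' : ∀ m, z m ∈ L := by
    intro m
    induction m with
    | zero => exact hzL _ (Finset.mem_singleton_self _)
    | succ m ih =>
      rw [hzs]
      exact sub_mem (hL.der _ ih) (mul_mem (div_mem (natCast_mem _ _) (natCast_mem _ _)) ih)
  have hzreg : ∀ m, Reg (K := K) x (z m) := by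
    intro m
    induction m with
    | zero =>
      intro R hR
      exact R.ring.mul_mem _ _ (R.algebraMap_mem l) (hy1 R hR)
    | succ m ih =>
      intro R hR
      rw [hzs, hcst]
      exact sub_mem (Der.reg hs hD hA ih R hR) (R.ring.mul_mem _ _ (R.algebraMap_mem _) (ih R hR))
  have hϖN : ∀ V' : ValuationSubring N, Gauss E O x V' →
      V'.valuation (algebraMap K N ϖ) < 1 := by
    intro V' hV'
    have h1 : V'.valuation (algebraMap K N t) < V'.valuation (algebraMap K N 1) := by
      rw [← not_le, hV'.val_eq_iff, map_one, not_le]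
      exact h.t_mem
    rw [map_one, map_one, ← hϖ, map_pow, map_pow] at h1
    by_contra hcon
    rw [not_lt] at hcon
    exact absurd h1 (not_lt.2 (one_le_pow₀ hcon))
  have hzval : ∀ m, ∀ V' : ValuationSubring N, Gauss E O x V' →
      V'.valuation (z m) ≤ V'.valuation (algebraMap K N (ϖ ^ m)) := by
    intro m
    induction m with
    | zero =>
      intro V' hV'
      rw [pow_zero, map_one, map_one, V'.valuation_le_one_iff]
      exact hl V' hV'
    | succ m ih =>
      intro V' hV'
      have h1 := Der.lt_of_le h hD hs.tr halg hV' hL.pos hϖ (ih V' hV')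
      rw [← hzs] at h1
      by_cases h0 : z (m + 1) = 0
      · rw [h0, map_zero]
        exact zero_le
      obtain ⟨j, hj⟩ := hL.vals V' hV' _ (hzL' (m + 1)) h0
      set g := V'.valuation (algebraMap K N ϖ) with hg
      have hg1 : g < 1 := hϖN V' hV'
      have hg0 : 0 < g := by
        rw [zero_lt_iff, hg, Valuation.ne_zero_iff]
        exact (_root_.map_ne_zero _).2 hϖ0
      have h2 : V'.valuation (algebraMap K N t) = g ^ e := by
        rw [← hϖ, map_pow, map_pow]
      have h3 : V'.valuation (z (m + 1)) = g ^ j := by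
        have h4 : V'.valuation (z (m + 1)) ^ e = (g ^ j) ^ e := by
          rw [hj, h2, ← zpow_natCast, ← zpow_natCast, ← zpow_mul, ← zpow_mul, mul_comm]
        exact (pow_left_inj₀ zero_le zero_le hL.pos.ne').1 h4
      rw [map_pow, map_pow, ← hg, h3] at h1 ⊢
      rw [← zpow_natCast, zpow_lt_zpow_iff_right_of_lt_one₀ hg0 hg1] at h1
      rw [← zpow_natCast, zpow_le_zpow_iff_right_of_lt_one₀ hg0 hg1]
      push_cast
      omega
  -- the residues
  obtain ⟨r, hr⟩ : ∃ r : K, y - algebraMap K N r ∈ P'.ring.nonunits := FF.exists_residue hF P' hy3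
  have hr0 : r ≠ 0 := by
    rintro rfl
    rw [map_zero, sub_zero] at hr
    exact hy4 hr
  let c : ℕ → K → K := fun m a => Nat.rec a (fun m w => δ w - (m : K) / e * w) m
  have hcs : ∀ m a, c (m + 1) a = δ (c m a) - (m : K) / e * c m a := fun m a => rfl
  have hcsub : ∀ m a a', c m (a - a') = c m a - c m a' := by
    intro m a a'
    induction m with
    | zero => rfl
    | succ m ih =>
      rw [hcs, hcs, hcs, ih, map_sub]
      ring
  have hres : ∀ {R : Place K N}, x - algebraMap K N b ∈ R.ring.nonunits → ∀ a : K,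
      z₀ - algebraMap K N a ∈ R.ring.nonunits → ∀ m,
      z m - algebraMap K N (c m a) ∈ R.ring.nonunits := by
    intro R hR a ha m
    induction m with
    | zero => exact ha
    | succ m ih =>
      have h1 := (Der.place hs hD hA R (hxP hR)).2 b hb hR _ _ ih
      have h2 := FF.mul_mem_nonunits (R.algebraMap_mem ((m : K) / e)) ih
      have h3 := sub_mem h1 h2
      have h4 : z (m + 1) - algebraMap K N (c (m + 1) a) = D (z m) - algebraMap K N (δ (c m a)) -
          algebraMap K N ((m : K) / e) * (z m - algebraMap K N (c m a)) := by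
        rw [hzs, hcs, hcst, map_sub, map_mul]
        ring
      rw [h4]
      exact h3
  have ha0 : z₀ - algebraMap K N 0 ∈ P.ring.nonunits := by
    rw [map_zero, sub_zero]
    exact FF.mul_mem_nonunits (P.algebraMap_mem l) hy2
  have ha1 : z₀ - algebraMap K N (l * r) ∈ P'.ring.nonunits := by
    have h1 := FF.mul_mem_nonunits (P'.algebraMap_mem l) hr
    have h2 : z₀ - algebraMap K N (l * r) = algebraMap K N l * (y - algebraMap K N r) := by
      rw [hz₀, map_mul]
      ring
    rw [h2]
    exact h1
  -- the candidates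
  have hcand : ∀ m, Reg (K := K) x (algebraMap K N (ϖ ^ m)⁻¹ * z m) ∧
      Int E O x (algebraMap K N (ϖ ^ m)⁻¹ * z m) := by
    intro m
    constructor
    · intro R hR
      exact R.ring.mul_mem _ _ (R.algebraMap_mem _) (hzreg m R hR)
    · intro V' hV'
      have h1 := hzval m V' hV'
      have h2 : 0 < V'.valuation (algebraMap K N (ϖ ^ m)) := by
        rw [zero_lt_iff, Valuation.ne_zero_iff]
        exact (_root_.map_ne_zero _).2 (pow_ne_zero _ hϖ0)
      rw [← V'.valuation_le_one_iff, map_mul, map_inv₀, map_inv₀, mul_comm, ← div_eq_mul_inv]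
      exact (div_le_one₀ h2).2 h1
  have hcandres : ∀ {R : Place K N} (m : ℕ) (a : K), z m - algebraMap K N a ∈ R.ring.nonunits →
      algebraMap K N (ϖ ^ m)⁻¹ * z m - algebraMap K N ((ϖ ^ m)⁻¹ * a) ∈ R.ring.nonunits := by
    intro R m a ha
    have h1 := FF.mul_mem_nonunits (R.algebraMap_mem (ϖ ^ m)⁻¹) ha
    have h2 : algebraMap K N (ϖ ^ m)⁻¹ * z m - algebraMap K N ((ϖ ^ m)⁻¹ * a) =
        algebraMap K N (ϖ ^ m)⁻¹ * (z m - algebraMap K N a) := by
      rw [map_mul]
      ring
    rw [h2]
    exact h1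
  by_contra hcon
  push Not at hcon
  have hbO : b ∈ O := hs.B_mem b hb
  -- all the differences are small
  have hsmall : ∀ m, O.valuation (c m (0 - l * r)) < O.valuation (ϖ ^ m) := by
    intro m
    have r1 := hcandres m _ (hres hP 0 ha0 m)
    have r2 := hcandres m _ (hres hP' (l * r) ha1 m)
    have o1 := value_mem85 hs hV hbO hP (hcand m).1 (hcand m).2 r1
    have o2 := value_mem85 hs hV hbO hP' (hcand m).1 (hcand m).2 r2
    have h1 := hcon _ (hcand m).1 (hcand m).2 _ _ o1 o2 r1 r2
    rw [← mul_sub, ← hcsub, ValuationSubring.mem_nonunits_iff, map_mul, map_inv₀] at h1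
    have h2 : 0 < O.valuation (ϖ ^ m) := by
      rw [zero_lt_iff, Valuation.ne_zero_iff]
      exact pow_ne_zero _ hϖ0
    rwa [mul_comm, ← div_eq_mul_inv, div_lt_one₀ h2] at h1
  have hconst : ∀ m, O.valuation (c m (0 - l * r)) = O.valuation (0 - l * r) := by
    intro m
    induction m with
    | zero => rfl
    | succ m ih =>
      rw [← ih, hcs]
      exact const_eq_of_lt h hD.const hD.t_eq hL.pos hϖ (hsmall m)
  have hne0 : (0 - l * r : K) ≠ 0 := by
    rw [zero_sub, neg_ne_zero]
    exact mul_ne_zero hl0 hr0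
  obtain ⟨k, hk, j, hj⟩ := h.exists_pow hne0
  set g := O.valuation ϖ with hg
  have hg0 : 0 < g := by
    rw [zero_lt_iff, hg, Valuation.ne_zero_iff]
    exact hϖ0
  have hg1 : g < 1 := by
    by_contra hcon2
    rw [not_lt] at hcon2
    have h1 : O.valuation t < 1 := h.t_mem
    rw [← hϖ, map_pow] at h1
    exact absurd h1 (not_lt.2 (one_le_pow₀ hcon2))
  have h2 : O.valuation t = g ^ e := by
    rw [← hϖ, map_pow]
  have h3 : O.valuation (0 - l * r) ^ k = g ^ ((e : ℤ) * j) := by
    rw [hj, h2, ← zpow_natCast, ← zpow_mul]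
  set m : ℕ := ((e : ℤ) * j).toNat with hm
  have h4 := hsmall m
  rw [hconst, map_pow, ← hg] at h4
  have h5 : O.valuation (0 - l * r) ^ k < (g ^ m) ^ k :=
    pow_lt_pow_left₀ h4 zero_le hk.ne'
  rw [h3, ← pow_mul, ← zpow_natCast, zpow_lt_zpow_iff_right_of_lt_one₀ hg0 hg1] at h5
  have h6 : (e : ℤ) * j ≤ m := Int.self_le_toNat _
  have h7 : (m : ℤ) ≤ ((m * k : ℕ) : ℤ) := by
    exact_mod_cast Nat.le_mul_of_pos_right m hk
  omega

end Pool.Agent.LT
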