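import Pool.Agent.Helper13.LT.U2
import Pool.Agent.Helper13.LT.A13

/-!
# Block U5: integral elements and places of `U`

`IntO O x z` means that `z` is integral over the subring `O[x]` of `U`.
`eval_mem`: reduce the monic relation `∑ P_i(x) z^i = 0` at `P`: `∑ P_i(b) c^i = 0`, `P_i(b) ∈ O`.
`eval_nonunits`: all conjugates `g z` over `K(x)` are in `𝔪_V` (U2 `stable`), so the minimal
polynomial of `z` over `K(x)` has nonleading coefficients in `𝔪_V`, and in `K[x]` as `z` is integral over
`K[x]`; so they are in `𝔪_O[x]` (`val_poly_lt`).  Evaluate at `P`: `c^d + ∑ a_i(b) c^i = 0` with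
`a_i(b) ∈ 𝔪_O` and `c ∈ O`.
`exists_separating`: a level `N` (U1) containing an element of `P` not in `P'` (or conversely);
`P ∩ N ≠ P' ∩ N` are places of `N`; A13 for `N` (Gauss extension from `exists_gauss`); then A7
`exists_monic` gives `IntO`.
-/

universe u

namespace Pool.Agent.LT

open VC Polynomial

section Aux54

variable {K U : Type*} [Field K] [Field U] [Algebra K U]

/-- The homomorphism `O[X] → U`. -/
noncomputable def phi54 (O : ValuationSubring K) (x : U) : O[X] →+* U :=
  ((aeval x : K[X] →ₐ[K] U).toRingHom).comp (mapRingHom O.subtype)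

theorem phi54_apply (O : ValuationSubring K) (x : U) (p : O[X]) :
    phi54 O x p = aeval x (p.map O.subtype) := rfl

theorem intO_iff54 {K U : Type u} [Field K] [Field U] [Algebra K U] (O : ValuationSubring K)
    (x z : U) : IntO O x z ↔ (phi54 O x).IsIntegralElem z := by
  constructor
  · rintro ⟨P, hP, hc, h0⟩
    have hl : P ∈ lifts (mapRingHom O.subtype) := by
      rw [lifts_iff_coeff_lifts]
      intro n
      have h1 : P.coeff n ∈ lifts O.subtype := by
        rw [lifts_iff_coeff_lifts]
        exact fun m => ⟨⟨_, hc n m⟩, rfl⟩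
      rw [mem_lifts] at h1
      exact h1
    obtain ⟨q, hq1, -, hq3⟩ := lifts_and_natDegree_eq_and_monic hl hP
    refine ⟨q, hq3, ?_⟩
    rw [← hq1, eval₂_map] at h0
    exact h0
  · rintro ⟨p, hp, h0⟩
    refine ⟨p.map (mapRingHom O.subtype), hp.map _, ?_, ?_⟩
    · intro i j
      rw [coeff_map, coe_mapRingHom, coeff_map]
      exact (((p.coeff i).coeff j : O)).2
    · rw [eval₂_map]
      exact h0

/-- A polynomial which is a product of linear factors with roots in the maximal ideal. -/
theorem lower_coeff54 (V : ValuationSubring U) (s : Multiset U) (hs : ∀ a ∈ s, a ∈ V.nonunits)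
    (i : ℕ) (hi : i < s.card) : ((s.map fun a => X - C a).prod).coeff i ∈ V.nonunits := by
  rw [Multiset.prod_X_sub_C_coeff s hi.le]
  have h1 : ∀ r : Multiset U, (∀ a ∈ r, a ∈ V.nonunits) → V.valuation r.prod ≤ 1 := by
    intro r
    induction r using Multiset.induction_on with
    | empty => intro _; simp
    | cons a r ih =>
      intro h
      rw [Multiset.prod_cons, map_mul]
      exact mul_le_one' ((V.mem_nonunits_iff.1 (h a (Multiset.mem_cons_self a r))).le)
        (ih fun b hb => h b (Multiset.mem_cons_of_mem hb))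
  have h2 : ∀ r : Multiset U, (∀ a ∈ r, a ∈ V.nonunits) → r ≠ 0 → V.valuation r.prod < 1 := by
    intro r hr h0
    obtain ⟨a, ha⟩ := Multiset.exists_mem_of_ne_zero h0
    obtain ⟨r', rfl⟩ := Multiset.exists_cons_of_mem ha
    rw [Multiset.prod_cons, map_mul]
    exact mul_lt_one_of_lt_of_le (V.mem_nonunits_iff.1 (hr a ha))
      (h1 r' fun b hb => hr b (Multiset.mem_cons_of_mem hb))
  have h4 : ∀ r : Multiset U, (∀ a ∈ r, V.valuation a < 1) → V.valuation r.sum < 1 := by
    intro r
    induction r using Multiset.induction_on with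
    | empty => intro _; simp
    | cons a r ih =>
      intro h
      rw [Multiset.sum_cons]
      exact V.valuation.map_add_lt (h a (Multiset.mem_cons_self a r))
        (ih fun b hb => h b (Multiset.mem_cons_of_mem hb))
  have h3 : V.valuation (s.esymm (s.card - i)) < 1 := by
    unfold Multiset.esymm
    refine h4 _ fun a ha => ?_
    rw [Multiset.mem_map] at ha
    obtain ⟨r, hr, rfl⟩ := ha
    rw [Multiset.mem_powersetCard] at hr
    refine h2 r (fun b hb => hs b (Multiset.mem_of_le hr.1 hb)) ?_
    rintro rfl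
    rw [Multiset.card_zero] at hr
    omega
  rw [V.mem_nonunits_iff, map_mul, map_pow, Valuation.map_neg, map_one, one_pow, one_mul]
  exact h3

theorem poly_eval_mem54 (O : ValuationSubring K) (p : K[X]) (hp : ∀ i, p.coeff i ∈ O) {b : K}
    (hb : b ∈ O) : p.eval b ∈ O := by
  rw [eval_eq_sum_range]
  exact sum_mem fun i _ => mul_mem (hp i) (pow_mem hb i)

theorem poly_eval_nonunits54 (O : ValuationSubring K) (p : K[X])
    (hp : ∀ i, O.valuation (p.coeff i) < 1) {b : K} (hb : b ∈ O) : O.valuation (p.eval b) < 1 := by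
  rw [eval_eq_sum_range]
  refine O.valuation.map_sum_lt one_ne_zero fun i _ => ?_
  rw [map_mul, map_pow]
  exact mul_lt_one_of_lt_of_le (hp i) (pow_le_one' ((O.valuation_le_one_iff b).2 hb) i)

/-- Reduction at a place of a relation with coefficients in `K[x]`. -/
theorem reduce54 {P : ValuationSubring U} (hP : ∀ c : K, algebraMap K U c ∈ P) {x z : U}
    {b c : K} (hx : x - algebraMap K U b ∈ P.nonunits) (hz : z - algebraMap K U c ∈ P.nonunits)
    (Q : K[X][X]) (h0 : eval₂ (aeval x : K[X] →ₐ[K] U).toRingHom z Q = 0) :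
    eval₂ (evalRingHom b) c Q = 0 := by
  have hle : ∀ y ∈ P.nonunits, y ∈ P := fun y hy => P.nonunits_subset hy
  have hxP : x ∈ P := by
    have := add_mem (hle _ hx) (hP b)
    rwa [sub_add_cancel] at this
  have hzP : z ∈ P := by
    have := add_mem (hle _ hz) (hP c)
    rwa [sub_add_cancel] at this
  let ι : K →+* P := (algebraMap K U).codRestrict P.toSubring hP
  let x' : P := ⟨x, hxP⟩
  let z' : P := ⟨z, hzP⟩
  let r := IsLocalRing.residue P
  have hrx : r x' = r (ι b) := by
    rw [← sub_eq_zero, ← map_sub, IsLocalRing.residue_eq_zero_iff,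
      ← ValuationSubring.coe_mem_nonunits_iff]
    exact hx
  have hrz : r z' = r (ι c) := by
    rw [← sub_eq_zero, ← map_sub, IsLocalRing.residue_eq_zero_iff,
      ← ValuationSubring.coe_mem_nonunits_iff]
    exact hz
  have h1 : eval₂ (eval₂RingHom ι x') z' Q = 0 := by
    have h2 : P.subtype (eval₂ (eval₂RingHom ι x') z' Q) = 0 := by
      rw [hom_eval₂]
      have h3 : P.subtype.comp (eval₂RingHom ι x') = (aeval x : K[X] →ₐ[K] U).toRingHom := by
        refine Polynomial.ringHom_ext ?_ ?_
        · intro a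
          simp [ι]
        · simp [x']
      rw [h3]
      exact h0
    exact Subtype.ext h2
  have h4 : (r.comp ι) (eval₂ (evalRingHom b) c Q) = 0 := by
    rw [hom_eval₂]
    have h5 : (r.comp ι).comp (evalRingHom b) = r.comp (eval₂RingHom ι x') := by
      refine Polynomial.ringHom_ext ?_ ?_
      · intro a
        simp
      · simp [hrx]
    rw [h5]
    have h6 : (r.comp ι) c = r z' := hrz.symm
    rw [h6, ← hom_eval₂, h1, map_zero]
  exact (map_eq_zero_iff _ (r.comp ι).injective).1 h4

end Aux54

variable {E K U : Type u} [Field E] [IsAlgClosed E] [CharZero E] [Field K] [IsAlgClosed K]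
  [Algebra E K] [Field U] [Algebra K U] [Algebra E U] [IsScalarTower E K U]
  {O : ValuationSubring K} {t : K} {x : U} {B : Finset K} {M : IntermediateField K U}
  {V : ValuationSubring U}

omit [IsAlgClosed E] [CharZero E] [IsAlgClosed K] [IsScalarTower E K U] in
theorem IntO.mem (hV : Gauss E O x V) {z : U} (hz : IntO O x z) : z ∈ V := by
  rw [intO_iff54] at hz
  obtain ⟨p, hp, h0⟩ := hz
  have hφ : ∀ q : O[X], phi54 O x q ∈ V := by
    intro q
    rw [phi54_apply, aeval_eq_sum_range]
    refine sum_mem fun i _ => ?_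
    rw [Algebra.smul_def]
    refine mul_mem ((hV.mem_iff _).2 ?_) (pow_mem hV.x_mem i)
    rw [coeff_map]
    exact (q.coeff i).2
  let φ' : O[X] →+* V := (phi54 O x).codRestrict V.toSubring hφ
  have h1 : IsIntegral V z := by
    refine ⟨p.map φ', hp.map _, ?_⟩
    rw [eval₂_map]
    exact h0
  obtain ⟨y, hy⟩ := IsIntegrallyClosed.isIntegral_iff.1 h1
  rw [← hy]
  exact y.2

omit [IsAlgClosed E] [CharZero E] [IsAlgClosed K] in
theorem IntO.sub_const (h : Base E O t) {z : U} (hz : IntO O x z) {c : K} (hc : c ∈ O) :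
    IntO O x (z - algebraMap K U c) := by
  rw [intO_iff54] at hz ⊢
  refine hz.sub _ ?_
  have h1 : algebraMap K U c = phi54 O x (C ⟨c, hc⟩) := by
    rw [phi54_apply, map_C, aeval_C]
    rfl
  rw [h1]
  exact RingHom.isIntegralElem_map _

theorem IntO.map {z : U} (hz : IntO O x z) (g : U ≃ₐ[K] U) (hg : g x = x) : IntO O x (g z) := by
  obtain ⟨P, hP, hc, h0⟩ := hz
  refine ⟨P, hP, hc, ?_⟩
  have h1 := congrArg (g : U →+* U) h0
  rw [map_zero, hom_eval₂] at h1
  have h2 : (g : U →+* U).comp (aeval x : K[X] →ₐ[K] U).toRingHom =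
      (aeval x : K[X] →ₐ[K] U).toRingHom := by
    refine Polynomial.ringHom_ext ?_ ?_
    · intro a
      simp
    · simp [hg]
  rw [h2] at h1
  exact h1

/-- Integral elements are closed under addition and multiplication. -/
theorem IntO.add {z w : U} (hz : IntO O x z) (hw : IntO O x w) : IntO O x (z + w) := by
  rw [intO_iff54] at hz hw ⊢
  exact hz.add _ hw

theorem IntO.mul {z w : U} (hz : IntO O x z) (hw : IntO O x w) : IntO O x (z * w) := by
  rw [intO_iff54] at hz hw ⊢
  exact hz.mul _ hw

omit [IsAlgClosed E] [CharZero E] [IsAlgClosed K] [Algebra E K] [Algebra E U] [IsScalarTower E K U] in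
/-- The values of integral elements at places over points of `O` are in `O`. -/
theorem IntO.eval_mem {z : U} (hz : IntO O x z) {P : ValuationSubring U}
    (hP : ∀ c : K, algebraMap K U c ∈ P) {b : K} (hb : b ∈ O)
    (hxP : x - algebraMap K U b ∈ P.nonunits) {c : K} (hc : z - algebraMap K U c ∈ P.nonunits) :
    c ∈ O := by
  obtain ⟨Q, hQ, hQO, h0⟩ := hz
  have h1 := reduce54 hP hxP hc Q h0
  -- monic with coefficients in `O`
  have hl : Q.map (evalRingHom b) ∈ lifts O.subtype := by
    rw [lifts_iff_coeff_lifts]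
    intro n
    rw [coeff_map]
    exact ⟨⟨_, poly_eval_mem54 O (Q.coeff n) (hQO n) hb⟩, rfl⟩
  obtain ⟨q, hq1, -, hq3⟩ := lifts_and_natDegree_eq_and_monic hl (hQ.map _)
  have h2 : IsIntegral O c := by
    refine ⟨q, hq3, ?_⟩
    have h3 : eval₂ (RingHom.id K) c (Q.map (evalRingHom b)) = 0 := by
      rw [eval₂_map]
      exact h1
    rw [← hq1, eval₂_map] at h3
    exact h3
  obtain ⟨y, hy⟩ := IsIntegrallyClosed.isIntegral_iff.1 h2
  rw [← hy]
  exact y.2

open IntermediateField algebraAdjoinAdjoin in
/-- An integral element in the maximal ideal of `V` has values in the maximal ideal of `O`. -/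
theorem USetup.eval_nonunits (hu : USetup E O t B M x) (hV : Gauss E O x V) {z : U}
    (hz : IntO O x z) (hzV : z ∈ V.nonunits) {P : ValuationSubring U}
    (hP : ∀ c : K, algebraMap K U c ∈ P) {b : K} (hb : b ∈ O)
    (hxP : x - algebraMap K U b ∈ P.nonunits) {c : K} (hc : z - algebraMap K U c ∈ P.nonunits) :
    c ∈ O.nonunits := by
  have hcO := hz.eval_mem hP hb hxP hc
  have := hu.gal
  -- `K[x]`
  have : IsIntegrallyClosed (Algebra.adjoin K {x}) :=
    IsIntegrallyClosed.of_equiv (algEquivOfTranscendental K x hu.tr).toRingEquiv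
  have hzA : IsIntegral (Algebra.adjoin K {x}) z := by
    obtain ⟨Q, hQ, -, h0⟩ := hz
    refine ⟨Q.map (algEquivOfTranscendental K x hu.tr).toRingEquiv.toRingHom, hQ.map _, ?_⟩
    rw [eval₂_map]
    have h1 : (algebraMap (Algebra.adjoin K {x}) U).comp
        (algEquivOfTranscendental K x hu.tr).toRingEquiv.toRingHom =
        (aeval x : K[X] →ₐ[K] U).toRingHom := by
      refine Polynomial.ringHom_ext ?_ ?_
      · intro a
        simp
      · simp
    rw [h1]
    exact h0
  have hmin := minpoly.isIntegrallyClosed_eq_field_fractions' (IntermediateField.adjoin K {x}) hzA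
  set Q := minpoly (Algebra.adjoin K {x}) z with hQ
  have hQm : Q.Monic := minpoly.monic hzA
  -- the roots
  have hsp := (Normal.splits (F := IntermediateField.adjoin K {x}) (K := U) inferInstance z)
  set s := ((minpoly (IntermediateField.adjoin K {x}) z).map
    (algebraMap (IntermediateField.adjoin K {x}) U)).roots with hs
  have halg : IsAlgebraic (IntermediateField.adjoin K {x}) z := Algebra.IsAlgebraic.isAlgebraic z
  have hmon : (minpoly (IntermediateField.adjoin K {x}) z).Monic :=
    minpoly.monic halg.isIntegral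
  have hroots : ∀ a ∈ s, a ∈ V.nonunits := by
    intro a ha
    have h1 : aeval a (minpoly (IntermediateField.adjoin K {x}) z) = 0 := by
      rw [hs, mem_roots', IsRoot.def, eval_map_algebraMap] at ha
      exact ha.2
    obtain ⟨g, hg⟩ := minpoly.exists_algEquiv_of_root halg h1
    have hgx : g x = x := by
      have := g.commutes ⟨x, IntermediateField.mem_adjoin_simple_self K x⟩
      exact this
    have hst : ∀ w : U, g w ∈ V ↔ w ∈ V := fun w =>
      hu.stable hV (g.restrictScalars K).toRingEquiv (RingEquiv.refl K)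
        (fun c => (g.restrictScalars K).commutes c) (fun c => Iff.rfl) hgx w
    rw [V.mem_nonunits_iff_or]
    rcases V.mem_nonunits_iff_or.1 hzV with h | h
    · left
      rw [← hg] at h
      exact (map_eq_zero_iff g g.injective).1 h
    · right
      rw [← hg, ← map_inv₀, hst] at h
      exact h
  have hprod : (Q.map (algebraMap (Algebra.adjoin K {x}) U)) = (s.map fun a => X - C a).prod := by
    rw [← hsp.eq_prod_roots_of_monic (hmon.map _), hmin, Polynomial.map_map,
      ← IsScalarTower.algebraMap_eq]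
  have hcard : s.card = Q.natDegree := by
    have h1 := congrArg natDegree hprod
    rw [hQm.natDegree_map, natDegree_multiset_prod_X_sub_C_eq_card] at h1
    exact h1.symm
  -- polynomials for the coefficients
  have hcoef : ∀ i, ∃ p : K[X], aeval x p = ((Q.coeff i : Algebra.adjoin K {x}) : U) ∧
      (i < Q.natDegree → ∀ j, O.valuation (p.coeff j) < 1) := by
    intro i
    have h1 : ((Q.coeff i : Algebra.adjoin K {x}) : U) ∈ (aeval x : K[X] →ₐ[K] U).range := by
      rw [← Algebra.adjoin_singleton_eq_range_aeval]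
      exact (Q.coeff i).2
    obtain ⟨p, hp⟩ := h1
    refine ⟨p, hp, fun hi => ?_⟩
    have h2 := lower_coeff54 V s hroots i (by omega)
    rw [← hprod, coeff_map, V.mem_nonunits_iff] at h2
    have h3 : V.valuation (aeval x p) < V.valuation (algebraMap K U 1) := by
      rw [map_one, map_one]
      have h4 : (aeval x p : U) = algebraMap (Algebra.adjoin K {x}) U (Q.coeff i) := hp
      rw [h4]
      exact h2
    have h5 := (hV.val_poly_lt hu.base p 1 one_ne_zero).1 h3
    intro j
    have := h5 j
    rwa [map_one] at this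
  choose p hp1 hp2 using hcoef
  -- the relation over `K[X]`
  have hrel : eval₂ (aeval x : K[X] →ₐ[K] U).toRingHom z
      (X ^ Q.natDegree + ∑ i ∈ Finset.range Q.natDegree, C (p i) * X ^ i) = 0 := by
    have h1 : eval₂ (algebraMap (Algebra.adjoin K {x}) U) z Q = 0 := minpoly.aeval _ z
    rw [hQm.as_sum] at h1
    rw [eval₂_add, eval₂_pow, eval₂_X, eval₂_finsetSum] at h1 ⊢
    rw [← h1]
    congr 1
    refine Finset.sum_congr rfl fun i _ => ?_
    simp only [eval₂_mul, eval₂_C, eval₂_pow, eval₂_X]
    congr 1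
    exact hp1 i
  have hred := reduce54 hP hxP hc _ hrel
  rw [eval₂_add, eval₂_pow, eval₂_X, eval₂_finsetSum] at hred
  have hsum : O.valuation (∑ i ∈ Finset.range Q.natDegree,
      eval₂ (evalRingHom b) c (C (p i) * X ^ i)) < 1 := by
    refine O.valuation.map_sum_lt one_ne_zero fun i hi => ?_
    rw [Finset.mem_range] at hi
    rw [eval₂_mul, eval₂_C, eval₂_pow, eval₂_X, map_mul, map_pow]
    exact mul_lt_one_of_lt_of_le (poly_eval_nonunits54 O (p i) (hp2 i hi) hb)
      (pow_le_one' ((O.valuation_le_one_iff c).2 hcO) i)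
  have hpow : O.valuation (c ^ Q.natDegree) < 1 := by
    rw [eq_neg_of_add_eq_zero_left hred, Valuation.map_neg]
    exact hsum
  rw [O.mem_nonunits_iff]
  by_contra hcon
  have h1 : O.valuation c = 1 := le_antisymm ((O.valuation_le_one_iff c).2 hcO) (not_lt.1 hcon)
  rw [map_pow, h1, one_pow] at hpow
  exact lt_irrefl _ hpow

/-- The places above `B` are separated by the reductions of integral elements. -/
theorem USetup.exists_separating (hu : USetup E O t B M x) {b : K} (hb : b ∈ B)
    {P P' : ValuationSubring U} (hP : ∀ c : K, algebraMap K U c ∈ P)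
    (hP' : ∀ c : K, algebraMap K U c ∈ P')
    (hxP : x - algebraMap K U b ∈ P.nonunits) (hxP' : x - algebraMap K U b ∈ P'.nonunits)
    (hne : P ≠ P') :
    ∃ z : U, IntO O x z ∧ ∃ c c' : K, c ∈ O ∧ c' ∈ O ∧ z - algebraMap K U c ∈ P.nonunits ∧
      z - algebraMap K U c' ∈ P'.nonunits ∧ c - c' ∉ O.nonunits := by
  obtain ⟨y, hy⟩ : ∃ y : U, ¬ (y ∈ P ↔ y ∈ P') := by
    by_contra hcon
    push Not at hcon
    exact hne (SetLike.ext hcon)
  obtain ⟨N, hMN, hZ, hstab, hx, hset⟩ := hu.exists_level {y}
  have hyN : y ∈ N := hZ y (Finset.mem_singleton_self y)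
  have hxne : x - algebraMap K U b ≠ 0 := by
    intro h0
    refine hu.tr ?_
    rw [sub_eq_zero] at h0
    rw [h0]
    exact isAlgebraic_algebraMap b
  have hmem : ∀ (P : ValuationSubring U) (w : N),
      w ∈ (P.comap (algebraMap N U)).nonunits ↔ (w : U) ∈ P.nonunits := by
    intro P w
    rw [ValuationSubring.mem_nonunits_iff_or, ValuationSubring.mem_nonunits_iff_or,
      ValuationSubring.mem_comap, map_inv₀]
    constructor
    · rintro (h | h)
      · left
        rw [h]
        rfl
      · exact Or.inr h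
    · rintro (h | h)
      · left
        exact Subtype.ext h
      · exact Or.inr h
  have hplace : ∀ P : ValuationSubring U, (∀ c : K, algebraMap K U c ∈ P) →
      x - algebraMap K U b ∈ P.nonunits → P.comap (algebraMap N U) ≠ ⊤ := by
    intro P hP hxP htop
    have h1 : ((⟨x, hx⟩ : N) - algebraMap K N b) ∈ (P.comap (algebraMap N U)).nonunits := by
      rw [hmem]
      exact hxP
    rw [htop, ValuationSubring.mem_nonunits_iff_or] at h1
    rcases h1 with h1 | h1
    · exact hxne (congrArg (algebraMap N U) h1)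
    · exact h1 (ValuationSubring.mem_top _)
  let Q : Place K N := ⟨P.comap (algebraMap N U), fun c => hP c, hplace P hP hxP⟩
  let Q' : Place K N := ⟨P'.comap (algebraMap N U), fun c => hP' c, hplace P' hP' hxP'⟩
  have hQQ : Q ≠ Q' := by
    intro h
    have h1 : P.comap (algebraMap N U) = P'.comap (algebraMap N U) := congrArg Place.ring h
    apply hy
    have h2 : (⟨y, hyN⟩ : N) ∈ P.comap (algebraMap N U) ↔
        (⟨y, hyN⟩ : N) ∈ P'.comap (algebraMap N U) := by rw [h1]
    exact h2
  have hQx : (⟨x, hx⟩ : N) - algebraMap K N b ∈ Q.ring.nonunits := (hmem P _).2 hxP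
  have hQx' : (⟨x, hx⟩ : N) - algebraMap K N b ∈ Q'.ring.nonunits := (hmem P' _).2 hxP'
  have hg : ∃ V : ValuationSubring N, Gauss E O (⟨x, hx⟩ : N) V := exists_gauss hset.base hset.tr
  obtain ⟨z, hz1, hz2, c, c', hc, hc', hzc, hzc', hcc⟩ :=
    Pool.Agent.LT.exists_separating hset hg hb hQx hQx' hQQ
  obtain ⟨V, hV⟩ := hg
  obtain ⟨R, hR, hRO, hR0⟩ := exists_monic hset hV hz1 hz2
  refine ⟨z, ⟨R, hR, hRO, ?_⟩, c, c', hc, hc', (hmem P _).1 hzc, (hmem P' _).1 hzc', hcc⟩
  have h1 := congrArg (algebraMap N U) hR0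
  rw [map_zero, hom_eval₂] at h1
  have h2 : (algebraMap N U).comp (aeval (⟨x, hx⟩ : N) : K[X] →ₐ[K] N).toRingHom =
      (aeval x : K[X] →ₐ[K] U).toRingHom := by
    refine Polynomial.ringHom_ext ?_ ?_
    · intro a
      simp
    · simp
  rw [h2] at h1
  exact h1

end Pool.Agent.LT
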