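import Pool.Agent.Helper13.LT.Defs3
import Pool.Agent.SC.CoverKur0
import Pool.Agent.SC.T3
import Pool.Agent.SC.DefsP

/-!
# The field `Kur` as an extension of `kbar`, and the action of a section: definitions
-/

universe u

namespace Pool.Agent.LT

open VC Polynomial Pool.Agent.SC Pool.Agent.Helper91.Sect

noncomputable section

variable (k K : Type u) [Field k] [Field K] [Algebra k K]

/-- `Kur k K` as an extension of `kbar`. -/
abbrev UU : IntermediateField (kbar k K) (AlgebraicClosure K) := Kur0 k (KK k K)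

theorem mem_UU {z : AlgebraicClosure K} : z ∈ UU k K ↔ z ∈ Kur k K := by
  refine ⟨fun h => h.1, fun h => ⟨h, ?_⟩⟩
  have h1 : IsAlgebraic K z := Algebra.IsAlgebraic.isAlgebraic z
  let i : Algebra K (KK k K) := ((algebraMap K (AlgebraicClosure K)).codRestrict
    (KK k K).toSubring fun c => IntermediateField.subset_adjoin _ _ ⟨c, rfl⟩).toAlgebra
  have st : IsScalarTower K (KK k K) (AlgebraicClosure K) :=
    IsScalarTower.of_algebraMap_eq fun _ => rfl
  exact h1.extendScalars (algebraMap K (KK k K)).injective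

theorem KK_le_UU : KK k K ≤ UU k K := fun _ hz => (mem_UU k K).2 (KK_le_Kur hz)

/-- The compositum `kbar K` inside `Kur`. -/
abbrev MM : IntermediateField (kbar k K) (UU k K) := IntermediateField.restrict (KK_le_UU k K)

variable {k K}

/-- The embedding of `K` in `Kur`. -/
def toU : K →+* UU k K :=
  (algebraMap K (AlgebraicClosure K)).codRestrict (UU k K).toSubring fun c =>
    KK_le_UU k K (IntermediateField.subset_adjoin _ _ ⟨c, rfl⟩)

theorem coe_toU (c : K) : ((toU (k := k) (K := K) c : UU k K) : AlgebraicClosure K) =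
    algebraMap K (AlgebraicClosure K) c := rfl

theorem toU_mem (c : K) : toU (k := k) (K := K) c ∈ MM k K :=
  (IntermediateField.mem_restrict (KK_le_UU k K) _).2
    (IntermediateField.subset_adjoin _ _ ⟨c, rfl⟩)

theorem UU_le (z : AlgebraicClosure K) (hz : z ∈ UU k K) : z ∈ Kur k K := (mem_UU k K).1 hz

theorem UU_stable (s : GaloisSection k K) (γ : Gk k K) (w : Kur k K)
    (_ : (w : AlgebraicClosure K) ∈ UU k K) :
    (s.toHom γ w : AlgebraicClosure K) ∈ UU k K :=
  (mem_UU k K).2 (s.toHom γ w).2

/-- The action of the Galois group on `Kur` through the section. -/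
def actU (s : GaloisSection k K) : Gk k K →* (UU k K ≃+* UU k K) :=
  act s UU_le (UU_stable s)

theorem coe_actU (s : GaloisSection k K) (γ : Gk k K) (z : UU k K) :
    (actU s γ z : AlgebraicClosure K) =
      s.toHom γ ⟨(z : AlgebraicClosure K), UU_le (z : AlgebraicClosure K) z.2⟩ := rfl

variable (k K) in
/-- The action of the Galois group on `kbar`. -/
def phi : Gk k K →* (kbar k K ≃+* kbar k K) where
  toFun γ := (γ : kbar k K ≃+* kbar k K)
  map_one' := rfl
  map_mul' _ _ := rfl

theorem phi_apply (γ : Gk k K) (c : kbar k K) : phi k K γ c = γ c := rfl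

theorem actU_const [CharZero k] (s : GaloisSection k K) (γ : Gk k K) (c : kbar k K) :
    actU s γ (algebraMap (kbar k K) (UU k K) c) = algebraMap (kbar k K) (UU k K) (γ c) :=
  act_const s UU_le (UU_stable s) (E := kbar k K) rfl

theorem actU_toU (s : GaloisSection k K) (γ : Gk k K) (c : K) :
    actU s γ (toU (k := k) (K := K) c) = toU (k := k) (K := K) c := by
  apply Subtype.ext
  rw [coe_actU]
  have h1 : (⟨(toU (k := k) (K := K) c : AlgebraicClosure K), UU_le _ (toU (k := k) (K := K) c).2⟩ : Kur k K) =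
      algebraMap K (Kur k K) c := rfl
  rw [h1, AlgEquiv.commutes]
  rfl

/-- The decomposition group of `W`. -/
def decW (W : ValuationSubring (kbar k K)) : Subgroup (Gk k K) where
  carrier := {γ | InDecomp W γ}
  mul_mem' := fun {a b} ha hb z => by
    rw [AlgEquiv.mul_apply]; exact (ha _).trans (hb z)
  one_mem' := fun z => Iff.rfl
  inv_mem' := fun {a} ha z => by
    have h1 : a (a⁻¹ z) = z := a.apply_symm_apply z
    rw [← ha (a⁻¹ z), h1]

/-- The inertia group of `W`. -/
def inertW (W : ValuationSubring (kbar k K)) : Subgroup (Gk k K) where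
  carrier := {γ | InInert W γ}
  mul_mem' := fun {a b} ha hb => by
    refine ⟨(decW W).mul_mem ha.1 hb.1, fun z hz => ?_⟩
    have h1 : (a * b) z - z = (a (b z) - b z) + (b z - z) := by
      rw [AlgEquiv.mul_apply]; ring
    rw [h1]
    rw [ValuationSubring.mem_nonunits_iff]
    exact W.valuation.map_add_lt ((ValuationSubring.mem_nonunits_iff _).1
      (ha.2 _ ((hb.1 z).2 hz))) ((ValuationSubring.mem_nonunits_iff _).1 (hb.2 z hz))
  one_mem' := ⟨(decW W).one_mem, fun z hz => by
    have h1 : (1 : Gk k K) z - z = 0 := sub_self z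
    rw [h1, ValuationSubring.mem_nonunits_iff, map_zero]
    exact zero_lt_one⟩
  inv_mem' := fun {a} ha => by
    refine ⟨(decW W).inv_mem ha.1, fun z hz => ?_⟩
    have h1 : a (a⁻¹ z) = z := a.apply_symm_apply z
    have h2 : a⁻¹ z ∈ W := by rw [← ha.1 (a⁻¹ z), h1]; exact hz
    have h3 := ha.2 _ h2
    rw [h1] at h3
    have h4 : a⁻¹ z - z = -(z - a⁻¹ z) := by ring
    rw [h4, ValuationSubring.mem_nonunits_iff, Valuation.map_neg,
      ← ValuationSubring.mem_nonunits_iff]
    exact h3

theorem mem_decW {W : ValuationSubring (kbar k K)} {γ : Gk k K} :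
    γ ∈ decW W ↔ InDecomp W γ := Iff.rfl

theorem mem_inertW {W : ValuationSubring (kbar k K)} {γ : Gk k K} :
    γ ∈ inertW W ↔ InInert W γ := Iff.rfl

/-- The curve `c yⁿ = f(x)` over `k`. -/
structure SuperE (n : ℕ) (f : k[X]) (c : k) (x y : K) : Prop where
  two_le : 2 ≤ n
  deg : 3 ≤ f.natDegree
  sep : f.Separable
  c_ne : c ≠ 0
  x_tr : Transcendental k x
  eq : algebraMap k K c * y ^ n = aeval x f
  gen : IntermediateField.adjoin k {x, y} = ⊤

open Classical in
/-- The roots of `f` in `kbar`. -/
def rootsB (K : Type u) [Field K] [Algebra k K] (f : k[X]) : Finset (kbar k K) :=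
  (f.map (algebraMap k (kbar k K))).roots.toFinset

/-- The reduction of `f` at `W` is separable of the same degree. -/
structure GoodRed (W : ValuationSubring (kbar k K)) (f : k[X]) : Prop where
  mem : ∀ i, algebraMap k (kbar k K) (f.coeff i) ∈ W
  lead : algebraMap k (kbar k K) f.leadingCoeff ∉ W.nonunits
  disc : algebraMap k (kbar k K) f.discr ∉ W.nonunits

end

end Pool.Agent.LT
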