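import Pool.Agent.Helper13.LT.F0
import Pool.Agent.Helper13.LT.F1
import Pool.Agent.Helper13.LT.Ord1

/-!
# Block F2: the superelliptic curve

`isFunctionField`: `K = k(x, y)`, `y^n = f(x)/c`.
`usetup`: `base`, `cover` (F1), `x_mem` (F0).  `tr`: `kbar / k` is algebraic.  `gal`: `kbar(x, y)/kbar(x)` is normal (Kummer)
and `Kur` is preserved by the automorphisms of `AlgebraicClosure K` over `kbar(x)` (it is the maximal unramified
extension of `kbar K`; see `SC.CoverKur0` for the description of `Kur` by valuation rings).  `stab`: `g y = ζ y`.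
`B_mem`: the roots of a polynomial over `W` whose leading coefficient is a unit.  `B_diff`: the discriminant is
`± lc^(2d-2) ∏ (b_i - b_j)`, a unit; Mathlib has `Polynomial.discr`, `resultant_deriv`,
`resultant_eq_prod_eval`, `exists_mul_add_mul_eq_C_resultant`.  (If two roots have the same
residue then the reduction of `f` has a double root, a common root of the reductions of `f` and
`f'`, and the resultant is in `(f, f')`, so it reduces to zero.)
`unr`: `P ⊇ kbar`, `x - a ∈ 𝔪_P`, `f(a) ≠ 0`.  All values of `P` are values of elements of `MM`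
(`IsCover.unr`), and `x - a` is a uniformizer of `P ∩ MM`: `y` is a unit at `P` and the
extension `kbar(x, y)/kbar(x)` is unramified at `a` (no automorphism `y ↦ ζ y`, `ζ ≠ 1` fixes `P ∩ MM` because
the residue of `y` is not zero; then use `ord_eq_one_local`, Ord1.lean).
-/

universe u

namespace Pool.Agent.LT

open VC Polynomial Pool.Agent.SC Pool.Agent.Helper91.Sect

section disc

variable {k L : Type*} [Field k] [Field L] [Algebra k L] {W : ValuationSubring L} {f : k[X]}

theorem F2_exists_lift_poly (hmem : ∀ i, algebraMap k L (f.coeff i) ∈ W) :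
    ∃ F : W[X], F.map W.subtype = f.map (algebraMap k L) ∧ F.natDegree = f.natDegree := by
  have h1 : f.map (algebraMap k L) ∈ Polynomial.lifts W.subtype := by
    rw [lifts_iff_coeff_lifts]
    intro i
    rw [coeff_map]
    exact ⟨⟨_, hmem i⟩, rfl⟩
  obtain ⟨F, hF, hd⟩ := exists_degree_eq_of_mem_lifts h1
  refine ⟨F, hF, ?_⟩
  rw [natDegree_eq_of_degree_eq hd, natDegree_map]

theorem F2_root_mem_of_lead (hmem : ∀ i, algebraMap k L (f.coeff i) ∈ W)
    (hlead : algebraMap k L f.leadingCoeff ∉ W.nonunits) (hf : f ≠ 0) {b : L}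
    (hb : aeval b f = 0) : b ∈ W := by
  obtain ⟨F, hF, hd⟩ := F2_exists_lift_poly hmem
  have hl : (algebraMap k L f.leadingCoeff)⁻¹ ∈ W := by
    by_contra hcon
    exact hlead ((ValuationSubring.mem_nonunits_iff_or _).mpr (Or.inr hcon))
  have hl0 : algebraMap k L f.leadingCoeff ≠ 0 := by
    rw [Ne, map_eq_zero, leadingCoeff_eq_zero]; exact hf
  have hlF : (F.leadingCoeff : L) = algebraMap k L f.leadingCoeff := by
    have h2 : (F.map W.subtype).coeff f.natDegree = (f.map (algebraMap k L)).coeff f.natDegree := by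
      rw [hF]
    rw [coeff_map, coeff_map] at h2
    rw [leadingCoeff, hd]
    exact h2
  have h1 : IsIntegral W b := by
    refine ⟨C ⟨_, hl⟩ * F, ?_, ?_⟩
    · apply monic_C_mul_of_mul_leadingCoeff_eq_one
      apply Subtype.ext
      change (algebraMap k L f.leadingCoeff)⁻¹ * (F.leadingCoeff : L) = 1
      rw [hlF, inv_mul_cancel₀ hl0]
    · rw [eval₂_mul]
      have h3 : eval₂ (algebraMap W L) b F = 0 := by
        have h4 : eval₂ (algebraMap W L) b F = eval b (F.map W.subtype) := by
          rw [eval_map]; rfl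
        rw [h4, hF, eval_map, ← aeval_def, hb]
      rw [h3, mul_zero]
  obtain ⟨w, hw⟩ := IsIntegrallyClosed.algebraMap_eq_of_integral h1
  rw [← hw]
  exact w.2

theorem F2_root_diff_of_disc (hmem : ∀ i, algebraMap k L (f.coeff i) ∈ W)
    (hlead : algebraMap k L f.leadingCoeff ∉ W.nonunits)
    (hdisc : algebraMap k L f.discr ∉ W.nonunits) (hf : 2 ≤ f.natDegree) {b b' : L}
    (hb : aeval b f = 0) (hb' : aeval b' f = 0) (hne : b ≠ b') : b - b' ∉ W.nonunits := by
  intro hcon
  have hf0 : f ≠ 0 := by rintro rfl; simp at hf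
  obtain ⟨F, hF, hd⟩ := F2_exists_lift_poly hmem
  have hbW := F2_root_mem_of_lead hmem hlead hf0 hb
  have hbW' := F2_root_mem_of_lead hmem hlead hf0 hb'
  have hroot : ∀ c : W, aeval (c : L) f = 0 → F.eval c = 0 := by
    intro c hc
    apply Subtype.ext
    have h1 : ((F.eval c : W) : L) = eval (c : L) (F.map W.subtype) := by
      rw [eval_map]
      change W.subtype (eval c F) = eval₂ W.subtype (W.subtype c) F
      rw [eval₂_at_apply]
    rw [h1, hF, eval_map, ← aeval_def, hc]
    rfl
  have hFb := hroot ⟨b, hbW⟩ hb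
  have hFb' := hroot ⟨b', hbW'⟩ hb'
  set β : W := ⟨b, hbW⟩ with hβ
  set β' : W := ⟨b', hbW'⟩ with hβ'
  have hββ : β ≠ β' := fun h => hne (congrArg Subtype.val h)
  have hnon : β - β' ∈ IsLocalRing.maximalIdeal W := by
    rw [ValuationSubring.valuation_lt_one_iff]
    exact (ValuationSubring.mem_nonunits_iff _).1 hcon
  -- `F' (β) ∈ 𝔪`
  have hH : (X - C β) * (F /ₘ (X - C β)) = F := mul_divByMonic_eq_iff_isRoot.2 hFb
  set H := F /ₘ (X - C β) with hHdef
  have hd1 : F.derivative.eval β = H.eval β := by
    conv_lhs => rw [← hH]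
    rw [derivative_mul, eval_add, eval_mul, eval_mul]
    simp
  have hH' : H.eval β' = 0 := by
    have h1 : (X - C β).eval β' * H.eval β' = 0 := by
      rw [← eval_mul, hH, hFb']
    rw [eval_sub, eval_X, eval_C] at h1
    exact (mul_eq_zero.mp h1).resolve_left (sub_ne_zero.mpr (Ne.symm hββ))
  have hdm : F.derivative.eval β ∈ IsLocalRing.maximalIdeal W := by
    rw [hd1]
    have h1 : H.eval β = H.eval β - H.eval β' := by rw [hH', sub_zero]
    rw [h1]
    exact Ideal.mem_of_dvd _ (sub_dvd_eval_sub β β' H) hnon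
  obtain ⟨p, q, -, -, hpq⟩ := exists_mul_add_mul_eq_C_resultant (m := f.natDegree)
    (n := f.natDegree - 1) F F.derivative hd.le ((natDegree_derivative_le F).trans (by rw [hd]))
    (Or.inl (by omega))
  have hres : F.resultant F.derivative f.natDegree (f.natDegree - 1) ∈
      IsLocalRing.maximalIdeal W := by
    have h1 := congrArg (eval β) hpq
    rw [eval_add, eval_mul, eval_mul, hFb, zero_mul, zero_add, eval_C] at h1
    rw [← h1]
    exact Ideal.mul_mem_right _ _ hdm
  have h2 : ((F.resultant F.derivative f.natDegree (f.natDegree - 1) : W) : L) =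
      algebraMap k L ((-1) ^ (f.natDegree * (f.natDegree - 1) / 2) * f.leadingCoeff * f.discr) := by
    rw [← resultant_deriv (natDegree_pos_iff_degree_pos.1 (by omega))]
    rw [← resultant_map_map f f.derivative]
    change W.subtype _ = _
    rw [← resultant_map_map F F.derivative, hF, ← derivative_map, ← derivative_map, hF]
  rw [ValuationSubring.valuation_lt_one_iff, h2, map_mul, map_mul, map_mul, map_mul] at hres
  have e1 : W.valuation (algebraMap k L f.leadingCoeff) = 1 := by
    apply le_antisymm
    · exact (W.valuation_le_one_iff _).2 (hmem _)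
    · rw [ValuationSubring.mem_nonunits_iff] at hlead
      exact not_lt.1 hlead
  have e2 : W.valuation (algebraMap k L ((-1) ^ (f.natDegree * (f.natDegree - 1) / 2))) = 1 := by
    rw [map_pow, map_neg, map_one, map_pow, Valuation.map_neg, map_one, one_pow]
  rw [e1, e2, one_mul, one_mul] at hres
  exact hdisc ((ValuationSubring.mem_nonunits_iff _).2 hres)

end disc

section gen

variable {k K : Type u} [Field k] [Field K] [Algebra k K] {n : ℕ} {f : k[X]} {c : k} {x y : K}

theorem SuperE.isFunctionField (h : SuperE n f c x y) : IsFunctionField k K := by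
  refine ⟨x, h.x_tr, ?_⟩
  set A := IntermediateField.adjoin k {x} with hA
  have hxA : x ∈ A := IntermediateField.subset_adjoin _ _ rfl
  have hy : IsIntegral A y := by
    have hn := h.two_le
    refine IsIntegral.of_pow (n := n) (by omega) ?_
    have hc0 : algebraMap k K c ≠ 0 := by rw [Ne, map_eq_zero]; exact h.c_ne
    have h1 : y ^ n = (algebraMap k K c)⁻¹ * aeval x f := by
      rw [← h.eq, ← mul_assoc, inv_mul_cancel₀ hc0, one_mul]
    have h2 : y ^ n ∈ A := by
      rw [h1]
      refine A.mul_mem (A.inv_mem (A.algebraMap_mem _)) ?_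
      exact IntermediateField.algebra_adjoin_le_adjoin k _ (aeval_mem_adjoin_singleton k x)
    exact isIntegral_algebraMap (x := (⟨_, h2⟩ : A))
  have h1 : IntermediateField.adjoin A {y} = ⊤ := by
    rw [eq_top_iff]
    intro z _
    have h2 : IntermediateField.adjoin k {x, y} ≤
        (IntermediateField.adjoin A {y}).restrictScalars k := by
      rw [IntermediateField.adjoin_le_iff]
      rintro w (rfl | hw)
      · exact (IntermediateField.adjoin A {y}).algebraMap_mem ⟨w, hxA⟩
      · rw [Set.mem_singleton_iff] at hw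
        rw [hw]
        exact IntermediateField.subset_adjoin A _ rfl
    rw [h.gen] at h2
    exact h2 (IntermediateField.mem_top (x := z))
  have h2 := IntermediateField.adjoin.finiteDimensional hy
  rw [h1] at h2
  exact Module.Finite.equiv (IntermediateField.topEquiv (F := A) (E := K)).toLinearEquiv

variable {κ L : Type*} [Field κ] [Algebra k κ] [Field L] [Algebra κ L] (j : K →+* L)

theorem SuperE.F2_adjoin_range (h : SuperE n f c x y)
    (hj : ∀ c : k, j (algebraMap k K c) = algebraMap κ L (algebraMap k κ c)) :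
    IntermediateField.adjoin κ (Set.range j) = IntermediateField.adjoin κ {j x, j y} := by
  apply le_antisymm
  · rw [IntermediateField.adjoin_le_iff]
    rintro _ ⟨w, rfl⟩
    have h1 : Subfield.comap j (IntermediateField.adjoin κ {j x, j y}).toSubfield = ⊤ := by
      rw [eq_top_iff]
      let S : IntermediateField k K :=
        { Subfield.comap j (IntermediateField.adjoin κ {j x, j y}).toSubfield with
          algebraMap_mem' := fun c => by
            change j _ ∈ IntermediateField.adjoin κ {j x, j y}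
            rw [hj]
            exact IntermediateField.algebraMap_mem _ _ }
      have h2 : IntermediateField.adjoin k {x, y} ≤ S := by
        rw [IntermediateField.adjoin_le_iff]
        rintro w (rfl | hw)
        · change j _ ∈ IntermediateField.adjoin κ {j w, j y}
          exact IntermediateField.subset_adjoin _ _ (Set.mem_insert _ _)
        · rw [Set.mem_singleton_iff] at hw
          rw [hw]
          change j _ ∈ IntermediateField.adjoin κ {j x, j y}
          exact IntermediateField.subset_adjoin _ _ (Set.mem_insert_of_mem _ rfl)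
      rw [h.gen] at h2
      exact fun w _ => h2 (IntermediateField.mem_top (x := w))
    have h2 : w ∈ Subfield.comap j (IntermediateField.adjoin κ {j x, j y}).toSubfield := by
      rw [h1]; trivial
    exact h2
  · rw [IntermediateField.adjoin_le_iff]
    rintro w (rfl | hw)
    · exact IntermediateField.subset_adjoin _ _ ⟨_, rfl⟩
    · rw [Set.mem_singleton_iff] at hw
      rw [hw]
      exact IntermediateField.subset_adjoin _ _ ⟨_, rfl⟩

theorem F2_exists_const_of_pow_eq_one [IsAlgClosed κ] {ζ : L} {n : ℕ} (hn : 0 < n) (h : ζ ^ n = 1) :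
    ∃ z : κ, algebraMap κ L z = ζ := by
  have hz : IsIntegral κ ζ := IsIntegral.of_pow hn (by rw [h]; exact isIntegral_one)
  have h1 := IsAlgClosed.degree_eq_one_of_irreducible κ (minpoly.irreducible hz)
  obtain ⟨z, hz⟩ := minpoly.mem_range_of_degree_eq_one κ ζ h1
  exact ⟨z, hz⟩

theorem SuperE.F2_pow_eq (h : SuperE n f c x y) : y ^ n = (algebraMap k K c)⁻¹ * aeval x f := by
  have hc0 : algebraMap k K c ≠ 0 := by rw [Ne, map_eq_zero]; exact h.c_ne
  rw [← h.eq, ← mul_assoc, inv_mul_cancel₀ hc0, one_mul]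

theorem SuperE.F2_y_ne (h : SuperE n f c x y) : y ≠ 0 := by
  intro h0
  have h1 := h.eq
  have hn := h.two_le
  rw [h0, zero_pow (by omega), mul_zero] at h1
  have hf : f ≠ 0 := by
    intro h2
    have := h.deg
    rw [h2] at this
    simp at this
  exact h.x_tr ⟨f, hf, h1.symm⟩

theorem SuperE.F2_map_pow_eq (h : SuperE n f c x y)
    (hj : ∀ c : k, j (algebraMap k K c) = algebraMap κ L (algebraMap k κ c)) (g : L →ₐ[κ] L)
    (hg : g (j x) = j x) : g (j y) ^ n = j y ^ n := by
  have h1 : j y ^ n = algebraMap κ L (algebraMap k κ c)⁻¹ *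
      aeval (j x) (f.map (algebraMap k κ)) := by
    rw [← map_pow, h.F2_pow_eq, map_mul, map_inv₀, hj, map_inv₀]
    congr 1
    rw [aeval_def, aeval_def, eval₂_map, hom_eval₂]
    congr 1
    ext c
    exact hj c
  rw [← map_pow, h1, map_mul, AlgHom.commutes, ← aeval_algHom_apply, hg]

theorem SuperE.F2_exists_root_of_unity [IsAlgClosed κ] (h : SuperE n f c x y)
    (hj : ∀ c : k, j (algebraMap k K c) = algebraMap κ L (algebraMap k κ c)) (g : L →ₐ[κ] L)
    (hg : g (j x) = j x) : ∃ ζ : κ, g (j y) = algebraMap κ L ζ * j y := by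
  have hy0 : j y ≠ 0 := by rw [Ne, map_eq_zero]; exact h.F2_y_ne
  have hn := h.two_le
  have h1 : (g (j y) / j y) ^ n = 1 := by
    rw [div_pow, h.F2_map_pow_eq j hj g hg, div_self (pow_ne_zero _ hy0)]
  obtain ⟨ζ, hζ⟩ := F2_exists_const_of_pow_eq_one (κ := κ) (by omega) h1
  exact ⟨ζ, by rw [hζ, div_mul_cancel₀ _ hy0]⟩

/-- The field `κ(x, y)` is preserved by the endomorphisms fixing `x`. -/
theorem SuperE.F2_stab_adjoin [IsAlgClosed κ] (h : SuperE n f c x y)
    (hj : ∀ c : k, j (algebraMap k K c) = algebraMap κ L (algebraMap k κ c)) (g : L →ₐ[κ] L)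
    (hg : g (j x) = j x) {z : L} (hz : z ∈ IntermediateField.adjoin κ (Set.range j)) :
    g z ∈ IntermediateField.adjoin κ (Set.range j) := by
  rw [h.F2_adjoin_range j hj] at hz ⊢
  have h1 : IntermediateField.adjoin κ {j x, j y} ≤
      (IntermediateField.adjoin κ {j x, j y}).comap g := by
    rw [IntermediateField.adjoin_le_iff]
    rintro w (rfl | hw)
    · change g (j x) ∈ IntermediateField.adjoin κ {j x, j y}
      rw [hg]
      exact IntermediateField.subset_adjoin _ _ (Set.mem_insert _ _)
    · rw [Set.mem_singleton_iff] at hw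
      rw [hw]
      change g (j y) ∈ IntermediateField.adjoin κ {j x, j y}
      obtain ⟨ζ, hζ⟩ := h.F2_exists_root_of_unity j hj g hg
      rw [hζ]
      exact IntermediateField.mul_mem _ (IntermediateField.algebraMap_mem _ _)
        (IntermediateField.subset_adjoin _ _ (Set.mem_insert_of_mem _ rfl))
  exact h1 hz

/-- An automorphism fixing `κ`, `x` and `y` is the identity on `κ(x, y)`. -/
theorem SuperE.F2_fix_adjoin (h : SuperE n f c x y)
    (hj : ∀ c : k, j (algebraMap k K c) = algebraMap κ L (algebraMap k κ c)) (g : L →ₐ[κ] L)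
    (hg : g (j x) = j x) (hgy : g (j y) = j y) {z : L}
    (hz : z ∈ IntermediateField.adjoin κ (Set.range j)) : g z = z := by
  rw [h.F2_adjoin_range j hj] at hz
  have h1 : IntermediateField.adjoin κ {j x, j y} ≤
      { RingHom.eqLocusField (g : L →+* L) (RingHom.id L) with
        algebraMap_mem' := fun c => g.commutes c } := by
    rw [IntermediateField.adjoin_le_iff]
    rintro w (rfl | hw)
    · exact hg
    · rw [Set.mem_singleton_iff] at hw
      rw [hw]
      exact hgy
  exact h1 hz

end gen

section norm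

theorem F2_normal_of_stable {A U Ω : Type*} [Field A] [Field U] [Field Ω] [Algebra A U] [Algebra U Ω]
    [Algebra A Ω] [IsScalarTower A U Ω] [IsAlgClosed Ω] [Algebra.IsAlgebraic A Ω]
    (h : ∀ τ : Ω ≃ₐ[A] Ω, ∀ u : U, ∃ u' : U, τ (algebraMap U Ω u) = algebraMap U Ω u') :
    Normal A U := by
  have hcl : IsAlgClosure A Ω := ⟨inferInstance, inferInstance⟩
  have hN : Normal A Ω := IsAlgClosure.normal A Ω
  have halg : Algebra.IsAlgebraic A U := by
    refine ⟨fun u => ?_⟩
    have h1 : IsAlgebraic A (algebraMap U Ω u) := Algebra.IsAlgebraic.isAlgebraic _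
    exact (isAlgebraic_algebraMap_iff (algebraMap U Ω).injective).1 h1
  refine { halg with splits' := fun u => ?_ }
  refine Polynomial.Splits.of_splits_map (algebraMap U Ω) (IsAlgClosed.splits _) ?_
  intro a ha
  have h1 : IsConjRoot A (algebraMap U Ω u) a := by
    rw [isConjRoot_iff_aeval_eq_zero (Algebra.IsIntegral.isIntegral _)]
    rw [minpoly.algebraMap_eq (algebraMap U Ω).injective]
    rw [mem_roots', Polynomial.map_map, ← IsScalarTower.algebraMap_eq, IsRoot.def, eval_map] at ha
    exact ha.2
  obtain ⟨σ, hσ⟩ := (isConjRoot_iff_exists_algEquiv).1 h1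
  obtain ⟨u', hu'⟩ := h σ.symm u
  rw [← hσ, AlgEquiv.symm_apply_apply] at hu'
  exact ⟨u', hu'.symm⟩

end norm

section kur

variable {k K : Type u} [Field k] [Field K] [Algebra k K]

theorem F2_inertia_fix_KK {W : ValuationSubring (AlgebraicClosure K)}
    (hW : ∀ c : k, algebraMap k (AlgebraicClosure K) c ∈ W)
    {σ : AlgebraicClosure K ≃ₐ[K] AlgebraicClosure K} (hσ : InInertia W σ)
    {z : AlgebraicClosure K} (hz : z ∈ KK k K) : σ z = z := by
  have h1 : KK k K ≤
      { RingHom.eqLocusField (σ : AlgebraicClosure K →+* AlgebraicClosure K)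
          (RingHom.id (AlgebraicClosure K)) with
        algebraMap_mem' := fun c =>
          inertia_const hW hσ ((mem_algebraicClosure_iff).1 c.2) } := by
    rw [KK, IntermediateField.adjoin_le_iff]
    rintro _ ⟨c, rfl⟩
    exact σ.commutes c
  exact h1 hz

/-- Automorphisms over `kbar` which preserve `kbar K` preserve `Kur`. -/
theorem F2_map_mem_Kur_of_stab (τ : AlgebraicClosure K ≃+* AlgebraicClosure K)
    (hτ : ∀ c : kbar k K, τ c = c) (hKK : ∀ z ∈ KK k K, τ z ∈ KK k K)
    {z : AlgebraicClosure K} (hz : z ∈ Kur k K) : τ z ∈ Kur k K := by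
  intro W hW σ hσ
  set W' : ValuationSubring (AlgebraicClosure K) :=
    W.comap (τ : AlgebraicClosure K →+* AlgebraicClosure K) with hW'
  have hmem : ∀ y, y ∈ W' ↔ τ y ∈ W := fun y => Iff.rfl
  have hk : ∀ c : k, τ (algebraMap k (AlgebraicClosure K) c) =
      algebraMap k (AlgebraicClosure K) c := by
    intro c
    exact hτ (algebraMap k (kbar k K) c)
  have heq : W'.valuation.IsEquiv
      (W.valuation.comap (τ : AlgebraicClosure K →+* AlgebraicClosure K)) := by
    rw [Valuation.isEquiv_iff_val_le_one]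
    intro x
    rw [W'.valuation_le_one_iff, Valuation.comap_apply, W.valuation_le_one_iff, hmem]
    rfl
  have hlt : ∀ a, W'.valuation a < 1 ↔ W.valuation (τ a) < 1 := fun a => heq.lt_one_iff_lt_one
  let σ' : AlgebraicClosure K ≃ₐ[K] AlgebraicClosure K :=
    AlgEquiv.ofRingEquiv (f := (τ.trans (σ : AlgebraicClosure K ≃+* AlgebraicClosure K)).trans
      τ.symm) (fun w => by
        change τ.symm (σ (τ (algebraMap K (AlgebraicClosure K) w))) = _
        rw [F2_inertia_fix_KK hW hσ (hKK _ (IntermediateField.subset_adjoin _ _ ⟨w, rfl⟩)),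
          RingEquiv.symm_apply_apply])
  have hσ' : ∀ w, τ (σ' w) = σ (τ w) := fun w => τ.apply_symm_apply _
  have h1 := hz W' (fun c => by rw [hmem, hk]; exact hW c) σ' ⟨fun y => ?_, fun y hy => ?_⟩
  · rw [← hσ', h1]
  · rw [hmem, hmem, hσ']
    exact hσ.1 (τ y)
  · rw [hlt, map_sub, hσ']
    exact hσ.2 (τ y) ((hmem y).1 hy)

end kur

section galois

variable {k K : Type u} [Field k] [Field K] [Algebra k K] {n : ℕ} {f : k[X]} {c : k} {x y : K}
variable {κ L : Type*} [Field κ] [Algebra k κ] [Field L] [Algebra κ L] (j : K →+* L)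

theorem SuperE.F2_isAlgebraic_Ω (h : SuperE n f c x y)
    (hj : ∀ c : k, j (algebraMap k K c) = algebraMap κ L (algebraMap k κ c))
    {Ω : Type*} [Field Ω] [Algebra L Ω] [Algebra K Ω] [Algebra.IsAlgebraic K Ω]
    (hKΩ : ∀ z : K, algebraMap K Ω z = algebraMap L Ω (j z)) :
    Algebra.IsAlgebraic (IntermediateField.adjoin κ {j x}) Ω := by
  let K0 := IntermediateField.adjoin k {x}
  have hfd : FiniteDimensional K0 K := h.isFunctionField.finiteDimensional h.x_tr
  have hal : Algebra.IsAlgebraic K0 K := Algebra.IsAlgebraic.of_finite K0 K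
  have hal2 : Algebra.IsAlgebraic K0 Ω := Algebra.IsAlgebraic.trans K0 K Ω
  have hmem : ∀ z ∈ K0, j z ∈ IntermediateField.adjoin κ {j x} := by
    let S : IntermediateField k K :=
      { Subfield.comap j (IntermediateField.adjoin κ {j x}).toSubfield with
        algebraMap_mem' := fun c => by
          change j _ ∈ IntermediateField.adjoin κ {j x}
          rw [hj]
          exact IntermediateField.algebraMap_mem _ _ }
    have h2 : IntermediateField.adjoin k {x} ≤ S := by
      rw [IntermediateField.adjoin_le_iff]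
      rintro w (rfl | hw)
      exact IntermediateField.subset_adjoin _ _ rfl
    exact fun z hz => h2 hz
  let i : Algebra K0 (IntermediateField.adjoin κ {j x}) :=
    ((j.comp (algebraMap K0 K)).codRestrict (IntermediateField.adjoin κ {j x}).toSubring
      fun z => hmem _ z.2).toAlgebra
  have st : IsScalarTower K0 (IntermediateField.adjoin κ {j x}) Ω := by
    refine IsScalarTower.of_algebraMap_eq fun z => ?_
    change algebraMap K Ω (z : K) = algebraMap L Ω (j z)
    exact hKΩ _
  exact Algebra.IsAlgebraic.tower_top (K := K0) _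

theorem SuperE.F2_isGalois_of [CharZero κ] (h : SuperE n f c x y)
    (hj : ∀ c : k, j (algebraMap k K c) = algebraMap κ L (algebraMap k κ c))
    {Ω : Type*} [Field Ω] [IsAlgClosed Ω] [Algebra L Ω] [Algebra K Ω] [Algebra.IsAlgebraic K Ω]
    (hKΩ : ∀ z : K, algebraMap K Ω z = algebraMap L Ω (j z))
    (hst : ∀ τ : Ω ≃+* Ω, (∀ c : κ, τ (algebraMap L Ω (algebraMap κ L c)) =
        algebraMap L Ω (algebraMap κ L c)) → τ (algebraMap L Ω (j x)) = algebraMap L Ω (j x) →
      ∀ u : L, ∃ u' : L, τ (algebraMap L Ω u) = algebraMap L Ω u') :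
    IsGalois (IntermediateField.adjoin κ {j x}) L := by
  have h1 := h.F2_isAlgebraic_Ω j hj hKΩ
  have h2 : Normal (IntermediateField.adjoin κ {j x}) L := F2_normal_of_stable (Ω := Ω) fun τ u =>
    hst (τ : Ω ≃+* Ω) (fun c => τ.commutes (algebraMap κ (IntermediateField.adjoin κ {j x}) c))
      (τ.commutes (⟨j x, IntermediateField.subset_adjoin _ _ rfl⟩ :
        IntermediateField.adjoin κ {j x})) u
  have h3 : CharZero (IntermediateField.adjoin κ {j x}) :=
    charZero_of_injective_algebraMap (algebraMap κ _).injective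
  exact { }

end galois

section UU

set_option linter.unusedSectionVars false

variable {k K : Type u} [Field k] [CharZero k] [Field K] [Algebra k K] {n : ℕ} {f : k[X]} {c : k}
  {x y : K}

theorem F2_toU_algebraMap (c : k) : toU (k := k) (K := K) (algebraMap k K c) =
    algebraMap (kbar k K) (UU k K) (algebraMap k (kbar k K) c) := by
  apply Subtype.ext
  rw [coe_toU, ← IsScalarTower.algebraMap_apply]
  rfl

theorem F2_MM_eq : MM k K = IntermediateField.adjoin (kbar k K) (Set.range (toU (k := k) (K := K))) := by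
  have h1 : KK k K = (IntermediateField.adjoin (kbar k K)
      (Set.range (toU (k := k) (K := K)))).map (UU k K).val := by
    rw [IntermediateField.adjoin_map, ← Set.range_comp]
    rfl
  ext z
  rw [IntermediateField.mem_restrict]
  constructor
  · intro hz
    rw [h1] at hz
    obtain ⟨w, hw, hwz⟩ := hz
    have : w = z := Subtype.ext hwz
    rw [← this]
    exact hw
  · intro hz
    rw [h1]
    exact ⟨z, hz, rfl⟩

/-- An endomorphism of `Ω` which fixes `kbar` and `x` preserves `kbar K`. -/
theorem SuperE.F2_stab_KK (h : SuperE n f c x y)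
    (τ : AlgebraicClosure K →+* AlgebraicClosure K) (hτ : ∀ c : kbar k K, τ c = c)
    (hx : τ (algebraMap K (AlgebraicClosure K) x) = algebraMap K (AlgebraicClosure K) x) :
    ∀ z ∈ KK k K, τ z ∈ KK k K := by
  intro z hz
  let g : AlgebraicClosure K →ₐ[kbar k K] AlgebraicClosure K := { τ with commutes' := hτ }
  exact h.F2_stab_adjoin (algebraMap K (AlgebraicClosure K)) (fun c => by
    rw [← IsScalarTower.algebraMap_apply]; rfl) g hx hz

theorem SuperE.F2_gal_UU (h : SuperE n f c x y) :
    IsGalois (IntermediateField.adjoin (kbar k K) {toU (k := k) (K := K) x}) (UU k K) := by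
  have hc0 : CharZero (kbar k K) := charZero_of_injective_algebraMap (algebraMap k _).injective
  refine h.F2_isGalois_of (toU (k := k) (K := K)) F2_toU_algebraMap (Ω := AlgebraicClosure K) (fun z => rfl) ?_
  intro τ hτ hx u
  have h1 := F2_map_mem_Kur_of_stab τ hτ
    (h.F2_stab_KK (τ : AlgebraicClosure K →+* AlgebraicClosure K) hτ hx)
    ((mem_UU k K).1 u.2)
  exact ⟨⟨_, (mem_UU k K).2 h1⟩, rfl⟩

/-- The embedding of `K` in `kbar K`. -/
noncomputable def F2_toM : K →+* MM k K :=
  (toU (k := k) (K := K)).codRestrict (MM k K).toSubring toU_mem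

theorem F2_coe_toM (c : K) : ((F2_toM (k := k) (K := K) c : MM k K) : UU k K) = toU (k := k) (K := K) c := rfl

theorem F2_toM_algebraMap (c : k) : F2_toM (k := k) (K := K) (algebraMap k K c) =
    algebraMap (kbar k K) (MM k K) (algebraMap k (kbar k K) c) := by
  apply Subtype.ext
  rw [F2_coe_toM, F2_toU_algebraMap]
  rfl

theorem F2_adjoin_range_toM : IntermediateField.adjoin (kbar k K)
    (Set.range (F2_toM (k := k) (K := K))) = ⊤ := by
  rw [eq_top_iff]
  intro z _
  have h1 : (z : UU k K) ∈ IntermediateField.adjoin (kbar k K)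
      (Set.range (toU (k := k) (K := K))) := by
    rw [← F2_MM_eq]; exact z.2
  have h2 : IntermediateField.adjoin (kbar k K) (Set.range (toU (k := k) (K := K))) =
      (IntermediateField.adjoin (kbar k K) (Set.range (F2_toM (k := k) (K := K)))).map
        (MM k K).val := by
    rw [IntermediateField.adjoin_map, ← Set.range_comp]
    rfl
  rw [h2] at h1
  obtain ⟨w, hw, hwz⟩ := h1
  have : w = z := Subtype.ext hwz
  rw [← this]
  exact hw

theorem SuperE.F2_gal_MM (h : SuperE n f c x y) :
    IsGalois (IntermediateField.adjoin (kbar k K) {F2_toM (k := k) (K := K) x}) (MM k K) := by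
  have hc0 : CharZero (kbar k K) := charZero_of_injective_algebraMap (algebraMap k _).injective
  refine h.F2_isGalois_of (F2_toM (k := k) (K := K)) F2_toM_algebraMap (Ω := AlgebraicClosure K) (fun z => rfl) ?_
  intro τ hτ hx u
  have h1 := h.F2_stab_KK (τ : AlgebraicClosure K →+* AlgebraicClosure K) hτ hx
    ((u : UU k K) : AlgebraicClosure K) ((IntermediateField.mem_restrict _ _).1 u.2)
  exact ⟨⟨⟨_, KK_le_UU k K h1⟩, (IntermediateField.mem_restrict _ _).2 h1⟩, rfl⟩

theorem SuperE.F2_tr_Ω (h : SuperE n f c x y) :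
    Transcendental (kbar k K) (algebraMap K (AlgebraicClosure K) x) := by
  intro hal
  have h1 : IsAlgebraic k (algebraMap K (AlgebraicClosure K) x) := hal.restrictScalars k
  exact h.x_tr ((isAlgebraic_algebraMap_iff (algebraMap K (AlgebraicClosure K)).injective).1 h1)

theorem SuperE.F2_tr_UU (h : SuperE n f c x y) : Transcendental (kbar k K) (toU (k := k) (K := K) x) := by
  intro hal
  exact h.F2_tr_Ω (hal.algHom (UU k K).val)

theorem SuperE.F2_tr_MM (h : SuperE n f c x y) : Transcendental (kbar k K) (F2_toM (k := k) (K := K) x) := by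
  intro hal
  exact h.F2_tr_UU (hal.algHom (MM k K).val)

end UU

section unr

variable {k K κ L : Type u} [Field k] [Field K] [Algebra k K] {n : ℕ} {f : k[X]} {c : k} {x y : K}
  [Field κ] [IsAlgClosed κ] [CharZero κ] [Algebra k κ] [Field L] [Algebra κ L] (j : K →+* L)

theorem F2_val_const (P : Place κ L) {a : κ} (ha : a ≠ 0) :
    P.ring.valuation (algebraMap κ L a) = 1 := by
  have h1 : P.ring.valuation (algebraMap κ L a) ≤ 1 :=
    (P.ring.valuation_le_one_iff _).2 (P.algebraMap_mem a)
  have h2 : P.ring.valuation (algebraMap κ L a⁻¹) ≤ 1 :=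
    (P.ring.valuation_le_one_iff _).2 (P.algebraMap_mem _)
  rw [map_inv₀, map_inv₀] at h2
  have h3 : P.ring.valuation (algebraMap κ L a) ≠ 0 := by
    rw [Ne, map_eq_zero, map_eq_zero]; exact ha
  exact le_antisymm h1 ((inv_le_one₀ (zero_lt_iff.2 h3)).1 h2)

theorem F2_val_sub_const (P : Place κ L) (a : κ) (F : κ[X]) (ha : F.eval a ≠ 0) {z : L}
    (hz : z - algebraMap κ L a ∈ P.ring.nonunits) : P.ring.valuation (aeval z F) = 1 := by
  have hzP : z ∈ P.ring := by
    have h1 : z = (z - algebraMap κ L a) + algebraMap κ L a := by ring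
    rw [h1]
    exact P.ring.add_mem _ _ (ValuationSubring.nonunits_subset hz) (P.algebraMap_mem a)
  obtain ⟨q, hq⟩ : X - C a ∣ F - C (F.eval a) := X_sub_C_dvd_sub_C_eval
  have h1 : aeval z F - algebraMap κ L (F.eval a) = (z - algebraMap κ L a) * aeval z q := by
    have h2 := congrArg (aeval z) hq
    simpa using h2
  have hqP : aeval z q ∈ P.ring := by
    rw [aeval_eq_sum_range]
    refine P.ring.sum_mem fun i _ => ?_
    rw [Algebra.smul_def]
    exact P.ring.mul_mem _ _ (P.algebraMap_mem _) (pow_mem hzP i)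
  have h2 : P.ring.valuation (aeval z F - algebraMap κ L (F.eval a)) < 1 := by
    rw [h1, map_mul]
    exact mul_lt_one_of_lt_of_le ((ValuationSubring.mem_nonunits_iff _).1 hz)
      ((P.ring.valuation_le_one_iff _).2 hqP)
  rw [← F2_val_const P ha] at h2
  rw [Valuation.map_eq_of_sub_lt _ h2, F2_val_const P ha]

theorem SuperE.F2_val_y (h : SuperE n f c x y)
    (hj : ∀ c : k, j (algebraMap k K c) = algebraMap κ L (algebraMap k κ c))
    (P : Place κ L) {a : κ} (ha : aeval a f ≠ 0)
    (hP : j x - algebraMap κ L a ∈ P.ring.nonunits) : P.ring.valuation (j y) = 1 := by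
  have h1 : j y ^ n = algebraMap κ L (algebraMap k κ c)⁻¹ *
      aeval (j x) (f.map (algebraMap k κ)) := by
    rw [← map_pow, h.F2_pow_eq, map_mul, map_inv₀, hj, map_inv₀]
    congr 1
    rw [aeval_def, aeval_def, eval₂_map, hom_eval₂]
    congr 1
    ext c
    exact hj c
  have hc : (algebraMap k κ c)⁻¹ ≠ 0 := by
    rw [Ne, inv_eq_zero, map_eq_zero]; exact h.c_ne
  have h2 : P.ring.valuation (j y) ^ n = 1 := by
    rw [← map_pow, h1, map_mul, F2_val_const P hc, F2_val_sub_const P a _ _ hP, one_mul]
    rw [eval_map, ← aeval_def]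
    exact ha
  have hn := h.two_le
  exact (pow_eq_one_iff_of_nonneg zero_le (by omega)).1 h2

theorem SuperE.F2_ord_eq_one (h : SuperE n f c x y)
    (hj : ∀ c : k, j (algebraMap k K c) = algebraMap κ L (algebraMap k κ c))
    (hF : IsFunctionField κ L) (htr : Transcendental κ (j x))
    (htop : IntermediateField.adjoin κ (Set.range j) = ⊤)
    (hgal : IsGalois (IntermediateField.adjoin κ {j x}) L)
    (P : Place κ L) {a : κ} (ha : aeval a f ≠ 0)
    (hP : j x - algebraMap κ L a ∈ P.ring.nonunits) :
    ord P.ring (j x - algebraMap κ L a) = 1 := by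
  have hxA : j x ∈ IntermediateField.adjoin κ {j x} := IntermediateField.subset_adjoin _ _ rfl
  let t : IntermediateField.adjoin κ {j x} := ⟨j x - algebraMap κ L a,
    sub_mem hxA (IntermediateField.algebraMap_mem _ _)⟩
  have ht : IntermediateField.adjoin κ {t} = ⊤ := by
    rw [eq_top_iff]
    intro z _
    have h1 : IntermediateField.adjoin κ {j x} ≤
        (IntermediateField.adjoin κ {t}).map (IntermediateField.adjoin κ {j x}).val := by
      rw [IntermediateField.adjoin_le_iff, Set.singleton_subset_iff]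
      refine ⟨t + algebraMap κ _ a, add_mem (IntermediateField.subset_adjoin _ _ rfl)
        (IntermediateField.algebraMap_mem _ _), ?_⟩
      change (j x - algebraMap κ L a) + algebraMap κ L a = j x
      ring
    obtain ⟨w, hw, hwz⟩ := h1 z.2
    have : w = z := Subtype.ext hwz
    rw [← this]
    exact hw
  have htt : Transcendental κ t := by
    intro hal
    have h1 : IsAlgebraic κ (j x - algebraMap κ L a) :=
      hal.algHom (IntermediateField.adjoin κ {j x}).val
    have h2 : IsAlgebraic κ (j x) := by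
      have := h1.add (isAlgebraic_algebraMap (R := κ) (A := L) a)
      rwa [sub_add_cancel] at this
    exact htr h2
  have hfd : FiniteDimensional (IntermediateField.adjoin κ {j x}) L := hF.finiteDimensional htr
  refine ord_eq_one_local hF ht htt P ?_ hP
  intro σ hσ
  let g : L →ₐ[κ] L := ((σ : L →ₐ[IntermediateField.adjoin κ {j x}] L).restrictScalars κ)
  have hgσ : ∀ z, g z = σ z := fun z => rfl
  have hgx : g (j x) = j x :=
    σ.commutes (⟨j x, hxA⟩ : IntermediateField.adjoin κ {j x})
  obtain ⟨ζ, hζ⟩ := h.F2_exists_root_of_unity j hj g hgx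
  have hvy := h.F2_val_y j hj P ha hP
  have hyP : j y ∈ P.ring := (P.ring.valuation_le_one_iff _).1 hvy.le
  obtain ⟨c0, hc0⟩ := FF.exists_residue hF P hyP
  have hnon : ∀ z, z ∈ P.ring.nonunits → g z ∈ P.ring.nonunits := by
    intro z hz
    rw [ValuationSubring.mem_nonunits_iff_or] at hz ⊢
    rcases hz with hz | hz
    · left; rw [hz, map_zero]
    · right
      rw [← map_inv₀, hgσ, hσ]
      exact hz
  have h1 := hnon _ hc0
  rw [map_sub, AlgHom.commutes, hζ] at h1
  have h2 : P.ring.valuation (algebraMap κ L (ζ - 1) * j y) < 1 := by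
    have e : algebraMap κ L (ζ - 1) * j y = (algebraMap κ L ζ * j y - algebraMap κ L c0) -
        (j y - algebraMap κ L c0) := by
      rw [map_sub, map_one]; ring
    rw [e]
    exact (Valuation.map_sub _ _ _).trans_lt (max_lt ((ValuationSubring.mem_nonunits_iff _).1 h1)
      ((ValuationSubring.mem_nonunits_iff _).1 hc0))
  have hζ1 : ζ = 1 := by
    by_contra hne
    rw [map_mul, hvy, F2_val_const P (sub_ne_zero.2 hne), one_mul] at h2
    exact lt_irrefl _ h2
  have hgy : g (j y) = j y := by rw [hζ, hζ1, map_one, one_mul]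
  ext z
  have h3 : z ∈ IntermediateField.adjoin κ (Set.range j) := by
    rw [htop]; exact IntermediateField.mem_top
  exact h.F2_fix_adjoin j hj g hgx hgy h3

theorem F2_val_eq_zpow (hF : IsFunctionField κ L) (P : Place κ L) {t : L} (ht0 : t ≠ 0)
    (ht : ord P.ring t = 1) {m : L} (hm : m ≠ 0) :
    ∃ i : ℤ, P.ring.valuation m = P.ring.valuation t ^ i := by
  refine ⟨ord P.ring m, ?_⟩
  have h0 : m / t ^ ord P.ring m ≠ 0 := div_ne_zero hm (zpow_ne_zero _ ht0)
  have h1 : ord P.ring (m / t ^ ord P.ring m) = 0 := by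
    rw [div_eq_mul_inv, ← zpow_neg, FF.ord_mul hF P hm (zpow_ne_zero _ ht0), FF.ord_zpow hF P ht0,
      ht]
    ring
  have h2 : m / t ^ ord P.ring m ∈ P.ring := by
    rw [← FF.ord_nonneg_iff hF P h0, h1]
  have h3 : (m / t ^ ord P.ring m)⁻¹ ∈ P.ring := by
    rw [← FF.ord_nonneg_iff hF P (inv_ne_zero h0), FF.ord_inv hF P h0, h1]
    simp
  rw [← ValuationSubring.valuation_le_one_iff] at h2 h3
  rw [map_inv₀] at h3
  have h4 : P.ring.valuation (m / t ^ ord P.ring m) ≠ 0 := by
    rw [Ne, map_eq_zero]; exact h0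
  have h5 : P.ring.valuation (m / t ^ ord P.ring m) = 1 :=
    le_antisymm h2 ((inv_le_one₀ (zero_lt_iff.2 h4)).1 h3)
  rw [map_div₀, map_zpow₀] at h5
  have h6 : P.ring.valuation t ≠ 0 := by
    rw [Ne, map_eq_zero]; exact ht0
  exact (div_eq_one_iff_eq (zpow_ne_zero _ h6)).1 h5

theorem SuperE.F2_unr_gen (h : SuperE n f c x y) {U : Type u} [Field U] [Algebra κ U]
    (M : IntermediateField κ U) (j : K →+* M)
    (hj : ∀ c : k, j (algebraMap k K c) = algebraMap κ M (algebraMap k κ c))
    (hcov : IsCover M) (htr : Transcendental κ (j x))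
    (htop : IntermediateField.adjoin κ (Set.range j) = ⊤)
    (hgal : IsGalois (IntermediateField.adjoin κ {j x}) M)
    (P : ValuationSubring U) (hPc : ∀ c : κ, algebraMap κ U c ∈ P) {a : κ}
    (ha : aeval a f ≠ 0) (hP : (j x : U) - algebraMap κ U a ∈ P.nonunits)
    {u : U} (hu : u ≠ 0) : ∃ i : ℤ, P.valuation u =
      P.valuation ((j x : U) - algebraMap κ U a) ^ i := by
  let i : M →+* U := algebraMap M U
  have hjx : i (j x - algebraMap κ M a) = (j x : U) - algebraMap κ U a := rfl
  have ht0 : j x - algebraMap κ M a ≠ 0 := by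
    intro h0
    rw [sub_eq_zero] at h0
    exact htr (h0 ▸ isAlgebraic_algebraMap a)
  have hx0 : (j x : U) - algebraMap κ U a ≠ 0 := by
    rw [← hjx, Ne, map_eq_zero]
    exact ht0
  let P' : Place κ M :=
    { ring := P.comap i
      algebraMap_mem := fun c => hPc c
      ne_top := by
        intro htop
        have h1 : (j x - algebraMap κ M a)⁻¹ ∈ P.comap i := by
          rw [htop]; trivial
        rw [ValuationSubring.mem_comap, map_inv₀, hjx] at h1
        rw [ValuationSubring.mem_nonunits_iff_or] at hP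
        rcases hP with hP | hP
        · exact hx0 hP
        · exact hP h1 }
  have hP' : j x - algebraMap κ M a ∈ P'.ring.nonunits := by
    rw [ValuationSubring.mem_nonunits_iff_or] at hP ⊢
    rcases hP with hP | hP
    · exact absurd hP hx0
    · right
      intro h1
      have h2 : i ((j x - algebraMap κ M a)⁻¹) ∈ P := h1
      rw [map_inv₀, hjx] at h2
      exact hP h2
  have hord := h.F2_ord_eq_one j hj hcov.ff htr htop hgal P' ha hP'
  obtain ⟨m, hm, hum⟩ := hcov.unr P hPc u
  have hm0 : m ≠ 0 := by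
    intro h0
    rw [h0, map_zero, map_eq_zero] at hum
    exact hu hum
  have hm0' : (⟨m, hm⟩ : M) ≠ 0 := fun h0 => hm0 (congrArg Subtype.val h0)
  obtain ⟨r, hr⟩ := F2_val_eq_zpow hcov.ff P' ht0 hord hm0'
  refine ⟨r, ?_⟩
  rw [← map_zpow₀] at hr
  have h1 := val_map_eq i (W := P'.ring) (V := P) (fun _ => Iff.rfl) hr
  rw [map_zpow₀, map_zpow₀, hjx] at h1
  rw [hum]
  exact h1

end unr

section final

variable {k K : Type u} [Field k] [CharZero k] [Field K] [Algebra k K] {n : ℕ} {f : k[X]} {c : k}
  {x y : K}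

set_option linter.unusedSectionVars false

theorem SuperE.F2_unr_UU (h : SuperE n f c x y) (P : ValuationSubring (UU k K))
    (hPc : ∀ c : kbar k K, algebraMap (kbar k K) (UU k K) c ∈ P) {a : kbar k K}
    (ha : aeval a f ≠ 0) (hP : toU (k := k) (K := K) x - algebraMap (kbar k K) (UU k K) a ∈ P.nonunits)
    {u : UU k K} (hu : u ≠ 0) : ∃ i : ℤ, P.valuation u =
      P.valuation (toU (k := k) (K := K) x - algebraMap (kbar k K) (UU k K) a) ^ i := by
  have hc0 : CharZero (kbar k K) := charZero_of_injective_algebraMap (algebraMap k _).injective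
  exact h.F2_unr_gen (MM k K) (F2_toM (k := k) (K := K)) F2_toM_algebraMap (isCover_UU h.isFunctionField) h.F2_tr_MM
    F2_adjoin_range_toM h.F2_gal_MM P hPc ha hP hu

end final

variable {k₁ k K : Type u} [Field k₁] [CharZero k₁] [Field k] [Field K] [Algebra k₁ k]
  [Algebra k K] [Algebra k₁ K] [IsScalarTower k₁ k K]
  {n : ℕ} {f : k[X]} {c : k} {x y : K}

theorem SuperE.usetup (h : SuperE n f c x y) {W : ValuationSubring (kbar k K)} {t' : kbar k K}
    (hb : Base (algebraicClosure k₁ (kbar k K)) W t') (hf : GoodRed W f) :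
    USetup (algebraicClosure k₁ (kbar k K)) W t' (rootsB K f) (MM k K) (toU (k := k) (K := K) x) := by
  classical
  have hck : CharZero k := charZero_of_injective_algebraMap (algebraMap k₁ k).injective
  have hf0 : f ≠ 0 := by
    intro h2
    have := h.deg
    rw [h2] at this
    simp at this
  have hroots : ∀ b, b ∈ rootsB K f ↔ aeval b f = 0 := by
    intro b
    rw [rootsB, Multiset.mem_toFinset, mem_roots', IsRoot.def, eval_map, aeval_def]
    constructor
    · exact fun h => h.2
    · exact fun h => ⟨Polynomial.map_ne_zero hf0, h⟩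
  have hdeg := h.deg
  refine ⟨hb, isCover_UU h.isFunctionField, toU_mem x, h.F2_tr_UU, h.F2_gal_UU, ?_, ?_, ?_, ?_⟩
  · intro g hg m hm
    rw [F2_MM_eq] at hm ⊢
    exact h.F2_stab_adjoin (toU (k := k) (K := K)) F2_toU_algebraMap (g : UU k K →ₐ[kbar k K] UU k K) hg hm
  · intro b hb
    exact F2_root_mem_of_lead hf.mem hf.lead hf0 ((hroots b).1 hb)
  · intro b hb b' hb' hne
    exact F2_root_diff_of_disc hf.mem hf.lead hf.disc (by omega) ((hroots b).1 hb)
      ((hroots b').1 hb') hne
  · intro P hPc a ha hP u hu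
    exact h.F2_unr_UU P hPc (fun h0 => ha ((hroots a).2 h0)) hP hu

end Pool.Agent.LT
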