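import Pool.Agent.Helper13.LT.Defs2
import Pool.Agent.SC.W1

/-!
# Actions with Frobenius elements: definitions
-/

universe u

namespace Pool.Agent.LT

open VC Polynomial Pool.Agent.SC

/-- The group `Γ` acts on `U` (by `a`) and on the constants `K` (by `φ`), fixing `x`.  The subgroup
`D` preserves the valuation ring `O` of `K`, the subgroup `I` is normal in `D` and acts trivially
on the residue field of `O`, `D` contains Frobenius elements, and `D` acts on `I` through the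
cyclotomic character. -/
structure LocAct (E : Type u) {K U Γ : Type u} [Field E] [Field K] [Algebra E K] [Field U]
    [Algebra K U] [Group Γ] (O : ValuationSubring K) (M : IntermediateField K U) (x : U)
    (a : Γ →* (U ≃+* U)) (φ : Γ →* (K ≃+* K)) (D I : Subgroup Γ) : Prop where
  ext : ∀ γ c, a γ (algebraMap K U c) = algebraMap K U (φ γ c)
  x_eq : ∀ γ, a γ x = x
  stab : ∀ γ, ∀ m ∈ M, a γ m ∈ M
  const : ∀ (γ : Γ) (e : E), ∃ e' : E, φ γ (algebraMap E K e) = algebraMap E K e'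
  dec : ∀ γ ∈ D, ∀ c, φ γ c ∈ O ↔ c ∈ O
  le : I ≤ D
  normal : ∀ γ ∈ D, ∀ τ ∈ I, γ * τ * γ⁻¹ ∈ I
  inert : ∀ τ ∈ I, ∀ c ∈ O, φ τ c - c ∈ O.nonunits
  frob : ∀ (Z : Finset U) (S : Finset E), (∀ s ∈ S, s ≠ 0) → ∃ γ ∈ D, (∀ z ∈ Z, a γ z = z) ∧
    ∃ (A : ValuationSubring E) (σ : E ≃+* E) (p f : ℕ), IsFrobAt A σ p f ∧
      (∀ e, φ γ (algebraMap E K e) = algebraMap E K (σ e)) ∧ ∀ s ∈ S, A.valuation s = 1
  cycl : ∀ γ ∈ D, ∀ τ ∈ I, ∀ (z : U) (m : ℕ), m ≠ 0 → ∃ j : ℕ,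
    (∀ ζ : K, ζ ^ m = 1 → φ γ ζ = ζ ^ j) ∧ a (γ * τ * γ⁻¹) z = a (τ ^ j) z

end Pool.Agent.LT
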