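import Pool.Agent.Helper13.LT.F0
import Pool.Agent.Helper13.LT.F1
import Pool.Agent.Helper13.LT.F2
import Pool.Agent.SC.G6
import Pool.Agent.Helper17.FF.PicDiv

/-!
# Block F3: uniqueness of the fixed place

`SC.fixed_unique` (SC/G6) with `M = MM`, `PicDiv` from `FF.picDiv`.  The three places of `MM`
fixed by `g`: `g y = ζ y`; `f` has at least three roots `b` in `kbar` and over `x = b` there is
exactly one place of `MM` (`y^n = (x - b) · unit`: the valuation rings above `x = b` are conjugate
under `y ↦ ζ y`, and `ord(y) · n = ord(x - b)` forces total ramification), so it is fixed by `g`.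
-/

universe u

namespace Pool.Agent.LT

open VC Polynomial Pool.Agent.SC Pool.Agent.Helper91.Sect

variable {k K : Type u} [Field k] [CharZero k] [Field K] [Algebra k K]
  {n : ℕ} {f : k[X]} {c : k} {x y : K}

section F3gen

open IntermediateField

variable {E N : Type*} [Field E] [Field N] [Algebra E N]

/-- sums of terms with distinct values -/
private theorem f3_sum {Γ : Type*} [LinearOrderedCommGroupWithZero Γ] (v : Valuation N Γ)
    (a b : ℕ → N) (hab : ∀ i, v (a i) = v (b i))
    (s : Finset ℕ) (hd : ∀ i ∈ s, ∀ j ∈ s, i ≠ j → a i ≠ 0 → a j ≠ 0 → v (a i) ≠ v (a j)) :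
    v (∑ i ∈ s, a i) = v (∑ i ∈ s, b i) ∧ (v (∑ i ∈ s, a i) = 0 ∨
      ∃ j ∈ s, a j ≠ 0 ∧ v (∑ i ∈ s, a i) = v (a j)) := by
  classical
  induction s using Finset.induction_on with
  | empty => simp
  | insert i s his ih =>
    obtain ⟨h1, h2⟩ := ih fun i hi j hj => hd i (Finset.mem_insert_of_mem hi) j
      (Finset.mem_insert_of_mem hj)
    rw [Finset.sum_insert his, Finset.sum_insert his]
    by_cases h0 : a i = 0
    · have h0' : b i = 0 := by
        have := hab i
        rw [h0, map_zero] at this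
        exact (Valuation.zero_iff v).1 this.symm
      rw [h0, h0', zero_add, zero_add]
      refine ⟨h1, ?_⟩
      rcases h2 with h2 | ⟨j, hj, h3, h4⟩
      · exact Or.inl h2
      · exact Or.inr ⟨j, Finset.mem_insert_of_mem hj, h3, h4⟩
    · have hne : v (a i) ≠ v (∑ i ∈ s, a i) := by
        rcases h2 with h2 | ⟨j, hj, h3, h4⟩
        · rw [h2]
          exact (Valuation.ne_zero_iff v).2 h0
        · rw [h4]
          exact hd i (Finset.mem_insert_self _ _) j (Finset.mem_insert_of_mem hj)
            (by rintro rfl; exact his hj) h0 h3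
      have hne' : v (b i) ≠ v (∑ i ∈ s, b i) := by rw [← h1, ← hab]; exact hne
      rw [Valuation.map_add_of_distinct_val v hne, Valuation.map_add_of_distinct_val v hne',
        ← h1, ← hab]
      refine ⟨rfl, ?_⟩
      rcases max_choice (v (a i)) (v (∑ i ∈ s, a i)) with h | h
      · exact Or.inr ⟨i, Finset.mem_insert_self _ _, h0, h⟩
      · rw [h]
        rcases h2 with h2 | ⟨j, hj, h3, h4⟩
        · exact Or.inl h2
        · exact Or.inr ⟨j, Finset.mem_insert_of_mem hj, h3, h4⟩

/-- nonzero constants are units -/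
private theorem f3_const (R : ValuationSubring N) (hR : ∀ c : E, algebraMap E N c ∈ R) {c : E}
    (hc : c ≠ 0) : R.valuation (algebraMap E N c) = 1 := by
  have h0 : R.valuation (algebraMap E N c) ≠ 0 :=
    (Valuation.ne_zero_iff _).2 ((_root_.map_ne_zero _).2 hc)
  apply le_antisymm
  · rw [R.valuation_le_one_iff]
    exact hR c
  · have h1 : R.valuation (algebraMap E N c⁻¹) ≤ 1 := by
      rw [R.valuation_le_one_iff]
      exact hR _
    rw [map_inv₀, map_inv₀] at h1
    exact (inv_le_one₀ (zero_lt_iff.2 h0)).1 h1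

/-- values of polynomials which do not vanish at the point -/
private theorem f3_unit (R : ValuationSubring N) (hR : ∀ c : E, algebraMap E N c ∈ R) {x : N}
    {b : E} (hx : R.valuation (x - algebraMap E N b) < 1) {q : E[X]} (hq : q.eval b ≠ 0) :
    R.valuation (aeval x q) = 1 := by
  have hxR : x ∈ R := by
    have h1 : x = (x - algebraMap E N b) + algebraMap E N b := by ring
    rw [h1]
    exact R.add_mem _ _ ((R.valuation_le_one_iff _).1 hx.le) (hR b)
  have hA : ∀ p : E[X], R.valuation (aeval x p) ≤ 1 := by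
    intro p
    rw [R.valuation_le_one_iff]
    induction p using Polynomial.induction_on' with
    | add p q hp hq => rw [map_add]; exact R.add_mem _ _ hp hq
    | monomial n a =>
      rw [Polynomial.aeval_monomial]
      exact R.mul_mem _ _ (hR a) (pow_mem hxR n)
  obtain ⟨r, hr⟩ : (X - C b) ∣ q - C (q.eval b) := by
    rw [Polynomial.dvd_iff_isRoot]
    simp
  have h1 : aeval x q = algebraMap E N (q.eval b) + (x - algebraMap E N b) * aeval x r := by
    have h2 := congrArg (aeval x) hr
    rw [map_sub, map_mul, map_sub, aeval_X, aeval_C, aeval_C] at h2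
    rw [← h2]; ring
  have h3 : R.valuation ((x - algebraMap E N b) * aeval x r) < 1 := by
    rw [map_mul]
    calc _ ≤ R.valuation (x - algebraMap E N b) * 1 := by gcongr; exact hA r
      _ < 1 := by rwa [mul_one]
  rw [h1, Valuation.map_add_of_distinct_val _ (by rw [f3_const R hR hq]; exact h3.ne'),
    f3_const R hR hq, max_eq_left h3.le]

/-- values of rational functions of `x` -/
private theorem f3_rat (R : ValuationSubring N) (hR : ∀ c : E, algebraMap E N c ∈ R) {x : N}
    {b : E} (hx : R.valuation (x - algebraMap E N b) < 1) {z : N} (hz : z ∈ adjoin E {x})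
    (hz0 : z ≠ 0) : ∃ m : ℤ, R.valuation z = R.valuation (x - algebraMap E N b) ^ m := by
  obtain ⟨r, s, rfl⟩ := IntermediateField.mem_adjoin_simple_iff E z |>.1 hz
  have key : ∀ p : E[X], aeval x p ≠ 0 → ∃ m : ℕ,
      R.valuation (aeval x p) = R.valuation (x - algebraMap E N b) ^ m := by
    intro p hp
    have hp0 : p ≠ 0 := by rintro rfl; exact hp (map_zero _)
    obtain ⟨q, hq1, hq2⟩ := Polynomial.exists_eq_pow_rootMultiplicity_mul_and_not_dvd p hp0 b
    refine ⟨p.rootMultiplicity b, ?_⟩
    have hqb : q.eval b ≠ 0 := fun h => hq2 ((Polynomial.dvd_iff_isRoot).2 h)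
    have h1 := congrArg (aeval x) hq1
    rw [map_mul, map_pow, map_sub, aeval_X, aeval_C] at h1
    rw [h1, map_mul, map_pow, f3_unit R hR hx hqb, mul_one]
  rw [div_ne_zero_iff] at hz0
  obtain ⟨m, hm⟩ := key r hz0.1
  obtain ⟨m', hm'⟩ := key s hz0.2
  have hγ : R.valuation (x - algebraMap E N b) ≠ 0 ∨ (m' = 0) := by
    by_contra hcon
    push Not at hcon
    rw [hcon.1, zero_pow hcon.2] at hm'
    exact (Valuation.ne_zero_iff _).2 hz0.2 hm'
  rcases hγ with hγ | hγ
  · refine ⟨m - m', ?_⟩
    rw [map_div₀, hm, hm', zpow_sub₀ hγ, zpow_natCast, zpow_natCast]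
  · refine ⟨m, ?_⟩
    rw [map_div₀, hm, hm', hγ, pow_zero, div_one, zpow_natCast]

/-- `N = E(x, y)` with `y ^ n ∈ E(x)`: elements are polynomials in `y` of degree `< n` -/
private theorem f3_repr {n : ℕ} (hn : 0 < n) {x y d : N} (hd : d ∈ adjoin E {x}) (hy : y ^ n = d)
    (hgen : adjoin E {x, y} = ⊤) (z : N) : ∃ a : ℕ → N, (∀ i, a i ∈ adjoin E {x}) ∧
      z = ∑ i ∈ Finset.range n, a i * y ^ i := by
  let L : IntermediateField E N := adjoin E {x}
  let q : L[X] := X ^ n - C ⟨d, hd⟩
  have hqm : q.Monic := monic_X_pow_sub_C _ hn.ne'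
  have hqy : aeval y q = 0 := by
    change aeval y (X ^ n - C (⟨d, hd⟩ : L)) = 0
    rw [map_sub, map_pow, aeval_X, aeval_C, hy]
    exact sub_self _
  have hint : IsIntegral L y := ⟨q, hqm, by rwa [← aeval_def]⟩
  have h1 : (adjoin L {y}).restrictScalars E = adjoin E ({x} ∪ {y}) :=
    adjoin_adjoin_left E {x} {y}
  have h2 : z ∈ adjoin L {y} := by
    have h3 : z ∈ (adjoin L {y}).restrictScalars E := by
      rw [h1, Set.singleton_union, hgen]
      trivial
    exact h3
  have h4 : z ∈ Algebra.adjoin L {y} := by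
    rw [← IntermediateField.adjoin_simple_toSubalgebra_of_isAlgebraic hint.isAlgebraic]
    exact h2
  rw [Algebra.adjoin_singleton_eq_range_aeval] at h4
  obtain ⟨p, hp⟩ := h4
  refine ⟨fun i => ((p %ₘ q).coeff i : N), fun i => ((p %ₘ q).coeff i).2, ?_⟩
  have h5 : aeval y (p %ₘ q) = z := by
    have h6 := congrArg (aeval y) (modByMonic_add_div p q)
    rw [map_add, map_mul, hqy, zero_mul, add_zero] at h6
    rw [h6]
    exact hp
  have hdeg : (p %ₘ q).natDegree < n := by
    have h7 : q.natDegree = n := natDegree_X_pow_sub_C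
    have h8 := natDegree_modByMonic_lt p hqm (by
      intro h
      rw [h, natDegree_one] at h7
      omega)
    omega
  rw [← h5, Polynomial.aeval_eq_sum_range' hdeg]
  exact Finset.sum_congr rfl fun i _ => Algebra.smul_def _ _

/-- total ramification: places over a simple root are stable -/
private theorem f3_stable {n : ℕ} (hn : 0 < n) {x y : N} {c : E} (hc : c ≠ 0) {f : E[X]} {b : E}
    (hf : f.eval b = 0) (hf' : f.derivative.eval b ≠ 0) (hxy : algebraMap E N c * y ^ n = aeval x f)
    (hgen : adjoin E {x, y} = ⊤) (R : ValuationSubring N) (hR : ∀ c : E, algebraMap E N c ∈ R)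
    (hx0 : x - algebraMap E N b ≠ 0)
    (hx : R.valuation (x - algebraMap E N b) < 1) (τ : N →ₐ[E] N) (hτx : τ x = x) {ζ : E}
    (hζ : ζ ≠ 0) (hτy : τ y = algebraMap E N ζ * y) (z : N) : z ∈ R ↔ τ z ∈ R := by
  set γ := R.valuation (x - algebraMap E N b) with hγ
  have hγ0 : γ ≠ 0 := (Valuation.ne_zero_iff _).2 hx0
  obtain ⟨q, hq⟩ := (Polynomial.dvd_iff_isRoot (p := f) (a := b)).2 hf
  have hqb : q.eval b ≠ 0 := by
    rw [hq] at hf'
    simpa [derivative_mul] using hf'
  have hyn : R.valuation y ^ n = γ := by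
    have h1 := congrArg R.valuation hxy
    rw [hq, map_mul, map_mul, map_mul, map_sub, aeval_X, aeval_C, f3_const R hR hc,
      f3_unit R hR hx hqb, one_mul, mul_one, map_pow] at h1
    exact h1
  have hη0 : R.valuation y ≠ 0 := by
    intro h
    rw [h, zero_pow hn.ne'] at hyn
    exact hγ0 hyn.symm
  have hη1 : R.valuation y < 1 := by
    by_contra hcon
    push Not at hcon
    have h1 := one_le_pow₀ (n := n) hcon
    rw [hyn] at h1
    exact absurd hx (not_lt.2 h1)
  have hd : y ^ n = algebraMap E N c⁻¹ * aeval x f := by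
    rw [← hxy, ← mul_assoc, ← map_mul, inv_mul_cancel₀ hc, map_one, one_mul]
  have hdm : algebraMap E N c⁻¹ * aeval x f ∈ adjoin E {x} := by
    refine mul_mem ((adjoin E {x}).algebraMap_mem _) ?_
    exact IntermediateField.algebra_adjoin_le_adjoin E {x} (Polynomial.aeval_mem_adjoin_singleton E x)
  obtain ⟨a, ha, hz⟩ := f3_repr hn hdm hd hgen z
  have hτa : ∀ w ∈ adjoin E {x}, τ w = w := by
    intro w hw
    obtain ⟨r, s, rfl⟩ := IntermediateField.mem_adjoin_simple_iff E w |>.1 hw
    rw [map_div₀, ← Polynomial.aeval_algHom_apply, ← Polynomial.aeval_algHom_apply, hτx]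
  have hτz : τ z = ∑ i ∈ Finset.range n, a i * (algebraMap E N ζ * y) ^ i := by
    rw [hz, map_sum]
    refine Finset.sum_congr rfl fun i _ => ?_
    rw [map_mul, map_pow, hτa _ (ha i), hτy]
  have hkey := (f3_sum R.valuation (fun i => a i * y ^ i)
    (fun i => a i * (algebraMap E N ζ * y) ^ i) (by
      intro i
      simp only [map_mul, map_pow, f3_const R hR hζ, one_mul]) (Finset.range n) (by
      intro i hi j hj hij hai haj heq
      rw [Finset.mem_range] at hi hj
      rw [mul_ne_zero_iff] at hai haj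
      obtain ⟨m, hm⟩ := f3_rat R hR hx (ha i) hai.1
      obtain ⟨m', hm'⟩ := f3_rat R hR hx (ha j) haj.1
      rw [map_mul, map_mul, map_pow, map_pow, hm, hm', ← hγ, ← hyn, ← zpow_natCast, ← zpow_natCast,
        ← zpow_natCast, ← zpow_mul, ← zpow_mul, ← zpow_add₀ hη0, ← zpow_add₀ hη0] at heq
      have h1 := zpow_right_injective₀ (zero_lt_iff.2 hη0) hη1.ne heq
      have h2 : ((n : ℤ) ∣ (i : ℤ) - j) := ⟨m' - m, by linarith [mul_sub (n : ℤ) m' m]⟩
      have h3 := Int.eq_zero_of_abs_lt_dvd h2 (by rw [abs_lt]; constructor <;> omega)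
      omega)).1
  rw [← R.valuation_le_one_iff, ← R.valuation_le_one_iff, hτz, ← hkey, ← hz]

end F3gen

/-- `x` as an element of `MM` -/
private noncomputable abbrev f3x (k : Type u) {K : Type u} [Field k] [Field K] [Algebra k K] (x : K) : MM k K :=
  ⟨toU (k := k) (K := K) x, toU_mem x⟩

private noncomputable abbrev f3j (k K : Type u) [Field k] [Field K] [Algebra k K] :
    MM k K →ₐ[kbar k K] AlgebraicClosure K := (UU k K).val.comp (MM k K).val

omit [CharZero k] in
private theorem f3_j (x : K) : f3j k K (f3x k x) = algebraMap K (AlgebraicClosure K) x := rfl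

omit [CharZero k] in
private theorem f3_trK (h : SuperE n f c x y) :
    Transcendental (kbar k K) (algebraMap K (AlgebraicClosure K) x) := by
  intro halg
  have h1 : IsAlgebraic k (algebraMap K (AlgebraicClosure K) x) := halg.restrictScalars k
  exact h.x_tr ((isAlgebraic_algebraMap_iff (algebraMap K (AlgebraicClosure K)).injective).1 h1)

omit [CharZero k] in
private theorem f3_tr (h : SuperE n f c x y) : Transcendental (kbar k K) (f3x k x) := by
  intro halg
  apply f3_trK h
  rw [← f3_j (k := k)]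
  exact halg.algHom (f3j k K)

omit [CharZero k] in
private theorem f3_eq (h : SuperE n f c x y) :
    algebraMap (kbar k K) (MM k K) (algebraMap k (kbar k K) c) * f3x k y ^ n =
      aeval (f3x k x) (f.map (algebraMap k (kbar k K))) := by
  apply (f3j k K).injective
  have e1 : (f3j k K) (aeval (f3x k x) (f.map (algebraMap k (kbar k K)))) =
      aeval (algebraMap K (AlgebraicClosure K) x) (f.map (algebraMap k (kbar k K))) := by
    rw [← f3_j (k := k) x, Polynomial.aeval_algHom_apply]
  have e2 : (f3j k K) (algebraMap (kbar k K) (MM k K) (algebraMap k (kbar k K) c) * f3x k y ^ n) =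
      algebraMap (kbar k K) (AlgebraicClosure K) (algebraMap k (kbar k K) c) *
        (algebraMap K (AlgebraicClosure K) y) ^ n := by
    rw [map_mul, map_pow, AlgHom.commutes, f3_j]
  have h1 := congrArg (algebraMap K (AlgebraicClosure K)) h.eq
  rw [map_mul, map_pow, ← Polynomial.aeval_algebraMap_apply, ← IsScalarTower.algebraMap_apply] at h1
  refine e2.trans (Eq.trans ?_ e1.symm)
  rw [Polynomial.aeval_map_algebraMap, ← h1, ← IsScalarTower.algebraMap_apply]

omit [CharZero k] in
private theorem f3_gen (h : SuperE n f c x y) :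
    IntermediateField.adjoin (kbar k K) {f3x k x, f3x k y} = ⊤ := by
  rw [eq_top_iff]
  intro z _
  have h1 : (f3j k K z) ∈ KK k K := (IntermediateField.mem_restrict (KK_le_UU k K) _).1 z.2
  have h2 : KK k K ≤ IntermediateField.adjoin (kbar k K)
      {algebraMap K (AlgebraicClosure K) x, algebraMap K (AlgebraicClosure K) y} := by
    refine IntermediateField.adjoin_le_iff.2 ?_
    rintro _ ⟨w, rfl⟩
    have h3 : w ∈ IntermediateField.adjoin k {x, y} := by rw [h.gen]; trivial
    have h4 : (IsScalarTower.toAlgHom k K (AlgebraicClosure K)) w ∈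
        (IntermediateField.adjoin k {x, y}).map (IsScalarTower.toAlgHom k K (AlgebraicClosure K)) :=
      ⟨w, h3, rfl⟩
    rw [IntermediateField.adjoin_map, Set.image_pair] at h4
    have h5 : IntermediateField.adjoin k
        {algebraMap K (AlgebraicClosure K) x, algebraMap K (AlgebraicClosure K) y} ≤
        (IntermediateField.adjoin (kbar k K) {algebraMap K (AlgebraicClosure K) x,
          algebraMap K (AlgebraicClosure K) y}).restrictScalars k :=
      IntermediateField.adjoin_le_iff.2 fun u hu =>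
        IntermediateField.subset_adjoin (kbar k K) _ hu
    exact h5 h4
  have h6 := h2 h1
  have h7 : IntermediateField.adjoin (kbar k K) {algebraMap K (AlgebraicClosure K) x,
      algebraMap K (AlgebraicClosure K) y} =
      (IntermediateField.adjoin (kbar k K) {f3x k x, f3x k y}).map (f3j k K) := by
    rw [IntermediateField.adjoin_map, Set.image_pair, f3_j, f3_j]
  rw [h7] at h6
  obtain ⟨w, hw, hwz⟩ := h6
  rwa [← (f3j k K).injective hwz]

omit [CharZero k] in
private theorem f3_fne (h : SuperE n f c x y) : f.map (algebraMap k (kbar k K)) ≠ 0 :=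
  (Polynomial.map_ne_zero_iff (algebraMap k (kbar k K)).injective).2 (by
    rintro rfl
    have := h.deg
    simp at this)

omit [CharZero k] in
private theorem f3_y0 (h : SuperE n f c x y) : (toU (k := k) (K := K) y : UU k K) ≠ 0 := by
  intro h0
  have h1 : f3x k y = 0 := Subtype.ext h0
  have h2 := f3_eq h
  rw [h1, zero_pow (by have := h.two_le; omega), mul_zero] at h2
  exact f3_tr h ⟨_, f3_fne h, h2.symm⟩

private theorem f3_zeta (h : SuperE n f c x y) (g : UU k K →ₐ[kbar k K] UU k K)
    (hgx : g (toU (k := k) (K := K) x) = toU (k := k) (K := K) x) :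
    ∃ ζ : kbar k K, ζ ≠ 0 ∧ g (toU (k := k) (K := K) y) = algebraMap (kbar k K) (UU k K) ζ * toU (k := k) (K := K) y := by
  have hn : 0 < n := lt_of_lt_of_le two_pos h.two_le
  have hxyU : algebraMap (kbar k K) (UU k K) (algebraMap k (kbar k K) c) * (toU (k := k) (K := K) y) ^ n =
      aeval (toU (k := k) (K := K) x : UU k K) (f.map (algebraMap k (kbar k K))) := by
    have h1 : (MM k K).val _ = (MM k K).val _ := congrArg (fun z => (MM k K).val z) (f3_eq h)
    rw [map_mul, map_pow] at h1
    rw [← Polynomial.aeval_algHom_apply] at h1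
    exact h1
  have hcU0 : algebraMap (kbar k K) (UU k K) (algebraMap k (kbar k K) c) ≠ 0 :=
    (_root_.map_ne_zero _).2 ((_root_.map_ne_zero _).2 h.c_ne)
  have h1' : algebraMap (kbar k K) (UU k K) (algebraMap k (kbar k K) c) * g (toU (k := k) (K := K) y) ^ n =
      aeval (toU (k := k) (K := K) x : UU k K) (f.map (algebraMap k (kbar k K))) := by
    have h2 : g _ = g _ := congrArg (fun z => g z) hxyU
    rw [map_mul, map_pow, g.commutes, ← Polynomial.aeval_algHom_apply, hgx] at h2
    exact h2
  rw [← hxyU] at h1'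
  have h2 : g (toU (k := k) (K := K) y) ^ n = (toU (k := k) (K := K) y) ^ n := mul_left_cancel₀ hcU0 h1'
  have hyU0 := f3_y0 h
  have h3 : (g (toU (k := k) (K := K) y) / toU (k := k) (K := K) y) ^ n = 1 := by
    rw [div_pow, h2, div_self (pow_ne_zero _ hyU0)]
  have hint : IsIntegral (kbar k K) (g (toU (k := k) (K := K) y) / toU (k := k) (K := K) y) :=
    IsIntegral.of_pow hn (by rw [h3]; exact isIntegral_one)
  have hdeg := IsAlgClosed.degree_eq_one_of_irreducible (kbar k K) (minpoly.irreducible hint)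
  obtain ⟨ζ, hζ⟩ := minpoly.mem_range_of_degree_eq_one (kbar k K) _ hdeg
  refine ⟨ζ, ?_, ?_⟩
  · rintro rfl
    rw [map_zero] at hζ
    rw [← hζ, zero_pow hn.ne'] at h3
    exact zero_ne_one h3
  · rw [hζ, div_mul_cancel₀ _ hyU0]

private theorem f3_gM (h : SuperE n f c x y) (g : UU k K →ₐ[kbar k K] UU k K)
    (hgx : g (toU (k := k) (K := K) x) = toU (k := k) (K := K) x) : ∀ z ∈ MM k K, g z ∈ MM k K := by
  intro z hz
  obtain ⟨ζ, -, hζ⟩ := f3_zeta h g hgx
  have h1 : (⟨z, hz⟩ : MM k K) ∈ (IntermediateField.adjoin (kbar k K) {f3x k x, f3x k y}) := by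
    rw [f3_gen h]; trivial
  have h2 : (g.comp (MM k K).val) ⟨z, hz⟩ ∈
      (IntermediateField.adjoin (kbar k K) {f3x k x, f3x k y}).map (g.comp (MM k K).val) :=
    ⟨_, h1, rfl⟩
  rw [IntermediateField.adjoin_map, Set.image_pair] at h2
  have h3 : IntermediateField.adjoin (kbar k K) {(g.comp (MM k K).val) (f3x k x),
      (g.comp (MM k K).val) (f3x k y)} ≤ MM k K := by
    refine IntermediateField.adjoin_le_iff.2 ?_
    rintro w (rfl | hw)
    · change g (toU (k := k) (K := K) x) ∈ MM k K
      rw [hgx]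
      exact toU_mem x
    · rw [Set.mem_singleton_iff] at hw
      rw [hw]
      change g (toU (k := k) (K := K) y) ∈ MM k K
      rw [hζ]
      exact mul_mem ((MM k K).algebraMap_mem ζ) (toU_mem y)
  exact h3 h2

/-- the place of `MM` above a root -/
private theorem f3_place (h : SuperE n f c x y) (g : UU k K →ₐ[kbar k K] UU k K)
    (hgx : g (toU (k := k) (K := K) x) = toU (k := k) (K := K) x) {b : kbar k K}
    (hb : b ∈ (f.map (algebraMap k (kbar k K))).roots) :
    ∃ P : Place (kbar k K) (MM k K),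
      (f3x k x - algebraMap (kbar k K) (MM k K) b) ∈ P.ring.nonunits ∧
      ∀ z w : MM k K, (w : UU k K) = g z → (z ∈ P.ring ↔ w ∈ P.ring) := by
  have hn : 0 < n := lt_of_lt_of_le two_pos h.two_le
  have htr : Transcendental (kbar k K) (f3x k x - algebraMap (kbar k K) (MM k K) b) := by
    intro halg
    apply f3_tr h
    have h1 := halg.add (isAlgebraic_algebraMap (R := kbar k K) (A := MM k K) b)
    rwa [sub_add_cancel] at h1
  obtain ⟨P, hP⟩ := FF.exists_place htr
  refine ⟨P, hP, ?_⟩
  obtain ⟨ζ, hζ0, hζ⟩ := f3_zeta h g hgx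
  let τ : MM k K →ₐ[kbar k K] MM k K :=
    (g.comp (MM k K).val).codRestrict (MM k K).toSubalgebra fun z => f3_gM h g hgx z z.2
  have hτ : ∀ z, ((τ z : MM k K) : UU k K) = g z := fun z => rfl
  have hb' : (f.map (algebraMap k (kbar k K))).eval b = 0 := (mem_roots'.1 hb).2
  have hsep : (f.map (algebraMap k (kbar k K))).Separable := h.sep.map
  have hfd : (f.map (algebraMap k (kbar k K))).derivative.eval b ≠ 0 := by
    have h1 := hsep.eval₂_derivative_ne_zero (RingHom.id (kbar k K)) (x := b)
      (by rw [eval₂_id]; exact hb')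
    rwa [eval₂_id] at h1
  have key := f3_stable hn (x := f3x k x) (y := f3x k y)
    (c := algebraMap k (kbar k K) c) ((_root_.map_ne_zero _).2 h.c_ne) hb' hfd (f3_eq h)
    (f3_gen h) P.ring P.algebraMap_mem (fun h0 => htr (by rw [h0]; exact isAlgebraic_zero))
    ((ValuationSubring.mem_nonunits_iff _).1 hP) τ (Subtype.ext (by rw [hτ]; exact hgx)) hζ0
    (Subtype.ext (by rw [hτ]; exact hζ))
  intro z w hw
  rw [key z]
  have h1 : τ z = w := Subtype.ext (by rw [hτ, hw])
  rw [h1]

theorem SuperE.fixed_unique (h : SuperE n f c x y) (g : UU k K ≃ₐ[kbar k K] UU k K)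
    (hgx : g (toU (k := k) (K := K) x) = toU (k := k) (K := K) x) (hg : (orderOf g).Prime) (hne : ∃ m ∈ MM k K, g m ≠ m)
    {P P' : ValuationSubring (UU k K)}
    (hP : ∀ c : kbar k K, algebraMap (kbar k K) (UU k K) c ∈ P) (hP1 : P ≠ ⊤)
    (hPg : ∀ z, g z ∈ P ↔ z ∈ P)
    (hP' : ∀ c : kbar k K, algebraMap (kbar k K) (UU k K) c ∈ P') (hP1' : P' ≠ ⊤)
    (hPg' : ∀ z, g z ∈ P' ↔ z ∈ P') : P = P' := by
  classical
  have hK : IsFunctionField k K := h.isFunctionField
  have hc := isCover_UU hK
  let G : UU k K →ₐ[kbar k K] UU k K := g.toAlgHom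
  let G' : UU k K →ₐ[kbar k K] UU k K := g.symm.toAlgHom
  have hgx' : G' (toU (k := k) (K := K) x) = toU (k := k) (K := K) x := by
    change g.symm (toU (k := k) (K := K) x) = toU (k := k) (K := K) x
    rw [AlgEquiv.symm_apply_eq, hgx]
  have hgM : ∀ z, z ∈ MM k K ↔ g z ∈ MM k K := by
    intro z
    refine ⟨fun hz => f3_gM h G hgx z hz, fun hz => ?_⟩
    have h1 := f3_gM h G' hgx' _ hz
    change g.symm (g z) ∈ MM k K at h1
    rwa [AlgEquiv.symm_apply_apply] at h1
  -- three roots
  let fE : (kbar k K)[X] := f.map (algebraMap k (kbar k K))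
  have hsplit : fE.roots.card = fE.natDegree :=
    (IsAlgClosed.splits fE).natDegree_eq_card_roots.symm
  have hsep : fE.Separable := h.sep.map
  have hnd : fE.roots.Nodup := nodup_roots hsep
  have h3 : 3 ≤ fE.roots.toFinset.card := by
    rw [Multiset.toFinset_card_of_nodup hnd, hsplit, natDegree_map]
    exact h.deg
  obtain ⟨S, hS, hS3⟩ := Finset.exists_subset_card_eq h3
  let e : Fin 3 ≃ S := (Finset.equivFinOfCardEq hS3).symm
  have hroot : ∀ i, ((e i : S) : kbar k K) ∈ fE.roots := fun i =>
    Multiset.mem_toFinset.1 (hS (e i).2)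
  have hpl := fun i => f3_place h G hgx (hroot i)
  choose Q hQ1 hQ2 using hpl
  refine Pool.Agent.SC.fixed_unique (MM k K) hc (fun N hN => FF.picDiv hN) hg g hgM
    (pow_orderOf_eq_one g) hne ⟨Q, ?_, fun i z w hw => hQ2 i z w hw⟩ hP hP1 hPg hP' hP1' hPg'
  intro i i' hii
  by_contra hne'
  have h1 := hQ1 i
  have h2 := hQ1 i'
  rw [hii] at h1
  have hbb : ((e i : S) : kbar k K) - (e i' : S) ≠ 0 := by
    intro h0
    exact hne' (e.injective (Subtype.ext (sub_eq_zero.1 h0)))
  have h4 : (Q i').ring.valuation (algebraMap (kbar k K) (MM k K) (((e i : S) : kbar k K) - (e i' : S))) < 1 := by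
    have h5 : algebraMap (kbar k K) (MM k K) (((e i : S) : kbar k K) - (e i' : S)) =
        (f3x k x - algebraMap (kbar k K) (MM k K) (e i' : S)) -
        (f3x k x - algebraMap (kbar k K) (MM k K) (e i : S)) := by
      rw [map_sub]; ring
    rw [h5]
    refine lt_of_le_of_lt ((Q i').ring.valuation.map_sub _ _) ?_
    exact max_lt ((ValuationSubring.mem_nonunits_iff _).1 h2) ((ValuationSubring.mem_nonunits_iff _).1 h1)
  rw [f3_const (Q i').ring (Q i').algebraMap_mem hbb] at h4
  exact lt_irrefl _ h4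

end Pool.Agent.LT
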