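import Pool.Agent.Helper13.LT.Defs2
import Pool.Agent.Helper13.LT.A1
import Pool.Agent.SC.Weights

/-!
# Block U3: automorphisms which are trivial on the residues are trivial

Proof.  Suppose `g z ≠ z`, `z ∈ N`.  `z` is algebraic over `K(x)` and `g` fixes `K(x)`, so the
orbit of `z` under `⟨g⟩` is finite: `g^r z = z`, `r > 0`; it is in `N`.  The eigenprojections
`v_ζ = ∑_i ζ^{-i} g^i z` (`ζ^r = 1`, `ζ ∈ K`) are in `N`, `g v_ζ = ζ v_ζ` and
`r z = ∑_ζ v_ζ`, so some `v = v_ζ ≠ 0` with `ζ ≠ 1`.  `V(v)^k = V(t)^j` (A1), so `V(v) = V(c)`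
for `c ∈ K` with `c^k = t^j`.  `w = v/c` is a unit of `V`, in `N`, and `g w - w = (ζ - 1) w` is a
unit because `ζ - 1` is a nonzero element of `E` (roots of unity are in the algebraically closed
field `E`).  Contradiction.  (`SC/Eigen.lean` or `SC/Levels.lean` may have the eigenvector.)
-/

universe u

namespace Pool.Agent.LT

open VC Polynomial

variable {E K U : Type u} [Field E] [IsAlgClosed E] [CharZero E] [Field K] [IsAlgClosed K]
  [Algebra E K] [Field U] [Algebra K U] [Algebra E U] [IsScalarTower E K U]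
  {O : ValuationSubring K} {t : K} {x : U} {B : Finset K} {M : IntermediateField K U}

omit [IsAlgClosed K] in
/-- An automorphism of finite order on an element which it moves has an eigenvector in a stable
subfield. -/
private theorem exists_eigen94 (g : U ≃ₐ[K] U) (N : IntermediateField K U)
    (hN : ∀ z ∈ N, g z ∈ N) {z : U} (hz : z ∈ N) (hgz : g z ≠ z) {m : ℕ} (hm : 0 < m)
    (hmz : (g ^ m) z = z) :
    ∃ v ∈ N, v ≠ 0 ∧ ∃ ζ : E, ζ ≠ 1 ∧ g v = algebraMap E U ζ * v := by
  have hcU : CharZero U := charZero_of_injective_algebraMap (algebraMap E U).injective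
  have : NeZero ((m : ℕ) : E) := ⟨by exact_mod_cast hm.ne'⟩
  obtain ⟨η, hη⟩ := HasEnoughRootsOfUnity.exists_primitiveRoot E m
  set e : U := algebraMap E U η with he
  have he' : IsPrimitiveRoot e m := hη.map_of_injective (algebraMap E U).injective
  have he0 : e ≠ 0 := he'.ne_zero hm.ne'
  have heK : e = algebraMap K U (algebraMap E K η) := by
    rw [he, IsScalarTower.algebraMap_apply E K U]
  have hge : g e = e := by rw [heK, AlgEquiv.commutes]
  have heN : e ∈ N := by rw [heK]; exact N.algebraMap_mem _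
  have hpowN : ∀ r : ℕ, (g ^ r) z ∈ N := by
    intro r
    induction r with
    | zero => rw [pow_zero]; exact hz
    | succ r ih =>
      rw [pow_succ', AlgEquiv.mul_apply]
      exact hN _ ih
  let u : ℕ → U := fun i => ∑ r ∈ Finset.range m, e ^ (i * r) * (g ^ r) z
  have huN : ∀ i, u i ∈ N := fun i =>
    N.sum_mem fun r _ => N.mul_mem (pow_mem heN _) (hpowN r)
  have hu : ∀ i, e ^ i * g (u i) = u i := by
    intro i
    have h1 : e ^ i * g (u i) = ∑ r ∈ Finset.range m, e ^ (i * (r + 1)) * (g ^ (r + 1)) z := by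
      simp only [u, map_sum, Finset.mul_sum]
      refine Finset.sum_congr rfl fun r _ => ?_
      rw [map_mul, map_pow, hge, pow_succ' g]
      change _ = _ * g ((g ^ r) z)
      ring
    have h2 := Finset.sum_range_succ' (fun r => e ^ (i * r) * (g ^ r) z) m
    rw [Finset.sum_range_succ] at h2
    have h3 : e ^ (i * m) * (g ^ m) z = e ^ (i * 0) * (g ^ 0) z := by
      rw [hmz, mul_comm i m, pow_mul, he'.pow_eq_one, one_pow, mul_zero, pow_zero, pow_zero]
      rfl
    rw [h3] at h2
    rw [h1]
    exact (add_right_cancel h2).symm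
  have hsum : ∑ i ∈ Finset.range m, u i = m * z := by
    simp only [u]
    rw [Finset.sum_comm]
    rw [Finset.sum_eq_single 0]
    · simp
    · intro r hr hr0
      rw [← Finset.sum_mul]
      have h1 : ∑ i ∈ Finset.range m, e ^ (i * r) = 0 := by
        have h2 : e ^ r ≠ 1 := by
          intro h3
          have := (he'.pow_eq_one_iff_dvd r).1 h3
          have h4 := Nat.le_of_dvd (Nat.pos_of_ne_zero hr0) this
          exact absurd (Finset.mem_range.1 hr) (by omega)
        have h3 : (∑ i ∈ Finset.range m, (e ^ r) ^ i) * (e ^ r - 1) = 0 := by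
          rw [geom_sum_mul, ← pow_mul, mul_comm r m, pow_mul, he'.pow_eq_one, one_pow, sub_self]
        rcases mul_eq_zero.1 h3 with h4 | h4
        · rw [← h4]
          refine Finset.sum_congr rfl fun i _ => ?_
          rw [← pow_mul, mul_comm]
        · exact absurd (sub_eq_zero.1 h4) h2
      rw [h1, zero_mul]
    · intro h
      exact absurd (Finset.mem_range.2 hm) h
  obtain ⟨i, hi⟩ : ∃ i, g (u i) ≠ u i := by
    by_contra hcon
    push Not at hcon
    have h1 : g (m * z) = m * z := by
      rw [← hsum, map_sum]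
      exact Finset.sum_congr rfl fun i _ => hcon i
    rw [map_mul, map_natCast] at h1
    exact hgz (mul_left_cancel₀ (by exact_mod_cast hm.ne') h1)
  refine ⟨u i, huN i, fun h => hi (by rw [h, map_zero]), (η ^ i)⁻¹, ?_, ?_⟩
  · intro h
    have h1 : η ^ i = 1 := inv_eq_one.1 h
    have h2 : e ^ i = 1 := by rw [he, ← map_pow, h1, map_one]
    have h3 := hu i
    rw [h2, one_mul] at h3
    exact hi h3
  · have h3 := hu i
    have h4 : e ^ i ≠ 0 := pow_ne_zero _ he0
    rw [map_inv₀, map_pow, ← he, eq_inv_mul_iff_mul_eq₀ h4]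
    exact h3

theorem USetup.trivial_of_residue (hu : USetup E O t B M x) {V : ValuationSubring U}
    (hV : Gauss E O x V) (g : U ≃ₐ[K] U) (hgx : g x = x) (N : IntermediateField K U)
    (hN : ∀ z ∈ N, g z ∈ N) (htriv : ∀ z ∈ V, z ∈ N → g z - z ∈ V.nonunits) :
    ∀ z ∈ N, g z = z := by
  intro z hz
  by_contra hgz
  have := hu.gal
  -- `g` is trivial on `K(x)`
  let Fx : IntermediateField K U :=
    { carrier := {y | g y = y}
      mul_mem' := fun {a b} ha hb => by
        change g (a * b) = a * b
        rw [map_mul, show g a = a from ha, show g b = b from hb]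
      add_mem' := fun {a b} ha hb => by
        change g (a + b) = a + b
        rw [map_add, show g a = a from ha, show g b = b from hb]
      algebraMap_mem' := fun c => g.commutes c
      inv_mem' := fun a ha => by
        change g a⁻¹ = a⁻¹
        rw [map_inv₀, show g a = a from ha] }
  have hle : IntermediateField.adjoin K {x} ≤ Fx := by
    rw [IntermediateField.adjoin_le_iff, Set.singleton_subset_iff]
    exact hgx
  let a : U ≃ₐ[IntermediateField.adjoin K {x}] U :=
    AlgEquiv.ofRingEquiv (f := (g : U ≃+* U)) (fun m => hle m.2)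
  have hapow : ∀ (i : ℕ) (y : U), (a ^ i) y = (g ^ i) y := by
    intro i
    induction i with
    | zero => intro y; rfl
    | succ i ih =>
      intro y
      rw [pow_succ', pow_succ', AlgEquiv.mul_apply, AlgEquiv.mul_apply, ih]
      rfl
  obtain ⟨m, hm, hmz⟩ := SC.exists_autpow_fix a
    (Algebra.IsAlgebraic.isAlgebraic (R := IntermediateField.adjoin K {x}) z)
  rw [hapow] at hmz
  obtain ⟨v, hvN, hv0, ζ, hζ, hgv⟩ := exists_eigen94 (E := E) g N hN hz hgz hm hmz
  obtain ⟨k, hk, j, hkj⟩ := hV.exists_pow hu.base hv0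
    (Algebra.IsAlgebraic.isAlgebraic (R := IntermediateField.adjoin K {x}) v)
  obtain ⟨c, hc⟩ := IsAlgClosed.exists_pow_nat_eq (t ^ j) hk
  have ht0 := hu.base.t_ne
  have hc0 : c ≠ 0 := by
    intro h
    rw [h, zero_pow hk.ne'] at hc
    exact zpow_ne_zero j ht0 hc.symm
  have hcU0 : algebraMap K U c ≠ 0 := by
    intro h
    exact hc0 ((map_eq_zero _).1 h)
  have hval : V.valuation v = V.valuation (algebraMap K U c) := by
    have h1 : V.valuation (algebraMap K U c) ^ k = V.valuation v ^ k := by
      rw [hkj, ← map_pow, ← map_pow, hc, map_zpow₀, map_zpow₀]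
    exact ((pow_left_inj₀ zero_le zero_le hk.ne').1 h1).symm
  -- the unit `w = v / c`
  have hVc0 : V.valuation (algebraMap K U c) ≠ 0 := (Valuation.ne_zero_iff _).2 hcU0
  have hw1 : V.valuation (v * (algebraMap K U c)⁻¹) = 1 := by
    rw [map_mul, map_inv₀, hval, mul_inv_cancel₀ hVc0]
  have hwV : v * (algebraMap K U c)⁻¹ ∈ V := (V.valuation_le_one_iff _).1 hw1.le
  have hwN : v * (algebraMap K U c)⁻¹ ∈ N := N.mul_mem hvN (N.inv_mem (N.algebraMap_mem c))
  have h1 := htriv _ hwV hwN
  have h2 : g (v * (algebraMap K U c)⁻¹) - v * (algebraMap K U c)⁻¹ =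
      algebraMap E U (ζ - 1) * (v * (algebraMap K U c)⁻¹) := by
    rw [map_mul, map_inv₀, AlgEquiv.commutes, hgv, map_sub, map_one]
    ring
  rw [h2, ValuationSubring.mem_nonunits_iff, map_mul, hw1, mul_one] at h1
  have h3 := hV.x_tr (C (ζ - 1)) (fun h => hζ (sub_eq_zero.1 (C_eq_zero.1 h)))
  rw [aeval_C] at h3
  exact h3 ((ValuationSubring.mem_nonunits_iff V).2 h1)

end Pool.Agent.LT
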