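import Pool.Agent.Helper13.LT.U2
import Pool.Agent.Helper13.LT.U3
import Pool.Agent.Helper91.Section.Decomp

/-!
# Block U4: the Galois group of the residue field

By U2 the valuation ring `V` is stable under all `g : U ≃ₐ[K] U` with `g x = x`.  `G = Gal(U/K(x))`.
`V` is the integral closure of `V ∩ K(x)` in `U` (the conjugates of `z ∈ V` are in `V`).

`exists_induces`: `Helper91.Sect.lift_abstract` with `B = V`, `G = Gal(U/K(x))` (profinite, acting
continuously on discrete `V`, see `contSMul`), `Q` the maximal ideal, `φ` = the automorphism `ρ` of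
`V/𝔪_V ≅ R`; the invariants are in `V ∩ K(x)`, whose residues are in `E(x̄)`.  (Or `exists_lift`.)
`exists_induced`: `g V = V`, so `g` induces an automorphism of `R`, trivial on `E`.
`isGalois_residue`: `x̄` is transcendental by `x_tr`; `R / E(x̄)` is algebraic and normal: the residue of `z ∈ V` is a
root of the reduction of the minimal polynomial of `z` over `K(x)`, which has coefficients in
`V ∩ K(x)` and splits into factors `X - g z`; characteristic zero.  (Residues of `V ∩ K(x)` are in
`E(x̄)`: write `w = c p/q` with `p, q ∈ O[x]` of value `1`.)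
`resField`: `E ⊆ N` because `E ⊆ K`; inverse: a nonzero residue is the residue of a unit.
`isFunctionField_resField`: `resField M` is algebraic over `E(x̄)`; it is finite because
`n + 1` elements of `M ∩ V` with linearly independent residues over `E(x̄)` are linearly independent over
`K(x)` (scale a relation so that its coefficients are in `V ∩ K(x)` and one is a unit), `n = [M : K(x)]`.
`exists_induces_over`: `exists_induces` gives `g` with `g x = x` inducing `ρ` (`x̄ ∈ resField M`).
`g M = M` by `hu.stab` and `g` is trivial on the residues of `M`, so trivial on `M` by U3.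
-/

universe u

namespace Pool.Agent.LT

open VC Polynomial

variable {E K U R : Type u} [Field E] [IsAlgClosed E] [CharZero E] [Field K] [IsAlgClosed K]
  [Algebra E K] [Field U] [Algebra K U] [Algebra E U] [IsScalarTower E K U] [Field R]
  [Algebra E R]
  {O : ValuationSubring K} {t : K} {x : U} {B : Finset K} {M : IntermediateField K U}
  {V : ValuationSubring U} {π : V →+* R}

section aux67

set_option linter.unusedSectionVars false

private lemma const_mem67 (hV : Gauss E O x V) (e : E) : algebraMap E U e ∈ V := by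
  rcases eq_or_ne e 0 with rfl | he
  · rw [map_zero]
    exact V.zero_mem
  · have h1 : algebraMap E U e⁻¹ ∉ V.nonunits := by
      have := hV.x_tr (C e⁻¹) (C_ne_zero.2 (inv_ne_zero he))
      rwa [aeval_C] at this
    rw [ValuationSubring.mem_nonunits_iff, not_lt, map_inv₀, map_inv₀] at h1
    have h3 : V.valuation (algebraMap E U e) ≠ 0 :=
      (Valuation.ne_zero_iff _).2 ((_root_.map_ne_zero _).2 he)
    rw [← V.valuation_le_one_iff]
    exact (one_le_inv₀ (zero_lt_iff.2 h3)).1 h1

private lemma pi_const67 (hV : Gauss E O x V) (hR : Res E V π) (e : E) :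
    π ⟨algebraMap E U e, const_mem67 hV e⟩ = algebraMap E R e := hR.const e _ rfl

private lemma pi_poly67 (hV : Gauss E O x V) (hR : Res E V π) (p : E[X]) :
    ∃ z : V, (z : U) = aeval x p ∧ π z = aeval (π ⟨x, hV.x_mem⟩) p := by
  induction p using Polynomial.induction_on with
  | C a =>
    refine ⟨⟨algebraMap E U a, const_mem67 hV a⟩, ?_, ?_⟩
    · rw [aeval_C]
    · rw [pi_const67 hV hR, aeval_C]
  | add p q hp hq =>
    obtain ⟨z, hz1, hz2⟩ := hp
    obtain ⟨w, hw1, hw2⟩ := hq
    refine ⟨z + w, ?_, ?_⟩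
    · rw [map_add, ← hz1, ← hw1]
      rfl
    · rw [map_add, map_add, hz2, hw2]
  | monomial n a ih =>
    obtain ⟨z, hz1, hz2⟩ := ih
    refine ⟨z * ⟨x, hV.x_mem⟩, ?_, ?_⟩
    · rw [pow_succ, ← mul_assoc, map_mul, aeval_X, ← hz1]
      rfl
    · rw [pow_succ, ← mul_assoc, map_mul, map_mul, aeval_X, hz2]

omit [IsAlgClosed E] [CharZero E] in
private lemma pi_eq67 (hR : Res E V π) {z w : V} (h : (z : U) - w ∈ V.nonunits) : π z = π w := by
  have h1 : π (z - w) = 0 := (hR.ker _).2 h
  rw [map_sub, sub_eq_zero] at h1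
  exact h1

private lemma reduce67 (hb : Base E O t) (hV : Gauss E O x V) (hR : Res E V π) (P : K[X])
    (hP : ∀ i, P.coeff i ∈ O) :
    ∃ p : E[X], ∀ z : V, (z : U) = aeval x P → π z = aeval (π ⟨x, hV.x_mem⟩) p := by
  choose e he using fun i => hb.exists_residue (hP i)
  set p : E[X] := ∑ i ∈ P.support, monomial i (e i) with hp
  have hpc : ∀ i, p.coeff i = if i ∈ P.support then e i else 0 := by
    intro i
    rw [hp, finsetSum_coeff]
    simp only [coeff_monomial]
    rw [Finset.sum_ite_eq']
  obtain ⟨w, hw1, hw2⟩ := pi_poly67 hV hR p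
  refine ⟨p, fun z hz => ?_⟩
  rw [← hw2]
  apply pi_eq67 hR
  set Q : K[X] := P - p.map (algebraMap E K) with hQ
  have h1 : (z : U) - w = aeval x Q := by
    rw [hz, hw1, hQ, map_sub, aeval_map_algebraMap]
  rw [h1, ValuationSubring.mem_nonunits_iff]
  have h2 := (Gauss.val_poly_lt hb hV Q 1 one_ne_zero).2 (by
    intro i
    rw [map_one, ← ValuationSubring.mem_nonunits_iff, hQ, coeff_sub, coeff_map, hpc]
    by_cases hi : i ∈ P.support
    · rw [if_pos hi]
      exact he i
    · rw [if_neg hi, map_zero, sub_zero, notMem_support_iff.1 hi]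
      rw [ValuationSubring.mem_nonunits_iff, map_zero]
      exact zero_lt_one)
  rwa [map_one, map_one] at h2

/-- residues of the elements of `K(x)` -/
private lemma resL67 (hb : Base E O t) (hV : Gauss E O x V) (hR : Res E V π) (b : V)
    (hbL : (b : U) ∈ IntermediateField.adjoin K {x}) :
    ∃ p q : E[X], aeval (π ⟨x, hV.x_mem⟩) q ≠ 0 ∧
      π b * aeval (π ⟨x, hV.x_mem⟩) q = aeval (π ⟨x, hV.x_mem⟩) p := by
  obtain ⟨r, s, hrs⟩ := (IntermediateField.mem_adjoin_simple_iff K (b : U)).1 hbL
  by_cases hs : aeval x s = 0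
  · have hb0 : b = 0 := by
      apply Subtype.ext
      rw [hrs, hs, div_zero]
      rfl
    refine ⟨0, 1, ?_, ?_⟩
    · rw [map_one]
      exact one_ne_zero
    · rw [hb0, map_zero, map_zero, zero_mul]
  · have hs0 : s ≠ 0 := by
      rintro rfl
      exact hs (map_zero _)
    obtain ⟨i0, hi0, hmax⟩ := Finset.exists_max_image s.support (fun i => O.valuation (s.coeff i))
      (nonempty_support_iff.2 hs0)
    set c : K := s.coeff i0 with hc
    have hc0 : c ≠ 0 := mem_support_iff.1 hi0
    have hcv : O.valuation c ≠ 0 := (Valuation.ne_zero_iff _).2 hc0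
    set S : K[X] := C c⁻¹ * s with hS
    set T : K[X] := C c⁻¹ * r with hT
    have hSc : ∀ i, O.valuation (S.coeff i) ≤ 1 := by
      intro i
      rw [hS, coeff_C_mul, map_mul, map_inv₀, inv_mul_le_iff₀ (zero_lt_iff.2 hcv), mul_one]
      by_cases hi : i ∈ s.support
      · exact hmax i hi
      · rw [notMem_support_iff.1 hi, map_zero]
        exact zero_le
    have hSv1 : V.valuation (aeval x S) ≤ 1 := by
      have h1 := (Gauss.val_poly hb hV S 1).2 (by
        intro i
        rw [map_one]
        exact hSc i)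
      rwa [map_one, map_one] at h1
    have hSv2 : ¬ V.valuation (aeval x S) < 1 := by
      intro hlt
      have h1 := (Gauss.val_poly_lt hb hV S 1 one_ne_zero).1 (by
        rw [map_one, map_one]
        exact hlt)
      have h2 := h1 i0
      rw [hS, coeff_C_mul, ← hc, inv_mul_cancel₀ hc0] at h2
      exact lt_irrefl _ h2
    have hSv : V.valuation (aeval x S) = 1 := le_antisymm hSv1 (not_lt.1 hSv2)
    have hbS : (b : U) * aeval x S = aeval x T := by
      rw [hrs, hS, hT, map_mul, map_mul]
      field_simp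
    have hTc : ∀ i, O.valuation (T.coeff i) ≤ 1 := by
      have h1 : V.valuation (aeval x T) ≤ V.valuation (algebraMap K U 1) := by
        rw [← hbS, map_mul, hSv, mul_one, map_one, map_one]
        exact V.valuation_le_one b
      intro i
      have h2 := (Gauss.val_poly hb hV T 1).1 h1 i
      rwa [map_one] at h2
    obtain ⟨p, hp⟩ := reduce67 hb hV hR T (fun i => (O.valuation_le_one_iff _).1 (hTc i))
    obtain ⟨q, hq⟩ := reduce67 hb hV hR S (fun i => (O.valuation_le_one_iff _).1 (hSc i))
    set zS : V := ⟨aeval x S, (V.valuation_le_one_iff _).1 hSv1⟩ with hzS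
    have h3 : π zS = aeval (π ⟨x, hV.x_mem⟩) q := hq zS rfl
    have h4 : π (b * zS) = aeval (π ⟨x, hV.x_mem⟩) p := hp (b * zS) hbS
    refine ⟨p, q, ?_, ?_⟩
    · rw [← h3]
      intro h0
      apply hSv2
      rw [← ValuationSubring.mem_nonunits_iff]
      exact (hR.ker zS).1 h0
    · rw [← h3, ← h4, map_mul]

private lemma resL_mem67 (hb : Base E O t) (hV : Gauss E O x V) (hR : Res E V π) (b : V)
    (hbL : (b : U) ∈ IntermediateField.adjoin K {x}) :
    π b ∈ IntermediateField.adjoin E {π ⟨x, hV.x_mem⟩} := by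
  obtain ⟨p, q, hq, h⟩ := resL67 hb hV hR b hbL
  exact (IntermediateField.mem_adjoin_simple_iff E _).2 ⟨p, q, by rw [eq_div_iff hq]; exact h⟩

private lemma resL_fix67 (hb : Base E O t) (hV : Gauss E O x V) (hR : Res E V π) (b : V)
    (hbL : (b : U) ∈ IntermediateField.adjoin K {x}) (ρ : R ≃ₐ[E] R)
    (hρ : ρ (π ⟨x, hV.x_mem⟩) = π ⟨x, hV.x_mem⟩) : ρ (π b) = π b := by
  obtain ⟨p, q, hq, h⟩ := resL67 hb hV hR b hbL
  have key : ∀ p : E[X], ρ (aeval (π ⟨x, hV.x_mem⟩) p) = aeval (π ⟨x, hV.x_mem⟩) p := by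
    intro p
    have h1 := (aeval_algHom_apply (ρ : R →ₐ[E] R) (π ⟨x, hV.x_mem⟩) p).symm
    have h2 : (ρ : R →ₐ[E] R) (π ⟨x, hV.x_mem⟩) = π ⟨x, hV.x_mem⟩ := hρ
    rw [h2] at h1
    exact h1
  have h1 := congrArg ρ h
  rw [map_mul, key, key, ← h] at h1
  exact mul_right_cancel₀ hq h1

private lemma USetup.stable67 (hu : USetup E O t B M x) (hV : Gauss E O x V) (g : U ≃ₐ[K] U) (hg : g x = x) (z : U) :
    g z ∈ V ↔ z ∈ V :=
  hu.stable hV (g : U ≃+* U) (RingEquiv.refl K) (fun c => g.commutes c) (fun _ => Iff.rfl) hg z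

private lemma nonunits67 {g : U ≃+* U} (hst : ∀ z, g z ∈ V ↔ z ∈ V) (z : U) : g z ∈ V.nonunits ↔ z ∈ V.nonunits := by
  rw [ValuationSubring.mem_nonunits_iff_or, ValuationSubring.mem_nonunits_iff_or, ← map_inv₀, hst, map_eq_zero_iff g g.injective]

/-- an automorphism preserving `V` induces an endomorphism of the residue field -/
private lemma ind_hom67 (hR : Res E V π) (g : U ≃+* U) (hst : ∀ z, g z ∈ V ↔ z ∈ V) :
    ∃ ρ : R →+* R, ∀ z w : V, (w : U) = g (z : U) → ρ (π z) = π w := by
  let f : V →+* V :=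
    { toFun := fun z => ⟨g (z : U), (hst z).2 z.2⟩
      map_one' := Subtype.ext (map_one g)
      map_mul' := fun a b => Subtype.ext (map_mul g (a : U) b)
      map_zero' := Subtype.ext (map_zero g)
      map_add' := fun a b => Subtype.ext (map_add g (a : U) b) }
  have hker : RingHom.ker π ≤ RingHom.ker (π.comp f) := by
    intro z hz
    rw [RingHom.mem_ker] at hz ⊢
    rw [RingHom.comp_apply, hR.ker]
    exact (nonunits67 hst z).2 ((hR.ker z).1 hz)
  refine ⟨π.liftOfSurjective hR.surj ⟨π.comp f, hker⟩, fun z w hw => ?_⟩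
  rw [RingHom.liftOfSurjective_comp_apply]
  show π (f z) = π w
  congr 1
  exact Subtype.ext hw.symm

private lemma ind67 (hV : Gauss E O x V) (hR : Res E V π) (g : U ≃ₐ[K] U) (hst : ∀ z, g z ∈ V ↔ z ∈ V) :
    ∃ ρ : R ≃ₐ[E] R, Induces π g ρ := by
  have hst' : ∀ z, g.symm z ∈ V ↔ z ∈ V := by
    intro z
    rw [← hst, g.apply_symm_apply]
  obtain ⟨ρ1, h1⟩ := ind_hom67 hR (g : U ≃+* U) hst
  obtain ⟨ρ2, h2⟩ := ind_hom67 hR (g.symm : U ≃+* U) hst'
  have e1 : ρ2.comp ρ1 = RingHom.id R := by
    ext r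
    obtain ⟨z, rfl⟩ := hR.surj r
    rw [RingHom.comp_apply, h1 z ⟨g z, (hst z).2 z.2⟩ rfl, h2 _ z (g.symm_apply_apply (z : U)).symm]
    rfl
  have e2 : ρ1.comp ρ2 = RingHom.id R := by
    ext r
    obtain ⟨z, rfl⟩ := hR.surj r
    rw [RingHom.comp_apply, h2 z ⟨g.symm z, (hst' z).2 z.2⟩ rfl, h1 _ z (g.apply_symm_apply (z : U)).symm]
    rfl
  let ρ : R ≃+* R := RingEquiv.ofRingHom ρ1 ρ2 e2 e1
  refine ⟨AlgEquiv.ofRingEquiv (f := ρ) ?_, ?_⟩
  · intro e
    rw [← pi_const67 hV hR]
    refine h1 _ _ ?_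
    show algebraMap E U e = g (algebraMap E U e)
    rw [IsScalarTower.algebraMap_apply E K U, g.commutes]
  · intro z w hw
    exact h1 z w hw

end aux67

/-- Every automorphism of the residue field over `E(x̄)` is induced by an automorphism. -/
theorem USetup.exists_induces (hu : USetup E O t B M x) (hV : Gauss E O x V) (hR : Res E V π)
    (ρ : R ≃ₐ[E] R) (hρ : ρ (π ⟨x, hV.x_mem⟩) = π ⟨x, hV.x_mem⟩) :
    ∃ g : U ≃ₐ[K] U, g x = x ∧ Induces π g ρ := by
  let L := IntermediateField.adjoin K {x}
  have hgal : IsGalois L U := hu.gal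
  have hb := hu.base
  have hgx : ∀ g : U ≃ₐ[L] U, (g.restrictScalars K) x = x := by
    intro g
    exact g.commutes ⟨x, IntermediateField.mem_adjoin_simple_self K x⟩
  have hst : ∀ (g : U ≃ₐ[L] U) (z : U), g z ∈ V ↔ z ∈ V := fun g z =>
    hu.stable67 hV (g.restrictScalars K) (hgx g) z
  let act : MulSemiringAction (U ≃ₐ[L] U) V :=
    { smul := fun g z => ⟨g z, (hst g z).2 z.2⟩
      one_smul := fun z => Subtype.ext rfl
      mul_smul := fun g h z => Subtype.ext rfl
      smul_zero := fun g => Subtype.ext (map_zero g)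
      smul_add := fun g a b => Subtype.ext (map_add g (a : U) b)
      smul_one := fun g => Subtype.ext (map_one g)
      smul_mul := fun g a b => Subtype.ext (map_mul g (a : U) b) }
  have hcoe : ∀ (g : U ≃ₐ[L] U) (z : V), ((g • z : V) : U) = g z := fun g z => rfl
  let top : TopologicalSpace V := ⊥
  have hdisc : DiscreteTopology V := ⟨rfl⟩
  have hcont : ContinuousSMul (U ≃ₐ[L] U) V := by
    rw [continuousSMul_iff_stabilizer_isOpen]
    intro b
    have h1 := stabilizer_isOpen_of_isIntegral (K := L) (L := U) (b : U)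
    convert h1 using 1
    ext σ
    simp only [SetLike.mem_coe, MulAction.mem_stabilizer_iff]
    constructor
    · intro h
      exact congrArg Subtype.val h
    · intro h
      exact Subtype.ext h
  have hprime : (RingHom.ker π).IsPrime := RingHom.ker_isPrime π
  let e : (V ⧸ RingHom.ker π) ≃+* R := RingHom.quotientKerEquivOfSurjective hR.surj
  have he : ∀ z : V, e (Ideal.Quotient.mk _ z) = π z := fun z => rfl
  let φ : (V ⧸ RingHom.ker π) ≃+* (V ⧸ RingHom.ker π) := (e.trans (ρ : R ≃+* R)).trans e.symm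
  have hφ : ∀ z : V, e (φ (Ideal.Quotient.mk _ z)) = ρ (π z) := by
    intro z
    show e (e.symm (ρ (e (Ideal.Quotient.mk _ z)))) = _
    rw [e.apply_symm_apply, he]
  obtain ⟨g, -, hg⟩ := Pool.Agent.Helper91.Sect.lift_abstract (A := ℤ) (G := U ≃ₐ[L] U) (RingHom.ker π) φ (by
    intro b hbfix
    apply e.injective
    rw [hφ, he]
    have h1 : ∀ f : U ≃ₐ[L] U, f (b : U) = b := fun f => congrArg Subtype.val (hbfix f)
    obtain ⟨c, hc⟩ := (InfiniteGalois.mem_range_algebraMap_iff_fixed (k := L) (b : U)).2 h1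
    refine resL_fix67 hb hV hR b ?_ ρ hρ
    rw [← hc]
    exact c.2)
  refine ⟨g.restrictScalars K, hgx g, fun z w hw => ?_⟩
  have h2 := congrArg e (hg z)
  rw [hφ, he] at h2
  rw [← h2]
  congr 1
  exact Subtype.ext hw.symm

/-- Every automorphism over `K(x)` induces an automorphism of the residue field. -/
theorem USetup.exists_induced (hu : USetup E O t B M x) (hV : Gauss E O x V) (hR : Res E V π)
    (g : U ≃ₐ[K] U) (hg : g x = x) :
    ∃ ρ : R ≃ₐ[E] R, ρ (π ⟨x, hV.x_mem⟩) = π ⟨x, hV.x_mem⟩ ∧ Induces π g ρ := by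
  obtain ⟨ρ, h⟩ := ind67 hV hR g (hu.stable67 hV g hg)
  exact ⟨ρ, h _ _ hg.symm, h⟩

/-- The residue field is a Galois extension of `E(x̄)`. -/
theorem USetup.isGalois_residue (hu : USetup E O t B M x) (hV : Gauss E O x V) (hR : Res E V π) :
    Transcendental E (π ⟨x, hV.x_mem⟩) ∧
      IsGalois (IntermediateField.adjoin E {π ⟨x, hV.x_mem⟩}) R := by
  have hb := hu.base
  have htr : Transcendental E (π ⟨x, hV.x_mem⟩) := by
    rw [transcendental_iff]
    intro p hp
    by_contra hp0
    obtain ⟨z, hz1, hz2⟩ := pi_poly67 hV hR p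
    rw [hp] at hz2
    have h1 := (hR.ker z).1 hz2
    rw [hz1] at h1
    exact hV.x_tr p hp0 h1
  refine ⟨htr, ?_⟩
  let L := IntermediateField.adjoin K {x}
  have hgal : IsGalois L U := hu.gal
  let F0 := IntermediateField.adjoin E {π ⟨x, hV.x_mem⟩}
  have hst : ∀ (g : U ≃ₐ[L] U) (z : U), g z ∈ V ↔ z ∈ V := fun g z =>
    hu.stable67 hV (g.restrictScalars K) (g.commutes ⟨x, IntermediateField.mem_adjoin_simple_self K x⟩) z
  have key : ∀ r : R, ∃ G : F0[X], G.Monic ∧ aeval r G = 0 ∧ (G.map (algebraMap F0 R)).Splits := by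
    intro r
    obtain ⟨z, rfl⟩ := hR.surj r
    have hint : IsIntegral L (z : U) := Algebra.IsIntegral.isIntegral _
    set f := minpoly L (z : U) with hf
    have hfm : f.Monic := minpoly.monic hint
    have hfs : (f.map (algebraMap L U)).Splits := Normal.splits inferInstance (z : U)
    have hroots : ∀ a ∈ (f.map (algebraMap L U)).roots, a ∈ V := by
      intro a ha
      have h1 : aeval a f = 0 := by
        have := (mem_roots ((hfm.map _).ne_zero)).1 ha
        rwa [IsRoot.def, eval_map_algebraMap] at this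
      obtain ⟨σ, hσ⟩ := minpoly.exists_algEquiv_of_root' (K := L) (L := U) hint.isAlgebraic h1
      rw [← hσ]
      exact (hst σ z).2 z.2
    set m : Multiset V := (f.map (algebraMap L U)).roots.pmap (fun a h => ⟨a, h⟩) hroots with hm
    have hmm : m.map (fun a : V => (a : U)) = (f.map (algebraMap L U)).roots := by
      rw [hm, Multiset.map_pmap]
      exact (Multiset.pmap_eq_map _ _ _ _).trans (Multiset.map_id' _)
    set F : V[X] := (m.map (fun a => X - C a)).prod with hF
    have hFU : F.map V.subtype = f.map (algebraMap L U) := by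
      rw [hF, Polynomial.map_multiset_prod, Multiset.map_map, hfs.eq_prod_roots_of_monic (hfm.map _), ← hmm,
        Multiset.map_map]
      congr 1
      refine Multiset.map_congr rfl fun a _ => ?_
      simp
    have hFm : F.Monic := monic_multiset_prod_of_monic _ _ fun a _ => monic_X_sub_C a
    have hFπ : F.map π = (m.map (fun a => X - C (π a))).prod := by
      rw [hF, Polynomial.map_multiset_prod, Multiset.map_map]
      congr 1
      refine Multiset.map_congr rfl fun a _ => ?_
      simp
    have hFs : (F.map π).Splits := by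
      rw [hFπ]
      refine Splits.multisetProd fun g hg => ?_
      obtain ⟨a, -, rfl⟩ := Multiset.mem_map.1 hg
      exact Splits.X_sub_C _
    have hFz : F.eval z = 0 := by
      apply Subtype.val_injective
      have h1 : V.subtype (F.eval z) = (F.map V.subtype).eval (V.subtype z) := (eval_map_apply V.subtype z).symm
      have h2 : V.subtype (F.eval z) = 0 := by
        rw [h1, hFU, eval_map_algebraMap]
        exact minpoly.aeval L (z : U)
      exact h2
    have hlift : F.map π ∈ lifts (algebraMap F0 R) := by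
      rw [lifts_iff_coeff_lifts]
      intro i
      rw [coeff_map]
      have h1 : ((F.coeff i : V) : U) = algebraMap L U (f.coeff i) := by
        rw [← coeff_map, ← hFU, coeff_map]
        rfl
      have h2 : π (F.coeff i) ∈ F0 := resL_mem67 hb hV hR (F.coeff i) (by rw [h1]; exact (f.coeff i).2)
      exact ⟨⟨_, h2⟩, rfl⟩
    obtain ⟨G, hG⟩ := (mem_lifts _).1 hlift
    refine ⟨G, ?_, ?_, ?_⟩
    · exact monic_of_injective (algebraMap F0 R).injective (by rw [hG]; exact hFm.map π)
    · rw [← eval_map_algebraMap, hG, eval_map_apply, hFz, map_zero]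
    · rw [hG]
      exact hFs
  have hnormal : Normal F0 R := by
    rw [normal_iff]
    intro r
    obtain ⟨G, hGm, hG0, hGs⟩ := key r
    refine ⟨⟨G, hGm, by rwa [← aeval_def]⟩, ?_⟩
    exact hGs.of_dvd ((hGm.map _).ne_zero) (Polynomial.map_dvd _ (minpoly.dvd F0 r hG0))
  have hch : CharZero F0 := charZero_of_injective_algebraMap (algebraMap E F0).injective
  have hsep : Algebra.IsSeparable F0 R := inferInstance
  exact IsGalois.mk

/-- The residue field of `N`. -/
def resField (hV : Gauss E O x V) (hR : Res E V π) (N : IntermediateField K U) :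
    IntermediateField E R where
  carrier := {r | ∃ z : V, (z : U) ∈ N ∧ π z = r}
  mul_mem' := by
    rintro _ _ ⟨z, hz, rfl⟩ ⟨w, hw, rfl⟩
    exact ⟨z * w, N.mul_mem hz hw, map_mul π z w⟩
  add_mem' := by
    rintro _ _ ⟨z, hz, rfl⟩ ⟨w, hw, rfl⟩
    exact ⟨z + w, N.add_mem hz hw, map_add π z w⟩
  algebraMap_mem' := by
    intro e
    exact ⟨⟨algebraMap E U e, const_mem67 hV e⟩, by
      show algebraMap E U e ∈ N
      rw [IsScalarTower.algebraMap_apply E K U]
      exact N.algebraMap_mem _, pi_const67 hV hR e⟩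
  inv_mem' := by
    rintro _ ⟨z, hz, rfl⟩
    by_cases h0 : π z = 0
    · exact ⟨0, N.zero_mem, by rw [h0, map_zero, inv_zero]⟩
    · have h1 : (z : U) ∉ V.nonunits := fun h => h0 ((hR.ker z).2 h)
      rw [ValuationSubring.mem_nonunits_iff_or, not_or, not_not] at h1
      refine ⟨⟨(z : U)⁻¹, h1.2⟩, N.inv_mem hz, ?_⟩
      rw [eq_comm, inv_eq_iff_eq_inv, eq_comm]
      refine inv_eq_of_mul_eq_one_left ?_
      rw [← map_mul]
      have h2 : z * ⟨(z : U)⁻¹, h1.2⟩ = 1 := Subtype.ext (mul_inv_cancel₀ h1.1)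
      rw [h2, map_one]

theorem mem_resField (hV : Gauss E O x V) (hR : Res E V π) (N : IntermediateField K U) (r : R) :
    r ∈ resField hV hR N ↔ ∃ z : V, (z : U) ∈ N ∧ π z = r := Iff.rfl

theorem USetup.isFunctionField_resField (hu : USetup E O t B M x) (hV : Gauss E O x V)
    (hR : Res E V π) : IsFunctionField E (resField hV hR M) := by
  have hb := hu.base
  have hff := hu.cover.ff
  have htrR := (hu.isGalois_residue hV hR).1
  have hxm := hu.x_mem
  let xM : M := ⟨x, hxm⟩
  have htrM : Transcendental K xM := by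
    exact (transcendental_algebraMap_iff (R := K) (a := xM) (algebraMap M U).injective).1 hu.tr
  have hfinM : FiniteDimensional (IntermediateField.adjoin K {xM}) M := hff.finiteDimensional htrM
  set xR : resField hV hR M := ⟨π ⟨x, hV.x_mem⟩, ⟨⟨x, hV.x_mem⟩, hxm, rfl⟩⟩ with hxR
  have htrX : Transcendental E xR := by
    exact (transcendental_algebraMap_iff (R := E) (a := xR) (algebraMap (resField hV hR M) R).injective).1 htrR
  refine ⟨xR, htrX, ?_⟩
  set LM := IntermediateField.adjoin K {xM} with hLM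
  set FM := IntermediateField.adjoin E {xR} with hFM
  have hLMU : ∀ a : LM, ((a : M) : U) ∈ IntermediateField.adjoin K {x} := by
    intro a
    obtain ⟨r, s, hrs⟩ := (IntermediateField.mem_adjoin_simple_iff K (a : M)).1 a.2
    refine (IntermediateField.mem_adjoin_simple_iff K _).2 ⟨r, s, ?_⟩
    have h1 : ∀ p : K[X], ((aeval xM p : M) : U) = aeval x p := by
      intro p
      have := (aeval_algHom_apply M.val xM p).symm
      exact this
    rw [hrs, ← h1, ← h1]
    rfl
  have hFMR : ∀ r : R, r ∈ IntermediateField.adjoin E {π ⟨x, hV.x_mem⟩} → ∃ a : FM, ((a : resField hV hR M) : R) = r := by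
    intro r hr
    obtain ⟨p, q, hpq⟩ := (IntermediateField.mem_adjoin_simple_iff E r).1 hr
    have h1 : ∀ p : E[X], ((aeval xR p : resField hV hR M) : R) = aeval (π ⟨x, hV.x_mem⟩) p := by
      intro p
      have := (aeval_algHom_apply (resField hV hR M).val xR p).symm
      exact this
    refine ⟨⟨aeval xR p / aeval xR q, (IntermediateField.mem_adjoin_simple_iff E _).2 ⟨p, q, rfl⟩⟩, ?_⟩
    rw [hpq, ← h1, ← h1]
    rfl
  have hrank : Module.rank FM (resField hV hR M) ≤ (Module.finrank LM M : ℕ) := by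
    refine rank_le fun s hs => ?_
    by_contra hcard
    rw [not_le] at hcard
    -- lifts
    have hlift : ∀ r : s, ∃ z : V, (z : U) ∈ M ∧ π z = ((r : resField hV hR M) : R) := fun r => (r : resField hV hR M).2
    choose z hzM hzπ using hlift
    have hdep : ¬ LinearIndependent LM (fun r : s => (⟨(z r : U), hzM r⟩ : M)) := by
      intro hli
      have h1 := hli.fintype_card_le_finrank
      rw [Fintype.card_coe] at h1
      omega
    obtain ⟨a, ha, r0, hr0⟩ := Fintype.not_linearIndependent_iff.1 hdep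
    have hsumU : ∑ r : s, ((a r : M) : U) * (z r : U) = 0 := by
      have h1 := congrArg (fun m : M => (m : U)) ha
      have h2 : ((∑ r : s, a r • (⟨(z r : U), hzM r⟩ : M) : M) : U) = ∑ r : s, ((a r : M) : U) * (z r : U) := by
        rw [← IntermediateField.coe_val, map_sum]
        rfl
      rw [← h2]
      exact h1
    obtain ⟨r1, -, hr1⟩ := Finset.exists_max_image Finset.univ (fun r : s => V.valuation ((a r : M) : U)) ⟨r0, Finset.mem_univ _⟩
    have ha1 : ((a r1 : M) : U) ≠ 0 := by
      intro h0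
      have h1 := hr1 r0 (Finset.mem_univ _)
      rw [h0, map_zero, le_zero_iff, Valuation.zero_iff] at h1
      apply hr0
      apply Subtype.ext
      apply Subtype.ext
      exact h1
    have hv1 : V.valuation ((a r1 : M) : U) ≠ 0 := (Valuation.ne_zero_iff _).2 ha1
    have hbV : ∀ r : s, ((a r : M) : U) / ((a r1 : M) : U) ∈ V := by
      intro r
      rw [← V.valuation_le_one_iff, map_div₀]
      exact (div_le_one₀ (zero_lt_iff.2 hv1)).2 (hr1 r (Finset.mem_univ _))
    let b : s → V := fun r => ⟨_, hbV r⟩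
    have hsumV : ∑ r : s, b r * z r = 0 := by
      apply Subtype.val_injective
      have h1 : ((∑ r : s, b r * z r : V) : U) = ∑ r : s, ((a r : M) : U) / ((a r1 : M) : U) * (z r : U) := by
        rw [← V.subtype_apply, map_sum]
        rfl
      rw [h1]
      have h2 : ∑ r : s, ((a r : M) : U) / ((a r1 : M) : U) * (z r : U) =
          (∑ r : s, ((a r : M) : U) * (z r : U)) / ((a r1 : M) : U) := by
        rw [Finset.sum_div]
        exact Finset.sum_congr rfl fun r _ => by ring
      rw [h2, hsumU, zero_div]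
      rfl
    have hbL : ∀ r : s, π (b r) ∈ IntermediateField.adjoin E {π ⟨x, hV.x_mem⟩} := by
      intro r
      refine resL_mem67 hb hV hR (b r) ?_
      exact div_mem (hLMU (a r)) (hLMU (a r1))
    choose c hc using fun r : s => hFMR _ (hbL r)
    have hsumR : ∑ r : s, c r • (r : resField hV hR M) = 0 := by
      apply Subtype.val_injective
      have h1 : ((∑ r : s, c r • (r : resField hV hR M) : resField hV hR M) : R) = ∑ r : s, π (b r) * π (z r) := by
        rw [← IntermediateField.coe_val, map_sum]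
        refine Finset.sum_congr rfl fun r _ => ?_
        rw [hzπ, ← hc]
        rfl
      rw [h1]
      have h2 := congrArg π hsumV
      rw [map_sum, map_zero] at h2
      simp only [map_mul] at h2
      rw [h2]
      rfl
    have h3 := Fintype.linearIndependent_iff.1 hs c hsumR r1
    have h4 : π (b r1) = 1 := by
      have h5 : b r1 = 1 := Subtype.ext (div_self ha1)
      rw [h5, map_one]
    have h6 := hc r1
    rw [h3, h4] at h6
    exact zero_ne_one h6
  have hlt : Module.rank FM (resField hV hR M) < Cardinal.aleph0 := hrank.trans_lt (Cardinal.natCast_lt_aleph0)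
  exact Module.rank_lt_aleph0_iff.1 hlt

/-- Every automorphism of the residue field over the residue field of `M` is induced by an
automorphism over `M`. -/
theorem USetup.exists_induces_over (hu : USetup E O t B M x) (hV : Gauss E O x V)
    (hR : Res E V π) (ρ : R ≃ₐ[E] R) (hρ : ∀ r ∈ resField hV hR M, ρ r = r) :
    ∃ g : U ≃ₐ[K] U, (∀ m ∈ M, g m = m) ∧ Induces π g ρ := by
  have hxm := hu.x_mem
  obtain ⟨g, hgx, hg⟩ := hu.exists_induces hV hR ρ (hρ _ ⟨⟨x, hV.x_mem⟩, hxm, rfl⟩)
  refine ⟨g, ?_, hg⟩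
  refine hu.trivial_of_residue hV g hgx M (hu.stab g hgx) fun z hz hzM => ?_
  have hgz : g z ∈ V := (hu.stable67 hV g hgx z).2 hz
  have h1 : π ⟨g z, hgz⟩ = π ⟨z, hz⟩ := by
    rw [← hg ⟨z, hz⟩ ⟨g z, hgz⟩ rfl]
    exact hρ _ ⟨⟨z, hz⟩, hzM, rfl⟩
  have h2 : π (⟨g z, hgz⟩ - ⟨z, hz⟩) = 0 := by rw [map_sub, h1, sub_self]
  exact (hR.ker _).1 h2

end Pool.Agent.LT
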