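import Pool.Agent.Helper13.LT.F0
import Pool.Agent.Helper13.LT.U4
import Pool.Agent.SC.Pub
import Pool.Agent.Helper91.Section.SE.Iner

/-!
# Block F4: the action of inertia on the residue field of `kbar K`

`inert_trivial`.  `a τ` is trivial on the residues of `W` and fixes `x`, `y`.  Simplest proof: let `R = V/𝔪_V`.  `a τ`
preserves `V` (U2 `USetup.stable`) and induces an automorphism `ρ` of `R` over `E(x̄)`, which by U4 (`exists_induces`) is
induced by some `g : U ≃ₐ[K] U` over `kbar(x)`.  `g y = ζ y`, and `y` is a unit of `V` (`y^n = f(x)/c`, `c` and `f(x)` are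
units); `(ζ - 1) y = g y - y ≡ a τ y - y = 0` mod `𝔪_V`, so `ζ = 1` (roots of unity are in `E`), `g` is trivial on
`MM = kbar(x, y)` and `a τ z ≡ g z = z` for `z ∈ MM ∩ V`.

`inert_nontrivial`.  Let `ϖ'^n = ϖ` in `kbar` and `c'^n = c₁`, `c'` a unit of `W`.  `w = ϖ'^j c' y` has `w^n = f(x)`, a unit of
`V`, and it is in `MM`.  There is `τ` in the inertia group of `W` with `τ ϖ' = ζ ϖ'`, `ζ` a
primitive `n`-th root of unity (`ϖ` is a uniformizer of `W ∩ k` by `hdisc`, so `k(ϖ')` is totally ramified; see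
`Helper91/Section/SE`), and `τ c' = c'` (`τ c'/c'` is an `n`-th root of unity congruent to `1`).  So
`a τ w = ζ^j w`, `ζ^j ≠ 1` as `n ∤ j`, and `a τ w - w = (ζ^j - 1) w` is a unit.
-/

universe u

namespace Pool.Agent.LT

open VC Polynomial Pool.Agent.SC Pool.Agent.Helper91.Sect

variable {k₁ k K : Type u} [Field k₁] [CharZero k₁] [Field k] [Field K] [Algebra k₁ k]
  [Algebra k K] [Algebra k₁ K] [IsScalarTower k₁ k K]
  {n : ℕ} {f : k[X]} {c : k} {x y : K}

section aux67

set_option linter.unusedSectionVars false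

private lemma toU_const67 (a : k) : toU (k := k) (K := K) (algebraMap k K a) =
    algebraMap (kbar k K) (UU k K) (algebraMap k (kbar k K) a) := by
  apply Subtype.ext
  rw [coe_toU]
  exact (IsScalarTower.algebraMap_apply k K (AlgebraicClosure K) a).symm

private lemma toU_aeval67 (x : K) (f : k[X]) : toU (k := k) (K := K) (aeval x f) =
    aeval (toU (k := k) (K := K) x) (f.map (algebraMap k (kbar k K))) := by
  rw [← eval_map_algebraMap (f.map _), map_map, eval_map, ← eval_map_algebraMap, eval_map,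
    hom_eval₂]
  congr 1

private lemma SuperE.eqU67 (h : SuperE n f c x y) :
    algebraMap (kbar k K) (UU k K) (algebraMap k (kbar k K) c) * toU (k := k) (K := K) y ^ n =
      aeval (toU (k := k) (K := K) x) (f.map (algebraMap k (kbar k K))) := by
  rw [← toU_aeval67, ← toU_const67, ← map_pow, ← map_mul, h.eq]

private lemma val_eq_one67 {V : ValuationSubring (UU k K)} {W : ValuationSubring (kbar k K)}
    (hV : Gauss (algebraicClosure k₁ (kbar k K)) W (toU (k := k) (K := K) x) V) {a : kbar k K} (ha : W.valuation a = 1) :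
    V.valuation (algebraMap (kbar k K) (UU k K) a) = 1 := by
  have h1 := A1.val_congr hV (c := a) (d := 1) (by rw [ha, map_one])
  rw [h1, map_one, map_one]

private lemma val_unit67 {W : ValuationSubring (kbar k K)} {a : kbar k K} (h1 : a ∈ W)
    (h2 : a ∉ W.nonunits) : W.valuation a = 1 := by
  rw [ValuationSubring.mem_nonunits_iff] at h2
  exact le_antisymm ((W.valuation_le_one_iff _).2 h1) (not_lt.1 h2)

private lemma val_f67 [IsAlgClosed (algebraicClosure k₁ (kbar k K))] [CharZero k] {W : ValuationSubring (kbar k K)}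
    {t' : kbar k K} (hb : Base (algebraicClosure k₁ (kbar k K)) W t') (hf : GoodRed W f) {V : ValuationSubring (UU k K)}
    (hV : Gauss (algebraicClosure k₁ (kbar k K)) W (toU (k := k) (K := K) x) V) :
    V.valuation (aeval (toU (k := k) (K := K) x) (f.map (algebraMap k (kbar k K)))) = 1 := by
  apply le_antisymm
  · have h1 := (Gauss.val_poly hb hV (f.map (algebraMap k (kbar k K))) 1).2 (by
      intro i
      rw [map_one, coeff_map]
      exact (W.valuation_le_one_iff _).2 (hf.mem i))
    rwa [map_one, map_one] at h1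
  · rw [← not_lt]
    intro hlt
    have h1 := (Gauss.val_poly_lt hb hV (f.map (algebraMap k (kbar k K))) 1 one_ne_zero).1 (by
      rw [map_one, map_one]
      exact hlt) f.natDegree
    rw [map_one, coeff_map] at h1
    exact hf.lead ((ValuationSubring.mem_nonunits_iff _).2 h1)

private lemma pow_eq_one_val67 {F : Type u} [Field F] (V : ValuationSubring F) {a : F} {m : ℕ}
    (hm : m ≠ 0) (h : V.valuation a ^ m = 1) : V.valuation a = 1 :=
  (pow_eq_one_iff_of_nonneg zero_le hm).1 h

private lemma root_E67 {ζ : kbar k K} {m : ℕ} (hm : m ≠ 0) (h : ζ ^ m = 1) :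
    ∃ e : (algebraicClosure k₁ (kbar k K)), algebraMap (algebraicClosure k₁ (kbar k K)) (kbar k K) e = ζ := by
  have h1 : IsIntegral k₁ ζ := IsIntegral.of_pow (Nat.pos_of_ne_zero hm) (by
    rw [h]
    exact isIntegral_one)
  exact ⟨⟨ζ, mem_algebraicClosure_iff.2 h1.isAlgebraic⟩, rfl⟩

private lemma root_unit67 {W : ValuationSubring (kbar k K)} {t' : kbar k K}
    (hb : Base (algebraicClosure k₁ (kbar k K)) W t') {ζ : kbar k K} {m : ℕ} (hm : m ≠ 0) (h : ζ ^ m = 1) (h1 : ζ ≠ 1) :
    W.valuation (ζ - 1) = 1 := by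
  obtain ⟨e, rfl⟩ := root_E67 (k₁ := k₁) hm h
  have h2 : e - 1 ≠ 0 := by
    intro h0
    apply h1
    rw [sub_eq_zero.1 h0, map_one]
  have h3 := A1.val_const hb h2
  rwa [map_sub, map_one] at h3

private lemma root_range67 [CharZero k] {z : UU k K} {m : ℕ} (hm : m ≠ 0) (h : z ^ m = 1) :
    ∃ ζ : kbar k K, algebraMap (kbar k K) (UU k K) ζ = z := by
  have h1 : (X ^ m - 1 : (kbar k K)[X]).Splits := IsAlgClosed.splits _
  have h0 : (X ^ m - 1 : (kbar k K)[X]) ≠ 0 := (monic_X_pow_sub_C (1 : kbar k K) hm).ne_zero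
  have h2 : ((X ^ m - 1 : (kbar k K)[X]).map (algebraMap (kbar k K) (UU k K))).IsRoot z := by
    rw [IsRoot, eval_map_algebraMap, map_sub, map_pow, aeval_X, map_one, h, sub_self]
  obtain ⟨ζ, hζ⟩ := h1.mem_range_of_isRoot h0 h2
  exact ⟨ζ, hζ⟩

/-- an automorphism fixing `x` and `y` fixes `MM` -/
private lemma SuperE.fix67 (h : SuperE n f c x y) (g : UU k K ≃ₐ[kbar k K] UU k K)
    (hgx : g (toU (k := k) (K := K) x) = toU (k := k) (K := K) x) (hgy : g (toU (k := k) (K := K) y) = toU (k := k) (K := K) y) : ∀ z ∈ MM k K, g z = z := by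
  let F : IntermediateField (kbar k K) (UU k K) :=
    { carrier := {z | g z = z}
      mul_mem' := fun {a b} ha hb => by
        show g (a * b) = a * b
        rw [map_mul, ha, hb]
      add_mem' := fun {a b} ha hb => by
        show g (a + b) = a + b
        rw [map_add, ha, hb]
      algebraMap_mem' := fun a => g.commutes a
      inv_mem' := fun a ha => by
        show g a⁻¹ = a⁻¹
        rw [map_inv₀, ha] }
  have hF : ∀ z, z ∈ F ↔ g z = z := fun z => Iff.rfl
  have hK : ∀ a : K, toU (k := k) (K := K) a ∈ F := by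
    intro a
    let T : IntermediateField k K :=
      { carrier := {a | toU (k := k) (K := K) a ∈ F}
        mul_mem' := fun {a b} ha hb => by
          show toU (k := k) (K := K) (a * b) ∈ F
          rw [map_mul]
          exact F.mul_mem ha hb
        add_mem' := fun {a b} ha hb => by
          show toU (k := k) (K := K) (a + b) ∈ F
          rw [map_add]
          exact F.add_mem ha hb
        algebraMap_mem' := fun a => by
          show toU (k := k) (K := K) (algebraMap k K a) ∈ F
          rw [toU_const67]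
          exact F.algebraMap_mem _
        inv_mem' := fun a ha => by
          show toU (k := k) (K := K) a⁻¹ ∈ F
          rw [map_inv₀]
          exact F.inv_mem ha }
    have h1 : IntermediateField.adjoin k {x, y} ≤ T := by
      refine IntermediateField.adjoin_le_iff.2 ?_
      rintro a (rfl | ha)
      · exact hgx
      · rw [Set.mem_singleton_iff.1 ha]
        exact hgy
    have h2 : a ∈ IntermediateField.adjoin k {x, y} := by
      rw [h.gen]
      exact IntermediateField.mem_top
    exact h1 h2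
  have h1 : KK k K ≤ IntermediateField.lift F := by
    refine IntermediateField.adjoin_le_iff.2 ?_
    rintro _ ⟨a, rfl⟩
    exact (IntermediateField.mem_lift (toU (k := k) (K := K) a)).2 (hK a)
  intro z hz
  have h2 : (z : AlgebraicClosure K) ∈ KK k K := (IntermediateField.mem_restrict (KK_le_UU k K) z).1 hz
  exact (IntermediateField.mem_lift z).1 (h1 h2)

private lemma nonunitsW67 {U : Type u} [Field U] {V : ValuationSubring U} {g : U ≃+* U}
    (hst : ∀ z, g z ∈ V ↔ z ∈ V) (z : U) : g z ∈ V.nonunits ↔ z ∈ V.nonunits := by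
  rw [ValuationSubring.mem_nonunits_iff_or, ValuationSubring.mem_nonunits_iff_or, ← map_inv₀, hst,
    map_eq_zero_iff g g.injective]

private lemma ind_homW67 {E U R : Type u} [Field E] [Field U] [Algebra E U] [Field R]
    [Algebra E R] {V : ValuationSubring U} {π : V →+* R} (hR : Res E V π) (g : U ≃+* U)
    (hst : ∀ z, g z ∈ V ↔ z ∈ V) :
    ∃ ρ : R →+* R, ∀ z w : V, (w : U) = g (z : U) → ρ (π z) = π w := by
  let f : V →+* V :=
    { toFun := fun z => ⟨g (z : U), (hst z).2 z.2⟩
      map_one' := Subtype.ext (map_one g)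
      map_mul' := fun a b => Subtype.ext (map_mul g (a : U) b)
      map_zero' := Subtype.ext (map_zero g)
      map_add' := fun a b => Subtype.ext (map_add g (a : U) b) }
  have hker : RingHom.ker π ≤ RingHom.ker (π.comp f) := by
    intro z hz
    rw [RingHom.mem_ker] at hz ⊢
    rw [RingHom.comp_apply, hR.ker]
    exact (nonunitsW67 hst z).2 ((hR.ker z).1 hz)
  refine ⟨π.liftOfSurjective hR.surj ⟨π.comp f, hker⟩, fun z w hw => ?_⟩
  rw [RingHom.liftOfSurjective_comp_apply]
  show π (f z) = π w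
  congr 1
  exact Subtype.ext hw.symm

/-- an automorphism which is trivial on the residues of `E` induces an automorphism over `E` -/
private lemma indW67 {E U R : Type u} [Field E] [Field U] [Algebra E U] [Field R]
    [Algebra E R] {V : ValuationSubring U} {π : V →+* R} (hR : Res E V π) (g : U ≃+* U)
    (hst : ∀ z, g z ∈ V ↔ z ∈ V) (hE : ∀ e : E, algebraMap E U e ∈ V)
    (hEg : ∀ e : E, g (algebraMap E U e) - algebraMap E U e ∈ V.nonunits) :
    ∃ ρ : R ≃ₐ[E] R, Induces π g ρ := by
  have hst' : ∀ z, g.symm z ∈ V ↔ z ∈ V := by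
    intro z
    rw [← hst, g.apply_symm_apply]
  obtain ⟨ρ1, h1⟩ := ind_homW67 hR g hst
  obtain ⟨ρ2, h2⟩ := ind_homW67 hR g.symm hst'
  have e1 : ρ2.comp ρ1 = RingHom.id R := by
    ext r
    obtain ⟨z, rfl⟩ := hR.surj r
    rw [RingHom.comp_apply, h1 z ⟨g z, (hst z).2 z.2⟩ rfl, h2 _ z (g.symm_apply_apply (z : U)).symm]
    rfl
  have e2 : ρ1.comp ρ2 = RingHom.id R := by
    ext r
    obtain ⟨z, rfl⟩ := hR.surj r
    rw [RingHom.comp_apply, h2 z ⟨g.symm z, (hst' z).2 z.2⟩ rfl,
      h1 _ z (g.apply_symm_apply (z : U)).symm]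
    rfl
  let ρ : R ≃+* R := RingEquiv.ofRingHom ρ1 ρ2 e2 e1
  refine ⟨AlgEquiv.ofRingEquiv (f := ρ) ?_, ?_⟩
  · intro e
    have hgE : g (algebraMap E U e) ∈ V := (hst _).2 (hE e)
    have h3 : ρ (π ⟨_, hE e⟩) = π ⟨_, hgE⟩ := h1 _ _ rfl
    have h4 : π ⟨_, hgE⟩ - π ⟨_, hE e⟩ = 0 := by
      rw [← map_sub]
      exact (hR.ker _).2 (hEg e)
    rw [← hR.const e ⟨_, hE e⟩ rfl, h3]
    exact sub_eq_zero.1 h4
  · intro z w hw
    exact h1 z w hw

/-- the values of the trace of `W` on `k` -/
private lemma val_comap67 (W : ValuationSubring (kbar k K)) {a b : k} (hb : b ≠ 0) :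
    (W.comap (algebraMap k (kbar k K))).valuation a =
      (W.comap (algebraMap k (kbar k K))).valuation b ↔
    W.valuation (algebraMap k (kbar k K) a) = W.valuation (algebraMap k (kbar k K) b) := by
  set O : ValuationSubring k := W.comap (algebraMap k (kbar k K)) with hO
  have key : ∀ a b : k, b ≠ 0 → (O.valuation a ≤ O.valuation b ↔
      W.valuation (algebraMap k (kbar k K) a) ≤ W.valuation (algebraMap k (kbar k K) b)) := by
    intro a b hb
    have h1 : O.valuation b ≠ 0 := (Valuation.ne_zero_iff _).2 hb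
    have h2 : W.valuation (algebraMap k (kbar k K) b) ≠ 0 :=
      (Valuation.ne_zero_iff _).2 ((_root_.map_ne_zero _).2 hb)
    rw [← div_le_one₀ (zero_lt_iff.2 h1), ← div_le_one₀ (zero_lt_iff.2 h2), ← map_div₀,
      ← map_div₀, ← map_div₀, O.valuation_le_one_iff, W.valuation_le_one_iff]
    exact Iff.rfl
  rcases eq_or_ne a 0 with rfl | ha
  · rw [map_zero, map_zero, map_zero, eq_comm, Valuation.zero_iff, eq_comm (a := (0 : W.ValueGroup)),
      Valuation.zero_iff, map_eq_zero]
  · constructor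
    · intro h
      exact le_antisymm ((key a b hb).1 h.le) ((key b a ha).1 h.ge)
    · intro h
      exact le_antisymm ((key a b hb).2 h.le) ((key b a ha).2 h.ge)

/-- the inertia group of the centre of `W` is the inertia group of `W` -/
private lemma inInert67 [CharZero k] {W : ValuationSubring (kbar k K)} {τ : Gk k K}
    (hτ : InI (H1.cen k W) τ) : InInert W τ := by
  have hV : ∀ c ∈ W.comap (algebraMap k (kbar k K)), algebraMap k (kbar k K) c ∈ W :=
    fun c hc => hc
  have h1 : H1.cen k W = cenV W hV := by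
    ext b
    rw [H1.mem_cen, mem_cenV, ValuationSubring.mem_nonunits_iff]
  have h2 : locW (H1.cen k W) = W := by
    ext z
    have h3 := mem_iff_locW hV z
    have h4 : z ∈ locW (H1.cen k W) ↔ z ∈ locW (cenV W hV) := by
      rw [mem_locW, mem_locW]
      constructor
      · rintro ⟨b, hb, hb'⟩
        exact ⟨b, by rwa [← h1], hb'⟩
      · rintro ⟨b, hb, hb'⟩
        exact ⟨b, by rwa [h1], hb'⟩
    exact h4.trans h3
  have h5 : ∀ z, τ z ∈ locW (H1.cen k W) ↔ z ∈ locW (H1.cen k W) := stab_locW (H1.cen k W) hτ.1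
  have h6 : ∀ z, (locW (H1.cen k W)).valuation z ≤ 1 → (locW (H1.cen k W)).valuation (τ z - z) < 1 :=
    fun z hz => val_inertia (H1.cen k W) hτ hz
  rw [h2] at h5 h6
  refine ⟨h5, fun z hz => ?_⟩
  rw [ValuationSubring.mem_nonunits_iff]
  exact h6 z ((W.valuation_le_one_iff z).2 hz)

end aux67

/-- If `c` is a unit then inertia acts trivially. -/
theorem SuperE.inert_trivial (h : SuperE n f c x y) (s : GaloisSection k K)
    {W : ValuationSubring (kbar k K)} {t' : kbar k K}
    (hb : Base (algebraicClosure k₁ (kbar k K)) W t') (hf : GoodRed W f)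
    (hu : USetup (algebraicClosure k₁ (kbar k K)) W t' (rootsB K f) (MM k K) (toU (k := k) (K := K) x))
    (hc : algebraMap k (kbar k K) c ∈ W) (hc1 : algebraMap k (kbar k K) c ∉ W.nonunits)
    {V : ValuationSubring (UU k K)}
    (hV : Gauss (algebraicClosure k₁ (kbar k K)) W (toU (k := k) (K := K) x) V) {τ : Gk k K} (hτ : InInert W τ)
    {z : UU k K} (hz : z ∈ V) (hzM : z ∈ MM k K) : actU s τ z - z ∈ V.nonunits := by
  have hac : IsAlgClosed (algebraicClosure k₁ (kbar k K)) :=
    (inferInstance : IsAlgClosure k₁ (algebraicClosure k₁ (kbar k K))).isAlgClosed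
  have hk0 : CharZero k := charZero_of_injective_algebraMap (algebraMap k₁ k).injective
  have hn0 : n ≠ 0 := by
    have := h.two_le
    omega
  have hE : ∀ e : algebraicClosure k₁ (kbar k K),
      algebraMap (algebraicClosure k₁ (kbar k K)) (UU k K) e ∈ V := by
    intro e
    have h1 : algebraMap (algebraicClosure k₁ (kbar k K)) (UU k K) e =
      algebraMap (kbar k K) (UU k K) (algebraMap _ (kbar k K) e) := rfl
    rw [h1, hV.mem_iff]
    exact hb.const e
  -- the residue field
  let iota : algebraicClosure k₁ (kbar k K) →+* V :=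
    (algebraMap (algebraicClosure k₁ (kbar k K)) (UU k K)).codRestrict V.toSubring hE
  let iA : Algebra (algebraicClosure k₁ (kbar k K)) (IsLocalRing.ResidueField V) :=
    ((IsLocalRing.residue V).comp iota).toAlgebra
  have hR : Res (algebraicClosure k₁ (kbar k K)) V (IsLocalRing.residue V) := by
    refine ⟨IsLocalRing.residue_surjective, fun w => ?_, fun e w hw => ?_⟩
    · rw [IsLocalRing.residue_eq_zero_iff, ValuationSubring.coe_mem_nonunits_iff]
    · have h1 : w = iota e := Subtype.ext hw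
      rw [h1]
      rfl
  have hst : ∀ w, actU s τ w ∈ V ↔ w ∈ V := fun w =>
    hu.stable hV (actU s τ) (phi k K τ) (actU_const s τ) (fun a => hτ.1 a) (actU_toU s τ x) w
  obtain ⟨ρ, hρ⟩ := indW67 hR (actU s τ) hst hE (by
    intro e
    have h1 : algebraMap (algebraicClosure k₁ (kbar k K)) (UU k K) e =
      algebraMap (kbar k K) (UU k K) (algebraMap _ (kbar k K) e) := rfl
    rw [h1, actU_const, ← map_sub, ValuationSubring.mem_nonunits_iff, A1.val_lt_one_iff hV,
      ← ValuationSubring.mem_nonunits_iff]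
    exact hτ.2 _ (hb.const e))
  obtain ⟨g, hgx, hg⟩ := hu.exists_induces hV hR ρ (hρ _ _ (actU_toU s τ x).symm)
  -- `y` is a unit
  have hcv : V.valuation (algebraMap (kbar k K) (UU k K) (algebraMap k (kbar k K) c)) = 1 :=
    val_eq_one67 hV (val_unit67 hc hc1)
  have hyn : V.valuation (toU (k := k) (K := K) y) ^ n = 1 := by
    have h1 := val_f67 hb hf hV
    rw [← h.eqU67, map_mul, map_pow, hcv, one_mul] at h1
    exact h1
  have hyv : V.valuation (toU (k := k) (K := K) y) = 1 := pow_eq_one_val67 V hn0 hyn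
  have hyV : toU (k := k) (K := K) y ∈ V := (V.valuation_le_one_iff _).1 hyv.le
  have hy0 : toU (k := k) (K := K) y ≠ 0 := by
    intro h0
    rw [h0, map_zero] at hyv
    exact zero_ne_one hyv
  -- `g y = ζ y`
  have hgyn : g (toU (k := k) (K := K) y) ^ n = toU (k := k) (K := K) y ^ n := by
    have h1 := congrArg g h.eqU67
    have h2 : g (aeval (toU (k := k) (K := K) x) (f.map (algebraMap k (kbar k K)))) =
        aeval (toU (k := k) (K := K) x) (f.map (algebraMap k (kbar k K))) := by
      have h3 := (aeval_algHom_apply (g : UU k K →ₐ[kbar k K] UU k K) (toU (k := k) (K := K) x)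
        (f.map (algebraMap k (kbar k K)))).symm
      have h4 : (g : UU k K →ₐ[kbar k K] UU k K) (toU (k := k) (K := K) x) = toU (k := k) (K := K) x := hgx
      rw [h4] at h3
      exact h3
    rw [h2, ← h.eqU67, map_mul, AlgEquiv.commutes, map_pow] at h1
    refine mul_left_cancel₀ ?_ h1
    intro h0
    rw [h0, map_zero] at hcv
    exact zero_ne_one hcv
  obtain ⟨ζ, hζ⟩ := root_range67 (z := g (toU (k := k) (K := K) y) / toU (k := k) (K := K) y) hn0 (by
    rw [div_pow, hgyn]
    exact div_self (pow_ne_zero _ hy0))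
  have hgy : g (toU (k := k) (K := K) y) = algebraMap (kbar k K) (UU k K) ζ * toU (k := k) (K := K) y := by
    rw [hζ, div_mul_cancel₀ _ hy0]
  have hζn : ζ ^ n = 1 := by
    apply (algebraMap (kbar k K) (UU k K)).injective
    rw [map_pow, hζ, map_one, div_pow, hgyn]
    exact div_self (pow_ne_zero _ hy0)
  have hgst : ∀ w, w ∈ V → g w ∈ V := fun w hw =>
    (hu.stable hV (g : UU k K ≃+* UU k K) (RingEquiv.refl _) (fun a => g.commutes a)
      (fun _ => Iff.rfl) hgx w).2 hw
  have hcmp : ∀ w (hw : w ∈ V), actU s τ w - g w ∈ V.nonunits := by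
    intro w hw
    have h1 := hρ ⟨w, hw⟩ ⟨actU s τ w, (hst w).2 hw⟩ rfl
    have h2 := hg ⟨w, hw⟩ ⟨g w, hgst w hw⟩ rfl
    have h3 : IsLocalRing.residue V (⟨actU s τ w, (hst w).2 hw⟩ - ⟨g w, hgst w hw⟩) = 0 := by
      rw [map_sub, ← h1, ← h2, sub_self]
    exact (hR.ker _).1 h3
  have hζ1 : ζ = 1 := by
    by_contra hne
    have h1 := hcmp _ hyV
    rw [actU_toU, hgy, ValuationSubring.mem_nonunits_iff] at h1
    have h2 : toU (k := k) (K := K) y - algebraMap (kbar k K) (UU k K) ζ * toU (k := k) (K := K) y =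
        -(algebraMap (kbar k K) (UU k K) (ζ - 1) * toU (k := k) (K := K) y) := by
      rw [map_sub, map_one]
      ring
    rw [h2, Valuation.map_neg, map_mul, hyv, mul_one,
      val_eq_one67 hV (root_unit67 hb hn0 hζn hne)] at h1
    exact lt_irrefl _ h1
  have hgy1 : g (toU (k := k) (K := K) y) = toU (k := k) (K := K) y := by
    rw [hgy, hζ1, map_one, one_mul]
  have h1 := hcmp z hz
  rwa [h.fix67 g hgx hgy1 z hzM] at h1

/-- If the order of `c` is not divisible by `n` then some inertia element acts nontrivially. -/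
theorem SuperE.inert_nontrivial (h : SuperE n f c x y) (s : GaloisSection k K)
    {W : ValuationSubring (kbar k K)} {t' : kbar k K}
    (hb : Base (algebraicClosure k₁ (kbar k K)) W t') (hf : GoodRed W f)
    {ϖ c₁ : k} {j : ℕ} (hϖ : algebraMap k (kbar k K) ϖ ∈ W.nonunits) (hϖ0 : ϖ ≠ 0)
    (hdisc : ∀ z : k, z ≠ 0 → ∃ i : ℤ, W.valuation (algebraMap k (kbar k K) z) =
      W.valuation (algebraMap k (kbar k K) ϖ) ^ i)
    (hcj : c = ϖ ^ j * c₁) (hj : ¬ n ∣ j) (hc₁ : algebraMap k (kbar k K) c₁ ∈ W)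
    (hc₁u : algebraMap k (kbar k K) c₁ ∉ W.nonunits)
    {V : ValuationSubring (UU k K)}
    (hV : Gauss (algebraicClosure k₁ (kbar k K)) W (toU (k := k) (K := K) x) V) :
    ∃ τ : Gk k K, InInert W τ ∧ ∃ z ∈ V, z ∈ MM k K ∧ actU s τ z - z ∉ V.nonunits := by
  have hac : IsAlgClosed (algebraicClosure k₁ (kbar k K)) :=
    (inferInstance : IsAlgClosure k₁ (algebraicClosure k₁ (kbar k K))).isAlgClosed
  have hk0 : CharZero k := charZero_of_injective_algebraMap (algebraMap k₁ k).injective
  have hn0 : n ≠ 0 := by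
    have := h.two_le
    omega
  -- `j = g j'`, `n = g n'`
  obtain ⟨n', hn'⟩ : Nat.gcd n j ∣ n := Nat.gcd_dvd_left n j
  obtain ⟨j', hj'⟩ : Nat.gcd n j ∣ j := Nat.gcd_dvd_right n j
  have hgpos : 0 < Nat.gcd n j := Nat.gcd_pos_of_pos_left _ (Nat.pos_of_ne_zero hn0)
  have hgj : Nat.gcd n j ∣ j := Nat.gcd_dvd_right n j
  have hgg : Nat.gcd n j = Nat.gcd (Nat.gcd n j * n') (Nat.gcd n j * j') := by
    rw [← hn', ← hj']
  generalize Nat.gcd n j = g at hn' hj' hgpos hgj hgg
  have hcop : Nat.gcd n' j' = 1 := by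
    rw [Nat.gcd_mul_left] at hgg
    exact Nat.eq_of_mul_eq_mul_left hgpos (by rw [← hgg, mul_one])
  have hn'1 : n' ≠ 1 := by
    intro h1
    apply hj
    rw [h1, mul_one] at hn'
    rw [hn']
    exact hgj
  obtain ⟨p, hp, hpn⟩ := Nat.exists_prime_and_dvd hn'1
  obtain ⟨m, hm⟩ := hpn
  have hpj : ¬ p ∣ j' := by
    intro h1
    have h2 : p ∣ Nat.gcd n' j' := Nat.dvd_gcd ⟨m, hm⟩ h1
    rw [hcop] at h2
    exact hp.one_lt.ne' (Nat.dvd_one.1 h2)
  -- the roots
  obtain ⟨ϖ', hϖ'⟩ := IsAlgClosed.exists_pow_nat_eq (algebraMap k (kbar k K) ϖ)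
    (Nat.pos_of_ne_zero hn0)
  obtain ⟨c', hc'⟩ := IsAlgClosed.exists_pow_nat_eq (algebraMap k (kbar k K) c₁)
    (Nat.pos_of_ne_zero hn0)
  obtain ⟨u, hu⟩ : ∃ u : kbar k K, u = ϖ' ^ j := ⟨_, rfl⟩
  have hu1 : (u ^ m) ^ p = algebraMap k (kbar k K) (ϖ ^ j') := by
    rw [hu, map_pow, ← hϖ', ← pow_mul, ← pow_mul, ← pow_mul]
    congr 1
    calc j * (m * p) = (g * j') * (m * p) := by rw [← hj']
      _ = (g * (p * m)) * j' := by ring
      _ = n * j' := by rw [← hm, ← hn']
  have hϖ0' : algebraMap k (kbar k K) ϖ ≠ 0 := (_root_.map_ne_zero _).2 hϖ0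
  have hϖ'0 : ϖ' ≠ 0 := by
    rintro rfl
    rw [zero_pow hn0] at hϖ'
    exact hϖ0' hϖ'.symm
  have hu0 : u ≠ 0 := by
    rw [hu]
    exact pow_ne_zero _ hϖ'0
  have hϖW : W.valuation (algebraMap k (kbar k K) ϖ) < 1 :=
    (ValuationSubring.mem_nonunits_iff _).1 hϖ
  have hϖ0W : W.valuation (algebraMap k (kbar k K) ϖ) ≠ 0 := (Valuation.ne_zero_iff _).2 hϖ0'
  have hodd : ∀ d : k, (W.comap (algebraMap k (kbar k K))).valuation (ϖ ^ j') ≠
      (W.comap (algebraMap k (kbar k K))).valuation d ^ p := by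
    intro d hd
    have hd0 : d ≠ 0 := by
      rintro rfl
      rw [map_zero, zero_pow hp.ne_zero, Valuation.zero_iff] at hd
      exact pow_ne_zero _ hϖ0 hd
    rw [← map_pow] at hd
    have h1 := (val_comap67 W (pow_ne_zero p hd0)).1 hd
    rw [map_pow, map_pow, map_pow, map_pow] at h1
    obtain ⟨i, hi⟩ := hdisc d hd0
    rw [hi, ← zpow_natCast, ← zpow_natCast, ← zpow_mul] at h1
    have h2 := zpow_right_injective₀ (zero_lt_iff.2 hϖ0W) hϖW.ne h1
    apply hpj
    have h3 : (p : ℤ) ∣ (j' : ℤ) := ⟨i, by rw [h2, mul_comm]⟩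
    exact_mod_cast h3
  have : NeZero (p : kbar k K) := ⟨by exact_mod_cast hp.ne_zero⟩
  obtain ⟨ζ, hζ⟩ := HasEnoughRootsOfUnity.exists_primitiveRoot (kbar k K) p
  obtain ⟨τ, hτI, hτu⟩ := Pool.Agent.Helper91.SE.exists_inertia_ne (H1.cen k W) (H1.above_cen W) hp hodd
    hu1 hζ
  have hτ : InInert W τ := inInert67 hτI
  have hτne : τ u ≠ u := by
    intro h1
    apply hτu
    rw [map_pow, h1]
  -- `τ u = η u`
  have hun : u ^ n = algebraMap k (kbar k K) (ϖ ^ j) := by
    rw [hu, ← pow_mul, mul_comm, pow_mul, hϖ', map_pow]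
  obtain ⟨η, hη⟩ : ∃ η : kbar k K, η = τ u / u := ⟨_, rfl⟩
  have hτη : τ u = η * u := by rw [hη, div_mul_cancel₀ _ hu0]
  have hηn : η ^ n = 1 := by
    rw [hη, div_pow, ← map_pow, hun, AlgEquiv.commutes, ← hun]
    exact div_self (pow_ne_zero _ hu0)
  have hη1 : η ≠ 1 := by
    intro h1
    apply hτne
    rw [hτη, h1, one_mul]
  -- `τ c' = c'`
  have hc₁W : W.valuation (algebraMap k (kbar k K) c₁) = 1 := val_unit67 hc₁ hc₁u
  have hc'W : W.valuation c' = 1 := pow_eq_one_val67 W hn0 (by rw [← map_pow, hc', hc₁W])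
  have hc'0 : c' ≠ 0 := by
    rintro rfl
    rw [map_zero] at hc'W
    exact zero_ne_one hc'W
  have hτc' : τ c' = c' := by
    have h1 : (τ c' / c') ^ n = 1 := by
      rw [div_pow, ← map_pow, hc', AlgEquiv.commutes, ← hc']
      exact div_self (pow_ne_zero _ hc'0)
    by_contra hne
    have h2 : τ c' / c' ≠ 1 := by
      intro h3
      rw [div_eq_one_iff_eq hc'0] at h3
      exact hne h3
    have h3 := root_unit67 hb hn0 h1 h2
    have h4 := hτ.2 c' ((W.valuation_le_one_iff _).1 hc'W.le)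
    rw [ValuationSubring.mem_nonunits_iff] at h4
    have h5 : τ c' - c' = (τ c' / c' - 1) * c' := by
      rw [sub_mul, div_mul_cancel₀ _ hc'0, one_mul]
    rw [h5, map_mul, h3, hc'W, one_mul] at h4
    exact lt_irrefl _ h4
  obtain ⟨w, hw⟩ : ∃ w : UU k K, w = algebraMap (kbar k K) (UU k K) (u * c') * toU (k := k) (K := K) y :=
    ⟨_, rfl⟩
  have hwn : w ^ n = aeval (toU (k := k) (K := K) x) (f.map (algebraMap k (kbar k K))) := by
    rw [hw, mul_pow, ← map_pow, mul_pow, hun, hc', ← map_mul, ← hcj, h.eqU67]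
  have hwv : V.valuation w = 1 := pow_eq_one_val67 V hn0 (by
    rw [← map_pow, hwn]
    exact val_f67 hb hf hV)
  have hτw : actU s τ w = algebraMap (kbar k K) (UU k K) η * w := by
    rw [hw, map_mul, actU_const, actU_toU, map_mul τ, hτη, hτc', ← mul_assoc, ← map_mul, mul_assoc]
  refine ⟨τ, hτ, w, (V.valuation_le_one_iff _).1 hwv.le, ?_, ?_⟩
  · rw [hw]
    exact (MM k K).mul_mem ((MM k K).algebraMap_mem _) (toU_mem y)
  · intro h1
    rw [ValuationSubring.mem_nonunits_iff, hτw] at h1
    have h2 : algebraMap (kbar k K) (UU k K) η * w - w =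
        algebraMap (kbar k K) (UU k K) (η - 1) * w := by
      rw [map_sub, map_one, sub_mul, one_mul]
    rw [h2, map_mul, hwv, mul_one, val_eq_one67 hV (root_unit67 hb hn0 hηn hη1)] at h1
    exact lt_irrefl _ h1

end Pool.Agent.LT
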