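import Pool.Agent.Helper13.LT.F0
import Pool.Agent.SC.Pub
import Pool.Agent.SC.T3

/-!
# A stable place of `UU` makes the section geometric
-/

universe u

namespace Pool.Agent.LT

open VC Polynomial Pool.Agent.SC Pool.Agent.Helper91.Sect

/-- `Kur` and `UU` are the same field. -/
noncomputable def eU (k K : Type u) [Field k] [Field K] [Algebra k K] : Kur k K ≃+* UU k K where
  toFun z := ⟨z, (mem_UU k K).2 z.2⟩
  invFun z := ⟨z, (mem_UU k K).1 z.2⟩
  left_inv _ := rfl
  right_inv _ := rfl
  map_mul' _ _ := rfl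
  map_add' _ _ := rfl

theorem coe_eU {k K : Type u} [Field k] [Field K] [Algebra k K] (z : Kur k K) :
    ((eU k K z : UU k K) : AlgebraicClosure K) = z := rfl

/-- A place of `Kur` which is stable under the section is geometric. -/
theorem isGeometric_of_place {k K : Type u} [Field k] [CharZero k] [Field K] [Algebra k K]
    (hK : IsFunctionField k K) (s : GaloisSection k K) {P : ValuationSubring (UU k K)}
    (hP : ∀ c : kbar k K, algebraMap (kbar k K) (UU k K) c ∈ P) (hP1 : P ≠ ⊤)
    (hst : ∀ (γ : Gk k K) (z : UU k K), actU s γ z ∈ P ↔ z ∈ P) : IsGeometric s := by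
  let V : ValuationSubring (Kur k K) := P.comap ((eU k K : Kur k K ≃+* UU k K) : Kur k K →+* UU k K)
  have hV : ∀ w : Kur k K, w ∈ V ↔ eU k K w ∈ P := fun w => Iff.rfl
  have h1 : V ≠ ⊤ := by
    intro h
    apply hP1
    rw [eq_top_iff]
    intro z _
    have h2 : (eU k K).symm z ∈ V := by rw [h]; trivial
    rwa [hV, RingEquiv.apply_symm_apply] at h2
  have h2 : ∀ c : kbar k K, toKur k K c ∈ V := fun c => hP c
  have h3 : ∀ (γ : Gk k K) (w : Kur k K), s.toHom γ w ∈ V ↔ w ∈ V := by
    intro γ w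
    rw [hV, hV, ← hst γ (eU k K w)]
    have h4 : eU k K (s.toHom γ w) = actU s γ (eU k K w) := by
      apply Subtype.ext
      rw [coe_actU]
      rfl
    rw [h4]
  refine ⟨V, h1, fun c hc => ?_, h3, fun z hz => ?_⟩
  · obtain ⟨d, rfl⟩ := exists_toKur hc
    exact h2 d
  · exact exists_rational_residue s hK h1 h2 h3 hz

end Pool.Agent.LT
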