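import Pool.Agent.Helper13.LT.L0
import Pool.Agent.Helper13.LT.L1

/-!
# Existence of the place `t = 0`
-/

universe u

namespace Pool.Agent.LT

open Polynomial

section Place

variable {F k C : Type u} [Field F] [Field k] [Field C] [Algebra F k] [Algebra k C]
  [Algebra F C] [IsScalarTower F k C] {t u : k}

omit [Algebra F C] [IsScalarTower F k C] in
/-- Existence of a place above `t = 0`. -/
theorem exists_atZero (htu : AlgebraicIndependent F ![t, u]) :
    ∃ W : ValuationSubring C, AtZero F t u W := by
  let L := IntermediateField.adjoin F {u}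
  have htr : Transcendental L (algebraMap k C t) := by
    rw [transcendental_algebraMap_iff (algebraMap k C).injective]
    exact transc_t htu
  let φ : L[X] →+* C := (aeval (algebraMap k C t) : L[X] →ₐ[L] C).toRingHom
  have hφ : Function.Injective φ := transcendental_iff_injective.1 htr
  let A : Subring C := φ.range
  let e : L[X] ≃+* A := RingEquiv.ofBijective φ.rangeRestrict
    ⟨fun a b h => hφ (congrArg Subtype.val h), φ.rangeRestrict_surjective⟩
  let I : Ideal A := Ideal.map (e : L[X] →+* A) (Ideal.span {X})
  have hI : I ≠ ⊤ := by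
    intro h
    have h1 : Ideal.span {(X : L[X])} = ⊤ := by
      have h2 := congrArg (Ideal.comap (e : L[X] →+* A)) h
      rw [Ideal.comap_top] at h2
      rw [← h2]
      exact (Ideal.comap_map_of_bijective (e : L[X] →+* A) e.bijective).symm
    rw [Ideal.span_singleton_eq_top] at h1
    exact not_isUnit_X h1
  obtain ⟨W, hAW, hIW⟩ := Ideal.image_subset_nonunits_valuationSubring I hI
  refine ⟨W, ⟨fun c hc => ?_, ?_⟩⟩
  · have h1 : φ (Polynomial.C ⟨c, hc⟩) = algebraMap k C c := by
      change aeval (algebraMap k C t) (Polynomial.C (⟨c, hc⟩ : L)) = _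
      rw [aeval_C]
      rfl
    rw [← h1]
    exact hAW ⟨_, rfl⟩
  · have h1 : (e X : C) = algebraMap k C t := by
      change aeval (algebraMap k C t) (X : L[X]) = _
      rw [aeval_X]
    rw [← h1]
    refine hIW ⟨e X, ?_, rfl⟩
    exact Ideal.mem_map_of_mem _ (Ideal.subset_span rfl)

end Place

end Pool.Agent.LT
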