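import Pool.Agent.Helper13.LT.U0
import Pool.Agent.Helper13.LT.U5

/-!
# Block S3: residually trivial automorphisms fix the places above the branch points

Case `x - b ∈ 𝔪_P`, `b ∈ B`: `φ b ∈ B` and `φ b - b ∈ 𝔪_O`, so `φ b = b` by `B_diff`.  Let
`P' = {z | σ z ∈ P}`: a valuation ring containing `K`, with `x - b ∈ 𝔪_{P'}`.  Let `z` be `IntO`,
with values `c` at `P` and `c'` at `P'` (in `O`).  Then `σ z` is `IntO`, its value at `P` is
`φ c'`, and `σ z - z ∈ 𝔪_V` is `IntO`, so by `eval_nonunits` (U5) `φ c' - c ∈ 𝔪_O`, and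
`φ c' - c' ∈ 𝔪_O`.  So `c - c' ∈ 𝔪_O` for all such `z`, and `P = P'` by `exists_separating`.
Case `x ∉ P`: let `n ∈ ℕ` avoid the residues of `B` (`exists_avoid`, A11), `x₁ = (x - n)⁻¹`; `σ x₁ = x₁`,
`B₁ = {0} ∪ {(b - n)⁻¹}` is stable under `φ`, and `x₁ - 0 ∈ 𝔪_P`: the first case for `x₁`.
-/

universe u

namespace Pool.Agent.LT

open VC Polynomial

variable {E K U : Type u} [Field E] [IsAlgClosed E] [CharZero E] [Field K] [IsAlgClosed K]
  [Algebra E K] [Field U] [Algebra K U] [Algebra E U] [IsScalarTower E K U]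
  {O : ValuationSubring K} {t : K} {x : U} {B : Finset K} {M : IntermediateField K U}
  {V : ValuationSubring U}

private lemma s3_nu {F : Type u} [Field F] (A : ValuationSubring F) (z : F) :
    z ∈ A.nonunits ↔ (z = 0 ∨ z⁻¹ ∉ A) := by
  rw [ValuationSubring.mem_nonunits_iff]
  by_cases hz : z = 0
  · subst hz
    simp
  · rw [← ValuationSubring.valuation_le_one_iff, map_inv₀, not_le]
    have h0 : A.valuation z ≠ 0 := by simpa using hz
    constructor
    · intro h
      right
      exact (one_lt_inv₀ (zero_lt_iff.mpr h0)).mpr h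
    · rintro (h | h)
      · exact absurd h hz
      · exact (one_lt_inv₀ (zero_lt_iff.mpr h0)).mp h

private lemma s3_comap {F : Type u} [Field F] (A : ValuationSubring F) (σ : F ≃+* F) (z : F) :
    z ∈ (A.comap σ.toRingHom).nonunits ↔ σ z ∈ A.nonunits := by
  rw [s3_nu, s3_nu, ValuationSubring.mem_comap]
  simp

private lemma s3_add {F : Type u} [Field F] {R : ValuationSubring F} {x y : F}
    (hx : x ∈ R.nonunits) (hy : y ∈ R.nonunits) : x + y ∈ R.nonunits := by
  rw [ValuationSubring.mem_nonunits_iff] at *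
  exact (R.valuation.map_add x y).trans_lt (max_lt hx hy)

private lemma s3_sub {F : Type u} [Field F] {R : ValuationSubring F} {x y : F}
    (hx : x ∈ R.nonunits) (hy : y ∈ R.nonunits) : x - y ∈ R.nonunits := by
  rw [ValuationSubring.mem_nonunits_iff] at *
  exact (R.valuation.map_sub x y).trans_lt (max_lt hx hy)

omit [IsAlgClosed E] [CharZero E] [IsAlgClosed K] [Algebra E K] [Algebra E U]
  [IsScalarTower E K U] in
private lemma s3_semi (σ : U ≃+* U) (φ : K ≃+* K)
    (hσ : ∀ c, σ (algebraMap K U c) = algebraMap K U (φ c))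
    (hφ : ∀ c, φ c ∈ O ↔ c ∈ O) (hx : σ x = x) {z : U} (hz : IntO O x z) :
    IntO O x (σ z) := by
  obtain ⟨Q, hQ, hO, he⟩ := hz
  refine ⟨Q.map (Polynomial.mapRingHom (φ : K →+* K)), hQ.map _, fun i j => ?_, ?_⟩
  · rw [Polynomial.coeff_map, Polynomial.coe_mapRingHom, Polynomial.coeff_map]
    exact (hφ _).mpr (hO i j)
  · have key : ((aeval x : K[X] →ₐ[K] U).toRingHom).comp (Polynomial.mapRingHom (φ : K →+* K)) =
        (σ : U →+* U).comp (aeval x : K[X] →ₐ[K] U).toRingHom := by
      apply Polynomial.ringHom_ext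
      · intro a
        simp [hσ]
      · simp [hx]
    rw [Polynomial.eval₂_map, key]
    have h2 := Polynomial.hom_eval₂ Q ((aeval x : K[X] →ₐ[K] U).toRingHom) (σ : U →+* U) z
    rw [he] at h2
    rw [map_zero] at h2
    exact h2.symm

omit [IsAlgClosed E] [CharZero E] [IsAlgClosed K] [Algebra E K] [Algebra E U]
  [IsScalarTower E K U] in
private lemma s3_const {c : K} (hc : c ∈ O) : IntO O x (algebraMap K U c) := by
  refine ⟨X - C (C c), monic_X_sub_C _, fun i j => ?_, by simp⟩
  rw [coeff_sub, coeff_sub]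
  apply O.toSubring.sub_mem
  · rw [coeff_X]
    split_ifs
    · rw [coeff_one]
      split_ifs
      · exact O.one_mem
      · exact O.zero_mem
    · rw [coeff_zero]
      exact O.zero_mem
  · rw [coeff_C]
    split_ifs
    · rw [coeff_C]
      split_ifs
      · exact hc
      · exact O.zero_mem
    · rw [coeff_zero]
      exact O.zero_mem

private lemma s3_case (hu : USetup E O t B M x) (hV : Gauss E O x V) (σ : U ≃+* U)
    (φ : K ≃+* K) (hσ : ∀ c, σ (algebraMap K U c) = algebraMap K U (φ c))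
    (hφ : ∀ c, φ c ∈ O ↔ c ∈ O) (hφ1 : ∀ c ∈ O, φ c - c ∈ O.nonunits) (hx : σ x = x)
    (hres : ∀ z ∈ V, σ z - z ∈ V.nonunits) (hB : ∀ b ∈ B, φ b ∈ B)
    {P : ValuationSubring U} (hP : ∀ c : K, algebraMap K U c ∈ P)
    {b : K} (hb : b ∈ B) (hxb : x - algebraMap K U b ∈ P.nonunits) (z : U) :
    σ z ∈ P ↔ z ∈ P := by
  have hbO : b ∈ O := hu.B_mem b hb
  have hφb : φ b = b := by
    by_contra hne
    exact hu.B_diff (φ b) (hB b hb) b hb hne (hφ1 b hbO)
  set P' : ValuationSubring U := P.comap σ.toRingHom with hP'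
  have hPP : P = P' := by
    by_contra hne
    have h1 : ∀ c : K, algebraMap K U c ∈ P' := by
      intro c
      rw [hP', ValuationSubring.mem_comap]
      show σ (algebraMap K U c) ∈ P
      rw [hσ]
      exact hP _
    have h2 : x - algebraMap K U b ∈ P'.nonunits := by
      rw [hP', s3_comap, map_sub, hx, hσ, hφb]
      exact hxb
    obtain ⟨w, hw, c, c', hc, hc', e1, e2, hcc⟩ :=
      hu.exists_separating hb hP h1 hxb h2 hne
    rw [hP', s3_comap, map_sub, hσ] at e2
    have i1 : IntO O x (σ w) := s3_semi σ φ hσ hφ hx hw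
    have i2 : IntO O x (algebraMap K U (-1) * w) :=
      (s3_const (x := x) (O.neg_mem _ O.one_mem)).mul hw
    have i3 : IntO O x (σ w - w) := by
      have := i1.add i2
      rwa [map_neg, map_one, neg_one_mul, ← sub_eq_add_neg] at this
    have i4 : σ w - w ∈ V.nonunits := hres w (hw.mem hV)
    have i5 : (σ w - w) - algebraMap K U (φ c' - c) ∈ P.nonunits := by
      have := s3_sub e2 e1
      rw [map_sub]
      convert this using 1
      ring
    have i6 := hu.eval_nonunits hV i3 i4 hP hbO hxb i5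
    apply hcc
    have i7 := s3_sub (hφ1 c' hc') i6
    convert i7 using 1
    ring
  constructor
  · intro h
    have : z ∈ P' := by
      rw [hP', ValuationSubring.mem_comap]
      exact h
    rwa [← hPP] at this
  · intro h
    rw [hPP, hP', ValuationSubring.mem_comap] at h
    exact h

theorem USetup.fixes_place (hu : USetup E O t B M x) (hV : Gauss E O x V) (σ : U ≃+* U)
    (φ : K ≃+* K) (hσ : ∀ c, σ (algebraMap K U c) = algebraMap K U (φ c))
    (hφ : ∀ c, φ c ∈ O ↔ c ∈ O) (hφ1 : ∀ c ∈ O, φ c - c ∈ O.nonunits) (hx : σ x = x)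
    (hres : ∀ z ∈ V, σ z - z ∈ V.nonunits) (hB : ∀ b ∈ B, φ b ∈ B)
    {P : ValuationSubring U} (hP : ∀ c : K, algebraMap K U c ∈ P) (hP1 : P ≠ ⊤)
    (hPB : x ∉ P ∨ ∃ b ∈ B, x - algebraMap K U b ∈ P.nonunits) (z : U) : σ z ∈ P ↔ z ∈ P := by
  classical
  rcases hPB with hxP | ⟨b, hb, hxb⟩
  · obtain ⟨n, hn⟩ := exists_avoid (E := E) hu.base B
    have hu1 := hu.sub (n : E)
    have hu2 := hu1.inv (by
      intro b hb
      obtain ⟨b', hb', rfl⟩ := Finset.mem_image.mp hb
      exact hn b' hb')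
    have hV1 := (Gauss.sub_iff (x := x) (V := V) hu.base (n : E)).mpr hV
    have hV2 := Gauss.inv hu.base hV1
    have hne : algebraMap E U (n : E) = (n : U) := by simp
    have hnk : algebraMap E K (n : E) = (n : K) := by simp
    have hnP : (n : U) ∈ P := by
      have := hP (n : K)
      rwa [map_natCast] at this
    refine s3_case hu2 hV2 σ φ hσ hφ hφ1 ?_ hres ?_ hP
      (Finset.mem_insert_self _ _) ?_ z
    · rw [map_inv₀, map_sub, hx, hne, map_natCast]
    · intro b hb
      rcases Finset.mem_insert.mp hb with rfl | hb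
      · rw [map_zero]
        exact Finset.mem_insert_self _ _
      · obtain ⟨b1, hb1, rfl⟩ := Finset.mem_image.mp hb
        obtain ⟨b2, hb2, rfl⟩ := Finset.mem_image.mp hb1
        apply Finset.mem_insert_of_mem
        apply Finset.mem_image.mpr
        refine ⟨φ b2 - algebraMap E K n, Finset.mem_image.mpr ⟨φ b2, hB _ hb2, rfl⟩, ?_⟩
        rw [map_inv₀, map_sub, hnk, map_natCast]
    · rw [map_zero, sub_zero, s3_nu, inv_inv, hne]
      right
      intro h
      apply hxP
      have := P.add_mem _ _ h hnP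
      rwa [sub_add_cancel] at this
  · exact s3_case hu hV σ φ hσ hφ hφ1 hx hres hB hP hb hxb z

end Pool.Agent.LT
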