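import Pool.Agent.Helper13.LT.F2
import Pool.Agent.Helper13.LT.F3
import Pool.Agent.Helper13.LT.F4
import Pool.Agent.Helper13.LT.F5a
import Pool.Agent.Helper13.LT.L0b
import Pool.Agent.Helper13.LT.S2
import Pool.Agent.Helper13.LT.S3

/-!
# Assembly: good places and the bad place
-/

universe u

namespace Pool.Agent.LT

open VC Polynomial Pool.Agent.SC Pool.Agent.Helper91.Sect

section

variable {k₁ k K : Type u} [Field k₁] [CharZero k₁] [Field k] [Field K] [Algebra k₁ k]
  [Algebra k K] [Algebra k₁ K] [IsScalarTower k₁ k K]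
  {n : ℕ} {f : k[X]} {c : k} {x y : K}

theorem phi_rootsB (γ : Gk k K) {b : kbar k K} (hb : b ∈ rootsB K f) :
    phi k K γ b ∈ rootsB K f := by
  classical
  unfold rootsB at hb ⊢
  rw [Multiset.mem_toFinset, mem_roots'] at hb ⊢
  refine ⟨hb.1, ?_⟩
  have h1 : aeval b f = 0 := by
    have := hb.2
    rw [IsRoot, eval_map_algebraMap] at this
    exact this
  rw [IsRoot, eval_map_algebraMap, phi_apply]
  have h2 : aeval (γ b) f = γ (aeval b f) := by
    rw [← AlgEquiv.coe_toAlgHom, Polynomial.aeval_algHom_apply]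
  rw [h2, h1, map_zero]

/-- At a good place inertia fixes the places above the branch points. -/
theorem fixes_of_good (s : GaloisSection k K)
    (hF : ∃ S : Finset k₁, Subfield.closure (S : Set k₁) = ⊤)
    (t : k) (ht : Transcendental k₁ t) (htop : IntermediateField.adjoin k₁ {t} = ⊤)
    (h : SuperE n f c x y) {W : ValuationSubring (kbar k K)} (hW : W ≠ ⊤)
    (hk₁ : ∀ c : k₁, algebraMap k₁ (kbar k K) c ∈ W) (hf : GoodRed W f)
    (hc : algebraMap k (kbar k K) c ∈ W) (hc1 : algebraMap k (kbar k K) c ∉ W.nonunits)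
    {P : ValuationSubring (UU k K)} (hP : ∀ c : kbar k K, algebraMap (kbar k K) (UU k K) c ∈ P)
    (hP1 : P ≠ ⊤)
    (hPB : toU (k := k) (K := K) x ∉ P ∨ ∃ b ∈ rootsB K f, toU (k := k) (K := K) x - algebraMap (kbar k K) (UU k K) b ∈ P.nonunits)
    {τ : Gk k K} (hτ : InInert W τ) (z : UU k K) : actU s τ z ∈ P ↔ z ∈ P := by
  have hac : IsAlgClosed (algebraicClosure k₁ (kbar k K)) :=
    (inferInstance : IsAlgClosure k₁ (algebraicClosure k₁ (kbar k K))).isAlgClosed
  have hk0 : CharZero k := charZero_of_injective_algebraMap (algebraMap k₁ k).injective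
  obtain ⟨t', hb⟩ := exists_base (K := K) t ht htop hW hk₁
  have hu := h.usetup hb hf
  obtain ⟨V, hV⟩ := exists_gauss (N := UU k K) hb hu.tr
  have ha := locAct s hF t ht htop hW hk₁ x
  have hres := ha.trivial hu hV (τ := τ) hτ (fun z hz hzM =>
    h.inert_trivial s hb hf hu hc hc1 hV hτ hz hzM)
  exact hu.fixes_place hV (actU s τ) (phi k K τ) (actU_const s τ) (fun c => hτ.1 c)
    (fun c hc => hτ.2 c hc) (actU_toU s τ x) hres (fun b hb => phi_rootsB τ hb) hP hP1 hPB z

/-- At a bad place there is a place stable under the decomposition group. -/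
theorem place_of_bad (s : GaloisSection k K)
    (hF : ∃ S : Finset k₁, Subfield.closure (S : Set k₁) = ⊤)
    (t : k) (ht : Transcendental k₁ t) (htop : IntermediateField.adjoin k₁ {t} = ⊤)
    (h : SuperE n f c x y) {W : ValuationSubring (kbar k K)} (hW : W ≠ ⊤)
    (hk₁ : ∀ c : k₁, algebraMap k₁ (kbar k K) c ∈ W) (hf : GoodRed W f)
    {ϖ c₁ : k} {j : ℕ} (hϖ : algebraMap k (kbar k K) ϖ ∈ W.nonunits) (hϖ0 : ϖ ≠ 0)
    (hdisc : ∀ z : k, z ≠ 0 → ∃ i : ℤ, W.valuation (algebraMap k (kbar k K) z) =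
      W.valuation (algebraMap k (kbar k K) ϖ) ^ i)
    (hcj : c = ϖ ^ j * c₁) (hj : ¬ n ∣ j) (hc₁ : algebraMap k (kbar k K) c₁ ∈ W)
    (hc₁u : algebraMap k (kbar k K) c₁ ∉ W.nonunits) :
    ∃ P : ValuationSubring (UU k K), (∀ c : kbar k K, algebraMap (kbar k K) (UU k K) c ∈ P) ∧
      P ≠ ⊤ ∧ (∀ γ : Gk k K, InDecomp W γ → ∀ z, actU s γ z ∈ P ↔ z ∈ P) ∧
      (toU (k := k) (K := K) x ∉ P ∨ ∃ b ∈ rootsB K f, toU (k := k) (K := K) x - algebraMap (kbar k K) (UU k K) b ∈ P.nonunits) := by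
  have hac : IsAlgClosed (algebraicClosure k₁ (kbar k K)) :=
    (inferInstance : IsAlgClosure k₁ (algebraicClosure k₁ (kbar k K))).isAlgClosed
  have hk0 : CharZero k := charZero_of_injective_algebraMap (algebraMap k₁ k).injective
  obtain ⟨t', hb⟩ := exists_base (K := K) t ht htop hW hk₁
  have hu := h.usetup hb hf
  obtain ⟨V, hV⟩ := exists_gauss (N := UU k K) hb hu.tr
  have ha := locAct s hF t ht htop hW hk₁ x
  obtain ⟨τ, hτ, z, hzV, hzM, hz⟩ := h.inert_nontrivial s hb hf hϖ hϖ0 hdisc hcj hj hc₁ hc₁u hV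
  exact ha.exists_place hu hV ⟨τ, hτ, z, hzV, hzM, hz⟩
    (fun g hgx hg hne P P' hP hP1 hPg hP' hP1' hPg' =>
      h.fixed_unique g hgx hg hne hP hP1 hPg hP' hP1' hPg')

end

section Closed

variable {k K : Type u} [Field k] [Field K] [Algebra k K]

/-- The stabilizer of a place. -/
def stabP (s : GaloisSection k K) (P : ValuationSubring (UU k K)) : Subgroup (Gk k K) where
  carrier := {γ | ∀ z, actU s γ z ∈ P ↔ z ∈ P}
  mul_mem' := fun {a b} ha hb z => by
    rw [map_mul]
    exact (ha _).trans (hb z)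
  one_mem' := fun z => by rw [map_one]; exact Iff.rfl
  inv_mem' := fun {a} ha z => by
    have h1 : actU s a (actU s a⁻¹ z) = z := by
      have h2 : actU s (a * a⁻¹) z = actU s a (actU s a⁻¹ z) := by rw [map_mul]; rfl
      rw [← h2, mul_inv_cancel, map_one]
      rfl
    rw [← ha (actU s a⁻¹ z), h1]

theorem isClosed_stabP [CharZero k] (s : GaloisSection k K) (P : ValuationSubring (UU k K)) :
    IsClosed (stabP s P : Set (Gk k K)) := by
  have hK0 : CharZero K := charZero_of_injective_algebraMap (algebraMap k K).injective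
  have hopen : ∀ (w : Kur k K) (A : Set (Kur k K)), IsOpen {γ : Gk k K | s.toHom γ w ∈ A} := by
    intro w A
    have h1 : IsOpen (MulAction.stabilizer (Pi1 k K) w : Set (Pi1 k K)) :=
      stabilizer_isOpen_of_isIntegral (K := K) (L := Kur k K) w
    rw [isOpen_iff_mem_nhds]
    intro γ hγ
    have h2 : IsOpen ((fun γ' : Gk k K => (s.toHom γ)⁻¹ * s.toHom γ') ⁻¹'
        (MulAction.stabilizer (Pi1 k K) w : Set (Pi1 k K))) :=
      h1.preimage (continuous_const.mul s.continuous_toHom)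
    refine Filter.mem_of_superset (h2.mem_nhds ?_) ?_
    · change (s.toHom γ)⁻¹ * s.toHom γ ∈ MulAction.stabilizer (Pi1 k K) w
      rw [inv_mul_cancel]
      exact Subgroup.one_mem _
    · intro γ' hγ'
      have h3 : ((s.toHom γ)⁻¹ * s.toHom γ') • w = w := hγ'
      have h4 : s.toHom γ' w = s.toHom γ w := by
        have h5 := congrArg (s.toHom γ) h3
        rw [mul_smul] at h5
        exact ((s.toHom γ).apply_symm_apply (s.toHom γ' w)).symm.trans h5
      change s.toHom γ' w ∈ A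
      rw [h4]
      exact hγ
  have hset : (stabP s P : Set (Gk k K)) =
      ⋂ z : UU k K, {γ : Gk k K | actU s γ z ∈ P ↔ z ∈ P} := by
    ext γ
    simp only [Set.mem_iInter]
    exact Iff.rfl
  rw [hset]
  refine isClosed_iInter fun z => ?_
  rw [← isOpen_compl_iff]
  have h5 := hopen ((eU k K).symm z) {w | ¬ (eU k K w ∈ P ↔ z ∈ P)}
  exact h5

end Closed

end Pool.Agent.LT
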