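import Pool.Agent.Helper13.LT.L2
import Pool.Agent.Helper13.LT.L3

/-!
# Block L4: the Lefschetz theorem

L1, L2, L3 show that the fixed field of `H` is `k`; `H` is closed (`InfiniteGalois`).
-/

universe u

namespace Pool.Agent.LT

open VC Polynomial Pool.Agent.SC

variable {F k C : Type u} [Field F] [CharZero F] [Field k] [Field C] [Algebra F k] [Algebra k C]
  [Algebra F C] [IsScalarTower F k C]

/-- A closed subgroup of the Galois group of `k = F(t, u)` which contains the inertia groups of
the good places and the decomposition group of a place above `t = 0` is the whole group. -/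
theorem lefschetz [IsAlgClosed C] [IsGalois k C]
    (hF : ∃ S : Finset F, Subfield.closure (S : Set F) = ⊤) (t u : k)
    (htu : AlgebraicIndependent F ![t, u]) (htop : IntermediateField.adjoin F {t, u} = ⊤)
    {Δ : F[X][X]} (hΔ : GoodDisc Δ) (H : Subgroup (C ≃ₐ[k] C))
    (hcl : IsClosed (H : Set (C ≃ₐ[k] C)))
    (hhor : ∀ W : ValuationSubring C, Horizontal F t u (ev F t u Δ) W → ∀ τ : C ≃ₐ[k] C,
      InInert W τ → τ ∈ H)
    (hver : ∀ W : ValuationSubring C, Vertical F t u (ev F t u Δ) W → ∀ τ : C ≃ₐ[k] C,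
      InInert W τ → τ ∈ H)
    {W : ValuationSubring C} (hW : AtZero F t u W)
    (hdec : ∀ τ : C ≃ₐ[k] C, InDecomp W τ → τ ∈ H) : H = ⊤ := by
  have hfix : IntermediateField.fixedField H = ⊥ := by
    rw [eq_bot_iff]
    intro z hz
    have hz' : ∀ τ ∈ H, τ z = z := fun τ hτ => hz ⟨τ, hτ⟩
    have h1 := horizontal_part t u htu htop hΔ H hhor hW hdec hz'
    obtain ⟨m, θ, hm, hθ, h2⟩ := vertical_part hF t u htu htop hΔ H hver hz' h1
    obtain ⟨c, hc⟩ := zero_part t u htu htop hW (fun τ hτ => hz' τ (hdec τ hτ)) hm hθ h2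
    rw [← hc]
    exact IntermediateField.algebraMap_mem _ _
  have h2 := InfiniteGalois.fixingSubgroup_fixedField (⟨H, hcl⟩ : ClosedSubgroup (C ≃ₐ[k] C))
  change (IntermediateField.fixedField H).fixingSubgroup = H at h2
  rw [hfix, IntermediateField.fixingSubgroup_bot] at h2
  exact h2.symm

end Pool.Agent.LT
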