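import Pool.Agent.Helper13.LT.F5b
import Pool.Agent.Helper13.LT.L4

/-!
# The main theorem
-/

universe u

namespace Pool.Agent.LT

open VC Polynomial Pool.Agent.SC Pool.Agent.Helper91.Sect

section Discr

/-- The discriminant commutes with injective ring homomorphisms. -/
theorem discr_map_of_injective {R S : Type*} [CommRing R] [IsDomain R] [CommRing S] [IsDomain S]
    (φ : R →+* S) (hφ : Function.Injective φ) (f : R[X]) (hf : 0 < f.natDegree) :
    (f.map φ).discr = φ f.discr := by
  have h1 : (f.map φ).natDegree = f.natDegree := natDegree_map_eq_of_injective hφ f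
  have h2 := resultant_deriv (f := f) (natDegree_pos_iff_degree_pos.1 hf)
  have h3 := resultant_deriv (f := f.map φ) (natDegree_pos_iff_degree_pos.1 (by rw [h1]; exact hf))
  have hlc : φ f.leadingCoeff ≠ 0 := by
    rw [Ne, map_eq_zero_iff φ hφ, leadingCoeff_eq_zero]
    rintro rfl
    simp at hf
  rw [h1, derivative_map, resultant_map_map, h2, map_mul, map_mul, map_pow, map_neg, map_one,
    leadingCoeff_map_of_injective hφ] at h3
  have h4 : ((-1 : S) ^ (f.natDegree * (f.natDegree - 1) / 2) * φ f.leadingCoeff) ≠ 0 :=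
    mul_ne_zero (pow_ne_zero _ (neg_ne_zero.2 one_ne_zero)) hlc
  exact (mul_left_cancel₀ h4 h3).symm

/-- Over a field of characteristic zero a polynomial with nonzero discriminant is separable. -/
theorem separable_of_discr {k : Type*} [Field k] [CharZero k] {f : k[X]} (hf : 0 < f.natDegree)
    (hd : f.discr ≠ 0) : f.Separable := by
  have h2 := resultant_deriv (f := f) (natDegree_pos_iff_degree_pos.1 hf)
  have h3 : f.derivative.natDegree = f.natDegree - 1 := natDegree_derivative f
  have h4 : resultant f f.derivative ≠ 0 := by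
    rw [h3, h2]
    refine mul_ne_zero (mul_ne_zero (pow_ne_zero _ (neg_ne_zero.2 one_ne_zero)) ?_) hd
    rw [Ne, leadingCoeff_eq_zero]
    rintro rfl
    simp at hf
  by_contra hcon
  apply h4
  rw [resultant_eq_zero_iff]
  refine ⟨Or.inl ?_, hcon⟩
  rintro rfl
  simp at hf

end Discr

section Ev

variable {F k : Type u} [Field F] [Field k] [Algebra F k] {t u : k}

theorem ev_C (p : F[X]) : ev F t u (C p) = aeval t p := eval₂_C _ _

theorem ev_X : ev F t u X = u := eval₂_X _ _

theorem ev_injective (htu : AlgebraicIndependent F ![t, u]) : Function.Injective (ev F t u) := by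
  rw [injective_iff_map_eq_zero]
  intro p hp
  have h1 : Function.Injective (aeval t : F[X] →ₐ[F] k) :=
    transcendental_iff_injective.1 (transc_F_t htu)
  have h2 := transc_u htu
  by_contra hne
  -- `p` as a polynomial over `F(t)`
  let φ : F[X] →+* IntermediateField.adjoin F {t} :=
    (aeval (⟨t, IntermediateField.mem_adjoin_simple_self _ _⟩ : IntermediateField.adjoin F {t}) :
      F[X] →ₐ[F] IntermediateField.adjoin F {t}).toRingHom
  have hφ : ∀ q : F[X], ((φ q : IntermediateField.adjoin F {t}) : k) = aeval t q := by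
    intro q
    change algebraMap (IntermediateField.adjoin F {t}) k (aeval _ q) = _
    rw [← aeval_algebraMap_apply]
    rfl
  have hφi : Function.Injective φ := by
    rw [injective_iff_map_eq_zero]
    intro q hq
    have h3 := hφ q
    rw [hq] at h3
    exact (map_eq_zero_iff _ h1).1 h3.symm
  refine h2 ⟨p.map φ, (Polynomial.map_ne_zero_iff hφi).2 hne, ?_⟩
  rw [aeval_def, eval₂_map]
  have h4 : (algebraMap (IntermediateField.adjoin F {t}) k).comp φ =
      (aeval t : F[X] →ₐ[F] k).toRingHom := by
    ext q
    · exact hφ _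
    · exact hφ _
  rw [h4]
  exact hp

end Ev

section Val

variable {F k C : Type u} [Field F] [Field k] [Field C] [Algebra F k] [Algebra k C] {t u : k}

theorem ev_mem {W : ValuationSubring C} (hF : ∀ c : F, algebraMap k C (algebraMap F k c) ∈ W)
    (ht : algebraMap k C t ∈ W) (hu : algebraMap k C u ∈ W) (p : F[X][X]) :
    algebraMap k C (ev F t u p) ∈ W := by
  have h1 : ∀ q : F[X], algebraMap k C (aeval t q) ∈ W := by
    intro q
    induction q using Polynomial.induction_on with
    | C a => rw [aeval_C]; exact hF a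
    | add p q hp hq => rw [map_add, map_add]; exact W.add_mem _ _ hp hq
    | monomial n a ih =>
      rw [pow_succ, ← mul_assoc, map_mul, map_mul, aeval_X]
      exact W.mul_mem _ _ ih ht
  induction p using Polynomial.induction_on with
  | C a => rw [ev_C]; exact h1 a
  | add p q hp hq => rw [map_add, map_add]; exact W.add_mem _ _ hp hq
  | monomial n a ih =>
    rw [pow_succ, ← mul_assoc, map_mul, map_mul, ev_X]
    exact W.mul_mem _ _ ih hu

/-- A divisor (with a quotient in `W`) of a unit of `W` is a unit. -/
theorem notMem_nonunits_of_mul {W : ValuationSubring C} {a b : C} (ha : a ∈ W) (hb : b ∈ W)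
    (h : a * b ∉ W.nonunits) : a ∉ W.nonunits ∧ b ∉ W.nonunits := by
  rw [ValuationSubring.mem_nonunits_iff, map_mul] at h
  rw [ValuationSubring.mem_nonunits_iff, ValuationSubring.mem_nonunits_iff]
  have ha' := (W.valuation_le_one_iff a).2 ha
  have hb' := (W.valuation_le_one_iff b).2 hb
  constructor
  · intro h1
    exact h ((mul_le_mul_right hb' _).trans_lt (by rwa [mul_one]))
  · intro h1
    exact h ((mul_le_mul_left ha' _).trans_lt (by rwa [one_mul]))

theorem pow_notMem_nonunits {W : ValuationSubring C} {a : C} (h : a ∉ W.nonunits) (N : ℕ) :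
    a ^ N ∉ W.nonunits := by
  rw [ValuationSubring.mem_nonunits_iff, not_lt] at h ⊢
  rw [map_pow]
  exact one_le_pow₀ h

end Val

section Main

variable {F k K : Type u} [Field F] [CharZero F] [Field k] [Field K]
    [Algebra F k] [Algebra k K]
    {t u : k} {n j N : ℕ} {f : F[X][X][X]} {c₁ Δ : F[X][X]} {x y : K}

omit [CharZero F] in
theorem goodRed (htu : AlgebraicIndependent F ![t, u]) (hdeg : 0 < f.natDegree)
    (hdvd : c₁ * f.leadingCoeff * f.discr ∣ Δ ^ N) {W : ValuationSubring (kbar k K)}
    (hF : ∀ c : F, algebraMap k (kbar k K) (algebraMap F k c) ∈ W)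
    (ht : algebraMap k (kbar k K) t ∈ W) (hu : algebraMap k (kbar k K) u ∈ W)
    (hΔ : algebraMap k (kbar k K) (ev F t u Δ) ∉ W.nonunits) :
    GoodRed W (f.map (ev F t u)) ∧ algebraMap k (kbar k K) (ev F t u c₁) ∈ W ∧
      algebraMap k (kbar k K) (ev F t u c₁) ∉ W.nonunits := by
  have hev := ev_injective htu
  obtain ⟨q, hq⟩ := hdvd
  have h1 : algebraMap k (kbar k K) (ev F t u (c₁ * f.leadingCoeff * f.discr * q)) ∉ W.nonunits := by
    rw [← hq, map_pow, map_pow]
    exact pow_notMem_nonunits hΔ N
  rw [map_mul, map_mul] at h1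
  have h2 := (notMem_nonunits_of_mul (ev_mem hF ht hu _) (ev_mem hF ht hu _) h1).1
  rw [map_mul, map_mul] at h2
  have h3 := notMem_nonunits_of_mul (ev_mem hF ht hu _) (ev_mem hF ht hu _) h2
  have h4 := h3.1
  rw [map_mul, map_mul] at h4
  have h5 := notMem_nonunits_of_mul (ev_mem hF ht hu _) (ev_mem hF ht hu _) h4
  refine ⟨⟨fun i => ?_, ?_, ?_⟩, ev_mem hF ht hu _, h5.1⟩
  · rw [coeff_map]
    exact ev_mem hF ht hu _
  · rw [leadingCoeff_map_of_injective hev]
    exact h5.2
  · rw [discr_map_of_injective _ hev f hdeg]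
    exact h3.2

theorem superE (htu : AlgebraicIndependent F ![t, u])
    (hn : 2 ≤ n) (hdeg : 3 ≤ f.natDegree) (hΔ : GoodDisc Δ)
    (hdvd : c₁ * f.leadingCoeff * f.discr ∣ Δ ^ N)
    (hx : Transcendental k x) (hgen : IntermediateField.adjoin k {x, y} = ⊤)
    (heq : algebraMap k K (t ^ j * ev F t u c₁) * y ^ n = aeval x (f.map (ev F t u))) :
    SuperE n (f.map (ev F t u)) (t ^ j * ev F t u c₁) x y := by
  have hk0 : CharZero k := charZero_of_injective_algebraMap (algebraMap F k).injective
  have hev := ev_injective htu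
  have hΔ0 : Δ ≠ 0 := by
    rintro rfl
    obtain ⟨c, hc, hlc⟩ := hΔ.lead
    rw [leadingCoeff_zero] at hlc
    exact hc (C_eq_zero.1 hlc.symm)
  have h0 : c₁ * f.leadingCoeff * f.discr ≠ 0 := fun h => by
    rw [h] at hdvd
    exact pow_ne_zero N hΔ0 (zero_dvd_iff.1 hdvd)
  have ht0 : t ≠ 0 := by
    rintro rfl
    exact transc_F_t htu isAlgebraic_zero
  refine ⟨hn, ?_, ?_, ?_, hx, heq, hgen⟩
  · rw [natDegree_map_eq_of_injective hev]
    exact hdeg
  · refine separable_of_discr ?_ ?_
    · rw [natDegree_map_eq_of_injective hev]; omega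
    · rw [discr_map_of_injective _ hev f (by omega), Ne, map_eq_zero_iff _ hev]
      exact right_ne_zero_of_mul h0
  · refine mul_ne_zero (pow_ne_zero _ ht0) ?_
    rw [Ne, map_eq_zero_iff _ hev]
    exact left_ne_zero_of_mul (left_ne_zero_of_mul h0)

omit [CharZero F] in
/-- `Δ(t, u)` is a unit at the places over `t = 0`. -/
theorem atZero_unit (htu : AlgebraicIndependent F ![t, u]) (hΔ : GoodDisc Δ)
    {W : ValuationSubring (kbar k K)} (hW : AtZero F t u W) :
    algebraMap k (kbar k K) (ev F t u Δ) ∉ W.nonunits := by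
  have ht : algebraMap k (kbar k K) t ∈ W := ValuationSubring.nonunits_subset hW.t_mem
  have hL : ∀ c : F[X], algebraMap k (kbar k K) (aeval u c) ∈ W := fun c =>
    hW.const _ (IntermediateField.algebra_adjoin_le_adjoin F {u}
      (aeval_mem_adjoin_singleton F u))
  have hu : algebraMap k (kbar k K) u ∈ W :=
    hW.const _ (IntermediateField.mem_adjoin_simple_self F u)
  have hF : ∀ c : F, algebraMap k (kbar k K) (algebraMap F k c) ∈ W := fun c =>
    hW.const _ (IntermediateField.algebraMap_mem _ c)
  -- congruence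
  have hcong : ∀ p : F[X][X], algebraMap k (kbar k K)
      (ev F t u p - aeval u (p.map (evalRingHom 0))) ∈ W.nonunits := by
    intro p
    induction p using Polynomial.induction_on' with
    | add p q hp hq =>
      have h1 : ev F t u (p + q) - aeval u ((p + q).map (evalRingHom 0)) =
          (ev F t u p - aeval u (p.map (evalRingHom 0))) +
          (ev F t u q - aeval u (q.map (evalRingHom 0))) := by
        rw [map_add, Polynomial.map_add, map_add]; ring
      rw [h1, map_add, ValuationSubring.mem_nonunits_iff]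
      exact W.valuation.map_add_lt ((ValuationSubring.mem_nonunits_iff _).1 hp)
        ((ValuationSubring.mem_nonunits_iff _).1 hq)
    | monomial n a =>
      have h1 : ev F t u (monomial n a) = aeval t a * u ^ n := by
        rw [← C_mul_X_pow_eq_monomial, map_mul, map_pow, ev_C, ev_X]
      have h2 : aeval u ((monomial n a).map (evalRingHom 0)) =
          algebraMap F k (a.eval 0) * u ^ n := by
        rw [map_monomial, aeval_monomial]
        rfl
      have h3 : aeval t a = t * aeval t a.divX + algebraMap F k (a.eval 0) := by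
        conv_lhs => rw [← divX_mul_X_add a]
        rw [map_add, map_mul, aeval_X, aeval_C, coeff_zero_eq_eval_zero]
        ring
      have h4 : ev F t u (monomial n a) - aeval u ((monomial n a).map (evalRingHom 0)) =
          t * (ev F t u (C a.divX * X ^ n)) := by
        rw [h1, h2, h3, map_mul, map_pow, ev_C, ev_X]
        ring
      rw [h4, map_mul, ValuationSubring.mem_nonunits_iff, map_mul]
      exact mul_lt_one_of_lt_of_le ((ValuationSubring.mem_nonunits_iff _).1 hW.t_mem)
        ((W.valuation_le_one_iff _).2 (ev_mem hF ht hu _))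
  intro h
  -- `Δ(0, u)` is a unit
  have h0 : aeval u (Δ.map (evalRingHom 0)) ≠ 0 := by
    intro h0
    exact transc_F_u htu ⟨_, hΔ.sep.ne_zero, h0⟩
  have h1 : (aeval u (Δ.map (evalRingHom 0)))⁻¹ ∈ IntermediateField.adjoin F {u} :=
    inv_mem (IntermediateField.algebra_adjoin_le_adjoin F {u} (aeval_mem_adjoin_singleton F u))
  have h2 := hW.const _ h1
  have h3 : algebraMap k (kbar k K) (aeval u (Δ.map (evalRingHom 0))) ∈ W.nonunits := by
    have h4 := hcong Δ
    have h5 : algebraMap k (kbar k K) (aeval u (Δ.map (evalRingHom 0))) =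
        algebraMap k (kbar k K) (ev F t u Δ) -
        algebraMap k (kbar k K) (ev F t u Δ - aeval u (Δ.map (evalRingHom 0))) := by
      rw [map_sub]; ring
    rw [h5, ValuationSubring.mem_nonunits_iff]
    exact W.valuation.map_sub_lt ((ValuationSubring.mem_nonunits_iff _).1 h)
      ((ValuationSubring.mem_nonunits_iff _).1 h4)
  rw [ValuationSubring.mem_nonunits_iff_or] at h3
  rcases h3 with h3 | h3
  · rw [map_eq_zero] at h3
    exact h0 h3
  · apply h3
    rw [← map_inv₀]
    exact h2

omit [CharZero F] in
/-- The values of `k` at a place over `t = 0`. -/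
theorem atZero_vals (htu : AlgebraicIndependent F ![t, u])
    (htop : IntermediateField.adjoin F {t, u} = ⊤)
    {W : ValuationSubring (kbar k K)} (hW : AtZero F t u W) {z : k} (hz : z ≠ 0) :
    ∃ i : ℤ, W.valuation (algebraMap k (kbar k K) z) =
      W.valuation (algebraMap k (kbar k K) t) ^ i := by
  let L := IntermediateField.adjoin F {u}
  have ht : algebraMap k (kbar k K) t ∈ W := ValuationSubring.nonunits_subset hW.t_mem
  have ht0 : t ≠ 0 := by
    rintro rfl
    exact transc_F_t htu isAlgebraic_zero
  have hvt0 : W.valuation (algebraMap k (kbar k K) t) ≠ 0 := by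
    rw [Ne, Valuation.zero_iff, map_eq_zero]
    exact ht0
  have hmem : ∀ p : L[X], algebraMap k (kbar k K) (aeval t p) ∈ W := by
    intro q
    induction q using Polynomial.induction_on with
    | C a => rw [aeval_C]; exact hW.const _ a.2
    | add p q hp hq => rw [map_add, map_add]; exact W.add_mem _ _ hp hq
    | monomial n a ih =>
      rw [pow_succ, ← mul_assoc, map_mul, map_mul, aeval_X]
      exact W.mul_mem _ _ ih ht
  have hpoly : ∀ p : L[X], p ≠ 0 → ∃ i : ℕ, W.valuation (algebraMap k (kbar k K) (aeval t p)) =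
      W.valuation (algebraMap k (kbar k K) t) ^ i := by
    intro p hp
    obtain ⟨q, hpq, hq⟩ := exists_eq_pow_rootMultiplicity_mul_and_not_dvd p hp 0
    rw [C_0, sub_zero] at hpq hq
    refine ⟨rootMultiplicity 0 p, ?_⟩
    have h1 : W.valuation (algebraMap k (kbar k K) (aeval t q)) = 1 := by
      have h2 : aeval t q = t * aeval t q.divX + ((q.coeff 0 : L) : k) := by
        conv_lhs => rw [← divX_mul_X_add q]
        rw [map_add, map_mul, aeval_X, aeval_C]
        rw [mul_comm]
        rfl
      have h3 : q.coeff 0 ≠ 0 := by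
        intro h3
        exact hq (X_dvd_iff.2 h3)
      have h4 : W.valuation (algebraMap k (kbar k K) ((q.coeff 0 : L) : k)) = 1 := by
        refine le_antisymm ((W.valuation_le_one_iff _).2 (hW.const _ (q.coeff 0).2)) ?_
        have h5 := (W.valuation_le_one_iff _).2 (hW.const _ (q.coeff 0)⁻¹.2)
        have h6 : ((((q.coeff 0 : L)⁻¹ : L)) : k) = ((q.coeff 0 : L) : k)⁻¹ := rfl
        rw [h6, map_inv₀, map_inv₀] at h5
        have h7 : W.valuation (algebraMap k (kbar k K) ((q.coeff 0 : L) : k)) ≠ 0 := by
          rw [Ne, Valuation.zero_iff, map_eq_zero]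
          exact fun h => h3 (Subtype.ext h)
        exact (inv_le_one₀ (zero_lt_iff.2 h7)).1 h5
      rw [h2, map_add, Valuation.map_add_eq_of_lt_right, h4]
      rw [h4, map_mul, map_mul]
      exact mul_lt_one_of_lt_of_le ((ValuationSubring.mem_nonunits_iff _).1 hW.t_mem)
        ((W.valuation_le_one_iff _).2 (hmem _))
    conv_lhs => rw [hpq]
    rw [map_mul, map_mul, map_mul, h1, mul_one, map_pow, map_pow, map_pow, aeval_X]
  have hz' : z ∈ IntermediateField.adjoin L {t} := by
    rw [adjoin_t_top htop]; trivial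
  obtain ⟨r, s, hs⟩ := IntermediateField.mem_adjoin_simple_iff (F := L) z |>.1 hz'
  have hr0 : r ≠ 0 := by
    rintro rfl
    rw [map_zero, zero_div] at hs
    exact hz hs
  have hs0 : s ≠ 0 := by
    rintro rfl
    rw [map_zero, div_zero] at hs
    exact hz hs
  obtain ⟨a, ha⟩ := hpoly r hr0
  obtain ⟨b, hb⟩ := hpoly s hs0
  refine ⟨a - b, ?_⟩
  rw [hs, map_div₀, map_div₀, ha, hb, zpow_sub₀ hvt0, zpow_natCast, zpow_natCast]

end Main

/-- **The main theorem.** -/
theorem isGeometric_main {F k K : Type u} [Field F] [CharZero F] [Field k] [Field K]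
    [Algebra F k] [Algebra k K] [Algebra F K] [IsScalarTower F k K]
    (hF : ∃ S : Finset F, Subfield.closure (S : Set F) = ⊤)
    {t u : k} (htu : AlgebraicIndependent F ![t, u])
    (htop : IntermediateField.adjoin F {t, u} = ⊤)
    {n j N : ℕ} {f : F[X][X][X]} {c₁ Δ : F[X][X]} {x y : K}
    (hn : 2 ≤ n) (hj : ¬ n ∣ j) (hdeg : 3 ≤ f.natDegree)
    (hΔ : GoodDisc Δ) (hdvd : c₁ * f.leadingCoeff * f.discr ∣ Δ ^ N)
    (hx : Transcendental k x) (hgen : IntermediateField.adjoin k {x, y} = ⊤)
    (heq : algebraMap k K (t ^ j * ev F t u c₁) * y ^ n = aeval x (f.map (ev F t u)))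
    (s : GaloisSection k K) : IsGeometric s := by
  have hk0 : CharZero k := charZero_of_injective_algebraMap (algebraMap F k).injective
  have hS := superE htu hn hdeg hΔ hdvd hx hgen heq
  have ht0 : t ≠ 0 := by
    rintro rfl
    exact transc_F_t htu isAlgebraic_zero
  let Lu := IntermediateField.adjoin F {u}
  let Lt := IntermediateField.adjoin F {t}
  have hLu0 : CharZero Lu := charZero_of_injective_algebraMap (algebraMap F Lu).injective
  have hLt0 : CharZero Lt := charZero_of_injective_algebraMap (algebraMap F Lt).injective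
  obtain ⟨W, hW⟩ := exists_atZero (C := kbar k K) htu
  have hWtop : W ≠ ⊤ := by
    rintro rfl
    have h1 := hW.t_mem
    rw [ValuationSubring.mem_nonunits_iff_or] at h1
    rcases h1 with h1 | h1
    · rw [map_eq_zero] at h1
      exact ht0 h1
    · exact h1 trivial
  -- the bad place
  obtain ⟨hgr, hc1, hc2⟩ := goodRed (K := K) htu (by omega) hdvd (W := W)
    (fun c => hW.const _ (IntermediateField.algebraMap_mem _ c))
    (ValuationSubring.nonunits_subset hW.t_mem)
    (hW.const _ (IntermediateField.mem_adjoin_simple_self F u)) (atZero_unit htu hΔ hW)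
  obtain ⟨P, hP, hP1, hPst, hPB⟩ := place_of_bad (k₁ := Lu) s (fg_adjoin hF u) t (transc_t htu)
    (adjoin_t_top htop) hS hWtop (fun c => hW.const _ c.2) hgr hW.t_mem ht0
    (fun z hz => atZero_vals htu htop hW hz) rfl hj hc1 hc2
  -- the stabilizer
  have hH : stabP s P = ⊤ := by
    refine lefschetz hF t u htu htop hΔ (stabP s P) (isClosed_stabP s P) ?_ ?_ hW
      (fun τ hτ => hPst τ hτ)
    · intro W' hW' τ hτ z
      have hF' : ∀ c : F, algebraMap k (kbar k K) (algebraMap F k c) ∈ W' := fun c =>
        hW'.const _ (IntermediateField.algebraMap_mem _ c)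
      have ht' : algebraMap k (kbar k K) t ∈ W' :=
        hW'.const _ (IntermediateField.mem_adjoin_simple_self F t)
      have ht'' : algebraMap k (kbar k K) t ∉ W'.nonunits := by
        intro h1
        rw [ValuationSubring.mem_nonunits_iff_or] at h1
        rcases h1 with h1 | h1
        · rw [map_eq_zero] at h1
          exact ht0 h1
        · apply h1
          rw [← map_inv₀]
          exact hW'.const _ (inv_mem (IntermediateField.mem_adjoin_simple_self F t))
      obtain ⟨hgr', hc1', hc2'⟩ := goodRed (K := K) htu (by omega) hdvd (W := W') hF' ht'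
        hW'.u_mem hW'.unit
      refine fixes_of_good (k₁ := Lt) s (fg_adjoin hF t) u (transc_u htu) (adjoin_u_top htop) hS
        hW'.ne_top (fun c => hW'.const _ c.2) hgr' ?_ ?_ hP hP1 hPB hτ z
      · rw [map_mul, map_pow]
        exact W'.mul_mem _ _ (pow_mem ht' _) hc1'
      · rw [map_mul, map_pow, ValuationSubring.mem_nonunits_iff, map_mul, not_lt]
        have h3 := pow_notMem_nonunits ht'' j
        rw [ValuationSubring.mem_nonunits_iff, not_lt] at h3 hc2'
        exact one_le_mul h3 hc2'
    · intro W' hW' τ hτ z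
      have hF' : ∀ c : F, algebraMap k (kbar k K) (algebraMap F k c) ∈ W' := fun c =>
        hW'.const _ (IntermediateField.algebraMap_mem _ c)
      have hu' : algebraMap k (kbar k K) u ∈ W' :=
        hW'.const _ (IntermediateField.mem_adjoin_simple_self F u)
      obtain ⟨hgr', hc1', hc2'⟩ := goodRed (K := K) htu (by omega) hdvd (W := W') hF' hW'.t_mem
        hu' hW'.unit
      refine fixes_of_good (k₁ := Lu) s (fg_adjoin hF u) t (transc_t htu) (adjoin_t_top htop) hS
        hW'.ne_top (fun c => hW'.const _ c.2) hgr' ?_ ?_ hP hP1 hPB hτ z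
      · rw [map_mul, map_pow]
        exact W'.mul_mem _ _ (pow_mem hW'.t_mem _) hc1'
      · rw [map_mul, map_pow, ValuationSubring.mem_nonunits_iff, map_mul, not_lt]
        have h3 := pow_notMem_nonunits hW'.t_unit j
        rw [ValuationSubring.mem_nonunits_iff, not_lt] at h3 hc2'
        exact one_le_mul h3 hc2'
  refine isGeometric_of_place hS.isFunctionField s hP hP1 fun γ z => ?_
  have h1 : γ ∈ stabP s P := by rw [hH]; trivial
  exact h1 z

end Pool.Agent.LT
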