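import Pool.Agent.Helper13.LT.A1

/-!
# Block A11: changes of the coordinate

Proofs: direct.  `IntermediateField.adjoin K {x - a} = adjoin K {x} = adjoin K {x⁻¹}`.
In `Setup.inv`: `B` consists of units of `O`; `b⁻¹ - b'⁻¹ = (b' - b)/(b b')`; for a place `P` and
`a ∉ insert 0 B⁻¹` with `x⁻¹ - a ∈ 𝔪_P`: `a ≠ 0`, `x - a⁻¹ ∈ 𝔪_P`, `a⁻¹ ∉ B`, and
`x⁻¹ - a = - a x⁻¹ (x - a⁻¹)` with `a x⁻¹` a unit at `P`.
`Gauss.inv`: `x` is a unit of `V` (`x_tr` for `p = X`), and
`p(x⁻¹) = x^{-deg p} (reverse p)(x)`.
`exists_avoid`: two different natural numbers differ by a unit of `O`, so each `b ∈ B` excludes at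
most one `n`.
`exists_reg_inv`: `z` is integral over `K[x]` (or: only finitely many places have `x ∉ P.ring`, and
`x⁻¹` has positive order there; take `m` larger than the orders of the poles of `z`); if
`z^d + ∑ a_i(x) z^{d-i} = 0` with `deg a_i ≤ m i` then `x^{-m} z` is integral over `K[x⁻¹]`.
-/

universe u

namespace Pool.Agent.LT

open VC Polynomial

variable {E K N : Type u} [Field E] [IsAlgClosed E] [CharZero E] [Field K] [IsAlgClosed K]
  [Algebra E K] [Field N] [Algebra K N] [Algebra E N] [IsScalarTower E K N]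
  {O : ValuationSubring K} {t : K} {x : N} {B : Finset K} {V : ValuationSubring N}

private lemma vle34 {F : Type*} [Field F] (R : ValuationSubring F) (z : F) :
    R.valuation z ≤ 1 ↔ z ∈ R := R.valuation_le_one_iff z

private lemma vlt34 {F : Type*} [Field F] (R : ValuationSubring F) (z : F) :
    R.valuation z < 1 ↔ z ∈ R.nonunits := R.mem_nonunits_iff.symm

private lemma veq34 {F : Type*} [Field F] (R : ValuationSubring F) (z : F) (h1 : z ∈ R)
    (h2 : z ∉ R.nonunits) : R.valuation z = 1 :=
  le_antisymm ((vle34 R z).2 h1) (not_lt.1 fun h => h2 ((vlt34 R z).1 h))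

private lemma ord_unit34 {F : Type*} [Field F] (R : ValuationSubring F) {u f : F}
    (hu : R.valuation u = 1) : ord R (u * f) = ord R f := by
  have hu0 : u ≠ 0 := by
    rintro rfl
    rw [map_zero] at hu
    exact zero_ne_one hu
  have key : ∀ (g w : F), R.valuation w = 1 → ∀ n, HasOrd R g n → HasOrd R (w * g) n := by
    rintro g w hw n ⟨π, v, h1, h2, h3, h4⟩
    have hv := veq34 R v h2 h3
    refine ⟨π, w * v, h1, ?_, ?_, by rw [h4, mul_assoc]⟩
    · rw [← vle34, map_mul, hw, hv, one_mul]
    · rw [← vlt34, map_mul, hw, hv, one_mul]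
      exact lt_irrefl _
  have h : HasOrd R (u * f) = HasOrd R f := by
    funext n
    apply propext
    constructor
    · intro h
      have h1 := key (u * f) u⁻¹ (by rw [map_inv₀, hu, inv_one]) n h
      rwa [inv_mul_cancel_left₀ hu0] at h1
    · exact key f u hu n
  have hg : ∀ P Q : ℤ → Prop, P = Q →
      (open Classical in (if h : ∃ n, P n then h.choose else 0 : ℤ)) =
        (open Classical in (if h : ∃ n, Q n then h.choose else 0 : ℤ)) := by
    rintro P Q rfl
    rfl
  exact hg _ _ h

private lemma adj34 {K N : Type*} [Field K] [Field N] [Algebra K N] (x y : N)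
    (h1 : y ∈ IntermediateField.adjoin K {x}) (h2 : x ∈ IntermediateField.adjoin K {y}) :
    IntermediateField.adjoin K {y} = IntermediateField.adjoin K {x} :=
  le_antisymm (IntermediateField.adjoin_simple_le_iff.2 h1)
    (IntermediateField.adjoin_simple_le_iff.2 h2)

omit [IsAlgClosed E] [CharZero E] [IsAlgClosed K] in
private lemma Gauss.sub34 (h : Base E O t) (a : E) (hV : Gauss E O x V) :
    Gauss E O (x - algebraMap E N a) V where
  mem_iff := hV.mem_iff
  x_mem := by
    have h1 : algebraMap E N a ∈ V := by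
      rw [IsScalarTower.algebraMap_apply E K N, hV.mem_iff]
      exact h.const a
    exact sub_mem hV.x_mem h1
  x_tr p hp := by
    have h1 : aeval (x - algebraMap E N a) p = aeval x (p.comp (X - C a)) := by
      rw [aeval_comp]
      congr 1
      simp
    rw [h1]
    refine hV.x_tr _ ?_
    intro h0
    rcases comp_eq_zero_iff.1 h0 with h2 | ⟨_, h2⟩
    · exact hp h2
    · have h3 := congrArg (fun q : E[X] => q.coeff 1) h2
      simp at h3

open Classical in
theorem Setup.sub (hs : Setup E O t B x) (a : E) :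
    Setup E O t (B.image fun b => b - algebraMap E K a) (x - algebraMap E N a) := by
  have hc : algebraMap E N a = algebraMap K N (algebraMap E K a) :=
    IsScalarTower.algebraMap_apply E K N a
  set c : K := algebraMap E K a with hcdef
  have hcO : c ∈ O := hs.base.const a
  rw [hc]
  refine ⟨hs.base, hs.ff, ?_, ?_, ?_, ?_, ?_⟩
  · intro halg
    apply hs.tr
    have h1 := halg.add (isAlgebraic_algebraMap (R := K) (A := N) c)
    rwa [sub_add_cancel] at h1
  · have h := hs.gal
    have h1 : IntermediateField.adjoin K {x - algebraMap K N c} = IntermediateField.adjoin K {x} := by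
      apply adj34
      · exact sub_mem (IntermediateField.mem_adjoin_simple_self K x)
          (IntermediateField.algebraMap_mem _ _)
      · have h2 := add_mem (IntermediateField.mem_adjoin_simple_self K (x - algebraMap K N c))
          (IntermediateField.algebraMap_mem (IntermediateField.adjoin K {x - algebraMap K N c}) c)
        rwa [sub_add_cancel] at h2
    rw [h1]
    exact h
  · intro b hb
    obtain ⟨b', hb', rfl⟩ := Finset.mem_image.1 hb
    exact O.sub_mem (hs.B_mem b' hb') hcO
  · intro b hb b' hb' hne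
    obtain ⟨b1, hb1, rfl⟩ := Finset.mem_image.1 hb
    obtain ⟨b2, hb2, rfl⟩ := Finset.mem_image.1 hb'
    rw [sub_sub_sub_cancel_right]
    exact hs.B_diff b1 hb1 b2 hb2 fun h => hne (by rw [h])
  · intro P a' ha' hx
    have h1 : x - algebraMap K N c - algebraMap K N a' = x - algebraMap K N (c + a') := by
      rw [map_add]
      ring
    rw [h1] at hx ⊢
    refine hs.unr P (c + a') ?_ hx
    intro hB
    apply ha'
    rw [Finset.mem_image]
    exact ⟨c + a', hB, by ring⟩

open Classical in
theorem Setup.inv (hs : Setup E O t B x) (hB : ∀ b ∈ B, b ∉ O.nonunits) :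
    Setup E O t (insert 0 (B.image fun b => b⁻¹)) x⁻¹ := by
  have hx0 : x ≠ 0 := by
    rintro rfl
    exact hs.tr isAlgebraic_zero
  have hval : ∀ b ∈ B, O.valuation b = 1 := fun b hb => veq34 O b (hs.B_mem b hb) (hB b hb)
  have hb0 : ∀ b ∈ B, b ≠ 0 := by
    rintro b hb rfl
    have := hval 0 hb
    rw [map_zero] at this
    exact zero_ne_one this
  refine ⟨hs.base, hs.ff, ?_, ?_, ?_, ?_, ?_⟩
  · intro halg
    apply hs.tr
    have h1 := halg.inv
    rwa [inv_inv] at h1
  · have h := hs.gal
    have h1 : IntermediateField.adjoin K {x⁻¹} = IntermediateField.adjoin K {x} := by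
      apply adj34
      · exact inv_mem (IntermediateField.mem_adjoin_simple_self K x)
      · have h2 := inv_mem (IntermediateField.mem_adjoin_simple_self K x⁻¹)
        rwa [inv_inv] at h2
    rw [h1]
    exact h
  · intro b hb
    rcases Finset.mem_insert.1 hb with rfl | hb
    · exact O.zero_mem
    · obtain ⟨b', hb', rfl⟩ := Finset.mem_image.1 hb
      rw [← vle34, map_inv₀, hval b' hb', inv_one]
  · intro b hb b' hb' hne
    rw [← vlt34, not_lt]
    rcases Finset.mem_insert.1 hb with rfl | hb
    · rcases Finset.mem_insert.1 hb' with rfl | hb'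
      · exact absurd rfl hne
      · obtain ⟨b2, hb2, rfl⟩ := Finset.mem_image.1 hb'
        rw [zero_sub, Valuation.map_neg, map_inv₀, hval b2 hb2, inv_one]
    · obtain ⟨b1, hb1, rfl⟩ := Finset.mem_image.1 hb
      rcases Finset.mem_insert.1 hb' with rfl | hb'
      · rw [sub_zero, map_inv₀, hval b1 hb1, inv_one]
      · obtain ⟨b2, hb2, rfl⟩ := Finset.mem_image.1 hb'
        have h1 : b1⁻¹ - b2⁻¹ = (b2 - b1) * (b1⁻¹ * b2⁻¹) := by
          have := hb0 b1 hb1
          have := hb0 b2 hb2
          field_simp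
        have h2 : b2 ≠ b1 := fun h => hne (by rw [h])
        have h3 := hs.B_diff b2 hb2 b1 hb1 h2
        rw [← vlt34, not_lt] at h3
        rw [h1, map_mul, map_mul, map_inv₀, map_inv₀, hval b1 hb1, hval b2 hb2, inv_one, mul_one,
          mul_one]
        exact h3
  · intro P a ha hx
    have ha0 : a ≠ 0 := fun h => ha (by rw [h]; exact Finset.mem_insert_self _ _)
    have haN : algebraMap K N a ≠ 0 := by
      rw [Ne, map_eq_zero]
      exact ha0
    have haB : a⁻¹ ∉ B := fun h => ha (Finset.mem_insert_of_mem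
      (Finset.mem_image.2 ⟨a⁻¹, h, inv_inv a⟩))
    have hav : P.ring.valuation (algebraMap K N a) = 1 := by
      apply le_antisymm ((vle34 _ _).2 (P.algebraMap_mem a))
      have h1 := (vle34 _ _).2 (P.algebraMap_mem a⁻¹)
      rw [map_inv₀, map_inv₀] at h1
      exact (inv_le_one₀ (zero_lt_iff.2 ((Valuation.ne_zero_iff _).2 haN))).1 h1
    have hxv : P.ring.valuation x⁻¹ = 1 := by
      rw [← vlt34] at hx
      have h1 : x⁻¹ = (x⁻¹ - algebraMap K N a) + algebraMap K N a := by ring
      rw [h1, Valuation.map_add_eq_of_lt_right _ (by rw [hav]; exact hx), hav]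
    have h1 : x⁻¹ - algebraMap K N a =
        (-(algebraMap K N a) * x⁻¹) * (x - algebraMap K N a⁻¹) := by
      rw [map_inv₀]
      field_simp
      ring
    have hu : P.ring.valuation (-(algebraMap K N a) * x⁻¹) = 1 := by
      rw [map_mul, Valuation.map_neg, hav, hxv, one_mul]
    rw [h1, ord_unit34 _ hu]
    refine hs.unr P a⁻¹ haB ?_
    rw [h1, ← vlt34, map_mul, hu, one_mul] at hx
    exact (vlt34 _ _).1 hx

omit [IsAlgClosed E] [CharZero E] [IsAlgClosed K] in
theorem Gauss.sub_iff (h : Base E O t) (a : E) :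
    Gauss E O (x - algebraMap E N a) V ↔ Gauss E O x V := by
  constructor
  · intro hV
    have h1 := Gauss.sub34 h (-a) hV
    rwa [map_neg, sub_neg_eq_add, sub_add_cancel] at h1
  · exact Gauss.sub34 h a

omit [IsAlgClosed K] in
theorem Gauss.inv (h : Base E O t) (hV : Gauss E O x V) : Gauss E O x⁻¹ V := by
  have hxn : x ∉ V.nonunits := by
    have h1 := hV.x_tr X X_ne_zero
    rwa [aeval_X] at h1
  have hxv : V.valuation x = 1 := veq34 V x hV.x_mem hxn
  have hx0 : x ≠ 0 := by
    rintro rfl
    rw [map_zero] at hxv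
    exact zero_ne_one hxv
  refine ⟨hV.mem_iff, ?_, ?_⟩
  · rw [← vle34, map_inv₀, hxv, inv_one]
  · intro p hp
    let _ : Invertible (x⁻¹) := ⟨x, by field_simp, by field_simp⟩
    have h1 := eval₂_reverse_mul_pow (algebraMap E N) x⁻¹ p
    have h2 : ⅟(x⁻¹) = x := rfl
    rw [h2] at h1
    rw [aeval_def, ← h1, ← vlt34, map_mul, map_pow, map_inv₀, hxv, inv_one, one_pow, mul_one]
    have h3 := hV.x_tr p.reverse (by rwa [Ne, reverse_eq_zero])
    rw [aeval_def, ← vlt34] at h3
    exact h3

omit [IsAlgClosed E] [IsAlgClosed K] in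
/-- There is a natural number which is not the residue of an element of `B`. -/
theorem exists_avoid (h : Base E O t) (B : Finset K) :
    ∃ n : ℕ, ∀ b ∈ B, b - algebraMap E K n ∉ O.nonunits := by
  have hsub : ∀ b : K, {n : ℕ | b - algebraMap E K n ∈ O.nonunits}.Subsingleton := by
    intro b n hn m hm
    by_contra hne
    have hn := (vlt34 _ _).2 hn
    have hm := (vlt34 _ _).2 hm
    have h1 : O.valuation (algebraMap E K ((n : E) - m)) < 1 := by
      have h2 : algebraMap E K ((n : E) - m) = (b - algebraMap E K m) - (b - algebraMap E K n) := by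
        rw [map_sub]
        ring
      rw [h2]
      exact lt_of_le_of_lt (Valuation.map_sub _ _ _) (max_lt hm hn)
    have h3 : ((n : E) - m) ≠ 0 := by
      rw [sub_ne_zero]
      exact_mod_cast hne
    have h4 : O.valuation (algebraMap E K ((n : E) - m)⁻¹) ≤ 1 := (vle34 _ _).2 (h.const _)
    have h5 : algebraMap E K ((n : E) - m) ≠ 0 := by
      rw [Ne, map_eq_zero]
      exact h3
    rw [map_inv₀, map_inv₀] at h4
    have h6 := (inv_le_one₀ (zero_lt_iff.2 ((Valuation.ne_zero_iff _).2 h5))).1 h4
    exact absurd h1 (not_lt.2 h6)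
  have hfin : (⋃ b ∈ B, {n : ℕ | b - algebraMap E K n ∈ O.nonunits}).Finite :=
    Set.Finite.biUnion B.finite_toSet fun b _ => (hsub b).finite
  obtain ⟨n, hn⟩ := hfin.infinite_compl.nonempty
  refine ⟨n, fun b hb hcon => hn ?_⟩
  rw [Set.mem_iUnion₂]
  exact ⟨b, hb, hcon⟩

/-- The order of the pole at infinity is bounded. -/
theorem exists_reg_inv (hs : Setup E O t B x) {z : N} (hreg : Reg (K := K) x z) :
    ∃ m : ℕ, Reg (K := K) x⁻¹ (x⁻¹ ^ m * z) := by
  have hx0 : x ≠ 0 := by
    rintro rfl
    exact hs.tr isAlgebraic_zero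
  -- `z` is integral over `K[x]`
  set S : Set N := Set.range (algebraMap K N) ∪ {x} with hS
  have hz : z ∈ (integralClosure (Subring.closure S) N).toSubring := by
    rw [← iInf_valuationSubring_superset, Subring.mem_iInf]
    rintro ⟨W, hW⟩
    by_cases htop : W = ⊤
    · have h1 : z ∈ W := by
        rw [htop]
        exact ValuationSubring.mem_top z
      exact h1
    · exact hreg ⟨W, fun a => hW (Or.inl ⟨a, rfl⟩), htop⟩ (hW (Or.inr rfl))
  have hpoly : ∀ y ∈ Subring.closure S, ∃ q : K[X], y = aeval x q := by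
    intro y hy
    have h1 : Subring.closure S ≤ (aeval x : K[X] →ₐ[K] N).range.toSubring := by
      rw [Subring.closure_le]
      rintro w (⟨a, rfl⟩ | rfl)
      · exact ⟨C a, by simp⟩
      · exact ⟨X, by simp⟩
    obtain ⟨q, hq⟩ := h1 hy
    exact ⟨q, hq.symm⟩
  obtain ⟨p, hp, hpz⟩ : IsIntegral (Subring.closure S) z := hz
  choose q hq using fun i => hpoly (p.coeff i) (p.coeff i).2
  set d := p.natDegree with hd
  set m := (Finset.range d).sup (fun i => (q i).natDegree) with hm
  have hd0 : d ≠ 0 := by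
    intro h0
    have h1 : p = 1 := eq_one_of_monic_natDegree_zero hp h0
    rw [h1] at hpz
    simp at hpz
  refine ⟨m, fun P hP => ?_⟩
  have hcoef : ∀ (M : ℕ) (r : K[X]), r.natDegree ≤ M → x⁻¹ ^ M * aeval x r ∈ P.ring := by
    intro M r hr
    rw [aeval_eq_sum_range' (Nat.lt_succ_of_le hr), Finset.mul_sum]
    refine sum_mem fun j hj => ?_
    have hjM : j ≤ M := Nat.lt_succ_iff.1 (Finset.mem_range.1 hj)
    have h1 : x⁻¹ ^ M * (r.coeff j • x ^ j) = algebraMap K N (r.coeff j) * x⁻¹ ^ (M - j) := by
      rw [Algebra.smul_def]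
      have h2 : x⁻¹ ^ M = x⁻¹ ^ (M - j) * x⁻¹ ^ j := by rw [← pow_add, Nat.sub_add_cancel hjM]
      rw [h2, inv_pow x j]
      field_simp
    rw [h1]
    exact P.ring.mul_mem _ _ (P.algebraMap_mem _) (pow_mem hP _)
  set w := x⁻¹ ^ m * z with hw
  -- the equation of `w`
  have heq : w ^ d = -∑ i ∈ Finset.range d, (x⁻¹ ^ (m * (d - i)) * aeval x (q i)) * w ^ i := by
    have h1 : z ^ d = -∑ i ∈ Finset.range d, aeval x (q i) * z ^ i := by
      rw [eval₂_eq_sum_range, Finset.sum_range_succ] at hpz
      have h2 : p.coeff p.natDegree = 1 := hp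
      rw [← hd, h2, map_one, one_mul] at hpz
      have h3 : ∑ i ∈ Finset.range d, (algebraMap (Subring.closure S) N) (p.coeff i) * z ^ i =
          ∑ i ∈ Finset.range d, aeval x (q i) * z ^ i := by
        refine Finset.sum_congr rfl fun i _ => ?_
        rw [← hq i]
        rfl
      rw [h3] at hpz
      linear_combination hpz
    rw [hw, mul_pow, h1, mul_neg, Finset.mul_sum]
    congr 1
    refine Finset.sum_congr rfl fun i hi => ?_
    have hid : i ≤ d := (Finset.mem_range.1 hi).le
    have h4 : (x⁻¹ ^ m) ^ d = x⁻¹ ^ (m * (d - i)) * (x⁻¹ ^ m) ^ i := by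
      rw [← pow_mul, ← pow_mul, ← pow_add, ← mul_add, Nat.sub_add_cancel hid]
    rw [h4, mul_pow]
    ring
  by_contra hcon
  have hv : 1 < P.ring.valuation w := by
    rw [← not_le, vle34]
    exact hcon
  have h1 : P.ring.valuation w ^ d ≤ P.ring.valuation w ^ (d - 1) := by
    rw [← map_pow, heq, Valuation.map_neg]
    refine Valuation.map_sum_le _ fun i hi => ?_
    have hi' := Finset.mem_range.1 hi
    rw [map_mul, map_pow]
    have h2 : P.ring.valuation (x⁻¹ ^ (m * (d - i)) * aeval x (q i)) ≤ 1 := by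
      rw [vle34]
      refine hcoef _ _ ?_
      have h3 : (q i).natDegree ≤ m := Finset.le_sup (f := fun i => (q i).natDegree) hi
      have h4 : m * 1 ≤ m * (d - i) := Nat.mul_le_mul_left _ (by omega)
      omega
    calc P.ring.valuation (x⁻¹ ^ (m * (d - i)) * aeval x (q i)) * P.ring.valuation w ^ i
        ≤ 1 * P.ring.valuation w ^ i := mul_le_mul_left h2 _
      _ = P.ring.valuation w ^ i := one_mul _
      _ ≤ P.ring.valuation w ^ (d - 1) := pow_le_pow_right₀ hv.le (by omega)
  have h5 : P.ring.valuation w ^ (d - 1) < P.ring.valuation w ^ d :=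
    pow_lt_pow_right₀ hv (by omega)
  exact absurd h1 (not_le.2 h5)

end Pool.Agent.LT
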