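import Pool.Agent.Helper13.LT.Defs2
import Pool.Agent.Helper13.LT.A11

/-!
# Block U0: changes of the coordinate of `U`

Direct, as A11: `x⁻¹ - a = - a x⁻¹ (x - a⁻¹)` with `a x⁻¹` a unit of `P`.
-/

universe u

namespace Pool.Agent.LT

open VC Polynomial

variable {E K U : Type u} [Field E] [IsAlgClosed E] [CharZero E] [Field K] [IsAlgClosed K]
  [Algebra E K] [Field U] [Algebra K U] [Algebra E U] [IsScalarTower E K U]
  {O : ValuationSubring K} {t : K} {x : U} {B : Finset K} {M : IntermediateField K U}

omit [IsAlgClosed E] [CharZero E] [IsAlgClosed K] in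
private lemma adjoin_sub11 (x : U) (a : E) :
    IntermediateField.adjoin K {x - algebraMap E U a} = IntermediateField.adjoin K {x} := by
  have hc : ∀ F : IntermediateField K U, algebraMap E U a ∈ F := fun F => by
    rw [IsScalarTower.algebraMap_apply E K U]
    exact F.algebraMap_mem _
  apply le_antisymm
  · rw [IntermediateField.adjoin_simple_le_iff]
    exact sub_mem (IntermediateField.mem_adjoin_simple_self K x) (hc _)
  · rw [IntermediateField.adjoin_simple_le_iff]
    have h1 := add_mem (IntermediateField.mem_adjoin_simple_self K (x - algebraMap E U a))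
      (hc (IntermediateField.adjoin K {x - algebraMap E U a}))
    rwa [sub_add_cancel] at h1

omit [IsAlgClosed K] in
private lemma adjoin_inv11 (x : U) :
    IntermediateField.adjoin K {x⁻¹} = IntermediateField.adjoin K {x} := by
  apply le_antisymm
  · rw [IntermediateField.adjoin_simple_le_iff]
    exact inv_mem (IntermediateField.mem_adjoin_simple_self K x)
  · rw [IntermediateField.adjoin_simple_le_iff]
    have h1 := inv_mem (IntermediateField.mem_adjoin_simple_self K x⁻¹)
    rwa [inv_inv] at h1

omit [IsAlgClosed K] in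
private lemma val_unit11 {b : K} (hb : b ∈ O) (hb' : b ∉ O.nonunits) : O.valuation b = 1 := by
  rw [ValuationSubring.mem_nonunits_iff, not_lt] at hb'
  exact le_antisymm ((O.valuation_le_one_iff b).2 hb) hb'

omit [IsAlgClosed K] in
private lemma const_val11 {P : ValuationSubring U} (hP : ∀ c : K, algebraMap K U c ∈ P) {c : K}
    (hc : c ≠ 0) : P.valuation (algebraMap K U c) = 1 := by
  have h1 := (P.valuation_le_one_iff _).2 (hP c)
  have h2 := (P.valuation_le_one_iff _).2 (hP c⁻¹)
  rw [map_inv₀, map_inv₀] at h2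
  have h3 : P.valuation (algebraMap K U c) ≠ 0 := by
    rw [Valuation.ne_zero_iff]
    exact (_root_.map_ne_zero _).2 hc
  refine le_antisymm h1 ?_
  exact (inv_le_one₀ (zero_lt_iff.2 h3)).1 h2

open Classical in
theorem USetup.sub (hu : USetup E O t B M x) (a : E) :
    USetup E O t (B.image fun b => b - algebraMap E K a) M (x - algebraMap E U a) := by
  have ha : algebraMap E U a = algebraMap K U (algebraMap E K a) :=
    IsScalarTower.algebraMap_apply E K U a
  refine ⟨hu.base, hu.cover, ?_, ?_, ?_, ?_, ?_, ?_, ?_⟩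
  · rw [ha]
    exact sub_mem hu.x_mem (M.algebraMap_mem _)
  · intro h
    refine hu.tr ?_
    have h1 := h.add (isAlgebraic_algebraMap (R := K) (A := U) (algebraMap E K a))
    rwa [← ha, sub_add_cancel] at h1
  · rw [adjoin_sub11]
    exact hu.gal
  · intro g hg m hm
    refine hu.stab g ?_ m hm
    rw [map_sub, ha, AlgEquiv.commutes] at hg
    exact sub_left_inj.1 hg
  · intro b hb
    obtain ⟨c, hc, rfl⟩ := Finset.mem_image.1 hb
    exact sub_mem (hu.B_mem c hc) (hu.base.const a)
  · intro b hb b' hb' hne
    obtain ⟨c, hc, rfl⟩ := Finset.mem_image.1 hb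
    obtain ⟨c', hc', rfl⟩ := Finset.mem_image.1 hb'
    rw [sub_sub_sub_cancel_right]
    exact hu.B_diff c hc c' hc' (fun h => hne (by rw [h]))
  · intro P hP c hc hx u hu0
    have h1 : x - algebraMap E U a - algebraMap K U c = x - algebraMap K U (c + algebraMap E K a) := by
      rw [map_add, ha]
      ring
    rw [h1] at hx ⊢
    refine hu.unr P hP _ (fun h => hc ?_) hx u hu0
    refine Finset.mem_image.2 ⟨_, h, ?_⟩
    ring

open Classical in
theorem USetup.inv (hu : USetup E O t B M x) (hB : ∀ b ∈ B, b ∉ O.nonunits) :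
    USetup E O t (insert 0 (B.image fun b => b⁻¹)) M x⁻¹ := by
  have hx0 : x ≠ 0 := by
    rintro rfl
    exact hu.tr isAlgebraic_zero
  have hv : ∀ b ∈ B, O.valuation b = 1 := fun b hb => val_unit11 (hu.B_mem b hb) (hB b hb)
  have hb0 : ∀ b ∈ B, b ≠ 0 := by
    intro b hb h
    have h1 := hv b hb
    rw [h, map_zero] at h1
    exact zero_ne_one h1
  refine ⟨hu.base, hu.cover, inv_mem hu.x_mem, ?_, ?_, ?_, ?_, ?_, ?_⟩
  · intro h
    refine hu.tr ?_
    have h1 := h.inv
    rwa [inv_inv] at h1
  · rw [adjoin_inv11]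
    exact hu.gal
  · intro g hg m hm
    refine hu.stab g ?_ m hm
    rw [map_inv₀] at hg
    exact inv_inj.1 hg
  · intro b hb
    rcases Finset.mem_insert.1 hb with rfl | hb
    · exact zero_mem O
    · obtain ⟨c, hc, rfl⟩ := Finset.mem_image.1 hb
      rw [← O.valuation_le_one_iff, map_inv₀, hv c hc, inv_one]
  · intro b hb b' hb' hne
    rw [ValuationSubring.mem_nonunits_iff, not_lt]
    rcases Finset.mem_insert.1 hb with rfl | hb
    · rcases Finset.mem_insert.1 hb' with rfl | hb'
      · exact absurd rfl hne
      · obtain ⟨c', hc', rfl⟩ := Finset.mem_image.1 hb'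
        rw [zero_sub, Valuation.map_neg, map_inv₀, hv c' hc', inv_one]
    · obtain ⟨c, hc, rfl⟩ := Finset.mem_image.1 hb
      rcases Finset.mem_insert.1 hb' with rfl | hb'
      · rw [sub_zero, map_inv₀, hv c hc, inv_one]
      · obtain ⟨c', hc', rfl⟩ := Finset.mem_image.1 hb'
        have hcc : c ≠ c' := fun h => hne (by rw [h])
        have h1 := hu.B_diff c hc c' hc' hcc
        rw [ValuationSubring.mem_nonunits_iff, not_lt] at h1
        have hc0 := hb0 c hc
        have hc'0 := hb0 c' hc'
        have h2 : c⁻¹ - c'⁻¹ = -((c - c') * c⁻¹ * c'⁻¹) := by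
          field_simp
          ring
        rw [h2, Valuation.map_neg, map_mul, map_mul, map_inv₀, map_inv₀, hv c hc, hv c' hc',
          inv_one, mul_one, mul_one]
        exact h1
  · intro P hP c hc hx u hu0
    have hc0 : c ≠ 0 := by
      rintro rfl
      exact hc (Finset.mem_insert_self _ _)
    have hcB : c⁻¹ ∉ B := fun h => hc (Finset.mem_insert_of_mem
      (Finset.mem_image.2 ⟨c⁻¹, h, inv_inv c⟩))
    have hcv := const_val11 hP hc0
    have hcU : algebraMap K U c ≠ 0 := (_root_.map_ne_zero _).2 hc0
    have hxv : P.valuation x = 1 := by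
      rw [ValuationSubring.mem_nonunits_iff] at hx
      have h1 : P.valuation x⁻¹ = 1 := by
        have h2 := Valuation.map_add_eq_of_lt_right P.valuation (x := x⁻¹ - algebraMap K U c)
          (y := algebraMap K U c) (by rw [hcv]; exact hx)
        rwa [sub_add_cancel, hcv] at h2
      rw [map_inv₀] at h1
      rw [← inv_inv (P.valuation x), h1, inv_one]
    have h3 : x - algebraMap K U c⁻¹ = -((algebraMap K U c)⁻¹ * x * (x⁻¹ - algebraMap K U c)) := by
      rw [map_inv₀]
      field_simp
      ring
    have h4 : P.valuation (x - algebraMap K U c⁻¹) = P.valuation (x⁻¹ - algebraMap K U c) := by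
      rw [h3, Valuation.map_neg, map_mul, map_mul, map_inv₀, hcv, hxv, inv_one, one_mul, one_mul]
    rw [← h4]
    refine hu.unr P hP _ hcB ?_ u hu0
    rw [ValuationSubring.mem_nonunits_iff, h4]
    exact (ValuationSubring.mem_nonunits_iff P).1 hx

open Classical in
/-- A point with a residue outside the residues of `B` can be added to `B`. -/
theorem USetup.insert (hu : USetup E O t B M x) {a : K} (ha : a ∈ O)
    (hB : ∀ b ∈ B, b - a ∉ O.nonunits) : USetup E O t (insert a B) M x := by
  refine ⟨hu.base, hu.cover, hu.x_mem, hu.tr, hu.gal, hu.stab, ?_, ?_, ?_⟩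
  · intro b hb
    rcases Finset.mem_insert.1 hb with rfl | hb
    · exact ha
    · exact hu.B_mem b hb
  · intro b hb b' hb' hne
    rcases Finset.mem_insert.1 hb with h1 | h1
    · rcases Finset.mem_insert.1 hb' with h2 | h2
      · exact absurd (h1.trans h2.symm) hne
      · have h3 := hB b' h2
        rw [ValuationSubring.mem_nonunits_iff] at h3 ⊢
        rwa [Valuation.map_sub_swap, h1]
    · rcases Finset.mem_insert.1 hb' with h2 | h2
      · rw [h2]
        exact hB b h1
      · exact hu.B_diff b h1 b' h2 hne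
  · intro P hP c hc hx u hu0
    exact hu.unr P hP c (fun h => hc (Finset.mem_insert_of_mem h)) hx u hu0

end Pool.Agent.LT
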