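import Pool.Agent.Helper13.LT.A1

/-!
# Block A10: approximation by polynomials of bounded degree

`eq_poly_of_approx`.  Choose `m + 1` distinct `a_0, …, a_m ∈ E` (`E` is infinite).  `P(x, p_n(x))`
has `V`-value `≤ V(t^n)` (it is `P(x, p_n) - P(x, z)`, all in `V`), so it is a polynomial in `x`
with coefficients of value `≤ O(t^n)` (`val_poly`) and `O(P(a_j, p_n(a_j))) ≤ O(t^n)`.  `P(a_j, Y)`
is monic over `O` and splits in `K`: `∏_i (Y - r_{ji})`, so for some `i`,
`O(p_n(a_j) - r_{ji})^d ≤ O(t^n)`, `d = deg_Y P ≥ 1`.  By the pigeonhole principle there is one choice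
`j ↦ i_j` which occurs for infinitely many `n`; let `q` be the interpolation polynomial with
`q(a_j) = r_{j i_j}`, of degree `≤ m`; `p_n - q = ∑_j (p_n(a_j) - r_j) ℓ_j(x)`, `ℓ_j ∈ E[X]` the
Lagrange basis, so `V(p_n - q)^d ≤ V(t^n)` for these `n`, and `V(z - q(x))^d ≤ V(t^n)`; hence
`z = q(x)` by `Gauss.arch`.

`approx_bounded`.  `V(x) = 1`.  So `x^{-m} p(x) ≡ p'(x^{-1})` mod `t^n`; multiply by `x^M`, `M`
large: `x^{M-m} p(x) ≡` a polynomial of degree `≤ M`, so by `val_poly` the coefficients `p_i`,
`i > m`, have value `≤ O(t^n)`.  `q` = the truncation of `p`.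
-/

universe u

namespace Pool.Agent.LT

open VC Polynomial

variable {E K N : Type u} [Field E] [IsAlgClosed E] [CharZero E] [Field K] [IsAlgClosed K]
  [Algebra E K] [Field N] [Algebra K N] [Algebra E N] [IsScalarTower E K N]
  {O : ValuationSubring K} {t : K} {x : N} {B : Finset K} {V : ValuationSubring N}

/-- `a ^ i - b ^ i` is small if `a - b` is. -/
private theorem val_pow_sub {F : Type u} [Field F] {A : ValuationSubring F} {a b : F}
    (ha : A.valuation a ≤ 1) (hb : A.valuation b ≤ 1) (i : ℕ) :
    A.valuation (a ^ i - b ^ i) ≤ A.valuation (a - b) := by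
  induction i with
  | zero => simp
  | succ i ih =>
    have h1 : a ^ (i + 1) - b ^ (i + 1) = a * (a ^ i - b ^ i) + (a - b) * b ^ i := by ring
    rw [h1]
    refine (A.valuation.map_add _ _).trans (max_le ?_ ?_)
    · rw [map_mul]
      calc A.valuation a * A.valuation (a ^ i - b ^ i) ≤ 1 * A.valuation (a ^ i - b ^ i) := by gcongr
        _ ≤ A.valuation (a - b) := by rw [one_mul]; exact ih
    · rw [map_mul, map_pow]
      calc A.valuation (a - b) * A.valuation b ^ i ≤ A.valuation (a - b) * 1 := by
            gcongr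
            exact pow_le_one₀ zero_le hb
        _ = A.valuation (a - b) := mul_one _

/-- evaluation at a point of the valuation ring of a polynomial with small coefficients -/
private theorem val_eval_le {F : Type u} [Field F] {A : ValuationSubring F} {Q : F[X]} {a : F} {g : A.ValueGroup}
    (ha : A.valuation a ≤ 1) (hQ : ∀ i, A.valuation (Q.coeff i) ≤ g) : A.valuation (Q.eval a) ≤ g := by
  rw [eval_eq_sum_range]
  apply Valuation.map_sum_le
  intro i _
  rw [map_mul, map_pow]
  calc A.valuation (Q.coeff i) * A.valuation a ^ i ≤ g * 1 := by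
        gcongr
        · exact hQ i
        · exact pow_le_one₀ zero_le ha
    _ = g := mul_one _

omit [IsAlgClosed E] [CharZero E] [IsAlgClosed K] [IsScalarTower E K N] in
private theorem x_val (hV : Gauss E O x V) : V.valuation x = 1 := by
  apply le_antisymm
  · exact (V.valuation_le_one_iff x).2 hV.x_mem
  · have := hV.x_tr X X_ne_zero
    rw [aeval_X] at this
    rwa [ValuationSubring.mem_nonunits_iff, not_lt] at this

omit [IsAlgClosed E] [CharZero E] [IsAlgClosed K] [IsScalarTower E K N] in
private theorem aeval_mem (hV : Gauss E O x V) {y : N} (hy : V.valuation y ≤ 1) {p : K[X]} (hp : ∀ i, p.coeff i ∈ O) :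
    V.valuation (aeval y p) ≤ 1 := by
  rw [aeval_eq_sum_range]
  apply Valuation.map_sum_le
  intro i _
  rw [Algebra.smul_def, map_mul, map_pow]
  apply mul_le_one₀ _ zero_le (pow_le_one₀ zero_le hy)
  exact (V.valuation_le_one_iff _).2 ((hV.mem_iff _).2 (hp i))

omit [IsAlgClosed E] [CharZero E] [IsAlgClosed K] in
private theorem t_val (h : Base E O t) (n : ℕ) : O.valuation (t ^ n) ≤ 1 := by
  rw [map_pow]
  exact pow_le_one₀ zero_le ((O.mem_nonunits_iff.1 h.t_mem).le)

/-- An element integral over `O[x]` which is a limit of polynomials of bounded degree is a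
polynomial. -/
theorem eq_poly_of_approx (h : Base E O t) (hV : Gauss E O x V)
    (halg : ∀ z : N, IsAlgebraic (IntermediateField.adjoin K {x}) z) {z : N}
    (hz : ∃ P : K[X][X], P.Monic ∧ (∀ i j, (P.coeff i).coeff j ∈ O) ∧
      eval₂ (aeval x : K[X] →ₐ[K] N).toRingHom z P = 0) (m : ℕ)
    (happ : ∀ n : ℕ, ∃ p : K[X], p.natDegree ≤ m ∧ (∀ i, p.coeff i ∈ O) ∧
      V.valuation (z - aeval x p) ≤ V.valuation (algebraMap K N (t ^ n))) :
    ∃ p : K[X], z = aeval x p := by
  classical
  obtain ⟨P, hPm, hPO, hPz⟩ := hz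
  choose p hpd hpO hpz using happ
  have hx1 := x_val hV
  have hd : 1 ≤ P.natDegree := by
    by_contra hd
    have h0 : P.natDegree = 0 := by omega
    have h1 : P = 1 := by
      rw [eq_C_of_natDegree_eq_zero h0] at hPm ⊢
      rw [Monic, leadingCoeff_C] at hPm
      rw [hPm]; simp
    rw [h1] at hPz
    simp at hPz
  set d := P.natDegree with hdd
  -- the elements of E
  set a : Fin (m + 1) → K := fun j => algebraMap E K ((j : ℕ) : E) with ha
  have ha_inj : Function.Injective a := by
    intro i j hij
    have h1 := (algebraMap E K).injective hij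
    exact Fin.ext (by exact_mod_cast h1)
  have haO : ∀ j, O.valuation (a j) ≤ 1 := fun j => (O.valuation_le_one_iff _).2 (h.const _)
  -- values of V on algebraMap
  have hVO : ∀ c : K, c ∈ O → V.valuation (algebraMap K N c) ≤ 1 := fun c hc =>
    (V.valuation_le_one_iff _).2 ((hV.mem_iff _).2 hc)
  have htn : ∀ n, V.valuation (algebraMap K N (t ^ n)) ≤ 1 := fun n =>
    hVO _ ((O.valuation_le_one_iff _).1 (t_val h n))
  have hpx : ∀ n, V.valuation (aeval x (p n)) ≤ 1 := fun n => aeval_mem hV hx1.le (hpO n)
  have hz1 : V.valuation z ≤ 1 := by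
    have h1 : z = (z - aeval x (p 0)) + aeval x (p 0) := by ring
    rw [h1]
    exact (V.valuation.map_add _ _).trans (max_le ((hpz 0).trans (htn 0)) (hpx 0))
  -- step 1: P(x, p_n(x)) is small
  have hQ : ∀ n, V.valuation (aeval x (P.eval (p n))) ≤ V.valuation (algebraMap K N (t ^ n)) := by
    intro n
    have h1 : aeval x (P.eval (p n)) = eval₂ (aeval x : K[X] →ₐ[K] N).toRingHom (aeval x (p n)) P := by
      have := Polynomial.hom_eval₂ P (RingHom.id K[X]) (aeval x : K[X] →ₐ[K] N).toRingHom (p n)
      rw [RingHom.comp_id] at this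
      exact this
    have h2 : aeval x (P.eval (p n)) = ∑ i ∈ Finset.range (d + 1), aeval x (P.coeff i) * ((aeval x (p n)) ^ i - z ^ i) := by
      have h3 : ∑ i ∈ Finset.range (d + 1), aeval x (P.coeff i) * ((aeval x (p n)) ^ i - z ^ i) =
          eval₂ (aeval x : K[X] →ₐ[K] N).toRingHom (aeval x (p n)) P - eval₂ (aeval x : K[X] →ₐ[K] N).toRingHom z P := by
        rw [eval₂_eq_sum_range, eval₂_eq_sum_range, ← Finset.sum_sub_distrib]
        exact Finset.sum_congr rfl fun i _ => mul_sub _ _ _
      rw [h3, hPz, sub_zero, h1]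
    rw [h2]
    apply Valuation.map_sum_le
    intro i _
    rw [map_mul]
    calc V.valuation (aeval x (P.coeff i)) * V.valuation (aeval x (p n) ^ i - z ^ i)
        ≤ 1 * V.valuation (aeval x (p n) - z) := by
          gcongr
          · exact aeval_mem hV hx1.le (hPO i)
          · exact val_pow_sub (hpx n) hz1 i
      _ = V.valuation (z - aeval x (p n)) := by rw [one_mul, ← neg_sub, Valuation.map_neg]
      _ ≤ _ := hpz n
  have hQc : ∀ n i, O.valuation ((P.eval (p n)).coeff i) ≤ O.valuation (t ^ n) := fun n =>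
    (hV.val_poly h _ _).1 (hQ n)
  -- step 2: evaluation at a j
  set Pa : Fin (m + 1) → K[X] := fun j => P.map (evalRingHom (a j)) with hPa
  have hPam : ∀ j, (Pa j).Monic := fun j => hPm.map _
  have hPad : ∀ j, (Pa j).natDegree = d := fun j => hPm.natDegree_map _
  have hPae : ∀ n j, (Pa j).eval ((p n).eval (a j)) = (P.eval (p n)).eval (a j) := by
    intro n j
    rw [hPa]
    have := Polynomial.hom_eval₂ P (RingHom.id K[X]) (evalRingHom (a j)) (p n)
    rw [RingHom.comp_id] at this
    rw [eval_map]
    exact this.symm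
  have hroot : ∀ n j, ∃ r ∈ (Pa j).roots.toFinset, O.valuation ((p n).eval (a j) - r) ^ d ≤ O.valuation (t ^ n) := by
    intro n j
    have hsp := IsAlgClosed.splits (Pa j)
    have hcard : Multiset.card (Pa j).roots = d := by
      rw [← hPad j]; exact (splits_iff_card_roots.1 hsp)
    have hne : (Pa j).roots.toFinset.Nonempty := by
      rw [Multiset.toFinset_nonempty]
      intro h0
      rw [h0, Multiset.card_zero] at hcard
      omega
    obtain ⟨r, hr, hrmin⟩ := Finset.exists_min_image _ (fun r => O.valuation ((p n).eval (a j) - r)) hne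
    refine ⟨r, hr, ?_⟩
    have heval : (Pa j).eval ((p n).eval (a j)) = ((Pa j).roots.map fun r => (p n).eval (a j) - r).prod := by
      conv_lhs => rw [hsp.eq_prod_roots_of_monic (hPam j)]
      rw [eval_multiset_prod, Multiset.map_map]
      congr 1
      apply Multiset.map_congr rfl
      intro s _
      simp
    have h1 : O.valuation ((Pa j).eval ((p n).eval (a j))) =
        (((Pa j).roots.map fun r => O.valuation ((p n).eval (a j) - r))).prod := by
      rw [heval, map_multiset_prod, Multiset.map_map]
      rfl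
    have h2 : O.valuation ((p n).eval (a j) - r) ^ d ≤
        (((Pa j).roots.map fun r => O.valuation ((p n).eval (a j) - r))).prod := by
      have := Multiset.pow_card_le_prod (s := (Pa j).roots.map fun r => O.valuation ((p n).eval (a j) - r))
        (a := O.valuation ((p n).eval (a j) - r)) (by
          intro y hy
          obtain ⟨s, hs, rfl⟩ := Multiset.mem_map.1 hy
          exact hrmin s (Multiset.mem_toFinset.2 hs))
      rwa [Multiset.card_map, hcard] at this
    refine h2.trans ?_
    rw [← h1, hPae]
    exact val_eval_le (haO j) (hQc n)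
  choose r hr hrv using hroot
  -- step 3: pigeonhole
  let β := {s : Fin (m + 1) → K // s ∈ Fintype.piFinset fun j => (Pa j).roots.toFinset}
  obtain ⟨⟨s, hs⟩, hinf⟩ := Finite.exists_infinite_fiber (fun n : ℕ => (⟨fun j => r n j, Fintype.mem_piFinset.2 fun j => hr n j⟩ : β))
  have hinf' : Set.Infinite {n : ℕ | ∀ j, r n j = s j} := by
    have h1 : Set.Infinite ((fun n : ℕ => (⟨fun j => r n j, Fintype.mem_piFinset.2 fun j => hr n j⟩ : β)) ⁻¹' {⟨s, hs⟩}) :=
      Set.infinite_coe_iff.1 hinf
    refine h1.mono ?_
    intro n hn j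
    have h2 : (⟨fun j => r n j, Fintype.mem_piFinset.2 fun j => hr n j⟩ : β) = ⟨s, hs⟩ := hn
    have h3 := congrArg Subtype.val h2
    exact congrFun h3 j
  -- the interpolation polynomial
  set q : K[X] := Lagrange.interpolate Finset.univ a s with hq
  refine ⟨q, ?_⟩
  by_contra hzq
  have hw : (z - aeval x q) ^ d ≠ 0 := pow_ne_zero _ (sub_ne_zero.2 hzq)
  obtain ⟨n0, hn0⟩ := hV.arch h hw (halg _)
  obtain ⟨n, hn, hnn⟩ := hinf'.exists_gt n0
  -- p n - q
  have hpn : p n = Lagrange.interpolate Finset.univ a fun j => (p n).eval (a j) := by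
    apply Lagrange.eq_interpolate (ha_inj.injOn)
    rw [Finset.card_univ, Fintype.card_fin]
    refine lt_of_le_of_lt (degree_le_natDegree) ?_
    exact_mod_cast Nat.lt_succ_of_le (hpd n)
  have hbasis : ∀ j, V.valuation (aeval x (Lagrange.basis Finset.univ a j)) ≤ 1 := by
    intro j
    rw [Lagrange.basis, map_prod, map_prod]
    apply Finset.prod_le_one'
    intro i hi
    rw [Lagrange.basisDivisor, map_mul, aeval_C, map_mul, map_sub, aeval_X, aeval_C]
    have hij : a j - a i ≠ 0 := sub_ne_zero.2 fun h => (Finset.mem_erase.1 hi).1 (ha_inj h).symm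
    have h1 : a j - a i = algebraMap E K (((j : ℕ) : E) - ((i : ℕ) : E)) := by rw [ha, map_sub]
    have h2 : V.valuation (algebraMap K N (a j - a i)⁻¹) ≤ 1 := by
      apply hVO
      rw [h1, ← map_inv₀]
      exact h.const _
    apply mul_le_one₀ h2 zero_le
    refine (Valuation.map_sub _ _ _).trans (max_le hx1.le ?_)
    exact hVO _ (h.const _)
  have hdiff : V.valuation (aeval x (p n) - aeval x q) ^ d ≤ V.valuation (algebraMap K N (t ^ n)) := by
    have h1 : aeval x (p n) - aeval x q = ∑ j : Fin (m + 1),
        algebraMap K N ((p n).eval (a j) - s j) * aeval x (Lagrange.basis Finset.univ a j) := by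
      conv_lhs => rw [hpn, hq]
      rw [Lagrange.interpolate_apply, Lagrange.interpolate_apply, map_sum, map_sum, ← Finset.sum_sub_distrib]
      apply Finset.sum_congr rfl
      intro j _
      rw [map_mul, map_mul, aeval_C, aeval_C, map_sub]
      ring
    obtain ⟨j, -, hj⟩ := Finset.exists_max_image (Finset.univ : Finset (Fin (m + 1)))
      (fun j => V.valuation (algebraMap K N ((p n).eval (a j) - s j))) Finset.univ_nonempty
    have h2 : V.valuation (aeval x (p n) - aeval x q) ≤ V.valuation (algebraMap K N ((p n).eval (a j) - s j)) := by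
      rw [h1]
      apply Valuation.map_sum_le
      intro i hi
      rw [map_mul]
      calc _ ≤ V.valuation (algebraMap K N ((p n).eval (a j) - s j)) * 1 := by
            gcongr
            · exact hj i hi
            · exact hbasis i
        _ = _ := mul_one _
    calc V.valuation (aeval x (p n) - aeval x q) ^ d ≤ V.valuation (algebraMap K N ((p n).eval (a j) - s j)) ^ d := by
          gcongr
      _ = V.valuation (algebraMap K N (((p n).eval (a j) - s j) ^ d)) := by rw [map_pow, map_pow]
      _ ≤ _ := by
        rw [hV.val_eq_iff, map_pow, ← hn j]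
        exact hrv n j
  have hsmall : V.valuation ((z - aeval x q) ^ d) ≤ V.valuation (algebraMap K N (t ^ n)) := by
    rw [map_pow]
    have h1 : V.valuation (z - aeval x q) ≤ max (V.valuation (z - aeval x (p n))) (V.valuation (aeval x (p n) - aeval x q)) := by
      have h2 : z - aeval x q = (z - aeval x (p n)) + (aeval x (p n) - aeval x q) := by ring
      rw [h2]; exact V.valuation.map_add _ _
    rcases le_max_iff.1 h1 with h2 | h2
    · calc V.valuation (z - aeval x q) ^ d ≤ V.valuation (algebraMap K N (t ^ n)) ^ d := by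
            gcongr; exact h2.trans (hpz n)
        _ ≤ V.valuation (algebraMap K N (t ^ n)) := pow_le_of_le_one zero_le (htn n) (by omega)
    · exact (pow_le_pow_left₀ zero_le h2 d).trans hdiff
  have hmono : V.valuation (algebraMap K N (t ^ n)) ≤ V.valuation (algebraMap K N (t ^ n0)) := by
    rw [hV.val_eq_iff, map_pow, map_pow]
    exact pow_le_pow_of_le_one zero_le (O.mem_nonunits_iff.1 h.t_mem).le hnn.le
  exact absurd (hsmall.trans hmono) (not_le.2 hn0)

omit [IsAlgClosed K] in
/-- The bound of the degree from the approximations in the other chart. -/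
theorem approx_bounded (h : Base E O t) (hV : Gauss E O x V) {z : N} (m n : ℕ) {p p' : K[X]}
    (hp : ∀ i, p.coeff i ∈ O) (hp' : ∀ i, p'.coeff i ∈ O)
    (h1 : V.valuation (z - aeval x p) ≤ V.valuation (algebraMap K N (t ^ n)))
    (h2 : V.valuation (x⁻¹ ^ m * z - aeval x⁻¹ p') ≤ V.valuation (algebraMap K N (t ^ n))) :
    ∃ q : K[X], q.natDegree ≤ m ∧ (∀ i, q.coeff i ∈ O) ∧
      V.valuation (z - aeval x q) ≤ V.valuation (algebraMap K N (t ^ n)) := by
  classical
  have hx1 := x_val hV
  have hx0 : x ≠ 0 := by
    intro h0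
    rw [h0, map_zero] at hx1
    exact zero_ne_one hx1
  set M := m + p'.natDegree with hM
  set r : K[X] := ∑ i ∈ Finset.range (p'.natDegree + 1), C (p'.coeff i) * X ^ (M - i) with hr
  have hrdeg : r.natDegree ≤ M := by
    rw [hr]
    apply natDegree_sum_le_of_forall_le
    intro i _
    refine (natDegree_C_mul_le _ _).trans ?_
    rw [natDegree_X_pow]
    omega
  have hrx : aeval x r = x ^ M * aeval x⁻¹ p' := by
    rw [hr, map_sum, aeval_eq_sum_range, Finset.mul_sum]
    apply Finset.sum_congr rfl
    intro i hi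
    have hi' := Finset.mem_range.1 hi
    rw [map_mul, aeval_C, map_pow, aeval_X, Algebra.smul_def]
    have : x ^ M = x ^ (M - i) * x ^ i := by rw [← pow_add]; congr 1; omega
    rw [this, inv_pow]
    field_simp
  -- the difference
  set s : K[X] := X ^ (M - m) * p - r with hs
  have hsx : aeval x s = x ^ M * ((x⁻¹ ^ m * z - aeval x⁻¹ p') - x⁻¹ ^ m * (z - aeval x p)) := by
    rw [hs, map_sub, map_mul, map_pow, aeval_X, hrx]
    have : x ^ M = x ^ (M - m) * x ^ m := by rw [← pow_add]; congr 1; omega
    rw [this, inv_pow]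
    field_simp
    ring
  have hsv : V.valuation (aeval x s) ≤ V.valuation (algebraMap K N (t ^ n)) := by
    rw [hsx, map_mul, map_pow, hx1, one_pow, one_mul]
    refine (Valuation.map_sub _ _ _).trans (max_le h2 ?_)
    rw [map_mul, map_pow, map_inv₀, hx1, inv_one, one_pow, one_mul]
    exact h1
  have hsc := (hV.val_poly h _ _).1 hsv
  have hpc : ∀ i, m < i → O.valuation (p.coeff i) ≤ O.valuation (t ^ n) := by
    intro i hi
    have h3 := hsc (i + (M - m))
    have h4 : s.coeff (i + (M - m)) = p.coeff i := by
      rw [hs, coeff_sub, coeff_X_pow_mul, coeff_eq_zero_of_natDegree_lt (p := r) (by omega), sub_zero]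
    rwa [h4] at h3
  set q : K[X] := ∑ i ∈ Finset.range (m + 1), C (p.coeff i) * X ^ i with hq
  have hqc : ∀ i, q.coeff i = if i < m + 1 then p.coeff i else 0 := by
    intro i
    rw [hq, finsetSum_coeff]
    simp only [coeff_C_mul, coeff_X_pow, mul_ite, mul_one, mul_zero]
    rw [Finset.sum_ite_eq]
    simp only [Finset.mem_range]
  refine ⟨q, ?_, ?_, ?_⟩
  · rw [hq]
    apply natDegree_sum_le_of_forall_le
    intro i hi
    refine (natDegree_C_mul_le _ _).trans ?_
    rw [natDegree_X_pow]
    have := Finset.mem_range.1 hi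
    omega
  · intro i
    rw [hqc]
    split_ifs
    · exact hp i
    · exact zero_mem O
  · have h3 : z - aeval x q = (z - aeval x p) + aeval x (p - q) := by rw [map_sub]; ring
    rw [h3]
    refine (V.valuation.map_add _ _).trans (max_le h1 ?_)
    rw [hV.val_poly h]
    intro i
    rw [coeff_sub, hqc]
    split_ifs with hi
    · rw [sub_self, map_zero]; exact zero_le
    · rw [sub_zero]; exact hpc i (by omega)

end Pool.Agent.LT
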