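import Pool.Agent.Helper13.LT.A9
import Pool.Agent.Helper13.LT.A10
import Pool.Agent.Helper13.LT.A11

/-!
# Block A12: the valuation ring above the Gauss extension is unique

`mem_adjoin_of_fix`.  There are `q ∈ K[X]`, `q ≠ 0` and `c ∈ K`, `c ≠ 0`, such that
`z' = c q(x) z` is integral over `O[x]` (clear the denominators in the minimal polynomial over
`K(x)`, and scale by a small constant: all the coefficients in `K` have finite order, `Base.exists_pow`), so that
`Reg x z'` and `Int E O x z'`, and `Fix x V z'`.  It suffices that `z' ∈ K(x)`.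
By `exists_avoid` there is `a ∈ E` with `b - a` units for `b ∈ B`; `x₁ = x - a`,
`B₁ = B - a` (`Setup.sub`), `Setup.inv` for `x₁`.  `Fix`, `Reg` and `Int` for `x` and `x₁` are
equivalent, and `Gauss x₁⁻¹ V' → Gauss x₁ V'` (`Gauss.inv`).  With `m` of `exists_reg_inv`,
`x₁^{-m} z'` is `Reg x₁⁻¹`, `Int x₁⁻¹`, `Fix x₁⁻¹ V`.  A9 for both, `approx_bounded`, A7
`exists_monic` and `eq_poly_of_approx` (A10): `z'` is a polynomial in `x₁`.

`stable`: the stabilizer of `V` in the finite group `Gal(N/K(x))` has fixed field `K(x)` by the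
first part, so it is the whole group.
-/

universe u

namespace Pool.Agent.LT

open VC Polynomial

variable {E K N : Type u} [Field E] [IsAlgClosed E] [CharZero E] [Field K] [IsAlgClosed K]
  [Algebra E K] [Field N] [Algebra K N] [Algebra E N] [IsScalarTower E K N]
  {O : ValuationSubring K} {t : K} {x : N} {B : Finset K} {V : ValuationSubring N}

omit [IsAlgClosed K] in
private lemma tb_base59 (hb : Base E O t) (a : K) : ∃ n : ℕ, t ^ n * a ∈ O := by
  by_cases ha : a = 0
  · exact ⟨0, by rw [ha, mul_zero]; exact O.zero_mem⟩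
  obtain ⟨k, hk, j, hj⟩ := hb.exists_pow ha
  refine ⟨j.natAbs, ?_⟩
  have ht : O.valuation t ≤ 1 := le_of_lt ((ValuationSubring.mem_nonunits_iff _).1 hb.t_mem)
  have ht0 : O.valuation t ≠ 0 := (Valuation.ne_zero_iff _).2 hb.t_ne
  rw [← ValuationSubring.valuation_le_one_iff]
  rw [← pow_le_one_iff (n := k) (by omega), map_mul, map_pow, mul_pow, hj, ← pow_mul, ← zpow_natCast, ← zpow_add₀ ht0]
  have h1 : 0 ≤ ((j.natAbs * k : ℕ) : ℤ) + j := by
    have h2 : (j.natAbs : ℤ) = |j| := Int.natCast_natAbs j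
    have h3 : j.natAbs * 1 ≤ j.natAbs * k := Nat.mul_le_mul_left _ hk
    have h4 : -j ≤ |j| := neg_le_abs j
    have h5 : (j.natAbs : ℤ) ≤ ((j.natAbs * k : ℕ) : ℤ) := by
      rw [mul_one] at h3
      exact_mod_cast h3
    omega
  obtain ⟨i, hi⟩ := Int.eq_ofNat_of_zero_le h1
  rw [hi, zpow_natCast]
  exact pow_le_one' ht i

omit [IsAlgClosed E] [CharZero E] [IsAlgClosed K] in
private lemma t_mem59 (hb : Base E O t) : t ∈ O := by
  rw [← ValuationSubring.valuation_le_one_iff]
  exact le_of_lt ((ValuationSubring.mem_nonunits_iff _).1 hb.t_mem)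

omit [IsAlgClosed E] [CharZero E] [IsAlgClosed K] in
private lemma tb_mono59 (hb : Base E O t) (hV : Gauss E O x V) {n m : ℕ} (hnm : n ≤ m) {r : N}
    (h : algebraMap K N (t ^ n) * r ∈ V) : algebraMap K N (t ^ m) * r ∈ V := by
  obtain ⟨d, rfl⟩ := Nat.exists_eq_add_of_le hnm
  have h1 : algebraMap K N (t ^ d) ∈ V := (hV.mem_iff _).2 (O.pow_mem (t_mem59 hb) d)
  have h2 : algebraMap K N (t ^ (n + d)) * r = algebraMap K N (t ^ d) * (algebraMap K N (t ^ n) * r) := by
    rw [pow_add, map_mul]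
    ring
  rw [h2]
  exact V.mul_mem _ _ h1 h

omit [IsAlgClosed K] in
private lemma tb_poly59 (hb : Base E O t) {r : N} (hr : r ∈ Algebra.adjoin K {x}) :
    ∃ n : ℕ, ∀ V : ValuationSubring N, Gauss E O x V → algebraMap K N (t ^ n) * r ∈ V := by
  induction hr using Algebra.adjoin_induction with
  | mem r hr =>
    rw [Set.mem_singleton_iff] at hr
    subst hr
    refine ⟨0, fun V hV => ?_⟩
    rw [pow_zero, map_one, one_mul]
    exact hV.x_mem
  | algebraMap a =>
    obtain ⟨n, hn⟩ := tb_base59 hb a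
    refine ⟨n, fun V hV => ?_⟩
    rw [← map_mul]
    exact (hV.mem_iff _).2 hn
  | add r s _ _ hr hs =>
    obtain ⟨n, hn⟩ := hr
    obtain ⟨m, hm⟩ := hs
    refine ⟨n + m, fun V hV => ?_⟩
    rw [mul_add]
    exact V.add_mem _ _ (tb_mono59 hb hV (Nat.le_add_right _ _) (hn V hV))
      (tb_mono59 hb hV (Nat.le_add_left _ _) (hm V hV))
  | mul r s _ _ hr hs =>
    obtain ⟨n, hn⟩ := hr
    obtain ⟨m, hm⟩ := hs
    refine ⟨n + m, fun V hV => ?_⟩
    have h2 : algebraMap K N (t ^ (n + m)) * (r * s) =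
        (algebraMap K N (t ^ n) * r) * (algebraMap K N (t ^ m) * s) := by
      rw [pow_add, map_mul]
      ring
    rw [h2]
    exact V.mul_mem _ _ (hn V hV) (hm V hV)

omit [IsAlgClosed E] [CharZero E] [IsAlgClosed K] in
private lemma mem_of_int59 (R : Subalgebra K N) (V : ValuationSubring N) (hR : ∀ r ∈ R, r ∈ V)
    {w : N} (hw : IsIntegral R w) : w ∈ V := by
  obtain ⟨p, hp, hpw⟩ := hw
  let φ : R →+* V := (algebraMap R N).codRestrict V (fun r => hR r r.2)
  have h1 : IsIntegral V w := by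
    refine ⟨p.map φ, hp.map φ, ?_⟩
    rw [Polynomial.eval₂_map]
    exact hpw
  obtain ⟨y, hy⟩ := IsIntegrallyClosed.isIntegral_iff.mp h1
  rw [← hy]
  exact y.2

omit [IsAlgClosed K] in
private lemma tb_int59 (hb : Base E O t) {w : N} (hw : IsIntegral (Algebra.adjoin K {x}) w) :
    ∃ n : ℕ, ∀ V : ValuationSubring N, Gauss E O x V → algebraMap K N (t ^ n) * w ∈ V := by
  obtain ⟨p, hp, hpw⟩ := hw
  have hc : ∀ i : ℕ, ∃ n : ℕ, ∀ V : ValuationSubring N, Gauss E O x V →
      algebraMap K N (t ^ n) * ((p.coeff i : Algebra.adjoin K {x}) : N) ∈ V :=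
    fun i => tb_poly59 hb (p.coeff i).2
  choose nn hnn using hc
  refine ⟨∑ i ∈ Finset.range p.natDegree, nn i, fun V hV => ?_⟩
  set n := ∑ i ∈ Finset.range p.natDegree, nn i with hn
  set τ := algebraMap K N (t ^ n) with hτ
  have hτV : τ ∈ V := (hV.mem_iff _).2 (O.pow_mem (t_mem59 hb) n)
  set q : N[X] := p.map (algebraMap (Algebra.adjoin K {x}) N) with hq
  have hqm : q.Monic := hp.map _
  have hqd : q.natDegree = p.natDegree := hp.natDegree_map _
  have hqw : eval₂ (RingHom.id N) w q = 0 := by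
    rw [hq, Polynomial.eval₂_map]
    exact hpw
  have hqc : ∀ i, (q.scaleRoots τ).coeff i ∈ V := by
    intro i
    rw [coeff_scaleRoots]
    rcases lt_trichotomy i q.natDegree with h1 | h1 | h1
    · obtain ⟨d, hd⟩ : ∃ d, q.natDegree - i = d + 1 := ⟨q.natDegree - i - 1, by omega⟩
      have h2 : nn i ≤ n := by
        rw [hn]
        exact Finset.single_le_sum (f := nn) (fun _ _ => Nat.zero_le _) (Finset.mem_range.2 (by omega))
      have h3 := tb_mono59 hb hV h2 (hnn i V hV)
      have h4 : q.coeff i * τ ^ (q.natDegree - i) = τ ^ d * (τ * q.coeff i) := by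
        rw [hd, pow_succ]
        ring
      rw [h4]
      refine V.mul_mem _ _ (V.pow_mem hτV d) ?_
      rw [hq, coeff_map]
      exact h3
    · rw [h1, Nat.sub_self, pow_zero, mul_one, hqm.coeff_natDegree]
      exact V.one_mem
    · rw [coeff_eq_zero_of_natDegree_lt h1, zero_mul]
      exact V.zero_mem
  have hlift : q.scaleRoots τ ∈ lifts (algebraMap V N) := by
    rw [lifts_iff_coeff_lifts]
    intro i
    exact ⟨⟨_, hqc i⟩, rfl⟩
  obtain ⟨P, hP1, -, hP2⟩ := lifts_and_degree_eq_and_monic hlift ((monic_scaleRoots_iff τ).2 hqm)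
  have h5 : IsIntegral V (τ * w) := by
    refine ⟨P, hP2, ?_⟩
    have h6 := scaleRoots_eval₂_mul (p := q) (RingHom.id N) w τ
    rw [hqw, mul_zero, RingHom.id_apply, ← hP1, Polynomial.eval₂_map, RingHom.id_comp] at h6
    exact h6
  obtain ⟨y, hy⟩ := IsIntegrallyClosed.isIntegral_iff.mp h5
  rw [← hy]
  exact y.2

omit [IsAlgClosed E] [CharZero E] [IsAlgClosed K] in
private lemma fix_adjoin59 (g : N ≃ₐ[K] N) (hg : g x = x) {w : N}
    (hw : w ∈ IntermediateField.adjoin K {x}) : g w = w := by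
  obtain ⟨r, s, rfl⟩ := (IntermediateField.mem_adjoin_simple_iff K w).1 hw
  have h1 : ∀ p : K[X], g (aeval x p) = aeval x p := by
    intro p
    have h2 := (aeval_algHom_apply (g : N →ₐ[K] N) x p).symm
    have h3 : (g : N →ₐ[K] N) x = x := hg
    rw [h3] at h2
    exact h2
  rw [map_div₀, h1, h1]

open scoped IntermediateField.algebraAdjoinAdjoin in
/-- The elements of the decomposition field are rational functions of `x`. -/
theorem mem_adjoin_of_fix (hs : Setup E O t B x) (hV : Gauss E O x V) {z : N}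
    (hfix : Fix (K := K) x V z) : z ∈ IntermediateField.adjoin K {x} := by
  classical
  have hgal := hs.gal
  have hb := hs.base
  -- an integral multiple
  have halg : IsAlgebraic (Algebra.adjoin K {x}) z := by
    have h1 : IsAlgebraic (IntermediateField.adjoin K {x}) z := Algebra.IsAlgebraic.isAlgebraic z
    exact h1.restrictScalars (Algebra.adjoin K {x})
  obtain ⟨y, hy0, hyI⟩ := halg.exists_integral_multiple
  obtain ⟨n, hn⟩ := tb_int59 hb hyI
  have hyz : y • z = (y : N) * z := rfl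
  rw [hyz] at hyI hn
  have hyF : (y : N) ∈ IntermediateField.adjoin K {x} :=
    IntermediateField.algebra_adjoin_le_adjoin K {x} y.2
  have hy0' : (y : N) ≠ 0 := fun h => hy0 (Subtype.ext h)
  have htn : algebraMap K N (t ^ n) ≠ 0 := by
    rw [Ne, map_eq_zero]
    exact pow_ne_zero _ hb.t_ne
  obtain ⟨z', hz'⟩ : ∃ z' : N, z' = algebraMap K N (t ^ n) * ((y : N) * z) := ⟨_, rfl⟩
  have hint : Int E O x z' := fun V' hV' => by
    rw [hz']
    exact hn V' hV'
  have hreg : Reg (K := K) x z' := by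
    intro P hP
    rw [hz']
    refine P.ring.mul_mem _ _ (P.algebraMap_mem _) ?_
    refine mem_of_int59 (Algebra.adjoin K {x}) P.ring ?_ hyI
    intro r hr
    induction hr using Algebra.adjoin_induction with
    | mem r hr =>
      rw [Set.mem_singleton_iff] at hr
      rw [hr]
      exact hP
    | algebraMap a => exact P.algebraMap_mem a
    | add r s _ _ hr hs => exact P.ring.add_mem _ _ hr hs
    | mul r s _ _ hr hs => exact P.ring.mul_mem _ _ hr hs
  have hfix' : Fix (K := K) x V z' := by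
    intro g hg hst
    rw [hz', map_mul, map_mul, hfix g hg hst, g.commutes, fix_adjoin59 g hg hyF]
  -- the other coordinate
  obtain ⟨a, ha⟩ := exists_avoid hb B
  obtain ⟨x₁, hx₁⟩ : ∃ x₁ : N, x₁ = x - algebraMap E N (a : E) := ⟨_, rfl⟩
  have hcst : algebraMap E N (a : E) = algebraMap K N (algebraMap E K (a : E)) :=
    IsScalarTower.algebraMap_apply E K N _
  have hs1 := hs.sub (a : E)
  rw [← hx₁] at hs1
  have hV1 : Gauss E O x₁ V := by
    rw [hx₁]
    exact (Gauss.sub_iff hb (a : E)).2 hV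
  have hs2 := hs1.inv (by
    intro b hbm
    rw [Finset.mem_image] at hbm
    obtain ⟨b', hb', rfl⟩ := hbm
    exact ha b' hb')
  have hV2 : Gauss E O x₁⁻¹ V := hV1.inv hb
  have hreg1 : Reg (K := K) x₁ z' := by
    intro P hP
    apply hreg P
    have h1 : x = x₁ + algebraMap K N (algebraMap E K (a : E)) := by
      rw [hx₁, hcst]
      ring
    rw [h1]
    exact P.ring.add_mem _ _ hP (P.algebraMap_mem _)
  obtain ⟨m, hreg2⟩ := exists_reg_inv hs1 hreg1
  have hint1 : Int E O x₁ z' := fun V' hV' => by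
    refine hint V' ?_
    rw [hx₁] at hV'
    exact (Gauss.sub_iff hb (a : E)).1 hV'
  have hint2 : Int E O x₁⁻¹ (x₁⁻¹ ^ m * z') := fun V' hV' => by
    have h1 := hV'.inv hb
    rw [inv_inv] at h1
    exact V'.mul_mem _ _ (V'.pow_mem hV'.x_mem m) (hint1 V' h1)
  have hfix1 : Fix (K := K) x₁ V z' := by
    intro g hg hst
    refine hfix' g ?_ hst
    have h1 : x = x₁ + algebraMap K N (algebraMap E K (a : E)) := by
      rw [hx₁, hcst]
      ring
    rw [h1, map_add, hg, g.commutes]
  have hfix2 : Fix (K := K) x₁⁻¹ V (x₁⁻¹ ^ m * z') := by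
    intro g hg hst
    have h1 : g x₁ = x₁ := by
      have h2 : (g x₁)⁻¹ = x₁⁻¹ := by rw [← map_inv₀, hg]
      exact inv_injective h2
    rw [map_mul, map_pow, hg, hfix1 g h1 hst]
  have hgal1 := hs1.gal
  have halg1 : ∀ z : N, IsAlgebraic (IntermediateField.adjoin K {x₁}) z :=
    fun z => Algebra.IsAlgebraic.isAlgebraic z
  obtain ⟨p, hp⟩ := eq_poly_of_approx hb hV1 halg1 (exists_monic hs1 hV1 hreg1 hint1) m (by
    intro n'
    obtain ⟨p, hp1, hp2⟩ := approx hs1 hV1 hfix1 hreg1 hint1 n'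
    obtain ⟨p', hp1', hp2'⟩ := approx hs2 hV2 hfix2 hreg2 hint2 n'
    exact approx_bounded hb hV1 m n' hp1 hp1' hp2 hp2')
  -- conclusion
  have hxF : x ∈ IntermediateField.adjoin K {x} := IntermediateField.mem_adjoin_simple_self K x
  have hx₁F : x₁ ∈ IntermediateField.adjoin K {x} := by
    rw [hx₁, hcst]
    exact sub_mem hxF (algebraMap_mem _ _)
  have hpF : aeval x₁ p ∈ IntermediateField.adjoin K {x} := by
    have h1 : aeval x₁ p ∈ Algebra.adjoin K {x₁} := aeval_mem_adjoin_singleton K x₁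
    have h2 : aeval x₁ p ∈ IntermediateField.adjoin K {x₁} :=
      IntermediateField.algebra_adjoin_le_adjoin K {x₁} h1
    exact (IntermediateField.adjoin_simple_le_iff.2 hx₁F) h2
  have hz : z = aeval x₁ p / (algebraMap K N (t ^ n) * (y : N)) := by
    rw [← hp, hz']
    field_simp
  rw [hz]
  exact div_mem hpF (mul_mem (algebraMap_mem _ _) hyF)

/-- **The valuation ring is stable.** -/
theorem stable (hs : Setup E O t B x) (hV : Gauss E O x V) (g : N ≃ₐ[K] N) (hg : g x = x)
    (z : N) : g z ∈ V ↔ z ∈ V := by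
  have hgal := hs.gal
  have hfd : FiniteDimensional (IntermediateField.adjoin K {x}) N := hs.ff.finiteDimensional hs.tr
  let H : Subgroup (N ≃ₐ[IntermediateField.adjoin K {x}] N) :=
    { carrier := {h | ∀ w, h w ∈ V ↔ w ∈ V}
      mul_mem' := by
        intro a b ha hb w
        rw [AlgEquiv.mul_apply, ha, hb]
      one_mem' := fun w => Iff.rfl
      inv_mem' := by
        intro a ha w
        have h1 := ha (a⁻¹ w)
        rw [← AlgEquiv.mul_apply, mul_inv_cancel, AlgEquiv.one_apply] at h1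
        exact h1.symm }
  -- automorphisms over `K` fixing `x`
  have hlift : ∀ h : N ≃ₐ[K] N, h x = x →
      ∃ h' : N ≃ₐ[IntermediateField.adjoin K {x}] N, ∀ w, h' w = h w := by
    intro h hh
    exact ⟨AlgEquiv.ofRingEquiv (f := (h : N ≃+* N)) (fun r => fix_adjoin59 h hh r.2), fun w => rfl⟩
  have hfix : IntermediateField.fixedField H = ⊥ := by
    rw [eq_bot_iff]
    intro w hw
    rw [IntermediateField.mem_fixedField_iff] at hw
    have h1 : w ∈ IntermediateField.adjoin K {x} := by
      refine mem_adjoin_of_fix hs hV ?_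
      intro h hh hst
      obtain ⟨h', hh'⟩ := hlift h hh
      rw [← hh']
      refine hw h' ?_
      intro w'
      rw [hh']
      exact hst w'
    rw [IntermediateField.mem_bot]
    exact ⟨⟨w, h1⟩, rfl⟩
  have hH : H = ⊤ := by
    rw [← IntermediateField.fixingSubgroup_fixedField H, hfix, IntermediateField.fixingSubgroup_bot]
  obtain ⟨g', hg'⟩ := hlift g hg
  have h2 : g' ∈ H := by
    rw [hH]
    exact Subgroup.mem_top _
  rw [← hg']
  exact h2 z

end Pool.Agent.LT
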