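import Pool.Agent.Helper13.LT.U1
import Pool.Agent.Helper13.LT.A12
import Pool.Agent.SC.Cov

/-!
# Block U2: existence and uniqueness of the valuation ring of `U`

`exists_gauss`: a valuation ring `V` of `N` which dominates the local ring `O[x]_{𝔪_O[x]}`
(Mathlib: `LocalSubring.exists_le_valuationSubring` or similar; or first the Gauss valuation on
`K(x)`).  `V ∩ K` dominates `O`, so it is `O`; `p(x)` for `0 ≠ p ∈ E[X]` is a unit of
the local ring.
`gauss_unique`: let `z ∈ U`, `N` a level containing `z` (U1).  `V ∩ N` and `V' ∩ N` are Gauss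
extensions on `N` with the same trace on `K(x)` (`Gauss.val_poly` determines it), so conjugate over `K(x)`
(`SC.exists_conj_val` in `SC/Cov.lean`), and equal by `stable` (A12).
`stable`: `{z | σ z ∈ V}` is a valuation ring with `Gauss` (for `x_tr`: `σ (p(x)) = ∑ φ(p_i) x^i`
has value `max O(φ(p_i)) = 1` by `val_poly`), so it is `V`.
-/

universe u

namespace Pool.Agent.LT

open VC Polynomial

variable {E K U : Type u} [Field E] [IsAlgClosed E] [CharZero E] [Field K] [IsAlgClosed K]
  [Algebra E K] [Field U] [Algebra K U] [Algebra E U] [IsScalarTower E K U]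
  {O : ValuationSubring K} {t : K} {x : U} {B : Finset K} {M : IntermediateField K U}

private lemma comap_nonunits50 {F L : Type*} [Field F] [Field L] (V : ValuationSubring L)
    (f : F →+* L) (z : F) : z ∈ (V.comap f).nonunits ↔ f z ∈ V.nonunits := by
  rw [ValuationSubring.mem_nonunits_iff_or, ValuationSubring.mem_nonunits_iff_or,
    ValuationSubring.mem_comap, map_inv₀, map_eq_zero]

/-- A valuation ring which dominates the localization at a prime ideal. -/
private lemma dom50 {A R N : Type*} [CommRing A] [CommRing R] [Algebra A R] [Field N]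
    (P : Ideal A) [P.IsPrime] [IsLocalization.AtPrime R P] (g : A →+* N)
    (hg : ∀ a ∉ P, g a ≠ 0) :
    ∃ V : ValuationSubring N, (∀ a, g a ∈ V) ∧ ∀ a, a ∈ P ↔ g a ∈ V.nonunits := by
  have : IsLocalRing R := IsLocalization.AtPrime.isLocalRing R P
  have hunit : ∀ y : P.primeCompl, IsUnit (g y) := fun y => isUnit_iff_ne_zero.2 (hg y y.2)
  let f : R →+* N := IsLocalization.lift (M := P.primeCompl) hunit
  have hf : ∀ a : A, f (algebraMap A R a) = g a := fun a => IsLocalization.lift_eq hunit a
  obtain ⟨V, hV, hloc⟩ := IsLocalRing.exists_factor_valuationRing f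
  have hmem : ∀ a : A, g a ∈ V := fun a => by
    rw [← hf]
    exact hV _
  have hval : ∀ a : A, f.codRestrict V.toSubring hV (algebraMap A R a) = (⟨g a, hmem a⟩ : V) :=
    fun a => Subtype.ext (hf a)
  have hnu : ∀ a : A, g a ∈ V.nonunits ↔ ¬ IsUnit (⟨g a, hmem a⟩ : V) := by
    intro a
    rw [ValuationSubring.mem_nonunits_iff_exists_mem_maximalIdeal]
    constructor
    · rintro ⟨_, h⟩
      exact (IsLocalRing.mem_maximalIdeal _).1 h
    · intro h
      exact ⟨hmem a, (IsLocalRing.mem_maximalIdeal _).2 h⟩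
  refine ⟨V, hmem, fun a => ?_⟩
  rw [hnu]
  constructor
  · intro ha hu
    rw [← hval] at hu
    have h3 := hloc.map_nonunit _ hu
    rw [IsLocalization.AtPrime.isUnit_to_map_iff R P] at h3
    exact h3 ha
  · intro hu
    by_contra ha
    apply hu
    rw [← hval]
    exact (IsLocalization.map_units R (⟨a, ha⟩ : P.primeCompl)).map _

/-- Existence of Gauss extensions. -/
theorem exists_gauss {N : Type u} [Field N] [Algebra K N] [Algebra E N] [IsScalarTower E K N]
    (h : Base E O t) {x : N} (htr : Transcendental K x) :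
    ∃ V : ValuationSubring N, Gauss E O x V := by
  classical
  let g : (↥O)[X] →+* N := (aeval x : K[X] →ₐ[K] N).toRingHom.comp (mapRingHom O.subtype)
  have hg : ∀ p : (↥O)[X], g p = aeval x (p.map O.subtype) := fun p => rfl
  have hg0 : ∀ p : (↥O)[X], g p = 0 → p = 0 := by
    intro p hp
    rw [hg] at hp
    have h1 : p.map O.subtype = 0 := by
      by_contra hne
      exact htr ⟨_, hne, hp⟩
    exact (Polynomial.map_eq_zero_iff (fun a b hab => Subtype.ext hab)).1 h1
  let P0 : Ideal (↥O)[X] := RingHom.ker (mapRingHom (IsLocalRing.residue O))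
  have hP0 : ∀ p : (↥O)[X], p ∈ P0 ↔ p.map (IsLocalRing.residue O) = 0 := fun p => Iff.rfl
  have hprime : P0.IsPrime := RingHom.ker_isPrime _
  obtain ⟨V, hmem, hnu⟩ := dom50 (R := Localization.AtPrime P0) P0 g (fun p hp h0 => by
    rw [hg0 p h0] at hp
    exact hp P0.zero_mem)
  have hCX : ∀ c : ↥O, g (C c) = algebraMap K N c := fun c => by
    rw [hg, map_C, aeval_C]
    rfl
  refine ⟨V, ⟨fun c => ⟨fun hc => ?_, fun hc => ?_⟩, ?_, fun p hp => ?_⟩⟩
  · by_contra hcO
    have hc0 : c ≠ 0 := by
      rintro rfl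
      exact hcO O.zero_mem
    have hci : c⁻¹ ∈ O := (O.mem_or_inv_mem c).resolve_left hcO
    have h1 : C (⟨c⁻¹, hci⟩ : O) ∈ P0 := by
      rw [hP0, map_C, C_eq_zero, IsLocalRing.residue_eq_zero_iff, IsLocalRing.mem_maximalIdeal]
      intro hu
      apply hcO
      obtain ⟨u, hu⟩ := hu
      have h2 : ((u⁻¹ : (↥O)ˣ) : ↥O) * (⟨c⁻¹, hci⟩ : O) = 1 := by
        rw [← hu, Units.inv_mul]
      have h3 : (((u⁻¹ : (↥O)ˣ) : ↥O) : K) * c⁻¹ = 1 := congrArg Subtype.val h2
      have h4 : (((u⁻¹ : (↥O)ˣ) : ↥O) : K) = c := by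
        rw [mul_inv_eq_one₀ hc0] at h3
        exact h3
      rw [← h4]
      exact ((u⁻¹ : (↥O)ˣ) : ↥O).2
    have h2 := (hnu _).1 h1
    rw [hCX, ValuationSubring.mem_nonunits_iff_or] at h2
    rcases h2 with h2 | h2
    · exact inv_ne_zero hc0 ((map_eq_zero _).1 h2)
    · rw [← map_inv₀] at h2
      change algebraMap K N (c⁻¹)⁻¹ ∉ V at h2
      rw [inv_inv] at h2
      exact h2 hc
  · have := hmem (C ⟨c, hc⟩)
    rwa [hCX] at this
  · have := hmem X
    rwa [hg, map_X, aeval_X] at this
  · let ιE : E →+* O := (algebraMap E K).codRestrict O.toSubring h.const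
    have h1 : (p.map ιE).map O.subtype = p.map (algebraMap E K) := by
      rw [Polynomial.map_map]
      rfl
    have h2 : g (p.map ιE) = aeval x p := by
      rw [hg, h1, aeval_map_algebraMap]
    rw [← h2, ← hnu, hP0, Polynomial.map_map]
    intro h3
    exact hp ((Polynomial.map_eq_zero _).1 h3)

omit [IsAlgClosed K] in
/-- The trace of a Gauss extension on `K(x)` is determined. -/
private lemma trace50 {N : Type u} [Field N] [Algebra K N] [Algebra E N] [IsScalarTower E K N]
    (h : Base E O t) {x : N} (htr : Transcendental K x) {V V' : ValuationSubring N}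
    (hV : Gauss E O x V) (hV' : Gauss E O x V') (z : N)
    (hz : z ∈ IntermediateField.adjoin K {x}) : z ∈ V → z ∈ V' := by
  rw [IntermediateField.mem_adjoin_simple_iff] at hz
  obtain ⟨p, q, rfl⟩ := hz
  by_cases hq : q = 0
  · intro _
    rw [hq, map_zero, div_zero]
    exact V'.zero_mem
  have hq0 : aeval x q ≠ 0 := fun h0 => htr ⟨q, hq, h0⟩
  obtain ⟨i0, hi0, hmax⟩ := Finset.exists_max_image q.support (fun i => O.valuation (q.coeff i))
    (Polynomial.support_nonempty.2 hq)
  have hc0 : q.coeff i0 ≠ 0 := Polynomial.mem_support_iff.1 hi0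
  have hall : ∀ i, O.valuation (q.coeff i) ≤ O.valuation (q.coeff i0) := by
    intro i
    by_cases hi : i ∈ q.support
    · exact hmax i hi
    · rw [Polynomial.notMem_support_iff.1 hi, map_zero]
      exact zero_le
  have key : ∀ W : ValuationSubring N, Gauss E O x W →
      W.valuation (aeval x q) = W.valuation (algebraMap K N (q.coeff i0)) := by
    intro W hW
    refine le_antisymm ((hW.val_poly h q _).2 hall) ?_
    rw [← not_lt, hW.val_poly_lt h q _ hc0]
    intro h1
    exact lt_irrefl _ (h1 i0)
  have key2 : ∀ W : ValuationSubring N, Gauss E O x W →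
      (aeval x p / aeval x q ∈ W ↔ ∀ i, O.valuation (p.coeff i) ≤ O.valuation (q.coeff i0)) := by
    intro W hW
    rw [← ValuationSubring.valuation_le_one_iff, map_div₀,
      div_le_one₀ (zero_lt_iff.2 ((Valuation.ne_zero_iff _).2 hq0)), key W hW, hW.val_poly h]
  intro h1
  exact (key2 V' hV').2 ((key2 V hV).1 h1)

theorem USetup.gauss_unique (hu : USetup E O t B M x) {V V' : ValuationSubring U}
    (hV : Gauss E O x V) (hV' : Gauss E O x V') : V = V' := by
  have := hu.gal
  obtain ⟨σ, hσ⟩ := SC.exists_conj_val (L := IntermediateField.adjoin K {x}) V V' (fun c =>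
    ⟨trace50 hu.base hu.tr hV hV' c c.2, trace50 hu.base hu.tr hV' hV c c.2⟩)
  have hσx : (σ.restrictScalars K) x = x := by
    have hx : x ∈ IntermediateField.adjoin K {x} :=
      IntermediateField.mem_adjoin_simple_self K x
    exact σ.commutes (⟨x, hx⟩ : IntermediateField.adjoin K {x})
  ext z
  rw [← hσ z]
  obtain ⟨N, -, hz, hN, hx, hs⟩ := hu.exists_level {z}
  obtain ⟨g, hg, hgz⟩ := USetup.exists_restrict (U := U) hx hN (σ.restrictScalars K) hσx
  have hzN : z ∈ N := hz z (Finset.mem_singleton_self z)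
  have hVN : Gauss E O (⟨x, hx⟩ : N) (V'.comap (algebraMap N U)) := by
    refine ⟨fun c => ?_, hV'.x_mem, fun p hp => ?_⟩
    · rw [ValuationSubring.mem_comap]
      exact hV'.mem_iff c
    · rw [comap_nonunits50]
      have h1 : algebraMap N U (aeval (⟨x, hx⟩ : N) p) = aeval x p := by
        rw [aeval_def, aeval_def, hom_eval₂]
        rfl
      rw [h1]
      exact hV'.x_tr p hp
  have h1 := LT.stable hs hVN g hg ⟨z, hzN⟩
  rw [ValuationSubring.mem_comap, ValuationSubring.mem_comap] at h1
  have h2 : algebraMap N U (g ⟨z, hzN⟩) = σ z := (hgz ⟨z, hzN⟩).symm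
  rw [h2] at h1
  exact h1

/-- Semilinear automorphisms preserve the valuation ring. -/
theorem USetup.stable (hu : USetup E O t B M x) {V : ValuationSubring U}
    (hV : Gauss E O x V) (σ : U ≃+* U) (φ : K ≃+* K)
    (hσ : ∀ c, σ (algebraMap K U c) = algebraMap K U (φ c)) (hφ : ∀ c, φ c ∈ O ↔ c ∈ O)
    (hx : σ x = x) (z : U) : σ z ∈ V ↔ z ∈ V := by
  have hG : Gauss E O x (V.comap (σ : U →+* U)) := by
    refine ⟨fun c => ?_, ?_, fun p hp => ?_⟩
    · rw [ValuationSubring.mem_comap]
      change σ (algebraMap K U c) ∈ V ↔ _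
      rw [hσ, hV.mem_iff, hφ]
    · rw [ValuationSubring.mem_comap]
      change σ x ∈ V
      rw [hx]
      exact hV.x_mem
    · rw [comap_nonunits50]
      have h1 : (σ : U →+* U) (aeval x p) =
          aeval x ((p.map (algebraMap E K)).map (φ : K →+* K)) := by
        have e1 : (σ : U →+* U).comp (algebraMap K U) =
            (algebraMap K U).comp (φ : K →+* K) := RingHom.ext fun c => hσ c
        have e2 : (σ : U →+* U) x = x := hx
        rw [← aeval_map_algebraMap K x p]
        generalize p.map (algebraMap E K) = P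
        rw [aeval_def, aeval_def, hom_eval₂, eval₂_map, e1, e2]
      rw [h1, ValuationSubring.mem_nonunits_iff]
      obtain ⟨i, hi⟩ : ∃ i, p.coeff i ≠ 0 := by
        by_contra hcon
        push Not at hcon
        exact hp (Polynomial.ext fun i => by rw [hcon i, coeff_zero])
      intro hlt
      have h2 : V.valuation (aeval x ((p.map (algebraMap E K)).map (φ : K →+* K))) <
          V.valuation (algebraMap K U 1) := by
        rw [map_one, map_one]
        exact hlt
      rw [hV.val_poly_lt hu.base _ 1 one_ne_zero] at h2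
      have h3 := h2 i
      rw [coeff_map, coeff_map, map_one, ← ValuationSubring.mem_nonunits_iff,
        ValuationSubring.mem_nonunits_iff_or] at h3
      have he0 : algebraMap E K (p.coeff i) ≠ 0 := (_root_.map_ne_zero _).2 hi
      rcases h3 with h3 | h3
      · exact he0 ((map_eq_zero _).1 h3)
      · apply h3
        rw [← map_inv₀, ← map_inv₀]
        exact (hφ _).2 (hu.base.const _)
  have h := hu.gauss_unique hG hV
  have h2 : z ∈ V.comap (σ : U →+* U) ↔ z ∈ V := by rw [h]
  rwa [ValuationSubring.mem_comap] at h2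

end Pool.Agent.LT
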