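import Pool.Agent.Helper13.LT.L1
import Pool.Agent.SC.H1
import Pool.Agent.SC.Eigen

/-!
# Block L2: the Lefschetz theorem, vertical part

Proof.  `E'` = `algebraicClosure F(u) C`.  Let `d` = the degree of the Galois closure `N` of
`E'(t)(z)` over `E'(t)`, `m = d!`, `θ^m = t`.  Apply `SC.H1.main_abs` with the base field `F(u)`
(finitely generated), `k = F(u)(t)`, `E = E'`, `M = E'(θ)`, `u := θ`, `C`.  So we have to prove: if `W'` is a valuation ring of `C`
containing `F(u)` (`Q`, `O` in `main_abs` correspond to `W'`, `W' ∩ k`) and `τ` is in its inertia group and fixes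
`M` then `τ z = z`.
* `t ∈ 𝔪_{W'}` or `t⁻¹ ∈ 𝔪_{W'}`: if `τ z ≠ z` then there is an eigenvector `v ∈ N` of `τ`, `τ v = ζ v`,
  `ζ ≠ 1` (root of unity); the ramification index of `N / E'(t)` divides `m`, so `W'(v) = W'(θ)^j` for some `j`,
  and `v/θ^j` is a unit whose residue would be multiplied by `ζ`.  Contradiction.
* `t` is a unit of `W'` and `Δ(t, u) ∉ 𝔪_{W'}`: `W'` is `Vertical`, `τ ∈ H`.
* `t` is a unit and `Δ(t, u) ∈ 𝔪_{W'}`: let `a ∈ E'` be the residue of `t`; `Δ(a, u) = 0`.  If `a` is algebraic over `F`
  then `u` would be algebraic over `F` (`Δ(a, U) ≠ 0`, the leading coefficient is a nonzero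
  constant).  So `a` is transcendental over `F`, every nonzero `p(t)`, `p ∈ F[T]`, is a unit of
  `W'`, and `W' ⊇ F(t)`; the algebraic closure `Ω` of `F(t)` is trivially valued, so `τ` is trivial on
  `Ω` (`τ c - c ∈ Ω ∩ 𝔪 = 0`), it fixes `u`, and so `z ∈ Ω(u)`.
(`W' = ⊤` cannot occur/is trivial: then the inertia group is trivial.)
-/

universe u

namespace Pool.Agent.LT

open VC Polynomial Pool.Agent.SC Pool.Agent.Helper91.Sect

section Aux37

/-- Elements algebraic over a field contained in a valuation ring are in the valuation ring. -/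
private theorem mem_of_alg37 {L C : Type*} [Field L] [Field C] [Algebra L C] {W : ValuationSubring C}
    (h : ∀ c : L, algebraMap L C c ∈ W) {z : C} (hz : IsAlgebraic L z) : z ∈ W := by
  obtain ⟨p, hp, hp0⟩ := hz.isIntegral
  let f : L →+* W := (algebraMap L C).codRestrict W.toSubring h
  have h2 : IsIntegral W z := by
    refine ⟨p.map f, hp.map f, ?_⟩
    rw [Polynomial.eval₂_map]
    exact hp0
  obtain ⟨w, hw⟩ := IsIntegrallyClosed.algebraMap_eq_of_integral h2
  rw [← hw]; exact w.2

private theorem val_const37 {L C : Type*} [Field L] [Field C] [Algebra L C] {W : ValuationSubring C}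
    (h : ∀ c : L, algebraMap L C c ∈ W) {c : L} (hc : c ≠ 0) :
    W.valuation (algebraMap L C c) = 1 := by
  refine le_antisymm ((W.valuation_le_one_iff _).2 (h c)) ?_
  have h1 := (W.valuation_le_one_iff _).2 (h c⁻¹)
  rw [map_inv₀, map_inv₀] at h1
  have h0 : W.valuation (algebraMap L C c) ≠ 0 := by simpa using hc
  exact (inv_le_one₀ (zero_lt_iff.2 h0)).1 h1

/-- The values of `E(s)` are the powers of the value of `s`. -/
private theorem val_poly37 {E C : Type*} [Field E] [Field C] [Algebra E C] {W : ValuationSubring C}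
    (hE : ∀ c : E, algebraMap E C c ∈ W) {s : C} (hs : s ∈ W.nonunits)
    (p : E[X]) (hp : p ≠ 0) : ∃ r : ℕ, W.valuation (aeval s p) = W.valuation s ^ r := by
  have hs1 : W.valuation s < 1 := (ValuationSubring.mem_nonunits_iff _).1 hs
  have hsW : s ∈ W := (W.valuation_le_one_iff _).1 hs1.le
  obtain ⟨q, hq⟩ : X ^ p.natTrailingDegree ∣ p := X_pow_dvd_iff.2 fun d hd =>
    coeff_eq_zero_of_lt_natTrailingDegree hd
  refine ⟨p.natTrailingDegree, ?_⟩
  have hq0 : q.coeff 0 ≠ 0 := by
    have h1 := trailingCoeff_nonzero_iff_nonzero.2 hp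
    unfold trailingCoeff at h1
    intro h0
    apply h1
    have h2 : ∀ n : ℕ, (X ^ n * q : E[X]).coeff n = 0 := by
      intro n
      rw [coeff_X_pow_mul', if_pos le_rfl, Nat.sub_self, h0]
    have h3 := h2 p.natTrailingDegree
    rwa [← hq] at h3
  have h2 : aeval s q = algebraMap E C (q.coeff 0) + s * aeval s q.divX := by
    conv_lhs => rw [← Polynomial.X_mul_divX_add q]
    rw [map_add, map_mul, aeval_X, aeval_C, add_comm]
  have h3 : aeval s q.divX ∈ W := by
    rw [aeval_eq_sum_range]
    refine W.toSubring.sum_mem fun i _ => ?_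
    rw [Algebra.smul_def]
    exact W.mul_mem _ _ (hE _) (pow_mem (S := W) hsW i)
  have h4 : W.valuation (s * aeval s q.divX) < 1 := by
    rw [map_mul]
    exact (mul_le_of_le_one_right' ((W.valuation_le_one_iff _).2 h3)).trans_lt hs1
  have h5 : W.valuation (aeval s q) = 1 := by
    rw [h2, Valuation.map_add_eq_of_lt_left]
    · exact val_const37 hE hq0
    · rw [val_const37 hE hq0]; exact h4
  conv_lhs => rw [hq]
  rw [map_mul, map_pow, aeval_X, map_mul, map_pow, h5, mul_one]

private theorem val_adjoin37 {E C : Type*} [Field E] [Field C] [Algebra E C]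
    {W : ValuationSubring C} (hE : ∀ c : E, algebraMap E C c ∈ W) {s : C}
    (hs : s ∈ W.nonunits) (hs0 : s ≠ 0) {x : C} (hx : x ∈ IntermediateField.adjoin E {s})
    (hx0 : x ≠ 0) : ∃ l : ℤ, W.valuation x = W.valuation s ^ l := by
  obtain ⟨p, q, rfl⟩ := (IntermediateField.mem_adjoin_simple_iff E x).1 hx
  have hp : p ≠ 0 := by
    rintro rfl
    apply hx0
    rw [map_zero, zero_div]
  have hq : q ≠ 0 := by
    rintro rfl
    apply hx0
    rw [map_zero, div_zero]
  obtain ⟨a, ha⟩ := val_poly37 hE hs p hp
  obtain ⟨b, hb⟩ := val_poly37 hE hs q hq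
  refine ⟨(a : ℤ) - b, ?_⟩
  have hs' : W.valuation s ≠ 0 := by simpa using hs0
  rw [map_div₀, ha, hb, zpow_sub₀ hs', zpow_natCast, zpow_natCast]

/-- An inertia element which fixes the constants `E`, the field `K0` and a root of high order of
`s` fixes the elements of small degree over `K0`. -/
private theorem fix_tame37 {k C : Type u} [Field k] [Field C] [Algebra k C] {E K0 : Type u}
    [Field E] [Algebra E C] [IsAlgClosed E] [CharZero E] [Field K0] [Algebra E K0] [Algebra K0 C]
    [IsScalarTower E K0 C] {W : ValuationSubring C}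
    (hE : ∀ c : E, algebraMap E C c ∈ W) {s θ : C} (hs0 : s ≠ 0)
    (hval : ∀ x : K0, x ≠ 0 → ∃ l : ℤ, W.valuation (algebraMap K0 C x) = W.valuation s ^ l)
    {N : IntermediateField K0 C} [FiniteDimensional K0 N] [Normal K0 N]
    (hθ : θ ^ (Module.finrank K0 N).factorial = s)
    {τ : C ≃ₐ[k] C} (hτ : InInert W τ) (hτK : ∀ x : K0, τ (algebraMap K0 C x) = algebraMap K0 C x)
    (hτθ : τ θ = θ) {z : C} (hz : z ∈ N) : τ z = z := by
  classical
  have hd : 0 < Module.finrank K0 N := Module.finrank_pos
  have hτE : ∀ c : E, τ (algebraMap E C c) = algebraMap E C c := fun c => by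
    rw [IsScalarTower.algebraMap_apply E K0 C, hτK]
  let τ0 : C ≃ₐ[K0] C := AlgEquiv.ofRingEquiv (f := (τ : C ≃+* C)) hτK
  have hτ0 : ∀ x : C, τ0 x = τ x := fun x => rfl
  let g : N ≃ₐ[K0] N := τ0.restrictNormal N
  have hg : ∀ x : N, ((g x : N) : C) = τ x := fun x => τ0.restrictNormal_commutes N x
  have hgpow : ∀ (n : ℕ) (x : N), (((g ^ n) x : N) : C) = (τ ^ n) x := by
    intro n
    induction n with
    | zero => intro x; rfl
    | succ n ih =>
      intro x
      rw [pow_succ, pow_succ, AlgEquiv.mul_apply, AlgEquiv.mul_apply, ih, hg]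
  by_contra hne
  have hg1 : g ≠ 1 := by
    intro h
    apply hne
    have h1 := hg ⟨z, hz⟩
    rw [h] at h1
    exact h1.symm
  have hfin : Finite (N ≃ₐ[K0] N) := inferInstance
  have hord : orderOf g ≠ 0 := (orderOf_pos g).ne'
  have hord1 : orderOf g ≠ 1 := fun h => hg1 (orderOf_eq_one_iff.1 h)
  obtain ⟨ℓ, hℓ, hℓd⟩ := Nat.exists_prime_and_dvd hord1
  obtain ⟨n0, hn0⟩ : ∃ n0, n0 = orderOf g / ℓ := ⟨_, rfl⟩
  have hordg' : orderOf (g ^ n0) = ℓ := by rw [hn0]; exact orderOf_pow_orderOf_div hord hℓd
  have hg'1 : g ^ n0 ≠ 1 := by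
    intro h
    rw [h, orderOf_one] at hordg'
    exact hℓ.one_lt.ne hordg'
  obtain ⟨x, hx⟩ : ∃ x : N, (g ^ n0) x ≠ x := by
    by_contra hcon
    push Not at hcon
    exact hg'1 (AlgEquiv.ext hcon)
  have sEKN : IsScalarTower E K0 N := inferInstance
  let g' : N ≃ₐ[E] N := (g ^ n0).restrictScalars E
  have hg'ℓ : g' ^ ℓ = 1 := by
    have h1 : (g ^ n0) ^ ℓ = 1 := by
      have := pow_orderOf_eq_one (g ^ n0)
      rwa [hordg'] at this
    have h2 : ∀ (n : ℕ) (y : N), (g' ^ n) y = ((g ^ n0) ^ n) y := by
      intro n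
      induction n with
      | zero => intro y; rfl
      | succ n ih =>
        intro y
        rw [pow_succ, pow_succ, AlgEquiv.mul_apply, AlgEquiv.mul_apply, ih]
        rfl
    ext y
    rw [h2, h1]
    rfl
  obtain ⟨ζ, hζ, v, -, hv0, hgv⟩ := SC.exists_eigenvector hℓ (g := g') hg'ℓ
    (N := (⊤ : IntermediateField E N)) (fun _ _ => IntermediateField.mem_top) (x := x)
    IntermediateField.mem_top hx
  have hζ1 : ζ ≠ 1 := hζ.ne_one hℓ.one_lt
  have hv0' : (v : C) ≠ 0 := by simpa using hv0
  have hτv : (τ ^ n0) (v : C) = algebraMap E C ζ * v := by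
    rw [← hgpow]
    have h1 := congrArg (fun y : N => (y : C)) hgv
    exact h1
  -- the value of `v`
  obtain ⟨j, hj⟩ : ∃ j : ℤ, W.valuation (v : C) = W.valuation θ ^ j := by
    have hvint : IsIntegral K0 v := Algebra.IsIntegral.isIntegral v
    obtain ⟨p, hp⟩ : ∃ p, p = minpoly K0 v := ⟨_, rfl⟩
    have hp0 : p ≠ 0 := by rw [hp]; exact minpoly.ne_zero hvint
    have hroot : ∑ i ∈ Finset.range (p.natDegree + 1),
        algebraMap K0 C (p.coeff i) * (v : C) ^ i = 0 := by
      have h1 : aeval v p = 0 := by rw [hp]; exact minpoly.aeval K0 v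
      have h2 : aeval (v : C) p = 0 := by
        have h3 := congrArg (algebraMap N C) h1
        rw [← aeval_algebraMap_apply, map_zero] at h3
        exact h3
      rw [aeval_eq_sum_range] at h2
      simpa [Algebra.smul_def] using h2
    obtain ⟨i, i', hii', hi, hi', heq⟩ := A1.two_terms W.valuation p.natDegree
      (fun i => algebraMap K0 C (p.coeff i)) (v : C) hv0' (by
        have : p.coeff p.natDegree ≠ 0 := by
          rw [coeff_natDegree]; exact leadingCoeff_ne_zero.2 hp0
        simpa using this) hroot
    have hi2 : p.coeff i ≠ 0 := by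
      intro h0
      apply hi
      simp [h0]
    have hi2' : p.coeff i' ≠ 0 := by
      intro h0
      apply hi'
      simp [h0]
    have hle : i' ≤ Module.finrank K0 N := by
      have h1 := le_natDegree_of_ne_zero hi2'
      have h2 : p.natDegree ≤ Module.finrank K0 N := by
        rw [hp]; exact minpoly.natDegree_le v
      exact h1.trans h2
    obtain ⟨a, ha⟩ := hval _ hi2
    obtain ⟨b, hb⟩ := hval _ hi2'
    have hvs : W.valuation s ≠ 0 := by simpa using hs0
    have hvv : W.valuation (v : C) ≠ 0 := by simpa using hv0'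
    have hmain : W.valuation (v : C) ^ (i' - i) = W.valuation s ^ (a - b) := by
      have h1 : W.valuation s ^ a * W.valuation (v : C) ^ i =
          W.valuation s ^ b * W.valuation (v : C) ^ i' := by
        rw [← ha, ← hb]; exact heq
      have h2 : W.valuation (v : C) ^ i' =
          W.valuation (v : C) ^ (i' - i) * W.valuation (v : C) ^ i := by
        rw [← pow_add]; congr 1; omega
      rw [h2, ← mul_assoc] at h1
      have h3 := mul_right_cancel₀ (pow_ne_zero _ hvv) h1
      rw [zpow_sub₀ hvs, h3, mul_div_assoc, mul_comm, div_mul_cancel₀]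
      exact zpow_ne_zero _ hvs
    obtain ⟨e, he⟩ : (i' - i) ∣ (Module.finrank K0 N).factorial :=
      Nat.dvd_factorial (by omega) (by omega)
    refine ⟨e * (a - b), ?_⟩
    have hθs : W.valuation θ ^ (Module.finrank K0 N).factorial = W.valuation s := by
      rw [← map_pow, hθ]
    have h4 : (W.valuation (v : C)) ^ (i' - i) = (W.valuation θ ^ ((e : ℤ) * (a - b))) ^ (i' - i) := by
      rw [hmain, ← hθs, he, ← zpow_natCast, ← zpow_natCast, ← zpow_mul, ← zpow_mul]
      congr 1
      push_cast
      ring
    exact (pow_left_inj₀ zero_le zero_le (by omega)).1 h4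
  have hθ0 : θ ≠ 0 := by
    rintro rfl
    rw [zero_pow (Nat.factorial_ne_zero _)] at hθ
    exact hs0 hθ.symm
  -- the unit `w`
  obtain ⟨w, hw⟩ : ∃ w : C, w = v / θ ^ j := ⟨_, rfl⟩
  have hw1 : W.valuation w = 1 := by
    rw [hw, map_div₀, map_zpow₀, hj, div_self]
    exact zpow_ne_zero _ (by simpa using hθ0)
  have hτn : InInert W (τ ^ n0) := by
    have hmul : ∀ n : ℕ, InInert W (τ ^ n) := by
      intro n
      induction n with
      | zero =>
        refine ⟨fun z => Iff.rfl, fun z _ => ?_⟩
        change z - z ∈ W.nonunits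
        rw [sub_self, ValuationSubring.mem_nonunits_iff, map_zero]
        exact zero_lt_one
      | succ n ih =>
        refine ⟨fun z => ?_, fun z hz => ?_⟩
        · rw [pow_succ', AlgEquiv.mul_apply]
          exact (hτ.1 _).trans (ih.1 z)
        · rw [pow_succ', AlgEquiv.mul_apply]
          have h1 : τ ((τ ^ n) z) - z = (τ ((τ ^ n) z) - (τ ^ n) z) + ((τ ^ n) z - z) := by ring
          rw [h1, ValuationSubring.mem_nonunits_iff]
          exact W.valuation.map_add_lt ((ValuationSubring.mem_nonunits_iff _).1
            (hτ.2 _ ((ih.1 z).2 hz))) ((ValuationSubring.mem_nonunits_iff _).1 (ih.2 z hz))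
    exact hmul n0
  have hτnθ : (τ ^ n0) θ = θ := by
    have : ∀ n : ℕ, (τ ^ n) θ = θ := by
      intro n
      induction n with
      | zero => rfl
      | succ n ih => rw [pow_succ', AlgEquiv.mul_apply, ih, hτθ]
    exact this n0
  have hτw : (τ ^ n0) w = algebraMap E C ζ * w := by
    rw [hw, map_div₀, map_zpow₀, hτnθ, hτv, mul_div_assoc]
  have hwW : w ∈ W := (W.valuation_le_one_iff _).1 hw1.le
  have h5 := hτn.2 w hwW
  rw [hτw, ValuationSubring.mem_nonunits_iff] at h5
  have h6 : algebraMap E C ζ * w - w = algebraMap E C (ζ - 1) * w := by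
    rw [map_sub, map_one]; ring
  rw [h6, map_mul, hw1, mul_one, val_const37 hE (sub_ne_zero.2 hζ1)] at h5
  exact lt_irrefl _ h5

end Aux37

variable {F k C : Type u} [Field F] [CharZero F] [Field k] [Field C] [Algebra F k] [Algebra k C]
  [Algebra F C] [IsScalarTower F k C]

section Disc37

omit [CharZero F] [Algebra F C] [IsScalarTower F k C] in
/-- If `Δ(t, u)` is in the maximal ideal then the residue of `t` is transcendental over `F`. -/
private theorem disc_tr37 {t u : k} (hu : Transcendental F u) {Δ : F[X][X]}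
    (hlead : ∃ c : F, c ≠ 0 ∧ Δ.leadingCoeff = Polynomial.C c) {W : ValuationSubring C}
    (hFu : ∀ c ∈ IntermediateField.adjoin F {u}, algebraMap k C c ∈ W)
    (htW : algebraMap k C t ∈ W) (hΔ0 : algebraMap k C (ev F t u Δ) ∈ W.nonunits) (p : F[X])
    (hp : p ≠ 0) : algebraMap k C (aeval t p) ∉ W.nonunits := by
  classical
  intro hpt
  let iW : IntermediateField.adjoin F {u} →+* W :=
    ((algebraMap k C).comp (algebraMap (IntermediateField.adjoin F {u}) k)).codRestrict
      W.toSubring fun c => hFu c c.2
  let g : IntermediateField.adjoin F {u} →+* IsLocalRing.ResidueField W :=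
    (IsLocalRing.residue W).comp iW
  let fW : F →+* W := iW.comp (algebraMap F (IntermediateField.adjoin F {u}))
  let alg : Algebra F (IsLocalRing.ResidueField W) :=
    (g.comp (algebraMap F (IntermediateField.adjoin F {u}))).toAlgebra
  let u' : IntermediateField.adjoin F {u} := IntermediateField.AdjoinSimple.gen F u
  let tW : W := ⟨algebraMap k C t, htW⟩
  let uW : W := iW u'
  let φ : F[X][X] →+* W := eval₂RingHom (eval₂RingHom fW tW) uW
  have hφ : W.subtype.comp φ = (algebraMap k C).comp (ev F t u) := by
    refine Polynomial.ringHom_ext' (Polynomial.ringHom_ext' ?_ ?_) ?_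
    · ext a
      simp only [φ, ev, RingHom.comp_apply, coe_eval₂RingHom, eval₂_C]
      change algebraMap k C (algebraMap F k a) = algebraMap k C (aeval t (Polynomial.C a))
      rw [aeval_C]
    · simp only [φ, ev, RingHom.comp_apply, coe_eval₂RingHom, eval₂_C, eval₂_X]
      change algebraMap k C t = algebraMap k C (aeval t X)
      rw [aeval_X]
    · simp only [φ, ev, RingHom.comp_apply, coe_eval₂RingHom, eval₂_X]
      rfl
  have hφ' : ∀ P, (φ P : C) = algebraMap k C (ev F t u P) := fun P =>
    congrArg (fun h : F[X][X] →+* C => h P) hφ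
  let ψ : F[X][X] →+* IsLocalRing.ResidueField W := (IsLocalRing.residue W).comp φ
  have hψ : ∀ P, algebraMap k C (ev F t u P) ∈ W.nonunits → ψ P = 0 := by
    intro P hP
    change IsLocalRing.residue W (φ P) = 0
    rw [IsLocalRing.residue_eq_zero_iff, ← ValuationSubring.coe_mem_nonunits_iff, hφ']
    exact hP
  have hψC : ∀ a : F, ψ (Polynomial.C (Polynomial.C a)) =
      algebraMap F (IsLocalRing.ResidueField W) a := by
    intro a
    simp only [ψ, φ, RingHom.comp_apply, coe_eval₂RingHom, eval₂_C]
    rfl
  let tb : IsLocalRing.ResidueField W := ψ (Polynomial.C X)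
  let ub : IsLocalRing.ResidueField W := ψ X
  have hub : ub = g u' := by
    simp only [ub, ψ, φ, RingHom.comp_apply, coe_eval₂RingHom, eval₂_X]
    rfl
  have hψp : ∀ q : F[X], ψ (Polynomial.C q) = aeval tb q := by
    have h1 : ψ.comp Polynomial.C = (aeval tb : F[X] →ₐ[F] _).toRingHom := by
      refine Polynomial.ringHom_ext' ?_ ?_
      · ext a
        simp only [RingHom.comp_apply]
        rw [hψC]
        exact (aeval_C tb a).symm
      · simp only [RingHom.comp_apply]
        exact (aeval_X tb).symm
    exact fun q => congrArg (fun h : F[X] →+* _ => h q) h1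
  have htb : IsAlgebraic F tb := by
    refine ⟨p, hp, ?_⟩
    rw [← hψp]
    apply hψ
    have h1 : ev F t u (Polynomial.C p) = aeval t p := by
      unfold ev
      rw [coe_eval₂RingHom, eval₂_C]
      rfl
    rw [h1]
    exact hpt
  let L := algebraicClosure F (IsLocalRing.ResidueField W)
  let tbL : L := ⟨tb, mem_algebraicClosure_iff.2 htb⟩
  let h : F[X] →+* L := (aeval tbL : F[X] →ₐ[F] L).toRingHom
  obtain ⟨c, hc0, hc⟩ := hlead
  have hΔb : Δ.map h ≠ 0 := by
    intro h0
    have h1 := congrArg (fun P : L[X] => P.coeff Δ.natDegree) h0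
    simp only [coeff_map, coeff_natDegree, coeff_zero] at h1
    rw [hc] at h1
    have h2 : h (Polynomial.C c) = algebraMap F L c := aeval_C tbL c
    rw [h2] at h1
    exact hc0 ((map_eq_zero _).1 h1)
  have hcomp : (algebraMap L (IsLocalRing.ResidueField W)).comp h = ψ.comp Polynomial.C := by
    refine Polynomial.ringHom_ext' ?_ ?_
    · ext a
      simp only [RingHom.comp_apply]
      rw [hψC]
      have h2 : h (Polynomial.C a) = algebraMap F L a := aeval_C tbL a
      rw [h2]
      rfl
    · simp only [RingHom.comp_apply]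
      have h2 : h X = tbL := aeval_X tbL
      rw [h2]
      rfl
  have hroot : aeval ub (Δ.map h) = 0 := by
    rw [aeval_def, eval₂_map, hcomp]
    have h1 : ∀ P : F[X][X], eval₂ (ψ.comp Polynomial.C) ub P = ψ P := by
      intro P
      have h2 : eval₂RingHom (ψ.comp Polynomial.C) ub = ψ := by
        refine Polynomial.ringHom_ext' ?_ ?_
        · refine RingHom.ext fun q => ?_
          rw [RingHom.comp_apply, coe_eval₂RingHom, eval₂_C]
        · rw [coe_eval₂RingHom, eval₂_X]
      exact congrArg (fun h : F[X][X] →+* _ => h P) h2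
    rw [h1]
    exact hψ Δ hΔ0
  have hubL : IsAlgebraic L ub := ⟨Δ.map h, hΔb, hroot⟩
  have hubF : IsAlgebraic F ub := hubL.restrictScalars F
  let gA : IntermediateField.adjoin F {u} →ₐ[F] IsLocalRing.ResidueField W :=
    { g with commutes' := fun a => rfl }
  have h3 : IsAlgebraic F (gA u') := by
    change IsAlgebraic F (g u')
    rw [← hub]; exact hubF
  rw [isAlgebraic_algHom_iff gA gA.toRingHom.injective] at h3
  have h4 : IsAlgebraic F (algebraMap (IntermediateField.adjoin F {u}) k u') :=
    h3.algebraMap (A := k)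
  exact hu h4

/-- The third case: inertia is trivial on the algebraic closure of `F(t)`. -/
private theorem disc_fix37 {t u : k} (hu : Transcendental F u) {Δ : F[X][X]}
    (hlead : ∃ c : F, c ≠ 0 ∧ Δ.leadingCoeff = Polynomial.C c) {W : ValuationSubring C}
    (hFu : ∀ c ∈ IntermediateField.adjoin F {u}, algebraMap k C c ∈ W)
    (htW : algebraMap k C t ∈ W) (hΔ0 : algebraMap k C (ev F t u Δ) ∈ W.nonunits)
    {τ : C ≃ₐ[k] C} (hτ : InInert W τ) {z : C}
    (hz1 : z ∈ IntermediateField.adjoin (algebraicClosure (IntermediateField.adjoin F {t}) C)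
      {algebraMap k C u}) : τ z = z := by
  have htr := disc_tr37 hu hlead hFu htW hΔ0
  have hFW : ∀ a : F, algebraMap k C (algebraMap F k a) ∈ W := fun a =>
    hFu _ (IntermediateField.algebraMap_mem _ a)
  have hpW : ∀ p : F[X], algebraMap k C (aeval t p) ∈ W := by
    intro p
    rw [aeval_eq_sum_range, map_sum]
    refine W.toSubring.sum_mem fun i _ => ?_
    rw [Algebra.smul_def, map_mul, map_pow]
    exact W.mul_mem _ _ (hFW _) (pow_mem (S := W) htW i)
  have hFt : ∀ c : IntermediateField.adjoin F {t},
      algebraMap (IntermediateField.adjoin F {t}) C c ∈ W := by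
    intro c
    obtain ⟨p, q, hpq⟩ := (IntermediateField.mem_adjoin_simple_iff F (c : k)).1 c.2
    change algebraMap k C (c : k) ∈ W
    rw [hpq, map_div₀]
    by_cases hq : q = 0
    · rw [hq, map_zero, map_zero, div_zero]; exact W.zero_mem
    · have h1 := htr q hq
      rw [div_eq_mul_inv]
      refine W.mul_mem _ _ (hpW p) ?_
      by_contra h2
      apply h1
      rw [ValuationSubring.mem_nonunits_iff_or]
      exact Or.inr h2
  have hΩW : ∀ z : C, IsAlgebraic (IntermediateField.adjoin F {t}) z → z ∈ W := fun z hz =>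
    mem_of_alg37 hFt hz
  have hfix : ∀ c : algebraicClosure (IntermediateField.adjoin F {t}) C, τ (c : C) = c := by
    intro c
    have hc : IsAlgebraic (IntermediateField.adjoin F {t}) (c : C) :=
      mem_algebraicClosure_iff.1 c.2
    have hτc : IsAlgebraic (IntermediateField.adjoin F {t}) (τ (c : C)) := by
      let τt : C ≃ₐ[IntermediateField.adjoin F {t}] C := τ.restrictScalars _
      exact hc.algHom τt.toAlgHom
    have h1 : IsAlgebraic (IntermediateField.adjoin F {t}) (τ (c : C) - c) := hτc.sub hc
    have h2 := hτ.2 (c : C) (hΩW _ hc)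
    rw [ValuationSubring.mem_nonunits_iff_or] at h2
    rcases h2 with h2 | h2
    · exact sub_eq_zero.1 h2
    · exact absurd (hΩW _ h1.inv) h2
  let T : IntermediateField (algebraicClosure (IntermediateField.adjoin F {t}) C) C :=
    { carrier := {x | τ x = x}
      mul_mem' := fun {a b} ha hb => by
        change τ (a * b) = a * b
        rw [map_mul, ha, hb]
      add_mem' := fun {a b} ha hb => by
        change τ (a + b) = a + b
        rw [map_add, ha, hb]
      algebraMap_mem' := hfix
      inv_mem' := fun a ha => by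
        change τ a⁻¹ = a⁻¹
        rw [map_inv₀, ha] }
  have hT : IntermediateField.adjoin (algebraicClosure (IntermediateField.adjoin F {t}) C)
      {algebraMap k C u} ≤ T := IntermediateField.adjoin_simple_le_iff.2 (τ.commutes u)
  exact hT hz1

end Disc37

section Main37

omit [CharZero F] [Algebra F C] [IsScalarTower F k C] [Algebra k C] [Field C] in
private theorem tr37 {t u : k} (htu : AlgebraicIndependent F ![t, u]) :
    Transcendental (IntermediateField.adjoin F {u}) t := by
  have h1 := htu.transcendental_adjoin (s := {1}) (i := 0) (by simp)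
  rw [Set.image_singleton] at h1
  have h2 : Transcendental (Algebra.adjoin F {u}) t := h1
  exact IntermediateField.transcendental_adjoin_iff.2 h2

omit [CharZero F] [Algebra F C] [IsScalarTower F k C] [Algebra k C] [Field C] in
private theorem top37 {t u : k} (htop : IntermediateField.adjoin F {t, u} = ⊤) :
    IntermediateField.adjoin (IntermediateField.adjoin F {u}) {t} = ⊤ := by
  have h1 : (IntermediateField.adjoin (IntermediateField.adjoin F {u}) {t}).restrictScalars F =
      ⊤ := by
    rw [IntermediateField.adjoin_adjoin_left, ← htop]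
    congr 1
    rw [Set.union_comm]
    rfl
  rw [eq_top_iff]
  intro x _
  have h2 : x ∈ (IntermediateField.adjoin (IntermediateField.adjoin F {u}) {t}).restrictScalars F :=
    by rw [h1]; trivial
  exact h2

omit [CharZero F] [Algebra F C] [IsScalarTower F k C] [Algebra k C] [Field C] in
private theorem fg37 (hF : ∃ S : Finset F, Subfield.closure (S : Set F) = ⊤) (u : k) :
    ∃ S : Finset (IntermediateField.adjoin F {u}),
      Subfield.closure (S : Set (IntermediateField.adjoin F {u})) = ⊤ := by
  classical
  obtain ⟨S, hS⟩ := hF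
  obtain ⟨T, hT⟩ : ∃ T : Subfield (IntermediateField.adjoin F {u}), T = Subfield.closure
      ((S.image (algebraMap F (IntermediateField.adjoin F {u})) ∪
        {IntermediateField.AdjoinSimple.gen F u} : Finset _) : Set _) := ⟨_, rfl⟩
  refine ⟨S.image (algebraMap F (IntermediateField.adjoin F {u})) ∪
        {IntermediateField.AdjoinSimple.gen F u}, ?_⟩
  rw [← hT]
  have hFT : ∀ a : F, algebraMap F (IntermediateField.adjoin F {u}) a ∈ T := by
    have h1 : Subfield.closure (S : Set F) ≤
        T.comap (algebraMap F (IntermediateField.adjoin F {u})) := by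
      rw [Subfield.closure_le]
      intro b hb
      rw [hT]
      refine Subfield.subset_closure ?_
      rw [Finset.coe_union, Finset.coe_image]
      exact Or.inl ⟨b, hb, rfl⟩
    rw [hS] at h1
    exact fun a => h1 (Subfield.mem_top a)
  have huT : IntermediateField.AdjoinSimple.gen F u ∈ T := by
    rw [hT]
    refine Subfield.subset_closure ?_
    rw [Finset.coe_union]
    exact Or.inr (by simp)
  let I : IntermediateField F k :=
    { T.map (algebraMap (IntermediateField.adjoin F {u}) k) with
      algebraMap_mem' := fun a => ⟨algebraMap F _ a, hFT a, rfl⟩ }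
  have hI : IntermediateField.adjoin F {u} ≤ I :=
    IntermediateField.adjoin_simple_le_iff.2 ⟨IntermediateField.AdjoinSimple.gen F u, huT, rfl⟩
  rw [eq_top_iff]
  intro x _
  obtain ⟨y, hy, hyx⟩ := hI x.2
  have : y = x := Subtype.ext hyx
  rw [← this]
  exact hy

omit [CharZero F] [Algebra F C] [IsScalarTower F k C] in
private theorem kmem37 {t u : k} (htop : IntermediateField.adjoin F {t, u} = ⊤)
    (M : IntermediateField (algebraicClosure (IntermediateField.adjoin F {u}) C) C)
    (ht : algebraMap k C t ∈ M) (c : k) : algebraMap k C c ∈ M := by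
  have h1 : (⊤ : IntermediateField (IntermediateField.adjoin F {u}) k) ≤
      (M.restrictScalars (IntermediateField.adjoin F {u})).comap
        (IsScalarTower.toAlgHom (IntermediateField.adjoin F {u}) k C) := by
    rw [← top37 htop, IntermediateField.adjoin_simple_le_iff]
    exact ht
  exact h1 (IntermediateField.mem_top (x := c))

theorem vertical_part [IsAlgClosed C] [IsGalois k C]
    (hF : ∃ S : Finset F, Subfield.closure (S : Set F) = ⊤) (t u : k)
    (htu : AlgebraicIndependent F ![t, u]) (htop : IntermediateField.adjoin F {t, u} = ⊤)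
    {Δ : F[X][X]} (hΔ : GoodDisc Δ) (H : Subgroup (C ≃ₐ[k] C))
    (hver : ∀ W : ValuationSubring C, Vertical F t u (ev F t u Δ) W → ∀ τ : C ≃ₐ[k] C,
      InInert W τ → τ ∈ H)
    {z : C} (hz : ∀ τ ∈ H, τ z = z)
    (hz1 : z ∈ IntermediateField.adjoin (algebraicClosure (IntermediateField.adjoin F {t}) C)
      {algebraMap k C u}) :
    ∃ (m : ℕ) (θ : C), 0 < m ∧ θ ^ m = algebraMap k C t ∧
      z ∈ IntermediateField.adjoin (algebraicClosure (IntermediateField.adjoin F {u}) C) {θ} := by
  classical
  have hu : Transcendental F u := htu.transcendental 1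
  have htr := tr37 htu
  have ht0 : t ≠ 0 := by
    rintro rfl
    exact htr isAlgebraic_zero
  have ht0' : algebraMap k C t ≠ 0 := by simpa using ht0
  have hEac : IsAlgClosed (algebraicClosure (IntermediateField.adjoin F {u}) C) :=
    (inferInstance : IsAlgClosure (IntermediateField.adjoin F {u})
      (algebraicClosure (IntermediateField.adjoin F {u}) C)).isAlgClosed
  have hk0 : CharZero (IntermediateField.adjoin F {u}) :=
    charZero_of_injective_algebraMap (algebraMap F (IntermediateField.adjoin F {u})).injective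
  have hE0 : CharZero (algebraicClosure (IntermediateField.adjoin F {u}) C) :=
    charZero_of_injective_algebraMap (algebraMap (IntermediateField.adjoin F {u})
      (algebraicClosure (IntermediateField.adjoin F {u}) C)).injective
  obtain ⟨K0, hK0⟩ : ∃ K0 : IntermediateField (algebraicClosure (IntermediateField.adjoin F {u}) C) C,
      K0 = IntermediateField.adjoin _ {algebraMap k C t} := ⟨_, rfl⟩
  have htK0 : algebraMap k C t ∈ K0 := by
    rw [hK0]; exact IntermediateField.mem_adjoin_simple_self _ _
  have hkK0 := kmem37 htop K0 htK0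
  let ik0 : Algebra k K0 := ((algebraMap k C).codRestrict K0.toSubring hkK0).toAlgebra
  have sk0 : IsScalarTower k K0 C := IsScalarTower.of_algebraMap_eq fun c => rfl
  have hzint : IsIntegral K0 z := (Algebra.IsIntegral.isIntegral (R := k) z).tower_top
  obtain ⟨N, hN⟩ : ∃ N : IntermediateField K0 C,
      N = IntermediateField.adjoin K0 ((minpoly K0 z).rootSet C) := ⟨_, rfl⟩
  have hsplit : ((minpoly K0 z).map (algebraMap K0 C)).Splits := IsAlgClosed.splits _
  have hfinN : FiniteDimensional K0 N := by
    rw [hN]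
    refine IntermediateField.finiteDimensional_adjoin fun x _ => ?_
    exact (Algebra.IsIntegral.isIntegral (R := k) x).tower_top
  have hMsplit : IsSplittingField K0 N (minpoly K0 z) := by
    rw [hN]; exact IntermediateField.adjoin_rootSet_isSplittingField hsplit
  have hnorm : Normal K0 N := Normal.of_isSplittingField (minpoly K0 z)
  have hzN : z ∈ N := by
    rw [hN]
    refine IntermediateField.subset_adjoin _ _ ?_
    rw [mem_rootSet]
    exact ⟨minpoly.ne_zero hzint, minpoly.aeval K0 z⟩
  obtain ⟨m, hm⟩ : ∃ m, m = (Module.finrank K0 N).factorial := ⟨_, rfl⟩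
  have hm0 : 0 < m := by rw [hm]; exact Nat.factorial_pos _
  obtain ⟨θ, hθ⟩ := IsAlgClosed.exists_pow_nat_eq (algebraMap k C t) hm0
  refine ⟨m, θ, hm0, hθ, ?_⟩
  obtain ⟨M, hM⟩ : ∃ M : IntermediateField (algebraicClosure (IntermediateField.adjoin F {u}) C) C,
      M = IntermediateField.adjoin _ {θ} := ⟨_, rfl⟩
  have hθM : θ ∈ M := by rw [hM]; exact IntermediateField.mem_adjoin_simple_self _ _
  have htM : algebraMap k C t ∈ M := by rw [← hθ]; exact pow_mem hθM m
  have hkM := kmem37 htop M htM
  let ikM : Algebra k M := ((algebraMap k C).codRestrict M.toSubring hkM).toAlgebra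
  have skM : IsScalarTower k M C := IsScalarTower.of_algebraMap_eq fun c => rfl
  have hK0M : K0 ≤ M := by
    rw [hK0]; exact IntermediateField.adjoin_simple_le_iff.2 htM
  have hθ0 : θ ≠ 0 := by
    rintro rfl
    rw [zero_pow hm0.ne'] at hθ
    exact ht0' hθ.symm
  have hθtr : Transcendental (algebraicClosure (IntermediateField.adjoin F {u}) C) θ := by
    intro h
    have h1 : IsAlgebraic (IntermediateField.adjoin F {u}) θ := h.restrictScalars _
    have h2 : IsAlgebraic (IntermediateField.adjoin F {u}) (algebraMap k C t) := by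
      rw [← hθ]; exact h1.pow m
    exact htr ((isAlgebraic_algebraMap_iff (algebraMap k C).injective).1 h2)
  let θM : M := ⟨θ, hθM⟩
  have hθMt : Transcendental (algebraicClosure (IntermediateField.adjoin F {u}) C) θM :=
    fun h => hθtr (h.algebraMap (A := C))
  have htopM : IntermediateField.adjoin (algebraicClosure (IntermediateField.adjoin F {u}) C)
      {θM} = ⊤ := by
    apply IntermediateField.lift_injective M
    rw [IntermediateField.lift_adjoin_simple, IntermediateField.lift_top]
    exact hM.symm
  obtain ⟨x, hx⟩ := SC.H1.main_abs (F := IntermediateField.adjoin F {u}) (k := k)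
    (E := algebraicClosure (IntermediateField.adjoin F {u}) C) (M := M) (C := C)
    (fun z => ⟨fun hz => ⟨⟨z, mem_algebraicClosure_iff.2 hz⟩, rfl⟩, by
      rintro ⟨e, rfl⟩
      exact mem_algebraicClosure_iff.1 e.2⟩) (fg37 hF u) t (top37 htop) θM htopM hθMt z (by
    intro O hFO _ Q hQ hA τ hτ hτM
    obtain ⟨W, hW⟩ : ∃ W : ValuationSubring C, W = locW Q := ⟨_, rfl⟩
    have hI : InInert W τ := by
      rw [hW]
      refine ⟨fun z => stab_locW Q hτ.1 z, fun z hz => ?_⟩
      rw [ValuationSubring.mem_nonunits_iff]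
      exact inertia_locW Q hτ.1 hτ.2 hz
    have hFW : ∀ c ∈ IntermediateField.adjoin F {u}, algebraMap k C c ∈ W := by
      intro c hc
      rw [hW, ← ValuationSubring.valuation_le_one_iff]
      exact locW_algebraMap_le ((O.valuation_le_one_iff _).2 (hFO ⟨c, hc⟩))
    have hEW : ∀ c : algebraicClosure (IntermediateField.adjoin F {u}) C,
        algebraMap (algebraicClosure (IntermediateField.adjoin F {u}) C) C c ∈ W := fun c =>
      mem_of_alg37 (L := IntermediateField.adjoin F {u}) (fun b => hFW b b.2)
        (mem_algebraicClosure_iff.1 c.2)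
    have hτK : ∀ x : K0, τ (algebraMap K0 C x) = algebraMap K0 C x := fun x =>
      hτM ⟨(x : C), hK0M x.2⟩
    have hτθ : τ θ = θ := hτM θM
    by_cases htW : algebraMap k C t ∈ W
    · by_cases htn : algebraMap k C t ∈ W.nonunits
      · refine fix_tame37 (E := algebraicClosure (IntermediateField.adjoin F {u}) C) (K0 := K0)
          hEW ht0' (fun x hx0 => ?_) (N := N) (θ := θ) (by rw [← hm]; exact hθ) hI hτK hτθ hzN
        refine val_adjoin37 hEW htn ht0' ?_ (by simpa using hx0)
        rw [← hK0]
        exact x.2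
      · by_cases hd : algebraMap k C (ev F t u Δ) ∈ W.nonunits
        · exact disc_fix37 hu hΔ.lead hFW htW hd hI hz1
        · by_cases hWt : W = ⊤
          · have h1 := hI.2 z (by rw [hWt]; trivial)
            rw [hWt, ValuationSubring.mem_nonunits_iff_or] at h1
            rcases h1 with h1 | h1
            · exact sub_eq_zero.1 h1
            · exact absurd (ValuationSubring.mem_top _) h1
          · exact hz τ (hver W ⟨hWt, hFW, htW, htn, hd⟩ τ hI)
    · have htn : (algebraMap k C t)⁻¹ ∈ W.nonunits := by
        rw [ValuationSubring.mem_nonunits_iff_or, inv_inv]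
        exact Or.inr htW
      refine fix_tame37 (E := algebraicClosure (IntermediateField.adjoin F {u}) C) (K0 := K0)
        hEW (inv_ne_zero ht0') (fun x hx0 => ?_) (N := N) (θ := θ⁻¹)
        (by rw [← hm, inv_pow, hθ]) hI hτK (by rw [map_inv₀, hτθ]) hzN
      refine val_adjoin37 hEW htn (inv_ne_zero ht0') ?_ (by simpa using hx0)
      have h2 : K0 ≤ IntermediateField.adjoin _ {(algebraMap k C t)⁻¹} := by
        rw [hK0, IntermediateField.adjoin_simple_le_iff]
        have h3 := inv_mem (IntermediateField.mem_adjoin_simple_self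
          (algebraicClosure (IntermediateField.adjoin F {u}) C) (algebraMap k C t)⁻¹)
        rwa [inv_inv] at h3
      exact h2 x.2)
  rw [← hM, ← hx]
  exact x.2

end Main37

end Pool.Agent.LT
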