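import Mathlib
import Pool.Agent.Helper17.FF.Basic
import Pool.Agent.SC.Deriv

/-!
# Block A0: derivations with a logarithmic pole

Proof.  `π` a uniformizer at `P`.  By `SC.deriv_bounded` (with `t = T`: `d T = T · (d T / T)` is
regular) the orders of the `d f`, `f ∈ 𝔪`, are bounded below; suppose that the minimum `m₀` is
`≤ 0`.  For `f ∈ 𝔪²`, `f = π g`, `g ∈ 𝔪`: `d f = g dπ + π dg` has order `≥ m₀ + 1`.  For
`f ∈ 𝔪`: `f = c π + f''`, `c ∈ k`, `f'' ∈ 𝔪²`, `d f - c dπ = π dc + d f''` has order
`≥ m₀ + 1` (`ord (π dc) ≥ 1 ≥ m₀ + 1`).  So the minimum is attained at `π`: `ord dπ = m₀`.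
Write `T = π^e u`, `e ≥ 1`, `u` a unit; `u = c + u'`, `u' ∈ 𝔪`, so `ord du ≥ min(0, m₀) = m₀` and
`d T = e π^{e-1} u dπ + π^e du` has order exactly `e - 1 + m₀ < e = ord T` (characteristic zero).
But `d T / T` is regular.  Contradiction.  So `m₀ ≥ 1`.
-/

universe u

namespace Pool.Agent.LT

open VC

private lemma nu_add67 {F : Type u} [Field F] {R : ValuationSubring F} {x y : F} (hx : x ∈ R.nonunits)
    (hy : y ∈ R.nonunits) : x + y ∈ R.nonunits := by
  rw [ValuationSubring.mem_nonunits_iff] at hx hy ⊢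
  exact (R.valuation.map_add x y).trans_lt (max_lt hx hy)

private lemma nu_mul67 {F : Type u} [Field F] {R : ValuationSubring F} {x y : F} (hx : x ∈ R)
    (hy : y ∈ R.nonunits) : x * y ∈ R.nonunits := by
  rw [ValuationSubring.mem_nonunits_iff] at hy ⊢
  rw [← R.valuation_le_one_iff] at hx
  rw [map_mul]
  exact mul_lt_one_of_nonneg_of_lt_one_right hx zero_le hy

private lemma nu_sub67 {F : Type u} [Field F] {R : ValuationSubring F} {x y : F} (hx : x ∈ R.nonunits)
    (hy : y ∈ R.nonunits) : x - y ∈ R.nonunits := by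
  have h1 : -1 * y ∈ R.nonunits := nu_mul67 (R.neg_mem 1 R.one_mem) hy
  have h2 := nu_add67 hx h1
  rwa [neg_one_mul, ← sub_eq_add_neg] at h2

/-- If the derivation `d` maps the constants to regular functions and `d T / T` is regular for one
nonzero element `T` of the maximal ideal, then `d` preserves the maximal ideal. -/
theorem deriv_nonunits {k F : Type u} [Field k] [IsAlgClosed k] [CharZero k] [Field F]
    [Algebra k F] (hF : IsFunctionField k F) (P : Place k F) (d : Derivation ℤ F F)
    (hk : ∀ a : k, d (algebraMap k F a) ∈ P.ring) {T : F} (h0 : T ≠ 0)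
    (hT : T ∈ P.ring.nonunits) (hd : d T / T ∈ P.ring) :
    ∀ f ∈ P.ring.nonunits, d f ∈ P.ring.nonunits := by
  classical
  obtain ⟨π, hπ0, hπ1⟩ := FF.exists_uniformizer hF P
  have hπn : π ∈ P.ring.nonunits := by
    rw [← FF.ord_pos_iff hF P hπ0, hπ1]
    norm_num
  have hπR : π ∈ P.ring := ValuationSubring.nonunits_subset hπn
  have hTR : T ∈ P.ring := ValuationSubring.nonunits_subset hT
  -- `T = π ^ e * v`
  have hTpos : 0 < ord P.ring T := (FF.ord_pos_iff hF P h0).2 hT
  obtain ⟨e, he⟩ : ∃ e : ℕ, ord P.ring T = e + 1 := ⟨(ord P.ring T - 1).toNat, by omega⟩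
  set v : F := T / π ^ (e + 1) with hv
  have hv0 : v ≠ 0 := div_ne_zero h0 (pow_ne_zero _ hπ0)
  have hTv : T = π ^ (e + 1) * v := by
    rw [hv]
    field_simp
  have hvo : ord P.ring v = 0 := by
    rw [hv, FF.ord_div hF P h0 (pow_ne_zero _ hπ0), FF.ord_pow hF P hπ0, hπ1, he]
    push_cast
    ring
  have hvR : v ∈ P.ring := (FF.ord_nonneg_iff hF P hv0).1 (by rw [hvo])
  have hviR : v⁻¹ ∈ P.ring := by
    refine (FF.ord_nonneg_iff hF P (inv_ne_zero hv0)).1 ?_
    rw [FF.ord_inv hF P hv0, hvo]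
    norm_num
  -- division by `π`
  have hdiv : ∀ f ∈ P.ring.nonunits, f / π ∈ P.ring := by
    intro f hf
    rcases eq_or_ne f 0 with rfl | hf0
    · rw [zero_div]
      exact P.ring.zero_mem
    · refine (FF.ord_nonneg_iff hF P (div_ne_zero hf0 hπ0)).1 ?_
      rw [FF.ord_div hF P hf0 hπ0, hπ1]
      have := (FF.ord_pos_iff hF P hf0).2 hf
      omega
  have hdT : d T ∈ P.ring := by
    have h1 : d T = T * (d T / T) := by field_simp
    rw [h1]
    exact P.ring.mul_mem _ _ hTR hd
  obtain ⟨N, hN⟩ := SC.deriv_bounded hF P d hk h0 hT hdT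
  -- the bound in terms of `π`
  have hB : ∀ f ∈ P.ring.nonunits, π ^ ((e + 1) * (N + 1)) * d f ∈ P.ring.nonunits := by
    intro f hf
    have h1 := hN f (ValuationSubring.nonunits_subset hf)
    have h2 : T * (T ^ N * d f) ∈ P.ring.nonunits := by
      rw [mul_comm]
      exact nu_mul67 h1 hT
    have h3 : π ^ ((e + 1) * (N + 1)) * d f = v⁻¹ ^ (N + 1) * (T * (T ^ N * d f)) := by
      have h4 : T * (T ^ N * d f) = π ^ ((e + 1) * (N + 1)) * v ^ (N + 1) * d f := by
        rw [← mul_assoc, ← pow_succ', hTv, mul_pow, ← pow_mul]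
      rw [h4, inv_pow]
      field_simp
    rw [h3]
    exact nu_mul67 (pow_mem hviR _) h2
  -- descent
  have step : ∀ n : ℕ, (∀ f ∈ P.ring.nonunits, π ^ (n + 1) * d f ∈ P.ring.nonunits) →
      ∀ f ∈ P.ring.nonunits, π ^ n * d f ∈ P.ring.nonunits := by
    intro n hn
    have hpn : ∀ x ∈ P.ring, π ^ (n + 1) * x ∈ P.ring.nonunits := by
      intro x hx
      rw [pow_succ', mul_assoc, mul_comm]
      exact nu_mul67 (P.ring.mul_mem _ _ (pow_mem hπR n) hx) hπn
    -- the uniformizer
    have hπd : π ^ n * d π ∈ P.ring.nonunits := by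
      obtain ⟨c, hc⟩ := FF.exists_residue hF P hvR
      set v' : F := v - algebraMap k F c with hv'
      have hvc : v = algebraMap k F c + v' := by rw [hv']; ring
      have h1 : π ^ (n + 1) * d v ∈ P.ring.nonunits := by
        rw [hvc, map_add, mul_add]
        exact nu_add67 (hpn _ (hk c)) (hn v' hc)
      have h2 : π ^ (n + 1) * (d T / T) - v⁻¹ * (π ^ (n + 1) * d v) ∈ P.ring.nonunits :=
        nu_sub67 (hpn _ hd) (nu_mul67 hviR h1)
      have h3 : π ^ (n + 1) * (d T / T) - v⁻¹ * (π ^ (n + 1) * d v) = ((e : F) + 1) * (π ^ n * d π) := by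
        have h4 : d T = (((e : F) + 1) * π ^ e * d π) * v + π ^ (e + 1) * d v := by
          rw [hTv, Derivation.leibniz, Derivation.leibniz_pow]
          simp only [smul_eq_mul, nsmul_eq_mul, Nat.add_sub_cancel]
          push_cast
          ring
        rw [h4, hTv]
        field_simp
        ring
      rw [h3] at h2
      have h5 : ((e : k) + 1) ≠ 0 := by exact_mod_cast Nat.succ_ne_zero e
      have h6 : π ^ n * d π = algebraMap k F (((e : k) + 1)⁻¹) * (((e : F) + 1) * (π ^ n * d π)) := by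
        have h7 : (algebraMap k F ((e : k) + 1)) = (e : F) + 1 := by
          rw [map_add, map_natCast, map_one]
        have h8 : (e : F) + 1 ≠ 0 := by
          rw [← h7]
          exact (map_ne_zero _).2 h5
        rw [map_inv₀, h7]
        field_simp
      rw [h6]
      exact nu_mul67 (P.algebraMap_mem _) h2
    intro f hf
    obtain ⟨c, hc⟩ := FF.exists_residue hF P (hdiv f hf)
    set g : F := f / π - algebraMap k F c with hg
    have hgR : g ∈ P.ring := ValuationSubring.nonunits_subset hc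
    have hf2 : f = π * (algebraMap k F c + g) := by
      rw [hg]
      field_simp
      ring
    have h1 : π ^ n * d f = π ^ (n + 1) * d (algebraMap k F c) + (algebraMap k F c + g) * (π ^ n * d π) +
        π ^ (n + 1) * d g := by
      rw [hf2, Derivation.leibniz, map_add, smul_eq_mul, smul_eq_mul]
      ring
    rw [h1]
    exact nu_add67 (nu_add67 (hpn _ (hk c)) (nu_mul67 (P.ring.add_mem _ _ (P.algebraMap_mem c) hgR) hπd)) (hn g hc)
  have hfin : ∀ m : ℕ, (∀ f ∈ P.ring.nonunits, π ^ m * d f ∈ P.ring.nonunits) →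
      ∀ f ∈ P.ring.nonunits, d f ∈ P.ring.nonunits := by
    intro m
    induction m with
    | zero =>
      intro h f hf
      have := h f hf
      rwa [pow_zero, one_mul] at this
    | succ m ih =>
      intro h
      exact ih (step m h)
  exact hfin _ hB

end Pool.Agent.LT
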