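import Pool.Agent.Helper13.LT.A1

/-!
# Block A2: levels

Proof.  `L₀ = E(t, x)` (a subfield of `N`).  All elements of `N` are algebraic over `L₀` (`K` is
algebraic over `E(t)` and `N` over `K(x)`).  `L` = the field generated by `L₀`, `Z` and the
coefficients of `A`.  It is stable under `D`: the set `{z ∈ L | D z ∈ L}` is a field; it contains
`E` (`D e = δ e = 0`), `t` (`D t = t`), `x` (`D x = A(x)`) and so `L₀`, and an element `z` of
`Z` or a coefficient, with minimal polynomial `P` over `L₀`: `0 = P^D(z) + P'(z) D z`, where `P^D`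
has coefficients in `D(L₀) ⊆ L`, so `D z = - P^D(z) / P'(z) ∈ L`.  Let `d = [L : L₀] < ∞` and
`e = d!`.  Values: `z ∈ L`, `z ≠ 0`: `1, z, …, z^d` are linearly dependent over `L₀`, two nonzero
terms `l z^i`, `l' z^{i'}` (`0 < i' - i ≤ d`) have the same value, and the value of a nonzero
element of `L₀` is a power (in `ℤ`) of `V(t)`: for a polynomial `p ∈ E[t][x]` by `Gauss.val_poly` it is the
maximum of the values of the coefficients in `E[t]`, and a nonzero element of `E[t]` is `t^a` times
`q(t)`, `q(0) ≠ 0`, a unit.  So `V(z)^{i'-i} = V(t)^j` and `i' - i ∣ d!`.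
-/

universe u

namespace Pool.Agent.LT

open VC Polynomial

variable {E K N : Type u} [Field E] [IsAlgClosed E] [CharZero E] [Field K] [IsAlgClosed K]
  [Algebra E K] [Field N] [Algebra K N] [Algebra E N] [IsScalarTower E K N]
  {O : ValuationSubring K} {t : K} {x : N}
  {δ : Derivation ℤ K K} {D : Derivation ℤ N N} {A : K[X]}

namespace A2

/-- In a vanishing sum with a nonzero term two nonzero terms have the same value. -/
theorem two_terms {F : Type*} [Field F] {Γ : Type*} [LinearOrderedCommGroupWithZero Γ]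
    (v : Valuation F Γ) {ι : Type*} [DecidableEq ι] (s : Finset ι) (f : ι → F)
    (hsum : ∑ i ∈ s, f i = 0) {i0 : ι} (h0 : i0 ∈ s) (hf : f i0 ≠ 0) :
    ∃ i ∈ s, ∃ j ∈ s, i ≠ j ∧ f i ≠ 0 ∧ f j ≠ 0 ∧ v (f i) = v (f j) := by
  obtain ⟨i, hi, hmax⟩ := s.exists_max_image (fun i => v (f i)) ⟨i0, h0⟩
  have hi0 : v (f i) ≠ 0 := by
    intro h
    have h2 := hmax i0 h0
    rw [h] at h2
    have h1 : v (f i0) = 0 := le_antisymm h2 zero_le
    exact hf ((map_eq_zero v).1 h1)
  by_contra hcon
  push Not at hcon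
  have hlt : ∀ j ∈ s.erase i, v (f j) < v (f i) := by
    intro j hj
    obtain ⟨hne, hjs⟩ := Finset.mem_erase.1 hj
    refine lt_of_le_of_ne (hmax j hjs) ?_
    intro heq
    have hfj : f j ≠ 0 := by
      intro h
      rw [h, map_zero] at heq
      exact hi0 heq.symm
    have hfi : f i ≠ 0 := by
      intro h
      rw [h, map_zero] at hi0
      exact hi0 rfl
    exact hcon i hi j hjs (Ne.symm hne) hfi hfj heq.symm
  have h1 := v.map_sum_lt hi0 hlt
  have h2 : ∑ j ∈ s.erase i, f j = - f i := by
    rw [← Finset.add_sum_erase s f hi] at hsum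
    linear_combination hsum
  rw [h2, v.map_neg] at h1
  exact lt_irrefl _ h1

/-- The elements of `L` whose derivative is in `L`. -/
def stab {N : Type*} [Field N] (L : Subfield N) (D : Derivation ℤ N N) : Subfield N where
  carrier := {z | z ∈ L ∧ D z ∈ L}
  mul_mem' := by
    rintro a b ⟨ha, ha'⟩ ⟨hb, hb'⟩
    refine ⟨L.mul_mem ha hb, ?_⟩
    rw [Derivation.leibniz]
    exact L.add_mem (L.mul_mem ha hb') (L.mul_mem hb ha')
  one_mem' := ⟨L.one_mem, by rw [Derivation.map_one_eq_zero]; exact L.zero_mem⟩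
  add_mem' := by
    rintro a b ⟨ha, ha'⟩ ⟨hb, hb'⟩
    refine ⟨L.add_mem ha hb, ?_⟩
    rw [map_add]
    exact L.add_mem ha' hb'
  zero_mem' := ⟨L.zero_mem, by rw [map_zero]; exact L.zero_mem⟩
  neg_mem' := by
    rintro a ⟨ha, ha'⟩
    refine ⟨L.neg_mem ha, ?_⟩
    rw [map_neg]
    exact L.neg_mem ha'
  inv_mem' := by
    rintro a ⟨ha, ha'⟩
    refine ⟨L.inv_mem ha, ?_⟩
    rw [Derivation.leibniz_inv]
    exact L.mul_mem (L.neg_mem (L.pow_mem (L.inv_mem ha) 2)) ha'

theorem mem_stab {N : Type*} [Field N] (L : Subfield N) (D : Derivation ℤ N N) (z : N) :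
    z ∈ stab L D ↔ z ∈ L ∧ D z ∈ L := Iff.rfl

/-- An element of `L` algebraic over a subfield of `stab L D` is in `stab L D`. -/
theorem mem_stab_of_algebraic {N : Type*} [Field N] [CharZero N] (L : Subfield N)
    (D : Derivation ℤ N N) {L₀ : Type*} [Field L₀] [Algebra L₀ N]
    (h0 : ∀ a : L₀, algebraMap L₀ N a ∈ stab L D) {z : N} (hz : z ∈ L)
    (hza : IsAlgebraic L₀ z) : z ∈ stab L D := by
  refine ⟨hz, ?_⟩
  have hint : IsIntegral L₀ z := hza.isIntegral
  set P := minpoly L₀ z with hP
  have h1 : aeval z P = 0 := minpoly.aeval L₀ z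
  have hsep : aeval z (derivative P) ≠ 0 := by
    have : CharZero L₀ := by
      refine ⟨fun a b hab => ?_⟩
      have h := congrArg (algebraMap L₀ N) hab
      rw [map_natCast, map_natCast] at h
      exact Nat.cast_injective h
    have hirr : Irreducible P := minpoly.irreducible hint
    exact hirr.separable.aeval_derivative_ne_zero h1
  have h2 : ∀ Q : L₀[X], ∃ r ∈ L, D (aeval z Q) = r + aeval z (derivative Q) * D z := by
    intro Q
    induction Q using Polynomial.induction_on' with
    | add p q hp hq =>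
      obtain ⟨r, hr, hr'⟩ := hp
      obtain ⟨r2, hr2, hr2'⟩ := hq
      refine ⟨r + r2, L.add_mem hr hr2, ?_⟩
      rw [map_add, map_add, hr', hr2', derivative_add, map_add]
      ring
    | monomial n a =>
      refine ⟨z ^ n * D (algebraMap L₀ N a), L.mul_mem (L.pow_mem hz n) (h0 a).2, ?_⟩
      rw [aeval_monomial, derivative_monomial, aeval_monomial, Derivation.leibniz,
        Derivation.leibniz_pow, map_mul, map_natCast]
      simp only [smul_eq_mul, nsmul_eq_mul]
      ring
  obtain ⟨r, hr, hr'⟩ := h2 P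
  rw [h1, map_zero] at hr'
  have h3 : D z = - r / aeval z (derivative P) := by
    rw [eq_div_iff hsep]
    linear_combination -hr'
  rw [h3]
  refine L.div_mem (L.neg_mem hr) ?_
  rw [aeval_eq_sum_range]
  refine L.sum_mem fun i _ => ?_
  rw [Algebra.smul_def]
  exact L.mul_mem (h0 _).1 (L.pow_mem hz i)

variable {V : ValuationSubring N}

omit [IsAlgClosed K] [IsAlgClosed E] [CharZero E] in
theorem aeval_mem (h : Base E O t) (q : E[X]) : O.valuation (aeval t q) ≤ 1 := by
  rw [ValuationSubring.valuation_le_one_iff]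
  have ht : t ∈ O := O.nonunits_subset h.t_mem
  rw [aeval_eq_sum_range]
  refine O.toSubring.sum_mem fun i _ => ?_
  rw [Algebra.smul_def]
  exact O.toSubring.mul_mem (h.const _) (O.toSubring.pow_mem ht i)

omit [IsAlgClosed K] in
theorem aeval_unit (h : Base E O t) (q : E[X]) (hq : q.coeff 0 ≠ 0) :
    O.valuation (aeval t q) = 1 := by
  have h1 : aeval t q = algebraMap E K (q.coeff 0) + aeval t q.divX * t := by
    conv_lhs => rw [← divX_mul_X_add q]
    rw [map_add, map_mul, aeval_X, aeval_C, add_comm]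
  have h2 : O.valuation (aeval t q.divX * t) < 1 := by
    rw [map_mul]
    have h3 : O.valuation t < 1 := (ValuationSubring.mem_nonunits_iff O).1 h.t_mem
    calc _ ≤ 1 * O.valuation t := mul_le_mul' (aeval_mem h _) le_rfl
      _ < 1 := by
        rw [one_mul]
        exact h3
  have h4 := h.unit hq
  rw [h1, Valuation.map_add_eq_of_lt_left]
  · exact h4
  · rw [h4]
    exact h2

omit [IsAlgClosed K] in
/-- The value of a nonzero polynomial in `t`. -/
theorem val_aeval (h : Base E O t) (q : E[X]) (hq : q ≠ 0) :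
    ∃ a : ℕ, ∃ c : K, O.valuation c = 1 ∧ aeval t q = t ^ a * c := by
  obtain ⟨g, hg, hg'⟩ := exists_eq_pow_rootMultiplicity_mul_and_not_dvd q hq 0
  rw [C_0, sub_zero] at hg hg'
  refine ⟨rootMultiplicity 0 q, aeval t g, aeval_unit h g ?_, ?_⟩
  · rwa [X_dvd_iff] at hg'
  · conv_lhs => rw [hg]
    rw [map_mul, map_pow, aeval_X]

omit [IsAlgClosed K] [IsAlgClosed E] [CharZero E] in
theorem val_one (hV : Gauss E O x V) {c : K} (hc : O.valuation c = 1) :
    V.valuation (algebraMap K N c) = 1 := by
  have h1 : V.valuation (algebraMap K N 1) = 1 := by rw [map_one, map_one]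
  refine le_antisymm ?_ ?_
  · rw [← h1, hV.val_eq_iff, hc, map_one]
  · rw [← h1, hV.val_eq_iff, hc, map_one]

/-- The evaluation of polynomials in two variables. -/
noncomputable def ev (E : Type*) {K N : Type*} [Field E] [Field K] [Algebra E K] [Field N]
    [Algebra K N] [Algebra E N] [IsScalarTower E K N] (t : K) (x : N) : E[X][X] →ₐ[E] N :=
  ((aeval x : K[X] →ₐ[K] N).restrictScalars E).comp (mapAlgHom (aeval t : E[X] →ₐ[E] K))

omit [IsAlgClosed K] in
/-- The value of a nonzero polynomial in `t` and `x`. -/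
theorem val_ev (h : Base E O t) (hV : Gauss E O x V) (p : E[X][X]) (hp : ev E t x p ≠ 0) :
    ∃ a : ℕ, V.valuation (ev E t x p) = V.valuation (algebraMap K N t) ^ a := by
  set P : K[X] := mapAlgHom (aeval t : E[X] →ₐ[E] K) p with hPdef
  have hev : ev E t x p = aeval x P := rfl
  have hcoe : ∀ i, P.coeff i = aeval t (p.coeff i) := by
    intro i
    rw [hPdef, coe_mapAlgHom, coeff_map]
    rfl
  rw [hev] at hp ⊢
  have hP : P ≠ 0 := by
    intro h0
    rw [h0, map_zero] at hp
    exact hp rfl
  obtain ⟨i, hi, hmax⟩ := P.support.exists_max_image (fun i => O.valuation (P.coeff i))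
    (nonempty_support_iff.2 hP)
  have hi0 : P.coeff i ≠ 0 := mem_support_iff.1 hi
  have hle : V.valuation (aeval x P) ≤ V.valuation (algebraMap K N (P.coeff i)) := by
    rw [hV.val_poly h]
    intro j
    by_cases hj : P.coeff j = 0
    · rw [hj, map_zero]
      exact zero_le
    · exact hmax j (mem_support_iff.2 hj)
  have hge : ¬ V.valuation (aeval x P) < V.valuation (algebraMap K N (P.coeff i)) := by
    rw [hV.val_poly_lt h _ _ hi0]
    intro hall
    exact lt_irrefl _ (hall i)
  have heq := le_antisymm hle (not_lt.1 hge)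
  have hqi : p.coeff i ≠ 0 := by
    intro h0
    rw [hcoe, h0, map_zero] at hi0
    exact hi0 rfl
  obtain ⟨a, c, hc, hac⟩ := val_aeval h _ hqi
  refine ⟨a, ?_⟩
  rw [heq, hcoe, hac, map_mul, map_pow, map_mul, map_pow, val_one hV hc, mul_one]

omit [IsAlgClosed K] in
/-- The value of a nonzero element of `E(t, x)`. -/
theorem val_L0 (h : Base E O t) (hV : Gauss E O x V) {z : N}
    (hz : z ∈ IntermediateField.adjoin E {algebraMap K N t, x}) (hz0 : z ≠ 0) :
    ∃ a : ℤ, V.valuation z = V.valuation (algebraMap K N t) ^ a := by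
  have hsub : Algebra.adjoin E {algebraMap K N t, x} ≤ (ev E t x).range := by
    refine Algebra.adjoin_le ?_
    rintro w (rfl | rfl)
    · refine ⟨C X, ?_⟩
      change ev E t x (C X) = _
      change aeval x (mapAlgHom (aeval t : E[X] →ₐ[E] K) (C X)) = _
      rw [coe_mapAlgHom, map_C, aeval_C]
      simp
    · refine ⟨X, ?_⟩
      change aeval w (mapAlgHom (aeval t : E[X] →ₐ[E] K) X) = _
      rw [coe_mapAlgHom, map_X, aeval_X]
  rw [IntermediateField.mem_adjoin_iff_div] at hz
  obtain ⟨r, hr, s, hs, rfl⟩ := hz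
  obtain ⟨p, hp⟩ := hsub hr
  obtain ⟨q, hq⟩ := hsub hs
  have hr0 : r ≠ 0 := by
    rintro rfl
    exact hz0 (zero_div _)
  have hs0 : s ≠ 0 := by
    rintro rfl
    exact hz0 (div_zero _)
  have hp' : ev E t x p = r := hp
  have hq' : ev E t x q = s := hq
  obtain ⟨a, ha⟩ := val_ev h hV p (by rw [hp']; exact hr0)
  obtain ⟨b, hb⟩ := val_ev h hV q (by rw [hq']; exact hs0)
  rw [hp'] at ha
  rw [hq'] at hb
  have ht0 : V.valuation (algebraMap K N t) ≠ 0 := by
    rw [Ne, map_eq_zero, map_eq_zero]
    exact h.t_ne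
  refine ⟨(a : ℤ) - b, ?_⟩
  rw [map_div₀, ha, hb, zpow_sub₀ ht0, zpow_natCast, zpow_natCast]

omit [IsAlgClosed K] in
/-- The value of a nonzero element algebraic over `E(t, x)` of degree `≤ d`. -/
theorem val_alg (h : Base E O t) (hV : Gauss E O x V) {z : N} (hz0 : z ≠ 0) (d : ℕ)
    (P : (IntermediateField.adjoin E {algebraMap K N t, x})[X]) (hP : P ≠ 0)
    (hPz : aeval z P = 0) (hd : P.natDegree ≤ d) :
    ∃ j : ℤ, V.valuation z ^ d.factorial = V.valuation (algebraMap K N t) ^ j := by
  have ht0 : V.valuation (algebraMap K N t) ≠ 0 := by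
    rw [Ne, map_eq_zero, map_eq_zero]
    exact h.t_ne
  have hv0 : V.valuation z ≠ 0 := by
    rw [Ne, map_eq_zero]
    exact hz0
  rw [aeval_eq_sum_range] at hPz
  have htop : P.leadingCoeff • z ^ P.natDegree ≠ 0 := by
    rw [Algebra.smul_def]
    refine mul_ne_zero ?_ (pow_ne_zero _ hz0)
    rw [Ne, map_eq_zero]
    exact leadingCoeff_ne_zero.2 hP
  obtain ⟨i, hi, j, hj, hij, hfi, hfj, heq⟩ := two_terms V.valuation _ _ hPz
    (i0 := P.natDegree) (Finset.mem_range.2 (Nat.lt_succ_self _)) htop
  wlog hlt : i < j generalizing i j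
  · exact this j hj i hi hij.symm hfj hfi heq.symm (lt_of_le_of_ne (not_lt.1 hlt) hij.symm)
  have hci : ((P.coeff i : (IntermediateField.adjoin E {algebraMap K N t, x})) : N) ≠ 0 := by
    intro h0
    apply hfi
    rw [Algebra.smul_def]
    change ((P.coeff i : (IntermediateField.adjoin E {algebraMap K N t, x})) : N) * _ = 0
    rw [h0, zero_mul]
  have hcj : ((P.coeff j : (IntermediateField.adjoin E {algebraMap K N t, x})) : N) ≠ 0 := by
    intro h0
    apply hfj
    rw [Algebra.smul_def]
    change ((P.coeff j : (IntermediateField.adjoin E {algebraMap K N t, x})) : N) * _ = 0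
    rw [h0, zero_mul]
  obtain ⟨a, ha⟩ := val_L0 h hV (P.coeff i).2 hci
  obtain ⟨b, hb⟩ := val_L0 h hV (P.coeff j).2 hcj
  have heq2 : V.valuation (algebraMap K N t) ^ a * V.valuation z ^ i =
      V.valuation (algebraMap K N t) ^ b * V.valuation z ^ j := by
    rw [← ha, ← hb, ← map_pow, ← map_pow, ← map_mul, ← map_mul]
    exact heq
  have hjd : j - i ≤ d := by
    have := Finset.mem_range.1 hj
    omega
  obtain ⟨m, hm⟩ : j - i ∣ d.factorial := Nat.dvd_factorial (by omega) hjd
  have hval : V.valuation z ^ (j - i) = V.valuation (algebraMap K N t) ^ (a - b) := by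
    rw [zpow_sub₀ ht0, eq_div_iff (zpow_ne_zero _ ht0)]
    have h3 : V.valuation z ^ i ≠ 0 := pow_ne_zero _ hv0
    apply mul_right_cancel₀ h3
    rw [heq2]
    have h4 : V.valuation z ^ j = V.valuation z ^ (j - i) * V.valuation z ^ i := by
      rw [← pow_add]
      congr 1
      omega
    rw [h4]
    ac_rfl
  refine ⟨(a - b) * m, ?_⟩
  rw [hm, pow_mul, hval, zpow_mul, zpow_natCast]

omit [IsAlgClosed E] [CharZero E] [IsAlgClosed K] in
/-- `N` is algebraic over `E(t, x)`. -/
theorem algebraic_L0 (h : Base E O t)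
    (halg : ∀ z : N, IsAlgebraic (IntermediateField.adjoin K {x}) z) (z : N) :
    IsAlgebraic (IntermediateField.adjoin E {algebraMap K N t, x}) z := by
  set L₀ := IntermediateField.adjoin E {algebraMap K N t, x} with hL₀
  have hT : ∀ a ∈ IntermediateField.adjoin E {t}, algebraMap K N a ∈ L₀ := by
    intro a ha
    have h1 : IntermediateField.adjoin E {t} ≤ L₀.comap (IsScalarTower.toAlgHom E K N) := by
      rw [IntermediateField.adjoin_le_iff]
      rintro b rfl
      change algebraMap K N b ∈ L₀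
      exact IntermediateField.subset_adjoin E _ (Or.inl rfl)
    exact h1 ha
  have h1 : ∀ c : K, IsAlgebraic L₀ (algebraMap K N c) := by
    intro c
    let f : IntermediateField.adjoin E {t} →+* L₀ :=
      ((algebraMap K N).comp (algebraMap (IntermediateField.adjoin E {t}) K)).codRestrict L₀
        (fun a => hT a a.2)
    exact (h.alg c).ringHom_of_comp_eq f (algebraMap K N) f.injective rfl
  have h2 : ∀ w : N, w ∈ IntermediateField.adjoin K {x} → w ∈ algebraicClosure L₀ N := by
    intro w hw
    have h3 : (IntermediateField.adjoin K {x}).toSubfield ≤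
        (algebraicClosure L₀ N).toSubfield := by
      rw [IntermediateField.adjoin_toSubfield, Subfield.closure_le]
      rintro b (⟨c, rfl⟩ | hb)
      · exact mem_algebraicClosure_iff.2 (h1 c)
      · rw [Set.mem_singleton_iff] at hb
        subst hb
        have h4 : b ∈ L₀ := IntermediateField.subset_adjoin E _ (Or.inr rfl)
        exact (algebraicClosure L₀ N).algebraMap_mem ⟨b, h4⟩
    exact h3 hw
  let g : IntermediateField.adjoin K {x} →+* algebraicClosure L₀ N :=
    (algebraMap (IntermediateField.adjoin K {x}) N).codRestrict (algebraicClosure L₀ N)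
      (fun a => h2 a a.2)
  have h5 : IsAlgebraic (algebraicClosure L₀ N) z :=
    (halg z).ringHom_of_comp_eq g (RingHom.id N) g.injective rfl
  exact h5.restrictScalars L₀

end A2

/-- Every finite subset of `N` is contained in a level, which also contains the coefficients of
`A`. -/
theorem exists_level (h : Base E O t) (hD : Der E O t x δ D A) (htr : Transcendental K x)
    (halg : ∀ z : N, IsAlgebraic (IntermediateField.adjoin K {x}) z) (Z : Finset N) :
    ∃ (L : Subfield N) (e : ℕ), Level E O t x D L e ∧ (∀ z ∈ Z, z ∈ L) ∧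
      ∀ i, algebraMap K N (A.coeff i) ∈ L := by
  classical
  have hNchar : CharZero N := charZero_of_injective_algebraMap (algebraMap E N).injective
  set L₀ := IntermediateField.adjoin E {algebraMap K N t, x} with hL₀
  let T : Finset N := Z ∪ A.support.image (fun i => algebraMap K N (A.coeff i))
  have hint : ∀ w ∈ (T : Set N), IsIntegral L₀ w := fun w _ =>
    (A2.algebraic_L0 h halg w).isIntegral
  have hfin : FiniteDimensional L₀ (IntermediateField.adjoin L₀ (T : Set N)) :=
    IntermediateField.finiteDimensional_adjoin hint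
  set M := IntermediateField.adjoin L₀ (T : Set N) with hM
  have hTM : ∀ w ∈ T, w ∈ M := fun w hw => IntermediateField.subset_adjoin L₀ _ hw
  have h0M : ∀ w ∈ L₀, w ∈ M := fun w hw => M.algebraMap_mem ⟨w, hw⟩
  have hAM : ∀ i, algebraMap K N (A.coeff i) ∈ M := by
    intro i
    by_cases hi : A.coeff i = 0
    · rw [hi, map_zero]
      exact M.zero_mem
    · exact hTM _ (Finset.mem_union_right _ (Finset.mem_image_of_mem _ (mem_support_iff.2 hi)))
  have htM : algebraMap K N t ∈ M := h0M _ (IntermediateField.subset_adjoin E _ (Or.inl rfl))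
  have hxM : x ∈ M := h0M _ (IntermediateField.subset_adjoin E _ (Or.inr rfl))
  have hcM : ∀ c : E, algebraMap E N c ∈ M := fun c => h0M _ (L₀.algebraMap_mem c)
  have hst0 : L₀.toSubfield ≤ A2.stab M.toSubfield D := by
    have h1 : L₀.toSubfield = Subfield.closure (Set.range (algebraMap E N) ∪
        {algebraMap K N t, x}) := IntermediateField.adjoin_toSubfield _ _
    rw [h1, Subfield.closure_le]
    rintro w (⟨c, rfl⟩ | rfl | hw)
    · refine ⟨hcM c, ?_⟩
      rw [IsScalarTower.algebraMap_apply E K N, hD.ext, hD.const, map_zero]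
      exact M.toSubfield.zero_mem
    · refine ⟨htM, ?_⟩
      rw [hD.ext, hD.t_eq]
      exact htM
    · rw [Set.mem_singleton_iff] at hw
      subst hw
      refine ⟨hxM, ?_⟩
      rw [hD.x_eq, aeval_eq_sum_range]
      refine M.toSubfield.sum_mem fun i _ => ?_
      rw [Algebra.smul_def]
      exact M.toSubfield.mul_mem (hAM i) (M.toSubfield.pow_mem hxM i)
  have hstM : M.toSubfield ≤ A2.stab M.toSubfield D := by
    have h1 : M.toSubfield = Subfield.closure (Set.range (algebraMap L₀ N) ∪ (T : Set N)) :=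
      IntermediateField.adjoin_toSubfield _ _
    have h2 : Subfield.closure (Set.range (algebraMap L₀ N) ∪ (T : Set N)) ≤
        A2.stab M.toSubfield D := ?_
    · rw [← h1] at h2
      exact h2
    rw [Subfield.closure_le]
    rintro w (⟨c, rfl⟩ | hw)
    · exact hst0 c.2
    · exact A2.mem_stab_of_algebraic M.toSubfield D (L₀ := L₀) (fun a => hst0 a.2)
        (hTM w hw) (A2.algebraic_L0 h halg w)
  refine ⟨M.toSubfield, (Module.finrank L₀ M).factorial, ⟨hcM, htM, hxM, fun z hz => (hstM hz).2,
    Nat.factorial_pos _, ?_⟩, fun z hz => hTM z (Finset.mem_union_left _ hz), hAM⟩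
  intro V hV z hz hz0
  have hzint : IsIntegral L₀ (⟨z, hz⟩ : M) := Algebra.IsIntegral.isIntegral _
  refine A2.val_alg h hV hz0 _ (minpoly L₀ (⟨z, hz⟩ : M)) (minpoly.ne_zero hzint) ?_
    (minpoly.natDegree_le _)
  have h1 := minpoly.aeval L₀ (⟨z, hz⟩ : M)
  have h2 := congrArg (algebraMap M N) h1
  rw [map_zero, ← aeval_algebraMap_apply] at h2
  exact h2

end Pool.Agent.LT
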