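import Pool.Agent.Helper13.LT.A4
import Pool.Agent.Helper13.LT.A5

/-!
# Block A8: `ϖ`-adic expansions and the equation `D c = ϖ c'`

`exists_expansion`: induction on `n` for all `m`, `c`.  `n = 0`: `d = 0`.  Step `n → n + 1`:
`c' = δ c - (m/e) c` is in `L` and `O(c') < O(ϖ^m)` by `const_lt_of_le`; as the values on `L` are in
`(1/e) ℤ`, `O(c') ≤ O(ϖ^{m+1})` (`Level.vals`: `V(c')^e = V(t)^j < V(t)^m`).  Let
`d' = ∑ d'_i ϖ^i ∈ E[ϖ]` with `O(c' - ϖ^{m+1} d') ≤ O(ϖ^{m+1+n})`.  Put
`d = d_0 + ∑_{i ≥ 1} (e/i) d'_{i-1} ϖ^i` where `d_0 ∈ E` is the residue of `c/ϖ^m`.  As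
`δ ϖ^i = (i/e) ϖ^i`, `(δ - m/e)(ϖ^m d) = ϖ^m δ d = ϖ^{m+1} d'`.  So `r = c - ϖ^m d` has
`O(r) < O(ϖ^m)` and, by `const_eq_of_lt`, `O(r) = O((δ - m/e) r) = O(c' - ϖ^{m+1} d') ≤ O(ϖ^{m+1+n})`.

`exists_solution`: by the expansion (with `m = 1`; `O(A_i) ≤ O(ϖ)` by `vals`) there is
`A' ∈ E[ϖ][X]` with `V(A(x) - ϖ A'(x)) ≤ V(ϖ^{n+1})`.  By induction on `i ≤ n` there is
`c_i ∈ E[ϖ, x]`, `c_i ≡ c₁(x)` mod `𝔪_V`, with `D c_i - ϖ c' = ϖ^{i+1} s_i + ε_i`,
`s_i ∈ E[ϖ, x]`, `V(ε_i) ≤ V(ϖ^{n+1})`: `c_0 = c₁(x)`; and `c_{i+1} = c_i + ϖ^{i+1} p(x)` where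
`s_i = p_s(x) + ϖ s'`, `p_s ∈ E[X]`, `s' ∈ E[ϖ, x]` and `p = - (e/(i+1)) p_s`, because
`D (ϖ^{i+1} p(x)) = ((i+1)/e) ϖ^{i+1} p(x) + ϖ^{i+1} p'(x) A(x)`.  Take `c = c_n`.
-/

universe u

namespace Pool.Agent.LT

open VC Polynomial

variable {E K N : Type u} [Field E] [IsAlgClosed E] [CharZero E] [Field K] [IsAlgClosed K]
  [Algebra E K] [Field N] [Algebra K N] [Algebra E N] [IsScalarTower E K N]
  {O : ValuationSubring K} {t : K} {x : N}
  {δ : Derivation ℤ K K} {D : Derivation ℤ N N} {A : K[X]}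

omit [IsAlgClosed E] [CharZero E] [IsAlgClosed K] in
private lemma a8_root_lt (h : Base E O t) {ϖ : K} {e : ℕ} (hϖ : ϖ ^ e = t) :
    O.valuation ϖ < 1 := by
  by_contra hcon
  rw [not_lt] at hcon
  have h1 : O.valuation t < 1 := (ValuationSubring.mem_nonunits_iff _).1 h.t_mem
  rw [← hϖ, map_pow] at h1
  exact absurd (one_le_pow₀ hcon) (not_le.2 h1)

omit [IsAlgClosed E] [CharZero E] [IsAlgClosed K] in
private lemma a8_root_ne (h : Base E O t) {ϖ : K} {e : ℕ} (he : 0 < e) (hϖ : ϖ ^ e = t) :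
    ϖ ≠ 0 := by
  rintro rfl
  exact h.t_ne (by rw [← hϖ, zero_pow he.ne'])

omit [IsAlgClosed E] [CharZero E] [IsAlgClosed K] in
private lemma a8_lt (hV' : ∃ V : ValuationSubring N, Gauss E O x V) (h : Base E O t)
    {L : Subfield N} {e : ℕ} (hL : Level E O t x D L e) {ϖ : K} (hϖ : ϖ ^ e = t) {m : ℕ} {c : K}
    (hcL : algebraMap K N c ∈ L) (hc : O.valuation c < O.valuation (ϖ ^ m)) :
    O.valuation c ≤ O.valuation (ϖ ^ (m + 1)) := by
  obtain ⟨V, hV⟩ := hV'
  by_cases h0 : c = 0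
  · rw [h0, map_zero]
    exact zero_le'
  have h0' : algebraMap K N c ≠ 0 := (_root_.map_ne_zero _).2 h0
  obtain ⟨j, hj⟩ := hL.vals V hV _ hcL h0'
  have ht0 : 0 < V.valuation (algebraMap K N t) := by
    rw [zero_lt_iff, Ne, map_eq_zero, map_eq_zero]
    exact h.t_ne
  have hlt' : ∀ a b : K, V.valuation (algebraMap K N a) < V.valuation (algebraMap K N b) ↔
      O.valuation a < O.valuation b := by
    intro a b
    rw [← not_le, ← not_le, hV.val_eq_iff]
  have ht1 : V.valuation (algebraMap K N t) < 1 := by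
    have h1 := (hlt' t 1).2 (by
      rw [map_one]
      exact (ValuationSubring.mem_nonunits_iff _).1 h.t_mem)
    rwa [map_one, map_one] at h1
  have hpw : ∀ k : ℕ, V.valuation (algebraMap K N (ϖ ^ k)) ^ e =
      V.valuation (algebraMap K N t) ^ (k : ℤ) := by
    intro k
    rw [← map_pow, ← map_pow, ← pow_mul, mul_comm, pow_mul, hϖ, map_pow, map_pow, zpow_natCast]
  have h1 : V.valuation (algebraMap K N t) ^ j < V.valuation (algebraMap K N t) ^ (m : ℤ) := by
    rw [← hj, ← hpw]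
    exact pow_lt_pow_left₀ ((hlt' _ _).2 hc) zero_le' hL.pos.ne'
  have h2 : (m : ℤ) < j := (zpow_lt_zpow_iff_right_of_lt_one₀ ht0 ht1).1 h1
  rw [← hV.val_eq_iff]
  refine (pow_le_pow_iff_left₀ zero_le' zero_le' hL.pos.ne').1 ?_
  rw [hj, hpw]
  refine (zpow_le_zpow_iff_right_of_lt_one₀ ht0 ht1).2 ?_
  push_cast
  omega

omit [IsAlgClosed E] [CharZero E] in
private lemma a8_der_pow (h : Base E O t) (hD : Der E O t x δ D A) {ϖ : K} {e : ℕ} (he : 0 < e)
    (hϖ : ϖ ^ e = t) [CharZero K] (i : ℕ) : δ (ϖ ^ i) = (i : K) / e * ϖ ^ i := by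
  have h1 := der_root hD.t_eq h.t_ne he hϖ
  rw [Derivation.leibniz_pow, h1, nsmul_eq_mul, smul_eq_mul]
  rcases Nat.eq_zero_or_pos i with rfl | hi
  · simp
  · obtain ⟨k, rfl⟩ : ∃ k, i = k + 1 := ⟨i - 1, by omega⟩
    rw [Nat.add_sub_cancel, pow_succ]
    ring

omit [IsAlgClosed E] [CharZero E] [IsAlgClosed K] in
private lemma a8_smul (hD : Der E O t x δ D A) (a : E) (c : K) :
    δ (algebraMap E K a * c) = algebraMap E K a * δ c := by
  rw [Derivation.leibniz, hD.const, smul_eq_mul, smul_zero, add_zero]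

/-- Expansions of the constants of a level. -/
theorem exists_expansion (h : Base E O t) (hD : Der E O t x δ D A) (htr : Transcendental K x)
    (halg : ∀ z : N, IsAlgebraic (IntermediateField.adjoin K {x}) z) {L : Subfield N} {e : ℕ}
    (hL : Level E O t x D L e) {V : ValuationSubring N} (hV : Gauss E O x V) {ϖ : K}
    (hϖ : ϖ ^ e = t) (n m : ℕ) {c : K} (hcL : algebraMap K N c ∈ L)
    (hc : O.valuation c ≤ O.valuation (ϖ ^ m)) :
    ∃ d ∈ Algebra.adjoin E {ϖ}, O.valuation (c - ϖ ^ m * d) ≤ O.valuation (ϖ ^ (m + n)) := by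
  haveI : CharZero K := charZero_of_injective_algebraMap (algebraMap E K).injective
  have hϖ0 := a8_root_ne h hL.pos hϖ
  have hϖ1 := a8_root_lt h hϖ
  have he0 : (e : K) ≠ 0 := by
    have := hL.pos
    exact_mod_cast this.ne'
  induction n generalizing m c with
  | zero =>
    refine ⟨0, zero_mem _, ?_⟩
    rw [mul_zero, sub_zero, add_zero]
    exact hc
  | succ n ih =>
    obtain ⟨c', hc'⟩ : ∃ c', c' = δ c - (m : K) / e * c := ⟨_, rfl⟩
    have hc'L : algebraMap K N c' ∈ L := by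
      rw [hc', map_sub, ← hD.ext, map_mul, map_div₀, map_natCast, map_natCast]
      exact L.sub_mem (hL.der _ hcL) (L.mul_mem (L.div_mem (natCast_mem L m) (natCast_mem L e)) hcL)
    have hc'1 : O.valuation c' < O.valuation (ϖ ^ m) := by
      rw [hc']
      exact const_lt_of_le h hD.const hD.t_eq hL.pos hϖ hc
    obtain ⟨d', hd', hd'2⟩ := ih (m + 1) hc'L (a8_lt ⟨V, hV⟩ h hL hϖ hc'L hc'1)
    rw [Algebra.adjoin_singleton_eq_range_aeval] at hd'
    obtain ⟨P, hP⟩ := hd'
    have hP' : aeval ϖ P = d' := hP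
    have hϖm : ϖ ^ m ≠ 0 := pow_ne_zero _ hϖ0
    have hcm : c / ϖ ^ m ∈ O := by
      rw [← O.valuation_le_one_iff, map_div₀]
      exact div_le_one_of_le₀ hc zero_le'
    obtain ⟨d₀, hd₀⟩ := h.exists_residue hcm
    obtain ⟨Q, hQ⟩ : ∃ Q : E[X], Q = P.sum fun i a => monomial i ((e : E) / (i + 1 : ℕ) * a) :=
      ⟨_, rfl⟩
    obtain ⟨s, hs⟩ : ∃ s : K, s = aeval ϖ Q := ⟨_, rfl⟩
    have hsO : s ∈ O := by
      have h1 : ∀ q : E[X], aeval ϖ q ∈ O := by
        intro q
        rw [aeval_eq_sum_range]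
        refine sum_mem fun i _ => ?_
        rw [Algebra.smul_def]
        exact O.mul_mem _ _ (h.const _) (O.pow_mem ((O.valuation_le_one_iff _).1 hϖ1.le) _)
      rw [hs]
      exact h1 Q
    have hδs : δ (ϖ * s) = ϖ * d' := by
      rw [hs, hQ, ← hP', Polynomial.sum_def, map_sum, Finset.mul_sum, map_sum]
      conv_rhs => rw [aeval_eq_sum_range, ← Polynomial.sum_over_range P (f := fun i a => a • ϖ ^ i)
        (fun i => zero_smul _ _), Polynomial.sum_def, Finset.mul_sum]
      refine Finset.sum_congr rfl fun i _ => ?_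
      have e0 : algebraMap E K ((e : E) / ((i + 1 : ℕ) : E) * P.coeff i) =
          (e : K) / ((i + 1 : ℕ) : K) * algebraMap E K (P.coeff i) := by
        rw [map_mul, map_div₀, map_natCast, map_natCast]
      have e1 : ϖ * ((e : K) / ((i + 1 : ℕ) : K) * algebraMap E K (P.coeff i) * ϖ ^ i) =
          algebraMap E K (P.coeff i) * (((e : K) / ((i + 1 : ℕ) : K)) * ϖ ^ (i + 1)) := by
        rw [pow_succ]
        ring
      have e2 : δ ((e : K) / ((i + 1 : ℕ) : K)) = 0 := by
        have := hD.const ((e : E) / ((i + 1 : ℕ) : E))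
        rwa [map_div₀, map_natCast, map_natCast] at this
      rw [aeval_monomial, e0, e1, a8_smul hD, Derivation.leibniz, e2, smul_zero, add_zero, smul_eq_mul,
        a8_der_pow h hD hL.pos hϖ, Algebra.smul_def]
      have e3 : ((i + 1 : ℕ) : K) ≠ 0 := Nat.cast_ne_zero.2 (Nat.succ_ne_zero i)
      field_simp
      ring
    refine ⟨algebraMap E K d₀ + ϖ * s, ?_, ?_⟩
    · refine add_mem (Subalgebra.algebraMap_mem _ _) (mul_mem (Algebra.subset_adjoin rfl) ?_)
      rw [hs, Algebra.adjoin_singleton_eq_range_aeval]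
      exact ⟨Q, rfl⟩
    · obtain ⟨r, hr⟩ : ∃ r, r = c - ϖ ^ m * (algebraMap E K d₀ + ϖ * s) := ⟨_, rfl⟩
      have hr1 : O.valuation r < O.valuation (ϖ ^ m) := by
        have e1 : r = ϖ ^ m * ((c / ϖ ^ m - algebraMap E K d₀) - ϖ * s) := by
          rw [hr]
          field_simp
          ring
        rw [e1, map_mul]
        have h2 : O.valuation ((c / ϖ ^ m - algebraMap E K d₀) - ϖ * s) < 1 := by
          refine lt_of_le_of_lt (O.valuation.map_sub _ _) (max_lt ?_ ?_)
          · exact (ValuationSubring.mem_nonunits_iff _).1 hd₀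
          · rw [map_mul]
            exact mul_lt_one_of_lt_of_le hϖ1 ((O.valuation_le_one_iff _).2 hsO)
        exact mul_lt_of_lt_one_right (zero_lt_iff.2 (by simpa using hϖm)) h2
      have hr2 : δ r - (m : K) / e * r = c' - ϖ ^ (m + 1) * d' := by
        rw [hr, hc', map_sub, Derivation.leibniz, map_add, hD.const, hδs, smul_eq_mul, smul_eq_mul,
          a8_der_pow h hD hL.pos hϖ, pow_succ]
        ring
      have hr3 := const_eq_of_lt h hD.const hD.t_eq hL.pos hϖ hr1
      rw [hr2] at hr3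
      rw [← hr, ← hr3]
      have e4 : m + (n + 1) = m + 1 + n := by ring
      rw [e4]
      exact hd'2

omit [IsAlgClosed E] [CharZero E] [IsAlgClosed K] in
private lemma a8_E_mem (h : Base E O t) {V : ValuationSubring N} (hV : Gauss E O x V) (a : E) :
    algebraMap E N a ∈ V := by
  rw [IsScalarTower.algebraMap_apply E K N, hV.mem_iff]
  exact h.const a

omit [IsAlgClosed E] [CharZero E] [IsAlgClosed K] in
private lemma a8_adjoin_mem (h : Base E O t) {V : ValuationSubring N} (hV : Gauss E O x V)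
    {ϖ : K} (hϖ1 : O.valuation ϖ < 1) {s : N}
    (hs : s ∈ Algebra.adjoin E {algebraMap K N ϖ, x}) : s ∈ V := by
  induction hs using Algebra.adjoin_induction with
  | mem y hy =>
    rcases hy with rfl | hy
    · rw [hV.mem_iff]
      exact (O.valuation_le_one_iff _).1 hϖ1.le
    · rw [Set.mem_singleton_iff] at hy
      rw [hy]
      exact hV.x_mem
  | algebraMap r => exact a8_E_mem h hV r
  | add y z _ _ hy hz => exact V.add_mem _ _ hy hz
  | mul y z _ _ hy hz => exact V.mul_mem _ _ hy hz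

omit [IsAlgClosed E] [CharZero E] [IsAlgClosed K] [IsScalarTower E K N] in
/-- decomposition of the elements of `E[ϖ, x]` -/
private lemma a8_decomp {ϖ : K} {s : N} (hs : s ∈ Algebra.adjoin E {algebraMap K N ϖ, x}) :
    ∃ (p : E[X]) (s' : N), s' ∈ Algebra.adjoin E {algebraMap K N ϖ, x} ∧
      s = aeval x p + algebraMap K N ϖ * s' := by
  have hx : ∀ p : E[X], aeval x p ∈ Algebra.adjoin E {algebraMap K N ϖ, x} := by
    intro p
    have h1 : aeval x p ∈ Algebra.adjoin E {x} := by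
      rw [Algebra.adjoin_singleton_eq_range_aeval]
      exact ⟨p, rfl⟩
    exact Algebra.adjoin_mono (by simp) h1
  have hw : algebraMap K N ϖ ∈ Algebra.adjoin E {algebraMap K N ϖ, x} :=
    Algebra.subset_adjoin (by simp)
  induction hs using Algebra.adjoin_induction with
  | mem y hy =>
    rcases hy with rfl | hy
    · exact ⟨0, 1, one_mem _, by simp⟩
    · rw [Set.mem_singleton_iff] at hy
      exact ⟨X, 0, zero_mem _, by simp [hy]⟩
  | algebraMap r => exact ⟨C r, 0, zero_mem _, by simp⟩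
  | add y z _ _ hy hz =>
    obtain ⟨p, s', hs', e1⟩ := hy
    obtain ⟨q, s'', hs'', e2⟩ := hz
    refine ⟨p + q, s' + s'', add_mem hs' hs'', ?_⟩
    rw [e1, e2, map_add]
    ring
  | mul y z _ _ hy hz =>
    obtain ⟨p, s', hs', e1⟩ := hy
    obtain ⟨q, s'', hs'', e2⟩ := hz
    refine ⟨p * q, aeval x p * s'' + aeval x q * s' + algebraMap K N ϖ * s' * s'',
      add_mem (add_mem (mul_mem (hx p) hs'') (mul_mem (hx q) hs')) (mul_mem (mul_mem hw hs') hs''),
      ?_⟩
    rw [e1, e2, map_mul]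
    ring

omit [IsAlgClosed E] [CharZero E] [IsAlgClosed K] in
private lemma a8_der_poly (hD : Der E O t x δ D A) (p : E[X]) :
    D (aeval x p) = aeval x (derivative p) * aeval x A := by
  have hE : ∀ a : E, D (algebraMap E N a) = 0 := by
    intro a
    rw [IsScalarTower.algebraMap_apply E K N, hD.ext, hD.const, map_zero]
  induction p using Polynomial.induction_on' with
  | add p q hp hq => rw [map_add, map_add, hp, hq, map_add, map_add, add_mul]
  | monomial n a =>
    rw [aeval_monomial, Derivation.leibniz, hE, smul_zero, add_zero, smul_eq_mul,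
      Derivation.leibniz_pow, hD.x_eq, derivative_monomial, aeval_monomial, map_mul, map_natCast,
      nsmul_eq_mul, smul_eq_mul]
    ring

/-- Solution of `D c = ϖ c'` with given residue. -/
theorem exists_solution (h : Base E O t) (hD : Der E O t x δ D A) (htr : Transcendental K x)
    (halg : ∀ z : N, IsAlgebraic (IntermediateField.adjoin K {x}) z) {L : Subfield N} {e : ℕ}
    (hL : Level E O t x D L e) (hA : ∀ i, algebraMap K N (A.coeff i) ∈ L)
    {V : ValuationSubring N} (hV : Gauss E O x V) {ϖ : K}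
    (hϖ : ϖ ^ e = t) (n : ℕ) (c₁ : E[X]) {c' : N}
    (hc' : c' ∈ Algebra.adjoin E {algebraMap K N ϖ, x}) :
    ∃ c ∈ Algebra.adjoin E {algebraMap K N ϖ, x}, c - aeval x c₁ ∈ V.nonunits ∧
      V.valuation (D c - algebraMap K N ϖ * c') ≤ V.valuation (algebraMap K N (ϖ ^ (n + 1))) := by
  haveI : CharZero K := charZero_of_injective_algebraMap (algebraMap E K).injective
  haveI : CharZero N := charZero_of_injective_algebraMap (algebraMap E N).injective
  have hϖ0 := a8_root_ne h hL.pos hϖ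
  have hϖ1 := a8_root_lt h hϖ
  have he0 : (e : N) ≠ 0 := by
    have := hL.pos
    exact_mod_cast this.ne'
  obtain ⟨w, hw⟩ : ∃ w, w = algebraMap K N ϖ := ⟨_, rfl⟩
  have hxS : ∀ p : E[X], aeval x p ∈ Algebra.adjoin E {algebraMap K N ϖ, x} := by
    intro p
    have h1 : aeval x p ∈ Algebra.adjoin E {x} := by
      rw [Algebra.adjoin_singleton_eq_range_aeval]
      exact ⟨p, rfl⟩
    exact Algebra.adjoin_mono (by simp) h1
  have hxx : x ∈ Algebra.adjoin E {algebraMap K N ϖ, x} := Algebra.subset_adjoin (by simp)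
  have hSV : ∀ s ∈ Algebra.adjoin E {algebraMap K N ϖ, x}, V.valuation s ≤ 1 := fun s hs =>
    (V.valuation_le_one_iff _).2 (a8_adjoin_mem h hV hϖ1 hs)
  have hw1 : V.valuation w < 1 := by
    have h1 : ¬ V.valuation (algebraMap K N 1) ≤ V.valuation (algebraMap K N ϖ) := by
      rw [hV.val_eq_iff, not_le, map_one]
      exact hϖ1
    rw [not_le, map_one, map_one, ← hw] at h1
    exact h1
  -- the expansion of the coefficients of `A`
  have hex : ∀ i, ∃ d ∈ Algebra.adjoin E {ϖ},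
      O.valuation (A.coeff i - ϖ ^ 1 * d) ≤ O.valuation (ϖ ^ (1 + n)) := by
    intro i
    refine exists_expansion h hD htr halg hL hV hϖ n 1 (hA i) ?_
    refine a8_lt ⟨V, hV⟩ h hL hϖ (m := 0) (hA i) ?_
    rw [pow_zero, map_one]
    exact (ValuationSubring.mem_nonunits_iff _).1 (hD.A_mem i)
  choose d hd hd2 using hex
  have hdS : ∀ i, algebraMap K N (d i) ∈ Algebra.adjoin E {algebraMap K N ϖ, x} := by
    intro i
    have h1 := hd i
    rw [Algebra.adjoin_singleton_eq_range_aeval] at h1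
    obtain ⟨P, hP⟩ := h1
    have hP' : aeval ϖ P = d i := hP
    rw [← hP', ← Polynomial.aeval_algebraMap_apply]
    have h2 : aeval (algebraMap K N ϖ) P ∈ Algebra.adjoin E {algebraMap K N ϖ} := by
      rw [Algebra.adjoin_singleton_eq_range_aeval]
      exact ⟨P, rfl⟩
    exact Algebra.adjoin_mono (by simp) h2
  obtain ⟨a', ha'⟩ : ∃ a' : N, a' = ∑ i ∈ Finset.range (A.natDegree + 1),
      algebraMap K N (d i) * x ^ i := ⟨_, rfl⟩
  have ha'S : a' ∈ Algebra.adjoin E {algebraMap K N ϖ, x} := by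
    rw [ha']
    exact sum_mem fun i _ => mul_mem (hdS i) (pow_mem hxx i)
  obtain ⟨ε, hε⟩ : ∃ ε : N, ε = aeval x A - w * a' := ⟨_, rfl⟩
  have hε1 : V.valuation ε ≤ V.valuation (algebraMap K N (ϖ ^ (n + 1))) := by
    have e1 : ε = ∑ i ∈ Finset.range (A.natDegree + 1),
        algebraMap K N (A.coeff i - ϖ ^ 1 * d i) * x ^ i := by
      rw [hε, aeval_eq_sum_range, ha', Finset.mul_sum, ← Finset.sum_sub_distrib]
      refine Finset.sum_congr rfl fun i _ => ?_
      rw [Algebra.smul_def, hw, map_sub, map_mul, pow_one]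
      ring
    rw [e1]
    refine V.valuation.map_sum_le fun i _ => ?_
    rw [map_mul]
    have h1 : V.valuation (x ^ i) ≤ 1 := hSV _ (pow_mem hxx i)
    have h2 : V.valuation (algebraMap K N (A.coeff i - ϖ ^ 1 * d i)) ≤
        V.valuation (algebraMap K N (ϖ ^ (n + 1))) := by
      rw [hV.val_eq_iff, add_comm n 1]
      exact hd2 i
    calc _ ≤ V.valuation (algebraMap K N (ϖ ^ (n + 1))) * 1 := mul_le_mul' h2 h1
      _ = _ := mul_one _
  have hDx : aeval x A = w * a' + ε := by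
    rw [hε]
    ring
  have hDw : ∀ i : ℕ, D (w ^ i) = (i : N) / e * w ^ i := by
    intro i
    rw [hw, ← map_pow, hD.ext, a8_der_pow h hD hL.pos hϖ, map_mul, map_div₀, map_natCast,
      map_natCast]
  have hEN : ∀ a : E, D (algebraMap E N a) = 0 := by
    intro a
    rw [IsScalarTower.algebraMap_apply E K N, hD.ext, hD.const, map_zero]
  have hmulε : ∀ s ∈ Algebra.adjoin E {algebraMap K N ϖ, x},
      V.valuation (s * ε) ≤ V.valuation (algebraMap K N (ϖ ^ (n + 1))) := by
    intro s hs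
    rw [map_mul]
    calc _ ≤ 1 * V.valuation (algebraMap K N (ϖ ^ (n + 1))) := mul_le_mul' (hSV s hs) hε1
      _ = _ := one_mul _
  have hwS : w ∈ Algebra.adjoin E {algebraMap K N ϖ, x} := by
    rw [hw]
    exact Algebra.subset_adjoin (by simp)
  have key : ∀ i : ℕ, ∃ c ∈ Algebra.adjoin E {algebraMap K N ϖ, x},
      ∃ s ∈ Algebra.adjoin E {algebraMap K N ϖ, x}, V.valuation (c - aeval x c₁) < 1 ∧
      V.valuation (D c - w * c' - w ^ (i + 1) * s) ≤ V.valuation (algebraMap K N (ϖ ^ (n + 1))) := by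
    intro i
    induction i with
    | zero =>
      refine ⟨aeval x c₁, hxS _, aeval x (derivative c₁) * a' - c',
        sub_mem (mul_mem (hxS _) ha'S) hc', ?_, ?_⟩
      · rw [sub_self, map_zero]
        exact zero_lt_one
      · have e1 : D (aeval x c₁) - w * c' - w ^ (0 + 1) * (aeval x (derivative c₁) * a' - c') =
            aeval x (derivative c₁) * ε := by
          rw [a8_der_poly hD, hDx]
          ring
        rw [e1]
        exact hmulε _ (hxS _)
    | succ i ih =>
      obtain ⟨c, hc, s, hs, h1, h2⟩ := ih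
      obtain ⟨ps, s', hs', e1⟩ := a8_decomp hs
      rw [← hw] at e1
      obtain ⟨p, hp⟩ : ∃ p : E[X], p = C (-((e : E) / ((i + 1 : ℕ) : E))) * ps := ⟨_, rfl⟩
      have hpx : aeval x p = -((e : N) / ((i + 1 : ℕ) : N)) * aeval x ps := by
        rw [hp, map_mul, aeval_C, map_neg, map_div₀, map_natCast, map_natCast]
      refine ⟨c + w ^ (i + 1) * aeval x p, add_mem hc (mul_mem (pow_mem hwS _) (hxS _)),
        s' + aeval x (derivative p) * a', add_mem hs' (mul_mem (hxS _) ha'S), ?_, ?_⟩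
      · have e2 : c + w ^ (i + 1) * aeval x p - aeval x c₁ =
            (c - aeval x c₁) + w ^ (i + 1) * aeval x p := by ring
        rw [e2]
        refine lt_of_le_of_lt (V.valuation.map_add _ _) (max_lt h1 ?_)
        rw [map_mul, map_pow, pow_succ, mul_assoc]
        refine lt_of_le_of_lt (mul_le_mul' (pow_le_one' hw1.le i) le_rfl) ?_
        rw [one_mul]
        exact mul_lt_one_of_lt_of_le hw1 (hSV _ (hxS _))
      · have e3 : ((i + 1 : ℕ) : N) ≠ 0 := Nat.cast_ne_zero.2 (Nat.succ_ne_zero i)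
        have e4 : D (c + w ^ (i + 1) * aeval x p) - w * c' -
            w ^ (i + 1 + 1) * (s' + aeval x (derivative p) * a') =
            (D c - w * c' - w ^ (i + 1) * s) + w ^ (i + 1) * aeval x (derivative p) * ε := by
          rw [map_add, Derivation.leibniz, a8_der_poly hD, hDw, hDx, smul_eq_mul, smul_eq_mul, e1,
            hpx]
          field_simp
          ring
        rw [e4]
        refine (V.valuation.map_add _ _).trans (max_le h2 ?_)
        exact hmulε _ (mul_mem (pow_mem hwS _) (hxS _))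
  obtain ⟨c, hc, s, hs, h1, h2⟩ := key n
  refine ⟨c, hc, (ValuationSubring.mem_nonunits_iff _).2 h1, ?_⟩
  have e1 : D c - algebraMap K N ϖ * c' = (D c - w * c' - w ^ (n + 1) * s) + w ^ (n + 1) * s := by
    rw [← hw]
    ring
  rw [e1]
  refine (V.valuation.map_add _ _).trans (max_le h2 ?_)
  rw [map_mul, hw, ← map_pow]
  calc _ ≤ V.valuation (algebraMap K N (ϖ ^ (n + 1))) * 1 := mul_le_mul' le_rfl (hSV s hs)
    _ = _ := mul_one _

end Pool.Agent.LT
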