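import Pool.Agent.Helper13.LT.A2
import Pool.Agent.Helper13.LT.A6
import Pool.Agent.Helper13.LT.A7
import Pool.Agent.Helper13.LT.A8

/-!
# Block A9: approximation of the elements of the decomposition field by polynomials

Proof.  `exists_der` (A5) for `B`, `exists_level` (A2) for `Z = {z}`, `ϖ ^ e = t`.  Claim, by
induction on `n`, for all `m` and `z ∈ L` with `Fix x V z`, `Reg x z` and
`V'(z) ≤ V'(ϖ^m)` for all Gauss `V'`: there is `c ∈ E[ϖ, x]` with `V(z - ϖ^m c) ≤ V(ϖ^{m+n})`.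
`n = 0`: `c = 0`.  Step: `z' = D z - (m/e) z` is in `L`, `Fix` (`Der.comm`), `Reg` (`Der.reg`), and
`V'(z') < V'(ϖ^m)` (`Der.lt_of_le`), so `≤ V'(ϖ^{m+1})` by `Level.vals`.  Induction gives
`c' ∈ E[ϖ, x]` with `V(z' - ϖ^{m+1} c') ≤ V(ϖ^{m+1+n})`.  By A7 (`z/ϖ^m` is `Fix`, `Reg`, `Int`)
there is `c₁ ∈ E[X]` with `z/ϖ^m - c₁(x) ∈ 𝔪_V`.  A8: `c ∈ E[ϖ, x]`, `c ≡ c₁(x)`,
`V(D c - ϖ c') ≤ V(ϖ^{n+1})`.  For `r = z - ϖ^m c`: `V(r) < V(ϖ^m)` and
`D r - (m/e) r = z' - ϖ^m D c = (z' - ϖ^{m+1} c') - ϖ^m (D c - ϖ c')` has value `≤ V(ϖ^{m+1+n})`,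
which is `V(r)` by `Der.eq_of_lt`.
The theorem: `m = 0` and `e n` in place of `n`; `E[ϖ] ⊆ O`.
-/

universe u

namespace Pool.Agent.LT

open VC Polynomial

variable {E K N : Type u} [Field E] [IsAlgClosed E] [CharZero E] [Field K] [IsAlgClosed K]
  [Algebra E K] [Field N] [Algebra K N] [Algebra E N] [IsScalarTower E K N]
  {O : ValuationSubring K} {t : K} {x : N} {B : Finset K} {V : ValuationSubring N}

omit [IsAlgClosed E] [CharZero E] [IsAlgClosed K] in
/-- Elements of `E[ϖ, x]` are polynomials in `x` with coefficients in `O`. -/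
private theorem exists_coeff23 (h : Base E O t) {ϖ : K} (hϖ : ϖ ∈ O) {c : N}
    (hc : c ∈ Algebra.adjoin E {algebraMap K N ϖ, x}) :
    ∃ p : K[X], (∀ i, p.coeff i ∈ O) ∧ c = aeval x p := by
  set φ : Polynomial O →+* N := eval₂RingHom ((algebraMap K N).comp O.subtype) x with hφ
  have key : ∃ q : Polynomial O, φ q = c := by
    refine Algebra.adjoin_induction (p := fun c _ => ∃ q : Polynomial O, φ q = c) ?_ ?_ ?_ ?_ hc
    · intro y hy
      rcases hy with rfl | rfl
      · refine ⟨C ⟨ϖ, hϖ⟩, ?_⟩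
        rw [hφ, coe_eval₂RingHom, eval₂_C]
        rfl
      · refine ⟨X, ?_⟩
        rw [hφ, coe_eval₂RingHom, eval₂_X]
    · intro a
      refine ⟨C ⟨algebraMap E K a, h.const a⟩, ?_⟩
      rw [hφ, coe_eval₂RingHom, eval₂_C, IsScalarTower.algebraMap_apply E K N]
      rfl
    · rintro a b _ _ ⟨p, rfl⟩ ⟨q, rfl⟩
      exact ⟨p + q, map_add _ _ _⟩
    · rintro a b _ _ ⟨p, rfl⟩ ⟨q, rfl⟩
      exact ⟨p * q, map_mul _ _ _⟩
  obtain ⟨q, hq⟩ := key
  refine ⟨q.map O.subtype, fun i => by rw [coeff_map]; exact (q.coeff i).2, ?_⟩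
  rw [← hq, aeval_def, eval₂_map]
  rfl

omit [IsAlgClosed E] [CharZero E] [IsAlgClosed K] in
/-- `V(t) < 1` -/
private theorem val_t_lt23 (h : Base E O t) {V' : ValuationSubring N} (hV' : Gauss E O x V') :
    V'.valuation (algebraMap K N t) < 1 := by
  have h1 := (ValuationSubring.mem_nonunits_iff O).1 h.t_mem
  by_contra hcon
  rw [not_lt] at hcon
  have h2 : V'.valuation (algebraMap K N 1) ≤ V'.valuation (algebraMap K N t) := by
    rw [map_one, map_one]; exact hcon
  have h3 := (Gauss.val_eq_iff hV' 1 t).1 h2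
  rw [map_one] at h3
  exact absurd h1 (not_lt.2 h3)

omit [IsAlgClosed E] [CharZero E] [IsAlgClosed K] in
private theorem step_le23 (h : Base E O t) {D : Derivation ℤ N N} {L : Subfield N} {e : ℕ}
    (hL : Level E O t x D L e) {V' : ValuationSubring N} (hV' : Gauss E O x V') {ϖ : K}
    (hϖ : ϖ ^ e = t) {m : ℕ} {z : N} (hz : z ∈ L)
    (hlt : V'.valuation z < V'.valuation (algebraMap K N (ϖ ^ m))) :
    V'.valuation z ≤ V'.valuation (algebraMap K N (ϖ ^ (m + 1))) := by
  by_cases h0 : z = 0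
  · rw [h0, map_zero]; exact zero_le
  obtain ⟨j, hj⟩ := hL.vals V' hV' z hz h0
  have he : e ≠ 0 := hL.pos.ne'
  have hpow : ∀ i : ℕ, V'.valuation (algebraMap K N (ϖ ^ i)) ^ e =
      V'.valuation (algebraMap K N t) ^ (i : ℤ) := by
    intro i
    rw [← hϖ, map_pow, map_pow, map_pow, map_pow, zpow_natCast, ← pow_mul, ← pow_mul, mul_comm]
  have ht1 := val_t_lt23 h hV'
  have ht0 : 0 < V'.valuation (algebraMap K N t) := by
    rw [zero_lt_iff, Valuation.ne_zero_iff]
    exact (_root_.map_ne_zero _).2 h.t_ne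
  have h2 : V'.valuation z ^ e < V'.valuation (algebraMap K N (ϖ ^ m)) ^ e :=
    (pow_lt_pow_iff_left₀ zero_le zero_le he).2 hlt
  rw [hj, hpow, zpow_lt_zpow_iff_right_of_lt_one₀ ht0 ht1] at h2
  have h3 : V'.valuation z ^ e ≤ V'.valuation (algebraMap K N (ϖ ^ (m + 1))) ^ e := by
    rw [hj, hpow]
    apply zpow_le_zpow_right_of_le_one₀ ht0 ht1.le
    push_cast
    omega
  exact (pow_le_pow_iff_left₀ zero_le zero_le he).1 h3

private theorem claim23 (hs : Setup E O t B x) (hV : Gauss E O x V)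
    {δ : Derivation ℤ K K} {D : Derivation ℤ N N} {A : K[X]} (hD : Der E O t x δ D A)
    (hA : ∀ b ∈ B, A.eval b = δ b)
    (halg : ∀ z : N, IsAlgebraic (IntermediateField.adjoin K {x}) z)
    {L : Subfield N} {e : ℕ} (hL : Level E O t x D L e)
    (hAL : ∀ i, algebraMap K N (A.coeff i) ∈ L) {ϖ : K} (hϖ : ϖ ^ e = t) (k : ℕ) :
    ∀ (m : ℕ) (z : N), z ∈ L → Fix (K := K) x V z → Reg (K := K) x z →
      (∀ V' : ValuationSubring N, Gauss E O x V' →
        V'.valuation z ≤ V'.valuation (algebraMap K N (ϖ ^ m))) →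
      ∃ c ∈ Algebra.adjoin E {algebraMap K N ϖ, x},
        V.valuation (z - algebraMap K N (ϖ ^ m) * c) ≤
          V.valuation (algebraMap K N (ϖ ^ (m + k))) := by
  have : CharZero K := charZero_of_injective_algebraMap (algebraMap E K).injective
  have : CharZero N := charZero_of_injective_algebraMap (algebraMap K N).injective
  have he : (e : N) ≠ 0 := Nat.cast_ne_zero.2 hL.pos.ne'
  have heK : (e : K) ≠ 0 := Nat.cast_ne_zero.2 hL.pos.ne'
  have hϖ0 : ϖ ≠ 0 := by
    rintro rfl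
    rw [zero_pow hL.pos.ne'] at hϖ
    exact hs.base.t_ne hϖ.symm
  have hδϖ : δ ϖ = ϖ / e := der_root hD.t_eq hs.base.t_ne hL.pos hϖ
  have hδpow : ∀ m : ℕ, δ (ϖ ^ m) = (m : K) / e * ϖ ^ m := by
    intro m
    rcases Nat.eq_zero_or_pos m with rfl | hm
    · simp
    · rw [Derivation.leibniz_pow, hδϖ, nsmul_eq_mul, smul_eq_mul]
      obtain ⟨m', rfl⟩ := Nat.exists_eq_add_of_lt hm
      rw [zero_add, Nat.add_sub_cancel, pow_succ]
      field_simp
  induction k with
  | zero =>
    intro m z _ _ _ hz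
    refine ⟨0, zero_mem _, ?_⟩
    rw [mul_zero, sub_zero, add_zero]
    exact hz V hV
  | succ k ih =>
    intro m z hzL hfix hreg hz
    -- the element `z' = D z - (m/e) z`
    have hcast : ((m : N) / e) = algebraMap K N ((m : K) / e) := by
      rw [map_div₀, map_natCast, map_natCast]
    set z' : N := D z - (m : N) / e * z with hz'
    have hz'L : z' ∈ L :=
      L.sub_mem (hL.der z hzL) (L.mul_mem (L.div_mem (natCast_mem L m) (natCast_mem L e)) hzL)
    have hz'fix : Fix (K := K) x V z' := by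
      intro g hg hgV
      have h1 := hfix g hg hgV
      have h2 := Der.comm hD halg g hg z
      rw [h1] at h2
      rw [hz', map_sub, map_mul, ← h2, h1, hcast, AlgEquiv.commutes]
    have hz'reg : Reg (K := K) x z' := by
      intro P hP
      have h1 : (m : N) / e ∈ P.ring := by
        rw [hcast]
        exact P.algebraMap_mem _
      exact sub_mem (Der.reg hs hD hA hreg P hP) (mul_mem h1 (hreg P hP))
    have hz'val : ∀ V' : ValuationSubring N, Gauss E O x V' →
        V'.valuation z' ≤ V'.valuation (algebraMap K N (ϖ ^ (m + 1))) := fun V' hV' =>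
      step_le23 hs.base hL hV' hϖ hz'L
        (Der.lt_of_le hs.base hD hs.tr halg hV' hL.pos hϖ (hz V' hV'))
    obtain ⟨c', hc', hc'v⟩ := ih (m + 1) z' hz'L hz'fix hz'reg hz'val
    -- the residue of `z / ϖ ^ m`
    set π : N := algebraMap K N (ϖ ^ m) with hπ
    have hπ0 : π ≠ 0 := (_root_.map_ne_zero _).2 (pow_ne_zero _ hϖ0)
    have hπinv : π⁻¹ = algebraMap K N ((ϖ ^ m)⁻¹) := by rw [map_inv₀]
    have hπv : 0 < V.valuation π := zero_lt_iff.2 ((Valuation.ne_zero_iff _).2 hπ0)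
    have hwfix : Fix (K := K) x V (z / π) := by
      intro g hg hgV
      rw [map_div₀, hfix g hg hgV, hπ, AlgEquiv.commutes]
    have hwreg : Reg (K := K) x (z / π) := by
      intro P hP
      rw [div_eq_mul_inv, hπinv]
      exact mul_mem (hreg P hP) (P.algebraMap_mem _)
    have hwint : Int E O x (z / π) := by
      intro V' hV'
      have hπv' : 0 < V'.valuation π := zero_lt_iff.2 ((Valuation.ne_zero_iff _).2 hπ0)
      rw [← ValuationSubring.valuation_le_one_iff, map_div₀]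
      exact div_le_one_of_le₀ (hz V' hV') hπv'.le
    obtain ⟨c₁, hc₁⟩ := exists_poly_residue hs hV hwfix hwreg hwint
    obtain ⟨c, hc, hcc₁, hcv⟩ := exists_solution hs.base hD hs.tr halg hL hAL hV hϖ k c₁ hc'
    refine ⟨c, hc, ?_⟩
    set r : N := z - π * c with hr
    have hrlt : V.valuation r < V.valuation π := by
      have h1 : r = π * ((z / π - aeval x c₁) - (c - aeval x c₁)) := by
        rw [hr]; field_simp; ring
      have h2 : V.valuation ((z / π - aeval x c₁) - (c - aeval x c₁)) < 1 := by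
        refine (Valuation.map_sub _ _ _).trans_lt (max_lt ?_ ?_)
        · exact (ValuationSubring.mem_nonunits_iff V).1 hc₁
        · exact (ValuationSubring.mem_nonunits_iff V).1 hcc₁
      rw [h1, map_mul]
      calc V.valuation π * V.valuation ((z / π - aeval x c₁) - (c - aeval x c₁))
          < V.valuation π * 1 := mul_lt_mul_of_pos_left h2 hπv
        _ = V.valuation π := mul_one _
    have hDπ : D π = (m : N) / e * π := by
      rw [hπ, hD.ext, hδpow, map_mul, hcast]
    have hDr : D r - (m : N) / e * r =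
        (z' - algebraMap K N (ϖ ^ (m + 1)) * c') - π * (D c - algebraMap K N ϖ * c') := by
      rw [hr, map_sub, Derivation.leibniz, hDπ, hz', smul_eq_mul, smul_eq_mul, pow_succ, map_mul,
        ← hπ]
      ring
    have hval := Der.eq_of_lt hs.base hD hs.tr halg hV hL.pos hϖ hrlt
    rw [← hval, hDr]
    refine (Valuation.map_sub _ _ _).trans (max_le ?_ ?_)
    · rw [show m + (k + 1) = m + 1 + k by ring]
      exact hc'v
    · rw [map_mul, pow_add, map_mul, map_mul]
      exact mul_le_mul_of_nonneg_left hcv hπv.le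

theorem approx (hs : Setup E O t B x) (hV : Gauss E O x V) {z : N}
    (hfix : Fix (K := K) x V z) (hreg : Reg (K := K) x z) (hint : Int E O x z) (n : ℕ) :
    ∃ p : K[X], (∀ i, p.coeff i ∈ O) ∧
      V.valuation (z - aeval x p) ≤ V.valuation (algebraMap K N (t ^ n)) := by
  have := hs.gal
  have halg : ∀ z : N, IsAlgebraic (IntermediateField.adjoin K {x}) z := fun z =>
    Algebra.IsAlgebraic.isAlgebraic z
  obtain ⟨δ, D, A, hD, hA⟩ := exists_der hs.base hs.tr halg B hs.B_mem hs.B_diff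
  obtain ⟨L, e, hL, hzL, hAL⟩ := exists_level hs.base hD hs.tr halg {z}
  obtain ⟨ϖ, hϖ⟩ := IsAlgClosed.exists_pow_nat_eq t hL.pos
  have hϖO : ϖ ∈ O := by
    have h1 := (ValuationSubring.mem_nonunits_iff O).1 hs.base.t_mem
    rw [← hϖ, map_pow] at h1
    rw [← ValuationSubring.valuation_le_one_iff]
    exact (pow_le_one_iff_of_nonneg zero_le hL.pos.ne').1 h1.le
  obtain ⟨c, hc, hcv⟩ := claim23 hs hV hD hA halg hL hAL hϖ (e * n) 0 z
    (hzL z (Finset.mem_singleton_self z)) hfix hreg (fun V' hV' => by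
      rw [pow_zero, map_one, map_one]
      exact (ValuationSubring.valuation_le_one_iff _ _).2 (hint V' hV'))
  obtain ⟨p, hp, rfl⟩ := exists_coeff23 hs.base hϖO hc
  refine ⟨p, hp, ?_⟩
  rw [pow_zero, map_one, one_mul, zero_add, pow_mul, hϖ] at hcv
  exact hcv

end Pool.Agent.LT
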