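import Mathlib
import Pool.Agent.Helper26.VC.Defs

/-!
# Places with good reduction in residue characteristic zero: definitions

`E` is an algebraically closed field of characteristic zero, `K` an algebraically closed field
containing it, `O` a valuation ring of `K` containing `E` and `t` a nonzero element of its maximal
ideal such that `K` is algebraic over `E(t)` (so `O` is one of the extensions of the local ring of
`E[t]` at `t = 0`, and its residue field is `E`).  `N` is an extension of `K` and `x` an element
of `N`, transcendental over `K`.
-/

universe u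

namespace Pool.Agent.LT

open VC Polynomial

/-- The valuation ring `O` of `K` contains `E`, its maximal ideal contains `t ≠ 0` and `K` is
algebraic over `E(t)`. -/
structure Base (E : Type u) {K : Type u} [Field E] [Field K] [Algebra E K]
    (O : ValuationSubring K) (t : K) : Prop where
  const : ∀ c : E, algebraMap E K c ∈ O
  t_ne : t ≠ 0
  t_mem : t ∈ O.nonunits
  alg : ∀ z : K, IsAlgebraic (IntermediateField.adjoin E {t}) z

/-- `V` is a valuation ring of `N` above the Gauss extension of `O` to `K(x)`: it induces `O` on
`K`, and the residue of `x` is transcendental over `E` (the residue field of `O`). -/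
structure Gauss (E : Type u) {K N : Type u} [Field E] [Field K] [Algebra E K] [Field N]
    [Algebra K N] [Algebra E N] (O : ValuationSubring K) (x : N) (V : ValuationSubring N) :
    Prop where
  mem_iff : ∀ c : K, algebraMap K N c ∈ V ↔ c ∈ O
  x_mem : x ∈ V
  x_tr : ∀ p : E[X], p ≠ 0 → aeval x p ∉ V.nonunits

/-- The derivations `δ` of `K` and `D` of `N`: `δ` is the extension of `t d/dt`, `D` extends `δ`
and `D x = A(x)` where the coefficients of `A` are in the maximal ideal of `O`. -/
structure Der (E : Type u) {K N : Type u} [Field E] [Field K] [Algebra E K] [Field N]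
    [Algebra K N] (O : ValuationSubring K) (t : K) (x : N) (δ : Derivation ℤ K K)
    (D : Derivation ℤ N N) (A : K[X]) : Prop where
  ext : ∀ c : K, D (algebraMap K N c) = algebraMap K N (δ c)
  const : ∀ e : E, δ (algebraMap E K e) = 0
  t_eq : δ t = t
  x_eq : D x = aeval x A
  A_mem : ∀ i, A.coeff i ∈ O.nonunits

/-- A subfield `L` of `N` which is stable under `D`, with `ord(L) ⊆ (1/e) ℤ ord(t)` for all
valuation rings of `N` above the Gauss extension. -/
structure Level (E : Type u) {K N : Type u} [Field E] [Field K] [Algebra E K] [Field N]
    [Algebra K N] [Algebra E N] (O : ValuationSubring K) (t : K) (x : N) (D : Derivation ℤ N N)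
    (L : Subfield N) (e : ℕ) : Prop where
  const : ∀ c : E, algebraMap E N c ∈ L
  t_mem : algebraMap K N t ∈ L
  x_mem : x ∈ L
  der : ∀ z ∈ L, D z ∈ L
  pos : 0 < e
  vals : ∀ V : ValuationSubring N, Gauss E O x V → ∀ z ∈ L, z ≠ 0 → ∃ j : ℤ,
    V.valuation z ^ e = V.valuation (algebraMap K N t) ^ j

/-- `N` is a function field of one variable over `K` which is a Galois extension of `K(x)`,
unramified at the finite places outside the finite set `B`, where `B` consists of elements of `O`
with distinct residues. -/
structure Setup (E : Type u) {K N : Type u} [Field E] [Field K] [Algebra E K] [Field N]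
    [Algebra K N] (O : ValuationSubring K) (t : K) (B : Finset K) (x : N) : Prop where
  base : Base E O t
  ff : IsFunctionField K N
  tr : Transcendental K x
  gal : IsGalois (IntermediateField.adjoin K {x}) N
  B_mem : ∀ b ∈ B, b ∈ O
  B_diff : ∀ b ∈ B, ∀ b' ∈ B, b ≠ b' → b - b' ∉ O.nonunits
  unr : ∀ (P : Place K N) (a : K), a ∉ B → x - algebraMap K N a ∈ P.ring.nonunits →
    ord P.ring (x - algebraMap K N a) = 1

/-- `z` is regular at all places at which `x` is regular. -/
def Reg {K N : Type u} [Field K] [Field N] [Algebra K N] (x z : N) : Prop :=
  ∀ P : Place K N, x ∈ P.ring → z ∈ P.ring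

/-- `z` is in all the valuation rings above the Gauss extension. -/
def Int (E : Type u) {K N : Type u} [Field E] [Field K] [Algebra E K] [Field N]
    [Algebra K N] [Algebra E N] (O : ValuationSubring K) (x z : N) : Prop :=
  ∀ V : ValuationSubring N, Gauss E O x V → z ∈ V

/-- `z` is in the decomposition field of `V`. -/
def Fix {K N : Type u} [Field K] [Field N] [Algebra K N] (x : N) (V : ValuationSubring N)
    (z : N) : Prop :=
  ∀ g : N ≃ₐ[K] N, g x = x → (∀ w, g w ∈ V ↔ w ∈ V) → g z = z

end Pool.Agent.LT
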