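import Pool.Agent.Helper13.LT.Defs
import Pool.Agent.SC.Defs2

/-!
# Good reduction: definitions for the infinite unramified extension `U`
-/

universe u

namespace Pool.Agent.LT

open VC Polynomial

/-- `M` is a function field over `K`, a Galois extension of `K(x)` unramified at the finite places
outside `B`, where `B` consists of elements of `O` with distinct residues, and `U` is a maximal
unramified extension of `M`. -/
structure USetup (E : Type u) {K U : Type u} [Field E] [Field K] [Algebra E K] [Field U]
    [Algebra K U] (O : ValuationSubring K) (t : K) (B : Finset K) (M : IntermediateField K U)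
    (x : U) : Prop where
  base : Base E O t
  cover : SC.IsCover M
  x_mem : x ∈ M
  tr : Transcendental K x
  gal : IsGalois (IntermediateField.adjoin K {x}) U
  stab : ∀ g : U ≃ₐ[K] U, g x = x → ∀ m ∈ M, g m ∈ M
  B_mem : ∀ b ∈ B, b ∈ O
  B_diff : ∀ b ∈ B, ∀ b' ∈ B, b ≠ b' → b - b' ∉ O.nonunits
  unr : ∀ P : ValuationSubring U, (∀ c : K, algebraMap K U c ∈ P) → ∀ a : K, a ∉ B →
    x - algebraMap K U a ∈ P.nonunits → ∀ u : U, u ≠ 0 → ∃ j : ℤ,
      P.valuation u = P.valuation (x - algebraMap K U a) ^ j

/-- `z` is integral over `O[x]`. -/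
def IntO {K U : Type u} [Field K] [Field U] [Algebra K U] (O : ValuationSubring K) (x z : U) :
    Prop :=
  ∃ P : K[X][X], P.Monic ∧ (∀ i j, (P.coeff i).coeff j ∈ O) ∧
    eval₂ (aeval x : K[X] →ₐ[K] U).toRingHom z P = 0

/-- `R` is the residue field of `V`, as an extension of the field of constants `E`. -/
structure Res (E : Type u) {U R : Type u} [Field E] [Field U] [Algebra E U] [Field R] [Algebra E R]
    (V : ValuationSubring U) (π : V →+* R) : Prop where
  surj : Function.Surjective π
  ker : ∀ z : V, π z = 0 ↔ (z : U) ∈ V.nonunits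
  const : ∀ (e : E) (z : V), (z : U) = algebraMap E U e → π z = algebraMap E R e

/-- The automorphism `ρ` of the residue field is induced by the automorphism `g`. -/
def Induces {U R : Type u} [Field U] [Field R] {V : ValuationSubring U} (π : V →+* R)
    (g : U → U) (ρ : R → R) : Prop :=
  ∀ z w : V, (w : U) = g z → ρ (π z) = π w

/-- A cover in the form in which it is used in the weights theorem: `M' / E` is a function field,
`R / M'` is Galois, no automorphism over `M'` except the identity fixes a place of `R`, and
the abelianised Galois groups of the levels are torsion free. -/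
structure RCover {E R : Type u} [Field E] [Field R] [Algebra E R] (M' : IntermediateField E R) :
    Prop where
  ff : IsFunctionField E M'
  gal : IsGalois M' R
  free : ∀ (ρ : R ≃ₐ[M'] R) (Q : ValuationSubring R), (∀ e : E, algebraMap E R e ∈ Q) → Q ≠ ⊤ →
    (∀ r, ρ r ∈ Q ↔ r ∈ Q) → ρ = 1
  div : ∀ N : IntermediateField E R, M' ≤ N → IsFunctionField E N → ∀ (w : R) (a b : ℕ), 0 < a →
    0 < b → w ≠ 0 → w ^ a ∈ N → ∃ w' : R, w' ≠ 0 ∧ w' ^ b / w ∈ N

end Pool.Agent.LT
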