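import Pool.Agent.Helper13.LT.U6
import Pool.Agent.Helper13.LT.U7

/-!
# Block U8: the residue field is a cover in the sense of the weights theorem

`ff`: U4.  `gal`: `R / E(x̄)` is Galois (U4) and `x̄ ∈ resField M`.  `free`: `ρ` is induced by `g`
over `M` (`exists_induces_over`), `g = 1` by U6, so `ρ = 1` (`π` is surjective).  `div`: U7.
-/

universe u

namespace Pool.Agent.LT

open VC Polynomial

variable {E K U R : Type u} [Field E] [IsAlgClosed E] [CharZero E] [Field K] [IsAlgClosed K]
  [Algebra E K] [Field U] [Algebra K U] [Algebra E U] [IsScalarTower E K U] [Field R]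
  [Algebra E R]
  {O : ValuationSubring K} {t : K} {x : U} {B : Finset K} {M : IntermediateField K U}
  {V : ValuationSubring U} {π : V →+* R}

theorem USetup.rcover (hu : USetup E O t B M x) (hV : Gauss E O x V) (hR : Res E V π) :
    RCover (resField hV hR M) := by
  have hxM : π ⟨x, hV.x_mem⟩ ∈ resField hV hR M := ⟨⟨x, hV.x_mem⟩, hu.x_mem, rfl⟩
  refine ⟨hu.isFunctionField_resField hV hR, ?_, ?_, ?_⟩
  · have h1 := (hu.isGalois_residue hV hR).2
    have hle : IntermediateField.adjoin E {π ⟨x, hV.x_mem⟩} ≤ resField hV hR M := by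
      rw [IntermediateField.adjoin_le_iff]
      simpa using hxM
    let _ : Algebra (IntermediateField.adjoin E {π ⟨x, hV.x_mem⟩}) (resField hV hR M) :=
      (IntermediateField.inclusion hle).toRingHom.toAlgebra
    have : IsScalarTower (IntermediateField.adjoin E {π ⟨x, hV.x_mem⟩})
        (resField hV hR M) R := IsScalarTower.of_algebraMap_eq fun _ => rfl
    exact IsGalois.tower_top_of_isGalois (IntermediateField.adjoin E {π ⟨x, hV.x_mem⟩})
      (resField hV hR M) R
  · intro ρ Q hQE hQ1 hρQ
    obtain ⟨g, hgM, hgi⟩ := hu.exists_induces_over hV hR (ρ.restrictScalars E)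
      (fun r hr => ρ.commutes ⟨r, hr⟩)
    have hg1 := hu.eq_one_of_fixes hV hR g hgM (ρ.restrictScalars E) hgi Q hQE hQ1 hρQ
    ext r
    obtain ⟨z, rfl⟩ := hR.surj r
    exact hgi z z (by rw [hg1]; rfl)
  · intro N hMN hN w a b ha hb hw0 hw
    exact hu.div_residue hV hR hMN hN ha hb hw0 hw

end Pool.Agent.LT
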