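import Pool.Agent.Helper13.LT.Defs3
import Pool.Agent.Helper13.LT.U8
import Pool.Agent.Helper13.LT.W2

/-!
# Block S1: inertia elements which are trivial on the residue field of `M` are trivial on the
residue field of `U`

`stable`: `USetup.stable` (U2) with `σ = a γ`, `φ = φ γ`.

`trivial`: `R = V / 𝔪_V` as an `E`-algebra (`Res`), `π` the projection.  Each `γ ∈ D` induces an automorphism
`ρ_γ` of `R`; `H = {ρ_γ | γ ∈ D}`, `α = ρ_τ`.  `α` is trivial on `resField M` by `hM`.
`RCover` by U8.  `CyclRel H α` from `LocAct.cycl` (lift the elements of `R` to `V`, roots of unity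
are in `E` and in `K`), `HasFrob E H` from `LocAct.frob` (`φ γ` on `E` is `σ`).  `RCover.weights` (W2): `α = 1`.
Note that `φ τ e = e` for `e ∈ E`, `τ ∈ I`: `φ τ e - e ∈ E ∩ 𝔪_O = 0`.
-/

universe u

namespace Pool.Agent.LT

open VC Polynomial Pool.Agent.SC

variable {E K U Γ : Type u} [Field E] [IsAlgClosed E] [CharZero E] [Field K] [IsAlgClosed K]
  [Algebra E K] [Field U] [Algebra K U] [Algebra E U] [IsScalarTower E K U] [Group Γ]
  {O : ValuationSubring K} {t : K} {x : U} {B : Finset K} {M : IntermediateField K U}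
  {V : ValuationSubring U} {a : Γ →* (U ≃+* U)} {φ : Γ →* (K ≃+* K)} {D I : Subgroup Γ}

theorem LocAct.stable (ha : LocAct E O M x a φ D I) (hu : USetup E O t B M x)
    (hV : Gauss E O x V) {γ : Γ} (hγ : γ ∈ D) (z : U) : a γ z ∈ V ↔ z ∈ V :=
  hu.stable hV (a γ) (φ γ) (fun c => ha.ext γ c) (fun c => ha.dec γ hγ c) (ha.x_eq γ) z

omit [Algebra E K] [IsAlgClosed E] [CharZero E] [IsAlgClosed K] [Algebra K U] [Algebra E U]
  [IsScalarTower E K U] [Field E] [Field K] in
private lemma a_mul_h68 (a : Γ →* (U ≃+* U)) (γ γ' : Γ) (z : U) : a (γ * γ') z = a γ (a γ' z) := by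
  rw [map_mul]
  rfl

omit [Algebra E K] [IsAlgClosed E] [CharZero E] [IsAlgClosed K] [Algebra K U] [Algebra E U]
  [IsScalarTower E K U] [Field E] [Field K] in
private lemma a_one_h68 (a : Γ →* (U ≃+* U)) (z : U) : a 1 z = z := by
  rw [map_one]
  rfl

/-- the action of `D` on the valuation ring -/
private def actV_h68 (a : Γ →* (U ≃+* U)) (D : Subgroup Γ) (V : ValuationSubring U)
    (hs : ∀ γ ∈ D, ∀ z : U, a γ z ∈ V ↔ z ∈ V) : D →* RingAut V where
  toFun γ :=
    { toFun := fun z => ⟨a γ.1 z.1, (hs γ.1 γ.2 z.1).2 z.2⟩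
      invFun := fun z => ⟨a (γ.1)⁻¹ z.1, (hs _ (D.inv_mem γ.2) z.1).2 z.2⟩
      left_inv := fun z => Subtype.ext (by
        show a (γ.1)⁻¹ (a γ.1 z.1) = z.1
        rw [← a_mul_h68, inv_mul_cancel, a_one_h68])
      right_inv := fun z => Subtype.ext (by
        show a γ.1 (a (γ.1)⁻¹ z.1) = z.1
        rw [← a_mul_h68, mul_inv_cancel, a_one_h68])
      map_mul' := fun z w => Subtype.ext (by
        show a γ.1 (z.1 * w.1) = a γ.1 z.1 * a γ.1 w.1
        rw [map_mul])
      map_add' := fun z w => Subtype.ext (by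
        show a γ.1 (z.1 + w.1) = a γ.1 z.1 + a γ.1 w.1
        rw [map_add]) }
  map_one' := by
    ext z
    show a 1 z.1 = z.1
    rw [a_one_h68]
  map_mul' γ γ' := by
    ext z
    show a (γ.1 * γ'.1) z.1 = a γ.1 (a γ'.1 z.1)
    rw [a_mul_h68]

omit [Algebra E K] [IsAlgClosed E] [CharZero E] [IsAlgClosed K] [Algebra K U] [Algebra E U]
  [IsScalarTower E K U] [Field E] [Field K] in
private lemma actV_apply_h68 (a : Γ →* (U ≃+* U)) (D : Subgroup Γ) (V : ValuationSubring U)
    (hs : ∀ γ ∈ D, ∀ z : U, a γ z ∈ V ↔ z ∈ V) (γ : D) (z : V) :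
    ((actV_h68 a D V hs γ z : V) : U) = a γ.1 z.1 := rfl

/-- the action of `D` on the residue field -/
private noncomputable def actR_h68 (a : Γ →* (U ≃+* U)) (D : Subgroup Γ) (V : ValuationSubring U)
    (hs : ∀ γ ∈ D, ∀ z : U, a γ z ∈ V ↔ z ∈ V) :
    D →* (IsLocalRing.ResidueField V ≃+* IsLocalRing.ResidueField V) :=
  (IsLocalRing.ResidueField.mapAut (R := V)).comp (actV_h68 a D V hs)

omit [Algebra E K] [IsAlgClosed E] [CharZero E] [IsAlgClosed K] [Algebra K U] [Algebra E U]
  [IsScalarTower E K U] [Field E] [Field K] in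
private lemma actR_residue_h68 (a : Γ →* (U ≃+* U)) (D : Subgroup Γ) (V : ValuationSubring U)
    (hs : ∀ γ ∈ D, ∀ z : U, a γ z ∈ V ↔ z ∈ V) (γ : D) (z : V) :
    actR_h68 a D V hs γ (IsLocalRing.residue V z) =
      IsLocalRing.residue V (actV_h68 a D V hs γ z) := rfl

omit [Algebra E K] [IsAlgClosed E] [CharZero E] [IsAlgClosed K] [Algebra K U] [Algebra E U]
  [IsScalarTower E K U] [Field E] [Field K] in
private lemma residue_eq_h68 (V : ValuationSubring U) (z w : V) :
    IsLocalRing.residue V z = IsLocalRing.residue V w ↔ (z : U) - w ∈ V.nonunits := by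
  have h : (z : U) - w = ((z - w : V) : U) := rfl
  rw [h, ValuationSubring.coe_mem_nonunits_iff, ← IsLocalRing.residue_eq_zero_iff, map_sub, sub_eq_zero]

theorem LocAct.trivial (ha : LocAct E O M x a φ D I) (hu : USetup E O t B M x)
    (hV : Gauss E O x V) {τ : Γ} (hτ : τ ∈ I)
    (hM : ∀ z ∈ V, z ∈ M → a τ z - z ∈ V.nonunits) : ∀ z ∈ V, a τ z - z ∈ V.nonunits := by
  classical
  have hs : ∀ γ ∈ D, ∀ z : U, a γ z ∈ V ↔ z ∈ V := fun γ hγ z => ha.stable hu hV hγ z
  have hcE : ∀ e : E, algebraMap E U e ∈ V := by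
    intro e
    rw [IsScalarTower.algebraMap_apply E K U, hV.mem_iff]
    exact hu.base.const e
  let cE : E →+* V := (algebraMap E U).codRestrict V.toSubring hcE
  let _ : Algebra E (IsLocalRing.ResidueField V) := ((IsLocalRing.residue V).comp cE).toAlgebra
  have halg : ∀ e : E, algebraMap E (IsLocalRing.ResidueField V) e = IsLocalRing.residue V (cE e) :=
    fun e => rfl
  have hR : Res E V (IsLocalRing.residue V) := by
    refine ⟨IsLocalRing.residue_surjective, ?_, ?_⟩
    · intro z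
      rw [ValuationSubring.coe_mem_nonunits_iff]
      exact IsLocalRing.residue_eq_zero_iff z
    · intro e z hz
      have h1 : z = cE e := Subtype.ext hz
      rw [h1]
      rfl
  -- the action of `γ ∈ D` on the constants
  have hconst : ∀ (γ : D) (e e' : E), φ γ.1 (algebraMap E K e) = algebraMap E K e' →
      actR_h68 a D V hs γ (algebraMap E (IsLocalRing.ResidueField V) e) =
        algebraMap E (IsLocalRing.ResidueField V) e' := by
    intro γ e e' h
    rw [halg, halg, actR_residue_h68]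
    congr 1
    refine Subtype.ext ?_
    rw [actV_apply_h68]
    show a γ.1 (algebraMap E U e) = algebraMap E U e'
    rw [IsScalarTower.algebraMap_apply E K U, ha.ext, h, ← IsScalarTower.algebraMap_apply E K U]
  have hcov : RCover (resField hV hR M) := hu.rcover hV hR
  set ψ := actR_h68 a D V hs with hψ
  set α : IsLocalRing.ResidueField V ≃+* IsLocalRing.ResidueField V := ψ ⟨τ, ha.le hτ⟩ with hα
  have hαM : ∀ m ∈ resField hV hR M, α m = m := by
    intro m hm
    rw [mem_resField] at hm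
    obtain ⟨z, hzM, rfl⟩ := hm
    rw [hα, hψ, actR_residue_h68, residue_eq_h68, actV_apply_h68]
    exact hM z.1 z.2 hzM
  have hrel : CyclRel ψ.range α := by
    rintro _ ⟨γ, rfl⟩ z m hm
    obtain ⟨v, rfl⟩ := IsLocalRing.residue_surjective z
    obtain ⟨j, hj1, hj2⟩ := ha.cycl γ.1 γ.2 τ hτ (v : U) m hm
    refine ⟨j, ?_, ?_⟩
    · intro ζ hζ
      obtain ⟨c, rfl⟩ := exists_const_of_pow_eq_one (E := E) hm hζ
      have hc1 : (algebraMap E K c) ^ m = 1 := by
        have h2 : c ^ m = 1 := (algebraMap E (IsLocalRing.ResidueField V)).injective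
          (by rw [map_pow, hζ, map_one])
        rw [← map_pow, h2, map_one]
      have h3 : φ γ.1 (algebraMap E K c) = algebraMap E K (c ^ j) := by
        rw [hj1 _ hc1, map_pow]
      rw [hconst γ c (c ^ j) h3, map_pow]
    · have e1 : ψ γ (α ((ψ γ).symm (IsLocalRing.residue V v))) =
          ψ (γ * ⟨τ, ha.le hτ⟩ * γ⁻¹) (IsLocalRing.residue V v) := by
        rw [map_mul, map_mul, map_inv]
        rfl
      have e2 : (α ^ j) (IsLocalRing.residue V v) = ψ ((⟨τ, ha.le hτ⟩ : D) ^ j) (IsLocalRing.residue V v) := by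
        rw [map_pow]
      rw [e1, e2, hψ, actR_residue_h68, actR_residue_h68]
      congr 1
      refine Subtype.ext ?_
      rw [actV_apply_h68, actV_apply_h68]
      exact hj2
  have hfrob : HasFrob E ψ.range := by
    intro Z S hS
    obtain ⟨γ, hγ, hZ, A, σ, p, f, hF, hσ, hSA⟩ := ha.frob
      (Z.image fun r => ((Function.surjInv hR.surj r : V) : U)) S hS
    refine ⟨ψ ⟨γ, hγ⟩, ⟨_, rfl⟩, ?_, A, σ, p, f, hF, ?_, hSA⟩
    · intro r hr
      have h1 := hZ _ (Finset.mem_image_of_mem _ hr)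
      have h2 := Function.surjInv_eq hR.surj r
      conv_lhs => rw [← h2]
      conv_rhs => rw [← h2]
      rw [hψ, actR_residue_h68]
      congr 1
      refine Subtype.ext ?_
      rw [actV_apply_h68]
      exact h1
    · intro c
      exact hconst ⟨γ, hγ⟩ c (σ c) (hσ c)
  intro z hz
  have h1 := hcov.weights hαM hrel hfrob (IsLocalRing.residue V ⟨z, hz⟩)
  rw [hα, hψ, actR_residue_h68, residue_eq_h68, actV_apply_h68] at h1
  exact h1

end Pool.Agent.LT
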