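import Pool.Agent.SC.W1
import Pool.Agent.Helper13.LT.Defs2

/-!
# Block W1: the weights theorem for a class of torsion line bundles

These are `SC.R7.frob_surj` and `SC.W1.weights_ring` with the divisibility of the class group
replaced by the divisibility of a class `T` of torsion ideals.  Proof of `frob_surj_class`: repeat
the proof of `frob_surj` (SC/R7, R7core), applying `coinv_group` to the subgroup of `ClassGroup B` of the
classes of the ideals in `T` (stable under `γ` and divisible by `ℓ`).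
`weights_ring_class`: `T I := ∃ w, RootOf ℓ I w`.  It consists of `PowTor` ideals
(`RootOf.powTor`), is closed under products (`RootOf.mul_rel` or directly), contains `⊤`, is closed under
`SameClass` (multiply `w` by an element of `B`/fraction field), divisible by `hdiv`, and stable
under the `γ` of `HasFrob` (apply the automorphism of `Ω` to `w`).  Then follow the proof of `weights_ring`:
for `w` with ideal `I`, `frob_surj_class` gives `J` with root `w_J`, `J I ~ γ J`, and the relation `CyclRel`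
shows that the Kummer character of `α` on `w` is trivial.
-/

universe u v w

set_option linter.unusedSectionVars false
set_option linter.overlappingInstances false

namespace Pool.Agent.LT

open Module Pool.Agent.SC

/-- the classes of the ideals in `T` -/
private noncomputable def clsub37 {B : Type v} [CommRing B] [IsDomain B] [IsDedekindDomain B] {ℓ : ℕ}
    (hℓ : ℓ.Prime) {T : Ideal B → Prop} (hT : ∀ I, T I → PowTor ℓ I)
    (hTmul : ∀ I J, T I → T J → T (I * J)) (hTone : T ⊤) : Subgroup (ClassGroup B) where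
  carrier := {x | ∃ (J : Ideal B) (hJ : J ≠ ⊥), T J ∧ R7.cl J hJ = x}
  mul_mem' := by
    rintro x y ⟨J, hJ, hTJ, rfl⟩ ⟨J', hJ', hTJ', rfl⟩
    exact ⟨J * J', mul_ne_zero hJ hJ', hTmul J J' hTJ hTJ', R7.cl_mul hJ hJ' (mul_ne_zero hJ hJ')⟩
  one_mem' := by
    refine ⟨⊤, top_ne_bot, hTone, (R7.cl_eq_one_iff top_ne_bot).2 ⟨⟨1, ?_⟩⟩⟩
    exact (Ideal.span_singleton_one).symm
  inv_mem' := by
    rintro x ⟨J, hJ, hTJ, rfl⟩
    obtain ⟨-, m, hm⟩ := hT J hTJ
    have hpow : ∀ n : ℕ, T (J ^ n) := by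
      intro n
      induction n with
      | zero => rw [pow_zero, Ideal.one_eq_top]; exact hTone
      | succ n ih => rw [pow_succ]; exact hTmul _ _ ih hTJ
    have h1 : R7.cl J hJ ^ ℓ ^ m = 1 := by
      rw [← R7.cl_pow hJ _ (pow_ne_zero _ hJ), R7.cl_eq_one_iff]
      exact hm
    refine ⟨J ^ (ℓ ^ m - 1), pow_ne_zero _ hJ, hpow _, ?_⟩
    rw [R7.cl_pow hJ _ (pow_ne_zero _ hJ), eq_inv_iff_mul_eq_one, ← pow_succ]
    have h2 : ℓ ^ m - 1 + 1 = ℓ ^ m := by
      have := pow_pos hℓ.pos m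
      omega
    rw [h2, h1]

/-- `frob_surj` for a divisible class `T` of torsion ideals. -/
theorem frob_surj_class {k : Type u} {B : Type v} [Field k] [IsAlgClosed k] [CommRing B]
    [IsDomain B] [IsDedekindDomain B] [Algebra k B] {O : ValuationSubring k} {deg : B → ℕ}
    {E : Basis (degSet deg) k B} (h : OnePt k B deg) (hE : IntBasis O deg E)
    [IsDedekindDomain (Bbar h hE)]
    (hrk : ∀ a c : k, O.valuation a < 1 → c ≠ 0 → ∃ N : ℕ, O.valuation (a ^ N) < O.valuation c)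
    {ℓ : ℕ} (hℓ : ℓ.Prime) (hℓO : O.valuation (ℓ : k) = 1)
    {T : Ideal B → Prop} (hT : ∀ I, T I → PowTor ℓ I)
    (hTmul : ∀ I J, T I → T J → T (I * J)) (hTone : T ⊤)
    (hTsame : ∀ I J, T I → J ≠ ⊥ → SameClass I J → T J)
    (hdiv : ∀ I, T I → ∀ n : ℕ, ∃ J, T J ∧ SameClass I (J ^ ℓ ^ n))
    {γ : B ≃+* B} {σ : k ≃+* k} {p f : ℕ} (hp : p.Prime) (hf : 0 < f)
    (hTγ : ∀ I, T I → T (I.map (γ : B →+* B)))
    (hγσ : ∀ c, γ (algebraMap k B c) = algebraMap k B (σ c)) (hγE : ∀ m, γ (E m) = E m)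
    (hpO : O.valuation (p : k) < 1) (hσO : ∀ z, σ z ∈ O ↔ z ∈ O)
    (hfrob : ∀ z ∈ O, O.valuation (σ z - z ^ p ^ f) < 1)
    (horb : ∀ z : k, ∃ n : ℕ, 0 < n ∧ (σ^[n]) z = z)
    {I : Ideal B} (hI : T I) :
    ∃ J : Ideal B, T J ∧ SameClass (J * I) (J.map (γ : B →+* B)) := by
  classical
  have R : R7.RedProps h hE ℓ :=
    ⟨fun hI hJ => redI_mul h hE hI hJ, fun hI => redI_ne_bot h hE hI,
      fun hf => redI_span h hE hf, fun hI h1 h2 => principal_of_red h hE hrk hℓ hℓO hI h1 h2⟩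
  obtain ⟨M, hM⟩ := finite_frob h hE hp hf hγσ hγE hpO hσO hfrob
  obtain ⟨g, hg⟩ := R7.exists_clMap γ
  have hI0 : I ≠ ⊥ := (hT I hI).1
  have hb : M ≤ ℓ ^ M := (Nat.lt_pow_self hℓ.one_lt).le
  obtain ⟨J', hTJ', hIJ'⟩ := hdiv I hI M
  have hJ' : J' ≠ ⊥ := (hT J' hTJ').1
  have hcl : R7.cl I hI0 = R7.cl J' hJ' ^ ℓ ^ M := by
    rw [← R7.cl_pow hJ' _ (pow_ne_zero _ hJ'), R7.cl_eq_iff]
    exact hIJ'
  have htor : ∀ (K : Ideal B) (hK : K ≠ ⊥), T K → ∃ m, R7.cl K hK ^ ℓ ^ m = 1 := by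
    intro K hK hTK
    obtain ⟨-, m, hm⟩ := hT K hTK
    exact ⟨m, by rw [← R7.cl_pow hK _ (pow_ne_zero _ hK), R7.cl_eq_one_iff]; exact hm⟩
  let S : Subgroup (ClassGroup B) := clsub37 hℓ hT hTmul hTone
  have hgS : ∀ x ∈ S, g x ∈ S := by
    rintro x ⟨K, hK, hTK, rfl⟩
    exact ⟨K.map (γ : B →+* B), R7.map_ne_bot hK, hTγ K hTK, (hg K hK).symm⟩
  let gS : S →* S := (g.comp S.subtype).codRestrict S fun x => hgS x x.2
  have hgSc : ∀ x : S, ((gS x : S) : ClassGroup B) = g x := fun x => rfl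
  let c : S := ⟨R7.cl J' hJ', J', hJ', hTJ', rfl⟩
  have hiter : ∀ (n : ℕ) (K : Ideal B) (hK : K ≠ ⊥), ∃ hK' : ((Ideal.map (γ : B →+* B))^[n]) K ≠ ⊥,
      (g^[n]) (R7.cl K hK) = R7.cl (((Ideal.map (γ : B →+* B))^[n]) K) hK' := by
    intro n
    induction n with
    | zero => intro K hK; exact ⟨hK, rfl⟩
    | succ n ih =>
      intro K hK
      obtain ⟨hK', h1⟩ := ih K hK
      have h2 : ((Ideal.map (γ : B →+* B))^[n + 1]) K ≠ ⊥ := by
        rw [Function.iterate_succ_apply']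
        exact R7.map_ne_bot hK'
      refine ⟨h2, ?_⟩
      rw [Function.iterate_succ_apply', h1, hg, R7.cl_eq_iff, Function.iterate_succ_apply']
      exact ⟨1, 1, one_ne_zero, one_ne_zero, rfl⟩
  have hgiter : ∀ (n : ℕ) (x : S), (((gS^[n]) x : S) : ClassGroup B) = (g^[n]) x := by
    intro n
    induction n with
    | zero => intro x; rfl
    | succ n ih =>
      intro x
      rw [Function.iterate_succ_apply', hgSc, ih, Function.iterate_succ_apply']
  have horb' : ∃ n, 0 < n ∧ (gS^[n]) c = c := by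
    obtain ⟨n, hn, hn'⟩ := R7.exists_iterate_map hγσ hγE horb J'
    refine ⟨n, hn, ?_⟩
    obtain ⟨h1, h2⟩ := hiter n J' hJ'
    apply Subtype.ext
    rw [hgiter]
    change (g^[n]) (R7.cl J' hJ') = R7.cl J' hJ'
    rw [h2, R7.cl_eq_iff, hn']
    exact ⟨1, 1, one_ne_zero, one_ne_zero, rfl⟩
  have hM' : ∀ f : Fin (M + 1) → S,
      (∀ i, (∃ m, f i ^ ℓ ^ m = 1) ∧ gS (f i) = f i) → ∃ i j, i ≠ j ∧ f i = f j := by
    intro f hf'
    have hex : ∀ i, ∃ (K : Ideal B) (hK : K ≠ ⊥), T K ∧ R7.cl K hK = (f i : ClassGroup B) :=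
      fun i => (f i).2
    choose K hK hTK hKf using hex
    obtain ⟨i, j, hij, hred⟩ := hM K hK fun i => by
      have h1 : g (f i : ClassGroup B) = (f i : ClassGroup B) := by
        rw [← hgSc, (hf' i).2]
      rw [← hKf i, hg, R7.cl_eq_iff] at h1
      obtain ⟨a, b, ha, hb, hab⟩ := h1
      exact ⟨b, a, hb, ha, hab.symm⟩
    refine ⟨i, j, hij, Subtype.ext ?_⟩
    rw [← hKf i, ← hKf j]
    exact R7.cl_eq_of_red hℓ R (hK i) (hK j) (htor _ _ (hTK i)) (htor _ _ (hTK j)) hred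
  have hct : ∃ m, c ^ ℓ ^ m = 1 := by
    obtain ⟨m, hm⟩ := htor J' hJ' hTJ'
    exact ⟨m, Subtype.ext hm⟩
  obtain ⟨d, -, hdg⟩ := R7.coinv_group gS hℓ hM' hct horb' hb
  obtain ⟨J, hJ, hTJ, hJd⟩ : ∃ (J : Ideal B) (hJ : J ≠ ⊥), T J ∧ R7.cl J hJ = (d : ClassGroup B) :=
    d.2
  have hdg' : (d : ClassGroup B) * R7.cl J' hJ' ^ ℓ ^ M = g (d : ClassGroup B) :=
    congrArg Subtype.val hdg
  refine ⟨J, hTJ, ?_⟩
  rw [← R7.cl_eq_iff (mul_ne_zero hJ hI0) (R7.map_ne_bot hJ), R7.cl_mul hJ hI0, hcl,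
    ← hg J hJ, hJd]
  exact hdg'

variable {E : Type u} {B : Type v} {Ω : Type w} [Field E] [Field Ω] [Algebra E Ω]
  [IsAlgClosed E] [CommRing B] [IsDomain B] [IsDedekindDomain B]
  [Algebra E B] {deg : B → ℕ} [Algebra B Ω] [IsScalarTower E B Ω]

private theorem rootOf_mul37 {ℓ : ℕ} {I J : Ideal B} {w w' : Ω} (h : RootOf ℓ I w)
    (h' : RootOf ℓ J w') : RootOf ℓ (I * J) (w * w') := by
  obtain ⟨n, hn⟩ := h.at_level
  obtain ⟨n', hn'⟩ := h'.at_level
  obtain ⟨g, hg, hwg⟩ := hn (max n n') (le_max_left _ _)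
  obtain ⟨g', hg', hwg'⟩ := hn' (max n n') (le_max_right _ _)
  refine ⟨mul_ne_zero h.1 h'.1, max n n', g * g', ?_, ?_⟩
  · rw [mul_pow, hg, hg', Ideal.span_singleton_mul_span_singleton]
  · rw [mul_pow, hwg, hwg', map_mul]

private theorem rootOf_same37 (hinj : Function.Injective (algebraMap B Ω)) {ℓ : ℕ}
    {I J : Ideal B} {w : Ω} (h : RootOf ℓ I w) (hJ : J ≠ ⊥) (hs : SameClass I J) :
    ∃ w' : Ω, RootOf ℓ J w' := by
  obtain ⟨a, b, ha, hb, hab⟩ := hs
  obtain ⟨h0, n, g, hg, hwg⟩ := h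
  have hb' : algebraMap B Ω b ≠ 0 := fun h0 => hb (hinj (by rw [h0, map_zero]))
  have h1 : Ideal.span {a ^ ℓ ^ n * g} = Ideal.span {b ^ ℓ ^ n} * J ^ ℓ ^ n := by
    have h2 := congrArg (fun K => K ^ ℓ ^ n) hab
    simp only [mul_pow, hg, Ideal.span_singleton_pow,
      Ideal.span_singleton_mul_span_singleton] at h2
    exact h2
  have h3 : a ^ ℓ ^ n * g ∈ Ideal.span {b ^ ℓ ^ n} := by
    have h4 : Ideal.span {a ^ ℓ ^ n * g} ≤ Ideal.span {b ^ ℓ ^ n} :=
      h1.le.trans Ideal.mul_le_left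
    exact (Ideal.span_singleton_le_iff_mem _).1 h4
  obtain ⟨g', hg'⟩ := Ideal.mem_span_singleton'.1 h3
  have hbn : Ideal.span {b ^ ℓ ^ n} ≠ (⊥ : Ideal B) := by
    rw [Ne, Ideal.span_singleton_eq_bot]
    exact pow_ne_zero _ hb
  have h5 : Ideal.span {b ^ ℓ ^ n} * J ^ ℓ ^ n = Ideal.span {b ^ ℓ ^ n} * Ideal.span {g'} := by
    rw [← h1, Ideal.span_singleton_mul_span_singleton, ← hg', mul_comm]
  have h6 : J ^ ℓ ^ n = Ideal.span {g'} := mul_left_cancel₀ hbn h5
  refine ⟨algebraMap B Ω a / algebraMap B Ω b * w, hJ, n, g', h6, ?_⟩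
  rw [mul_pow, div_pow, hwg, ← map_pow, ← map_pow, div_mul_eq_mul_div, ← map_mul, ← hg', map_mul,
    mul_div_assoc, div_self, mul_one]
  rw [map_pow]
  exact pow_ne_zero _ hb'

/-- The weights theorem, ring form, for a divisible class of torsion ideals. -/
theorem weights_ring_class (hB : OnePt E B deg) (hinj : Function.Injective (algebraMap B Ω)) {ℓ : ℕ}
    (hℓ : ℓ.Prime) (hℓ0 : (ℓ : E) ≠ 0)
    (hdiv : ∀ (I : Ideal B) (w : Ω), RootOf ℓ I w → ∀ n : ℕ, ∃ (J : Ideal B) (w' : Ω),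
      RootOf ℓ J w' ∧ SameClass I (J ^ ℓ ^ n))
    {α : Ω ≃+* Ω} (hα : ∀ b : B, α (algebraMap B Ω b) = algebraMap B Ω b)
    {H : Subgroup (Ω ≃+* Ω)} (hrel : CyclRel H α) (hfrob : HasFrob E H)
    {I : Ideal B} {w : Ω} (hw : RootOf ℓ I w) : α w = w := by
  classical
  have hℓn : ℓ ≠ 0 := hℓ.ne_zero
  have hαE : ∀ c : E, α (algebraMap E Ω c) = algebraMap E Ω c := by
    intro x
    rw [IsScalarTower.algebraMap_apply E B Ω, hα]
  obtain ⟨Eb, F, S, hS, hEF, hO⟩ := exists_model hB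
  obtain ⟨h, hh, hZ, O, σ, p, f, hF, hσ, hSO⟩ := hfrob (F.image (algebraMap B Ω))
    (insert (ℓ : E) S) (by
      intro s hs
      rcases Finset.mem_insert.1 hs with rfl | hs
      · exact hℓ0
      · exact hS s hs)
  obtain ⟨hE, hDed⟩ := hO O (fun s hs => hSO s (Finset.mem_insert_of_mem hs))
  -- `h` fixes the basis
  have h1 : ∀ m, h (algebraMap B Ω (Eb m)) = algebraMap B Ω (Eb m) := by
    have key : ∀ x ∈ Submonoid.closure (F : Set B), h (algebraMap B Ω x) = algebraMap B Ω x := by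
      intro x hx
      induction hx using Submonoid.closure_induction with
      | mem x hx => exact hZ _ (Finset.mem_image_of_mem _ hx)
      | one => rw [map_one, map_one]
      | mul x y _ _ hx hy => rw [map_mul, map_mul, hx, hy]
    exact fun m => key _ (hEF m)
  have hgen : ∀ (g : Ω ≃+* Ω) (τ : E ≃+* E), (∀ c, g (algebraMap E Ω c) = algebraMap E Ω (τ c)) →
      (∀ m, g (algebraMap B Ω (Eb m)) = algebraMap B Ω (Eb m)) → ∀ b : B, ∃ b' : B,
        g (algebraMap B Ω b) = algebraMap B Ω b' := by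
    intro g τ hg1 hg2 b
    have hb := Eb.mem_span b
    induction hb using Submodule.span_induction with
    | mem x hx =>
      obtain ⟨m, rfl⟩ := hx
      exact ⟨Eb m, hg2 m⟩
    | zero => exact ⟨0, by rw [map_zero, map_zero]⟩
    | add x y _ _ hx hy =>
      obtain ⟨x', hx⟩ := hx
      obtain ⟨y', hy⟩ := hy
      exact ⟨x' + y', by rw [map_add, map_add, hx, hy, map_add]⟩
    | smul c x _ hx =>
      obtain ⟨x', hx⟩ := hx
      refine ⟨τ c • x', ?_⟩
      rw [Algebra.smul_def, Algebra.smul_def, map_mul, map_mul, map_mul, hx,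
        ← IsScalarTower.algebraMap_apply, ← IsScalarTower.algebraMap_apply, hg1]
  have hinv1 : ∀ c, h.symm (algebraMap E Ω c) = algebraMap E Ω (σ.symm c) := by
    intro c
    rw [RingEquiv.symm_apply_eq, hσ, RingEquiv.apply_symm_apply]
  have hinv2 : ∀ m, h.symm (algebraMap B Ω (Eb m)) = algebraMap B Ω (Eb m) := by
    intro m
    rw [RingEquiv.symm_apply_eq, h1]
  choose g1 hg1 using hgen h σ hσ h1
  choose g2 hg2 using hgen h.symm σ.symm hinv1 hinv2
  let γ : B ≃+* B :=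
    { toFun := g1
      invFun := g2
      left_inv := fun b => hinj (by rw [← hg2, ← hg1, h.symm_apply_apply])
      right_inv := fun b => hinj (by rw [← hg1, ← hg2, h.apply_symm_apply])
      map_mul' := fun a b => hinj (by rw [← hg1, map_mul, map_mul, map_mul, hg1, hg1])
      map_add' := fun a b => hinj (by rw [← hg1, map_add, map_add, map_add, hg1, hg1]) }
  have hγ : ∀ b, h (algebraMap B Ω b) = algebraMap B Ω (γ b) := hg1
  have hγσ : ∀ c, γ (algebraMap E B c) = algebraMap E B (σ c) := by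
    intro c
    apply hinj
    rw [← hγ, ← IsScalarTower.algebraMap_apply, ← IsScalarTower.algebraMap_apply, hσ]
  have hγE : ∀ m, γ (Eb m) = Eb m := fun m => hinj (by rw [← hγ, h1])
  have hhroot : ∀ (J : Ideal B) (u : Ω), RootOf ℓ J u → RootOf ℓ (J.map (γ : B →+* B)) (h u) := by
    rintro J u ⟨h0, n, g, hg, hug⟩
    refine ⟨?_, n, γ g, ?_, ?_⟩
    · intro hbot
      apply h0
      have hk := Ideal.map_eq_bot_iff_of_injective (f := (γ : B →+* B)) (I := J) γ.injective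
      exact hk.1 hbot
    · rw [← Ideal.map_pow, hg, Ideal.map_span, Set.image_singleton]
      rfl
    · rw [← map_pow, hug, hγ]
  obtain ⟨J, ⟨u, hu⟩, hJI⟩ := frob_surj_class (T := fun I => ∃ w : Ω, RootOf ℓ I w) hB hE hF.rank hℓ
    (hSO _ (Finset.mem_insert_self _ _)) (fun I ⟨w, hw⟩ => hw.powTor)
    (fun I J ⟨w, hw⟩ ⟨w', hw'⟩ => ⟨w * w', rootOf_mul37 hw hw'⟩)
    ⟨1, top_ne_bot, 0, 1, by rw [pow_zero, pow_one, Ideal.span_singleton_one],
      by rw [one_pow, map_one]⟩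
    (fun I J ⟨w, hw⟩ hJ hs => rootOf_same37 hinj hw hJ hs)
    (fun I ⟨w, hw⟩ n => by
      obtain ⟨J, w', hw', hs⟩ := hdiv I w hw n
      exact ⟨J, ⟨w', hw'⟩, hs⟩)
    hF.prime hF.pos (fun I ⟨w, hw⟩ => ⟨h w, hhroot I w hw⟩) hγσ hγE hF.residue hF.stable hF.frob
    hF.orb ⟨w, hw⟩
  have hu0 := hu.ne_zero hinj hℓn
  have hhu : RootOf ℓ (J.map (γ : B →+* B)) (h u) := hhroot J u hu
  have hkey := RootOf.mul_rel hB hinj hℓn hα hu hw hhu hJI
  have hroot2 : α (h u) / h u = α u / u := by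
    obtain ⟨h0, n, g, hg, hug⟩ := hu
    refine hrel.root hαE hh hu0 (pow_ne_zero n hℓn) ?_
    rw [hug, hα]
  rw [hroot2] at hkey
  have hne : α u / u ≠ 0 := div_ne_zero (by simpa using hu0) hu0
  have h6 : α w / w = 1 := mul_left_cancel₀ hne (by rw [hkey, mul_one])
  have hw0 := hw.ne_zero hinj hℓn
  rwa [div_eq_one_iff_eq hw0] at h6

end Pool.Agent.LT
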